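import Pool.Agent.P.MP_6d4b14_an.Period

namespace Pool.Agent.P.MP_6d4b14_an

namespace HSol
variable {f : ℚ → ℝ} (H : HSol f)
include H

lemma per_one (z : ℚ) : f (z + 1) = f z := by
  have := H.per_half 2 z
  simpa using this

lemma third_aux (z : ℚ) : ps f (1 / 3) (-2 * z) = ps f (1 / 3) z := by
  set φ : ℚ → ℝ := fun a => f a + f (2 * a) with hφ
  have hφ2 : Function.Periodic φ (1 / 2) := by
    intro a
    simp only [hφ]
    rw [H.half, show 2 * (a + 1 / 2) = 2 * a + 1 by ring, H.per_one]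
  have key : ∀ z : ℚ, ps f (1 / 3) z - ps f (1 / 3) (-2 * z) = φ (z + 1 / 6) - φ z := by
    intro z
    simp only [hφ, ps]
    have e1 : f (z + 1 / 6) = f (z - 1 / 3) := by
      rw [← H.half (z - 1 / 3)]; congr 1; ring
    have e2 : f (-2 * z - 1 / 3) = - f (2 * (z + 1 / 6)) := by
      rw [← H.odd]; congr 1; ring
    have e3 : f (-2 * z) = - f (2 * z) := by
      rw [← H.odd]; congr 1; ring
    rw [e1, e2, e3]; ring
  have h1 : ∀ z : ℚ, 0 ≤ z → z ≤ 1 / 3 → φ (z + 1 / 6) = φ z := by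
    intro z h0 h1
    have := H.loc (x := 1 / 3) (y := 3 * z) (by norm_num) (by norm_num) (by linarith) (by linarith)
    rw [show (1 / 3 - 1) * (3 * z) = -2 * z by ring, show 1 / 3 * (3 * z) = z by ring] at this
    have k := key z
    linarith
  have h2 : ∀ z : ℚ, 0 ≤ z → z ≤ 1 / 2 → φ (z + 1 / 6) = φ z := by
    intro z h0 hz
    rcases le_or_gt z (1 / 3) with h | h
    · exact h1 z h0 h
    · have a := h1 (z - 1 / 3) (by linarith) (by linarith)
      have b := h1 (z - 1 / 3 + 1 / 6) (by linarith) (by linarith)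
      have c := hφ2 (z - 1 / 3)
      rw [show z - 1 / 3 + 1 / 6 + 1 / 6 = z by ring] at b
      rw [show z - 1 / 3 + 1 / 2 = z + 1 / 6 by ring] at c
      linarith
  have h3 : φ (z + 1 / 6) = φ z := by
    set n := ⌊2 * z⌋
    have hn1 : (n : ℚ) ≤ 2 * z := Int.floor_le _
    have hn2 : 2 * z < n + 1 := Int.lt_floor_add_one _
    have a := h2 (z - n / 2) (by linarith) (by linarith)
    have b := hφ2.int_mul n (z - n / 2)
    have c := hφ2.int_mul n (z - n / 2 + 1 / 6)
    rw [show z - n / 2 + n * (1 / 2) = z by ring] at b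
    rw [show z - n / 2 + 1 / 6 + n * (1 / 2) = z + 1 / 6 by ring] at c
    linarith
  have k := key z
  linarith

lemma third_half {t : ℚ} (ht : t ∈ ZZ f (1 / 3)) : t / 2 ∈ ZZ f (1 / 3) := by
  refine mem_of_ps fun z => ?_
  rw [← H.third_aux, ← H.third_aux z, show -2 * (z + t / 2) = -2 * z + -t by ring,
    ps_per ((ZZ f _).neg_mem ht)]

lemma third_pow (e : ℕ) : (1 / 2 ^ e : ℚ) ∈ ZZ f (1 / 3) := by
  induction e with
  | zero => simpa using H.int_mem (1 / 3) 1
  | succ e ih =>
    have := H.third_half ih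
    convert this using 1
    rw [pow_succ]; field_simp

lemma good_dyadic (a : ℤ) (e : ℕ) : Good f (a / 2 ^ e) := by
  have h : (1 / 3 : ℚ) ∈ ZZ f (a / 2 ^ e) :=
    H.transfer (ZZ_symm (H.third_pow e)) a 0 (by push_cast; ring)
  refine ⟨1 / 6, ?_, by norm_num, le_rfl⟩
  have := (ZZ f _).sub_mem (H.half_mem (a / 2 ^ e)) h
  convert this using 1
  norm_num

omit H in
lemma bez {M q : ℕ} (h : Nat.Coprime M q) : ∃ s t : ℤ, s * M + t * q = 1 := by
  have := (Nat.isCoprime_iff_coprime.mpr h)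
  obtain ⟨s, t, e⟩ := this
  exact ⟨s, t, e⟩

lemma sep_aux {M q : ℕ} (hM : 0 < M) (hq : 2 ≤ q) (h : Nat.Coprime M q)
    (hg : ∀ e : ℕ, Good f (M / (2 * q ^ e))) : (1 / q : ℚ) ∈ ZZ f (1 / M) := by
  have hM' : (0 : ℚ) < M := by exact_mod_cast hM
  have hq' : (0 : ℚ) < q := by exact_mod_cast (by omega : 0 < q)
  have hlt : (M : ℚ) < 2 * q ^ (M + 1) := by
    have : M < q ^ M := Nat.lt_pow_self (by omega)
    have h2 : q ^ M ≤ 2 * q ^ (M + 1) := by
      have : q ^ M ≤ q ^ (M + 1) := Nat.pow_le_pow_right (by omega) (by omega)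
      omega
    exact_mod_cast lt_of_lt_of_le this h2
  have h1 := H.inv_mem (x := M / (2 * q ^ (M + 1))) (by positivity)
    (by rw [div_lt_one (by positivity)]; exact hlt) (hg _)
  obtain ⟨s, t, e⟩ := bez (Nat.Coprime.pow_right (M + 1) h)
  obtain ⟨s', t', e'⟩ := bez h
  have e1 : (s : ℚ) * M + t * q ^ (M + 1) = 1 := by exact_mod_cast e
  have e2 : (s' : ℚ) * M + t' * q = 1 := by exact_mod_cast e'
  have h2 : (M / (2 * q ^ (M + 1)) : ℚ) ∈ ZZ f (1 / M) :=
    H.transfer (ZZ_symm h1) t (2 * s) (by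
      push_cast
      field_simp
      linarith)
  refine ZZ_symm (H.transfer (ZZ_symm h2) (2 * s' * q ^ M) (2 * t') ?_)
  push_cast
  field_simp
  rw [pow_succ]
  linear_combination (-(q : ℚ) ^ M * q) * e2

lemma good_odd (a : ℤ) {M : ℕ} (hM : Odd M) : Good f (a / (2 * M)) := by
  have hM0 : 0 < M := hM.pos
  have hM' : (0 : ℚ) < M := by exact_mod_cast hM0
  have hc : Nat.Coprime M 2 := Nat.coprime_two_right.mpr hM
  have h := H.sep_aux (q := 8) hM0 (by norm_num) (hc.pow_right 3) (fun e => by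
    have := H.good_dyadic M (3 * e + 1)
    convert this using 1
    push_cast
    rw [pow_succ, pow_mul]; norm_num; ring)
  obtain ⟨s, t, e⟩ := bez hc
  have e1 : (s : ℚ) * M + t * 2 = 1 := by exact_mod_cast e
  refine ⟨1 / 8, ?_, by norm_num, by norm_num⟩
  have := H.transfer (x' := a / (2 * M)) h (a * t) (a * s) (by
    push_cast
    field_simp
    linear_combination (-(a : ℚ)) * e1)
  simpa using this

lemma good (x : ℚ) : Good f x := by
  have hM0 : 0 < x.den := x.den_pos
  have hc : Nat.Coprime x.den (6 * x.den + 1) := by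
    rw [mul_comm, add_comm, Nat.coprime_add_mul_left_right]; simp
  have hodd : Odd (6 * x.den + 1) := ⟨3 * x.den, by ring⟩
  have h := H.sep_aux hM0 (by omega) hc (fun e => by
    have := H.good_odd x.den (hodd.pow (n := e))
    simpa using this)
  refine ⟨1 / (6 * x.den + 1 : ℕ), H.transfer h x.num 0 ?_, by positivity, ?_⟩
  · simp [← div_eq_mul_inv, Rat.num_div_den]
  · apply one_div_le_one_div_of_le (by norm_num)
    exact_mod_cast (by omega : 6 ≤ 6 * x.den + 1)

/-- Numbers with coprime denominators do not interact. -/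
lemma sep {a b : ℚ} (h : Nat.Coprime a.den b.den) : b ∈ ZZ f a := by
  rcases Nat.lt_or_ge b.den 2 with hb | hb
  · have : b.den = 1 := by have := b.den_pos; omega
    have e : b = (b.num : ℚ) := (Rat.coe_int_num_of_den_eq_one this).symm
    rw [e]; exact H.int_mem a _
  · have h1 := H.sep_aux a.den_pos hb h (fun e => H.good _)
    have h2 := H.transfer (x' := a) h1 a.num 0 (by simp [← div_eq_mul_inv, Rat.num_div_den])
    exact ZZ_symm (H.transfer (ZZ_symm h2) b.num 0 (by simp [← div_eq_mul_inv, Rat.num_div_den]))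

lemma global {x : ℚ} (hx0 : 0 < x) (hx1 : x < 1) (y : ℚ) : KK f x y (x * y) = 0 :=
  (H.glob hx0 hx1 (H.good x)).2 y

end HSol

end Pool.Agent.P.MP_6d4b14_an
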