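import Pool.Agent.P.MP_6d4b14_an.CLDefs

/-! Degree two: degenerate cases. -/

set_option linter.unusedSectionVars false
set_option linter.unusedVariables false

namespace Pool.Agent.P.MP_6d4b14_an.CL

open scoped Classical
open TR Function Polynomial

variable {b : ℝ →+ ℝ →+ ℝ}

theorem CLQ0_rat (f : ℝ →+ ℝ) (q : ℚ) (x : ℝ) : f ((q : ℝ) * x) = (q : ℝ) * f x :=
  map_ratCast_smul f ℝ ℝ q x

theorem CLQ0_rat1 (q : ℚ) (x y : ℝ) : b ((q : ℝ) * x) y = (q : ℝ) * b x y :=
  CLQ0_rat (b.flip y) q x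

theorem CLQ0_rat0 (q : ℚ) (y : ℝ) : b (q : ℝ) y = (q : ℝ) * b 1 y := by
  rw [← CLQ0_rat1, mul_one]

theorem K2.alpha_zero (h : K2 b) (h0 : ∀ x, b 1 x = 0) (x : ℝ) : b x x = 0 := by
  have h1 : ∀ y, b y 1 = 0 := fun y => by rw [h.symm, h0]
  have key : ∀ w c, w ≠ 0 → b w w * b w⁻¹ c = -3 * b w c := fun w c hw => by
    have := h.eq w 1 c hw
    rw [mul_one, h1, h1, h1, h.symm c w] at this
    linarith
  by_contra hx
  have hx0 : x ≠ 0 := fun e => hx (by rw [e, map_zero])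
  have step : ∀ q : ℚ, q ≠ 0 → ∀ c, b (x * x) c + q * b x c = 0 := fun q hq c => by
    have hq' : (q : ℝ) ≠ 0 := by exact_mod_cast hq
    have e1 : ∀ y, b (x + q) y = b x y := fun y => by
      rw [map_add, AddMonoidHom.add_apply, CLQ0_rat0, h0, mul_zero, add_zero]
    have e2 : b (x + q) (x + q) = b x x := by rw [e1, h.symm, e1]
    have hxq : x + q ≠ 0 := fun e => hx (by rw [← e2, e, map_zero])
    have e3 : b (x + q)⁻¹ c = b x⁻¹ c := by
      have k1 := key (x + q) c hxq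
      rw [e2, e1] at k1
      exact mul_left_cancel₀ hx (k1.trans (key x c hx0).symm)
    have hne : x * (x + q) ≠ 0 := mul_ne_zero hx0 hxq
    have e4 : (q : ℝ) * (x * (x + q))⁻¹ = x⁻¹ - (x + q)⁻¹ := by field_simp; ring
    have e5 : b (x * (x + q))⁻¹ c = 0 := by
      have : (q : ℝ) * b (x * (x + q))⁻¹ c = 0 := by
        rw [← CLQ0_rat1, e4, map_sub, AddMonoidHom.sub_apply, e3, sub_self]
      exact (mul_eq_zero.1 this).resolve_left hq'
    have k2 := key (x * (x + q)) c hne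
    rw [e5, mul_zero] at k2
    have e6 : x * (x + q) = x * x + q * x := by ring
    rw [e6, map_add, AddMonoidHom.add_apply, CLQ0_rat1] at k2
    linarith
  have s1 := step 1 one_ne_zero x
  have s2 := step 2 two_ne_zero x
  push_cast at s1 s2
  exact hx (by linarith)

theorem K2.om_zero (h : K2 b) (h0 : ∀ w a c, om b w a c = 0) : QM b := by
  have hb : ∀ x y, b x y = b 1 (x * y) := fun x y => by
    have := h0 x y 1
    rw [om, mul_one] at this
    linarith
  have cube : ∀ w a c, b 1 (w ^ 3 * a) * b 1 c = b 1 a * b 1 (w ^ 3 * c) := fun w a c => by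
    by_cases hw : w = 0
    · simp [hw]
    have h1 := h.eq w (w * a) (w * c) hw
    have h2 := h0 w (w * a) (w * c)
    rw [om] at h2
    rw [h2, mul_zero, hb w, hb w⁻¹, hb w⁻¹, hb w] at h1
    have e1 : w * (w * (w * a)) = w ^ 3 * a := by ring
    have e2 : w * (w * (w * c)) = w ^ 3 * c := by ring
    have e3 : w⁻¹ * (w * c) = c := by field_simp
    have e4 : w⁻¹ * (w * a) = a := by field_simp
    rw [e1, e2, e3, e4] at h1
    linarith
  have six : ∀ y a, 6 * b 1 (y * a) =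
      b 1 ((y + 1) ^ 3 * a) + b 1 ((y - 1) ^ 3 * a) - 2 * b 1 (y ^ 3 * a) := fun y a => by
    have e1 := CLQ0_rat (b 1) 6 (y * a)
    have e2 := CLQ0_rat (b 1) 2 (y ^ 3 * a)
    push_cast at e1 e2
    rw [← e1, ← e2, ← map_add, ← map_sub]
    congr 1
    ring
  have lin : ∀ y a, b 1 (y * a) * b 1 1 = b 1 a * b 1 y := fun y a => by
    have s1 := six y a
    have s2 := six y 1
    have c1 := cube (y + 1) a 1
    have c2 := cube (y - 1) a 1
    have c3 := cube y a 1
    rw [mul_one y] at s2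
    linear_combination (b 1 1 * s1 - b 1 a * s2 + c1 + c2 - 2 * c3) / 6
  intro x y
  have e : x * y * (x * y) = x * x * (y * y) := by ring
  rw [hb (x * y), hb x x, hb y y, e]
  linear_combination lin (x * x) (y * y)

theorem K2.hua (h : K2 b) {c : ℝ} (hb : ∀ x y, b x y = c * (b 1 x * b 1 y)) : QM b := by
  by_cases hc : c * b 1 1 = 1
  swap
  · have h0 : ∀ y, b 1 y = 0 := fun y => by
      have : (c * b 1 1 - 1) * b 1 y = 0 := by linear_combination -hb 1 y
      exact (mul_eq_zero.1 this).resolve_left (sub_ne_zero.2 hc)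
    intro x y
    rw [hb x x, h0 1, h0 x]
    ring
  have hβ : b 1 1 ≠ 0 := fun e => by rw [e, mul_zero] at hc; exact zero_ne_one hc
  have hc0 : c ≠ 0 := fun e => by rw [e, zero_mul] at hc; exact zero_ne_one hc
  have hk : 3 - b 1 1 ≠ 0 := fun e => h.kne (by linarith)
  have hK : (3 - b 1 1) * b 1 1 ≠ 0 := mul_ne_zero hk hβ
  have nF : ∀ w, ¬(∀ y, b 1 1 * b 1 (w * y) = b 1 w * b 1 y) →
      w ≠ 0 ∧ b 1 w * b 1 w⁻¹ = -((3 - b 1 1) * b 1 1) := fun w hw => by
    have hw0 : w ≠ 0 := fun e => hw fun y => by simp [e]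
    refine ⟨hw0, ?_⟩
    obtain ⟨y, hy⟩ := not_forall.1 hw
    have h1 := h.eq w y 1 hw0
    rw [mul_one, hb w (w * y), hb w⁻¹ 1, hb w⁻¹ y, hb w w, hb w y] at h1
    have h2 : c * ((b 1 w * b 1 w⁻¹ + (3 - b 1 1) * b 1 1) *
        (b 1 1 * b 1 (w * y) - b 1 w * b 1 y)) = 0 := by
      have h3 := hb 1 (w * y)
      linear_combination b 1 1 * h1 - b 1 1 * (3 - b 1 1) * h3 -
        c * (b 1 w * b 1 w⁻¹) * (b 1 1 * b 1 (w * y) - b 1 w * b 1 y) * hc
    have h4 := (mul_eq_zero.1 h2).resolve_left hc0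
    have h5 := (mul_eq_zero.1 h4).resolve_right (sub_ne_zero.2 hy)
    linarith
  have sq : ∀ w, b 1 1 * b 1 (w * w) = b 1 w * b 1 w := fun w => by
    by_cases hw : ∀ y, b 1 1 * b 1 (w * y) = b 1 w * b 1 y
    · exact hw w
    have e1 : ∀ q : ℚ, b 1 (w + q) = b 1 w + q * b 1 1 := fun q => by
      rw [map_add, ← CLQ0_rat, mul_one]
    have e2 : ∀ (q : ℚ) (y : ℝ), b 1 ((w + q) * y) = b 1 (w * y) + q * b 1 y := fun q y => by
      rw [add_mul, map_add, CLQ0_rat]
    have step : ∀ q : ℚ, q ≠ 0 →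
        ¬(∀ y, b 1 1 * b 1 (w * (w + q) * y) = b 1 (w * (w + q)) * b 1 y) →
        b 1 1 * b 1 (w * w) = b 1 w * b 1 w := fun q hq hn => by
      have hq' : (q : ℝ) ≠ 0 := by exact_mod_cast hq
      obtain ⟨hw0, k0⟩ := nF w hw
      obtain ⟨hw1, k1⟩ := nF (w + q) fun hF => hw fun y => by
        have := hF y
        rw [e1, e2] at this
        linear_combination this
      obtain ⟨hw2, k2⟩ := nF _ hn
      have e4 : (q : ℝ) * (w * (w + q))⁻¹ = w⁻¹ - (w + q)⁻¹ := by field_simp; ring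
      have e5 : (q : ℝ) * b 1 (w * (w + q))⁻¹ = b 1 w⁻¹ - b 1 (w + q)⁻¹ := by
        rw [← CLQ0_rat, e4, map_sub]
      rw [mul_comm w (w + q), e2, mul_comm (w + q) w] at k2
      rw [e1] at k1
      have k3 : (q : ℝ) * (b 1 (w * (w + q))⁻¹ * (b 1 w * (b 1 w + q * b 1 1)) +
          (3 - b 1 1) * b 1 1 * b 1 1) = 0 := by
        linear_combination (b 1 w * (b 1 w + q * b 1 1)) * e5 + (b 1 w + q * b 1 1) * k0 -
          b 1 w * k1
      have k4 := (mul_eq_zero.1 k3).resolve_left hq'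
      have k5 : (3 - b 1 1) * b 1 1 * (b 1 1 * b 1 (w * w) - b 1 w * b 1 w) = 0 := by
        linear_combination (b 1 (w * w) + q * b 1 w) * k4 - (b 1 w * (b 1 w + q * b 1 1)) * k2
      have k6 := (mul_eq_zero.1 k5).resolve_left hK
      linarith
    by_contra hn
    have f1 := not_not.1 (mt (step 1 one_ne_zero) hn)
    have f2 := not_not.1 (mt (step 2 two_ne_zero) hn)
    refine hw fun y => ?_
    have g1 := f1 y
    have g2 := f2 y
    have a1 : w * (w + ((2 : ℚ) : ℝ)) * y = w * (w + ((1 : ℚ) : ℝ)) * y + w * y := by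
      push_cast; ring
    have a2 : w * (w + ((2 : ℚ) : ℝ)) = w * (w + ((1 : ℚ) : ℝ)) + w := by push_cast; ring
    rw [a1, a2, map_add, map_add] at g2
    linear_combination g2 - g1
  have mul : ∀ x y, b 1 1 * b 1 (x * y) = b 1 x * b 1 y := fun x y => by
    have s := sq (x + y)
    have e : (x + y) * (x + y) = x * x + (x * y + x * y) + y * y := by ring
    rw [e, map_add, map_add, map_add, map_add] at s
    linear_combination (s - sq x - sq y) / 2
  intro x y
  rw [hb (x * y) (x * y), hb x x, hb y y]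
  have m := mul x y
  linear_combination (-c * b 1 1 * b 1 (x * y) * b 1 (x * y)) * hc +
    c * c * (b 1 1 * b 1 (x * y) + b 1 x * b 1 y) * m

theorem CLQ0_dec {ω : ℝ → ℝ → ℝ} {φ θ : ℝ → ℝ} {k : ℝ} (hk : k ≠ 0)
    (h : ∀ a c, φ a * θ c - θ a * φ c = k * ω a c) : Dv ω φ ∧ ∀ e, Dv ω (ω e) := by
  refine ⟨fun a c d => mul_left_cancel₀ hk ?_, fun e a c d => mul_left_cancel₀ (mul_ne_zero hk hk) ?_⟩
  · linear_combination -(φ a * h c d + φ c * h d a + φ d * h a c)
  · have e1 : k * k * (ω e a * ω c d + ω e c * ω d a + ω e d * ω a c) =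
        (k * ω e a) * (k * ω c d) + (k * ω e c) * (k * ω d a) + (k * ω e d) * (k * ω a c) := by
      ring
    rw [e1, ← h, ← h, ← h, ← h, ← h, ← h]
    ring

theorem K2.dv (h : K2 b) (w : ℝ) :
    Dv (om b w) (fun c => b 1 c) ∧ Dv (om b w) (fun c => b w c) ∧
      Dv (om b w) (fun c => b 1 (w * c)) ∧ Dv (om b w) fun c => b (w ^ 2) c := by
  have hk : 3 - b 1 1 ≠ 0 := fun e => h.kne (by linarith)
  have hom : ∀ q : ℚ, om b (w + q) = om b w := fun q => by
    funext a c
    rw [om, om, add_mul, add_mul, map_add, map_add, AddMonoidHom.add_apply, CLQ0_rat1, CLQ0_rat]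
    ring
  have hφ : ∀ (q : ℚ) (c : ℝ), b (w + q) ((w + q) * c) =
      b w (w * c) + q * (b w c + b 1 (w * c)) + q * q * b 1 c := fun q c => by
    rw [add_mul, map_add, map_add, AddMonoidHom.add_apply, AddMonoidHom.add_apply, CLQ0_rat0,
      CLQ0_rat0, CLQ0_rat, CLQ0_rat]
    ring
  have D : ∀ q : ℚ, w + q ≠ 0 →
      Dv (om b w) (fun c => b w (w * c) + q * (b w c + b 1 (w * c)) + q * q * b 1 c) ∧
        ∀ e, Dv (om b w) (om b w e) := fun q hq => by
    refine CLQ0_dec (θ := fun c => b (w + q)⁻¹ c) hk fun a c => ?_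
    have := h.eq (w + q) a c hq
    rw [hφ, hφ] at this
    rw [← hom q]
    exact this
  obtain ⟨s, hs, h1, h2, h3⟩ : ∃ s : ℚ, (s : ℝ) * s = 1 ∧ w + (s : ℝ) ≠ 0 ∧
      w + ((2 * s : ℚ) : ℝ) ≠ 0 ∧ w + ((3 * s : ℚ) : ℝ) ≠ 0 := by
    rcases le_total 0 w with hw | hw
    · refine ⟨1, ?_, ?_, ?_, ?_⟩ <;> push_cast <;> norm_num
      all_goals intro e; linarith
    · refine ⟨-1, ?_, ?_, ?_, ?_⟩ <;> push_cast <;> norm_num
      all_goals intro e; linarith
  obtain ⟨D1, De⟩ := D s h1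
  obtain ⟨D2, -⟩ := D _ h2
  obtain ⟨D3, -⟩ := D _ h3
  have o1 : ∀ c, om b w 1 c = b 1 (w * c) - b w c := fun c => by
    rw [om, mul_one, h.symm (w * c), h.symm c]
  have ow : ∀ c, om b w w c = b w (w * c) - b (w ^ 2) c := fun c => by
    rw [om, h.symm (w * c), h.symm c, sq]
  have A1 : Dv (om b w) (fun c => b 1 c) := fun a c d => by
    have d1 := D1 a c d
    have d2 := D2 a c d
    have d3 := D3 a c d
    push_cast at d1 d2 d3
    linear_combination (d1 - 2 * d2 + d3) / 2 -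
      (b 1 a * om b w c d + b 1 c * om b w d a + b 1 d * om b w a c) * hs
  have A2 : Dv (om b w) (fun c => b w c + b 1 (w * c)) := fun a c d => by
    have d1 := D1 a c d
    have d2 := D2 a c d
    have a1 := A1 a c d
    push_cast at d1 d2 a1
    linear_combination s * (d2 - d1) - 3 * s * s * s * a1 -
      ((b w a + b 1 (w * a)) * om b w c d + (b w c + b 1 (w * c)) * om b w d a +
        (b w d + b 1 (w * d)) * om b w a c) * hs
  refine ⟨A1, fun a c d => ?_, fun a c d => ?_, fun a c d => ?_⟩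
  · have a2 := A2 a c d
    have e1 := De 1 a c d
    rw [o1, o1, o1] at e1
    linear_combination (a2 - e1) / 2
  · have a2 := A2 a c d
    have e1 := De 1 a c d
    rw [o1, o1, o1] at e1
    linear_combination (a2 + e1) / 2
  · have a1 := A1 a c d
    have a2 := A2 a c d
    have d1 := D1 a c d
    have e1 := De w a c d
    rw [ow, ow, ow] at e1
    linear_combination d1 - s * a2 - s * s * a1 - e1

theorem add_id (n : ℝ →+ ℝ) (h1 : n 1 = 1) (hm : ∀ x y, n (x * y) = n x * n y) (x : ℝ) :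
    n x = x := by
  let f : ℝ →+* ℝ :=
    { toFun := n, map_one' := h1, map_mul' := hm, map_zero' := n.map_zero, map_add' := n.map_add }
  have e : f = RingHom.id ℝ := Subsingleton.elim _ _
  exact congrArg (fun g : ℝ →+* ℝ => g x) e

end Pool.Agent.P.MP_6d4b14_an.CL
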