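import Pool.Agent.P.MP_6d4b14_an.CLRow
import Pool.Agent.P.MP_6d4b14_an.CLQ0

/-! Multiplicative top form. -/

set_option linter.unusedSectionVars false
set_option linter.unusedVariables false

namespace Pool.Agent.P.MP_6d4b14_an.CL

open scoped Classical
open TR Function Polynomial

theorem CLA5a_congr {n : ℕ} {φ ψ T T' : ℝ → ℝ} (h : Tp n φ T) (h1 : ∀ x, ψ x = φ x)
    (h2 : ∀ x, T' x = T x) : Tp n ψ T' := by
  have e1 : ψ = φ := funext h1
  have e2 : T' = T := funext h2
  rw [e1, e2]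
  exact h

theorem CLA5a_ps {n : ℕ} {G M : ℝ → ℝ} {β ε : ℝ} (hMM : Tp n M M)
    (hG : Tp n G fun t => β * M t) :
    Tp n (fun s => β * G s - 2 * ε * (M s + M (s - 1))) fun t => (β ^ 2 - 4 * ε) * M t := by
  refine CLA5a_congr ((hG.mul β).sub ((hMM.add (hMM.aff 1 (-1))).mul (2 * ε))) ?_ ?_
  · intro x
    simp only [one_mul, sub_eq_add_neg]
  · intro x
    simp only [one_mul]
    ring

theorem CLA5a_Psi {n : ℕ} {G e M : ℝ → ℝ} {β ε : ℝ} (hM : ∀ x y, M (x * y) = M x * M y)
    (hG : Tp n G fun t => β * M t) (he : Tp n e fun t => ε * M t) {w : ℝ} (hw : w ≠ 0) (s : ℝ) :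
    Tp n (fun t => Psi G e w t s)
      fun t => ((β * G (w * s) - 2 * ε * (M (w * s) + M (w * s - 1))) * M w⁻¹) * M t := by
  refine CLA5a_congr (((hG.aff w⁻¹ 0).mul (G (w * s))).sub
    ((((he.aff s 0).add (he.aff (s - w⁻¹) 0)).add (he.aff s (-(w * s)))).add
      (he.aff (s - w⁻¹) (-(w * (s - w⁻¹)))))) ?_ ?_
  · intro x
    have e1 : w⁻¹ * x + 0 = x / w := by field_simp; ring
    have e2 : s * x + 0 = x * s := by ring
    have e3 : (s - w⁻¹) * x + 0 = x * (s - w⁻¹) := by ring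
    have e4 : s * x + -(w * s) = (x - w) * s := by ring
    have e5 : (s - w⁻¹) * x + -(w * (s - w⁻¹)) = (x - w) * (s - w⁻¹) := by ring
    simp only [e1, e2, e3, e4, e5, Psi]
    ring
  · intro x
    have e1 : s * x = (w * s) * (w⁻¹ * x) := by field_simp
    have e2 : (s - w⁻¹) * x = (w * s - 1) * (w⁻¹ * x) := by field_simp
    simp only [e1, e2]
    rw [hM (w * s), hM (w * s - 1), hM w⁻¹ x]
    ring

theorem CLA5a_dd_mul {n : ℕ} {M : ℝ → ℝ} (hMM : Tp n M M) (x t h : ℝ) :
    dd (fun u => x * M u) t h = x * dd M t h := by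
  obtain ⟨p, -, -, hp⟩ := hMM h t
  rw [dd_eq hp, dd_eq (T := fun u => x * M u) (p := C x * p) (fun q => by
    rw [eval_mul, eval_C, ← hp q]), coeff_C_mul]

theorem CLA5a_dd_scale {n : ℕ} {M : ℝ → ℝ} (hM : ∀ x y, M (x * y) = M x * M y) (hMM : Tp n M M)
    {t : ℝ} (ht : t ≠ 0) (h : ℝ) : dd M t h = M t * dd M 1 (h / t) := by
  obtain ⟨p, -, -, hp⟩ := hMM (h / t) 1
  rw [dd_eq hp, dd_eq (T := M) (t := t) (h := h) (p := C (M t) * p) (fun q => by
    rw [eval_mul, eval_C, ← hp q, ← hM]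
    congr 1
    field_simp), coeff_C_mul]

theorem CLA5a_dd_one {n : ℕ} {M : ℝ → ℝ} (hM1 : M 1 = 1) (hMM : Tp n M M) :
    dd M 1 1 = n := by
  rw [dd_eq (T := M) (t := 1) (h := 1) (p := (X + C 1) ^ n) (fun q => by
    have h1 := hMM.hom (q + 1) 1
    rw [hM1] at h1
    have e : (q : ℝ) * 1 + 1 = ((q + 1 : ℚ) : ℝ) * 1 := by push_cast; ring
    rw [e, h1]
    simp), coeff_X_add_C_pow]
  simp

theorem CLA5a_per {n : ℕ} {φ T : ℝ → ℝ} (h : Tp (n + 1) φ T) {d : ℝ} (hd : d ∈ Per φ) :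
    T d = 0 := by
  obtain ⟨p, -, hc, hp⟩ := h d 0
  have e : p = C (φ 0) := by
    refine Polynomial.eq_of_infinite_eval_eq _ _ ?_
    refine (Set.infinite_range_of_injective (Rat.cast_injective (α := ℝ))).mono ?_
    rintro _ ⟨q, rfl⟩
    have h1 := (mem_Per.1 (h.gp.per_rat hd q)) 0
    simp only [Set.mem_setOf_eq, eval_C]
    rw [← hp q, ← h1, add_zero, zero_add]
  rw [← hc, e, coeff_C]
  simp

theorem pow_of {n : ℕ} {G e o M : ℝ → ℝ} {β ε : ℝ} (h : RE G e o)
    (hM : ∀ x y, M (x * y) = M x * M y) (hM1 : M 1 = 1) (hMM : Tp (n + 1) M M)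
    (hG : Tp (n + 1) G fun t => β * M t) (he : Tp (n + 1) e fun t => ε * M t)
    (hne : β ^ 2 ≠ 4 * ε) (x : ℝ) : M x = x ^ (n + 1) := by
  have hM0 : ∀ t, t ≠ 0 → M t ≠ 0 := by
    intro t ht h0
    have h1 := hM t t⁻¹
    rw [mul_inv_cancel₀ ht, hM1, h0, zero_mul] at h1
    exact one_ne_zero h1
  set ps : ℝ → ℝ := fun s => β * G s - 2 * ε * (M s + M (s - 1)) with hps
  have htp : Tp (n + 1) ps fun t => (β ^ 2 - 4 * ε) * M t := CLA5a_ps hMM hG
  have hadd : ∀ a b, dd M 1 (a + b) = dd M 1 a + dd M 1 b := hMM.dd_add 1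
  have hz : dd M 1 0 = 0 := by
    have h1 := hadd 0 0
    rw [add_zero] at h1
    linarith
  have hone : dd M 1 1 = ((n + 1 : ℕ) : ℝ) := CLA5a_dd_one hM1 hMM
  have hN : ((n + 1 : ℕ) : ℝ) ≠ 0 := by positivity
  have hmul : ∀ c u, ((n + 1 : ℕ) : ℝ) * dd M 1 (c * u) = dd M 1 c * dd M 1 u := by
    intro c u
    by_cases hc : c = 0
    · rw [hc, zero_mul, hz]; ring
    by_cases hu : u = 0
    · rw [hu, mul_zero, hz]; ring
    have hex : ∃ s, ps s - ps (s - c⁻¹) ≠ 0 := by
      by_contra hcon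
      push Not at hcon
      have hper : c⁻¹ ∈ Per ps := by
        refine mem_Per.2 fun y => ?_
        have h1 := hcon (y + c⁻¹)
        rw [add_sub_cancel_right] at h1
        linarith
      have h1 := CLA5a_per htp hper
      rcases mul_eq_zero.1 h1 with h2 | h2
      · exact hne (by linarith)
      · exact hM0 _ (inv_ne_zero hc) h2
    obtain ⟨s, hs⟩ := hex
    set a := ps s - ps (s - c⁻¹) with ha
    set b := (ps (c * s) - ps (c * (s - 1))) * M c⁻¹ with hb
    have t1 : Tp (n + 1) (fun t => Psi G e 1 t s - Psi G e 1 t (s - c⁻¹)) fun t => a * M t := by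
      refine CLA5a_congr ((CLA5a_Psi hM hG he one_ne_zero s).sub
        (CLA5a_Psi hM hG he one_ne_zero (s - c⁻¹))) (fun _ => rfl) fun t => ?_
      simp only [ha, hps, one_mul, inv_one, hM1]
      ring
    have t2 : Tp (n + 1) (fun t => Psi G e c t s - Psi G e c t (s - 1)) fun t => b * M t := by
      refine CLA5a_congr ((CLA5a_Psi hM hG he hc s).sub
        (CLA5a_Psi hM hG he hc (s - 1))) (fun _ => rfl) fun t => ?_
      simp only [hb, hps]
      ring
    have t3 := t1.nab c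
    have t4 := t2.nab 1
    have e : nab c (fun t => Psi G e 1 t s - Psi G e 1 t (s - c⁻¹)) =
        nab 1 fun t => Psi G e c t s - Psi G e c t (s - 1) := by
      funext t
      have h1 := h.kos hc t s
      simp only [nab]
      linarith
    rw [e] at t3
    have hq := t3.unique t4
    have key : ∀ v, v ≠ 0 → a * dd M 1 (c * v) = b * dd M 1 v := by
      intro v hv
      have h1 := congrFun hq v⁻¹
      rw [CLA5a_dd_mul hMM, CLA5a_dd_mul hMM, CLA5a_dd_scale hM hMM (inv_ne_zero hv) c,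
        CLA5a_dd_scale hM hMM (inv_ne_zero hv) 1, div_inv_eq_mul, div_inv_eq_mul, one_mul] at h1
      apply mul_left_cancel₀ (hM0 _ (inv_ne_zero hv))
      linarith
    have k1 := key u hu
    have k2 := key 1 one_ne_zero
    rw [mul_one, hone] at k2
    apply mul_left_cancel₀ hs
    linear_combination ((n + 1 : ℕ) : ℝ) * k1 - dd M 1 u * k2
  have hchi : ∀ u, dd M 1 u = ((n + 1 : ℕ) : ℝ) * u := by
    intro u
    have h1 := add_id (AddMonoidHom.mk' (fun v => dd M 1 v / ((n + 1 : ℕ) : ℝ)) (fun a b => by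
      rw [hadd, add_div])) (by
        simp only [AddMonoidHom.mk'_apply]
        rw [hone, div_self hN]) (fun a b => by
        simp only [AddMonoidHom.mk'_apply]
        have h2 := hmul a b
        field_simp
        linarith) u
    simp only [AddMonoidHom.mk'_apply] at h1
    rw [div_eq_iff hN] at h1
    linarith
  obtain ⟨p, -, -, hp⟩ := hMM (x - 1) 1
  have hfin : ({y : ℝ | y * (x - 1) + 1 = 0}).Finite := by
    refine (Set.finite_singleton (-(x - 1)⁻¹)).subset fun y hy => ?_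
    have hy' : y * (x - 1) + 1 = 0 := hy
    have hx : x - 1 ≠ 0 := by
      intro h0
      rw [h0, mul_zero, zero_add] at hy'
      exact one_ne_zero hy'
    rw [Set.mem_singleton_iff]
    field_simp
    linarith
  have hw := wronsk p ((C (x - 1) * X + 1) ^ (n + 1))
    (Set.range (Rat.cast : ℚ → ℝ) \ {y : ℝ | y * (x - 1) + 1 = 0})
    ((Set.infinite_range_of_injective (Rat.cast_injective (α := ℝ))).diff hfin) (by
      rintro _ ⟨⟨r, rfl⟩, hr⟩
      have hr' : (r : ℝ) * (x - 1) + 1 ≠ 0 := hr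
      rw [← dd_deriv hp r, ← hp r, CLA5a_dd_scale hM hMM hr', hchi, derivative_pow]
      simp only [eval_pow, eval_add, eval_mul, eval_C, eval_X, eval_one, derivative_add,
        derivative_mul, derivative_C, derivative_X, derivative_one, zero_mul, zero_add, mul_one,
        add_zero, Nat.add_sub_cancel, eval_natCast]
      rw [mul_comm (x - 1) (r : ℝ), pow_succ]
      field_simp)
  have p1 := hp 1
  have p0 := hp 0
  simp only [Rat.cast_one, Rat.cast_zero, one_mul, zero_mul, zero_add, sub_add_cancel, hM1] at p1 p0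
  rw [← p1, ← p0] at hw
  simpa using hw

theorem a5 {N : ℕ} {G T : ℝ → ℝ} (hG : Glob G) (h0 : G 0 = 1) (hT : Tp N G T) (hT0 : T ≠ 0)
    (hN : 1 ≤ N) (hE : Even N) (hκ : 2 ^ (N + 1) * (G (1 / 2) / 2) ≠ 1)
    (hm : ∀ x y, T 1 * T (x * y) = T x * T y) :
    MT G ∨ ∃ c1 c2 : ℝ, c1 ≠ 0 ∧ c2 ≠ 0 ∧ c1 + c2 = 1 ∧
      ∀ x, G x = c1 * (x ^ N + (1 - x) ^ N) + c2 * (x ^ (N + 1) + (1 - x) ^ (N + 1)) := by
  have hβ : T 1 ≠ 0 := by
    intro hb
    apply hT0
    funext x
    have h1 := hm x x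
    rw [hb, zero_mul] at h1
    exact mul_self_eq_zero.1 h1.symm
  set β := T 1 with hβd
  set κ := (2 ^ (N + 1) * (G (1 / 2) / 2) - 1) / 2 with hκd
  have hκ0 : κ ≠ 0 := by
    intro h
    apply hκ
    rw [hκd] at h
    linarith
  set M : ℝ → ℝ := fun t => β⁻¹ * T t with hMd
  have hTM : ∀ t, T t = β * M t := by
    intro t
    simp only [hMd]
    field_simp
  have hM : ∀ x y, M (x * y) = M x * M y := by
    intro x y
    have h1 := hm x y
    simp only [hMd]
    field_simp
    linarith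
  have hM1 : M 1 = 1 := by
    simp only [hMd]
    rw [← hβd, inv_mul_cancel₀ hβ]
  have hMM : Tp N M M := hT.self.mul β⁻¹
  have hG' : Tp N G fun t => β * M t := CLA5a_congr hT (fun _ => rfl) fun t => (hTM t).symm
  have he : Tp N (ev G) fun t => (κ * β) * M t :=
    CLA5a_congr (tp_ev hT) (fun _ => rfl) fun t => by rw [hTM t]; ring
  obtain ⟨o, ho⟩ := hG.re
  have hw0 := row_wt ho hG' he 1
  have hw : Wt (N + 1) fun s => β * G s - 2 * (κ * β) * (M s + M (s - 1)) := by
    have e : (fun s => β * G s - 2 * (κ * β) * (M s + M (s - 1))) =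
        psi G (fun t => β * M t) (fun t => (κ * β) * M t) 1 := by
      funext s
      simp only [psi, one_mul, hM1]
      ring
    rw [e]
    exact hw0
  have htp := CLA5a_ps (ε := κ * β) hMM hG'
  have hMz : M 0 = 0 := by
    have h1 := hMM.hom 0 1
    rw [Rat.cast_zero, zero_mul, zero_pow (by omega), zero_mul] at h1
    exact h1
  have hMn : ∀ x, M (-x) = M x := by
    intro x
    have h1 := hMM.hom (-1) x
    rw [Rat.cast_neg, Rat.cast_one, hE.neg_one_pow, one_mul, neg_one_mul] at h1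
    exact h1
  by_cases hc : β = 4 * κ
  · left
    have hz := Tp.wt_zero (CLA5a_congr htp (fun _ => rfl) (T' := 0) fun t => by
      rw [Pi.zero_apply, hc]; ring) hw
    have hall : ∀ s, G s = 2 * κ * (M s + M (s - 1)) := by
      intro s
      have h1 := congrFun hz s
      simp only [Pi.zero_apply] at h1
      apply mul_left_cancel₀ hβ
      linarith
    have h2 := hall 0
    rw [h0, hMz, zero_sub, hMn, hM1] at h2
    refine ⟨M, hM, fun s => ?_⟩
    rw [hall s, ← hMn (s - 1), neg_sub]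
    linear_combination (-(M s + M (1 - s))) * h2
  · right
    obtain ⟨n, rfl⟩ : ∃ n, N = n + 1 := ⟨N - 1, by omega⟩
    have hne : β ^ 2 ≠ 4 * (κ * β) := by
      intro h
      apply hc
      apply mul_left_cancel₀ hβ
      linarith
    have hpow := pow_of ho hM hM1 hMM hG' he hne
    have hN1 : (((n + 1 : ℕ) : ℝ) + 1) ≠ 0 := by positivity
    set l := (β ^ 2 - 4 * (κ * β)) / (((n + 1 : ℕ) : ℝ) + 1) with hl
    have t1 : Tp (n + 1) (fun s => (β * G s - 2 * (κ * β) * (M s + M (s - 1))) -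
        l * (s ^ (n + 1 + 1) - (s - 1) ^ (n + 1 + 1))) 0 := by
      refine CLA5a_congr (htp.sub ((tp_pow (n + 1)).mul l)) (fun _ => rfl) fun t => ?_
      rw [Pi.zero_apply, hpow t, hl]
      field_simp
      ring
    have w1 : Wt (n + 1 + 1) fun s => (β * G s - 2 * (κ * β) * (M s + M (s - 1))) -
        l * (s ^ (n + 1 + 1) - (s - 1) ^ (n + 1 + 1)) := by
      intro s
      have h1 := hw s
      have h2 := wt_pow (n + 1 + 1) s
      simp only at h1 h2 ⊢
      linear_combination h1 - l * h2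
    have hz := t1.wt_zero w1
    have hall : ∀ x, G x = 2 * κ * (x ^ (n + 1) + (1 - x) ^ (n + 1)) +
        (β - 4 * κ) / (((n + 1 : ℕ) : ℝ) + 1) * (x ^ (n + 1 + 1) + (1 - x) ^ (n + 1 + 1)) := by
      intro x
      have h1 := congrFun hz x
      simp only [Pi.zero_apply, hpow] at h1
      have e1 : (x - 1) ^ (n + 1) = (1 - x) ^ (n + 1) := by
        rw [← neg_sub, hE.neg_pow]
      have e2 : (x - 1) ^ (n + 1 + 1) = -(1 - x) ^ (n + 1 + 1) := by
        rw [pow_succ, pow_succ (1 - x) (n + 1), e1]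
        ring
      have e3 : l = β * ((β - 4 * κ) / (((n + 1 : ℕ) : ℝ) + 1)) := by
        rw [hl]
        field_simp
      rw [e1, e2, e3] at h1
      apply mul_left_cancel₀ hβ
      linear_combination h1
    refine ⟨2 * κ, (β - 4 * κ) / (((n + 1 : ℕ) : ℝ) + 1), mul_ne_zero two_ne_zero hκ0,
      div_ne_zero (sub_ne_zero.2 hc) hN1, ?_, hall⟩
    have h1 := hall 0
    rw [h0] at h1
    simp only [sub_zero, one_pow, ne_eq, Nat.add_eq_zero_iff, one_ne_zero, and_false,
      not_false_eq_true, zero_pow, zero_add, mul_one] at h1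
    exact h1.symm

end Pool.Agent.P.MP_6d4b14_an.CL
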