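import Pool.Agent.P.MP_6d4b14_an.CLRow

/-! The degree is at most five. -/

set_option linter.unusedSectionVars false
set_option linter.unusedVariables false

namespace Pool.Agent.P.MP_6d4b14_an.CL

open scoped Classical
open TR Function Polynomial

theorem anti_deg {m : ℕ} {P : ℝ[X]} (hP : P ≠ 0) (hd : X ^ m ∣ P)
    (h : ∀ x : ℝ, P.eval x + P.eval (1 - x) = 0) : 2 * m ≤ P.natDegree := by
  have hc : P.comp (1 - X) = -P := by
    apply Polynomial.funext
    intro x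
    simp only [eval_comp, eval_sub, eval_one, eval_X, eval_neg]
    linarith [h x]
  have hd2 : (1 - X : ℝ[X]) ^ m ∣ P := by
    obtain ⟨Q, hQ⟩ := hd
    have h3 : P.comp (1 - X) = (1 - X) ^ m * Q.comp (1 - X) := by
      rw [hQ]; simp [mul_comp, pow_comp]
    rw [hc] at h3
    exact (dvd_neg).1 ⟨_, h3⟩
  have hcop : IsCoprime ((X : ℝ[X]) ^ m) ((1 - X) ^ m) := by
    apply IsCoprime.pow
    exact ⟨1, 1, by ring⟩
  have hdv := hcop.mul_dvd hd hd2
  have hle := natDegree_le_of_dvd hdv hP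
  have h1 : (1 - X : ℝ[X]) ≠ 0 := by
    intro h0
    have := congrArg (Polynomial.eval 0) h0
    simp at this
  have h2 : (1 - X : ℝ[X]).natDegree = 1 := by
    have : (1 - X : ℝ[X]) = -(X - C 1) := by simp
    rw [this, natDegree_neg, natDegree_X_sub_C]
  rw [natDegree_mul (pow_ne_zero _ X_ne_zero) (pow_ne_zero _ h1), natDegree_pow, natDegree_pow,
    natDegree_X, h2] at hle
  omega

theorem cla5b_cont {n : ℕ} {φ T : ℝ → ℝ} (hc : Continuous φ) (h : Tp n φ T) :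
    ∃ p : ℝ[X], p.natDegree ≤ n ∧ φ = fun x => p.eval x := by
  obtain ⟨p, hp, -, hq⟩ := h 1 0
  refine ⟨p, hp, ?_⟩
  refine Rat.denseRange_cast.equalizer hc p.continuous ?_
  funext q
  have := hq q
  simpa using this

theorem cla5b_down {n : ℕ} {φ : ℝ → ℝ} (hc : Continuous φ) (h : Tp (n + 2) φ 0) (hE : Even n)
    {d : ℝ} (hs : ∀ x, φ (d - x) = φ x) :
    ∃ p : ℝ[X], p.natDegree ≤ n ∧ φ = fun x => p.eval x := by
  obtain ⟨T1, h1⟩ := Tp.lower (n := n + 1) h
  have h0 : T1 = 0 := h1.odd hs hE.add_one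
  subst h0
  obtain ⟨T2, h2⟩ := h1.lower
  exact cla5b_cont hc h2

theorem cla5b_pow (N : ℕ) : Tp N (fun x : ℝ => x ^ N) fun t => t ^ N := by
  have := tp_poly (n := N) (X ^ N) (by simp)
  simpa using this

theorem cla5b_v (N : ℕ) : Tp N (fun x : ℝ => x ^ N + (x - 1) ^ N) fun t => 2 * t ^ N := by
  have := (cla5b_pow N).add ((cla5b_pow N).aff 1 (-1))
  convert this using 2
  · rw [one_mul, sub_eq_add_neg]
  · rw [one_mul]; ring

theorem cla5b_gam {n : ℕ} {p : ℝ[X]}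
    (h : ∀ x : ℝ, ((n : ℝ) + 3) * (x ^ (n + 2) + (x - 1) ^ (n + 2)) -
      2 * (x ^ (n + 3) - (x - 1) ^ (n + 3)) = p.eval x) : p.coeff n ≠ 0 := by
  have hp : p = C ((n : ℝ) + 3) * (X ^ (n + 2) + (X + C (-1)) ^ (n + 2)) -
      C 2 * (X ^ (n + 3) - (X + C (-1)) ^ (n + 3)) := by
    apply Polynomial.funext
    intro x
    rw [← h x]
    simp only [eval_sub, eval_mul, eval_C, eval_add, eval_pow, eval_X, sub_eq_add_neg x 1]
  have e1 : (n + 2).choose n = (n + 2).choose 2 := by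
    rw [Nat.choose_symm_add]
  have e2 : (n + 3).choose n = (n + 3).choose 3 := by
    rw [Nat.choose_symm_add]
  have e3 : (n + 3) * (n + 2).choose 2 = (n + 3).choose 3 * 3 := Nat.add_one_mul_choose_eq (n + 2) 2
  have e4 : ((n : ℝ) + 3) * ((n + 2).choose 2 : ℕ) = ((n + 3).choose 3 : ℕ) * 3 := by
    exact_mod_cast e3
  have e5 : (0 : ℝ) < ((n + 3).choose 3 : ℕ) := by
    exact_mod_cast Nat.choose_pos (by omega)
  rw [hp]
  simp only [coeff_sub, coeff_C_mul, coeff_add, coeff_X_pow, coeff_X_add_C_pow]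
  rw [if_neg (by omega), if_neg (by omega), e1, e2, Nat.add_sub_cancel_left,
    Nat.add_sub_cancel_left]
  intro h0
  nlinarith

theorem deg_le {n : ℕ} {G : ℝ → ℝ} {c1 c2 : ℝ} (hG : Glob G) (hE : Even n) (h1 : c1 ≠ 0)
    (h2 : c2 ≠ 0) (hc : c1 + c2 = 1)
    (h : ∀ x, G x = c1 * (x ^ (n + 2) + (1 - x) ^ (n + 2)) +
      c2 * (x ^ (n + 3) + (1 - x) ^ (n + 3))) : n ≤ 3 := by
  have hE2 : Even (n + 2) := hE.add even_two
  have hO3 : Odd (n + 3) := hE2.add_one
  have hO1 : Odd (n + 1) := hE.add_one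
  have ea : ∀ x : ℝ, (1 - x) ^ (n + 2) = (x - 1) ^ (n + 2) := fun x => by
    rw [← hE2.neg_pow, neg_sub]
  have eb : ∀ x : ℝ, (1 - x) ^ (n + 3) = -(x - 1) ^ (n + 3) := fun x => by
    rw [← hO3.neg_pow, neg_sub]
  have ec : ∀ x : ℝ, (1 - x) ^ n = (x - 1) ^ n := fun x => by
    rw [← hE.neg_pow, neg_sub]
  have ed : ∀ x : ℝ, (1 - x) ^ (n + 1) = -(x - 1) ^ (n + 1) := fun x => by
    rw [← hO1.neg_pow, neg_sub]
  have hGf : G = fun x => c1 * (x ^ (n + 2) + (x - 1) ^ (n + 2)) +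
      c2 * (x ^ (n + 3) - (x - 1) ^ (n + 3)) := by
    funext x
    rw [h x, ea, eb]; ring
  have hGc : Continuous G := by rw [hGf]; fun_prop
  have hv := cla5b_v (n + 2)
  have hv' := tp_pow (n + 2)
  have hGT : Tp (n + 2) G fun t => (2 * c1 + ((n : ℝ) + 3) * c2) * t ^ (n + 2) := by
    have := (hv.mul c1).add (hv'.mul c2)
    rw [hGf]
    convert this using 2
    push_cast; ring
  have ha : (2 : ℝ) ^ (n + 2 + 1) * (G (1 / 2) / 2) - 1 = c1 := by
    have e0 : (1 : ℝ) - 1 / 2 = 1 / 2 := by norm_num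
    have e1 : (2 : ℝ) ^ n * (1 / 2) ^ n = 1 := by rw [← mul_pow]; norm_num
    rw [h, e0]
    have e2 : (2 : ℝ) ^ (n + 2 + 1) * ((c1 * ((1 / 2) ^ (n + 2) + (1 / 2) ^ (n + 2)) +
        c2 * ((1 / 2) ^ (n + 3) + (1 / 2) ^ (n + 3))) / 2) =
        (2 ^ n * (1 / 2) ^ n) * (2 * c1 + c2) := by ring
    rw [e2, e1]; linarith
  have hev := tp_ev hGT
  rw [ha] at hev
  obtain ⟨o, ho⟩ := hG.re
  obtain ⟨x1, hx1⟩ : ∃ x1 : ℝ, x1 * (c1 * c2) = -2 * ((n : ℝ) + 3) :=
    ⟨-2 * ((n : ℝ) + 3) / (c1 * c2), div_mul_cancel₀ _ (mul_ne_zero h1 h2)⟩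
  obtain ⟨ω, hω⟩ : ∃ ω : ℝ → ℝ, ω = fun x => ((n : ℝ) + 3) * (x ^ (n + 2) + (x - 1) ^ (n + 2)) -
      2 * (x ^ (n + 3) - (x - 1) ^ (n + 3)) := ⟨_, rfl⟩
  obtain ⟨e, he⟩ : ∃ e : ℝ → ℝ, e = fun x => x1 * ev G x +
      (((n : ℝ) + 3) ^ 2 - x1 * c1 ^ 2) * x ^ (n + 2) := ⟨_, rfl⟩
  have hre : RE ω e fun x => x1 * o x + (4 - x1 * c2 ^ 2) * x ^ (n + 3) := by
    intro x y
    have h3 := ho x y
    have h4 := congrFun hGf x
    have h5 := congrFun hGf y
    rw [h4, h5] at h3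
    simp only [hω, he, mul_pow]
    generalize x ^ (n + 2) = a1 at *
    generalize (x - 1) ^ (n + 2) = a2 at *
    generalize x ^ (n + 3) = a3 at *
    generalize (x - 1) ^ (n + 3) = a4 at *
    generalize y ^ (n + 2) = b1 at *
    generalize (y - 1) ^ (n + 2) = b2 at *
    generalize y ^ (n + 3) = b3 at *
    generalize (y - 1) ^ (n + 3) = b4 at *
    linear_combination x1 * h3 + ((a1 + a2) * (b3 - b4) + (a3 - a4) * (b1 + b2)) * hx1
  have hωc : Continuous ω := by rw [hω]; fun_prop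
  have hec : Continuous e := by
    rw [he]; unfold ev; fun_prop
  have hωT : Tp (n + 2) ω 0 := by
    have := (hv.mul ((n : ℝ) + 3)).sub (hv'.mul 2)
    rw [hω]
    convert this using 1
    funext t
    push_cast; simp only [Pi.zero_apply]; ring
  have heT : Tp (n + 2) e 0 := by
    have := (hev.mul x1).add ((cla5b_pow (n + 2)).mul (((n : ℝ) + 3) ^ 2 - x1 * c1 ^ 2))
    rw [he]
    convert this using 1
    funext t
    simp only [Pi.zero_apply]
    linear_combination (-((n : ℝ) + 3) / 2 * t ^ (n + 2)) * hx1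
  have hωs : ∀ x, ω (1 - x) = ω x := by
    intro x
    have e1 : (1 : ℝ) - x - 1 = -x := by ring
    simp only [hω]
    rw [e1, ea, eb, hE2.neg_pow, hO3.neg_pow]; ring
  have hes : ∀ x, e (0 - x) = e x := by
    intro x
    have e1 : G (2 * (0 - x) + 1) = G (2 * x) := by
      rw [← hG.sym (2 * x)]; congr 1; ring
    have e2 : G (2 * (0 - x)) = G (2 * x + 1) := by
      rw [← hG.sym (2 * x + 1)]; congr 1; ring
    have e3 : G (0 - x + 1 / 2) = G (x + 1 / 2) := by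
      rw [← hG.sym (x + 1 / 2)]; congr 1; ring
    simp only [he, ev]
    rw [e1, e2, e3, zero_sub, hE2.neg_pow]; ring
  obtain ⟨p, hp, hωp⟩ := cla5b_down hωc hωT hE hωs
  obtain ⟨q, hq, heq⟩ := cla5b_down hec heT hE hes
  have hγ : p.coeff n ≠ 0 := cla5b_gam fun x => by
    have := congrFun hωp x
    rw [hω] at this
    exact this
  have hωn : Tp n ω fun t => p.coeff n * t ^ n := by rw [hωp]; exact tp_poly p hp
  have hen : Tp n e fun t => q.coeff n * t ^ n := by rw [heq]; exact tp_poly q hq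
  have hw := row_wt hre hωn hen 1
  generalize p.coeff n = γ at hγ hωn hw
  generalize q.coeff n = E at hen hw
  have hn1 : (n : ℝ) + 1 ≠ 0 := by positivity
  obtain ⟨y, hy⟩ : ∃ y : ℝ, y * ((n : ℝ) + 1) = γ ^ 2 - 4 * E :=
    ⟨(γ ^ 2 - 4 * E) / ((n : ℝ) + 1), div_mul_cancel₀ _ hn1⟩
  have hz : (fun s : ℝ => γ * ω s - 2 * E * (s ^ n + (s - 1) ^ n) -
      y * (s ^ (n + 1) - (s - 1) ^ (n + 1))) = 0 := by
    apply Tp.wt_zero (n := n)
    · have := ((hωn.mul γ).sub ((cla5b_v n).mul (2 * E))).sub ((tp_pow n).mul y)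
      convert this using 1
      funext t
      simp only [Pi.zero_apply]
      linear_combination t ^ n * hy
    · intro s
      have h3 := hw s
      have h4 := wt_pow (n + 1) s
      simp only [psi, one_mul, one_pow, mul_one] at h3 h4 ⊢
      linear_combination h3 - y * h4
  have hP : (C γ * (C ((n : ℝ) + 3) * X ^ (n + 2) - C 2 * X ^ (n + 3)) - C (2 * E) * X ^ n -
      C y * X ^ (n + 1) : ℝ[X]) ≠ 0 := by
    intro h0
    have := congrArg (fun P : ℝ[X] => P.coeff (n + 3)) h0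
    simp only [coeff_sub, coeff_C_mul, coeff_X_pow, coeff_zero] at this
    rw [if_neg (by omega), if_pos trivial, if_neg (by omega), if_neg (by omega)] at this
    apply hγ
    linarith
  have hle := anti_deg (m := n) hP
    ⟨C γ * (C ((n : ℝ) + 3) * X ^ 2 - C 2 * X ^ 3) - C (2 * E) - C y * X, by ring⟩ (by
      intro x
      have h3 := congrFun hz x
      simp only [hω, Pi.zero_apply] at h3
      simp only [eval_sub, eval_mul, eval_C, eval_pow, eval_X]
      rw [ea, eb, ec, ed]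
      linear_combination h3)
  have hdeg : (C γ * (C ((n : ℝ) + 3) * X ^ (n + 2) - C 2 * X ^ (n + 3)) - C (2 * E) * X ^ n -
      C y * X ^ (n + 1) : ℝ[X]).natDegree ≤ n + 3 := by
    compute_degree
  omega

end Pool.Agent.P.MP_6d4b14_an.CL
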