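import Pool.Agent.P.MP_6d4b14_an.CLB2a

/-! Multiplicative relations for periodic solutions. -/

set_option linter.unusedSectionVars false
set_option linter.unusedVariables false

namespace Pool.Agent.P.MP_6d4b14_an.CL

open scoped Classical
open TR Function Polynomial

theorem CLB2b_xy (F : Fn ℝ (ℝ × ℝ)) (u v t s : ℝ) :
    (((Xg ℝ (u, (0 : ℝ)) - 1) * (Xg ℝ ((0 : ℝ), v) - 1)) • F) (t, s) =
      F (t + u, s + v) - F (t + u, s) - F (t, s + v) + F (t, s) := by
  simp only [mul_smul, sub_smul, one_smul, Fn.sub_apply, Xg_smul, Prod.mk_add_mk, add_zero]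
  ring

theorem CLB2b_sum {ι : Type} (T : Finset ι) (c : ι → ℝ) (P : ι → GR ℝ (ℝ × ℝ))
    (F : Fn ℝ (ℝ × ℝ)) (z : ℝ × ℝ) :
    ((∑ i ∈ T, c i • P i) • F) z = ∑ i ∈ T, c i * (P i • F) z := by
  induction T using Finset.induction_on with
  | empty => rw [Finset.sum_empty, Finset.sum_empty, zero_smul]; rfl
  | insert a T ha ih =>
    rw [Finset.sum_insert ha, Finset.sum_insert ha, add_smul, Fn.add_apply, ih, smul_assoc,
      Fn.smul_apply]

theorem OG.rel {G : ℝ → ℝ} (h : OG G) (h1 : (1 : ℝ) ∈ Per G) {ι : Type} [Fintype ι]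
    (w c : ι → ℝ) (hw : ∀ i, w i ≠ 0)
    (hrel : ∀ (A : Type) [CommRing A] [Algebra ℝ A] (L L' : ℝ →+ A),
      ∑ i, c i • (L (w i) * L' (w i)⁻¹) = 0) (t s : ℝ) :
    ∑ i, c i * (G (t / w i) * G (w i * s)) = 0 := by
  obtain ⟨o, ho⟩ := h.re
  let F : Fn ℝ (ℝ × ℝ) := fun z => o (z.1 * z.2)
  have hm : ∀ x, G (x - 1) = G x := fun x => by
    have := mem_Per.1 h1 (x - 1)
    rw [sub_add_cancel] at this
    exact this.symm
  have hF : ∀ i t s, (((Xg ℝ (-w i, (0 : ℝ)) - 1) * (Xg ℝ ((0 : ℝ), -(w i)⁻¹) - 1)) • F) (t, s) =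
      G (t / w i) * G (w i * s) := fun i t s => by
    rw [CLB2b_xy]
    have h2 := ho.w (hw i) t s
    simp only [Psi, Pi.zero_apply, add_zero, sub_zero] at h2
    rw [h2]
    simp only [F, sub_eq_add_neg]
    ring
  have h3 := log_fn F (fun i => -w i) (fun i => -(w i)⁻¹) c (fun i => ?_) (fun i => ?_) ?_
  · have h4 := congrArg (fun φ : Fn ℝ (ℝ × ℝ) => φ (t, s)) h3
    simp only [CLB2b_sum, hF, Fn.zero_apply] at h4
    exact h4
  · refine Fn.ext fun z => ?_
    obtain ⟨t, s⟩ := z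
    rw [pow_two, mul_assoc, mul_smul, sub_smul, one_smul, Fn.sub_apply, Xg_smul, Prod.mk_add_mk,
      add_zero, hF, hF, Fn.zero_apply]
    have e : (t + -w i) / w i = t / w i - 1 := by have := hw i; field_simp; ring
    rw [e, hm, sub_self]
  · refine Fn.ext fun z => ?_
    obtain ⟨t, s⟩ := z
    rw [pow_two, ← mul_assoc, mul_comm, mul_smul, sub_smul, one_smul, Fn.sub_apply, Xg_smul,
      Prod.mk_add_mk, add_zero, hF, hF, Fn.zero_apply]
    have e : w i * (s + -(w i)⁻¹) = w i * s - 1 := by have := hw i; field_simp; ring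
    rw [e, hm, sub_self]
  · intro A _ _ L L'
    simp only [map_neg, neg_mul_neg]
    exact hrel A L L'

theorem CLB2b_rat {A : Type} [CommRing A] [Algebra ℝ A] (L : ℝ →+ A) (q : ℚ) (x : ℝ) :
    L (q * x) = (q : ℝ) • L x := map_ratCast_smul L ℝ ℝ q x

theorem OG.rat_inv {G : ℝ → ℝ} (h : OG G) (h1 : (1 : ℝ) ∈ Per G) (q : ℚ) (hq : q ≠ 0) (x : ℝ) :
    G (q * x) = G x := by
  have hq' : (q : ℝ) ≠ 0 := by exact_mod_cast hq
  have h2 := h.rel h1 (ι := Fin 2) ![1, q] ![1, -1] (fun i => by fin_cases i <;> simp [hq])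
    (fun A _ _ L L' => ?_) 0 x
  · simp only [Fin.sum_univ_two, Matrix.cons_val_zero, Matrix.cons_val_one, zero_div, h.one,
      one_mul] at h2
    linarith
  · simp only [Fin.sum_univ_two, Matrix.cons_val_zero, Matrix.cons_val_one, inv_one]
    have e1 := CLB2b_rat L q 1
    have e2 := CLB2b_rat L' q⁻¹ 1
    rw [mul_one] at e1 e2
    rw [Rat.cast_inv] at e2
    rw [e1, e2, smul_mul_smul_comm, mul_inv_cancel₀ hq', neg_smul, one_smul, one_smul,
      add_neg_cancel]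

theorem CLB2b_dif {A : Type} [CommRing A] [Algebra ℝ A] (L : ℝ →+ A) (p q : ℚ) (x : ℝ) :
    L (((p : ℝ) - q) * x) = ((p : ℝ) - q) • L x := by
  have := CLB2b_rat L (p - q) x
  rwa [Rat.cast_sub] at this

theorem OG.six {G : ℝ → ℝ} (h : OG G) (h1 : (1 : ℝ) ∈ Per G) : Six G := by
  intro x α β γ hx t s
  have ha : x + α ≠ 0 := (hx.add_ratCast α).ne_zero
  have hb : x + β ≠ 0 := (hx.add_ratCast β).ne_zero
  have hc : x + γ ≠ 0 := (hx.add_ratCast γ).ne_zero
  have h2 := h.rel h1 (ι := Fin 6)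
    ![(x + α) * (x + β), (x + β) * (x + γ), (x + γ) * (x + α), x + γ, x + α, x + β]
    ![β - α, γ - β, α - γ, β - α, γ - β, α - γ]
    (fun i => by fin_cases i <;> simp [ha, hb, hc])
    (fun A _ _ L L' => ?_) ((x + α) * (x + β) * (x + γ) * t) s
  · simp only [Fin.sum_univ_succ, Fin.sum_univ_zero, Matrix.cons_val_zero, Matrix.cons_val_succ,
      add_zero] at h2
    have e1 : (x + α) * (x + β) * (x + γ) * t / ((x + α) * (x + β)) = (x + γ) * t := by
      field_simp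
    have e2 : (x + α) * (x + β) * (x + γ) * t / ((x + β) * (x + γ)) = (x + α) * t := by
      field_simp
    have e3 : (x + α) * (x + β) * (x + γ) * t / ((x + γ) * (x + α)) = (x + β) * t := by
      field_simp
    have e4 : (x + α) * (x + β) * (x + γ) * t / (x + γ) = (x + α) * (x + β) * t := by
      field_simp
    have e5 : (x + α) * (x + β) * (x + γ) * t / (x + α) = (x + β) * (x + γ) * t := by
      field_simp
    have e6 : (x + α) * (x + β) * (x + γ) * t / (x + β) = (x + γ) * (x + α) * t := by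
      field_simp
    rw [e1, e2, e3, e4, e5, e6] at h2
    linarith
  · simp only [Fin.sum_univ_succ, Fin.sum_univ_zero, Matrix.cons_val_zero, Matrix.cons_val_succ,
      add_zero]
    have k1 : ∀ p q : ℚ, x + p ≠ 0 → x + q ≠ 0 →
        ((q : ℝ) - p) • L' ((x + p) * (x + q))⁻¹ = L' (x + p)⁻¹ - L' (x + q)⁻¹ := by
      intro p q hp hq
      rw [← CLB2b_dif, ← map_sub]
      refine congrArg L' ?_
      field_simp
      ring
    have k2 : ∀ p q r : ℚ, ((q : ℝ) - r) • L (x + p) =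
        L ((x + p) * (x + q)) - L ((x + r) * (x + p)) := by
      intro p q r
      rw [← CLB2b_dif, ← map_sub]
      refine congrArg L ?_
      ring
    have k3 : ∀ p q r : ℚ, ((r : ℝ) - q) • L (x + p) =
        L ((x + r) * (x + p)) - L ((x + p) * (x + q)) := by
      intro p q r
      rw [← neg_sub (q : ℝ), neg_smul, k2, neg_sub]
    rw [← mul_smul_comm, ← mul_smul_comm, ← mul_smul_comm, k1 α β ha hb, k1 β γ hb hc,
      k1 γ α hc ha, ← smul_mul_assoc, ← smul_mul_assoc, ← smul_mul_assoc, k3 γ α β, k3 α β γ,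
      k3 β γ α]
    ring

/-- dilation of functions -/
def CLB2b_D : ℝ →* Module.End ℝ (ℝ → ℝ) where
  toFun w :=
    { toFun := fun φ s => φ (w * s)
      map_add' := fun _ _ => rfl
      map_smul' := fun _ _ => rfl }
  map_one' := by
    refine LinearMap.ext fun φ => funext fun s => ?_
    show φ (1 * s) = φ s
    rw [one_mul]
  map_mul' a b := by
    refine LinearMap.ext fun φ => funext fun s => ?_
    show φ (a * b * s) = φ (b * (a * s))
    rw [mul_comm a b, mul_assoc]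

noncomputable def CLB2b_act : MonoidAlgebra ℝ ℝ →ₐ[ℝ] Module.End ℝ (ℝ → ℝ) :=
  MonoidAlgebra.lift ℝ _ ℝ CLB2b_D

theorem CLB2b_act_single (w : ℝ) (G : ℝ → ℝ) (s : ℝ) :
    CLB2b_act (MonoidAlgebra.single w 1) G s = G (w * s) := by
  rw [CLB2b_act, MonoidAlgebra.lift_single, one_smul]
  rfl

noncomputable def CLB2b_J (G : ℝ → ℝ) : Ideal (MonoidAlgebra ℝ ℝ) where
  carrier := {f | CLB2b_act f G = 0}
  zero_mem' := by
    show CLB2b_act 0 G = 0
    rw [map_zero, LinearMap.zero_apply]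
  add_mem' := fun {a b} ha hb => by
    show CLB2b_act (a + b) G = 0
    have ha' : CLB2b_act a G = 0 := ha
    have hb' : CLB2b_act b G = 0 := hb
    rw [map_add, LinearMap.add_apply, ha', hb', add_zero]
  smul_mem' := fun c a ha => by
    show CLB2b_act (c * a) G = 0
    have ha' : CLB2b_act a G = 0 := ha
    rw [map_mul, Module.End.mul_apply, ha', map_zero]

noncomputable def CLB2b_ev (G : ℝ → ℝ) (s : ℝ) : MonoidAlgebra ℝ ℝ →ₗ[ℝ] ℝ where
  toFun f := CLB2b_act f G s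
  map_add' a b := by rw [map_add]; rfl
  map_smul' c a := by rw [map_smul]; rfl

theorem exists_dil {G : ℝ → ℝ} (h0 : G 0 = 1) (hq : ∀ q : ℚ, q ≠ 0 → ∀ x, G (q * x) = G x)
    (h6 : Six G) : ∃ (A : Type) (_ : CommRing A) (_ : Algebra ℝ A) (T : ℝ → A), Dil T ∧
      (∀ s, ∃ ψ : A →ₗ[ℝ] ℝ, ∀ w, w ≠ 0 → ψ (T w) = G (w * s)) ∧
      ∀ w, w ≠ 0 → T w = 1 → ∀ s, G (w * s) = G s := by
  let A := MonoidAlgebra ℝ ℝ ⧸ CLB2b_J G
  let Φ : MonoidAlgebra ℝ ℝ →ₐ[ℝ] A := Ideal.Quotient.mkₐ ℝ (CLB2b_J G)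
  let T : ℝ → A := fun w => Φ (MonoidAlgebra.single w 1)
  have hΦ : ∀ f, Φ f = 0 ↔ CLB2b_act f G = 0 := fun f => Ideal.Quotient.eq_zero_iff_mem
  have hex : ∀ s, ∃ ψ : A →ₗ[ℝ] ℝ, ∀ f, ψ (Φ f) = CLB2b_act f G s := fun s =>
    fac_of_ker Φ.toLinearMap (CLB2b_ev G s) fun f hf => congrFun ((hΦ f).1 hf) s
  choose ψ hψ using hex
  have hT : ∀ s w, ψ s (T w) = G (w * s) := fun s w =>
    (hψ s _).trans (CLB2b_act_single w G s)
  have sep : ∀ a : A, (∀ s, ψ s a = 0) → a = 0 := fun a ha => by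
    obtain ⟨f, rfl⟩ := Ideal.Quotient.mkₐ_surjective ℝ (CLB2b_J G) a
    exact (hΦ f).2 (funext fun s => (hψ s f).symm.trans (ha s))
  have hmul : ∀ x y, T (x * y) = T x * T y := fun x y => by
    show Φ _ = Φ _ * Φ _
    rw [← map_mul, MonoidAlgebra.single_mul_single, one_mul]
  have hone : T 1 = 1 := map_one Φ
  refine ⟨A, inferInstance, inferInstance, T, ⟨fun x y _ _ => hmul x y, fun q hq0 => ?_,
    ⟨ψ 0, fun x _ => by rw [hT, mul_zero, h0]⟩, fun x α β γ hx φ => ?_⟩,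
    fun s => ⟨ψ s, fun w _ => hT s w⟩, fun w _ hw s => ?_⟩
  · refine sub_eq_zero.1 (sep _ fun s => ?_)
    rw [map_sub, ← hone, hT, hT, hq q hq0, one_mul, sub_self]
  · have k : ∀ t, ((β : ℝ) - α) • (ψ t (T (x + γ)) • (T (x + α) * T (x + β)) +
          ψ t (T (x + α) * T (x + β)) • T (x + γ)) +
        ((γ : ℝ) - β) • (ψ t (T (x + α)) • (T (x + β) * T (x + γ)) +
          ψ t (T (x + β) * T (x + γ)) • T (x + α)) +
        ((α : ℝ) - γ) • (ψ t (T (x + β)) • (T (x + γ) * T (x + α)) +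
          ψ t (T (x + γ) * T (x + α)) • T (x + β)) = 0 := fun t => by
      refine sep _ fun s => ?_
      simp only [← hmul, map_add, map_smul, hT, smul_eq_mul]
      exact h6 x α β γ hx t s
    refine sep _ fun t => ?_
    have k2 := congrArg φ (k t)
    simp only [map_add, map_smul, smul_eq_mul, map_zero] at k2 ⊢
    linarith
  · rw [← hT, hw, ← hone, hT, one_mul]

end Pool.Agent.P.MP_6d4b14_an.CL
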