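import Pool.Agent.P.MP_6d4b14_an.CLLine

/-! All rational lines are rigid. -/

set_option linter.unusedSectionVars false
set_option linter.unusedVariables false

namespace Pool.Agent.P.MP_6d4b14_an.CL

open scoped Classical
open TR Function Polynomial

variable {A : Type} [CommRing A] [Algebra ℝ A] {T : ℝ → A}

theorem CLRig_irr (h : Dil T) {x : ℝ} (hx : x ≠ 0) (h1 : T x ≠ 1) : Irrational x := by
  rintro ⟨q, rfl⟩
  exact h1 (h.rat q (by simpa using hx))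

theorem CLRig_psi {S : ℝ → A} {η δ : ℝ} (hd : Den S η δ) (ψ : A →ₗ[ℝ] ℝ)
    (h1 : ψ (S η) = ψ (S (η + 1))) : ψ (S η) = ψ 1 := by
  obtain ⟨e, -, he⟩ := hd
  obtain ⟨a0, b0⟩ := he 0
  obtain ⟨a1, b1⟩ := he 1
  simp only [Rat.cast_zero, add_zero, Rat.cast_one] at a0 b0 a1 b1
  rw [b0, b1] at h1
  rw [b0]
  simp only [map_add, map_smul, smul_eq_mul] at h1 ⊢
  have h2 : ψ e = 0 := by
    field_simp at h1
    linarith
  rw [h2, mul_zero, add_zero]

theorem Dil.small (h : Dil T) {η : ℝ} (h0 : η ≠ 0) (ψ ψ' : A →ₗ[ℝ] ℝ)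
    (h1 : ψ (T η) = ψ (T (η + 1))) (h2 : ψ (T η) ≠ ψ 1)
    (h3 : ψ' (T η⁻¹) = ψ' (T (η + 1)⁻¹)) (h4 : ψ' (T η⁻¹) ≠ ψ' 1) (h5 : η + 1 ≠ 0) :
    Sm T η⁻¹ := by
  have hT : T η ≠ 1 := fun e => h2 (by rw [e])
  have hx := CLRig_irr h h0 hT
  have hi : ¬ Inj T η := by
    intro hi
    rcases h.den hx hi with ⟨δ, hd⟩ | ⟨δ, hd⟩
    · exact h2 (CLRig_psi hd ψ h1)
    · exact h4 (CLRig_psi hd ψ' h3)
  rcases h.not_inj hx hi with e | e | e
  · exact absurd e hT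
  · have := (e 1).2
    rw [Rat.cast_one, one_mul, add_comm] at this
    exact absurd (by rw [h1, this]) h2
  · exact e

theorem Inj.shift {x : ℝ} (hi : Inj T x) (α : ℚ) : Inj T (x + α) := by
  have e : ∀ β : ℚ, x + α + β = x + ((α + β : ℚ) : ℝ) := fun β => by push_cast; ring
  refine ⟨fun β => ?_, fun β γ hb => ?_⟩
  · rw [e]; exact hi.1 _
  · rw [e, e] at hb
    exact add_left_cancel (hi.2 _ _ hb)

theorem Den.shift {x δ : ℝ} (hd : Den T x δ) (α : ℚ) : Den T (x + α) (δ + α) := by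
  have e : ∀ (y : ℝ) (β : ℚ), y + α + β = y + ((α + β : ℚ) : ℝ) := fun y β => by push_cast; ring
  obtain ⟨e0, h0, he⟩ := hd
  refine ⟨e0, h0, fun β => ?_⟩
  rw [e, e]
  exact he _

theorem Den.par {x δ : ℝ} (hd : Den T x δ) : δ • (T x - 1) = (δ + 1) • (T (x + 1) - 1) := by
  obtain ⟨e, -, he⟩ := hd
  obtain ⟨a0, b0⟩ := he 0
  obtain ⟨a1, b1⟩ := he 1
  simp only [Rat.cast_zero, add_zero, Rat.cast_one] at a0 b0 a1 b1
  rw [b0, b1, add_sub_cancel_left, add_sub_cancel_left, smul_smul, smul_smul,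
    mul_inv_cancel₀ a0, mul_inv_cancel₀ a1]

theorem CLRig_sq {r : ℝ} (hr : Irrational (r ^ 2)) : Irrational r := hr.of_pow 2

theorem Dil.sq_inj (h : Dil T) {r : ℝ} (hr : Irrational (r ^ 2)) (hi : Inj T (r ^ 2)) :
    Inj T r := by
  have hx := CLRig_sq hr
  have h0 : r ≠ 0 := hx.ne_zero
  by_contra hn
  rcases h.not_inj hx hn with e | e | e
  · apply hi.1 0
    rw [Rat.cast_zero, add_zero, sq, h.mul _ _ h0 h0, e, mul_one]
  · apply hi.1 (-1)
    obtain ⟨a1, b1⟩ := e 1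
    obtain ⟨a2, b2⟩ := e (-1)
    have e1 : r ^ 2 + ((-1 : ℚ) : ℝ) =
        -((1 + ((1 : ℚ) : ℝ) * r) * (1 + ((-1 : ℚ) : ℝ) * r)) := by push_cast; ring
    rw [e1, h.neg (mul_ne_zero a1 a2), h.mul _ _ a1 a2, b1, b2, mul_one]
  · obtain ⟨a1, b1⟩ := e 1
    obtain ⟨a2, b2⟩ := e (-1)
    have e1 : r ^ 2 + ((-1 : ℚ) : ℝ) = (r ^ 2 + ((0 : ℚ) : ℝ)) *
        ((1 + ((1 : ℚ) : ℝ) * r⁻¹) * (1 + ((-1 : ℚ) : ℝ) * r⁻¹)) := by
      push_cast; field_simp; ring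
    have h2 : r ^ 2 + ((0 : ℚ) : ℝ) ≠ 0 := by simpa using h0
    have := hi.2 (-1) 0 (by
      rw [e1, h.mul _ _ h2 (mul_ne_zero a1 a2), h.mul _ _ a1 a2, b1, b2, mul_one, mul_one])
    norm_num at this

/-- the product of two opposite points of a line -/
theorem CLRig_prod {S : ℝ → A} {r δ : ℝ} {e : A}
    (he : ∀ α : ℚ, δ + α ≠ 0 ∧ S (r + α) = 1 + (δ + α)⁻¹ • e) (q : ℚ) :
    δ ^ 2 - q ^ 2 ≠ 0 ∧ S (r + q) * S (r + ((-q : ℚ) : ℝ)) =
      1 + (δ ^ 2 - q ^ 2)⁻¹ • ((2 * δ) • e + e * e) := by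
  obtain ⟨a1, b1⟩ := he q
  obtain ⟨a2, b2⟩ := he (-q)
  rw [b1, b2]
  push_cast at a2 ⊢
  have e1 : δ ^ 2 - (q : ℝ) ^ 2 = (δ + q) * (δ + -q) := by ring
  refine ⟨e1 ▸ mul_ne_zero a1 a2, ?_⟩
  have e2 : (δ ^ 2 - (q : ℝ) ^ 2)⁻¹ * (2 * δ) = (δ + q)⁻¹ + (δ + -q)⁻¹ := by
    rw [e1]; field_simp; ring
  have e3 : (δ ^ 2 - (q : ℝ) ^ 2)⁻¹ = (δ + q)⁻¹ * (δ + -q)⁻¹ := by rw [e1, mul_inv]
  rw [smul_add, smul_smul, e2, e3]
  simp only [Algebra.smul_def, map_add, map_mul]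
  ring

theorem Dil.sq_den (h : Dil T) {r δ : ℝ} (hr : Irrational (r ^ 2)) (hi : Inj T (r ^ 2))
    (hd : Den T (r ^ 2) δ) : 0 ≤ δ ∨ ∃ δ', 0 ≤ δ' ∧ Den (fun x => T x⁻¹) (r ^ 2) δ' := by
  have hx := CLRig_sq hr
  have hne : ∀ q : ℚ, r + q ≠ 0 := fun q => (hx.add_ratCast q).ne_zero
  have hw : ∀ q : ℚ, r ^ 2 + q ≠ 0 := fun q => (hr.add_ratCast q).ne_zero
  have hf : ∀ q : ℚ, r ^ 2 + ((-q ^ 2 : ℚ) : ℝ) = (r + q) * (r + ((-q : ℚ) : ℝ)) := fun q => by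
    push_cast; ring
  obtain ⟨e, e0, he⟩ := hd
  rcases h.den hx (h.sq_inj hr hi) with ⟨d, f, -, hf'⟩ | ⟨d, f, -, hf'⟩
  · left
    have key : ∀ q : ℚ, (d ^ 2 - q ^ 2) • e = (δ - q ^ 2) • ((2 * d) • f + f * f) := by
      intro q
      obtain ⟨a1, b1⟩ := CLRig_prod hf' q
      obtain ⟨a2, b2⟩ := he (-q ^ 2)
      rw [hf, h.mul _ _ (hne _) (hne _), b1] at b2
      push_cast at a2 b2
      have b3 := add_left_cancel b2
      have b4 := congrArg (fun z => ((d ^ 2 - (q : ℝ) ^ 2) * (δ + -(q : ℝ) ^ 2)) • z) b3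
      simp only [smul_smul] at b4
      have c1 : (d ^ 2 - (q : ℝ) ^ 2) * (δ + -(q : ℝ) ^ 2) * (d ^ 2 - (q : ℝ) ^ 2)⁻¹ =
          δ - (q : ℝ) ^ 2 := by field_simp; ring
      have c2 : (d ^ 2 - (q : ℝ) ^ 2) * (δ + -(q : ℝ) ^ 2) * (δ + -(q : ℝ) ^ 2)⁻¹ =
          d ^ 2 - (q : ℝ) ^ 2 := by field_simp
      rw [c1, c2] at b4
      exact b4.symm
    have k0 := key 0
    have k1 := key 1
    generalize (2 * d) • f + f * f = g at k0 k1
    simp only [Rat.cast_zero, Rat.cast_one, one_pow, ne_eq, OfNat.ofNat_ne_zero,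
      not_false_eq_true, zero_pow, sub_zero, sub_smul, one_smul] at k0 k1
    have eg : g = e := by linear_combination k1 - k0
    rw [eg] at k0
    have : (d ^ 2 - δ) • e = 0 := by rw [sub_smul, k0, sub_self]
    rcases smul_eq_zero.1 this with z | z
    · nlinarith [sq_nonneg d]
    · exact absurd z e0
  · right
    have key : ∀ q : ℚ, (δ - q ^ 2) • ((2 * d) • f + f * f) + (d ^ 2 - q ^ 2) • e +
        e * ((2 * d) • f + f * f) = 0 := by
      intro q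
      obtain ⟨a1, b1⟩ := CLRig_prod (S := fun x => T x⁻¹) hf' q
      obtain ⟨a2, b2⟩ := he (-q ^ 2)
      have b3 := h.mul_inv (hw (-q ^ 2))
      rw [b2, hf, _root_.mul_inv, h.mul _ _ (inv_ne_zero (hne _)) (inv_ne_zero (hne _)), b1] at b3
      push_cast at a2 b3
      generalize (2 * d) • f + f * f = g at b3 ⊢
      have e4 : δ - (q : ℝ) ^ 2 = δ + -(q : ℝ) ^ 2 := by ring
      rw [e4]
      generalize δ + -(q : ℝ) ^ 2 = u at a2 b3 ⊢
      generalize d ^ 2 - (q : ℝ) ^ 2 = v at a1 b3 ⊢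
      have iu : algebraMap ℝ A u * algebraMap ℝ A u⁻¹ = 1 := by
        rw [← map_mul, mul_inv_cancel₀ a2, map_one]
      have iv : algebraMap ℝ A v * algebraMap ℝ A v⁻¹ = 1 := by
        rw [← map_mul, mul_inv_cancel₀ a1, map_one]
      simp only [Algebra.smul_def] at b3 ⊢
      linear_combination (algebraMap ℝ A u * algebraMap ℝ A v) * b3 -
        (algebraMap ℝ A v * e + algebraMap ℝ A v * algebraMap ℝ A v⁻¹ * e * g) * iu -
        (algebraMap ℝ A u * g + e * g) * iv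
    have k0 := key 0
    have k1 := key 1
    generalize (2 * d) • f + f * f = g at k0 k1
    simp only [Rat.cast_zero, Rat.cast_one, one_pow, ne_eq, OfNat.ofNat_ne_zero,
      not_false_eq_true, zero_pow, sub_zero, sub_smul, one_smul] at k0 k1
    have eg : g = -e := by linear_combination k0 - k1
    rw [eg] at k0
    have ee : e * e = d ^ 2 • e - δ • e := by
      rw [smul_neg] at k0
      linear_combination -k0
    refine ⟨d ^ 2, sq_nonneg d, -e, neg_ne_zero.2 e0, fun α => ?_⟩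
    obtain ⟨a2, b2⟩ := he α
    have b3 := h.mul_inv (hw α)
    have iu : algebraMap ℝ A (δ + α) * algebraMap ℝ A (δ + α)⁻¹ = 1 := by
      rw [← map_mul, mul_inv_cancel₀ a2, map_one]
    have ee' : e * e = (algebraMap ℝ A (d ^ 2 + α) - algebraMap ℝ A (δ + α)) * e := by
      rw [ee]
      simp only [Algebra.smul_def, map_add]
      ring
    have a1 : d ^ 2 + α ≠ 0 := by
      intro z
      apply e0
      rw [z, map_zero] at ee'
      rw [b2] at b3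
      simp only [Algebra.smul_def] at b3
      linear_combination (-e) * b3 + T (r ^ 2 + α)⁻¹ * algebraMap ℝ A (δ + α)⁻¹ * ee' -
        T (r ^ 2 + α)⁻¹ * e * iu
    refine ⟨a1, ?_⟩
    have iv : algebraMap ℝ A (d ^ 2 + α) * algebraMap ℝ A (d ^ 2 + α)⁻¹ = 1 := by
      rw [← map_mul, mul_inv_cancel₀ a1, map_one]
    rw [b2] at b3
    simp only [Algebra.smul_def] at b3 ⊢
    generalize algebraMap ℝ A (δ + α) = u at iu ee'
    generalize algebraMap ℝ A (δ + α)⁻¹ = u' at iu b3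
    generalize algebraMap ℝ A (d ^ 2 + α) = v at iv ee'
    generalize algebraMap ℝ A (d ^ 2 + α)⁻¹ = v' at iv ⊢
    generalize T (r ^ 2 + α)⁻¹ = t at b3 ⊢
    linear_combination (1 - v' * e) * b3 + t * u' * v' * ee' + t * u' * e * iv - t * v' * e * iu

theorem CLRig_bd {a b : A} (hab : a ≠ b) :
    ∃ M : ℝ, ∀ δ : ℝ, δ • (a - 1) = (δ + 1) • (b - 1) → δ ≤ M := by
  by_cases H : ∃ δ : ℝ, δ • (a - 1) = (δ + 1) • (b - 1)
  · obtain ⟨δ0, h0⟩ := H
    refine ⟨δ0, fun δ h1 => ?_⟩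
    have : (δ - δ0) • (a - b) = 0 := by
      simp only [Algebra.smul_def, map_add, map_sub, map_one] at h0 h1 ⊢
      linear_combination h1 - h0
    rcases smul_eq_zero.1 this with z | z
    · linarith
    · exact absurd (sub_eq_zero.1 z) hab
  · exact ⟨0, fun δ h1 => absurd ⟨δ, h1⟩ H⟩

theorem CLRig_ne {S : ℝ → A} {x : ℝ} (hi : Inj S x) : S x ≠ S (x + 1) := by
  intro e
  have := hi.2 0 1 (by simpa using e)
  norm_num at this

theorem CLRig_bound (h : Dil T) {x δ0 : ℝ} (hx : Irrational x) (hi : Inj T x) (hd : Den T x δ0) :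
    ∃ δ, x ≤ δ ∧ (Den T x δ ∨ Den (fun x => T x⁻¹) x δ) := by
  by_contra hn
  push Not at hn
  have h0 : δ0 < x := by
    by_contra z
    exact (hn δ0 (not_lt.1 z)).1 hd
  obtain ⟨M, hM, hM'⟩ : ∃ M, M < x ∧ ∀ δ, Den (fun x => T x⁻¹) x δ → δ ≤ M := by
    by_cases H : ∃ δ, Den (fun x => T x⁻¹) x δ
    · obtain ⟨δ1, h1⟩ := H
      refine ⟨δ1, ?_, fun δ h2 => ?_⟩
      · by_contra z
        exact (hn δ1 (not_lt.1 z)).2 h1
      · have p1 := h1.par
        have p2 := h2.par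
        have hab := CLRig_ne (h.inj_inv hx hi)
        have : (δ - δ1) • (T x⁻¹ - T (x + 1)⁻¹) = 0 := by
          simp only [Algebra.smul_def, map_add, map_sub, map_one] at p1 p2 ⊢
          linear_combination p2 - p1
        rcases smul_eq_zero.1 this with z | z
        · linarith
        · exact absurd (sub_eq_zero.1 z) hab
    · exact ⟨δ0, h0, fun δ h2 => absurd ⟨δ, h2⟩ H⟩
  obtain ⟨α, a1, a2⟩ := exists_rat_btwn (show -x < -max δ0 M by
    rw [neg_lt_neg_iff]; exact max_lt h0 hM)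
  have b1 := le_max_left δ0 M
  have b2 := le_max_right δ0 M
  have hs : √(x + α) ^ 2 = x + α := Real.sq_sqrt (by linarith)
  rcases h.sq_den (r := √(x + α)) (δ := δ0 + α) (hs.symm ▸ hx.add_ratCast α)
    (hs.symm ▸ hi.shift α) (hs.symm ▸ hd.shift α) with z | ⟨δ', z, hz⟩
  · linarith
  · rw [hs] at hz
    have h3 := hz.shift (-α)
    have e : x + α + ((-α : ℚ) : ℝ) = x := by push_cast; ring
    rw [e] at h3
    have := hM' _ h3
    push_cast at this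
    linarith

theorem Dil.bound (h : Dil T) {x : ℝ} (hx : Irrational x) (hi : Inj T x) :
    ∃ δ, x ≤ δ ∧ (Den T x δ ∨ Den (fun x => T x⁻¹) x δ) := by
  rcases h.den hx hi with ⟨δ, hd⟩ | ⟨δ, hd⟩
  · exact CLRig_bound h hx hi hd
  · obtain ⟨δ', a, b⟩ := CLRig_bound h.inv hx (h.inj_inv hx hi) hd
    simp only [inv_inv] at b
    exact ⟨δ', a, b.symm⟩

theorem CLRig_inv (h : Dil T) {x y : ℝ} (hx : x ≠ 0) (hy : y ≠ 0) (e : T x = T y) :
    T x⁻¹ = T y⁻¹ := by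
  have a := h.mul_inv hx
  have b := h.mul_inv hy
  rw [e] at a
  linear_combination T y⁻¹ * a - T x⁻¹ * b

theorem Dil.rigid (h : Dil T)
    (hs : ∀ x, Irrational x → ∃ ε, ε ≠ 0 ∧ Sm T (ε / x) ∧ Sm T (ε / (x + 1)))
    {x : ℝ} (hx : x ≠ 0) : T x = 1 ∨ Sm T x ∨ Sm T x⁻¹ := by
  by_cases h1 : T x = 1
  · exact Or.inl h1
  have hir := CLRig_irr h hx h1
  by_cases hi : Inj T x
  swap
  · exact h.not_inj hir hi
  exfalso
  obtain ⟨ε, e0, s0, s1⟩ := hs x hir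
  have hx1 : x + 1 ≠ 0 := by simpa using (hir.add_ratCast 1).ne_zero
  obtain ⟨M1, hM1⟩ := CLRig_bd (CLRig_ne hi)
  obtain ⟨M2, hM2⟩ := CLRig_bd (CLRig_ne (h.inj_inv hir hi))
  have key : ∀ q : ℚ, x + q * ε ≤ max M1 M2 := by
    intro q
    obtain ⟨a0, b0⟩ := s0 q
    obtain ⟨a1, b1⟩ := s1 q
    have e1 : x + q * ε = x * (1 + q * (ε / x)) := by field_simp
    have e2 : x + q * ε + 1 = (x + 1) * (1 + q * (ε / (x + 1))) := by field_simp; ring
    have n0 : x + q * ε ≠ 0 := e1 ▸ mul_ne_zero hx a0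
    have n1 : x + q * ε + 1 ≠ 0 := e2 ▸ mul_ne_zero hx1 a1
    have t0 : T (x + q * ε) = T x := by rw [e1, h.mul _ _ hx a0, b0, mul_one]
    have t1 : T (x + q * ε + 1) = T (x + 1) := by rw [e2, h.mul _ _ hx1 a1, b1, mul_one]
    generalize x + q * ε = y at n0 n1 t0 t1
    have hy := CLRig_irr h n0 (t0 ▸ h1)
    have hiy : Inj T y := by
      by_contra hn
      rcases h.not_inj hy hn with e | e | e
      · exact h1 (t0 ▸ e)
      · have := (e 1).2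
        rw [Rat.cast_one, one_mul, add_comm, t1] at this
        exact hi.1 1 (by simpa using this)
      · obtain ⟨c0, c1⟩ := e 1
        have e3 : y + 1 = y * (1 + ((1 : ℚ) : ℝ) * y⁻¹) := by push_cast; field_simp
        apply CLRig_ne hi
        rw [← t0, ← t1, e3, h.mul _ _ n0 c0, c1, mul_one]
    obtain ⟨δ, a, b | b⟩ := h.bound hy hiy
    · have p := b.par
      rw [t0, t1] at p
      exact a.trans ((hM1 δ p).trans (le_max_left _ _))
    · have p := b.par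
      rw [CLRig_inv h n0 hx t0, CLRig_inv h n1 hx1 t1] at p
      exact a.trans ((hM2 δ p).trans (le_max_right _ _))
  rcases lt_or_gt_of_ne e0 with z | z
  · obtain ⟨q, hq⟩ := exists_rat_lt ((max M1 M2 - x) / ε)
    rw [lt_div_iff_of_neg z] at hq
    linarith [key q]
  · obtain ⟨q, hq⟩ := exists_rat_gt ((max M1 M2 - x) / ε)
    rw [div_lt_iff₀ z] at hq
    linarith [key q]

end Pool.Agent.P.MP_6d4b14_an.CL
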