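import Pool.Agent.P.MP_6d4b14_an.CLDefs

/-! The valuation ring of a rigid subgroup. -/

set_option linter.unusedSectionVars false
set_option linter.unusedVariables false

namespace Pool.Agent.P.MP_6d4b14_an.CL

open scoped Classical
open TR Function Polynomial

/-- the small elements outside the subgroup -/
def CLVal_S (U : ℝ → Prop) (x : ℝ) : Prop := x ≠ 0 ∧ ¬ U x ∧ ∀ q : ℚ, U (1 + q * x)

structure CLVal_H (U : ℝ → Prop) : Prop where
  h0 : ¬ U 0
  hmul : ∀ x y, U x → U y → U (x * y)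
  hinv : ∀ x, U x → U x⁻¹
  hrat : ∀ q : ℚ, q ≠ 0 → U q
  hrig : ∀ x, x ≠ 0 → U x ∨ (∀ q : ℚ, U (1 + q * x)) ∨ ∀ q : ℚ, U (1 + q * x⁻¹)

namespace CLVal_H

variable {U : ℝ → Prop} (H : CLVal_H U)
include H

theorem ne {x : ℝ} (h : U x) : x ≠ 0 := fun e => H.h0 (e ▸ h)

theorem one : U 1 := by simpa using H.hrat 1 one_ne_zero

theorem neg {x : ℝ} (h : U x) : U (-x) := by
  have := H.hmul _ _ (H.hrat (-1) (by norm_num)) h
  simpa using this

theorem div {x y : ℝ} (h : U x) (h' : U y) : U (x / y) := by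
  rw [div_eq_mul_inv]; exact H.hmul _ _ h (H.hinv _ h')

theorem inv' {x : ℝ} (h : U x⁻¹) : U x := by simpa using H.hinv _ h

/-- cancel a factor -/
theorem canc {x y : ℝ} (h : U (x * y)) (h' : U x) : U y := by
  have := H.div h h'
  rwa [mul_div_cancel_left₀ _ (H.ne h')] at this

theorem dich {x : ℝ} (h0 : x ≠ 0) (h : ¬ U x) : CLVal_S U x ∨ CLVal_S U x⁻¹ := by
  rcases H.hrig x h0 with h1 | h1 | h1
  · exact absurd h1 h
  · exact Or.inl ⟨h0, h, h1⟩
  · exact Or.inr ⟨inv_ne_zero h0, fun h2 => h (H.inv' h2), h1⟩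

theorem add1 {x : ℝ} (h : CLVal_S U x) : U (1 + x) := by simpa using h.2.2 1

theorem sub1 {x : ℝ} (h : CLVal_S U x) : U (1 - x) := by
  have := h.2.2 (-1)
  simpa [sub_eq_add_neg] using this

theorem not_both {x : ℝ} (h : CLVal_S U x) (h' : CLVal_S U x⁻¹) : False := by
  have h1 := H.add1 h
  have h2 := H.add1 h'
  have e : 1 + x = (1 + x⁻¹) * x := by have := h.1; field_simp; ring
  rw [e] at h1
  exact h.2.1 (H.canc h1 h2)

theorem smul {x : ℝ} (h : CLVal_S U x) {q : ℚ} (hq : q ≠ 0) : CLVal_S U (q * x) := by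
  refine ⟨mul_ne_zero (by exact_mod_cast hq) h.1, fun h1 => h.2.1 (H.canc h1 (H.hrat q hq)),
    fun r => ?_⟩
  have := h.2.2 (r * q)
  rwa [Rat.cast_mul, mul_assoc] at this

theorem sneg {x : ℝ} (h : CLVal_S U x) : CLVal_S U (-x) := by
  have := H.smul h (q := -1) (by norm_num)
  simpa using this

theorem step1 {x y : ℝ} (hx : CLVal_S U x) (hy : CLVal_S U y) :
    U (1 - x * y) ∨ U ((1 - x * y) / x) := by
  have h1 := H.add1 hx
  have h2 := H.add1 hy
  have n1 := H.ne h1
  have n2 := H.ne h2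
  have nx := hx.1
  have hw : ¬ U (x * (1 + y) / (1 + x)) := fun h => by
    have h3 := H.hmul _ _ h h1
    rw [div_mul_cancel₀ _ n1, mul_comm] at h3
    exact hx.2.1 (H.canc h3 h2)
  rcases H.dich (div_ne_zero (mul_ne_zero nx n2) n1) hw with h | h
  · left
    have h3 := H.hmul _ _ h1 (H.sub1 h)
    have e : (1 + x) * (1 - x * (1 + y) / (1 + x)) = 1 - x * y := by field_simp; ring
    rwa [e] at h3
  · right
    have h3 := H.neg (H.hmul _ _ h2 (H.sub1 h))
    have e : -((1 + y) * (1 - (x * (1 + y) / (1 + x))⁻¹)) = (1 - x * y) / x := by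
      field_simp; ring
    rwa [e] at h3

theorem step2 {x y : ℝ} (hx : CLVal_S U x) (hy : CLVal_S U y) (h : ¬ U (x * y)) :
    CLVal_S U (x * y) := by
  have nx := hx.1
  have ny := hy.1
  rcases H.dich (mul_ne_zero nx ny) h with h1 | h1
  · exact h1
  · exfalso
    have h2 := H.neg (H.sub1 h1)
    rcases H.step1 hx hy with h3 | h3
    · have e : 1 - x * y = -(1 - (x * y)⁻¹) * (x * y) := by field_simp; ring
      rw [e] at h3
      exact h (H.canc h3 h2)
    · have e : (1 - x * y) / x = -(1 - (x * y)⁻¹) * y := by field_simp; ring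
      rw [e] at h3
      exact hy.2.1 (H.canc h3 h2)

theorem step3 {z : ℝ} (hz : CLVal_S U z) :
    ∃ r, CLVal_S U r ∧ (z = r * r ∨ z = -(r * r)) := by
  have e : Real.sqrt |z| * Real.sqrt |z| = |z| := Real.mul_self_sqrt (abs_nonneg z)
  generalize Real.sqrt |z| = r at e
  have hc : z = r * r ∨ z = -(r * r) := by
    rw [e]
    rcases abs_choice z with h | h
    · left; exact h.symm
    · right; rw [h, neg_neg]
  have hs : CLVal_S U (r * r) := by
    rcases hc with h | h
    · exact h ▸ hz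
    · have := H.sneg hz
      rwa [h, neg_neg] at this
  have r0 : r ≠ 0 := fun h => hs.1 (by rw [h, mul_zero])
  refine ⟨r, ?_, hc⟩
  rcases H.dich r0 (fun h => hs.2.1 (H.hmul _ _ h h)) with h | h
  · exact h
  · exfalso
    refine H.not_both hs ?_
    rw [mul_inv]
    refine H.step2 h h fun h1 => hs.2.1 (H.inv' ?_)
    rwa [mul_inv]

theorem step1' {x y : ℝ} (hx : CLVal_S U x) (hy : CLVal_S U y) :
    U (1 - x * y) ∨ U (y / x) := by
  rcases H.step1 hx hy with h | h
  · exact Or.inl h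
  rcases H.step1 hy hx with h' | h'
  · exact Or.inl (mul_comm x y ▸ h')
  right
  have h1 := H.div h h'
  have n : 1 - y * x ≠ 0 := fun e => H.ne h' (by rw [e, zero_div])
  have nx := hx.1
  have ny := hy.1
  have e : (1 - x * y) / x / ((1 - y * x) / y) = y / x := by
    rw [mul_comm x y]; field_simp
  rwa [e] at h1

theorem step4 {x y : ℝ} (hx : CLVal_S U x) (hy : CLVal_S U y) : U (1 - x * y) := by
  by_cases h : U (x * y)
  swap
  · exact H.sub1 (H.step2 hx hy h)
  obtain ⟨r, hr, hc⟩ := H.step3 hx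
  have nr := hr.1
  have h1 : ¬ U (r * y) := fun h1 => by
    refine hr.2.1 (H.canc (x := r * y) ?_ h1)
    rcases hc with e | e
    · have e2 : r * y * r = x * y := by rw [e]; ring
      rwa [e2]
    · have e2 : r * y * r = -(x * y) := by rw [e]; ring
      rw [e2]; exact H.neg h
  have h2 := H.step2 hr hy h1
  rcases hc with e | e
  · rcases H.step1' hr h2 with h3 | h3
    · have e2 : x * y = r * (r * y) := by rw [e]; ring
      rwa [e2]
    · rw [mul_div_cancel_left₀ _ nr] at h3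
      exact absurd h3 hy.2.1
  · rcases H.step1' hr (H.sneg h2) with h3 | h3
    · have e2 : x * y = r * -(r * y) := by rw [e]; ring
      rwa [e2]
    · have h4 := H.neg h3
      rw [neg_div, neg_neg, mul_div_cancel_left₀ _ nr] at h4
      exact absurd h4 hy.2.1

theorem step5 {x y z : ℝ} (hx : CLVal_S U x) (hy : CLVal_S U y) (h : U (x * y))
    (hz : CLVal_S U z) : CLVal_S U (x * y * z) := by
  have hn : ¬ U (x * y * z) := fun h1 => hz.2.1 (H.canc h1 h)
  by_cases h1 : U (y * z)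
  swap
  · rw [mul_assoc] at hn ⊢
    exact H.step2 hx (H.step2 hy hz h1) hn
  by_cases h2 : U (x * z)
  swap
  · have e : x * y * z = y * (x * z) := by ring
    rw [e] at hn ⊢
    exact H.step2 hy (H.step2 hx hz h2) hn
  obtain ⟨r, hr, hc⟩ := H.step3 hz
  have key : ∀ w, CLVal_S U w → U (w * z) → CLVal_S U (w * r) := fun w hw hwz => by
    refine H.step2 hw hr fun h3 => hr.2.1 (H.canc (x := w * r) ?_ h3)
    rcases hc with e | e
    · have e2 : w * r * r = w * z := by rw [e]; ring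
      rwa [e2]
    · have e2 : w * r * r = -(w * z) := by rw [e]; ring
      rw [e2]; exact H.neg hwz
  rcases hc with e | e
  · have e2 : x * y * z = x * r * (y * r) := by rw [e]; ring
    rw [e2] at hn ⊢
    exact H.step2 (key x hx h2) (key y hy h1) hn
  · have e2 : x * y * z = x * r * -(y * r) := by rw [e]; ring
    rw [e2] at hn ⊢
    exact H.step2 (key x hx h2) (H.sneg (key y hy h1)) hn

end CLVal_H

/-- membership in the valuation ring -/
def CLVal_O (U : ℝ → Prop) (t : ℝ) : Prop :=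
  t = 0 ∨ CLVal_S U t ∨ (U t ∧ ∀ z, CLVal_S U z → CLVal_S U (t * z))

namespace CLVal_H

variable {U : ℝ → Prop} (H : CLVal_H U)
include H

theorem omul {a b : ℝ} (ha : CLVal_O U a) (hb : CLVal_O U b) : CLVal_O U (a * b) := by
  rcases ha with ha | ha | ha
  · left; rw [ha, zero_mul]
  · rcases hb with hb | hb | hb
    · left; rw [hb, mul_zero]
    · by_cases h : U (a * b)
      · exact Or.inr (Or.inr ⟨h, fun z hz => H.step5 ha hb h hz⟩)
      · exact Or.inr (Or.inl (H.step2 ha hb h))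
    · exact Or.inr (Or.inl (mul_comm b a ▸ hb.2 a ha))
  · rcases hb with hb | hb | hb
    · left; rw [hb, mul_zero]
    · exact Or.inr (Or.inl (ha.2 b hb))
    · refine Or.inr (Or.inr ⟨H.hmul _ _ ha.1 hb.1, fun z hz => ?_⟩)
      rw [mul_assoc]
      exact ha.2 _ (hb.2 z hz)

theorem orat (q : ℚ) : CLVal_O U q := by
  by_cases hq : q = 0
  · left; simp [hq]
  · exact Or.inr (Or.inr ⟨H.hrat q hq, fun z hz => H.smul hz hq⟩)

theorem otot (t : ℝ) : CLVal_O U t ∨ CLVal_O U t⁻¹ := by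
  by_cases h0 : t = 0
  · exact Or.inl (Or.inl h0)
  by_cases h : U t
  swap
  · rcases H.dich h0 h with h1 | h1
    · exact Or.inl (Or.inr (Or.inl h1))
    · exact Or.inr (Or.inr (Or.inl h1))
  by_cases h1 : ∀ z, CLVal_S U z → CLVal_S U (t * z)
  · exact Or.inl (Or.inr (Or.inr ⟨h, h1⟩))
  refine Or.inr (Or.inr (Or.inr ⟨H.hinv _ h, fun z hz => ?_⟩))
  push Not at h1
  obtain ⟨x, hx, h2⟩ := h1
  have nx := hx.1
  have h3 := (H.dich (mul_ne_zero h0 nx) fun h3 => hx.2.1 (H.canc h3 h)).resolve_left h2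
  have e : x * (t * x)⁻¹ = t⁻¹ := by field_simp
  have := H.step5 hx h3 (e ▸ H.hinv _ h) hz
  rwa [e] at this

theorem sfrac {z : ℝ} (hz : CLVal_S U z) : CLVal_S U (z / (1 + z)) := by
  have h1 := H.add1 hz
  have n1 := H.ne h1
  refine ⟨div_ne_zero hz.1 n1, fun h => hz.2.1 ?_, fun q => ?_⟩
  · have := H.hmul _ _ h h1
    rwa [div_mul_cancel₀ _ n1] at this
  · have := H.div (hz.2.2 (1 + q)) h1
    have e : (1 + ((1 + q : ℚ) : ℝ) * z) / (1 + z) = 1 + q * (z / (1 + z)) := by
      push_cast; field_simp; ring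
    rwa [e] at this

theorem oplus {t : ℝ} (h : U (1 + t)) (h1 : ∀ z, CLVal_S U z → U (1 + t * z)) :
    CLVal_O U (1 + t) := by
  refine Or.inr (Or.inr ⟨h, fun z hz => ⟨mul_ne_zero (H.ne h) hz.1,
    fun h2 => hz.2.1 (H.canc h2 h), fun q => ?_⟩⟩)
  by_cases hq : q = 0
  · simpa [hq] using H.one
  have h2 := H.smul hz hq
  have h3 := H.add1 h2
  have n3 := H.ne h3
  have h4 := H.hmul _ _ h3 (h1 _ (H.sfrac h2))
  have e : (1 + q * z) * (1 + t * (q * z / (1 + q * z))) = 1 + q * ((1 + t) * z) := by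
    field_simp; ring
  rwa [e] at h4

theorem oadd1 {t : ℝ} (ht : CLVal_O U t) : CLVal_O U (1 + t) := by
  rcases ht with ht | ht | ht
  · simpa [ht] using H.orat 1
  · refine H.oplus (H.add1 ht) fun z hz => ?_
    have := H.step4 ht (H.sneg hz)
    simpa using this
  · by_cases h0 : 1 + t = 0
    · exact Or.inl h0
    by_cases h : U (1 + t)
    · exact H.oplus h fun z hz => H.add1 (ht.2 z hz)
    rcases H.dich h0 h with h1 | h1
    · exact Or.inr (Or.inl h1)
    · exfalso
      have e : t * (1 + t)⁻¹ = 1 - (1 + t)⁻¹ := by field_simp; ring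
      exact (ht.2 _ h1).2.1 (e ▸ H.sub1 h1)

theorem oadd {a b : ℝ} (ha : CLVal_O U a) (hb : CLVal_O U b) : CLVal_O U (a + b) := by
  by_cases a0 : a = 0
  · rwa [a0, zero_add]
  by_cases b0 : b = 0
  · rwa [b0, add_zero]
  rcases H.otot (b / a) with h | h
  · have e : a + b = a * (1 + b / a) := by field_simp
    rw [e]; exact H.omul ha (H.oadd1 h)
  · have e : a + b = b * (1 + (b / a)⁻¹) := by field_simp; ring
    rw [e]; exact H.omul hb (H.oadd1 h)

end CLVal_H

theorem exists_val (U : ℝ → Prop) (h0 : ¬ U 0) (hmul : ∀ x y, U x → U y → U (x * y))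
    (hinv : ∀ x, U x → U x⁻¹) (hrat : ∀ q : ℚ, q ≠ 0 → U q)
    (hrig : ∀ x, x ≠ 0 → U x ∨ (∀ q : ℚ, U (1 + q * x)) ∨ ∀ q : ℚ, U (1 + q * x⁻¹)) :
    ∃ O : ValuationSubring ℝ, (∀ q : ℚ, (q : ℝ) ∈ O) ∧ ∀ x, x ≠ 0 → x ∈ O → x⁻¹ ∈ O → U x := by
  have H : CLVal_H U := ⟨h0, hmul, hinv, hrat, hrig⟩
  refine ⟨{ carrier := {t | CLVal_O U t}
            mul_mem' := fun ha hb => H.omul ha hb
            one_mem' := by simpa using H.orat 1
            add_mem' := fun ha hb => H.oadd ha hb
            zero_mem' := Or.inl rfl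
            neg_mem' := fun {a} ha => by
              have := H.omul (H.orat (-1)) ha
              simpa using this
            mem_or_inv_mem' := H.otot }, H.orat, fun x hx h1 h2 => ?_⟩
  have h1' : CLVal_O U x := h1
  have h2' : CLVal_O U x⁻¹ := h2
  rcases h1' with h | h | h
  · exact absurd h hx
  · rcases h2' with h' | h' | h'
    · exact absurd h' (inv_ne_zero hx)
    · exact (H.not_both h h').elim
    · exact H.inv' h'.1
  · exact h.1

theorem rad_of_val {G : ℝ → ℝ} (hs : ∀ x, G (1 - x) = G x) (h0 : G 0 = 1)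
    (O : ValuationSubring ℝ) (hq : ∀ q : ℚ, (q : ℝ) ∈ O)
    (hO : ∀ u, u ≠ 0 → u ∈ O → u⁻¹ ∈ O → ∀ s, G (u * s) = G s) : Rad G := by
  have hu : ∀ u, O.valuation u = 1 → ∀ s, G (u * s) = G s := fun u h =>
    hO u (fun e => by rw [e, map_zero] at h; exact zero_ne_one h)
      ((O.valuation_le_one_iff u).1 h.le)
      ((O.valuation_le_one_iff u⁻¹).1 (by rw [map_inv₀, h, inv_one]))
  have h1 : G 1 = 1 := by have := hs 0; rwa [sub_zero, h0] at this
  choose f hf using O.valuation_surjective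
  have key : ∀ x, G x = G (f (O.valuation x)) := fun x => by
    have e := hf (O.valuation x)
    generalize f (O.valuation x) = y at e
    by_cases hy : y = 0
    · rw [hy, map_zero] at e
      rw [hy, (map_eq_zero O.valuation).1 e.symm]
    · have hv : O.valuation y ≠ 0 := (map_ne_zero O.valuation).2 hy
      have := hu (x / y) (by rw [map_div₀, ← e, div_self hv]) y
      rwa [div_mul_cancel₀ _ hy] at this
  refine ⟨O, hq, fun δ => G (f δ), fun x hx => ?_, key⟩
  show G (f (O.valuation x)) = 1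
  rw [← key]
  rcases ((O.valuation_le_one_iff x).2 hx).eq_or_lt with h | h
  · have := hu x h 1
    rwa [mul_one, h1] at this
  · have := hu (1 - x) (O.valuation.map_one_sub_of_lt h) 1
    rwa [mul_one, h1, hs] at this

end Pool.Agent.P.MP_6d4b14_an.CL
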