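import Pool.Agent.P.MP_6d4b14_an.CLB1c
import Pool.Agent.P.MP_6d4b14_an.CLB2b
import Pool.Agent.P.MP_6d4b14_an.CLRig
import Pool.Agent.P.MP_6d4b14_an.CLVal

/-! Solutions with many periods are radial. -/

set_option linter.unusedSectionVars false
set_option linter.unusedVariables false

namespace Pool.Agent.P.MP_6d4b14_an.CL

open scoped Classical
open TR Function Polynomial

theorem CLB_small {G : ℝ → ℝ} (h0 : G 0 = 1) {A : Type} [CommRing A] [Algebra ℝ A] {T : ℝ → A}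
    (hT : Dil T) (hψ : ∀ s, ∃ ψ : A →ₗ[ℝ] ℝ, ∀ w, w ≠ 0 → ψ (T w) = G (w * s)) {x0 η : ℝ}
    (hx : G x0 ≠ 1) (hη : η ≠ 0) (hη1 : η + 1 ≠ 0) (p1 : x0 / η ∈ Per G)
    (p2 : x0 / (η + 1) ∈ Per G) : Sm T η⁻¹ := by
  have hP : ∀ p ∈ Per G, G p = 1 := fun p hp => by
    have := mem_Per.1 hp 0
    rwa [zero_add, h0] at this
  obtain ⟨ψ, h1⟩ := hψ (x0 / η)
  obtain ⟨ψ', h2⟩ := hψ x0
  have e1 : η * (x0 / η) = x0 := by field_simp
  have e2 : (η + 1) * (x0 / η) = x0 + x0 / η := by field_simp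
  have e3 : η⁻¹ * x0 = x0 / η := by field_simp
  have e4 : (η + 1)⁻¹ * x0 = x0 / (η + 1) := by field_simp
  refine hT.small hη ψ ψ' ?_ ?_ ?_ ?_ hη1
  · rw [h1 _ hη, h1 _ hη1, e1, e2, mem_Per.1 p1]
  · rw [← hT.one, h1 _ hη, h1 _ one_ne_zero, e1, one_mul, hP _ p1]
    exact hx
  · rw [h2 _ (inv_ne_zero hη), h2 _ (inv_ne_zero hη1), e3, e4, hP _ p1, hP _ p2]
  · rw [← hT.one, h2 _ (inv_ne_zero hη), h2 _ one_ne_zero, e3, one_mul, hP _ p1]
    exact hx.symm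

theorem OG.rad {G : ℝ → ℝ} (h : OG G) (hS : SP G) : Rad G := by
  by_cases hc : ∀ x, G x = 1
  · exact rad_of_val h.sym h.one ⊤ (fun q => ValuationSubring.mem_top _)
      fun u _ _ _ s => by rw [hc, hc]
  push Not at hc
  obtain ⟨x0, hx0⟩ := hc
  have h1 := h.one_per hS
  obtain ⟨A, i1, i2, T, hT, hψ, hU⟩ := exists_dil h.one (h.rat_inv h1) (h.six h1)
  have hs : ∀ x, Irrational x → ∃ ε, ε ≠ 0 ∧ Sm T (ε / x) ∧ Sm T (ε / (x + 1)) := by
    intro x hx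
    have x1 : x ≠ 0 := hx.ne_zero
    have x2 : x + 1 ≠ 0 := by
      have := (hx.add_natCast 1).ne_zero
      simpa using this
    obtain ⟨η, hη⟩ := hS {x0 / x, x0 / (x + 1)} {0, 1 / x, 1 / (x + 1)}
    obtain ⟨a0, b0⟩ := hη 0 (by simp)
    rw [add_zero] at a0 b0
    have key : ∀ y : ℝ, y ≠ 0 → x0 / y ∈ ({x0 / x, x0 / (x + 1)} : Finset ℝ) →
        1 / y ∈ ({0, 1 / x, 1 / (x + 1)} : Finset ℝ) → Sm T (η⁻¹ / y) := by
      intro y hy m1 m2
      obtain ⟨a1, b1⟩ := hη _ m2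
      have e0 : y * η + 1 = y * (η + 1 / y) := by field_simp
      have e1 : η⁻¹ / y = (y * η)⁻¹ := by field_simp
      have e2 : x0 / (y * η) = x0 / y / η := by field_simp
      have e3 : x0 / (y * η + 1) = x0 / y / (η + 1 / y) := by rw [e0, div_div]
      rw [e1]
      refine CLB_small h.one hT hψ hx0 (mul_ne_zero hy a0) ?_ ?_ ?_
      · rw [e0]; exact mul_ne_zero hy a1
      · rw [e2]; exact b0 _ m1
      · rw [e3]; exact b1 _ m1
    exact ⟨η⁻¹, inv_ne_zero a0, key x x1 (by simp) (by simp), key (x + 1) x2 (by simp) (by simp)⟩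
  obtain ⟨O, hO1, hO2⟩ := exists_val (fun w => w ≠ 0 ∧ T w = 1) (fun H => H.1 rfl)
    (fun x y hx hy => ⟨mul_ne_zero hx.1 hy.1, by rw [hT.mul x y hx.1 hy.1, hx.2, hy.2, one_mul]⟩)
    (fun x hx => ⟨inv_ne_zero hx.1, by
      have := hT.mul_inv hx.1
      rwa [hx.2, one_mul] at this⟩)
    (fun q hq => ⟨by exact_mod_cast hq, hT.rat q hq⟩)
    (fun x hx => by
      rcases hT.rigid hs hx with H | H | H
      · exact Or.inl ⟨hx, H⟩
      · exact Or.inr (Or.inl H)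
      · exact Or.inr (Or.inr H))
  exact rad_of_val h.sym h.one O hO1 fun u hu m1 m2 s => hU u hu (hO2 u hu m1 m2).2 s

end Pool.Agent.P.MP_6d4b14_an.CL
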