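import Pool.Agent.P.MP_6d4b14_an.CLQ1

/-! Degree two: rank at least two. -/

set_option linter.unusedSectionVars false
set_option linter.unusedVariables false

namespace Pool.Agent.P.MP_6d4b14_an.CL

open scoped Classical
open TR Function Polynomial

theorem CLQ2_prop {φ ψ : ℝ → ℝ} {c1 c2 x y : ℝ} (hr : φ c1 * x ≠ φ c2 * y)
    (h : ∀ a c, ψ a * φ c = ψ c * φ a) : ∃ l : ℝ, ∀ c, ψ c = l * φ c := by
  have h0 : ∃ c0, φ c0 ≠ 0 := by
    by_contra hc
    push Not at hc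
    exact hr (by rw [hc, hc, zero_mul, zero_mul])
  obtain ⟨c0, h0⟩ := h0
  refine ⟨ψ c0 / φ c0, fun c => ?_⟩
  have := h c c0
  field_simp
  linarith

theorem CLQ2_kill {φ1 φ2 ψ : ℝ → ℝ} {c1 c2 : ℝ} (hr : φ1 c1 * φ2 c2 ≠ φ1 c2 * φ2 c1)
    (h1 : ∀ a c, ψ a * φ1 c = ψ c * φ1 a) (h2 : ∀ a c, ψ a * φ2 c = ψ c * φ2 a) (a : ℝ) :
    ψ a = 0 := by
  have hD : φ1 c1 * φ2 c2 - φ1 c2 * φ2 c1 ≠ 0 := sub_ne_zero.2 hr
  have hu : ψ c1 = 0 := by
    apply (mul_eq_zero.1 (_ : ψ c1 * (φ1 c1 * φ2 c2 - φ1 c2 * φ2 c1) = 0)).resolve_right hD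
    linear_combination φ1 c1 * h2 c1 c2 - φ2 c1 * h1 c1 c2
  have hv : ψ c2 = 0 := by
    apply (mul_eq_zero.1 (_ : ψ c2 * (φ1 c1 * φ2 c2 - φ1 c2 * φ2 c1) = 0)).resolve_right hD
    linear_combination φ1 c2 * h2 c1 c2 - φ2 c2 * h1 c1 c2
  apply (mul_eq_zero.1 (_ : ψ a * (φ1 c1 * φ2 c2 - φ1 c2 * φ2 c1) = 0)).resolve_right hD
  have e1 := h1 a c1
  have e2 := h1 a c2
  rw [hu] at e1
  rw [hv] at e2
  linear_combination φ2 c2 * e1 - φ2 c1 * e2

theorem CLQ2_ind {φ1 φ2 : ℝ → ℝ} {c1 c2 x y : ℝ} (hr : φ1 c1 * φ2 c2 ≠ φ1 c2 * φ2 c1)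
    (h : ∀ c, x * φ1 c = y * φ2 c) : x = 0 ∧ y = 0 := by
  have hD : φ1 c1 * φ2 c2 - φ1 c2 * φ2 c1 ≠ 0 := sub_ne_zero.2 hr
  constructor
  · apply (mul_eq_zero.1 (_ : x * (φ1 c1 * φ2 c2 - φ1 c2 * φ2 c1) = 0)).resolve_right hD
    linear_combination φ2 c2 * h c1 - φ2 c1 * h c2
  · apply (mul_eq_zero.1 (_ : y * (φ1 c1 * φ2 c2 - φ1 c2 * φ2 c1) = 0)).resolve_right hD
    linear_combination φ1 c2 * h c1 - φ1 c1 * h c2

theorem par1 (f g : ℝ →+ ℝ →+ ℝ) {w1 w2 c1 c2 : ℝ} (hr : f w1 c1 * f w2 c2 ≠ f w1 c2 * f w2 c1)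
    (h : ∀ w a c, g w a * f w c = g w c * f w a) : ∃ l : ℝ, ∀ w c, g w c = l * f w c := by
  have hP : ∀ w w' a c, g w a * f w' c + g w' a * f w c = g w c * f w' a + g w' c * f w a := by
    intro w w' a c
    have e := h (w + w') a c
    simp only [map_add, AddMonoidHom.add_apply] at e
    linear_combination e - h w a c - h w' a c
  obtain ⟨l1, hl1⟩ := CLQ2_prop (φ := f w1) (ψ := g w1) hr (h w1)
  have hr' : f w2 c2 * f w1 c1 ≠ f w2 c1 * f w1 c2 := by
    intro e; exact hr (by linear_combination e)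
  obtain ⟨l2, hl2⟩ := CLQ2_prop (φ := f w2) (ψ := g w2) hr' (h w2)
  have hD : f w1 c1 * f w2 c2 - f w1 c2 * f w2 c1 ≠ 0 := sub_ne_zero.2 hr
  have h12 : l1 = l2 := by
    have e := hP w1 w2 c1 c2
    rw [hl1, hl1, hl2, hl2] at e
    have : (l1 - l2) * (f w1 c1 * f w2 c2 - f w1 c2 * f w2 c1) = 0 := by linear_combination e
    exact sub_eq_zero.1 ((mul_eq_zero.1 this).resolve_right hD)
  subst h12
  refine ⟨l1, fun w c => ?_⟩
  have := CLQ2_kill (φ1 := f w1) (φ2 := f w2) (ψ := fun c => g w c - l1 * f w c) hr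
    (fun a c => by
      have e := hP w w1 a c
      rw [hl1, hl1] at e
      linear_combination e)
    (fun a c => by
      have e := hP w w2 a c
      rw [hl2, hl2] at e
      linear_combination e) c
  exact sub_eq_zero.1 this

theorem CLQ2_tri (f : ℝ →+ ℝ →+ ℝ)
    (h : ∀ w a c, f (w ^ 2) a * f w c = f (w ^ 2) c * f w a) (x y z a c : ℝ) :
    f (x * y) a * f z c + f (y * z) a * f x c + f (z * x) a * f y c =
      f (x * y) c * f z a + f (y * z) c * f x a + f (z * x) c * f y a := by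
  have e0 := h (x + y + z) a c
  have e1 := h (x + y) a c
  have e2 := h (y + z) a c
  have e3 := h (z + x) a c
  have a0 : (x + y + z) ^ 2 =
      x ^ 2 + y ^ 2 + z ^ 2 + x * y + x * y + y * z + y * z + z * x + z * x := by ring
  have a1 : (x + y) ^ 2 = x ^ 2 + y ^ 2 + x * y + x * y := by ring
  have a2 : (y + z) ^ 2 = y ^ 2 + z ^ 2 + y * z + y * z := by ring
  have a3 : (z + x) ^ 2 = z ^ 2 + x ^ 2 + z * x + z * x := by ring
  rw [a0] at e0
  rw [a1] at e1
  rw [a2] at e2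
  rw [a3] at e3
  simp only [map_add, AddMonoidHom.add_apply] at e0 e1 e2 e3
  linear_combination (e0 - e1 - e2 - e3 + h x a c + h y a c + h z a c) / 2

theorem CLQ2_row (f : ℝ →+ ℝ →+ ℝ)
    (h : ∀ w a c, f (w ^ 2) a * f w c = f (w ^ 2) c * f w a) {w c1 c2 u v : ℝ}
    (hr : f w c1 * u ≠ f w c2 * v) :
    ∃ (t : ℝ) (n : ℝ →+ ℝ), ∀ y c, f (y * w) c = t * f y c + n y * f w c := by
  obtain ⟨t, ht⟩ := CLQ2_prop (φ := f w) (ψ := f (w ^ 2)) hr (h w)
  have h0 : ∃ c0, f w c0 ≠ 0 := by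
    by_contra hc
    push Not at hc
    exact hr (by rw [hc, hc, zero_mul, zero_mul])
  obtain ⟨c0, h0⟩ := h0
  refine ⟨t / 2, AddMonoidHom.mk' (fun y => (f (y * w) c0 - t / 2 * f y c0) / f w c0) ?_, ?_⟩
  · intro y y'
    simp only [add_mul, map_add, AddMonoidHom.add_apply]
    ring
  · intro y c
    have e := CLQ2_tri f h y w w c c0
    rw [← sq, ht, ht, mul_comm w y] at e
    simp only [AddMonoidHom.mk'_apply]
    field_simp
    linear_combination e

theorem par2 (f : ℝ →+ ℝ →+ ℝ) {w1 w2 c1 c2 : ℝ} (hr : f w1 c1 * f w2 c2 ≠ f w1 c2 * f w2 c1)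
    (h1 : ∀ c, f 1 c = 0) (h : ∀ w a c, f (w ^ 2) a * f w c = f (w ^ 2) c * f w a) (x y c : ℝ) :
    f (x * y) c = x * f y c + y * f x c := by
  have hr' : f w2 c2 * f w1 c1 ≠ f w2 c1 * f w1 c2 := by
    intro e; exact hr (by linear_combination e)
  have hD : f w1 c1 * f w2 c2 - f w1 c2 * f w2 c1 ≠ 0 := sub_ne_zero.2 hr
  obtain ⟨t1, n, hn⟩ := CLQ2_row f h hr
  obtain ⟨t2, n2, hn2⟩ := CLQ2_row f h hr'
  have ht := CLQ2_ind (φ1 := f w1) (φ2 := f w2) (x := n w2 - t2) (y := n2 w1 - t1) hr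
    (fun c => by
      have e1 := hn w2 c
      have e2 := hn2 w1 c
      rw [mul_comm w1 w2] at e2
      linear_combination e2 - e1)
  have ht2 : t2 = n w2 := by linarith [ht.1]
  have ht1 : t1 = n2 w1 := by linarith [ht.2]
  have h12 : ∀ y, n2 y = n y := by
    intro y
    have e := CLQ2_tri f h y w1 w2 c1 c2
    rw [mul_comm w2 y, mul_comm w1 w2, hn, hn, hn, hn, hn2, hn2, ht2] at e
    have : (n y - n2 y) * (f w1 c1 * f w2 c2 - f w1 c2 * f w2 c1) = 0 := by
      linear_combination e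
    exact (sub_eq_zero.1 ((mul_eq_zero.1 this).resolve_right hD)).symm
  rw [h12] at ht1
  have hQ : ∀ x y c, f (x * y) c = n x * f y c + n y * f x c := by
    intro x y c
    have := CLQ2_kill (φ1 := f w1) (φ2 := f w2)
      (ψ := fun c => f (x * y) c - (n x * f y c + n y * f x c)) hr
      (fun a c => by
        have e := CLQ2_tri f h x y w1 a c
        rw [mul_comm w1 x, hn, hn, hn, hn, ht1] at e
        linear_combination e)
      (fun a c => by
        have e := CLQ2_tri f h x y w2 a c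
        rw [mul_comm w2 x, hn2, hn2, hn2, hn2, ht2, h12, h12] at e
        linear_combination e) c
    exact sub_eq_zero.1 this
  have hn1 : n 1 = 1 := by
    have := CLQ2_ind (φ1 := f w1) (φ2 := f w2) (x := n 1 - 1) (y := 0) hr (fun c => by
      have e := hQ 1 w1 c
      rw [one_mul, h1] at e
      linear_combination -e)
    linarith [this.1]
  have hm : ∀ x y z c, (n (x * y) - n x * n y) * f z c = (n (y * z) - n y * n z) * f x c := by
    intro x y z c
    have e1 := hQ (x * y) z c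
    have e2 := hQ x (y * z) c
    rw [hQ x y c] at e1
    rw [hQ y z c, ← mul_assoc] at e2
    linear_combination e2 - e1
  have hmul : ∀ x y, n (x * y) = n x * n y := by
    intro x y
    have a1 := (CLQ2_ind (φ1 := f w1) (φ2 := f w2) hr (hm w2 y w1)).2
    have := CLQ2_ind (φ1 := f w1) (φ2 := f w2) (x := n (x * y) - n x * n y) (y := 0) hr
      (fun c => by rw [hm x y w1 c, a1, zero_mul, zero_mul])
    exact sub_eq_zero.1 this.1
  rw [hQ, add_id n hn1 hmul, add_id n hn1 hmul]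

theorem K2.bider {b : ℝ →+ ℝ →+ ℝ} (h : K2 b) (hα : ∀ x, b 1 x = b 1 1 * x)
    (hd : ∀ x y c, b (x * y) c - b 1 1 * (x * y * c) =
      x * (b y c - b 1 1 * (y * c)) + y * (b x c - b 1 1 * (x * c))) : QM b := by
  have key : ∀ w c, ((3 * b 1 1 - 3) * w ^ 2 + (b w w - b 1 1 * (w * w))) *
      (b w c - b 1 1 * (w * c)) = 0 := by
    intro w c
    by_cases hw : w = 0
    · subst hw
      simp
    have e := h.eq w 1 c hw
    have e1 := hd w w⁻¹ c
    have e2 := hd w c w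
    rw [mul_inv_cancel₀ hw, hα c] at e1
    rw [mul_one, h.symm w⁻¹ 1, hα w⁻¹, h.symm w (w * c), h.symm (w * c) 1, hα (w * c),
      h.symm c w] at e
    rw [h.symm c w] at e2
    have hi : w * w⁻¹ = 1 := mul_inv_cancel₀ hw
    generalize w⁻¹ = v at e e1 hi
    generalize b v c = B1 at e e1
    generalize b (w * c) w = B2 at e e2
    generalize b w w = B3 at e e2 ⊢
    generalize b w c = B4 at e e1 e2 ⊢
    generalize b 1 1 = β at e e1 e2 ⊢
    have f1 : w ^ 2 * B1 = β * w * c - (B4 - β * (w * c)) := by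
      linear_combination -w * e1 - (B4 - β * (w * c) - β * w * c) * hi
    have f2 : B2 = β * (w * c * w) + w * (B4 - β * (c * w)) + c * (B3 - β * (w * w)) := by
      linear_combination e2
    linear_combination -w ^ 2 * e + B3 * f1 - β * w * f2 - β * w * B2 * hi
  have hC : ∀ w, b w w - b 1 1 * (w * w) = 0 := by
    intro w
    by_contra hne
    have k0 := (mul_eq_zero.1 (key w w)).resolve_right hne
    have k1 := key (w + 1) w
    have k2 := key (w - 1) w
    simp only [map_add, map_sub, AddMonoidHom.add_apply, AddMonoidHom.sub_apply] at k1 k2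
    rw [h.symm w 1, hα w] at k1 k2
    have j1 : ((3 * b 1 1 - 3) * (w + 1) ^ 2 + (b w w - b 1 1 * (w * w))) *
        (b w w - b 1 1 * (w * w)) = 0 := by linear_combination k1
    have j2 : ((3 * b 1 1 - 3) * (w - 1) ^ 2 + (b w w - b 1 1 * (w * w))) *
        (b w w - b 1 1 * (w * w)) = 0 := by linear_combination k2
    have l1 := (mul_eq_zero.1 j1).resolve_right hne
    have l2 := (mul_eq_zero.1 j2).resolve_right hne
    have hβ : b 1 1 = 1 := by linear_combination (l1 + l2 - 2 * k0) / 6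
    apply hne
    rw [hβ] at k0 ⊢
    linear_combination k0
  intro x y
  rw [sub_eq_zero.1 (hC (x * y)), sub_eq_zero.1 (hC x), sub_eq_zero.1 (hC y)]
  ring

theorem CLQ2_anti {b : ℝ →+ ℝ →+ ℝ} (h : K2 b) (w a c : ℝ) : om b w a c = -om b w c a := by
  simp only [om]
  rw [h.symm (w * c) a, h.symm c (w * a)]
  ring

theorem CLQ2_red {b : ℝ →+ ℝ →+ ℝ} (h : K2 b) {e0 : ℝ} (h0 : b 1 e0 ≠ 0) {w : ℝ} {φ : ℝ → ℝ}
    (hφ : Dv (om b w) φ) (a c : ℝ) :
    (φ a - φ e0 / b 1 e0 * b 1 a) * om b w e0 c = (φ c - φ e0 / b 1 e0 * b 1 c) * om b w e0 a := by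
  have e1 := (h.dv w).1 a c e0
  have e2 := hφ a c e0
  simp only [CLQ2_anti h w c e0] at e1 e2
  field_simp
  linear_combination φ e0 * e1 - b 1 e0 * e2

theorem K2.rank_two {b : ℝ →+ ℝ →+ ℝ} (h : K2 b) {e0 w1 w2 c1 c2 : ℝ} (h0 : b 1 e0 ≠ 0)
    (hr : om b w1 e0 c1 * om b w2 e0 c2 ≠ om b w1 e0 c2 * om b w2 e0 c1) : QM b := by
  let f : ℝ →+ ℝ →+ ℝ := AddMonoidHom.mk' (fun w => AddMonoidHom.mk' (fun c => om b w e0 c)
    (fun c c' => by simp only [om, mul_add, map_add, AddMonoidHom.add_apply]; ring))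
    (fun w w' => by
      ext c
      simp only [om, add_mul, map_add, AddMonoidHom.add_apply, AddMonoidHom.mk'_apply]
      ring)
  let g : ℝ →+ ℝ →+ ℝ := AddMonoidHom.mk'
    (fun w => AddMonoidHom.mk' (fun c => b w c - b w e0 / b 1 e0 * b 1 c)
    (fun c c' => by simp only [map_add]; ring))
    (fun w w' => by
      ext c
      simp only [map_add, AddMonoidHom.add_apply, AddMonoidHom.mk'_apply]
      ring)
  have hf : ∀ w c, f w c = om b w e0 c := fun w c => rfl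
  have hg : ∀ w c, g w c = b w c - b w e0 / b 1 e0 * b 1 c := fun w c => rfl
  obtain ⟨l, hl⟩ := par1 f g (w1 := w1) (w2 := w2) (c1 := c1) (c2 := c2) hr
    (fun w a c => CLQ2_red h h0 (h.dv w).2.1 a c)
  by_cases hl0 : l = 0
  · refine h.hua (c := b e0 e0 / b 1 e0 / b 1 e0) fun x y => ?_
    have e1 := hl x y
    have e2 := hl e0 x
    rw [hl0, zero_mul, hg, sub_eq_zero] at e1 e2
    rw [e1, h.symm x e0, e2]
    ring
  have hrg : g w1 c1 * g w2 c2 ≠ g w1 c2 * g w2 c1 := by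
    rw [hl, hl, hl, hl]
    intro e
    apply hr
    have : l ^ 2 * (f w1 c1 * f w2 c2 - f w1 c2 * f w2 c1) = 0 := by linear_combination e
    exact sub_eq_zero.1 ((mul_eq_zero.1 this).resolve_left (pow_ne_zero 2 hl0))
  have hg1 : ∀ c, g 1 c = 0 := fun c => by rw [hg, div_self h0, one_mul, sub_self]
  have hp := par2 g hrg hg1 (fun w a c => by
    have e : g (w ^ 2) a * f w c = g (w ^ 2) c * f w a := CLQ2_red h h0 (h.dv w).2.2.2 a c
    rw [hl w c, hl w a]
    linear_combination l * e)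
  obtain ⟨ν, hνs, hν⟩ : ∃ ν : ℝ → ℝ → ℝ, (∀ x y, ν x y = ν y x) ∧
      ∀ x y z, b (x * y) z = x * b y z + y * b x z + ν x y * b 1 z := by
    refine ⟨fun x y => (b (x * y) e0 - x * b y e0 - y * b x e0) / b 1 e0, fun x y => ?_,
      fun x y z => ?_⟩
    · simp only [mul_comm x y]
      ring
    · have e := hp x y z
      rw [hg, hg, hg] at e
      linear_combination e
  have hom : ∀ y x z, om b y x z = z * b y x - x * b y z + ν y z * b 1 x - ν y x * b 1 z := by
    intro y x z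
    rw [om, h.symm z (y * x), hν, hν, h.symm z x]
    ring
  have hi : ∀ y a c, (a - e0 / b 1 e0 * b 1 a) * g y c = (c - e0 / b 1 e0 * b 1 c) * g y a := by
    intro y a c
    have e := (h.dv y).1 e0 a c
    simp only [hom] at e
    rw [hg, hg]
    field_simp
    linear_combination -b 1 e0 * e
  have hi0 := CLQ2_kill (φ1 := g w1) (φ2 := g w2) (ψ := fun a => a - e0 / b 1 e0 * b 1 a) hrg
    (hi w1) (hi w2)
  have hα : ∀ x, b 1 x = b 1 1 * x := by
    intro x
    have a1 : 1 - e0 / b 1 e0 * b 1 1 = 0 := hi0 1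
    have a2 : x - e0 / b 1 e0 * b 1 x = 0 := hi0 x
    linear_combination b 1 x * a1 - b 1 1 * a2
  refine h.bider hα fun x y c => ?_
  have e1 := hν x y c
  have e2 := hν x y 1
  rw [h.symm (x * y) 1, h.symm y 1, h.symm x 1, hα (x * y), hα x, hα y] at e2
  rw [hα c] at e1
  linear_combination e1 - c * e2

theorem K2.qm {b : ℝ →+ ℝ →+ ℝ} (h : K2 b) : QM b := by
  by_cases hα : ∀ x, b 1 x = 0
  · intro x y
    rw [h.alpha_zero hα (x * y), h.alpha_zero hα x, mul_zero, zero_mul]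
  push Not at hα
  obtain ⟨e0, h0⟩ := hα
  by_cases ho : ∀ w c, om b w e0 c = 0
  · refine h.om_zero fun w a c => ?_
    have e := (h.dv w).1 a c e0
    simp only [CLQ2_anti h w c e0, ho] at e
    have : b 1 e0 * om b w a c = 0 := by linear_combination e
    exact (mul_eq_zero.1 this).resolve_left h0
  push Not at ho
  obtain ⟨w0, c0, h1⟩ := ho
  by_cases h2 : ∀ w c, om b w e0 c * om b w0 e0 c0 = om b w e0 c0 * om b w0 e0 c
  · exact h.rank_one h0 h1 h2
  push Not at h2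
  obtain ⟨w, c, h3⟩ := h2
  exact h.rank_two h0 h3

end Pool.Agent.P.MP_6d4b14_an.CL
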