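import Pool.Agent.P.MP_6d4b14_an.CLRep

/-! Calculus of top forms. -/

set_option linter.unusedSectionVars false
set_option linter.unusedVariables false

namespace Pool.Agent.P.MP_6d4b14_an.CL

open scoped Classical
open TR Function Polynomial

variable {n : ℕ} {φ ψ T T' : ℝ → ℝ}

theorem CLTop_peq {p q : ℝ[X]} (h : ∀ r : ℚ, p.eval (r : ℝ) = q.eval (r : ℝ)) : p = q := by
  apply Polynomial.eq_of_infinite_eval_eq
  refine (Set.infinite_range_of_injective (Rat.cast_injective (α := ℝ))).mono ?_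
  rintro _ ⟨r, rfl⟩
  exact h r

theorem CLTop_gp (H : ∀ t c : ℝ, ∃ p : ℝ[X], p.natDegree ≤ n ∧
    ∀ q : ℚ, φ (q * t + c) = p.eval (q : ℝ)) : GP n φ := by
  intro h
  funext c
  obtain ⟨p, hp, hq⟩ := H h c
  have h0 := congrFun (Polynomial.fwdDiff_iter_eq_zero_of_degree_lt (P := p) (n := n + 1)
    (Nat.lt_succ_of_le hp)) 0
  rw [fwdDiff_iter_eq_sum_shift] at h0 ⊢
  rw [Pi.zero_apply] at h0 ⊢
  rw [← h0]
  refine Finset.sum_congr rfl fun k _ => ?_
  have h1 := hq (k : ℚ)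
  rw [Rat.cast_natCast] at h1
  rw [nsmul_eq_mul, nsmul_eq_mul, add_comm c, h1, zero_add, mul_one]

theorem Tp.add (h : Tp n φ T) (h' : Tp n ψ T') :
    Tp n (fun x => φ x + ψ x) fun t => T t + T' t := by
  intro t c
  obtain ⟨p, hp, hc, hq⟩ := h t c
  obtain ⟨p', hp', hc', hq'⟩ := h' t c
  refine ⟨p + p', (natDegree_add_le _ _).trans (max_le hp hp'), ?_, fun q => ?_⟩
  · rw [coeff_add, hc, hc']
  · simp only [eval_add, hq, hq']

theorem Tp.mul (h : Tp n φ T) (c : ℝ) : Tp n (fun x => c * φ x) fun t => c * T t := by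
  intro t d
  obtain ⟨p, hp, hc, hq⟩ := h t d
  refine ⟨C c * p, (natDegree_C_mul_le _ _).trans hp, ?_, fun q => ?_⟩
  · rw [coeff_C_mul, hc]
  · simp only [eval_mul, eval_C, hq]

theorem Tp.sub (h : Tp n φ T) (h' : Tp n ψ T') :
    Tp n (fun x => φ x - ψ x) fun t => T t - T' t := by
  intro t c
  obtain ⟨p, hp, hc, hq⟩ := h t c
  obtain ⟨p', hp', hc', hq'⟩ := h' t c
  refine ⟨p - p', (natDegree_sub_le _ _).trans (max_le hp hp'), ?_, fun q => ?_⟩
  · rw [coeff_sub, hc, hc']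
  · simp only [eval_sub, hq, hq']

theorem Tp.aff (h : Tp n φ T) (α β : ℝ) :
    Tp n (fun x => φ (α * x + β)) fun t => T (α * t) := by
  intro t c
  obtain ⟨p, hp, hc, hq⟩ := h (α * t) (α * c + β)
  refine ⟨p, hp, hc, fun q => ?_⟩
  have e : α * (q * t + c) + β = q * (α * t) + (α * c + β) := by ring
  simp only [e, hq]

theorem Tp.raise (h : Tp n φ T) : Tp (n + 1) φ 0 := by
  intro t c
  obtain ⟨p, hp, hc, hq⟩ := h t c
  exact ⟨p, hp.trans (Nat.le_succ n), coeff_eq_zero_of_natDegree_lt (Nat.lt_succ_of_le hp), hq⟩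

theorem Tp.lower (h : Tp (n + 1) φ 0) : ∃ T, Tp n φ T := by
  refine GP.tp (CLTop_gp fun t c => ?_)
  obtain ⟨p, hp, hc, hq⟩ := h t c
  refine ⟨p, ?_, hq⟩
  rw [natDegree_le_iff_coeff_eq_zero]
  intro N hN
  rcases (Nat.succ_le_of_lt hN).eq_or_lt with e | e
  · rw [← e]
    exact hc
  · exact coeff_eq_zero_of_natDegree_lt (lt_of_le_of_lt hp e)

theorem Tp.const (h : Tp 0 φ T) (x : ℝ) : φ x = φ 0 := by
  obtain ⟨p, hp, hc, hq⟩ := h x 0
  have e := eq_C_of_natDegree_le_zero hp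
  have h1 := hq 1
  have h0 := hq 0
  rw [e, eval_C] at h1 h0
  simp only [Rat.cast_one, Rat.cast_zero, one_mul, zero_mul, add_zero] at h1 h0
  rw [h1, h0]

theorem Tp.zero (h : Tp 0 φ 0) : φ = 0 := by
  funext x
  obtain ⟨p, hp, hc, hq⟩ := h x 0
  have e := eq_C_of_natDegree_le_zero hp
  have h1 := hq 1
  rw [e, eval_C, hc] at h1
  simpa using h1

theorem tp_poly (P : ℝ[X]) (hP : P.natDegree ≤ n) :
    Tp n (fun x => P.eval x) fun t => P.coeff n * t ^ n := by
  intro t c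
  refine ⟨(taylor c P).comp (C t * X), ?_, ?_, fun q => ?_⟩
  · rw [natDegree_le_iff_coeff_eq_zero]
    intro N hN
    rw [comp_C_mul_X_coeff, coeff_eq_zero_of_natDegree_lt, zero_mul]
    rw [natDegree_taylor]
    exact lt_of_le_of_lt hP hN
  · rw [comp_C_mul_X_coeff, taylor_coeff]
    have hd : (hasseDeriv n P).natDegree ≤ 0 :=
      (natDegree_hasseDeriv_le P n).trans (by omega)
    rw [eq_C_of_natDegree_le_zero hd, eval_C, hasseDeriv_coeff]
    simp
  · rw [eval_comp, taylor_eval, eval_mul, eval_C, eval_X, mul_comm t]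

theorem Tp.odd (h : Tp n φ T) {d : ℝ} (hs : ∀ x, φ (d - x) = φ x) (hn : Odd n) : T = 0 := by
  have h1 := h.aff (-1) d
  have e : (fun x => φ (-1 * x + d)) = φ := by
    funext x
    rw [← hs x]
    congr 1
    ring
  rw [e] at h1
  have h2 := h.unique h1
  funext t
  have h3 := congrFun h2 t
  have h4 := h.hom (-1) t
  rw [Rat.cast_neg, Rat.cast_one, hn.neg_one_pow] at h4
  simp only [Pi.zero_apply]
  linarith

theorem GP.min (h : GP n φ) (h0 : φ ≠ 0) : ∃ m T, Tp m φ T ∧ T ≠ 0 := by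
  induction n with
  | zero =>
    obtain ⟨T, hT⟩ := h.tp
    refine ⟨0, T, hT, ?_⟩
    rintro rfl
    exact h0 hT.zero
  | succ n ih =>
    obtain ⟨T, hT⟩ := h.tp
    by_cases hT0 : T = 0
    · subst hT0
      obtain ⟨T', hT'⟩ := hT.lower
      exact ih hT'.gp
    · exact ⟨n + 1, T, hT, hT0⟩

theorem GP.line (h : GP n φ) (t c : ℝ) :
    ∃ p : ℝ[X], ∀ q : ℚ, φ (q * t + c) = p.eval (q : ℝ) := by
  obtain ⟨T, hT⟩ := h.tp
  obtain ⟨p, -, -, hq⟩ := hT t c
  exact ⟨p, hq⟩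

theorem GP.nab (h : GP n φ) (c : ℝ) : GP n (nab c φ) := by
  obtain ⟨T, hT⟩ := h.tp
  have h1 := (hT.sub (hT.aff 1 (-c))).gp
  have e : (fun x => φ x - φ (1 * x + -c)) = CL.nab c φ := by
    funext x
    rw [CL.nab, one_mul, ← sub_eq_add_neg x c]
  rw [e] at h1
  exact h1

theorem GP.per_rat (h : GP n φ) {p : ℝ} (hp : p ∈ Per φ) (q : ℚ) : (q : ℝ) * p ∈ Per φ := by
  rw [mem_Per] at hp ⊢
  intro x
  obtain ⟨P, hP⟩ := h.line p x
  have h1 : ∀ k : ℕ, P.eval (k : ℝ) = φ x := by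
    intro k
    have h2 := hP (k : ℚ)
    rw [Rat.cast_natCast] at h2
    rw [← h2]
    clear h2
    induction k with
    | zero => simp
    | succ k ih =>
      have e : ((k + 1 : ℕ) : ℝ) * p + x = (k * p + x) + p := by
        push_cast
        ring
      rw [e, hp, ih]
  have h3 : P = C (φ x) := by
    apply Polynomial.eq_of_infinite_eval_eq
    refine (Set.infinite_range_of_injective (Nat.cast_injective (R := ℝ))).mono ?_
    rintro _ ⟨k, rfl⟩
    simp only [Set.mem_ofPred_eq, eval_C, h1]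
  rw [add_comm, hP, h3, eval_C]

theorem Tp.wt_zero (h : Tp n φ 0) (hw : Wt (n + 1) φ) : φ = 0 := by
  by_contra h0
  obtain ⟨m, T, hT, hT0⟩ := h.gp.min h0
  obtain ⟨t, ht⟩ := Function.ne_iff.mp hT0
  simp only [Pi.zero_apply] at ht
  obtain ⟨p, hp, hc, hq⟩ := hT t 0
  obtain ⟨p', hp', hc', hq'⟩ := h t 0
  have e : p = p' := CLTop_peq fun r => by rw [← hq, ← hq']
  subst e
  have hmn : m ≠ n := by
    rintro rfl
    exact ht (hc.symm.trans hc')
  have h1 := (hT.aff 2 0).add (hT.aff 2 (-1))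
  have e2 : (fun x => φ (2 * x + 0) + φ (2 * x + -1)) = fun x => 2 ^ (n + 1) * φ x := by
    funext x
    rw [add_zero, ← sub_eq_add_neg, hw x]
  rw [e2] at h1
  have h2 := congrFun (h1.unique (hT.mul (2 ^ (n + 1)))) t
  have h3 := hT.hom 2 t
  simp only [Rat.cast_ofNat] at h3
  simp only [h3] at h2
  have h4 : (2 : ℝ) ^ (m + 1) = 2 ^ (n + 1) := by
    apply mul_right_cancel₀ ht
    rw [← h2]
    ring
  have h5 := pow_right_injective₀ (by norm_num : (0 : ℝ) < 2) (by norm_num) h4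
  exact hmn (by omega)

theorem wt_pow (n : ℕ) : Wt n fun s => s ^ n - (s - 1) ^ n := by
  intro s
  have e : 2 * s - 1 - 1 = 2 * (s - 1) := by ring
  simp only [e, mul_pow]
  ring

theorem tp_pow (n : ℕ) :
    Tp n (fun s => s ^ (n + 1) - (s - 1) ^ (n + 1)) fun t => (n + 1) * t ^ n := by
  have hc : ∀ k : ℕ, ((X : ℝ[X]) ^ (n + 1) - (X + C (-1)) ^ (n + 1)).coeff k =
      (if k = n + 1 then 1 else 0) - (-1) ^ (n + 1 - k) * ((n + 1).choose k : ℝ) := by
    intro k
    rw [coeff_sub, coeff_X_pow, coeff_X_add_C_pow]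
  have h1 := tp_poly (n := n) ((X : ℝ[X]) ^ (n + 1) - (X + C (-1)) ^ (n + 1)) (by
    rw [natDegree_le_iff_coeff_eq_zero]
    intro N hN
    rw [hc]
    rcases (Nat.succ_le_of_lt hN).eq_or_lt with e | e
    · rw [← e]
      simp
    · rw [if_neg (by omega), Nat.choose_eq_zero_of_lt e]
      simp)
  rw [hc] at h1
  convert h1 using 2
  · simp [sub_eq_add_neg]
  · simp

theorem wronsk (f g : ℝ[X]) (S : Set ℝ) (hS : S.Infinite)
    (h : ∀ x ∈ S, f.derivative.eval x * g.eval x = f.eval x * g.derivative.eval x) :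
    f.eval 1 * g.eval 0 = g.eval 1 * f.eval 0 := by
  have h1 : f.derivative * g = f * g.derivative := by
    apply Polynomial.eq_of_infinite_eval_eq
    refine hS.mono fun x hx => ?_
    simp only [Set.mem_ofPred_eq, eval_mul, h x hx]
  obtain ⟨f', g', hf, hg, hu⟩ := extract_gcd f g
  generalize gcd f g = d at hf hg
  subst hf hg
  by_cases hd : d = 0
  · simp [hd]
  have hco : IsCoprime f' g' := (gcd_isUnit_iff f' g').mp hu
  have hw : wronskian f' g' = 0 := by
    apply mul_left_cancel₀ (mul_ne_zero hd hd)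
    rw [wronskian]
    simp only [derivative_mul] at h1
    linear_combination (-1 : ℝ[X]) * h1
  obtain ⟨ha, hb⟩ := hco.wronskian_eq_zero_iff.mp hw
  rw [eq_C_of_derivative_eq_zero ha, eq_C_of_derivative_eq_zero hb]
  simp only [eval_mul, eval_C]
  ring

theorem dd_deriv {t h : ℝ} {p : ℝ[X]} (H : ∀ q : ℚ, T (q * h + t) = p.eval (q : ℝ)) (r : ℚ) :
    dd T (r * h + t) h = p.derivative.eval (r : ℝ) := by
  rw [← taylor_coeff_one]
  refine dd_eq fun q => ?_
  have e : (q : ℝ) * h + (r * h + t) = ((q + r : ℚ) : ℝ) * h + t := by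
    push_cast
    ring
  rw [e, H, taylor_eval, Rat.cast_add]

end Pool.Agent.P.MP_6d4b14_an.CL
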