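import Pool.Agent.P.MP_6d4b14_an.CLW
import Pool.Agent.P.MP_6d4b14_an.CLTop

/-! Many periods; the even part vanishes. -/

set_option linter.unusedSectionVars false
set_option linter.unusedVariables false

namespace Pool.Agent.P.MP_6d4b14_an.CL

open scoped Classical
open TR Function Polynomial

theorem CLSP_add {L : List ℝ} {φ ψ : ℝ → ℝ} (h : dfl L φ = 0) (h' : dfl L ψ = 0) :
    dfl L (fun x => φ x + ψ x) = 0 := by
  rw [dfl_add, h, h']
  funext x
  simp

theorem CLSP_mul {L : List ℝ} {φ : ℝ → ℝ} (c : ℝ) (h : dfl L φ = 0) :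
    dfl L (fun x => c * φ x) = 0 := by
  rw [dfl_mul, h]
  funext x
  simp

theorem CLSP_sub {L : List ℝ} {φ ψ : ℝ → ℝ} (h : dfl L φ = 0) (h' : dfl L ψ = 0) :
    dfl L (fun x => φ x - ψ x) = 0 := by
  have := CLSP_add h (CLSP_mul (-1) h')
  simpa only [neg_mul, one_mul, ← sub_eq_add_neg] using this

theorem CLSP_cons (a : ℝ) (l : List ℝ) (φ : ℝ → ℝ) : dfl (a :: l) φ = fwdDiff a (dfl l φ) := rfl

theorem CLSP_fz (a : ℝ) : fwdDiff a (0 : ℝ → ℝ) = 0 := by
  funext x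
  simp [fwdDiff]

theorem CLSP_shift (L : List ℝ) (α σ : ℝ) (φ : ℝ → ℝ)
    (h : dfl (L.map fun h => α * h) φ = 0) : dfl L (fun s => φ (α * (s - σ))) = 0 := by
  have e : (fun s => φ (α * (s - σ))) = fun s => φ (α * s + -(α * σ)) := by
    funext s
    congr 1
    ring
  rw [e, dfl_aff, h]
  rfl

theorem CLSP_per {φ : ℝ → ℝ} {c b : ℝ} (h : c * b ∈ Per φ) (a : ℝ) :
    φ ((a - c) * b) = φ (a * b) := by
  rw [← mem_Per.1 h ((a - c) * b)]
  congr 1
  ring

theorem CLSP_per1 {φ : ℝ → ℝ} {c b : ℝ} (h : c * b + 1 ∈ Per φ) (a : ℝ) :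
    φ ((a - c) * b) = φ (a * b + 1) := by
  rw [← mem_Per.1 h ((a - c) * b)]
  congr 1
  ring

theorem CLSP_const {p : ℝ[X]} {a : ℝ} {f : ℕ → ℝ} (hf : Injective f)
    (h : ∀ j, p.eval (f j) = a) (x : ℝ) : p.eval x = a := by
  have : p = C a := Polynomial.eq_of_infinite_eval_eq p (C a)
    (Set.infinite_of_injective_forall_mem hf fun j => by simpa using h j)
  rw [this, eval_C]

theorem per_or_kill {G : ℝ → ℝ} (hG : Glob G) {p : ℝ} (hp : p ∈ Per G) {n : ℕ}
    (hn : GP n (ev G)) {η : ℝ} (hη : η ≠ 0) :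
    η⁻¹ ∈ Per G ∨ ∀ h, dfl [p * η, η] ((fwdDiff h)^[n + 1] G) = 0 := by
  refine or_iff_not_imp_left.2 fun hc h => ?_
  obtain ⟨o, ho⟩ := hG.re
  obtain ⟨x0, hx0⟩ : ∃ x, G (x + η⁻¹) ≠ G x := not_forall.1 hc
  set L : List ℝ := p * η :: List.replicate (n + 1) h with hL
  have kE : ∀ α σ, dfl L (fun s => ev G (α * (s - σ))) = 0 := fun α σ => by
    refine CLSP_shift L α σ _ ?_
    rw [hL, List.map_cons, List.map_replicate, CLSP_cons, dfl_replicate, hn, CLSP_fz]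
  have kG : ∀ σ, dfl L (fun s => G (η⁻¹ * (s - σ))) = 0 := fun σ => by
    refine CLSP_shift L _ σ _ ?_
    have e : η⁻¹ * (p * η) = p := by field_simp
    have e2 : fwdDiff p G = 0 := by
      funext x
      simp [fwdDiff, mem_Per.1 hp x]
    rw [hL, List.map_cons, e, CLSP_cons, ← dfl_fwd, e2, dfl_zero]
  have k4 : ∀ w t σ, dfl L (fun s => ev G (t * (s - σ)) + ev G (t * (s - σ - w⁻¹)) +
      ev G ((t - w) * (s - σ)) + ev G ((t - w) * (s - σ - w⁻¹))) = 0 := fun w t σ => by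
    simp only [sub_sub _ σ w⁻¹]
    exact CLSP_add (CLSP_add (CLSP_add (kE _ _) (kE _ _)) (kE _ _)) (kE _ _)
  have kP : ∀ t σ, dfl L (fun s => Psi G (ev G) η⁻¹ t (s - σ)) = 0 := fun t σ =>
    CLSP_sub (CLSP_mul _ (kG σ)) (k4 _ t σ)
  set t := x0 + η⁻¹ with ht
  have key := CLSP_add (CLSP_add (CLSP_sub (CLSP_sub (kP t 0) (kP (t - 1) 0)) (kP t 1))
    (kP (t - 1) 1)) (CLSP_add (CLSP_sub (CLSP_sub (k4 1 t 0) (k4 1 (t - η⁻¹) 0)) (k4 1 t η))
      (k4 1 (t - η⁻¹) η))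
  have e : ∀ s, (G t - G x0) * fwdDiff η G (1 * s + -η) =
      Psi G (ev G) η⁻¹ t (s - 0) - Psi G (ev G) η⁻¹ (t - 1) (s - 0) -
        Psi G (ev G) η⁻¹ t (s - 1) + Psi G (ev G) η⁻¹ (t - 1) (s - 1) +
      (ev G (t * (s - 0)) + ev G (t * (s - 0 - 1⁻¹)) + ev G ((t - 1) * (s - 0)) +
          ev G ((t - 1) * (s - 0 - 1⁻¹)) -
        (ev G ((t - η⁻¹) * (s - 0)) + ev G ((t - η⁻¹) * (s - 0 - 1⁻¹)) +
          ev G ((t - η⁻¹ - 1) * (s - 0)) + ev G ((t - η⁻¹ - 1) * (s - 0 - 1⁻¹))) -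
        (ev G (t * (s - η)) + ev G (t * (s - η - 1⁻¹)) + ev G ((t - 1) * (s - η)) +
          ev G ((t - 1) * (s - η - 1⁻¹))) +
        (ev G ((t - η⁻¹) * (s - η)) + ev G ((t - η⁻¹) * (s - η - 1⁻¹)) +
          ev G ((t - η⁻¹ - 1) * (s - η)) + ev G ((t - η⁻¹ - 1) * (s - η - 1⁻¹)))) := fun s => by
    have h1 := ho.kos (inv_ne_zero hη) t s
    rw [inv_inv] at h1
    simp only [sub_zero]
    rw [← h1]
    have e1 : t - η⁻¹ = x0 := by rw [ht]; ring
    simp only [Psi, div_one, one_mul, fwdDiff, e1, ← sub_eq_add_neg, sub_add_cancel]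
    ring
  rw [← funext e, dfl_mul, dfl_aff] at key
  funext x
  have k := congrFun key (x + η)
  simp only [Pi.zero_apply, mul_eq_zero, sub_eq_zero, one_mul, List.map_id'] at k
  have k2 := k.resolve_left hx0
  rw [hL, CLSP_cons, dfl_fwd, dfl_replicate] at k2
  have e4 : x + η + -η = x := by ring
  rw [e4] at k2
  exact k2

theorem sp_or {G : ℝ → ℝ} (hG : Glob G) {p : ℝ} (hp0 : p ≠ 0) (hp : p ∈ Per G) :
    SP G ∨ ∃ n, GP n G := by
  refine or_iff_not_imp_left.2 fun hS => ?_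
  obtain ⟨n, hn⟩ := ev_gp hG hp0 hp
  simp only [SP, not_forall, not_exists] at hS
  obtain ⟨S, T, hS⟩ := hS
  set l : List (ℝ × ℝ) := T.toList.map (fun τ => ((1 : ℝ), τ)) ++
    (T ×ˢ S.erase 0).toList.flatMap
      fun x => [(p / x.2, p * x.1 / x.2), (1 / x.2, x.1 / x.2)] with hl
  obtain ⟨N, hN⟩ := wilson l (by
    intro q hq
    simp only [hl, List.mem_append, List.mem_map, List.mem_flatMap, Finset.mem_toList,
      Finset.mem_product, Finset.mem_erase, List.mem_cons, List.not_mem_nil, or_false] at hq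
    rcases hq with ⟨τ, -, rfl⟩ | ⟨x, ⟨-, hx, -⟩, rfl | rfl⟩
    · exact one_ne_zero
    · exact div_ne_zero hp0 hx
    · exact div_ne_zero one_ne_zero hx)
  refine ⟨N + (n + 1), fun h => ?_⟩
  have e : N + (n + 1) + 1 = N + 1 + (n + 1) := by ring
  rw [e, Function.iterate_add_apply]
  refine hN _ (fun η => ?_) h
  obtain ⟨τ, hτ, H⟩ := hS η
  by_cases h0 : η + τ = 0
  · refine dfl_sub (l := [0]) (List.singleton_sublist.2 ?_).subperm ?_
    · refine List.mem_map.2 ⟨(1, τ), ?_, by simpa using h0⟩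
      exact List.mem_append_left _ (List.mem_map.2 ⟨τ, Finset.mem_toList.2 hτ, rfl⟩)
    · funext x
      simp [dfl, fwdDiff]
  · obtain ⟨μ, hμ, hP⟩ : ∃ μ ∈ S, μ / (η + τ) ∉ Per G := by
      by_contra hc
      push Not at hc
      exact H ⟨h0, hc⟩
    have hμ0 : μ ≠ 0 := by
      rintro rfl
      exact hP (by rw [zero_div]; exact zero_mem _)
    have k := (per_or_kill hG hp hn (div_ne_zero h0 hμ0)).resolve_left (by rwa [inv_div]) h
    refine dfl_sub (List.Sublist.subperm ?_) k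
    have e1 : [p * ((η + τ) / μ), (η + τ) / μ] =
        [(p / μ, p * τ / μ), (1 / μ, τ / μ)].map fun q : ℝ × ℝ => q.1 * η + q.2 := by
      simp only [List.map_cons, List.map_nil]
      congr 1
      · ring
      · congr 1
        ring
    rw [e1]
    refine List.Sublist.map _ (List.Sublist.trans ?_ (List.sublist_append_right _ _))
    rw [List.flatMap_def]
    refine List.sublist_flatten_of_mem (List.mem_map.2 ⟨(τ, μ), ?_, rfl⟩)
    exact Finset.mem_toList.2 (Finset.mem_product.2 ⟨hτ, Finset.mem_erase.2 ⟨hμ0, hμ⟩⟩)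

theorem CLSP_one {G : ℝ → ℝ} (hG : Glob G) (hS : SP G) (s : ℝ) :
    ev G s - ev G (s - 1) = ev G 0 - ev G 1 := by
  obtain ⟨o, ho⟩ := hG.re
  obtain ⟨η, hη⟩ := hS {1, s} {0}
  obtain ⟨h0, hP⟩ := hη 0 (Finset.mem_singleton_self _)
  rw [add_zero] at h0 hP
  have p1 : η⁻¹ ∈ Per G := by simpa using hP 1 (by simp)
  have p2 : η⁻¹ * s ∈ Per G := by rw [← div_eq_inv_mul]; exact hP s (by simp)
  have p3 : η⁻¹ * (s - 1) ∈ Per G := by
    have := sub_mem p2 p1
    rwa [← mul_sub_one] at this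
  have p4 : η⁻¹ * (s - η) + 1 ∈ Per G := by
    rwa [mul_sub, inv_mul_cancel₀ h0, sub_add_cancel]
  have p5 : η⁻¹ * (s - η - 1) + 1 ∈ Per G := by
    rwa [sub_right_comm, mul_sub, inv_mul_cancel₀ h0, sub_add_cancel]
  have g1 : G (0 - η⁻¹) = G 0 := by rw [← mem_Per.1 p1, sub_add_cancel]
  have g2 : G (η⁻¹ * (s - 1)) = G (η⁻¹ * s) := by
    rw [← mem_Per.1 p1, mul_sub_one, sub_add_cancel]
  have k := ho.kos (inv_ne_zero h0) 0 s
  have e1 : (0 - 1) * (s - η) + 1 = (0 - 1) * (s - η - 1) := by ring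
  have e2 : ev G ((0 - 1) * s) = ev G s := by rw [← ev_neg hG.sym s]; congr 1; ring
  have e3 : ev G ((0 - 1) * (s - 1)) = ev G (s - 1) := by
    rw [← ev_neg hG.sym (s - 1)]; congr 1; ring
  simp only [Psi, inv_inv, inv_one, div_one, one_mul, sub_right_comm 0 η⁻¹ 1,
    sub_right_comm s 1 η, CLSP_per (per_ev p2), CLSP_per (per_ev p3), CLSP_per1 (per_ev p4),
    CLSP_per1 (per_ev p5), g1, g2, zero_mul, zero_add, e1, e2, e3] at k
  linarith

theorem ev_one {G : ℝ → ℝ} (hG : Glob G) (hS : SP G) : (1 : ℝ) ∈ Per (ev G) := by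
  intro x
  have h1 := CLSP_one hG hS (x + 1)
  have h2 := CLSP_one hG hS (1 / 2)
  have e : (1 / 2 - 1 : ℝ) = -(1 / 2) := by ring
  rw [e, ev_neg hG.sym] at h2
  rw [add_sub_cancel_right] at h1
  linarith

theorem CLSP_rect {G : ℝ → ℝ} (hG : Glob G) (hS : SP G) (t s : ℝ) {η : ℝ} (h0 : η ≠ 0)
    (q1 : 1 / η ∈ Per G) (q2 : s / η ∈ Per G) :
    ev G (t * s) - ev G (t * (s - 1)) - ev G ((t - 1) * s) + ev G ((t - 1) * (s - 1)) +
      (ev G (t * (s - η)) - ev G (t * (s - η - 1)) - ev G ((t - 1) * (s - η)) +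
        ev G ((t - 1) * (s - η - 1))) = 0 := by
  obtain ⟨o, ho⟩ := hG.re
  have p1 : η⁻¹ ∈ Per G := by simpa using q1
  have p2 : η⁻¹ * s ∈ Per G := by rwa [← div_eq_inv_mul]
  have p3 : η⁻¹ * (s - 1) ∈ Per G := by
    have := sub_mem p2 p1
    rwa [← mul_sub_one] at this
  have p4 : η⁻¹ * (s - η) ∈ Per (ev G) := by
    rw [mul_sub, inv_mul_cancel₀ h0]
    exact sub_mem (per_ev p2) (ev_one hG hS)
  have p5 : η⁻¹ * (s - η - 1) ∈ Per (ev G) := by
    rw [mul_sub_one]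
    exact sub_mem p4 (per_ev p1)
  have g1 : G (t - η⁻¹) = G t := by rw [← mem_Per.1 p1, sub_add_cancel]
  have g2 : G (η⁻¹ * (s - 1)) = G (η⁻¹ * s) := by
    rw [← mem_Per.1 p1, mul_sub_one, sub_add_cancel]
  have k := ho.kos (inv_ne_zero h0) t s
  simp only [Psi, inv_inv, inv_one, div_one, one_mul, sub_right_comm t η⁻¹ 1,
    sub_right_comm s 1 η, CLSP_per (per_ev p2), CLSP_per (per_ev p3), CLSP_per p4,
    CLSP_per p5, g1, g2] at k
  linarith

theorem ev_rect {G : ℝ → ℝ} (hG : Glob G) (hS : SP G) (t s : ℝ) :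
    ev G (t * s) - ev G (t * (s - 1)) - ev G ((t - 1) * s) + ev G ((t - 1) * (s - 1)) = 0 := by
  obtain ⟨a, ha⟩ := hS {1, s} {0}
  obtain ⟨b, hb⟩ := hS {1, s, s - a} {0, a}
  obtain ⟨a0, a1⟩ := ha 0 (by simp)
  obtain ⟨b0, b1⟩ := hb 0 (by simp)
  obtain ⟨c0, c1⟩ := hb a (by simp)
  rw [add_zero] at a0 a1 b0 b1
  have k1 := CLSP_rect hG hS t s a0 (a1 1 (by simp)) (a1 s (by simp))
  have k2 := CLSP_rect hG hS t (s - a) b0 (b1 1 (by simp)) (b1 _ (by simp))
  have k3 := CLSP_rect hG hS t s c0 (c1 1 (by simp)) (c1 s (by simp))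
  have e : s - (b + a) = s - a - b := by ring
  rw [e] at k3
  linarith

theorem og_of_sp {G : ℝ → ℝ} (hG : Glob G) (h0 : G 0 = 1) (hS : SP G) {n : ℕ}
    (hn : GP n (ev G)) : OG G := by
  have h1 := ev_one hG hS
  have hj : ∀ (j : ℕ) (z : ℝ), ev G (z - j) = ev G z := fun j z => by
    have := mem_Per.1 (nsmul_mem h1 j) (z - j)
    rw [nsmul_one, sub_add_cancel] at this
    exact this.symm
  have s1 : ∀ (x y : ℝ) (m : ℕ), nab x (nab y (ev G)) (((m + 1 : ℕ) : ℚ) * (x * y) + 0) = 0 := by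
    intro x y m
    set M : ℝ := (m : ℝ) + 1 with hM
    have hM0 : M ≠ 0 := by positivity
    obtain ⟨p, hp⟩ := (hn.nab y).line x (M * x * y)
    have hp' : ∀ j : ℕ, p.eval (j * M) = nab y (ev G) (j * M * x + M * x * y) := fun j => by
      have := hp ((j * (m + 1) : ℕ) : ℚ)
      push_cast at this
      exact this.symm
    have hc : ∀ j : ℕ, p.eval (j * M) = p.eval 0 := by
      intro j
      induction j with
      | zero => simp
      | succ j ih =>
        rw [← ih, hp', hp']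
        have r := ev_rect hG hS (M * x) (y + (j + 1 : ℕ))
        have e1 : M * x * (y + (j + 1 : ℕ)) = (j + 1 : ℕ) * M * x + M * x * y := by ring
        have e2 : M * x * (y + (j + 1 : ℕ) - 1) = j * M * x + M * x * y := by push_cast; ring
        have e3 : (M * x - 1) * (y + (j + 1 : ℕ)) =
            (j + 1 : ℕ) * M * x + M * x * y - y - (j + 1 : ℕ) := by ring
        have e4 : (M * x - 1) * (y + (j + 1 : ℕ) - 1) = j * M * x + M * x * y - y - j := by
          push_cast; ring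
        rw [e1, e2, e3, e4, hj, hj] at r
        simp only [nab]
        linarith
    have hinj : Injective fun j : ℕ => (j : ℝ) * M := fun a b h =>
      Nat.cast_injective (mul_right_cancel₀ hM0 h)
    have k := CLSP_const hinj hc ((-1 : ℚ) : ℝ)
    have k0 := hp 0
    rw [← hp] at k
    have e5 : (((m + 1 : ℕ) : ℚ) : ℝ) * (x * y) + 0 = ((0 : ℚ) : ℝ) * x + M * x * y := by
      push_cast; ring
    have e6 : ((0 : ℚ) : ℝ) * x + M * x * y - x = ((-1 : ℚ) : ℝ) * x + M * x * y := by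
      push_cast; ring
    rw [nab, e5, e6, k0, k, Rat.cast_zero, sub_self]
  have s2 : ∀ x, ev G x = ev G 0 := fun x => by
    obtain ⟨p, hp⟩ := ((hn.nab (-x)).nab x).line (x * -x) 0
    have hinj : Injective fun j : ℕ => (((j + 1 : ℕ) : ℚ) : ℝ) := fun a b h => by
      simpa using h
    have k := CLSP_const hinj (fun j => (hp _).symm.trans (s1 x (-x) j)) ((0 : ℚ) : ℝ)
    rw [← hp] at k
    simp only [nab, Rat.cast_zero, zero_mul, add_zero, zero_sub, sub_neg_eq_add,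
      zero_add, neg_add_cancel, ev_neg hG.sym] at k
    linarith
  have s3 : ev G = 0 := by
    funext x
    have := hG.zero 0
    rw [h0] at this
    rw [s2 x, Pi.zero_apply]
    linarith
  exact ⟨hG.sym, h0, by rw [← s3]; exact hG.re⟩

end Pool.Agent.P.MP_6d4b14_an.CL
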