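import Pool.Agent.P.MP_6d4b14_an.CLA0
import Pool.Agent.P.MP_6d4b14_an.CLA5a
import Pool.Agent.P.MP_6d4b14_an.CLA5b
import Pool.Agent.P.MP_6d4b14_an.CLQ2
import Pool.Agent.P.MP_6d4b14_an.CLSP
import Pool.Agent.P.MP_6d4b14_an.CLB

/-! Classification of the global solutions. -/

set_option linter.unusedSectionVars false
set_option linter.unusedVariables false

namespace Pool.Agent.P.MP_6d4b14_an.CL

open scoped Classical
open TR Function Polynomial

theorem CLA_mult {G T : ℝ → ℝ} {N : ℕ} (hG : Glob G) (h0 : G 0 = 1) (hT : Tp N G T)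
    (hN : 2 ≤ N) (hκ : 2 ^ (N + 1) * (G (1 / 2) / 2) ≠ 1) (x y : ℝ) :
    T 1 * T (x * y) = T x * T y := by
  rcases Nat.eq_or_lt_of_le hN with h2 | h3
  · subst h2
    obtain ⟨b, hs, hb, hTb⟩ := quad_rep hT hG.sym h0
    have e1 : b 1 1 = 2 * b 1 (1 / 2) := by
      have : (1 : ℝ) = 1 / 2 + 1 / 2 := by norm_num
      conv_lhs => rw [show b 1 1 = b 1 (1 / 2 + 1 / 2) by rw [← this]]
      rw [map_add]; ring
    have e2 : b 1 (1 / 2) = 2 * b (1 / 2) (1 / 2) := by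
      have : (1 : ℝ) = 1 / 2 + 1 / 2 := by norm_num
      rw [hs]
      conv_lhs => rw [show b (1 / 2) 1 = b (1 / 2) (1 / 2 + 1 / 2) by rw [← this]]
      rw [map_add]; ring
    have h3 : b 1 1 ≠ 3 := by
      intro h3
      apply hκ
      rw [hb]
      norm_num
      linarith
    have hq := (k2_of hG hs hb h3).qm x y
    rw [hTb, hTb, hTb, hTb]
    exact hq
  · obtain ⟨o, ho⟩ := hG.re
    have hκ' : (2 ^ (N + 1) * (G (1 / 2) / 2) - 1) / 2 ≠ (0 : ℝ) := by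
      intro h
      apply hκ
      linarith
    exact mult_of_star hT.self (star ho hT (tp_ev hT) hκ' h3) x y

theorem cls_poly {G : ℝ → ℝ} {m : ℕ} (hG : Glob G) (h0 : G 0 = 1) (hm : GP m G) :
    MT G ∨ Q4 G ∨ Q5 G := by
  have hne : G ≠ 0 := by
    intro h
    rw [h] at h0
    simp at h0
  obtain ⟨N, T, hT, hT0⟩ := hm.min hne
  have hE : Even N := by
    by_contra hodd
    exact hT0 (hT.odd hG.sym (Nat.not_even_iff_odd.mp hodd))
  rcases Nat.eq_zero_or_pos N with hN0 | hNpos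
  · subst hN0
    refine Or.inr (Or.inl ⟨0, fun x => ?_⟩)
    rw [hT.const x, h0]
    ring
  have hN2 : 2 ≤ N := by
    obtain ⟨k, hk⟩ := hE
    omega
  by_cases hκ : 2 ^ (N + 1) * (G (1 / 2) / 2) = 1
  · obtain ⟨hO, h2⟩ := og_of_top hG h0 hT hT0 hκ
    have hk : G 2 ≠ 1 := by
      intro h
      rw [h] at h2
      have h4 : (2 : ℝ) ^ 2 ≤ 2 ^ (N + 1) := pow_le_pow_right₀ (by norm_num) (by omega)
      linarith
    obtain ⟨N', rfl⟩ : ∃ N', N = N' + 1 := ⟨N - 1, by omega⟩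
    exact Or.inl (hO.mt (hO.no_per hT hT0 hk) hk)
  rcases a5 hG h0 hT hT0 hNpos hE hκ (CLA_mult hG h0 hT hN2 hκ) with hM | ⟨c1, c2, h1, h2, hc, h⟩
  · exact Or.inl hM
  obtain ⟨n, rfl⟩ : ∃ n, N = n + 2 := ⟨N - 2, by omega⟩
  have hEn : Even n := by
    obtain ⟨k, hk⟩ := hE
    exact ⟨k - 1, by omega⟩
  have hle : n ≤ 3 := deg_le hG hEn h1 h2 hc h
  have hn : n = 0 ∨ n = 2 := by
    obtain ⟨k, hk⟩ := hEn
    omega
  rcases hn with rfl | rfl
  · refine Or.inr (Or.inl ⟨2 * c1 + 3 * c2, fun x => ?_⟩)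
    rw [h x]
    have : c2 = 1 - c1 := by linarith
    subst this
    ring
  · refine Or.inr (Or.inr ⟨c1, fun x => ?_⟩)
    rw [h x]
    have : c2 = 1 - c1 := by linarith
    subst this
    ring

theorem cls_per {G : ℝ → ℝ} (hG : Glob G) (h0 : G 0 = 1) {p : ℝ} (hp0 : p ≠ 0)
    (hp : p ∈ Per G) : MT G ∨ Q4 G ∨ Q5 G ∨ Rad G := by
  obtain ⟨n, hn⟩ := ev_gp hG hp0 hp
  rcases sp_or hG hp0 hp with hS | ⟨k, hk⟩
  · exact Or.inr (Or.inr (Or.inr ((og_of_sp hG h0 hS hn).rad hS)))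
  · rcases cls_poly hG h0 hk with h | h | h
    · exact Or.inl h
    · exact Or.inr (Or.inl h)
    · exact Or.inr (Or.inr (Or.inl h))

end Pool.Agent.P.MP_6d4b14_an.CL
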