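import Pool.Agent.P.MP_6d4b14_an.CLB1a
import Pool.Agent.P.MP_6d4b14_an.CLTop

/-! Solutions without even part and without periods. -/

set_option linter.unusedSectionVars false
set_option linter.unusedVariables false

namespace Pool.Agent.P.MP_6d4b14_an.CL

open scoped Classical
open TR Function Polynomial

theorem CLA0_top (H : AddSubgroup ℝ) (h : H.FiniteIndex) : H = ⊤ := by
  rw [eq_top_iff]
  intro x _
  have hn : (H.index : ℝ) ≠ 0 := by exact_mod_cast h.index_ne_zero
  have h1 := H.nsmul_index_mem (x / H.index)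
  rw [nsmul_eq_mul] at h1
  have e : (H.index : ℝ) * (x / H.index) = x := by field_simp
  rwa [e] at h1

open Pointwise in
theorem cover3 (H1 H2 H3 : AddSubgroup ℝ) (h1 : H1 ≠ ⊤) (h2 : H2 ≠ ⊤) (h3 : H3 ≠ ⊤) :
    ∃ d, d ∉ H1 ∧ d ∉ H2 ∧ d ∉ H3 := by
  by_contra hc
  push Not at hc
  have hcov : ⋃ i ∈ (Finset.univ : Finset (Fin 3)),
      ((fun _ => (0 : ℝ)) i) +ᵥ ((![H1, H2, H3] i : AddSubgroup ℝ) : Set ℝ) = Set.univ := by
    rw [Set.eq_univ_iff_forall]
    intro d
    simp only [zero_vadd, Set.mem_iUnion]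
    by_cases a1 : d ∈ H1
    · exact ⟨0, Finset.mem_univ _, a1⟩
    by_cases a2 : d ∈ H2
    · exact ⟨1, Finset.mem_univ _, a2⟩
    · exact ⟨2, Finset.mem_univ _, hc d a1 a2⟩
  obtain ⟨k, -, hk⟩ := AddSubgroup.exists_finiteIndex_of_leftCoset_cover hcov
  have := CLA0_top _ hk
  fin_cases k
  · exact h1 this
  · exact h2 this
  · exact h3 this

/-- the basic exchange relation -/
theorem CLA0_ex {G m : ℝ → ℝ}
    (hm : ∀ c, c ≠ 0 → ∀ t, nab c G t = m c * nab c⁻¹ G (t / c)) {a b : ℝ} (ha : a ≠ 0)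
    (hb : b ≠ 0) (t : ℝ) :
    G (t / a) - G ((t - b) / a) = m (b / a) * (G (t / b) - G ((t - a) / b)) := by
  have h1 := hm (b / a) (div_ne_zero hb ha) (t / a)
  simp only [nab] at h1
  have e1 : t / a - b / a = (t - b) / a := by field_simp
  have e2 : t / a / (b / a) = t / b := by field_simp
  have e3 : t / b - (b / a)⁻¹ = (t - a) / b := by field_simp
  rw [e1, e2, e3] at h1
  exact h1

theorem CLA0_ne_top {G : ℝ → ℝ} (h : OG G) (hP : ∀ p ∈ Per G, p = 0) {a b : ℝ} (ha : a ≠ 0)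
    (hb : b ≠ 0) : Per (fun t => G (t / b) - G ((t - a) / b)) ≠ ⊤ := by
  intro htop
  have hc : ∀ x, nab (a / b) G x = nab (a / b) G 0 := by
    intro x
    have h1 : x * b ∈ Per (fun t => G (t / b) - G ((t - a) / b)) := by
      rw [htop]; trivial
    have h2 := mem_Per.1 h1 0
    simp only [nab]
    have e1 : (0 + x * b) / b = x := by field_simp; ring
    have e2 : (0 + x * b - a) / b = x - a / b := by field_simp; ring
    have e3 : (0 - a) / b = 0 - a / b := by ring
    rw [e1, e2, e3, zero_div] at h2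
    exact h2
  have h0 : nab (a / b) G 0 = 0 := by
    have h1 := h.anti (a / b) 0
    rw [hc] at h1
    linarith
  have hz : nab (a / b) G = 0 := by
    funext x
    rw [hc, h0]; rfl
  exact div_ne_zero ha hb (hP _ (nab_eq_zero.1 hz))

theorem CLA0_tri {G m : ℝ → ℝ} (hm0 : ∀ c, c ≠ 0 → m c ≠ 0)
    (hm : ∀ c, c ≠ 0 → ∀ t, nab c G t = m c * nab c⁻¹ G (t / c)) {a b d : ℝ} (ha : a ≠ 0)
    (hb : b ≠ 0) (hd : d ∉ Per (fun t => G (t / b) - G ((t - a) / b))) :
    m (d / a) = m (b / a) * m (d / b) := by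
  have hd0 : d ≠ 0 := by
    rintro rfl
    exact hd (zero_mem _)
  rw [mem_Per] at hd
  push Not at hd
  obtain ⟨x, hx⟩ := hd
  set t := x + d with ht
  have ex : x = t - d := by rw [ht]; ring
  rw [ex] at hx
  have k1 := CLA0_ex hm ha hb t
  have k2 := CLA0_ex hm ha hb (t - d)
  have k3 := CLA0_ex hm ha hd0 t
  have k4 := CLA0_ex hm ha hd0 (t - b)
  have k5 := CLA0_ex hm hb hd0 t
  have k6 := CLA0_ex hm hb hd0 (t - a)
  rw [show t - b - d = t - d - b by ring] at k4
  rw [show t - a - d = t - d - a by ring, show t - a - b = t - b - a by ring] at k6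
  set W := G (t / d) - G ((t - b) / d) - (G ((t - a) / d) - G ((t - b - a) / d)) with hW
  have hV : G (t / b) - G ((t - a) / b) - (G ((t - d) / b) - G ((t - d - a) / b)) =
      m (d / b) * W := by
    rw [hW]; linear_combination k5 - k6
  have hW0 : W ≠ 0 := by
    intro h0
    rw [h0, mul_zero] at hV
    exact hx (by linarith)
  have hfin : m (d / a) * W = m (b / a) * m (d / b) * W := by
    rw [mul_assoc, ← hV, hW]
    linear_combination k1 - k2 - k3 + k4
  exact mul_right_cancel₀ hW0 hfin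

theorem OG.exists_m {G : ℝ → ℝ} (h : OG G) (hP : ∀ p ∈ Per G, p = 0) :
    ∃ m : ℝ → ℝ, (∀ c, c ≠ 0 → m c ≠ 0) ∧ (∀ x y, x ≠ 0 → y ≠ 0 → m (x * y) = m x * m y) ∧
      ∀ c, c ≠ 0 → ∀ t, nab c G t = m c * nab c⁻¹ G (t / c) := by
  have H : ∀ c : ℝ, ∃ μ : ℝ, c ≠ 0 → μ ≠ 0 ∧ ∀ t, nab c G t = μ * nab c⁻¹ G (t / c) := by
    intro c
    by_cases hc : c = 0
    · exact ⟨0, fun h0 => absurd hc h0⟩
    · obtain ⟨μ, h1, h2⟩ := h.kosW hc (fun hp => hc (hP _ hp))
        (fun hp => inv_ne_zero hc (hP _ hp))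
      exact ⟨μ, fun _ => ⟨h1, h2⟩⟩
  choose m hm using H
  have hm0 : ∀ c, c ≠ 0 → m c ≠ 0 := fun c hc => (hm c hc).1
  have hm1 : ∀ c, c ≠ 0 → ∀ t, nab c G t = m c * nab c⁻¹ G (t / c) := fun c hc => (hm c hc).2
  refine ⟨m, hm0, ?_, hm1⟩
  intro x y hx hy
  have hxy : x * y ≠ 0 := mul_ne_zero hx hy
  obtain ⟨d, d1, d2, d3⟩ := cover3 _ _ _ (CLA0_ne_top h hP one_ne_zero hx)
    (CLA0_ne_top h hP hx hxy) (CLA0_ne_top h hP one_ne_zero hxy)
  have hd0 : d ≠ 0 := by
    rintro rfl
    exact d1 (zero_mem _)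
  have t1 := CLA0_tri hm0 hm1 one_ne_zero hx d1
  have t2 := CLA0_tri hm0 hm1 hx hxy d2
  have t3 := CLA0_tri hm0 hm1 one_ne_zero hxy d3
  have e : x * y / x = y := by field_simp
  rw [e] at t2
  simp only [div_one] at t1 t3
  have hne := hm0 _ (div_ne_zero hd0 hxy)
  apply mul_right_cancel₀ hne
  rw [← t3, t1, t2]
  ring

theorem OG.mt {G : ℝ → ℝ} (h : OG G) (hP : ∀ p ∈ Per G, p = 0) (hk : G 2 ≠ 1) : MT G := by
  obtain ⟨m, hm0, hmul, hm⟩ := h.exists_m hP
  have m1 : m 1 = 1 := by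
    have h1 := hmul 1 1 one_ne_zero one_ne_zero
    rw [mul_one] at h1
    have h2 := hm0 1 one_ne_zero
    apply mul_right_cancel₀ h2
    rw [← h1, one_mul]
  have G1 : G 1 = 1 := by
    have := h.sym 0
    rw [sub_zero, h.one] at this
    exact this
  -- exchange relation for H
  have hx : ∀ a b : ℝ, a ≠ 0 → b ≠ 0 → ∀ t,
      m a * (G (t / a) - G ((t - b) / a)) = m b * (G (t / b) - G ((t - a) / b)) := by
    intro a b ha hb t
    have h1 := CLA0_ex hm ha hb t
    have h2 := hmul a (b / a) ha (div_ne_zero hb ha)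
    have e : a * (b / a) = b := by field_simp
    rw [e] at h2
    rw [h1, h2]; ring
  have hdb : ∀ t, G t + G (t - 1) = (1 + G 2) * G (t / 2) := by
    intro t
    have := h.dbl (t / 2)
    rwa [show 2 * (t / 2) = t by ring] at this
  have m2 : m 2 = 1 + G 2 := by
    have hne : ∃ t, G (t / 2) - G ((t - 1) / 2) ≠ 0 := by
      by_contra hc
      push Not at hc
      have : (1 / 2 : ℝ) ∈ Per G := by
        rw [mem_Per]
        intro x
        have h1 := hc (2 * x + 1)
        rw [show (2 * x + 1) / 2 = x + 1 / 2 by ring, show (2 * x + 1 - 1) / 2 = x by ring] at h1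
        linarith
      have := hP _ this
      norm_num at this
    obtain ⟨t, ht⟩ := hne
    have h1 := hx 1 2 one_ne_zero two_ne_zero t
    rw [m1, one_mul, div_one, div_one] at h1
    have h2 := hdb t
    have h3 := hdb (t - 1)
    rw [show t - 1 - 1 = t - 2 by ring] at h3
    apply mul_right_cancel₀ ht
    linear_combination h2 - h3 - h1
  have key : ∀ a : ℝ, a ≠ 0 → 1 - a ≠ 0 → G a = m a + m (1 - a) := by
    intro a ha hb
    set b := 1 - a with hbdef
    have hE : ∀ t, G t - m a * G (t / a) - m b * G ((t - a) / b) =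
        G 0 - m a * G (0 / a) - m b * G ((0 - a) / b) := by
      intro t
      by_cases ht : t = 0
      · rw [ht]
      have k1 := hx 1 t one_ne_zero ht t
      have k2 := hx a t ha ht t
      have k3 := hx b t hb ht (t - a)
      rw [m1, one_mul, div_one, div_one, sub_self] at k1
      rw [sub_self] at k2
      rw [show t - a - t = 0 - a by ring, show t - a - b = t - 1 by rw [hbdef]; ring] at k3
      linear_combination k1 - k2 - k3
    set C := G 0 - m a * G (0 / a) - m b * G ((0 - a) / b) with hC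
    have hC0 : C = 0 := by
      have e1 := hE 0
      have e2 := hE (0 - 1)
      have e3 := hE (0 / 2)
      have d1 := hdb 0
      have d2 := hdb (0 / a)
      have d3 := hdb ((0 - 2 * a) / b)
      have k := hx a b ha hb (0 - a)
      rw [show 0 / a - 1 = (0 - a) / a by field_simp, show 0 / a / 2 = 0 / 2 / a by ring] at d2
      rw [show (0 - 2 * a) / b - 1 = (0 - 1 - a) / b by field_simp; rw [hbdef]; ring,
        show (0 - 2 * a) / b / 2 = (0 / 2 - a) / b by field_simp] at d3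
      rw [show 0 - a - b = 0 - 1 by rw [hbdef]; ring, show 0 - a - a = 0 - 2 * a by ring] at k
      have : (G 2 - 1) * C = 0 := by
        linear_combination (-(1 + G 2)) * e3 + e1 + e2 - d1 + m a * d2 + m b * d3 - k
      rcases mul_eq_zero.1 this with h1 | h1
      · exact absurd (by linarith) hk
      · exact h1
    have e := hE a
    rw [hC0, div_self ha, sub_self, zero_div, G1, h.one] at e
    linarith
  refine ⟨fun x => if x = 0 then 0 else m x, ?_, ?_⟩
  · intro x y
    by_cases hx0 : x = 0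
    · simp [hx0]
    by_cases hy0 : y = 0
    · simp [hy0]
    simp only [hx0, hy0, mul_eq_zero, or_self, if_false]
    exact hmul x y hx0 hy0
  · intro x
    by_cases hx0 : x = 0
    · simp [hx0, h.one, m1]
    by_cases hx1 : 1 - x = 0
    · have : x = 1 := by linarith
      simp [this, G1, m1]
    simp only [hx0, hx1, if_false]
    exact key x hx0 hx1

theorem OG.no_per {G T : ℝ → ℝ} {N : ℕ} (h : OG G) (hT : Tp (N + 1) G T) (hT0 : T ≠ 0)
    (hk : G 2 ≠ 1) : ∀ p ∈ Per G, p = 0 := by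
  intro p hp
  by_contra hp0
  have hG : GP (N + 1) G := hT.gp
  have hu : GP (N + 1) (nab 1 G) := hG.nab 1
  have G1 : G 1 = 1 := by
    have := h.sym 0
    rw [sub_zero, h.one] at this
    exact this
  have h1Z : (1 : ℝ) ∉ Per (nab 1 G) := by
    intro h1
    have h2 := mem_Per.1 h1 0
    simp only [nab] at h2
    have h3 := h.sym 2
    rw [show (1 : ℝ) - 2 = 0 - 1 by ring] at h3
    rw [show (0 : ℝ) + 1 - 1 = 0 by ring, zero_add, G1, h.one, h3] at h2
    exact hk (by linarith)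
  -- the left alternative
  let L : Set ℚ := {q | (q : ℝ) - p⁻¹ ∈ Per (nab 1 G)}
  have hL : L.Subsingleton := by
    intro q1 a1 q2 a2
    by_contra hne
    have h1 : ((q1 - q2 : ℚ) : ℝ) ∈ Per (nab 1 G) := by
      have := (Per (nab 1 G)).sub_mem a1 a2
      rwa [show (q1 : ℝ) - p⁻¹ - ((q2 : ℝ) - p⁻¹) = ((q1 - q2 : ℚ) : ℝ) by push_cast; ring] at this
    have h2 := hu.per_rat h1 (q1 - q2)⁻¹
    have hq : q1 - q2 ≠ 0 := sub_ne_zero.2 hne
    rw [← Rat.cast_mul, inv_mul_cancel₀ hq, Rat.cast_one] at h2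
    exact h1Z h2
  let B : Set ℚ := {q | (q : ℝ) * p = 1}
  have hB : B.Subsingleton := by
    intro q1 a1 q2 a2
    have h1 : (q1 : ℝ) * p = (q2 : ℝ) * p := by
      rw [show (q1 : ℝ) * p = 1 from a1, show (q2 : ℝ) * p = 1 from a2]
    exact_mod_cast mul_right_cancel₀ hp0 h1
  have hgood : ∀ q : ℚ, q ∉ L ∪ B → ∀ x, G ((1 - q * p) * x) = G x := by
    intro q hq x
    by_cases hq0 : q = 0
    · simp [hq0]
    have hq0' : (q : ℝ) ≠ 0 := by exact_mod_cast hq0
    have hqB : (q : ℝ) * p ≠ 1 := fun e => hq (Or.inr e)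
    rcases h.dich (hG.per_rat hp q) (mul_ne_zero hq0' hp0) hqB with hl | hr
    · exfalso
      apply hq
      left
      have h2 := hu.per_rat hl q
      rwa [show (q : ℝ) * (1 - ((q : ℝ) * p)⁻¹) = q - p⁻¹ by field_simp] at h2
    · exact hr.2 x
  have hinf : (L ∪ B)ᶜ.Infinite := (hL.finite.union hB.finite).infinite_compl
  apply hT0
  funext y
  obtain ⟨P, hP1, hP2, hP3⟩ := hT y (-y / p)
  have hconst : P = C (G (-y / p)) := by
    apply Polynomial.eq_of_infinite_eval_eq
    refine (hinf.image (f := fun q : ℚ => (q : ℝ)) Rat.cast_injective.injOn).mono ?_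
    rintro _ ⟨q, hq, rfl⟩
    simp only [Set.mem_ofPred_eq, eval_C]
    rw [← hP3 q, ← hgood q hq (-y / p)]
    congr 1
    field_simp
    ring
  rw [← hP2, hconst, coeff_C]
  simp

end Pool.Agent.P.MP_6d4b14_an.CL
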