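import Pool.Agent.P.MP_6d4b14_an.CLDefs

/-! Relations for solutions without even part. -/

set_option linter.unusedSectionVars false
set_option linter.unusedVariables false

namespace Pool.Agent.P.MP_6d4b14_an.CL

open scoped Classical
open TR Function Polynomial

variable {G : ℝ → ℝ}

theorem nab_eq_zero {c : ℝ} : nab c G = 0 ↔ c ∈ Per G := by
  rw [mem_Per]
  constructor
  · intro h x
    have h1 := congrFun h (x + c)
    simp only [nab, add_sub_cancel_right, Pi.zero_apply] at h1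
    linarith
  · intro h
    funext x
    have h1 := h (x - c)
    simp only [sub_add_cancel] at h1
    simp only [nab, Pi.zero_apply]
    linarith

theorem CLB1a_psi (w t s : ℝ) : Psi G 0 w t s = G (t / w) * G (w * s) := by
  simp [Psi]

theorem OG.kos (h : OG G) {c : ℝ} (hc : c ≠ 0) (t s : ℝ) :
    nab c G t * nab c⁻¹ G s = nab c⁻¹ G (t / c) * nab c G (c * s) := by
  obtain ⟨o, ho⟩ := h.re
  have h1 := ho.kos hc t s
  simp only [CLB1a_psi, div_one, one_mul] at h1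
  have e1 : (t - 1) / c = t / c - c⁻¹ := by field_simp
  have e2 : c * (s - 1) = c * s - c := by ring
  rw [e1, e2] at h1
  simp only [nab]
  linear_combination h1

theorem OG.kosW (h : OG G) {c : ℝ} (hc : c ≠ 0) (h1 : c ∉ Per G) (h2 : c⁻¹ ∉ Per G) :
    ∃ m : ℝ, m ≠ 0 ∧ ∀ t, nab c G t = m * nab c⁻¹ G (t / c) := by
  have h3 : nab c⁻¹ G ≠ 0 := fun h0 => h2 (nab_eq_zero.1 h0)
  obtain ⟨s, hs⟩ := Function.ne_iff.1 h3
  simp only [Pi.zero_apply] at hs
  have key : ∀ t, nab c G t = nab c G (c * s) / nab c⁻¹ G s * nab c⁻¹ G (t / c) := by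
    intro t
    have h4 := h.kos hc t s
    rw [div_mul_eq_mul_div, eq_div_iff hs]
    linear_combination h4
  refine ⟨nab c G (c * s) / nab c⁻¹ G s, fun h0 => h1 (nab_eq_zero.1 ?_), key⟩
  funext t
  rw [key t, h0]
  simp

theorem CLB1a_one (h : OG G) : G 1 = 1 := by
  have h1 := h.sym 0
  rw [sub_zero, h.one] at h1
  exact h1

theorem OG.dbl (h : OG G) (s : ℝ) : G (2 * s) + G (2 * s - 1) = (1 + G 2) * G s := by
  obtain ⟨o, ho⟩ := h.re
  have h1 := ho.dbl one_ne_zero 0 s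
  simp only [CLB1a_psi, div_one, one_mul, mul_one, zero_div, h.one] at h1
  have e1 : (2 : ℝ) * (s - 2⁻¹) = 2 * s - 1 := by ring
  have e2 : G (0 - 1) = G 2 := by
    rw [← h.sym 2]
    norm_num
  rw [e1, e2] at h1
  linear_combination h1

theorem OG.k_ne (h : OG G) : 1 + G 2 ≠ 0 := by
  intro h0
  have h1 := h.dbl (1 / 2)
  have e1 : (2 : ℝ) * (1 / 2) = 1 := by norm_num
  rw [e1, sub_self, h0, CLB1a_one h, h.one] at h1
  norm_num at h1

theorem OG.half (h : OG G) {p : ℝ} (hp : p ∈ Per G) : p / 2 ∈ Per G := by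
  rw [mem_Per] at hp ⊢
  intro x
  have h1 := h.dbl (x + p / 2)
  have h2 := h.dbl x
  have e1 : 2 * (x + p / 2) = 2 * x + p := by ring
  have e2 : 2 * x + p - 1 = 2 * x - 1 + p := by ring
  rw [e1, e2, hp, hp] at h1
  exact mul_left_cancel₀ h.k_ne (h1.symm.trans h2)

theorem OG.anti (h : OG G) (c x : ℝ) : nab c G (1 + c - x) = -nab c G x := by
  have e1 : 1 + c - x = 1 - (x - c) := by ring
  have e2 : 1 - (x - c) - c = 1 - x := by ring
  simp only [nab]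
  rw [e1, e2, h.sym, h.sym]
  ring

theorem CLB1a_key (o : ℝ → ℝ) (F1 Fa Fb : ℝ → ℝ → ℝ) (a p β : ℝ)
    (h1 : ∀ t s, F1 t s =
      o (t * s) - o (t * (s - 1)) - o ((t - 1) * s) + o ((t - 1) * (s - 1)))
    (ha : ∀ t s, Fa t s =
      o (t * s) - o (t * (s - p)) - o ((t - a) * s) + o ((t - a) * (s - p)))
    (hb : ∀ t s, Fb t s =
      o (t * s) - o (t * (s - β)) - o ((t - (1 - a)) * s) + o ((t - (1 - a)) * (s - β)))
    (t s : ℝ) :
    F1 t s - F1 t (s - p) - F1 t (s - β) + F1 t (s - β - p) =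
      (Fa t s - Fa t (s - 1) - Fa t (s - β) + Fa t (s - 1 - β)) +
        (Fb (t - a) s - Fb (t - a) (s - 1) - Fb (t - a) (s - p) + Fb (t - a) (s - 1 - p)) := by
  simp only [h1, ha, hb]
  ring_nf

theorem OG.dich (h : OG G) {p : ℝ} (hp : p ∈ Per G) (h0 : p ≠ 0) (h1 : p ≠ 1) :
    1 - p⁻¹ ∈ Per (nab 1 G) ∨ Dinv G (1 - p) := by
  obtain ⟨o, ho⟩ := h.re
  have ha : p⁻¹ ≠ 0 := inv_ne_zero h0
  have hp1 : p - 1 ≠ 0 := sub_ne_zero.2 h1
  have hb : 1 - p⁻¹ ≠ 0 := by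
    intro h2
    apply h1
    have h3 : p⁻¹ = 1 := by linarith
    exact inv_eq_one.1 h3
  have hper : ∀ x, G (x - p) = G x := by
    intro x
    have h2 := mem_Per.1 hp (x - p)
    rw [sub_add_cancel] at h2
    exact h2.symm
  have key := CLB1a_key o (Psi G 0 1) (Psi G 0 p⁻¹) (Psi G 0 (1 - p⁻¹)) p⁻¹ p (1 - p⁻¹)⁻¹
    (fun t s => by rw [ho.w one_ne_zero, inv_one]) (fun t s => by rw [ho.w ha, inv_inv])
    (fun t s => by rw [ho.w hb])
  simp only [CLB1a_psi, div_one, one_mul, hper] at key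
  set b := 1 - p⁻¹ with hbdef
  set A : ℝ → ℝ := fun s => G (p⁻¹ * s) - G (p⁻¹ * (s - 1)) - G (p⁻¹ * (s - b⁻¹)) +
    G (p⁻¹ * (s - 1 - b⁻¹)) with hA
  set C : ℝ → ℝ := fun s => G (b * s) - G (b * (s - 1)) - G (b * (s - p)) +
    G (b * (s - 1 - p)) with hC
  have k2 : ∀ t s, G (t / p⁻¹) * A s + G ((t - p⁻¹) / b) * C s = 0 := by
    intro t s
    have h2 := key t s
    simp only [hA, hC]
    linear_combination -h2
  have k3 : ∀ s, A s = -C s := by
    intro s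
    have h2 := k2 p⁻¹ s
    rw [div_self ha, sub_self, zero_div, CLB1a_one h, h.one] at h2
    linarith
  by_cases hC0 : ∀ s, C s = 0
  · left
    rw [← nab_eq_zero]
    funext y
    have h2 := hC0 ((y - 1) / b)
    simp only [hC] at h2
    have e1 : b * ((y - 1) / b) = y - 1 := by field_simp
    have e2 : b * ((y - 1) / b - 1) = y - b - 1 := by field_simp; ring
    have hbp : b * p = p - 1 := by rw [hbdef]; field_simp
    have e3 : b * ((y - 1) / b - p) = y - p := by rw [mul_sub, e1, hbp]; ring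
    have e4 : b * ((y - 1) / b - 1 - p) = y - b - p := by rw [mul_sub, e2, hbp]; ring
    rw [e1, e2, e3, e4, hper, hper] at h2
    simp only [nab, Pi.zero_apply]
    linarith
  · right
    push Not at hC0
    obtain ⟨s, hs⟩ := hC0
    refine ⟨fun h2 => h1 (by linarith), fun x => ?_⟩
    have h2 := k2 ((1 + (p - 1) * x) / p) s
    have e1 : (1 + (p - 1) * x) / p / p⁻¹ = 1 - (1 - p) * x := by field_simp; ring
    have e2 : ((1 + (p - 1) * x) / p - p⁻¹) / b = x := by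
      rw [div_eq_iff hb, hbdef]
      field_simp
      ring
    rw [e1, e2, h.sym, k3] at h2
    apply mul_right_cancel₀ hs
    linarith

theorem Dinv.mul {γ γ' : ℝ} (h : Dinv G γ) (h' : Dinv G γ') : Dinv G (γ * γ') :=
  ⟨mul_ne_zero h.1 h'.1, fun x => by rw [mul_assoc, h.2, h'.2]⟩

theorem Dinv.inv {γ : ℝ} (h : Dinv G γ) : Dinv G γ⁻¹ :=
  ⟨inv_ne_zero h.1, fun x => by rw [← h.2 (γ⁻¹ * x), mul_inv_cancel_left₀ h.1]⟩

theorem Dinv.per {γ p : ℝ} (h : Dinv G γ) (hp : p ∈ Per G) : γ * p ∈ Per G := by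
  rw [mem_Per] at hp ⊢
  intro x
  have e1 : x + γ * p = γ * (γ⁻¹ * x + p) := by
    rw [mul_add, mul_inv_cancel_left₀ h.1]
  rw [e1, h.2, hp, h.inv.2]

theorem OG.inv_sub (hG : OG G) {γ : ℝ} (h : Dinv G γ) : γ - 1 ∈ Per G := by
  rw [mem_Per]
  intro y
  have hγ := h.1
  have e1 : y + (γ - 1) = γ * (1 - γ⁻¹ * (1 - y)) := by field_simp; ring
  rw [e1, h.2, hG.sym, h.inv.2, hG.sym]

theorem OG.inv_u (hG : OG G) {γ : ℝ} (h : Dinv G γ) : Dinv (nab 1 G) γ := by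
  refine ⟨h.1, fun x => ?_⟩
  have e1 : γ * x - 1 = γ * (x - 1) + (γ - 1) := by ring
  simp only [nab]
  rw [e1, mem_Per.1 (hG.inv_sub h), h.2, h.2]

theorem OG.inv_w (hG : OG G) {γ : ℝ} (h : Dinv G γ) : Dinv (nab (1 / 2) G) γ := by
  refine ⟨h.1, fun x => ?_⟩
  have e1 : γ * x - 1 / 2 = γ * (x - 1 / 2) + (γ - 1) / 2 := by ring
  simp only [nab]
  rw [e1, mem_Per.1 (hG.half (hG.inv_sub h)), h.2, h.2]

theorem per_of_eig {f g : ℝ → ℝ} {m a b : ℝ} (hm : m ≠ 0) (h : ∀ t, f t = m * g (a * t + b))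
    {p : ℝ} : p ∈ Per f ↔ a = 0 ∨ a * p ∈ Per g := by
  simp only [mem_Per]
  constructor
  · intro hp
    by_cases ha : a = 0
    · exact Or.inl ha
    · refine Or.inr fun y => ?_
      have h1 := hp ((y - b) / a)
      have e1 : a * ((y - b) / a + p) + b = y + a * p := by field_simp; ring
      have e2 : a * ((y - b) / a) + b = y := by field_simp; ring
      rw [h, h, e1, e2] at h1
      exact mul_left_cancel₀ hm h1
  · rintro (ha | ha) x
    · rw [h, h, ha]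
      simp
    · have e1 : a * (x + p) + b = a * x + b + a * p := by ring
      rw [h, h, e1, ha]

theorem CLB1a_start (h : OG G) (hS : SP G) (h1 : (1 : ℝ) ∉ Per G) :
    ∃ p : ℝ, 0 < p ∧ p ∈ Per G ∧ 6 * p⁻¹ ∉ Per (nab 1 G) := by
  have main : ∃ p : ℝ, p ≠ 0 ∧ p ∈ Per G ∧ 6 * p⁻¹ ∉ Per (nab 1 G) := by
    by_contra hne
    push Not at hne
    apply h1
    have hall : ∀ τ : ℝ, 6 * τ ∈ Per (nab 1 G) := by
      intro τ
      obtain ⟨η, hη⟩ := hS {1} {0, τ}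
      obtain ⟨a1, a2⟩ := hη 0 (by simp)
      obtain ⟨b1, b2⟩ := hη τ (by simp)
      have a3 := hne _ (one_div_ne_zero a1) (a2 1 (by simp))
      have b3 := hne _ (one_div_ne_zero b1) (b2 1 (by simp))
      rw [one_div, inv_inv] at a3 b3
      have h2 := (Per (nab 1 G)).sub_mem b3 a3
      have e1 : 6 * (η + τ) - 6 * (η + 0) = 6 * τ := by ring
      rwa [e1] at h2
    rw [← nab_eq_zero]
    funext x
    have h2 := mem_Per.1 (hall ((x - 1) / 6)) 1
    have e1 : 1 + 6 * ((x - 1) / 6) = x := by ring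
    rw [e1] at h2
    rw [h2]
    simp only [nab, sub_self, CLB1a_one h, h.one, Pi.zero_apply]
  obtain ⟨p, hp0, hp, hz⟩ := main
  rcases lt_or_gt_of_ne hp0 with hneg | hpos
  · refine ⟨-p, by linarith, (Per G).neg_mem hp, fun h2 => hz ?_⟩
    have h3 := (Per (nab 1 G)).neg_mem h2
    have e1 : -(6 * (-p)⁻¹) = 6 * p⁻¹ := by rw [inv_neg]; ring
    rwa [e1] at h3
  · exact ⟨p, hpos, hp, hz⟩

theorem OG.select (h : OG G) (hS : SP G) (h1 : (1 : ℝ) ∉ Per G) :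
    ∃ p : ℝ, 1 < p ∧ p ∈ Per G ∧ Dinv G (1 - p) ∧ Dinv G (1 - 2 * p) ∧
      p⁻¹ ∉ Per (nab 1 G) := by
  obtain ⟨p0, hpos, hp, hz⟩ := CLB1a_start h hS h1
  have hp0 : p0 ≠ 0 := hpos.ne'
  have mulZ : ∀ (k : ℕ) (x : ℝ), x ∈ Per (nab 1 G) → (k : ℝ) * x ∈ Per (nab 1 G) := by
    intro k x hx
    have h2 := (Per (nab 1 G)).nsmul_mem hx k
    rwa [nsmul_eq_mul] at h2
  have two : ∀ m : ℕ, 0 < m → 1 - ((m : ℝ) * p0)⁻¹ ∈ Per (nab 1 G) →
      1 - (2 * ((m : ℝ) * p0))⁻¹ ∉ Per (nab 1 G) := by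
    intro m hm a1 a2
    have hm' : (m : ℝ) ≠ 0 := Nat.cast_ne_zero.2 hm.ne'
    have h2 := mulZ (12 * m) _ ((Per (nab 1 G)).sub_mem a2 a1)
    have e1 : ((12 * m : ℕ) : ℝ) * (1 - (2 * ((m : ℝ) * p0))⁻¹ - (1 - ((m : ℝ) * p0)⁻¹)) =
        6 * p0⁻¹ := by
      push_cast
      field_simp
      ring
    rw [e1] at h2
    exact hz h2
  have four : ∀ m : ℕ, 0 < m → 1 - ((m : ℝ) * p0)⁻¹ ∈ Per (nab 1 G) →
      1 - (2 * (2 * ((m : ℝ) * p0)))⁻¹ ∉ Per (nab 1 G) := by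
    intro m hm a1 a2
    have hm' : (m : ℝ) ≠ 0 := Nat.cast_ne_zero.2 hm.ne'
    have h2 := mulZ (8 * m) _ ((Per (nab 1 G)).sub_mem a2 a1)
    have e1 : ((8 * m : ℕ) : ℝ) * (1 - (2 * (2 * ((m : ℝ) * p0)))⁻¹ - (1 - ((m : ℝ) * p0)⁻¹)) =
        6 * p0⁻¹ := by
      push_cast
      field_simp
      ring
    rw [e1] at h2
    exact hz h2
  have fin : ∀ m : ℕ, 1 < (m : ℝ) * p0 → 1 - ((m : ℝ) * p0)⁻¹ ∉ Per (nab 1 G) →
      1 - (2 * ((m : ℝ) * p0))⁻¹ ∉ Per (nab 1 G) →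
      ∃ p : ℝ, 1 < p ∧ p ∈ Per G ∧ Dinv G (1 - p) ∧ Dinv G (1 - 2 * p) ∧
        p⁻¹ ∉ Per (nab 1 G) := by
    intro m hm a1 a2
    have hm' : (m : ℝ) ≠ 0 := by
      intro h0
      rw [h0, zero_mul] at hm
      linarith
    have hP : (m : ℝ) * p0 ∈ Per G := by
      have h2 := (Per G).nsmul_mem hp m
      rwa [nsmul_eq_mul] at h2
    have hP2 : 2 * ((m : ℝ) * p0) ∈ Per G := by
      rw [two_mul]
      exact (Per G).add_mem hP hP
    refine ⟨(m : ℝ) * p0, hm, hP, ?_, ?_, fun a3 => hz ?_⟩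
    · exact (h.dich hP (by linarith) (by linarith)).resolve_left a1
    · exact (h.dich hP2 (by linarith) (by linarith)).resolve_left a2
    · have h2 := mulZ (6 * m) _ a3
      have e1 : ((6 * m : ℕ) : ℝ) * ((m : ℝ) * p0)⁻¹ = 6 * p0⁻¹ := by
        push_cast
        field_simp
      rwa [e1] at h2
  obtain ⟨n, hn⟩ := exists_nat_gt p0⁻¹
  have hn1 : 1 < (n : ℝ) * p0 := by
    have h2 := mul_lt_mul_of_pos_right hn hpos
    rwa [inv_mul_cancel₀ hp0] at h2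
  have hn0 : 0 < n := by
    rcases Nat.eq_zero_or_pos n with h0 | h0
    · rw [h0] at hn1
      simp at hn1
      linarith
    · exact h0
  have c2 : ((2 * n : ℕ) : ℝ) * p0 = 2 * ((n : ℝ) * p0) := by push_cast; ring
  have c4 : ((4 * n : ℕ) : ℝ) * p0 = 2 * (2 * ((n : ℝ) * p0)) := by push_cast; ring
  by_cases a1 : 1 - ((n : ℝ) * p0)⁻¹ ∈ Per (nab 1 G)
  · refine fin (2 * n) (by rw [c2]; linarith) ?_ ?_
    · rw [c2]
      exact two n hn0 a1
    · rw [c2]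
      exact four n hn0 a1
  · by_cases a2 : 1 - (2 * ((n : ℝ) * p0))⁻¹ ∈ Per (nab 1 G)
    · have a3 := two (2 * n) (by omega) (by rw [c2]; exact a2)
      have a4 := four (2 * n) (by omega) (by rw [c2]; exact a2)
      rw [c2] at a3 a4
      refine fin (4 * n) (by rw [c4]; linarith) ?_ ?_
      · rw [c4]
        exact a3
      · rw [c4]
        exact a4
    · exact fin n hn1 a1 a2

end Pool.Agent.P.MP_6d4b14_an.CL
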