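import Pool.Agent.P.MP_6d4b14_an.CLB1a

/-! The number one is a period, first case. -/

set_option linter.unusedSectionVars false
set_option linter.unusedVariables false

namespace Pool.Agent.P.MP_6d4b14_an.CL

open scoped Classical
open TR Function Polynomial

theorem CLB1b_per_nab {G : ℝ → ℝ} {c z : ℝ} (hz : z ∈ Per G) : z ∈ Per (nab c G) := by
  rw [mem_Per] at hz ⊢
  intro x
  have e : x + z - c = x - c + z := by ring
  simp only [nab]
  rw [e, hz, hz]

theorem CLB1b_key {G : ℝ → ℝ} (h : OG G) (h1 : (1 : ℝ) ∉ Per G) {β c c' : ℝ} (hβ : Dinv G β)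
    (hc : c ≠ 0) (hcc : c * c' = 2 * β) (hcP : c - 1 ∈ Per G) (hcP' : c' - 1 ∈ Per G) :
    ∃ m : ℝ, m ≠ 0 ∧ ∀ t, nab 1 G t = m * nab (1 / 2) G (t / c) := by
  have e1 : nab c G = nab 1 G := by
    funext x
    simp only [nab]
    have := (mem_Per.1 hcP) (x - c)
    have e : x - c + (c - 1) = x - 1 := by ring
    rw [e] at this
    rw [this]
  have e2 : nab c⁻¹ G = nab (1 / 2) G := by
    funext y
    rw [← (h.inv_w hβ).2 y]
    simp only [nab]
    rw [hβ.2 y, ← hβ.2 (y - c⁻¹)]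
    have h2 := (mem_Per.1 (h.half hcP')) (β * (y - c⁻¹))
    have e : β * (y - c⁻¹) + (c' - 1) / 2 = β * y - 1 / 2 := by
      have : β = c * c' / 2 := by linarith
      rw [this]; field_simp; ring
    rw [e] at h2
    rw [h2]
  have hu : nab 1 G ≠ 0 := fun H => h1 (nab_eq_zero.1 H)
  have hw : nab (1 / 2) G ≠ 0 := by
    intro H
    apply h1
    have := nab_eq_zero.1 H
    have h3 := (Per G).add_mem this this
    have e : (1 : ℝ) / 2 + 1 / 2 = 1 := by norm_num
    rwa [e] at h3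
  obtain ⟨m, hm, H⟩ := h.kosW hc (fun H => hu (e1 ▸ nab_eq_zero.2 H))
    (fun H => hw (e2 ▸ nab_eq_zero.2 H))
  refine ⟨m, hm, fun t => ?_⟩
  rw [← e1, ← e2]
  exact H t

theorem OG.case1 {G : ℝ → ℝ} (h : OG G) {p d : ℝ} (hp1 : 1 < p) (hp : p ∈ Per G)
    (hβ : Dinv G (1 - p)) (hγ : Dinv G (1 - 2 * p)) (hZ : p⁻¹ ∉ Per (nab 1 G)) (hd0 : 0 < d)
    (hd : d ^ 2 = 2 * p - 1) (hdP : d ∈ Per G) : (1 : ℝ) ∈ Per G := by
  by_contra h1
  have hd1 : 1 < d := by nlinarith
  have hc : (1 + d) ≠ 0 := by linarith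
  have hc' : (1 - d) ≠ 0 := by linarith
  have hβ0 : (1 - p) ≠ 0 := hβ.1
  have hp0 : p ≠ 0 := by linarith
  have hdne : d ≠ 0 := hd0.ne'
  have hpd : p = (d ^ 2 + 1) / 2 := by linarith
  have hA : 1 + d - 1 ∈ Per G := by
    have e : 1 + d - 1 = d := by ring
    rwa [e]
  have hB : 1 - d - 1 ∈ Per G := by
    have e : 1 - d - 1 = -d := by ring
    rw [e]; exact (Per G).neg_mem hdP
  obtain ⟨m1, hm1, H1⟩ := CLB1b_key h h1 hβ hc (c' := 1 - d) (by nlinarith) hA hB
  obtain ⟨m2, hm2, H2⟩ := CLB1b_key h h1 hβ hc' (c' := 1 + d) (by nlinarith) hB hA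
  set u := nab 1 G with hu
  set w := nab (1 / 2) G with hw
  have hau : ∀ t, u (2 - t) = -u t := fun t => by
    have := h.anti 1 t
    have e : (1 : ℝ) + 1 - t = 2 - t := by ring
    rwa [e] at this
  have haw : ∀ t, w (3 / 2 - t) = -w t := fun t => by
    have := h.anti (1 / 2) t
    have e : (1 : ℝ) + 1 / 2 - t = 3 / 2 - t := by ring
    rwa [e] at this
  have hq1 : 2 / (1 + d) - 3 / 2 ∈ Per w := by
    rw [mem_Per]
    intro x
    have a1 := H1 (2 - (1 + d) * (3 / 2 - x))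
    have a2 := H1 ((1 + d) * (3 / 2 - x))
    have e1 : (2 - (1 + d) * (3 / 2 - x)) / (1 + d) = x + (2 / (1 + d) - 3 / 2) := by
      field_simp; ring
    have e2 : (1 + d) * (3 / 2 - x) / (1 + d) = 3 / 2 - x := by field_simp
    rw [e1, hau] at a1
    rw [e2, haw] at a2
    apply mul_left_cancel₀ hm1
    linarith
  have hq2 : 2 / (1 + d) - 1 ∈ Per G := by
    have a1 := h.inv_sub hβ.inv
    have a2 := hβ.inv.per hdP
    have a3 := (Per G).sub_mem a1 a2
    have e : (1 - p)⁻¹ - 1 - (1 - p)⁻¹ * d = 2 / (1 + d) - 1 := by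
      have : (1 - p) = (1 + d) * (1 - d) / 2 := by rw [hpd]; ring
      rw [this]; field_simp; ring
    rwa [e] at a3
  have hhalf : (1 / 2 : ℝ) ∈ Per w := by
    have a := (Per w).sub_mem (CLB1b_per_nab hq2) hq1
    have e : 2 / (1 + d) - 1 - (2 / (1 + d) - 3 / 2) = (1 / 2 : ℝ) := by ring
    rwa [e] at a
  have hu2 : ∀ x, u x = 2 * w x := fun x => by
    have a := (mem_Per.1 hhalf) (x - 1 / 2)
    have e : x - 1 / 2 + 1 / 2 = x := by ring
    rw [e] at a
    have e2 : x - 1 / 2 - 1 / 2 = x - 1 := by ring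
    have b : u x = w x + w (x - 1 / 2) := by
      simp only [hu, hw, nab]
      rw [e2]; ring
    linarith
  have hone : (1 : ℝ) ∈ Per w := by
    have a := (Per w).add_mem hhalf hhalf
    have e : (1 : ℝ) / 2 + 1 / 2 = 1 := by norm_num
    rwa [e] at a
  have hodd : ∀ x, w (-x) = -w x := fun x => by
    have a := (mem_Per.1 ((Per w).add_mem hone hhalf)) (-x)
    have e : -x + (1 + 1 / 2) = 3 / 2 - x := by ring
    rw [e, haw] at a
    exact a.symm
  have hZ1 : ∀ z, z ∈ Per u ↔ z ∈ Per w := fun z => by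
    simp only [mem_Per, hu2]
    constructor
    · intro a x; linarith [a x]
    · intro a x; rw [a x]
  have hdZ : ∀ z ∈ Per w, d * z ∈ Per w := fun z hz => by
    have a : (1 + d) * z ∈ Per u := by
      rw [mem_Per]
      intro x
      have e : (x + (1 + d) * z) / (1 + d) = x / (1 + d) + z := by field_simp
      rw [H1, H1, e, (mem_Per.1 hz)]
    have b := (Per w).sub_mem ((hZ1 _).1 a) hz
    have e : (1 + d) * z - z = d * z := by ring
    rwa [e] at b
  have hγe : 1 - 2 * p = -d ^ 2 := by linarith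
  have hpdP : p / d ∈ Per G := by
    have a := (Per G).sub_mem hdP (hγ.inv.per hdP)
    have b := h.half a
    have e : (d - (1 - 2 * p)⁻¹ * d) / 2 = p / d := by
      rw [hγe, hpd]; field_simp; ring
    rwa [e] at b
  have hne1 : p / d ≠ 1 := by
    intro a
    rw [div_eq_one_iff_eq hdne] at a
    nlinarith
  rcases h.dich hpdP (div_ne_zero hp0 hdne) hne1 with a | hδ
  · apply hZ
    rw [hZ1]
    have b := hdZ _ ((Per w).sub_mem hone ((hZ1 _).1 a))
    have c := (Per w).sub_mem ((Per w).add_mem hone hone) b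
    have e : 1 + 1 - d * (1 - (1 - (p / d)⁻¹)) = p⁻¹ := by
      field_simp; linarith
    rwa [e] at c
  · have hD := h.inv_w ((((hγ.mul hδ).mul hδ).mul hβ.inv).mul hβ.inv)
    rw [← hw] at hD
    have hρ : ∀ x, m1 * w ((1 - d) / (1 + d) * x) = m2 * w x := fun x => by
      have a1 := H1 ((1 - d) * x)
      have a2 := H2 ((1 - d) * x)
      have e1 : (1 - d) * x / (1 + d) = (1 - d) / (1 + d) * x := by ring
      have e2 : (1 - d) * x / (1 - d) = x := by field_simp
      rw [e1] at a1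
      rw [e2] at a2
      linarith
    have hw0 : ∀ x, w x = 0 := fun x => by
      have a1 := hρ x
      have a2 := hρ ((1 - d) / (1 + d) * x)
      have e : (1 - d) / (1 + d) * ((1 - d) / (1 + d) * x) =
          -((1 - 2 * p) * (1 - p / d) * (1 - p / d) * (1 - p)⁻¹ * (1 - p)⁻¹ * x) := by
        have b : (1 - p) = (1 + d) * (1 - d) / 2 := by rw [hpd]; ring
        have b2 : 1 - p / d = -(1 - d) ^ 2 / (2 * d) := by rw [hpd]; field_simp; ring
        rw [b2, hγe, b]; field_simp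
      rw [e, hodd, hD.2 x] at a2
      have a3 : (m1 ^ 2 + m2 ^ 2) * w x = 0 := by linear_combination -m1 * a2 - m2 * a1
      have a4 : m1 ^ 2 + m2 ^ 2 ≠ 0 := by positivity
      exact (mul_eq_zero.1 a3).resolve_left a4
    apply h1
    rw [← nab_eq_zero]
    funext x
    have := hu2 x
    rw [hw0] at this
    simpa using this

end Pool.Agent.P.MP_6d4b14_an.CL
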