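import Pool.Agent.P.MP_6d4b14_an.CLB1b

/-! The number one is a period, second case. -/

set_option linter.unusedSectionVars false
set_option linter.unusedVariables false

namespace Pool.Agent.P.MP_6d4b14_an.CL

open scoped Classical
open TR Function Polynomial

theorem CLB1c_per_nab {G : ℝ → ℝ} {p : ℝ} (c : ℝ) (hp : p ∈ Per G) : p ∈ Per (nab c G) := by
  intro x
  have e : x + p - c = x - c + p := by ring
  simp only [nab]
  rw [e, mem_Per.1 hp, mem_Per.1 hp]

theorem CLB1c_sub {f : ℝ → ℝ} {p : ℝ} (hp : p ∈ Per f) (x : ℝ) : f (x - p) = f x := by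
  have := mem_Per.1 hp (x - p)
  rw [sub_add_cancel] at this
  exact this.symm

theorem CLB1c_ne {G : ℝ → ℝ} {c : ℝ} (hc : c ∉ Per G) : ∃ x, nab c G x ≠ 0 := by
  by_contra hh
  push Not at hh
  exact hc (nab_eq_zero.1 (funext hh))

theorem OG.case2a {G : ℝ → ℝ} (h : OG G) {d : ℝ} (hd0 : d ≠ 0) (hγ : Dinv G (-d ^ 2))
    (hdP : d ∉ Per G) : ∃ φ : ℝ, φ < 0 ∧ (∀ t, nab d G t = φ * nab d G (-d ^ 2 * t)) ∧
      d ∈ Per (nab d G) ∧ (1 : ℝ) ∈ Per (nab d G) := by
  have hinv : d⁻¹ ∉ Per G := by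
    intro hh
    have h1 := hγ.per hh
    have e : -d ^ 2 * d⁻¹ = -d := by field_simp
    rw [e] at h1
    exact hdP (neg_mem_iff.1 h1)
  obtain ⟨m, hm, hk⟩ := h.kosW hd0 hdP hinv
  have hA : ∀ t, nab d G t = m * nab d G (d * t + 1) := by
    intro t
    have h1 := hk t
    have h2 := h.anti d (d - d * t)
    have e1 : 1 + d - (d - d * t) = d * t + 1 := by ring
    rw [e1] at h2
    have h3 : nab d⁻¹ G (t / d) = -nab d G (d - d * t) := by
      simp only [nab]
      have a1 := hγ.2 (t / d)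
      have a2 := hγ.2 (t / d - d⁻¹)
      have e2 : -d ^ 2 * (t / d) = d - d * t - d := by field_simp; ring
      have e3 : -d ^ 2 * (t / d - d⁻¹) = d - d * t := by field_simp; ring
      rw [e2] at a1
      rw [e3] at a2
      linarith
    rw [h1, h3, h2]
  have hB : ∀ t, nab d G t = -m ^ 2 * nab d G (-d ^ 2 * t) := by
    intro t
    have h2 := h.anti d (-d ^ 2 * t)
    have e1 : 1 + d - -d ^ 2 * t = d * (d * t + 1) + 1 := by ring
    rw [e1] at h2
    rw [hA t, hA (d * t + 1), h2]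
    ring
  have hφ : -m ^ 2 < 0 := by
    have : 0 < m ^ 2 := by positivity
    linarith
  have hV : ∀ p : ℝ, p ∈ Per (nab d G) ↔ d * p ∈ Per (nab d G) := by
    intro p
    rw [per_of_eig hm hA (p := p)]
    simp [hd0]
  have hγ0 : -d ^ 2 ≠ 0 := hγ.1
  have hq : d * ((-d ^ 2)⁻¹ * (-d ^ 2 - 1)) ∈ Per (nab d G) :=
    (hV _).1 (CLB1c_per_nab d (hγ.inv.per (h.inv_sub hγ)))
  have hC : ∀ t, nab d G (-d ^ 2 * t) = G t - G (t + d⁻¹) := by
    intro t
    simp only [nab]
    have e : -d ^ 2 * t - d = -d ^ 2 * (t + d⁻¹) := by field_simp; ring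
    rw [e, hγ.2, hγ.2]
  have hdV : d ∈ Per (nab d G) := by
    intro x
    have a1 := hB (x + d)
    have a2 := hB x
    rw [hC] at a1 a2
    have a3 := mem_Per.1 hq x
    have e : x + d * ((-d ^ 2)⁻¹ * (-d ^ 2 - 1)) = x + d + d⁻¹ := by
      field_simp; ring
    rw [e] at a3
    have a4 : nab d G (x + d + d⁻¹) = G (x + d + d⁻¹) - G (x + d⁻¹) := by
      simp only [nab]
      congr 2
      ring
    have a5 : nab d G (x + d) = G (x + d) - G x := by
      simp only [nab]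
      congr 2
      ring
    have a6 : (1 + m ^ 2) * (nab d G (x + d) - nab d G x) = 0 := by
      linear_combination a1 - a2 + m ^ 2 * a5 - m ^ 2 * a4 + m ^ 2 * a3
    have a7 : (1 + m ^ 2) ≠ 0 := by positivity
    have := (mul_eq_zero.1 a6).resolve_left a7
    linarith
  refine ⟨-m ^ 2, hφ, hB, hdV, (hV 1).2 (by rwa [mul_one])⟩

theorem OG.case2 {G : ℝ → ℝ} (h : OG G) {p d : ℝ} (hp1 : 1 < p)
    (hβ : Dinv G (1 - p)) (hγ : Dinv G (1 - 2 * p)) (hd0 : 0 < d)
    (hd : d ^ 2 = 2 * p - 1) (hdP : d ∉ Per G) : (1 : ℝ) ∈ Per G := by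
  have hγe : 1 - 2 * p = -d ^ 2 := by linarith
  have hγ' : Dinv G (-d ^ 2) := hγe ▸ hγ
  obtain ⟨φ, hφ, hv, hdV, h1V⟩ := h.case2a hd0.ne' hγ' hdP
  obtain ⟨x0, hx0⟩ := CLB1c_ne hdP
  have hd1 : 1 < d := by nlinarith
  have hk := h.k_ne
  have hβ0 : 1 - p ≠ 0 := hβ.1
  have hc0 : 1 + d ≠ 0 := by linarith
  have hc0' : 1 - d ≠ 0 := by linarith
  have hφ1 : φ - 1 ≠ 0 := by linarith
  have hpd : p = (d ^ 2 + 1) / 2 := by linarith
  -- the half step
  have hh1 : ∀ s, (1 + G 2) * nab (d / 2) G s = 2 * nab d G (2 * s) := by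
    intro s
    have a1 := h.dbl s
    have a2 := h.dbl (s - d / 2)
    have a3 := CLB1c_sub h1V (2 * s)
    have e1 : 2 * (s - d / 2) = 2 * s - d := by ring
    have e2 : 2 * s - 1 - d = 2 * s - d - 1 := by ring
    rw [e1] at a2
    simp only [nab] at a3 ⊢
    rw [e2] at a3
    linear_combination a2 - a1 + a3
  have hh2 : ∀ s, nab d G s = 2 * nab (d / 2) G s := by
    intro s
    have a1 := hh1 s
    have a2 := hh1 (s - d / 2)
    have e1 : 2 * (s - d / 2) = 2 * s - d := by ring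
    rw [e1, CLB1c_sub hdV] at a2
    have a3 : nab (d / 2) G (s - d / 2) = nab (d / 2) G s :=
      mul_left_cancel₀ hk (a2.trans a1.symm)
    have e2 : s - d / 2 - d / 2 = s - d := by ring
    simp only [nab] at a3 ⊢
    rw [e2] at a3
    linarith
  have hv2 : ∀ s, (1 + G 2) * nab d G s = 4 * nab d G (2 * s) := by
    intro s
    rw [hh2 s]
    linear_combination 2 * hh1 s
  have hhV : (1 / 2 : ℝ) ∈ Per (nab d G) := by
    intro s
    have a1 := hv2 (s + 1 / 2)
    have e1 : 2 * (s + 1 / 2) = 2 * s + 1 := by ring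
    rw [e1, mem_Per.1 h1V] at a1
    exact mul_left_cancel₀ hk (a1.trans (hv2 s).symm)
  have hd2V : d / 2 ∈ Per (nab d G) := by
    intro s
    have a1 := hv2 (s + d / 2)
    have e1 : 2 * (s + d / 2) = 2 * s + d := by ring
    rw [e1, mem_Per.1 hdV] at a1
    exact mul_left_cancel₀ hk (a1.trans (hv2 s).symm)
  -- the four differences
  have n1 : ∀ x, nab (1 + d) G x = nab 1 G x + nab d G x := by
    intro x
    have a1 := CLB1c_sub h1V x
    have e1 : x - 1 - d = x - (1 + d) := by ring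
    simp only [nab] at a1 ⊢
    rw [e1] at a1
    linarith
  have n2 : ∀ x, nab (1 - d) G x = nab 1 G x - nab d G x := by
    intro x
    have a1 := mem_Per.1 hdV (x - 1)
    rw [CLB1c_sub h1V x] at a1
    have e1 : x - 1 + d = x - (1 - d) := by ring
    have e2 : x - (1 - d) - d = x - 1 := by ring
    rw [e1] at a1
    simp only [nab] at a1 ⊢
    rw [e2] at a1
    linarith
  have n3 : ∀ t, nab (1 + d)⁻¹ G (t / (1 + d)) =
      nab (1 / 2) G ((1 - d) * t / 2) - nab d G ((1 - d) * t / 2) / 2 := by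
    intro t
    have a1 := hβ.2 (t / (1 + d))
    have a2 := hβ.2 (t / (1 + d) - (1 + d)⁻¹)
    have e1 : (1 - p) * (t / (1 + d)) = (1 - d) * t / 2 := by rw [hpd]; field_simp; ring
    have e2 : (1 - p) * (t / (1 + d) - (1 + d)⁻¹) = (1 - d) * t / 2 - 1 / 2 + d / 2 := by
      rw [hpd]; field_simp; ring
    rw [e1] at a1
    rw [e2] at a2
    have a3 := hh2 ((1 - d) * t / 2 - 1 / 2 + d / 2)
    rw [mem_Per.1 hd2V, CLB1c_sub hhV] at a3
    have e3 : (1 - d) * t / 2 - 1 / 2 + d / 2 - d / 2 = (1 - d) * t / 2 - 1 / 2 := by ring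
    have a4 : nab (d / 2) G ((1 - d) * t / 2 - 1 / 2 + d / 2) =
        G ((1 - d) * t / 2 - 1 / 2 + d / 2) - G ((1 - d) * t / 2 - 1 / 2) := by
      rw [nab, e3]
    rw [a4] at a3
    rw [a3]
    simp only [nab]
    linarith
  have n4 : ∀ t, nab (1 - d)⁻¹ G (t / (1 - d)) =
      nab (1 / 2) G ((1 + d) * t / 2) + nab d G ((1 + d) * t / 2) / 2 := by
    intro t
    have a1 := hβ.2 (t / (1 - d))
    have a2 := hβ.2 (t / (1 - d) - (1 - d)⁻¹)
    have e1 : (1 - p) * (t / (1 - d)) = (1 + d) * t / 2 := by rw [hpd]; field_simp; ring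
    have e2 : (1 - p) * (t / (1 - d) - (1 - d)⁻¹) = (1 + d) * t / 2 - 1 / 2 - d / 2 := by
      rw [hpd]; field_simp; ring
    rw [e1] at a1
    rw [e2] at a2
    have a3 := hh2 ((1 + d) * t / 2 - 1 / 2)
    rw [CLB1c_sub hhV] at a3
    rw [a3]
    simp only [nab]
    linarith
  have hu : ∀ x, nab 1 G (-d ^ 2 * x) = nab 1 G x := (h.inv_u hγ').2
  have hw : ∀ x, nab (1 / 2) G (-d ^ 2 * x) = nab (1 / 2) G x := (h.inv_w hγ').2
  have hwβ : ∀ x, nab (1 / 2) G ((1 - p) * x) = nab (1 / 2) G x := (h.inv_w hβ).2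
  -- v is not invariant
  have hni : ¬ ∀ x, nab d G (-d ^ 2 * x) = nab d G x := by
    intro hh
    have a1 := hv x0
    rw [hh] at a1
    have : (φ - 1) * nab d G x0 = 0 := by linarith
    exact hx0 ((mul_eq_zero.1 this).resolve_left hφ1)
  have p1 : 1 + d ∉ Per G := by
    intro hh
    have z := congrFun (nab_eq_zero.2 hh)
    refine hni fun x => ?_
    have a1 := z x
    have a2 := z (-d ^ 2 * x)
    rw [n1] at a1 a2
    rw [hu] at a2
    simp only [Pi.zero_apply] at a1 a2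
    linarith
  have p2 : 1 - d ∉ Per G := by
    intro hh
    have z := congrFun (nab_eq_zero.2 hh)
    refine hni fun x => ?_
    have a1 := z x
    have a2 := z (-d ^ 2 * x)
    rw [n2] at a1 a2
    rw [hu] at a2
    simp only [Pi.zero_apply] at a1 a2
    linarith
  have p3 : (1 + d)⁻¹ ∉ Per G := by
    intro hh
    have z := congrFun (nab_eq_zero.2 hh)
    have z' : ∀ y, nab (1 / 2) G y - nab d G y / 2 = 0 := by
      intro y
      have a1 := z (2 * y / (1 - d) / (1 + d))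
      have e : (1 - d) * (2 * y / (1 - d)) / 2 = y := by field_simp
      rw [n3, e] at a1
      exact a1
    refine hni fun x => ?_
    have a1 := z' x
    have a2 := z' (-d ^ 2 * x)
    rw [hw] at a2
    linarith
  have p4 : (1 - d)⁻¹ ∉ Per G := by
    intro hh
    have z := congrFun (nab_eq_zero.2 hh)
    have z' : ∀ y, nab (1 / 2) G y + nab d G y / 2 = 0 := by
      intro y
      have a1 := z (2 * y / (1 + d) / (1 - d))
      have e : (1 + d) * (2 * y / (1 + d)) / 2 = y := by field_simp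
      rw [n4, e] at a1
      exact a1
    refine hni fun x => ?_
    have a1 := z' x
    have a2 := z' (-d ^ 2 * x)
    rw [hw] at a2
    linarith
  obtain ⟨m1, hm1, k1⟩ := h.kosW hc0 p1 p3
  obtain ⟨m2, hm2, k2⟩ := h.kosW hc0' p2 p4
  have s1 : ∀ t, nab d G t = -(m1 / 2) * nab d G ((1 - d) * t / 2) ∧
      nab 1 G t = m1 * nab (1 / 2) G ((1 - d) * t / 2) := by
    intro t
    have a1 := k1 t
    have a2 := k1 (-d ^ 2 * t)
    rw [n1, n3] at a1 a2
    have e : (1 - d) * (-d ^ 2 * t) / 2 = -d ^ 2 * ((1 - d) * t / 2) := by ring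
    rw [e, hu, hw] at a2
    have a3 := hv t
    have a4 := hv ((1 - d) * t / 2)
    have a5 : (φ - 1) * (nab d G t + m1 / 2 * nab d G ((1 - d) * t / 2)) = 0 := by
      linear_combination φ * a1 - φ * a2 - a3 - m1 / 2 * a4
    have a6 := (mul_eq_zero.1 a5).resolve_left hφ1
    constructor <;> linarith
  have s2 : ∀ t, nab d G t = -(m2 / 2) * nab d G ((1 + d) * t / 2) ∧
      nab 1 G t = m2 * nab (1 / 2) G ((1 + d) * t / 2) := by
    intro t
    have a1 := k2 t
    have a2 := k2 (-d ^ 2 * t)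
    rw [n2, n4] at a1 a2
    have e : (1 + d) * (-d ^ 2 * t) / 2 = -d ^ 2 * ((1 + d) * t / 2) := by ring
    rw [e, hu, hw] at a2
    have a3 := hv t
    have a4 := hv ((1 + d) * t / 2)
    have a5 : (φ - 1) * (nab d G t + m2 / 2 * nab d G ((1 + d) * t / 2)) = 0 := by
      linear_combination -φ * a1 + φ * a2 - a3 - m2 / 2 * a4
    have a6 := (mul_eq_zero.1 a5).resolve_left hφ1
    constructor <;> linarith
  by_contra h1P
  obtain ⟨x1, hx1⟩ := CLB1c_ne h1P
  have w1 : d + 1 / 2 ∈ Per (nab (1 / 2) G) := by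
    intro y
    have a1 := (s1 (2 * (1 - d - y) / (1 - d))).2
    have a2 := (s1 (2 - 2 * (1 - d - y) / (1 - d))).2
    have a3 := h.anti 1 (2 * (1 - d - y) / (1 - d))
    have a4 := h.anti (1 / 2) (1 - d - y)
    have e1 : (1 - d) * (2 * (1 - d - y) / (1 - d)) / 2 = 1 - d - y := by field_simp
    have e2 : (1 - d) * (2 - 2 * (1 - d - y) / (1 - d)) / 2 = y := by field_simp; ring
    have e3 : 1 + 1 - 2 * (1 - d - y) / (1 - d) = 2 - 2 * (1 - d - y) / (1 - d) := by ring
    have e4 : 1 + 1 / 2 - (1 - d - y) = y + (d + 1 / 2) := by ring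
    rw [e1] at a1
    rw [e2] at a2
    rw [e3] at a3
    rw [e4] at a4
    refine mul_left_cancel₀ hm1 ?_
    linear_combination m1 * a4 + a1 + a2 - a3
  have w2 : d ∈ Per (nab (1 / 2) G) := by
    intro x
    have a1 := CLB1c_sub hhV (x + d)
    have e1 : x + d - 1 / 2 - d = x - 1 / 2 := by ring
    have e2 : x + d - d = x := by ring
    simp only [nab] at a1 ⊢
    rw [e1, e2] at a1
    linarith
  have w3 : (1 / 2 : ℝ) ∈ Per (nab (1 / 2) G) := by
    have := sub_mem w1 w2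
    rwa [add_sub_cancel_left] at this
  have uw : ∀ x, nab 1 G x = 2 * nab (1 / 2) G x := by
    intro x
    have a1 := CLB1c_sub w3 x
    have e1 : x - 1 / 2 - 1 / 2 = x - 1 := by ring
    simp only [nab] at a1 ⊢
    rw [e1] at a1
    linarith
  have kw : ∀ s, (1 + G 2) * nab (1 / 2) G s = 4 * nab (1 / 2) G (2 * s) := by
    intro s
    have a1 := h.dbl s
    have a2 := h.dbl (s - 1 / 2)
    have e1 : 2 * (s - 1 / 2) = 2 * s - 1 := by ring
    rw [e1] at a2
    have a3 := uw (2 * s)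
    have a4 := uw (2 * s - 1)
    have a5 : nab (1 / 2) G (2 * s - 1) = nab (1 / 2) G (2 * s) := by
      have e2 : 2 * s - 1 = 2 * s - 1 / 2 - 1 / 2 := by ring
      rw [e2, CLB1c_sub w3, CLB1c_sub w3]
    rw [a5] at a4
    have a6 : nab 1 G (2 * s) = G (2 * s) - G (2 * s - 1) := rfl
    have a7 : nab 1 G (2 * s - 1) = G (2 * s - 1) - G (2 * s - 1 - 1) := rfl
    have a8 : nab (1 / 2) G s = G s - G (s - 1 / 2) := rfl
    rw [a8]
    linear_combination a2 - a1 + a3 + a4 - a6 - a7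
  have ecc : ∀ t : ℝ, (1 + d) * ((1 - d) * t / 2) / 2 = (1 - p) * (t / 2) := by
    intro t
    rw [hpd]
    ring
  have hm : m1 * m2 = 1 + G 2 := by
    have a1 := (s1 x1).2
    have a2 := (s2 ((1 - d) * x1 / 2)).2
    rw [ecc, hwβ, uw] at a2
    have a3 := kw (x1 / 2)
    have e : 2 * (x1 / 2) = x1 := by ring
    rw [e] at a3
    have a4 := uw x1
    have a5 : nab (1 / 2) G (x1 / 2) ≠ 0 := by
      intro hh
      rw [hh] at a3
      apply hx1
      linarith
    refine mul_right_cancel₀ a5 ?_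
    linear_combination -m1 * a2 - 2 * a1 - a3 + 2 * a4
  have vβ : ∀ x, nab d G ((1 - p) * x) = nab d G x := by
    intro x
    have a1 := (s1 (2 * x)).1
    have a2 := (s2 ((1 - d) * (2 * x) / 2)).1
    have e : 2 * x / 2 = x := by ring
    rw [ecc, e] at a2
    have a3 := hv2 x
    refine mul_left_cancel₀ hk ?_
    rw [a3, a1, a2, ← hm]
    ring
  have hβd : (1 - p) * d ∈ Per (nab d G) := Dinv.per (G := nab d G) ⟨hβ0, vβ⟩ hdV
  have b1 : ∀ y, G y - G (y - (1 - p) * d) = nab d G y := by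
    intro y
    have a1 := vβ (y / (1 - p))
    have a2 := hβ.2 (y / (1 - p))
    have a3 := hβ.2 (y / (1 - p) - d)
    have e1 : (1 - p) * (y / (1 - p)) = y := by field_simp
    have e2 : (1 - p) * (y / (1 - p) - d) = y - (1 - p) * d := by field_simp
    rw [e1] at a1 a2
    rw [e2] at a3
    rw [a1, a2, a3, nab]
  have b2 : ∀ y, G y - G (y + d ^ 3) = φ * nab d G y := by
    intro y
    have hd2 : -d ^ 2 ≠ 0 := hγ'.1
    have a1 := hv (y / (-d ^ 2))
    have a2 := hγ'.2 (y / (-d ^ 2))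
    have a3 := hγ'.2 (y / (-d ^ 2) - d)
    have e1 : -d ^ 2 * (y / (-d ^ 2)) = y := by field_simp
    have e2 : -d ^ 2 * (y / (-d ^ 2) - d) = y + d ^ 3 := by field_simp; ring
    rw [e1] at a1 a2
    rw [e2] at a3
    rw [← a1, a2, a3, nab]
  have c1 := b1 x0
  have c2 := b1 (x0 - (1 - p) * d)
  rw [CLB1c_sub hβd] at c2
  have c3 := b2 (x0 - d)
  rw [CLB1c_sub hdV] at c3
  have e : x0 - (1 - p) * d - (1 - p) * d = x0 - d + d ^ 3 := by rw [hpd]; ring
  rw [e] at c2
  have c4 : nab d G x0 = G x0 - G (x0 - d) := rfl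
  have c5 : (φ - 1) * nab d G x0 = 0 := by linarith
  exact hx0 ((mul_eq_zero.1 c5).resolve_left hφ1)

theorem OG.one_per {G : ℝ → ℝ} (h : OG G) (hS : SP G) : (1 : ℝ) ∈ Per G := by
  by_contra h1
  obtain ⟨p, hp1, hp, hβ, hγ, hZ⟩ := h.select hS h1
  have hd0 : 0 < Real.sqrt (2 * p - 1) := Real.sqrt_pos.2 (by linarith)
  have hd : Real.sqrt (2 * p - 1) ^ 2 = 2 * p - 1 := Real.sq_sqrt (by linarith)
  by_cases hdP : Real.sqrt (2 * p - 1) ∈ Per G
  · exact h1 (h.case1 hp1 hp hβ hγ hZ hd0 hd hdP)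
  · exact h1 (h.case2 hp1 hβ hγ hd0 hd hdP)

end Pool.Agent.P.MP_6d4b14_an.CL
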