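import Pool.Agent.P.MP_6d4b14_an.CLLog

/-! Bilinear relations through logarithms in Artinian quotients. -/

set_option linter.unusedSectionVars false
set_option linter.unusedVariables false

namespace Pool.Agent.P.MP_6d4b14_an.CL

open scoped Classical
open TR Function Polynomial

theorem log_loc {A : Type} [CommRing A] [Algebra ℝ A]
    (Λ : AddSubgroup ℝ) (X : ℝ → A) (hX : ∀ a ∈ Λ, ∀ b ∈ Λ, X (a + b) = X a * X b)
    (h0 : X 0 = 1) : ∃ L : ℝ →+ A, ∀ a ∈ Λ, IsNilpotent (X a - 1) →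
      ∃ r, L a = (X a - 1) * (1 + (X a - 1) * r) := by
  obtain ⟨lg, hadd, hform, -⟩ := exists_lg (A := A)
  let H : AddSubgroup ℝ :=
    { carrier := {a | a ∈ Λ ∧ IsNilpotent (X a - 1)}
      zero_mem' := ⟨Λ.zero_mem, by rw [h0, sub_self]; exact IsNilpotent.zero⟩
      add_mem' := fun {a b} ha hb => ⟨Λ.add_mem ha.1 hb.1, by
        have e : X (a + b) - 1 = (X a - 1) * X b + (X b - 1) := by
          rw [hX a ha.1 b hb.1]; ring
        rw [e]
        exact (Commute.all _ _).isNilpotent_add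
          ((Commute.all _ _).isNilpotent_mul_right ha.2) hb.2⟩
      neg_mem' := fun {a} ha => ⟨Λ.neg_mem ha.1, by
        have e1 : X (-a) * X a = 1 := by
          rw [← hX _ (Λ.neg_mem ha.1) _ ha.1, neg_add_cancel, h0]
        have e : X (-a) - 1 = (X a - 1) * (-X (-a)) := by linear_combination e1
        rw [e]
        exact (Commute.all _ _).isNilpotent_mul_right ha.2⟩ }
  let g : H →+ A := AddMonoidHom.mk' (fun a => lg (X a)) fun a b => by
    show lg (X (a + b)) = _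
    rw [hX a a.2.1 b b.2.1, hadd _ _ a.2.2 b.2.2]
  let _ : DivisibleBy A ℤ := divisibleByOfSMulRightSurj A ℤ fun {n} hn a => by
    refine ⟨((n : ℝ))⁻¹ • a, ?_⟩
    have hn' : (n : ℝ) ≠ 0 := Int.cast_ne_zero.2 hn
    show n • (((n : ℝ))⁻¹ • a) = a
    rw [← Int.cast_smul_eq_zsmul ℝ, smul_smul, mul_inv_cancel₀ hn', one_smul]
  obtain ⟨L, hL⟩ := (Module.Baer.of_divisible A).extension_property_addMonoidHom H.subtype
    H.subtype_injective g
  refine ⟨L, fun a ha hn => ?_⟩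
  obtain ⟨r, hr⟩ := hform (X a) hn
  refine ⟨r, ?_⟩
  rw [← hr]
  exact DFunLike.congr_fun hL (⟨a, ha, hn⟩ : H)

theorem CLB2a_nil {R : Type} [CommRing R] (m : Ideal R) (N : ℕ) {a : R} (ha : a ∈ m) :
    IsNilpotent (Ideal.Quotient.mk (m ^ N) a) :=
  ⟨N, by rw [← map_pow, Ideal.Quotient.eq_zero_iff_mem]; exact Ideal.pow_mem_pow ha N⟩

theorem CLB2a_dich {R : Type} [CommRing R] (m : Ideal R) (hm : m.IsMaximal) (N : ℕ)
    (x : R ⧸ m ^ N) : IsNilpotent x ∨ IsUnit x := by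
  obtain ⟨a, rfl⟩ := Ideal.Quotient.mk_surjective x
  by_cases ha : a ∈ m
  · exact Or.inl (CLB2a_nil m N ha)
  · obtain ⟨b, n, hn, e⟩ := hm.exists_inv ha
    have hu := (CLB2a_nil m N hn).isUnit_one_sub
    have e2 : 1 - Ideal.Quotient.mk (m ^ N) n =
        Ideal.Quotient.mk (m ^ N) b * Ideal.Quotient.mk (m ^ N) a := by
      rw [← map_mul, ← map_one (Ideal.Quotient.mk (m ^ N)), ← map_sub, ← e, add_sub_cancel_right]
    rw [e2] at hu
    exact Or.inr (isUnit_of_mul_isUnit_right hu)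

theorem CLB2a_prod {A : Type} [CommRing A] {x y p q : A} (hx : IsNilpotent x ∨ IsUnit x)
    (hy : IsNilpotent y ∨ IsUnit y) (h1 : x ^ 2 * y = 0) (h2 : x * y ^ 2 = 0)
    (hp : IsNilpotent x → ∃ r, p = x * (1 + x * r))
    (hq : IsNilpotent y → ∃ r, q = y * (1 + y * r)) : p * q = x * y := by
  rcases hx with hx | hx
  · obtain ⟨r, hr⟩ := hp hx
    rcases hy with hy | hy
    · obtain ⟨r', hr'⟩ := hq hy
      rw [hr, hr']
      linear_combination r * h1 + (r' + x * r * r') * h2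
    · have h0 : x = 0 := ((hy.pow 2).mul_left_eq_zero).1 h2
      rw [hr, h0]
      simp
  · have h0 : y = 0 := ((hx.pow 2).mul_right_eq_zero).1 h1
    obtain ⟨r', hr'⟩ := hq (h0 ▸ IsNilpotent.zero)
    rw [hr', h0]
    simp

theorem log_glob {R ι : Type} [CommRing R] [Algebra ℝ R] [IsNoetherianRing R] [Fintype ι]
    (Λ Λ' : AddSubgroup ℝ) (X Y : ℝ → R) (hX : ∀ a ∈ Λ, ∀ b ∈ Λ, X (a + b) = X a * X b)
    (hX0 : X 0 = 1) (hY : ∀ a ∈ Λ', ∀ b ∈ Λ', Y (a + b) = Y a * Y b) (hY0 : Y 0 = 1)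
    (u v c : ι → ℝ) (hu : ∀ i, u i ∈ Λ) (hv : ∀ i, v i ∈ Λ')
    (h1 : ∀ i, (X (u i) - 1) ^ 2 * (Y (v i) - 1) = 0)
    (h2 : ∀ i, (X (u i) - 1) * (Y (v i) - 1) ^ 2 = 0)
    (hrel : ∀ (A : Type) [CommRing A] [Algebra ℝ A] (L L' : ℝ →+ A),
      ∑ i, c i • (L (u i) * L' (v i)) = 0) :
    ∑ i, c i • ((X (u i) - 1) * (Y (v i) - 1)) = 0 := by
  set f := ∑ i, c i • ((X (u i) - 1) * (Y (v i) - 1)) with hf
  by_contra hne
  let J : Ideal R := LinearMap.ker (LinearMap.toSpanSingleton R R f)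
  have hJ : J ≠ ⊤ := by
    intro h
    have h1 : (1 : R) ∈ J := h ▸ Submodule.mem_top
    apply hne
    simpa [J] using h1
  obtain ⟨m, hm, hJm⟩ := Ideal.exists_le_maximal J hJ
  have key : ∀ N : ℕ, f ∈ m ^ N := by
    intro N
    let π : R →ₐ[ℝ] R ⧸ m ^ N := Ideal.Quotient.mkₐ ℝ (m ^ N)
    obtain ⟨L, hL⟩ := log_loc Λ (fun a => π (X a))
      (fun a ha b hb => by rw [hX a ha b hb, map_mul]) (by rw [hX0, map_one])
    obtain ⟨L', hL'⟩ := log_loc Λ' (fun a => π (Y a))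
      (fun a ha b hb => by rw [hY a ha b hb, map_mul]) (by rw [hY0, map_one])
    have hr := hrel (R ⧸ m ^ N) L L'
    have hπ : π f = 0 := by
      rw [← hr, hf, map_sum]
      refine Finset.sum_congr rfl fun i _ => ?_
      rw [map_smul, map_mul, map_sub, map_sub, map_one]
      congr 1
      refine (CLB2a_prod (CLB2a_dich m hm N _) (CLB2a_dich m hm N _) ?_ ?_
        (hL _ (hu i)) (hL' _ (hv i))).symm
      · have := congrArg π (h1 i)
        simpa only [map_mul, map_pow, map_sub, map_one, map_zero] using this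
      · have := congrArg π (h2 i)
        simpa only [map_mul, map_pow, map_sub, map_one, map_zero] using this
    exact Ideal.Quotient.eq_zero_iff_mem.1 hπ
  have hmem : f ∈ (⨅ i : ℕ, m ^ i • ⊤ : Submodule R R) := by
    rw [Submodule.mem_iInf]
    intro N
    have := Submodule.smul_mem_smul (key N) (Submodule.mem_top : (1 : R) ∈ (⊤ : Submodule R R))
    simpa using this
  obtain ⟨r, hr⟩ := (Ideal.mem_iInf_smul_pow_eq_bot_iff m f).1 hmem
  have h1r : 1 - (r : R) ∈ J := by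
    show (1 - (r : R)) • f = 0
    rw [sub_smul, one_smul, hr, sub_self]
  apply hm.ne_top
  rw [Ideal.eq_top_iff_one]
  have := m.add_mem (hJm h1r) r.2
  rwa [sub_add_cancel] at this

theorem log_fn {ι : Type} [Fintype ι] (F : Fn ℝ (ℝ × ℝ)) (u v c : ι → ℝ)
    (h1 : ∀ i, ((Xg ℝ (u i, (0 : ℝ)) - 1) ^ 2 * (Xg ℝ ((0 : ℝ), v i) - 1)) • F = 0)
    (h2 : ∀ i, ((Xg ℝ (u i, (0 : ℝ)) - 1) * (Xg ℝ ((0 : ℝ), v i) - 1) ^ 2) • F = 0)
    (hrel : ∀ (A : Type) [CommRing A] [Algebra ℝ A] (L L' : ℝ →+ A),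
      ∑ i, c i • (L (u i) * L' (v i)) = 0) :
    (∑ i, c i • ((Xg ℝ (u i, (0 : ℝ)) - 1) * (Xg ℝ ((0 : ℝ), v i) - 1))) • F = 0 := by
  let S : Set (ℝ × ℝ) := Set.range (fun i => (u i, (0 : ℝ))) ∪ Set.range fun i => ((0 : ℝ), v i)
  have hS : S.Finite := (Set.finite_range _).union (Set.finite_range _)
  have _ : Finite S := hS
  let Γ : AddSubgroup (ℝ × ℝ) := AddSubgroup.closure S
  have hfg : AddGroup.FG Γ := AddGroup.closure_finite_fg S
  have hfg' : AddMonoid.FG Γ := AddGroup.fg_iff_addMonoid_fg.1 hfg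
  have hN : IsNoetherianRing (AddMonoidAlgebra ℝ Γ) :=
    Algebra.FiniteType.isNoetherianRing ℝ _
  let φ : AddMonoidAlgebra ℝ Γ →ₐ[ℝ] GR ℝ (ℝ × ℝ) :=
    AddMonoidAlgebra.mapDomainAlgHom ℝ ℝ Γ.subtype
  have hφ : ∀ γ : Γ, φ (AddMonoidAlgebra.single γ 1) = Xg ℝ (γ : ℝ × ℝ) := by
    intro γ
    simp [φ, Xg]
  let J : Ideal (AddMonoidAlgebra ℝ Γ) :=
    Ideal.comap φ (LinearMap.ker (LinearMap.toSpanSingleton (GR ℝ (ℝ × ℝ)) _ F))
  have hJ : ∀ r, r ∈ J ↔ φ r • F = 0 := fun r => Iff.rfl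
  let π : AddMonoidAlgebra ℝ Γ →ₐ[ℝ] AddMonoidAlgebra ℝ Γ ⧸ J := Ideal.Quotient.mkₐ ℝ J
  have hπ : ∀ r, π r = 0 ↔ φ r • F = 0 := fun r => Ideal.Quotient.eq_zero_iff_mem
  let Z : ℝ × ℝ → AddMonoidAlgebra ℝ Γ := fun z =>
    if h : z ∈ Γ then AddMonoidAlgebra.single ⟨z, h⟩ 1 else 1
  have hZ : ∀ z ∈ Γ, φ (Z z) = Xg ℝ z := by
    intro z hz
    simp only [Z, dif_pos hz, hφ]
  have hZadd : ∀ z ∈ Γ, ∀ z' ∈ Γ, Z (z + z') = Z z * Z z' := by
    intro z hz z' hz'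
    simp only [Z, dif_pos hz, dif_pos hz', dif_pos (Γ.add_mem hz hz'),
      AddMonoidAlgebra.single_mul_single, mul_one]
    rfl
  have hZ0 : Z 0 = 1 := by
    simp only [Z, dif_pos Γ.zero_mem]
    rfl
  have hu : ∀ i, (u i, (0 : ℝ)) ∈ Γ := fun i =>
    AddSubgroup.subset_closure (Or.inl ⟨i, rfl⟩)
  have hv : ∀ i, ((0 : ℝ), v i) ∈ Γ := fun i =>
    AddSubgroup.subset_closure (Or.inr ⟨i, rfl⟩)
  have main := log_glob (R := AddMonoidAlgebra ℝ Γ ⧸ J) (Γ.comap (AddMonoidHom.inl ℝ ℝ))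
    (Γ.comap (AddMonoidHom.inr ℝ ℝ)) (fun a => π (Z (a, 0))) (fun a => π (Z (0, a)))
    (fun a ha b hb => by
      have e : ((a + b, 0) : ℝ × ℝ) = (a, 0) + (b, 0) := by simp
      rw [e, hZadd (a, 0) ha (b, 0) hb, map_mul])
    (by rw [show (((0 : ℝ), (0 : ℝ)) : ℝ × ℝ) = 0 from rfl, hZ0, map_one])
    (fun a ha b hb => by
      have e : ((0, a + b) : ℝ × ℝ) = (0, a) + (0, b) := by simp
      rw [e, hZadd (0, a) ha (0, b) hb, map_mul])
    (by rw [show (((0 : ℝ), (0 : ℝ)) : ℝ × ℝ) = 0 from rfl, hZ0, map_one])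
    u v c hu hv
    (fun i => by
      have := (hπ ((Z (u i, 0) - 1) ^ 2 * (Z (0, v i) - 1))).2 (by
        rw [map_mul, map_pow, map_sub, map_sub, map_one, hZ _ (hu i), hZ _ (hv i)]
        exact h1 i)
      simpa only [map_mul, map_pow, map_sub, map_one] using this)
    (fun i => by
      have := (hπ ((Z (u i, 0) - 1) * (Z (0, v i) - 1) ^ 2)).2 (by
        rw [map_mul, map_pow, map_sub, map_sub, map_one, hZ _ (hu i), hZ _ (hv i)]
        exact h2 i)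
      simpa only [map_mul, map_pow, map_sub, map_one] using this)
    hrel
  have h3 := (hπ (∑ i, c i • ((Z (u i, 0) - 1) * (Z (0, v i) - 1)))).1 (by
    simpa only [map_sum, map_smul, map_mul, map_sub, map_one] using main)
  simpa only [map_sum, map_smul, map_mul, map_sub, map_one, hZ _ (hu _), hZ _ (hv _)] using h3

end Pool.Agent.P.MP_6d4b14_an.CL
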