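import Pool.Agent.P.MP_6d4b14_an.CLDefs

/-! Closure properties of the classes `Clw` and `Reg`. -/

set_option linter.unusedSectionVars false
set_option linter.unusedVariables false

namespace Pool.Agent.P.MP_6d4b14_an.CL

open scoped Classical
open TR Function Polynomial

theorem CLCl_cons (a : ℝ) (l : List ℝ) (φ : ℝ → ℝ) : dfl (a :: l) φ = fwdDiff a (dfl l φ) := rfl

theorem CLCl_fwd_zero (a : ℝ) : fwdDiff a (0 : ℝ → ℝ) = 0 := by
  funext x
  simp [fwdDiff]

theorem dfl_append (l l' : List ℝ) (φ : ℝ → ℝ) : dfl (l ++ l') φ = dfl l (dfl l' φ) := by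
  simp only [dfl, List.foldr_append]

theorem dfl_fwd (l : List ℝ) (h : ℝ) (φ : ℝ → ℝ) : dfl l (fwdDiff h φ) = fwdDiff h (dfl l φ) := by
  induction l with
  | nil => rfl
  | cons a l ih =>
    rw [CLCl_cons, CLCl_cons, ih]
    funext x
    simp only [fwdDiff]
    rw [add_right_comm x a h]
    ring

theorem dfl_comm (l l' : List ℝ) (φ : ℝ → ℝ) : dfl l (dfl l' φ) = dfl l' (dfl l φ) := by
  induction l' with
  | nil => rfl
  | cons a l' ih => rw [CLCl_cons, CLCl_cons, dfl_fwd, ih]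

theorem dfl_zero (l : List ℝ) : dfl l 0 = 0 := by
  induction l with
  | nil => rfl
  | cons a l ih => rw [CLCl_cons, ih, CLCl_fwd_zero]

theorem dfl_add (l : List ℝ) (φ ψ : ℝ → ℝ) :
    dfl l (fun x => φ x + ψ x) = fun x => dfl l φ x + dfl l ψ x := by
  induction l with
  | nil => rfl
  | cons a l ih =>
    rw [CLCl_cons, CLCl_cons, CLCl_cons, ih]
    funext x
    simp only [fwdDiff]
    ring

theorem dfl_mul (l : List ℝ) (c : ℝ) (φ : ℝ → ℝ) :
    dfl l (fun x => c * φ x) = fun x => c * dfl l φ x := by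
  induction l with
  | nil => rfl
  | cons a l ih =>
    rw [CLCl_cons, CLCl_cons, ih]
    funext x
    simp only [fwdDiff]
    ring

theorem dfl_aff (l : List ℝ) (α β : ℝ) (φ : ℝ → ℝ) :
    dfl l (fun x => φ (α * x + β)) = fun x => dfl (l.map fun h => α * h) φ (α * x + β) := by
  induction l with
  | nil => rfl
  | cons a l ih =>
    rw [List.map_cons, CLCl_cons, CLCl_cons, ih]
    funext x
    simp only [fwdDiff]
    rw [show α * (x + a) + β = α * x + β + α * a by ring]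

theorem dfl_replicate (n : ℕ) (h : ℝ) (φ : ℝ → ℝ) :
    dfl (List.replicate n h) φ = (fwdDiff h)^[n] φ := by
  induction n with
  | zero => rfl
  | succ n ih => rw [List.replicate_succ, CLCl_cons, ih, Function.iterate_succ_apply']

theorem dfl_sub {l l' : List ℝ} {φ : ℝ → ℝ} (h : l.Subperm l') (h0 : dfl l φ = 0) :
    dfl l' φ = 0 := by
  have hp : ∀ {a b : List ℝ}, a.Perm b → dfl a φ = dfl b φ := by
    intro a b hab
    induction hab with
    | nil => rfl
    | cons x _ ih => rw [CLCl_cons, CLCl_cons, ih]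
    | swap x y l =>
      rw [CLCl_cons, CLCl_cons, CLCl_cons, CLCl_cons]
      exact dfl_fwd [y] x (dfl l φ)
    | trans _ _ ih1 ih2 => exact ih1.trans ih2
  obtain ⟨m, hm, hs⟩ := h
  obtain ⟨r, hr⟩ := hs.exists_perm_append
  rw [hp hr, hp List.perm_append_comm, dfl_append, hp hm, h0, dfl_zero]

theorem dfl_GR (l : List ℝ) (φ : Fn ℝ ℝ) (s : ℝ) :
    ((l.map fun h => Xg ℝ h - 1).prod • φ) s = dfl l (fun t => φ t) s := by
  induction l generalizing s with
  | nil => simp only [List.map_nil, List.prod_nil, one_smul]; rfl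
  | cons a l ih =>
    rw [List.map_cons, List.prod_cons, mul_smul, sub_smul, one_smul, Fn.sub_apply, Xg_smul, ih, ih,
      CLCl_cons]
    rfl

theorem Clw.mono {w w' : ℝ} {φ : ℝ → ℝ} (h : Clw w φ) (hw : w ≤ w') : Clw w' φ :=
  fun δ hδ => by
    obtain ⟨l, h1, h2, h3⟩ := h δ hδ
    exact ⟨l, h1, by linarith, h3⟩

theorem Clw.add {w w' : ℝ} {φ ψ : ℝ → ℝ} (h : Clw w φ) (h' : Clw w' ψ) :
    Clw (w + w') fun x => φ x + ψ x :=
  fun δ hδ => by
    obtain ⟨l, h1, h2, h3⟩ := h (δ / 2) (by linarith)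
    obtain ⟨l', k1, k2, k3⟩ := h' (δ / 2) (by linarith)
    refine ⟨l ++ l', fun a ha => (List.mem_append.mp ha).elim (h1 a) (k1 a), ?_, ?_⟩
    · rw [List.map_append, List.sum_append]
      linarith
    · rw [dfl_add, dfl_append, dfl_append, dfl_comm l l' φ, h3, k3, dfl_zero, dfl_zero]
      funext x
      simp

theorem Clw.mul {w : ℝ} {φ : ℝ → ℝ} (h : Clw w φ) (c : ℝ) : Clw w fun x => c * φ x :=
  fun δ hδ => by
    obtain ⟨l, h1, h2, h3⟩ := h δ hδ
    refine ⟨l, h1, h2, ?_⟩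
    rw [dfl_mul, h3]
    funext x
    simp

theorem Clw.aff {w : ℝ} {φ : ℝ → ℝ} (h : Clw w φ) {α : ℝ} (hα : α ≠ 0) (β : ℝ) :
    Clw (w / |α|) fun x => φ (α * x + β) :=
  fun δ hδ => by
    have ha : 0 < |α| := abs_pos.mpr hα
    obtain ⟨l, h1, h2, h3⟩ := h (δ * |α|) (mul_pos hδ ha)
    refine ⟨l.map fun a => a / α, fun a h4 => ?_, ?_, ?_⟩
    · obtain ⟨b, hb, rfl⟩ := List.mem_map.mp h4
      exact div_ne_zero (h1 b hb) hα
    · have e : ((l.map fun a => a / α).map fun h => |h|).sum = (l.map fun h => |h|).sum / |α| := by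
        clear h1 h2 h3
        induction l with
        | nil => simp
        | cons a l ih =>
          simp only [List.map_cons, List.sum_cons] at ih ⊢
          rw [ih, abs_div, add_div]
      rw [e, div_lt_iff₀ ha, add_mul, div_mul_cancel₀ _ ha.ne']
      exact h2
    · rw [dfl_aff, List.map_map]
      have e : ((fun h => α * h) ∘ fun a => a / α) = id := by
        funext a
        simp only [Function.comp_apply, id]
        field_simp
      rw [e, List.map_id, h3]
      rfl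

theorem Clw.diff {w : ℝ} {φ : ℝ → ℝ} (h : Clw w φ) (c d : ℝ) :
    Clw w fun x => φ (x + c) - φ (x + d) :=
  fun δ hδ => by
    obtain ⟨l, h1, h2, h3⟩ := h δ hδ
    refine ⟨l, h1, h2, ?_⟩
    have e : (fun x => φ (x + c) - φ (x + d)) =
        fun x => φ (1 * x + c) + (fun y => -1 * φ (1 * y + d)) x := by
      funext x
      simp only [one_mul]
      ring
    rw [e, dfl_add, dfl_mul, dfl_aff, dfl_aff]
    simp only [one_mul, List.map_id', h3]
    funext x
    simp

theorem Clw.of_fwd {w h : ℝ} {φ : ℝ → ℝ} (hh : h ≠ 0) (H : Clw w (fwdDiff h φ)) :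
    Clw (|h| + w) φ :=
  fun δ hδ => by
    obtain ⟨l, h1, h2, h3⟩ := H δ hδ
    refine ⟨h :: l, fun a ha => ?_, ?_, ?_⟩
    · rcases List.mem_cons.mp ha with rfl | ha
      · exact hh
      · exact h1 a ha
    · rw [List.map_cons, List.sum_cons]
      linarith
    · rw [CLCl_cons, ← dfl_fwd, h3]

theorem CLCl_per {φ : ℝ → ℝ} {d p q : ℝ} (hd : 0 < d) (hp : Function.Periodic φ d)
    (hw : d < q - p) (h0 : ∀ x, p < x → x < q → φ x = 0) : φ = 0 := by
  funext x
  have h1 := toIocMod_mem_Ioc hd p x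
  have h2 : φ (toIocMod hd p x) = φ x := by
    rw [toIocMod]
    exact hp.sub_zsmul_eq _
  rw [← h2]
  exact h0 _ h1.1 (by linarith [h1.2])

theorem CLCl_zero (l : List ℝ) : ∀ (φ : ℝ → ℝ) (p q : ℝ), (∀ h ∈ l, h ≠ 0) →
    (l.map fun h => |h|).sum < q - p → dfl l φ = 0 → (∀ x, p < x → x < q → φ x = 0) → φ = 0 := by
  induction l with
  | nil => exact fun φ p q _ _ h _ => h
  | cons a l ih =>
    intro φ p q h1 h2 h3 h0
    rw [List.map_cons, List.sum_cons] at h2
    rw [CLCl_cons, ← dfl_fwd] at h3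
    have hs : 0 ≤ (l.map fun h => |h|).sum := List.sum_nonneg fun x hx => by
      obtain ⟨b, -, rfl⟩ := List.mem_map.mp hx
      exact abs_nonneg b
    have ha : a ≠ 0 := h1 a List.mem_cons_self
    have hl : ∀ h ∈ l, h ≠ 0 := fun h hh => h1 h (List.mem_cons_of_mem _ hh)
    have hz : fwdDiff a φ = 0 := by
      rcases le_total 0 a with hp | hp
      · rw [abs_of_nonneg hp] at h2
        refine ih _ p (q - a) hl (by linarith) h3 fun x b c => ?_
        simp only [fwdDiff]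
        rw [h0 x b (by linarith), h0 (x + a) (by linarith) (by linarith), sub_self]
      · rw [abs_of_nonpos hp] at h2
        refine ih _ (p - a) q hl (by linarith) h3 fun x b c => ?_
        simp only [fwdDiff]
        rw [h0 x (by linarith) c, h0 (x + a) (by linarith) (by linarith), sub_self]
    have hp : Function.Periodic φ a := fun x => sub_eq_zero.mp (congrFun hz x)
    have hp' : Function.Periodic φ |a| := by
      rcases abs_choice a with e | e <;> rw [e]
      · exact hp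
      · exact hp.neg
    exact CLCl_per (abs_pos.mpr ha) hp' (by linarith) h0

theorem Clw.zero_of {w p q : ℝ} {φ : ℝ → ℝ} (h : Clw w φ) (hw : w < q - p)
    (h0 : ∀ x, p < x → x < q → φ x = 0) : φ = 0 := by
  obtain ⟨l, h1, h2, h3⟩ := h (q - p - w) (by linarith)
  exact CLCl_zero l φ p q h1 (by linarith) h3 h0

theorem cl_const (c : ℝ) : Cl fun _ => c :=
  fun δ hδ => by
    refine ⟨[δ / 2], by simpa using hδ.ne', ?_, ?_⟩
    · simp only [List.map_cons, List.map_nil, List.sum_cons, List.sum_nil]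
      rw [abs_of_pos (by linarith)]
      linarith
    · funext x
      simp [dfl, fwdDiff]

theorem Cl.add {φ ψ : ℝ → ℝ} (h : Cl φ) (h' : Cl ψ) : Cl fun x => φ x + ψ x := by
  simpa only [add_zero] using Clw.add h h'

theorem Cl.sub {φ ψ : ℝ → ℝ} (h : Cl φ) (h' : Cl ψ) : Cl fun x => φ x - ψ x := by
  have := Cl.add h (Clw.mul h' (-1))
  simpa only [neg_mul, one_mul, ← sub_eq_add_neg] using this

theorem Cl.neg {φ : ℝ → ℝ} (h : Cl φ) : Cl fun x => -φ x := by
  simpa only [neg_mul, one_mul] using Clw.mul h (-1)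

theorem Cl.aff {φ : ℝ → ℝ} (h : Cl φ) (α β : ℝ) : Cl fun x => φ (α * x + β) := by
  by_cases hα : α = 0
  · simpa only [hα, zero_mul, zero_add] using cl_const (φ β)
  · simpa only [zero_div] using Clw.aff h hα β

theorem cl_of_per {φ : ℝ → ℝ} (h : ∀ δ : ℝ, 0 < δ → ∃ d, 0 < d ∧ d < δ ∧ d ∈ Per φ) : Cl φ :=
  fun δ hδ => by
    obtain ⟨d, h1, h2, h3⟩ := h δ hδ
    refine ⟨[d], by simpa using h1.ne', ?_, ?_⟩
    · simp only [List.map_cons, List.map_nil, List.sum_cons, List.sum_nil]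
      rw [abs_of_pos h1]
      linarith
    · funext x
      simp [dfl, fwdDiff, h3 x]

theorem cl_of_gp {n : ℕ} {φ : ℝ → ℝ} (h : GP n φ) : Cl φ :=
  fun δ hδ => by
    have hn : (0 : ℝ) < n + 2 := by positivity
    have hd : 0 < δ / (n + 2) := div_pos hδ hn
    refine ⟨List.replicate (n + 1) (δ / (n + 2)), fun a ha => ?_, ?_, ?_⟩
    · rw [List.eq_of_mem_replicate ha]
      exact hd.ne'
    · rw [List.map_replicate, List.sum_replicate, abs_of_pos hd, nsmul_eq_mul, zero_add,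
        ← mul_div_assoc, div_lt_iff₀ hn]
      push_cast
      nlinarith
    · rw [dfl_replicate]
      exact h _

theorem Reg.of_cl {φ : ℝ → ℝ} (h : Cl φ) (z : ℝ) : Reg φ z :=
  ⟨φ, h, Filter.EventuallyEq.rfl⟩

theorem Reg.congr {φ ψ : ℝ → ℝ} {z : ℝ} (h : Reg φ z) (e : φ =ᶠ[nhds z] ψ) : Reg ψ z := by
  obtain ⟨χ, h1, h2⟩ := h
  exact ⟨χ, h1, e.symm.trans h2⟩

theorem Reg.add {φ ψ : ℝ → ℝ} {z : ℝ} (h : Reg φ z) (h' : Reg ψ z) :
    Reg (fun x => φ x + ψ x) z := by
  obtain ⟨χ, h1, h2⟩ := h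
  obtain ⟨χ', k1, k2⟩ := h'
  exact ⟨_, h1.add k1, h2.fun_add k2⟩

theorem Reg.sub {φ ψ : ℝ → ℝ} {z : ℝ} (h : Reg φ z) (h' : Reg ψ z) :
    Reg (fun x => φ x - ψ x) z := by
  obtain ⟨χ, h1, h2⟩ := h
  obtain ⟨χ', k1, k2⟩ := h'
  exact ⟨_, h1.sub k1, h2.fun_sub k2⟩

theorem Reg.neg {φ : ℝ → ℝ} {z : ℝ} (h : Reg φ z) : Reg (fun x => -φ x) z := by
  obtain ⟨χ, h1, h2⟩ := h
  exact ⟨_, h1.neg, h2.fun_neg⟩

theorem Reg.aff {φ : ℝ → ℝ} {α β z : ℝ} (h : Reg φ (α * z + β)) :
    Reg (fun x => φ (α * x + β)) z := by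
  obtain ⟨χ, h1, h2⟩ := h
  have hc : ContinuousAt (fun x : ℝ => α * x + β) z := by fun_prop
  exact ⟨_, h1.aff α β, h2.comp_tendsto hc⟩

theorem Reg.of_aff {φ : ℝ → ℝ} {α β z : ℝ} (hα : α ≠ 0)
    (h : Reg (fun x => φ (α * x + β)) z) : Reg φ (α * z + β) := by
  have e : α⁻¹ * (α * z + β) + -β / α = z := by field_simp; ring
  have h1 : Reg (fun x => φ (α * x + β)) (α⁻¹ * (α * z + β) + -β / α) := by rwa [e]
  have h2 := Reg.aff h1
  have e2 : ∀ x : ℝ, α * (α⁻¹ * x + -β / α) + β = x := fun x => by field_simp; ring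
  simpa only [e2] using h2

theorem Reg.zero_nhds {φ : ℝ → ℝ} {z η : ℝ} (h : Reg φ z) (hη : 0 < η)
    (h0 : ∀ x, z < x → x < z + η → φ x = 0) : φ =ᶠ[nhds z] 0 := by
  obtain ⟨χ, h1, h2⟩ := h
  obtain ⟨ε, hε, h3⟩ := Metric.eventually_nhds_iff.mp h2
  have hm : 0 < min ε η := lt_min hε hη
  have h4 : χ = 0 := Clw.zero_of (p := z) (q := z + min ε η) h1 (by linarith) fun x a b => by
    have b1 := min_le_left ε η
    have b2 := min_le_right ε η
    rw [← h3 (y := x) (by rw [Real.dist_eq, abs_of_pos (by linarith)]; linarith)]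
    exact h0 x a (by linarith)
  rwa [h4] at h2

end Pool.Agent.P.MP_6d4b14_an.CL
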