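import Pool.Agent.P.MP_6d4b14_an.TRFun

/-! Definitions for the classification of the functions `G x = g x + g (1 - x)`. -/

set_option linter.unusedSectionVars false
set_option linter.unusedVariables false

namespace Pool.Agent.P.MP_6d4b14_an.CL

open scoped Classical
open TR Function Polynomial

/-- iterated differences along a list of steps -/
def dfl (l : List ℝ) (φ : ℝ → ℝ) : ℝ → ℝ := l.foldr fwdDiff φ

/-- killed by differences of total width close to `w` -/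
def Clw (w : ℝ) (φ : ℝ → ℝ) : Prop :=
  ∀ δ : ℝ, 0 < δ → ∃ l : List ℝ, (∀ h ∈ l, h ≠ 0) ∧ (l.map fun h => |h|).sum < w + δ ∧
    dfl l φ = 0

/-- killed by differences of arbitrarily small total width -/
abbrev Cl (φ : ℝ → ℝ) : Prop := Clw 0 φ

/-- near `z` the function agrees with a function of class `Cl` -/
def Reg (φ : ℝ → ℝ) (z : ℝ) : Prop := ∃ ψ : ℝ → ℝ, Cl ψ ∧ φ =ᶠ[nhds z] ψ

def S4 (g : ℝ → ℝ) (x y : ℝ) : ℝ :=
  g (x * y) + g (x * (1 - y)) + g ((1 - x) * y) + g ((1 - x) * (1 - y))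

/-- the even part of a global solution -/
noncomputable def ev (G : ℝ → ℝ) (z : ℝ) : ℝ :=
  (G (1 / 2) / 2 * G (2 * z + 1) + G (1 / 2) / 2 * G (2 * z) - G (z + 1 / 2)) / 2

/-- the defect of the equation -/
noncomputable def Df (G o : ℝ → ℝ) (x y : ℝ) : ℝ := S4 (fun z => ev G z + o z) x y - G x * G y

/-- a local solution that is extended to the real line -/
structure Pre (G o : ℝ → ℝ) : Prop where
  sym : ∀ x, G (1 - x) = G x
  cl : Cl G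
  odd : ∀ z, o (-z) = -o z
  rc : ∀ z, o z - o (z - 1 / 2) = G (1 / 2) / 2 * G (2 * z) - ev G z - ev G (z - 1 / 2)
  loc : ∀ x y, 0 < x → x < 1 → 0 < y → y < 1 → Df G o x y = 0

noncomputable def th (o : ℝ → ℝ) (z : ℝ) : ℝ := o (z + 1 / 6) - o z

noncomputable def LL (G o : ℝ → ℝ) (t : ℝ) : ℝ := Df G o (3 * t) (1 / 3)

noncomputable def LS (G o : ℝ → ℝ) (t : ℝ) : ℝ :=
  LL G o t + LL G o (-2 * t) + LL G o (4 * t) + LL G o (-8 * t)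

noncomputable def EE (o : ℝ → ℝ) (z : ℝ) : ℝ := th o (z + 1 / 32) - th o z

/-- the equation on the real line, with the even part `e` and the odd part `o` -/
def RE (Γ e o : ℝ → ℝ) : Prop :=
  ∀ x y, o (x * y) - o (x * (y - 1)) - o ((x - 1) * y) + o ((x - 1) * (y - 1)) +
    (e (x * y) + e (x * (y - 1)) + e ((x - 1) * y) + e ((x - 1) * (y - 1))) = Γ x * Γ y

structure Glob (G : ℝ → ℝ) : Prop where
  sym : ∀ x, G (1 - x) = G x
  zero : ∀ y, (G 0 - 1) * G y = 2 * ev G 0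
  re : ∃ o, RE G (ev G) o

structure OG (G : ℝ → ℝ) : Prop where
  sym : ∀ x, G (1 - x) = G x
  one : G 0 = 1
  re : ∃ o, RE G 0 o

/-- periods -/
def Per (G : ℝ → ℝ) : AddSubgroup ℝ where
  carrier := {p | ∀ x, G (x + p) = G x}
  zero_mem' := fun x => by rw [add_zero]
  add_mem' := fun {a b} ha hb x => by rw [← add_assoc, hb, ha]
  neg_mem' := fun {a} ha x => by rw [← ha (x + -a), neg_add_cancel_right]

theorem mem_Per {G : ℝ → ℝ} {p : ℝ} : p ∈ Per G ↔ ∀ x, G (x + p) = G x := Iff.rfl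

/-- many periods -/
def SP (G : ℝ → ℝ) : Prop :=
  ∀ S T : Finset ℝ, ∃ η : ℝ, ∀ τ ∈ T, η + τ ≠ 0 ∧ ∀ μ ∈ S, μ / (η + τ) ∈ Per G

/-- generalised polynomials of degree at most `n` -/
def GP (n : ℕ) (φ : ℝ → ℝ) : Prop := ∀ h : ℝ, (fwdDiff h)^[n + 1] φ = 0

/-- `T` is the homogeneous part of degree `n` of `φ`, which has degree at most `n` -/
def Tp (n : ℕ) (φ T : ℝ → ℝ) : Prop :=
  ∀ t c : ℝ, ∃ p : ℝ[X], p.natDegree ≤ n ∧ p.coeff n = T t ∧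
    ∀ q : ℚ, φ (q * t + c) = p.eval (q : ℝ)

/-- the derivative of `T` at `t` along the rational line with direction `h` -/
noncomputable def dd (T : ℝ → ℝ) (t h : ℝ) : ℝ :=
  if H : ∃ p : ℝ[X], ∀ q : ℚ, T (q * h + t) = p.eval (q : ℝ) then H.choose.coeff 1 else 0

/-- backward difference -/
def nab (h : ℝ) (φ : ℝ → ℝ) (x : ℝ) : ℝ := φ x - φ (x - h)

/-- invariance under a dilation -/
def Dinv (G : ℝ → ℝ) (γ : ℝ) : Prop := γ ≠ 0 ∧ ∀ x, G (γ * x) = G x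

noncomputable def Psi (Γ e : ℝ → ℝ) (w t s : ℝ) : ℝ :=
  Γ (t / w) * Γ (w * s) -
    (e (t * s) + e (t * (s - w⁻¹)) + e ((t - w) * s) + e ((t - w) * (s - w⁻¹)))

/-- the function of the row lemma -/
def psi (Γ T Te : ℝ → ℝ) (t s : ℝ) : ℝ := T t * Γ s - 2 * (Te (t * s) + Te (t * (s - 1)))

/-- the doubling relation of weight `n` -/
def Wt (n : ℕ) (χ : ℝ → ℝ) : Prop := ∀ s, χ (2 * s) + χ (2 * s - 1) = 2 ^ n * χ s

/-- the six term relation -/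
def Six (G : ℝ → ℝ) : Prop :=
  ∀ (x : ℝ) (α β γ : ℚ), Irrational x → ∀ t s : ℝ,
    ((β : ℝ) - α) * (G ((x + γ) * t) * G ((x + α) * (x + β) * s) +
        G ((x + α) * (x + β) * t) * G ((x + γ) * s)) +
      ((γ : ℝ) - β) * (G ((x + α) * t) * G ((x + β) * (x + γ) * s) +
        G ((x + β) * (x + γ) * t) * G ((x + α) * s)) +
      ((α : ℝ) - γ) * (G ((x + β) * t) * G ((x + γ) * (x + α) * s) +
        G ((x + γ) * (x + α) * t) * G ((x + β) * s)) = 0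

section dil

variable {A : Type} [CommRing A] [Algebra ℝ A]

def Rl (a b c : A) (l1 l2 l3 : ℝ) : Prop :=
  ∀ ψ : A →ₗ[ℝ] ℝ, l1 • (ψ c • (a * b) + ψ (a * b) • c) + l2 • (ψ a • (b * c) + ψ (b * c) • a) +
    l3 • (ψ b • (c * a) + ψ (c * a) • b) = 0

/-- dilations -/
structure Dil (T : ℝ → A) : Prop where
  mul : ∀ x y, x ≠ 0 → y ≠ 0 → T (x * y) = T x * T y
  rat : ∀ q : ℚ, q ≠ 0 → T q = 1
  aug : ∃ ψ : A →ₗ[ℝ] ℝ, ∀ x, x ≠ 0 → ψ (T x) = 1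
  rel : ∀ (x : ℝ) (α β γ : ℚ), Irrational x →
    Rl (T (x + α)) (T (x + β)) (T (x + γ)) (β - α) (γ - β) (α - γ)

def Sm (T : ℝ → A) (y : ℝ) : Prop := ∀ q : ℚ, 1 + q * y ≠ 0 ∧ T (1 + q * y) = 1

def Inj (T : ℝ → A) (x : ℝ) : Prop :=
  (∀ α : ℚ, T (x + α) ≠ 1) ∧ ∀ α β : ℚ, T (x + α) = T (x + β) → α = β

def Den (T : ℝ → A) (x δ : ℝ) : Prop :=
  ∃ e : A, e ≠ 0 ∧ ∀ α : ℚ, δ + α ≠ 0 ∧ T (x + α) = 1 + (δ + α)⁻¹ • e

end dil

/-- the relation for the quadratic form in degree two -/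
structure K2 (b : ℝ →+ ℝ →+ ℝ) : Prop where
  symm : ∀ x y, b x y = b y x
  kne : b 1 1 ≠ 3
  eq : ∀ w a c, w ≠ 0 → b w (w * a) * b w⁻¹ c - b w⁻¹ a * b w (w * c) =
    (3 - b 1 1) * (b (w * c) a - b c (w * a))

def om (b : ℝ →+ ℝ →+ ℝ) (w a c : ℝ) : ℝ := b (w * c) a - b c (w * a)

/-- the wedge product of `f` and `ω` vanishes -/
def Dv (ω : ℝ → ℝ → ℝ) (f : ℝ → ℝ) : Prop :=
  ∀ a c d, f a * ω c d + f c * ω d a + f d * ω a c = 0

def QM (b : ℝ →+ ℝ →+ ℝ) : Prop := ∀ x y, b 1 1 * b (x * y) (x * y) = b x x * b y y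

def MT (G : ℝ → ℝ) : Prop :=
  ∃ M : ℝ → ℝ, (∀ x y, M (x * y) = M x * M y) ∧ ∀ x, G x = M x + M (1 - x)

def Q4 (G : ℝ → ℝ) : Prop := ∃ t : ℝ, ∀ x, G x = 1 - t * (x * (1 - x))

def Q5 (G : ℝ → ℝ) : Prop :=
  ∃ μ : ℝ, ∀ x, G x = μ * (x ^ 4 + (1 - x) ^ 4) + (1 - μ) * (x ^ 5 + (1 - x) ^ 5)

def Rad (G : ℝ → ℝ) : Prop :=
  ∃ O : ValuationSubring ℝ, (∀ q : ℚ, (q : ℝ) ∈ O) ∧ ∃ ρ : O.ValueGroup → ℝ,
    (∀ x ∈ O, ρ (O.valuation x) = 1) ∧ ∀ x, G x = ρ (O.valuation x)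

/-- admissible functions -/
def Adm (G : ℝ → ℝ) : Prop := ∃ g : ℝ → ℝ, HE g ∧ ∀ x, 0 ≤ x → x ≤ 1 → sg g x = G x

theorem RE.w {Γ e o : ℝ → ℝ} (h : RE Γ e o) {w : ℝ} (hw : w ≠ 0) (t s : ℝ) :
    Psi Γ e w t s = o (t * s) - o (t * (s - w⁻¹)) - o ((t - w) * s) + o ((t - w) * (s - w⁻¹)) := by
  have h1 := h (t / w) (w * s)
  have e1 : t / w * (w * s) = t * s := by field_simp
  have e2 : t / w * (w * s - 1) = t * (s - w⁻¹) := by field_simp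
  have e3 : (t / w - 1) * (w * s) = (t - w) * s := by field_simp
  have e4 : (t / w - 1) * (w * s - 1) = (t - w) * (s - w⁻¹) := by field_simp
  rw [e1, e2, e3, e4] at h1
  rw [Psi]
  linarith

theorem RE.kos {Γ e o : ℝ → ℝ} (h : RE Γ e o) {c : ℝ} (hc : c ≠ 0) (t s : ℝ) :
    Psi Γ e 1 t s - Psi Γ e 1 (t - c) s - Psi Γ e 1 t (s - c⁻¹) + Psi Γ e 1 (t - c) (s - c⁻¹) =
      Psi Γ e c t s - Psi Γ e c (t - 1) s - Psi Γ e c t (s - 1) + Psi Γ e c (t - 1) (s - 1) := by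
  simp only [h.w hc, h.w one_ne_zero, inv_one, sub_right_comm t 1 c, sub_right_comm s 1 c⁻¹]
  ring

theorem RE.dbl {Γ e o : ℝ → ℝ} (h : RE Γ e o) {w : ℝ} (hw : w ≠ 0) (t s : ℝ) :
    Psi Γ e (2 * w) t s + Psi Γ e (2 * w) t (s - (2 * w)⁻¹) =
      Psi Γ e w t s + Psi Γ e w (t - w) s := by
  have e1 : s - (2 * w)⁻¹ - (2 * w)⁻¹ = s - w⁻¹ := by field_simp; ring
  have e2 : t - w - w = t - 2 * w := by ring
  simp only [h.w hw, h.w (mul_ne_zero two_ne_zero hw), e1, e2]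
  ring

end Pool.Agent.P.MP_6d4b14_an.CL
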