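import Pool.Agent.P.MP_6d4b14_an.CLDefs

/-! Existence: lines of admissible functions. -/

set_option linter.unusedSectionVars false
set_option linter.unusedVariables false

namespace Pool.Agent.P.MP_6d4b14_an.CL

open scoped Classical
open TR Function Polynomial

theorem Adm.congr {G G' : ℝ → ℝ} (h : Adm G) (e : ∀ x, 0 ≤ x → x ≤ 1 → G' x = G x) : Adm G' := by
  obtain ⟨g, hg, hs⟩ := h
  exact ⟨g, hg, fun x h0 h1 => by rw [hs x h0 h1, e x h0 h1]⟩

theorem adm_mul {M : ℝ → ℝ}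
    (hM : ∀ x y, 0 ≤ x → x ≤ 1 → 0 ≤ y → y ≤ 1 → M (x * y) = M x * M y) :
    Adm fun x => M x + M (1 - x) := by
  refine ⟨M, fun x y a b c d => ?_, fun x _ _ => rfl⟩
  rw [hM x y a b c d, hM x (1 - y) a b (by linarith) (by linarith),
    hM (1 - x) y (by linarith) (by linarith) c d,
    hM (1 - x) (1 - y) (by linarith) (by linarith) (by linarith) (by linarith)]
  simp only [sg]
  ring

theorem adm_line {G D : ℝ → ℝ} {u1 u2 u3 : ℝ} (h12 : u1 ≠ u2) (h13 : u1 ≠ u3) (h23 : u2 ≠ u3)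
    (h1 : Adm fun x => G x + u1 * D x) (h2 : Adm fun x => G x + u2 * D x)
    (h3 : Adm fun x => G x + u3 * D x) (u : ℝ) : Adm fun x => G x + u * D x := by
  obtain ⟨g1, e1, s1⟩ := h1
  obtain ⟨g2, e2, s2⟩ := h2
  obtain ⟨g3, e3, s3⟩ := h3
  have n12 : u1 - u2 ≠ 0 := sub_ne_zero.2 h12
  have n13 : u1 - u3 ≠ 0 := sub_ne_zero.2 h13
  have n23 : u2 - u3 ≠ 0 := sub_ne_zero.2 h23
  obtain ⟨a, b, c, k0, k1, k2⟩ : ∃ a b c : ℝ, a + b + c = 1 ∧ a * u1 + b * u2 + c * u3 = u ∧
      a * u1 ^ 2 + b * u2 ^ 2 + c * u3 ^ 2 = u ^ 2 := by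
    refine ⟨(u - u2) * (u - u3) / ((u1 - u2) * (u1 - u3)),
      -((u - u1) * (u - u3) / ((u1 - u2) * (u2 - u3))),
      (u - u1) * (u - u2) / ((u1 - u3) * (u2 - u3)), ?_, ?_, ?_⟩ <;> field_simp <;> ring
  have hs : ∀ x, 0 ≤ x → x ≤ 1 →
      sg (fun z => a * g1 z + b * g2 z + c * g3 z) x = G x + u * D x := by
    intro x h0 h1
    have t1 := s1 x h0 h1
    have t2 := s2 x h0 h1
    have t3 := s3 x h0 h1
    simp only [sg] at t1 t2 t3 ⊢
    linear_combination a * t1 + b * t2 + c * t3 + G x * k0 + D x * k1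
  refine ⟨fun z => a * g1 z + b * g2 z + c * g3 z, fun x y x0 x1 y0 y1 => ?_, hs⟩
  have t1 := e1 x y x0 x1 y0 y1
  have t2 := e2 x y x0 x1 y0 y1
  have t3 := e3 x y x0 x1 y0 y1
  rw [s1 x x0 x1, s1 y y0 y1] at t1
  rw [s2 x x0 x1, s2 y y0 y1] at t2
  rw [s3 x x0 x1, s3 y y0 y1] at t3
  rw [hs x x0 x1, hs y y0 y1]
  linear_combination a * t1 + b * t2 + c * t3 + G x * G y * k0 +
    (G x * D y + D x * G y) * k1 + D x * D y * k2

theorem ex1_pow (n : ℕ) : Adm fun x => x ^ n + (1 - x) ^ n :=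
  adm_mul (M := fun x => x ^ n) fun x y _ _ _ _ => mul_pow x y n

theorem adm_const (c : ℝ) : Adm fun _ => c := by
  have h := adm_line (G := fun _ => 0) (D := fun _ => 1) (u1 := 0) (u2 := 1) (u3 := 2)
    (by norm_num) (by norm_num) (by norm_num)
    ((adm_mul (M := fun _ => 0) (by simp)).congr fun x _ _ => by simp)
    ((ex1_pow 1).congr fun x _ _ => by simp)
    ((ex1_pow 0).congr fun x _ _ => by norm_num) c
  exact h.congr fun x _ _ => by simp

theorem adm_two (c : ℝ) : Adm fun x => if 0 < x ∧ x < 1 then c else 1 := by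
  have a1 : Adm fun x : ℝ => (1 : ℝ) + 1 * (if 0 < x ∧ x < 1 then 1 else 0) := by
    refine (adm_mul (M := fun x => if x = 0 then 0 else 1) ?_).congr fun x h0 h1 => ?_
    · intro x y _ _ _ _
      by_cases hx : x = 0 <;> by_cases hy : y = 0 <;> simp [hx, hy]
    · rcases h0.eq_or_lt with rfl | h0
      · simp
      rcases h1.eq_or_lt with rfl | h1
      · simp
      have : 1 - x ≠ 0 := by linarith
      simp [h0, h1, h0.ne', this]
  have a2 : Adm fun x : ℝ => (1 : ℝ) + -1 * (if 0 < x ∧ x < 1 then 1 else 0) := by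
    refine (adm_mul (M := fun x => if x = 1 then 1 else 0) ?_).congr fun x h0 h1 => ?_
    · intro x y x0 x1 y0 y1
      by_cases hx : x = 1
      · simp [hx]
      have hx' : x < 1 := lt_of_le_of_ne x1 hx
      have : x * y ≠ 1 := by nlinarith
      simp [hx, this]
    · rcases h0.eq_or_lt with rfl | h0
      · simp
      rcases h1.eq_or_lt with rfl | h1
      · simp
      have : 1 - x ≠ 1 := by linarith
      simp only [h0, h1, h1.ne, this, and_self, if_true, if_false]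
      norm_num
  have h := adm_line (G := fun _ => 1) (D := fun x => if 0 < x ∧ x < 1 then 1 else 0)
    (u1 := 0) (u2 := 1) (u3 := -1) (by norm_num) (by norm_num) (by norm_num)
    ((adm_const 1).congr fun x _ _ => by simp) a1 a2 (c - 1)
  refine h.congr fun x _ _ => ?_
  split_ifs <;> ring

theorem adm_q4 (t : ℝ) : Adm fun x => 1 - t * (x * (1 - x)) := by
  have h := adm_line (G := fun _ => 1) (D := fun x => -(x * (1 - x)))
    (u1 := 0) (u2 := 2) (u3 := 3) (by norm_num) (by norm_num) (by norm_num)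
    ((adm_const 1).congr fun x _ _ => by simp)
    ((ex1_pow 2).congr fun x _ _ => by ring) ((ex1_pow 3).congr fun x _ _ => by ring) t
  exact h.congr fun x _ _ => by ring

theorem adm_q5 (μ : ℝ) :
    Adm fun x => μ * (x ^ 4 + (1 - x) ^ 4) + (1 - μ) * (x ^ 5 + (1 - x) ^ 5) := by
  have h := adm_line (G := fun x => x ^ 5 + (1 - x) ^ 5)
    (D := fun x => (x ^ 4 + (1 - x) ^ 4) - (x ^ 5 + (1 - x) ^ 5))
    (u1 := 1) (u2 := 0) (u3 := 5 / 3) (by norm_num) (by norm_num) (by norm_num)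
    ((ex1_pow 4).congr fun x _ _ => by ring) ((ex1_pow 5).congr fun x _ _ => by ring)
    ((adm_q4 (10 / 3)).congr fun x _ _ => by ring) μ
  exact h.congr fun x _ _ => by ring

theorem exists_s (O : ValuationSubring ℝ) (hq : ∀ q : ℚ, (q : ℝ) ∈ O) :
    ∃ s : ℝ →ₗ[ℚ] ℝ, s 1 = 1 ∧ ∀ x, O.valuation x < 1 → s x = 0 := by
  let V : Submodule ℚ ℝ :=
    { carrier := {x | O.valuation x < 1}
      zero_mem' := by simp
      add_mem' := fun {a b} ha hb => O.valuation.map_add_lt ha hb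
      smul_mem' := fun q x hx => by
        have h1 : O.valuation (q : ℝ) ≤ 1 := (O.valuation_le_one_iff _).2 (hq q)
        show O.valuation (q • x) < 1
        rw [Rat.smul_def, map_mul]
        exact mul_lt_one_of_nonneg_of_lt_one_right h1 zero_le hx }
  have h1 : (1 : ℝ) ∉ V := by
    show ¬ O.valuation 1 < 1
    simp
  obtain ⟨f, hf, hV⟩ := V.exists_dual_map_eq_bot_of_notMem h1 inferInstance
  refine ⟨(Algebra.linearMap ℚ ℝ).comp ((f 1)⁻¹ • f), ?_, fun x hx => ?_⟩
  · simp [hf]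
  · have : f x = 0 := by
      have : f x ∈ V.map f := Submodule.mem_map_of_mem (show x ∈ V from hx)
      rwa [hV, Submodule.mem_bot] at this
    simp [this]

end Pool.Agent.P.MP_6d4b14_an.CL
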