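import Pool.Agent.P.MP_6d4b14_an.CLDefs

/-! Existence: bilinear forms with prescribed graded parts. -/

set_option linter.unusedSectionVars false
set_option linter.unusedVariables false

namespace Pool.Agent.P.MP_6d4b14_an.CL

open scoped Classical
open TR Function Polynomial

theorem CLEx2_sum {ι M : Type} [AddCommGroup M] [Module ℚ M] (G : ι → M →ₗ[ℚ] ℝ) :
    ∃ Φ : M →ₗ[ℚ] ℝ, ∀ u i0, (∀ i, i ≠ i0 → G i u = 0) → Φ u = G i0 u := by
  obtain ⟨g, hg⟩ := LinearMap.exists_leftInverse_of_injective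
    (Finsupp.lcoeFun : (ι →₀ ℝ) →ₗ[ℚ] ι → ℝ)
    (LinearMap.ker_eq_bot.2 fun a b hab => Finsupp.ext fun i => congrFun hab i)
  refine ⟨(Finsupp.lsum ℕ fun _ : ι => (LinearMap.id : ℝ →ₗ[ℚ] ℝ)) ∘ₗ g ∘ₗ LinearMap.pi G, ?_⟩
  intro u i0 h
  have e : LinearMap.pi G u =
      (Finsupp.lcoeFun : (ι →₀ ℝ) →ₗ[ℚ] ι → ℝ) (Finsupp.single i0 (G i0 u)) := by
    funext i
    by_cases hi : i = i0
    · subst hi
      simp
    · simp [h i hi, Finsupp.single_eq_of_ne hi]
  have e2 := LinearMap.congr_fun hg (Finsupp.single i0 (G i0 u))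
  rw [LinearMap.comp_apply, LinearMap.id_apply] at e2
  rw [LinearMap.comp_apply, LinearMap.comp_apply, e, e2]
  simp

theorem CLEx2_proj (O : ValuationSubring ℝ) (hq : ∀ q : ℚ, (q : ℝ) ∈ O) (δ : O.ValueGroup) :
    ∃ π : ℝ →ₗ[ℚ] ℝ, (∀ x, O.valuation x < δ → π x = 0) ∧
      (δ ≠ 0 → ∀ x, O.valuation (x - π x) < δ) := by
  by_cases hδ : δ = 0
  · exact ⟨0, fun _ _ => rfl, fun h => absurd hδ h⟩
  let V : Submodule ℚ ℝ :=
    { carrier := {x | O.valuation x < δ}
      zero_mem' := by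
        change O.valuation 0 < δ
        rw [map_zero]
        exact zero_lt_iff.2 hδ
      add_mem' := fun {a b} ha hb => O.valuation.map_add_lt ha hb
      smul_mem' := fun q x hx => by
        change O.valuation (q • x) < δ
        rw [Rat.smul_def, map_mul]
        exact lt_of_le_of_lt
          (mul_le_of_le_one_left' ((O.valuation_le_one_iff _).2 (hq q))) hx }
  obtain ⟨g, hg⟩ := LinearMap.exists_extend (LinearMap.id : V →ₗ[ℚ] V)
  refine ⟨LinearMap.id - V.subtype ∘ₗ g, fun x hx => ?_, fun _ x => ?_⟩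
  · have e := LinearMap.congr_fun hg ⟨x, hx⟩
    rw [LinearMap.comp_apply, LinearMap.id_apply, Submodule.subtype_apply] at e
    rw [LinearMap.sub_apply, LinearMap.comp_apply, LinearMap.id_apply, e, Submodule.subtype_apply,
      sub_self]
  · rw [LinearMap.sub_apply, LinearMap.comp_apply, LinearMap.id_apply, sub_sub_cancel]
    exact (g x).2

theorem CLEx2_one (O : ValuationSubring ℝ) (hq : ∀ q : ℚ, (q : ℝ) ∈ O) (s : ℝ →ₗ[ℚ] ℝ)
    (hs : ∀ x, O.valuation x < 1 → s x = 0) (W : O.ValueGroup → O.ValueGroup → ℝ)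
    {z : ℝ} (hz : z ≠ 0) :
    ∃ B : ℝ →ₗ[ℚ] ℝ →ₗ[ℚ] ℝ, ∀ a b, O.valuation (a * b) ≤ O.valuation z →
      B a b = W (O.valuation a) (O.valuation b) * s (a * b / z) := by
  choose π h1 h2 using CLEx2_proj O hq
  have hvz : O.valuation z ≠ 0 := (_root_.map_ne_zero _).2 hz
  have hs' : ∀ x, O.valuation x < O.valuation z → s (x * z⁻¹) = 0 := by
    intro x hx
    apply hs
    rw [map_mul, map_inv₀, ← div_eq_mul_inv]
    exact (div_lt_one₀ (zero_lt_iff.2 hvz)).2 hx
  obtain ⟨Φ, hΦ⟩ := CLEx2_sum (fun δ : O.ValueGroup => if δ = 0 then 0 else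
    LinearMap.mulLeft ℚ (W δ (O.valuation z / δ)) ∘ₗ s ∘ₗ LinearMap.mulRight ℚ z⁻¹ ∘ₗ
      LinearMap.mul' ℚ ℝ ∘ₗ TensorProduct.map (π δ) (π (O.valuation z / δ)))
  refine ⟨TensorProduct.curry Φ, fun a b hab => ?_⟩
  by_cases ha : a = 0
  · simp [ha]
  by_cases hb : b = 0
  · simp [hb]
  have hva : O.valuation a ≠ 0 := (_root_.map_ne_zero _).2 ha
  have hvb : O.valuation b ≠ 0 := (_root_.map_ne_zero _).2 hb
  rw [map_mul] at hab
  rw [TensorProduct.curry_apply, hΦ _ (O.valuation a), if_neg hva]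
  · simp only [LinearMap.comp_apply, TensorProduct.map_tmul, LinearMap.mul'_apply,
      LinearMap.mulRight_apply, LinearMap.mulLeft_apply]
    rcases hab.lt_or_eq with hlt | heq
    · have e1 : O.valuation b < O.valuation z / O.valuation a := by
        rw [lt_div_iff₀ (zero_lt_iff.2 hva), mul_comm]
        exact hlt
      rw [h1 _ b e1, div_eq_mul_inv (a * b), hs' (a * b) (by rw [map_mul]; exact hlt)]
      simp
    · have e1 : O.valuation z / O.valuation a = O.valuation b := by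
        rw [← heq, mul_div_cancel_left₀ _ hva]
      rw [e1]
      have r1 := h2 _ hva a
      have r2 := h2 _ hvb b
      generalize π (O.valuation a) a = a' at r1 ⊢
      generalize π (O.valuation b) b = b' at r2 ⊢
      have e2 : a' * b' * z⁻¹ =
          a * b / z - (a - a') * b * z⁻¹ - a * (b - b') * z⁻¹ + (a - a') * (b - b') * z⁻¹ := by
        ring
      have k1 : O.valuation ((a - a') * b) < O.valuation z := by
        rw [map_mul, ← heq]
        exact mul_lt_mul_of_pos_right r1 (zero_lt_iff.2 hvb)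
      have k2 : O.valuation (a * (b - b')) < O.valuation z := by
        rw [map_mul, ← heq]
        exact mul_lt_mul_of_pos_left r2 (zero_lt_iff.2 hva)
      have k3 : O.valuation ((a - a') * (b - b')) < O.valuation z := by
        refine lt_of_le_of_lt ?_ k1
        rw [map_mul, map_mul]
        exact mul_le_mul_right r2.le _
      rw [e2, map_add, map_sub, map_sub, hs' _ k1, hs' _ k2, hs' _ k3]
      ring
  · intro δ hδ
    by_cases h0 : δ = 0
    · rw [if_pos h0, LinearMap.zero_apply]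
    rw [if_neg h0]
    simp only [LinearMap.comp_apply, TensorProduct.map_tmul, LinearMap.mul'_apply,
      LinearMap.mulRight_apply, LinearMap.mulLeft_apply]
    rcases lt_or_gt_of_ne hδ with hlt | hlt
    · have e1 : O.valuation b < O.valuation z / δ := by
        rw [lt_div_iff₀ (zero_lt_iff.2 h0), mul_comm]
        exact lt_of_lt_of_le (mul_lt_mul_of_pos_right hlt (zero_lt_iff.2 hvb)) hab
      rw [h1 _ b e1]
      simp
    · rw [h1 _ a hlt]
      simp

theorem exists_beta (O : ValuationSubring ℝ) (hq : ∀ q : ℚ, (q : ℝ) ∈ O) (s : ℝ →ₗ[ℚ] ℝ)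
    (hs : ∀ x, O.valuation x < 1 → s x = 0) (W : O.ValueGroup → O.ValueGroup → ℝ)
    (hW : ∀ a b, W a b = W b a) {z : ℝ} (hz : z ≠ 0) :
    ∃ β : ℝ →+ ℝ →+ ℝ, (∀ a b, β a b = β b a) ∧ ∀ a b, O.valuation (a * b) ≤ O.valuation z →
      β a b = W (O.valuation a) (O.valuation b) * s (a * b / z) := by
  obtain ⟨B, hB⟩ := CLEx2_one O hq s hs W hz
  refine ⟨AddMonoidHom.mk' (fun a => AddMonoidHom.mk' (fun b => (B a b + B b a) / 2) ?_) ?_,
    ?_, ?_⟩
  · intro b c
    simp only [map_add, LinearMap.add_apply]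
    ring
  · intro a b
    ext c
    simp only [map_add, LinearMap.add_apply, AddMonoidHom.mk'_apply, AddMonoidHom.add_apply]
    ring
  · intro a b
    simp only [AddMonoidHom.mk'_apply]
    ring
  · intro a b hab
    simp only [AddMonoidHom.mk'_apply]
    rw [hB a b hab, hB b a (by rwa [mul_comm]), hW (O.valuation b), mul_comm b a]
    ring

end Pool.Agent.P.MP_6d4b14_an.CL
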