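import Pool.Agent.P.MP_6d4b14_an.CLEx1
import Pool.Agent.P.MP_6d4b14_an.CLEx2

/-! Existence: radial functions. -/

set_option linter.unusedSectionVars false
set_option linter.unusedVariables false

namespace Pool.Agent.P.MP_6d4b14_an.CL

open scoped Classical
open TR Function Polynomial

theorem CLEx3_gt (O : ValuationSubring ℝ) {x : ℝ} (hx : x ∉ O) : 1 < O.valuation x := by
  rw [← O.valuation_le_one_iff] at hx
  exact not_le.mp hx

theorem CLEx3_le (O : ValuationSubring ℝ) {x : ℝ} (hx : x ∈ O) : O.valuation x ≤ 1 :=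
  (O.valuation_le_one_iff x).mpr hx

theorem CLEx3_eq (O : ValuationSubring ℝ) {a b : ℝ} (h : O.valuation (a - b) < O.valuation b) :
    O.valuation a = O.valuation b :=
  Valuation.map_eq_of_sub_lt _ h

theorem CLEx3_div (O : ValuationSubring ℝ) {a b : ℝ} (h : O.valuation a < O.valuation b) :
    O.valuation (a / b) < 1 := by
  have hb : 0 < O.valuation b := lt_of_le_of_lt zero_le h
  rw [map_div₀, div_lt_one₀ hb]
  exact h

/-- a representative of the class of `z` -/
noncomputable def CLEx3_rep (O : ValuationSubring ℝ) (z : ℝ) : ℝ :=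
  Classical.epsilon fun r => O.valuation (r - z) < O.valuation z

theorem CLEx3_rep_spec (O : ValuationSubring ℝ) {z : ℝ} (hz : z ∉ O) :
    O.valuation (CLEx3_rep O z - z) < O.valuation z := by
  refine Classical.epsilon_spec (p := fun r => O.valuation (r - z) < O.valuation z) ⟨z, ?_⟩
  rw [sub_self, map_zero]
  exact lt_trans zero_lt_one (CLEx3_gt O hz)

theorem CLEx3_rep_eq (O : ValuationSubring ℝ) {a b : ℝ}
    (h : O.valuation (a - b) < O.valuation b) : CLEx3_rep O a = CLEx3_rep O b := by
  have e := CLEx3_eq O h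
  have : (fun r => O.valuation (r - a) < O.valuation a) =
      fun r => O.valuation (r - b) < O.valuation b := by
    funext r
    apply propext
    rw [e]
    constructor
    · intro hr
      have e2 : r - b = (r - a) + (a - b) := by ring
      rw [e2]
      exact Valuation.map_add_lt _ hr h
    · intro hr
      have e2 : r - a = (r - b) - (a - b) := by ring
      rw [e2]
      exact Valuation.map_sub_lt _ hr h
  unfold CLEx3_rep
  rw [this]

theorem CLEx3_lt_mul (O : ValuationSubring ℝ) {x y : ℝ} (hx : x ∉ O) (hy : y ∉ O) :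
    O.valuation x < O.valuation (x * y) := by
  have h0 : 0 < O.valuation x := lt_trans zero_lt_one (CLEx3_gt O hx)
  rw [map_mul]
  exact lt_mul_of_one_lt_right h0 (CLEx3_gt O hy)

theorem exists_o (O : ValuationSubring ℝ) (hq : ∀ q : ℚ, (q : ℝ) ∈ O) (ρ : O.ValueGroup → ℝ)
    (hρ : ∀ x ∈ O, ρ (O.valuation x) = 1) (s : ℝ →ₗ[ℚ] ℝ) (h1 : s 1 = 1)
    (hs : ∀ x, O.valuation x < 1 → s x = 0) : ∃ o : ℝ → ℝ,
      (∀ z, ∀ c ∈ O, o z - o (z - c) = ρ (O.valuation z) * s c) ∧
      ∀ x y z, x ∉ O → y ∉ O → O.valuation (z - x * y) < O.valuation (x * y) →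
        o z - o (z - x) - o (z - y) + o (z - x - y) =
          ρ (O.valuation x) * ρ (O.valuation y) - ρ (O.valuation (x * y)) := by
  have hW : ∀ a b : O.ValueGroup, ρ a * ρ b - ρ (a * b) = ρ b * ρ a - ρ (b * a) := by
    intro a b
    rw [mul_comm (ρ a), mul_comm a]
  have hb := fun (z : ℝ) (hz : z ≠ 0) =>
    exists_beta O hq s hs (fun a b => ρ a * ρ b - ρ (a * b)) hW hz
  choose! B hB1 hB2 using hb
  have hρ1 : ρ 1 = 1 := by
    have := hρ 1 O.one_mem
    rwa [map_one] at this
  have hne : ∀ z, z ∉ O → CLEx3_rep O z ≠ 0 := by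
    intro z hz h0
    have e := CLEx3_eq O (CLEx3_rep_spec O hz)
    rw [h0, map_zero] at e
    exact absurd (CLEx3_gt O hz) (by rw [← e]; exact not_lt.mpr zero_le)
  refine ⟨fun z => ρ (O.valuation z) * s z +
    if z ∈ O then 0 else B (CLEx3_rep O z) z z / 2, ?_, ?_⟩
  · intro z c hc
    by_cases hz : z ∈ O
    · have hzc : z - c ∈ O := O.toSubring.sub_mem hz hc
      simp only [if_pos hz, if_pos hzc, hρ z hz, hρ _ hzc, map_sub]
      ring
    · have hlt : O.valuation c < O.valuation z := lt_of_le_of_lt (CLEx3_le O hc) (CLEx3_gt O hz)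
      have hd : O.valuation (z - c - z) < O.valuation z := by
        have e : z - c - z = -c := by ring
        rw [e, Valuation.map_neg]
        exact hlt
      have hv : O.valuation (z - c) = O.valuation z := CLEx3_eq O hd
      have hzc : z - c ∉ O := by
        intro hm
        have := CLEx3_le O hm
        rw [hv] at this
        exact absurd (CLEx3_gt O hz) (not_lt.mpr this)
      have hr : O.valuation (CLEx3_rep O z) = O.valuation z := CLEx3_eq O (CLEx3_rep_spec O hz)
      have h0 : 0 < O.valuation z := lt_trans zero_lt_one (CLEx3_gt O hz)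
      have b1 : B (CLEx3_rep O z) z c = 0 := by
        rw [hB2 _ (hne z hz) z c (by
          rw [hr, map_mul]
          exact mul_le_of_le_one_right' (CLEx3_le O hc))]
        rcases (CLEx3_le O hc).eq_or_lt with h | h
        · simp only [h, hρ1, mul_one, sub_self, zero_mul]
        · rw [hs _ (CLEx3_div O (by
            rw [hr, map_mul]
            exact mul_lt_of_lt_one_right h0 h)), mul_zero]
      have b2 : B (CLEx3_rep O z) c c = 0 := by
        have hcc : O.valuation (c * c) < O.valuation (CLEx3_rep O z) := by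
          rw [hr]
          exact lt_of_le_of_lt (CLEx3_le O (O.mul_mem _ _ hc hc)) (CLEx3_gt O hz)
        rw [hB2 _ (hne z hz) c c hcc.le, hs _ (CLEx3_div O hcc), mul_zero]
      have b3 : B (CLEx3_rep O z) c z = 0 := by rw [hB1 _ (hne z hz), b1]
      simp only [if_neg hz, if_neg hzc, hv, CLEx3_rep_eq O hd, map_sub, AddMonoidHom.sub_apply,
        b1, b2, b3]
      ring
  · intro x y z hx hy hz
    have hxl : O.valuation x < O.valuation (x * y) := CLEx3_lt_mul O hx hy
    have hyl : O.valuation y < O.valuation (x * y) := by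
      rw [mul_comm]
      exact CLEx3_lt_mul O hy hx
    have hp : x * y ∉ O := by
      intro hm
      exact absurd (lt_trans (CLEx3_gt O hx) hxl) (not_lt.mpr (CLEx3_le O hm))
    have d2 : O.valuation (z - x - x * y) < O.valuation (x * y) := by
      have e : z - x - x * y = (z - x * y) - x := by ring
      rw [e]
      exact Valuation.map_sub_lt _ hz hxl
    have d3 : O.valuation (z - y - x * y) < O.valuation (x * y) := by
      have e : z - y - x * y = (z - x * y) - y := by ring
      rw [e]
      exact Valuation.map_sub_lt _ hz hyl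
    have d4 : O.valuation (z - x - y - x * y) < O.valuation (x * y) := by
      have e : z - x - y - x * y = (z - x - x * y) - y := by ring
      rw [e]
      exact Valuation.map_sub_lt _ d2 hyl
    have hout : ∀ w, O.valuation (w - x * y) < O.valuation (x * y) → w ∉ O := by
      intro w hw hm
      have := CLEx3_le O hm
      rw [CLEx3_eq O hw] at this
      exact absurd (CLEx3_gt O hp) (not_lt.mpr this)
    have hsp := CLEx3_rep_spec O hp
    have hr : O.valuation (CLEx3_rep O (x * y)) = O.valuation (x * y) := CLEx3_eq O hsp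
    have hr0 := hne _ hp
    have hs1 : s (x * y / CLEx3_rep O (x * y)) = 1 := by
      have e : x * y / CLEx3_rep O (x * y) =
          1 - (CLEx3_rep O (x * y) - x * y) / CLEx3_rep O (x * y) := by
        field_simp
        ring
      rw [e, map_sub, h1, hs _ (CLEx3_div O (by rw [hr]; exact hsp)), sub_zero]
    have b1 : B (CLEx3_rep O (x * y)) x y =
        ρ (O.valuation x) * ρ (O.valuation y) - ρ (O.valuation (x * y)) := by
      rw [hB2 _ hr0 x y hr.ge, hs1, mul_one, map_mul]
    have b2 := hB1 _ hr0 y x
    have b3 := hB1 _ hr0 x z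
    have b4 := hB1 _ hr0 y z
    simp only [if_neg (hout _ hz), if_neg (hout _ d2), if_neg (hout _ d3), if_neg (hout _ d4),
      CLEx3_eq O hz, CLEx3_eq O d2, CLEx3_eq O d3, CLEx3_eq O d4, CLEx3_rep_eq O hz,
      CLEx3_rep_eq O d2, CLEx3_rep_eq O d3, CLEx3_rep_eq O d4, map_sub, AddMonoidHom.sub_apply]
    rw [← b1]
    linear_combination b2 / 2

theorem adm_rad {G : ℝ → ℝ} (h : Rad G) : Adm G := by
  obtain ⟨O, hq, ρ, hρ, hG⟩ := h
  obtain ⟨s, h1, hs⟩ := exists_s O hq
  obtain ⟨o, ho1, ho2⟩ := exists_o O hq ρ hρ s h1 hs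
  let g : ℝ → ℝ := fun z => (o z - o (-z)) / 2
  have godd : ∀ z, g (-z) = -g z := by
    intro z
    simp only [g, neg_neg]
    ring
  have g1 : ∀ z, ∀ c ∈ O, g z - g (z - c) = ρ (O.valuation z) * s c := by
    intro z c hc
    have a1 := ho1 z c hc
    have a2 := ho1 (-z) (-c) (O.neg_mem _ hc)
    have e : -z - -c = -(z - c) := by ring
    rw [e, Valuation.map_neg, map_neg] at a2
    simp only [g]
    linear_combination a1 / 2 - a2 / 2
  have hsg : ∀ t, sg g t = G t := by
    intro t
    have a := g1 t 1 O.one_mem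
    have e : 1 - t = -(t - 1) := by ring
    rw [sg, e, godd, hG, ← sub_eq_add_neg, a, h1, mul_one]
  have hin : ∀ x y, x ∈ O →
      g (x * y) + g (x * (1 - y)) + g ((1 - x) * y) + g ((1 - x) * (1 - y)) = G x * G y := by
    intro x y hx
    have hx1 : x - 1 ∈ O := O.toSubring.sub_mem hx O.one_mem
    have a1 := g1 (x * y) x hx
    have a2 := g1 ((x - 1) * y) (x - 1) hx1
    have e1 : x * (1 - y) = -(x * y - x) := by ring
    have e2 : (1 - x) * y = -((x - 1) * y) := by ring
    have e3 : (1 - x) * (1 - y) = (x - 1) * y - (x - 1) := by ring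
    rw [e1, e2, e3, godd, godd, hG, hG, hρ x hx, one_mul]
    rw [map_mul] at a1 a2
    have hsx : s (x - 1) = s x - 1 := by rw [map_sub, h1]
    rcases (CLEx3_le O hx).eq_or_lt with hu | hu
    · rcases (CLEx3_le O hx1).eq_or_lt with hu1 | hu1
      · rw [hu, one_mul] at a1
        rw [hu1, one_mul, hsx] at a2
        linear_combination a1 - a2
      · have z1 := hs _ hu1
        have z2 : s x = 1 := by linarith
        rw [hu, one_mul, z2] at a1
        rw [z1] at a2
        linear_combination a1 - a2
    · have z1 := hs _ hu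
      have hu1 : O.valuation (x - 1) = 1 := by
        have e : x - 1 = -(1 - x) := by ring
        rw [e, Valuation.map_neg]
        exact Valuation.map_one_sub_of_lt _ hu
      rw [z1] at a1
      rw [hu1, one_mul, hsx, z1] at a2
      linear_combination a1 - a2
  refine ⟨g, ?_, fun x _ _ => hsg x⟩
  intro x y _ _ _ _
  rw [hsg, hsg]
  by_cases hx : x ∈ O
  · exact hin x y hx
  by_cases hy : y ∈ O
  · have a := hin y x hy
    rw [mul_comm y x, mul_comm y (1 - x), mul_comm (1 - y) x, mul_comm (1 - y) (1 - x)] at a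
    linear_combination a
  have hxl : O.valuation x < O.valuation (x * y) := CLEx3_lt_mul O hx hy
  have hyl : O.valuation y < O.valuation (x * y) := by
    rw [mul_comm]
    exact CLEx3_lt_mul O hy hx
  have hnx : -x ∉ O := fun hm => hx (by simpa using O.neg_mem _ hm)
  have c1 := ho2 x y (x * y) hx hy (by
    rw [sub_self, map_zero]
    exact lt_of_le_of_lt zero_le hxl)
  have hvn : O.valuation (-x * y) = O.valuation (x * y) := by
    rw [neg_mul, Valuation.map_neg]
  have c2 := ho2 (-x) y (y - x * y) hnx hy (by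
    have e : y - x * y - -x * y = y := by ring
    rw [e, hvn]
    exact hyl)
  have c3 := g1 (x * y - x - y + 1) 1 O.one_mem
  have hv : O.valuation (x * y - x - y + 1) = O.valuation (x * y) := by
    apply CLEx3_eq
    have e : x * y - x - y + 1 - x * y = 1 - x - y := by ring
    rw [e]
    refine Valuation.map_sub_lt _ (Valuation.map_sub_lt _ ?_ hxl) hyl
    rw [map_one]
    exact lt_trans (CLEx3_gt O hx) hxl
  have e1 : x * (1 - y) = -(x * y - x) := by ring
  have e2 : (1 - x) * y = -(x * y - y) := by ring
  have e3 : (1 - x) * (1 - y) = x * y - x - y + 1 := by ring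
  have f1 : y - x * y = -(x * y - y) := by ring
  have f2 : -(x * y - y) - -x = -(x * y - x - y) := by ring
  have f3 : -(x * y - y) - y = -(x * y) := by ring
  have f4 : -(x * y - x - y) - y = -(x * y - x) := by ring
  have f5 : x * y - x - y + 1 - 1 = x * y - x - y := by ring
  rw [hvn, Valuation.map_neg, f1, f2, f3, f4] at c2
  rw [hv, h1, f5] at c3
  rw [e1, e2, e3, godd, godd, hG, hG]
  simp only [g] at c3 ⊢
  linear_combination c1 / 2 + c2 / 2 + c3

end Pool.Agent.P.MP_6d4b14_an.CL
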