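import Pool.Agent.P.MP_6d4b14_an.CLCl

/-! Extension of `G` to the real line. -/

set_option linter.unusedSectionVars false
set_option linter.unusedVariables false

namespace Pool.Agent.P.MP_6d4b14_an.CL

open scoped Classical
open TR Function Polynomial

theorem CLExt_step {G : ℝ → ℝ} {d : ℝ} (hd : 0 < d)
    (h : ∀ x : ℝ, 0 ≤ x → x + d ≤ 1 → G (x + d) = G x) (k : ℕ) :
    ∀ y : ℝ, 0 ≤ y → y + k * d ≤ 1 → G (y + k * d) = G y := by
  induction k with
  | zero => intro y _ _; simp
  | succ k ih =>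
    intro y hy h1
    have hk : (0 : ℝ) ≤ k * d := by positivity
    have e : y + ((k + 1 : ℕ) : ℝ) * d = (y + k * d) + d := by push_cast; ring
    rw [e] at h1 ⊢
    rw [h _ (by linarith) h1, ih y hy (by linarith)]

theorem CLExt_van {f : ℝ → ℝ} {d : ℝ} (hd : 0 < d) (hp : ∀ x, f (x + d) = f x)
    (h0 : ∀ x, 0 ≤ x → x < d → f x = 0) (x : ℝ) : f x = 0 := by
  have hper : Function.Periodic f d := hp
  have h1 := hper.sub_zsmul_eq (x := x) (toIcoDiv hd 0 x)
  rw [self_sub_toIcoDiv_zsmul] at h1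
  have h2 := toIcoMod_mem_Ico' hd x
  rw [← h1]
  exact h0 _ h2.1 h2.2

theorem ext_per {G : ℝ → ℝ} (hs : ∀ x, 0 ≤ x → x ≤ 1 → G (1 - x) = G x)
    (hp : ∀ ε : ℝ, 0 < ε → ∃ d : ℝ, 0 < d ∧ d < ε ∧
      ∀ x : ℝ, 0 ≤ x → x + d ≤ 1 → G (x + d) = G x) :
    ∃ G' : ℝ → ℝ, (∀ x, 0 ≤ x → x ≤ 1 → G' x = G x) ∧ (∀ x, G' (1 - x) = G' x) ∧ Cl G' ∧
      ∃ p, p ≠ 0 ∧ p ∈ Per G' := by
  obtain ⟨d0, hd0, hd1, hd⟩ := hp (1 / 2) (by norm_num)
  have hper : ∀ x, G (toIcoMod hd0 0 (x + d0)) = G (toIcoMod hd0 0 x) := fun x => by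
    rw [toIcoMod_add_right]
  have hag : ∀ x, 0 ≤ x → x ≤ 1 → G (toIcoMod hd0 0 x) = G x := by
    intro x hx0 hx1
    have h1 := toIcoMod_add_toIcoDiv_zsmul hd0 0 x
    have h2 := toIcoMod_mem_Ico' hd0 x
    have h3 : 0 ≤ toIcoDiv hd0 0 x := by
      by_contra hneg
      have h4 : toIcoDiv hd0 0 x ≤ -1 := by omega
      have h5 : ((toIcoDiv hd0 0 x : ℤ) : ℝ) ≤ -1 := by exact_mod_cast h4
      rw [zsmul_eq_mul] at h1
      nlinarith [h2.2]
    obtain ⟨k, hk⟩ := Int.eq_ofNat_of_zero_le h3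
    rw [hk, zsmul_eq_mul, Int.cast_natCast] at h1
    have h6 := CLExt_step hd0 hd k _ h2.1 (by rw [h1]; exact hx1)
    rw [h1] at h6
    exact h6.symm
  refine ⟨fun x => G (toIcoMod hd0 0 x), hag, ?_, ?_, d0, hd0.ne', hper⟩
  · intro x
    have := CLExt_van (f := fun x => G (toIcoMod hd0 0 (1 - x)) - G (toIcoMod hd0 0 x)) hd0
      (fun y => by
        have e : 1 - y = 1 - (y + d0) + d0 := by ring
        rw [hper y, e, hper])
      (fun y hy0 hy1 => by
        rw [hag y hy0 (by linarith), hag (1 - y) (by linarith) (by linarith),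
          hs y hy0 (by linarith), sub_self]) x
    simpa [sub_eq_zero] using this
  · apply cl_of_per
    intro δ hδ
    obtain ⟨d, h0, h1, h2⟩ := hp (min δ (1 / 2)) (lt_min hδ (by norm_num))
    have h3 : d < 1 / 2 := lt_of_lt_of_le h1 (min_le_right _ _)
    refine ⟨d, h0, lt_of_lt_of_le h1 (min_le_left _ _), fun x => ?_⟩
    have := CLExt_van (f := fun x => G (toIcoMod hd0 0 (x + d)) - G (toIcoMod hd0 0 x)) hd0
      (fun y => by
        rw [hper y, add_right_comm, hper])
      (fun y hy0 hy1 => by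
        rw [hag y hy0 (by linarith), hag (y + d) (by linarith) (by linarith),
          h2 y hy0 (by linarith), sub_self]) x
    simpa [sub_eq_zero] using this

theorem CLExt_grid {G : ℝ → ℝ} {n : ℕ}
    (h : ∀ x h : ℝ, 0 < x → 0 < h → x + n * h < 1 → (fwdDiff h)^[n] G x = 0)
    {y s : ℝ} (hy : 0 < y) (hs : 0 < s) (N : ℕ) (hN : y + N * s < 1) :
    ∃ r : ℝ[X], r.natDegree ≤ n ∧ ∀ k : ℕ, k ≤ N → r.eval (k : ℝ) = G (y + k * s) := by
  refine ⟨∑ j ∈ Finset.range n, C ((fwdDiff s)^[j] G y / (j.factorial : ℝ)) * descPochhammer ℝ j,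
    ?_, ?_⟩
  · apply Polynomial.natDegree_sum_le_of_forall_le
    intro j hj
    refine (Polynomial.natDegree_C_mul_le _ _).trans ?_
    rw [descPochhammer_natDegree]
    exact (Finset.mem_range.1 hj).le
  · intro k hk
    have h1 := shift_eq_sum_fwdDiff_iter s G k y
    rw [nsmul_eq_mul] at h1
    have hz : ∀ j, n ≤ j → j ≤ N → (fwdDiff s)^[j] G y = 0 := by
      intro j hj hjN
      obtain ⟨i, rfl⟩ := Nat.exists_eq_add_of_le' hj
      rw [Function.iterate_add_apply, fwdDiff_iter_eq_sum_shift]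
      apply Finset.sum_eq_zero
      intro l hl
      have hl' : l ≤ i := Nat.lt_succ_iff.1 (Finset.mem_range.1 hl)
      have h2 : ((l : ℝ) + n) ≤ N := by exact_mod_cast (by omega : l + n ≤ N)
      have h3 : (0 : ℝ) ≤ l * s := by positivity
      rw [nsmul_eq_mul, h _ _ (by linarith) hs (by nlinarith), smul_zero]
    have hterm : ∀ j : ℕ, (C ((fwdDiff s)^[j] G y / (j.factorial : ℝ)) *
        descPochhammer ℝ j).eval (k : ℝ) = (k.choose j : ℝ) * (fwdDiff s)^[j] G y := by
      intro j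
      have hf : (j.factorial : ℝ) ≠ 0 := by exact_mod_cast j.factorial_ne_zero
      rw [eval_mul, eval_C, descPochhammer_eval_eq_descFactorial,
        Nat.descFactorial_eq_factorial_mul_choose]
      push_cast
      field_simp
    rw [h1, eval_finsetSum]
    simp only [hterm, nsmul_eq_mul]
    have hA : ∑ j ∈ Finset.range n, (k.choose j : ℝ) * (fwdDiff s)^[j] G y =
        ∑ j ∈ Finset.range (n + k + 1), (k.choose j : ℝ) * (fwdDiff s)^[j] G y := by
      apply Finset.sum_subset
      · exact Finset.range_mono (by omega)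
      · intro j _ hj
        have hj' : n ≤ j := by simpa using hj
        by_cases hjk : j ≤ k
        · rw [hz j hj' (hjk.trans hk), mul_zero]
        · rw [Nat.choose_eq_zero_of_lt (by omega), Nat.cast_zero, zero_mul]
    have hB : ∑ j ∈ Finset.range (k + 1), (k.choose j : ℝ) * (fwdDiff s)^[j] G y =
        ∑ j ∈ Finset.range (n + k + 1), (k.choose j : ℝ) * (fwdDiff s)^[j] G y := by
      apply Finset.sum_subset
      · exact Finset.range_mono (by omega)
      · intro j _ hj
        have hj' : k + 1 ≤ j := by simpa using hj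
        rw [Nat.choose_eq_zero_of_lt (by omega), Nat.cast_zero, zero_mul]
    rw [hA, hB]

theorem CLExt_line_pos {G : ℝ → ℝ} {n : ℕ}
    (h : ∀ x h : ℝ, 0 < x → 0 < h → x + n * h < 1 → (fwdDiff h)^[n] G x = 0)
    {u : ℝ} (hu : 0 < u) :
    ∃ p : ℝ[X], ∀ q : ℚ, |(q : ℝ) * u| < 1 / 2 → p.eval (q : ℝ) = G (1 / 2 + q * u) := by
  obtain ⟨m, hm⟩ := exists_nat_gt (2 * (n : ℝ) * u)
  have hm0 : (0 : ℝ) < m := lt_of_le_of_lt (by positivity) hm
  have hnm : (n : ℝ) * (u / m) < 1 / 2 := by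
    rw [← mul_div_assoc, div_lt_iff₀ hm0]; linarith
  obtain ⟨r0, hr0, hr0'⟩ := CLExt_grid h (y := 1 / 2) (s := u / m) (by norm_num)
    (by positivity) n (by linarith)
  refine ⟨r0.comp (C (m : ℝ) * X), fun q hq => ?_⟩
  have hb : (0 : ℝ) < q.den := by exact_mod_cast q.den_pos
  have hqe : (q : ℝ) = q.num / q.den := by exact_mod_cast (Rat.num_div_den q).symm
  set s : ℝ := u / (m * q.den) with hsd
  have hs : 0 < s := by positivity
  set K : ℕ := max (q.num.natAbs * m) (n * q.den) with hK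
  have hKs : (K : ℝ) * s < 1 / 2 := by
    rcases max_choice (q.num.natAbs * m) (n * q.den) with h1 | h1
    · rw [hK, h1]
      have e : ((q.num.natAbs * m : ℕ) : ℝ) * s = |(q : ℝ) * u| := by
        rw [abs_mul, abs_of_pos hu, hqe, abs_div, abs_of_pos hb, hsd]
        push_cast
        rw [Nat.cast_natAbs]
        push_cast
        field_simp
      rw [e]; exact hq
    · rw [hK, h1]
      have e : ((n * q.den : ℕ) : ℝ) * s = (n : ℝ) * (u / m) := by
        rw [hsd]; push_cast; field_simp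
      rw [e]; exact hnm
  obtain ⟨r, hr, hr'⟩ := CLExt_grid h (y := 1 / 2 - K * s) (s := s) (by linarith) hs (2 * K)
    (by push_cast; linarith)
  have hcomp : r.comp (C (q.den : ℝ) * X + C (K : ℝ)) = r0 := by
    apply Polynomial.eq_of_natDegree_lt_card_of_eval_eq _ _
      (f := fun j : Fin (n + 1) => ((j : ℕ) : ℝ))
    · intro i j hij
      exact Fin.ext (Nat.cast_injective (R := ℝ) hij)
    · intro j
      have hj : (j : ℕ) ≤ n := Nat.lt_succ_iff.1 j.2
      have h1 : q.den * j + K ≤ 2 * K := by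
        have : n * q.den ≤ K := le_max_right _ _
        have : q.den * j ≤ n * q.den := by rw [mul_comm]; exact Nat.mul_le_mul_right _ hj
        omega
      have h2 := hr' _ h1
      simp only [eval_comp, eval_add, eval_mul, eval_C, eval_X]
      push_cast at h2
      rw [h2, hr0' j hj]
      congr 1
      rw [hsd]; field_simp; ring
    · rw [Fintype.card_fin]
      refine Nat.lt_succ_of_le (max_le ?_ hr0)
      refine natDegree_comp_le.trans ?_
      have : (C (q.den : ℝ) * X + C (K : ℝ)).natDegree ≤ 1 := Polynomial.natDegree_linear_le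
      calc r.natDegree * _ ≤ n * 1 := Nat.mul_le_mul hr this
        _ = n := mul_one n
  have h3 : q.num.natAbs * m ≤ K := le_max_left _ _
  have h4 : (q.num.natAbs : ℤ) * m ≤ K := by exact_mod_cast h3
  have h5 : 0 ≤ q.num * m + K := by
    have : -q.num ≤ (q.num.natAbs : ℤ) := by omega
    have h6 : -q.num * m ≤ (q.num.natAbs : ℤ) * m :=
      mul_le_mul_of_nonneg_right this (by positivity)
    linarith
  obtain ⟨k, hk⟩ := Int.eq_ofNat_of_zero_le h5
  have h7 : k ≤ 2 * K := by
    have : q.num ≤ (q.num.natAbs : ℤ) := by omega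
    have h6 : q.num * m ≤ (q.num.natAbs : ℤ) * m :=
      mul_le_mul_of_nonneg_right this (by positivity)
    have : (k : ℤ) ≤ 2 * K := by linarith
    exact_mod_cast this
  have hk' : (k : ℝ) = q.num * m + K := by exact_mod_cast hk.symm
  have h8 := hr' k h7
  rw [← hcomp]
  simp only [eval_comp, eval_add, eval_mul, eval_C, eval_X]
  have e1 : (q.den : ℝ) * (m * q) + K = k := by
    rw [hk', hqe]; field_simp
  have e2 : 1 / 2 - K * s + k * s = 1 / 2 + q * u := by
    rw [hk', hqe, hsd]; field_simp; ring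
  rw [e1, h8, e2]

theorem CLExt_line {G : ℝ → ℝ} {n : ℕ}
    (h : ∀ x h : ℝ, 0 < x → 0 < h → x + n * h < 1 → (fwdDiff h)^[n] G x = 0) (u : ℝ) :
    ∃ p : ℝ[X], ∀ q : ℚ, |(q : ℝ) * u| < 1 / 2 → p.eval (q : ℝ) = G (1 / 2 + q * u) := by
  rcases lt_trichotomy u 0 with hu | hu | hu
  · obtain ⟨p, hp⟩ := CLExt_line_pos h (u := -u) (by linarith)
    refine ⟨p.comp (-X), fun q hq => ?_⟩
    have e : ((-q : ℚ) : ℝ) * -u = q * u := by push_cast; ring
    have := hp (-q) (by rw [e]; exact hq)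
    rw [e] at this
    simpa using this
  · exact ⟨C (G (1 / 2)), fun q _ => by simp [hu]⟩
  · exact CLExt_line_pos h hu

theorem CLExt_zero {p : ℝ[X]} {δ c : ℝ} (hδ : 0 < δ) (hc : c ≠ 0)
    (h : ∀ q : ℚ, 0 < (q : ℝ) * c → |(q : ℝ)| < δ → p.eval (q : ℝ) = 0) : p = 0 := by
  obtain ⟨e, he0, he1⟩ := exists_rat_btwn hδ
  have he : (0 : ℚ) < e := by exact_mod_cast he0
  apply Polynomial.eq_zero_of_infinite_isRoot
  rcases lt_or_gt_of_ne hc with h1 | h1
  · refine Set.Infinite.mono ?_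
      ((Set.Ioo_infinite (show -e < 0 by linarith)).image (Rat.cast_injective (α := ℝ)).injOn)
    rintro _ ⟨q, hq, rfl⟩
    have h2 : (q : ℝ) < 0 := by exact_mod_cast hq.2
    have h3 : -(e : ℝ) < q := by exact_mod_cast hq.1
    exact h q (mul_pos_of_neg_of_neg h2 h1) (by rw [abs_of_neg h2]; linarith)
  · refine Set.Infinite.mono ?_
      ((Set.Ioo_infinite he).image (Rat.cast_injective (α := ℝ)).injOn)
    rintro _ ⟨q, hq, rfl⟩
    have h2 : (0 : ℝ) < q := by exact_mod_cast hq.1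
    have h3 : (q : ℝ) < e := by exact_mod_cast hq.2
    exact h q (mul_pos h2 h1) (by rw [abs_of_pos h2]; linarith)

theorem CLExt_small {q δ B u : ℝ} (hB : |u| ≤ B) (hq : |q| < δ) (hδ : δ * B < 1 / 2) :
    |q * u| < 1 / 2 := by
  rw [abs_mul]
  have h1 : |q| * |u| ≤ δ * B :=
    mul_le_mul hq.le hB (abs_nonneg _) ((abs_nonneg _).trans hq.le)
  linarith

theorem ext_poly {G : ℝ → ℝ} {n : ℕ} (hs : ∀ x, 0 < x → x < 1 → G (1 - x) = G x)
    (h : ∀ x h : ℝ, 0 < x → 0 < h → x + n * h < 1 → (fwdDiff h)^[n] G x = 0) :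
    ∃ G' : ℝ → ℝ, (∀ x, 0 < x → x < 1 → G' x = G x) ∧ (∀ x, G' (1 - x) = G' x) ∧ GP n G' := by
  choose P hP using CLExt_line h
  have hdel : ∀ B : ℝ, 0 ≤ B → ∃ δ : ℝ, 0 < δ ∧ δ * B < 1 / 2 := by
    intro B hB
    refine ⟨1 / (2 * (B + 1)), by positivity, ?_⟩
    rw [div_mul_eq_mul_div, div_lt_iff₀ (by positivity)]
    linarith
  refine ⟨fun x => (P (x - 1 / 2)).eval 1, ?_, ?_, ?_⟩
  · intro x hx0 hx1
    have := hP (x - 1 / 2) 1 (by rw [Rat.cast_one, one_mul, abs_lt]; constructor <;> linarith)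
    rw [Rat.cast_one, one_mul] at this
    simp only
    rw [this]
    congr 1
    ring
  · intro x
    obtain ⟨δ, hδ, hδ'⟩ := hdel |x - 1 / 2| (abs_nonneg _)
    have h0 : P (1 - x - 1 / 2) - P (x - 1 / 2) = 0 := by
      apply CLExt_zero hδ one_ne_zero
      intro q _ hq
      have h1 : |(q : ℝ) * (x - 1 / 2)| < 1 / 2 := CLExt_small le_rfl hq hδ'
      have e : (q : ℝ) * (1 - x - 1 / 2) = -(q * (x - 1 / 2)) := by ring
      have h2 : |(q : ℝ) * (1 - x - 1 / 2)| < 1 / 2 := by rw [e, abs_neg]; exact h1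
      rw [eval_sub, hP _ q h1, hP _ q h2, sub_eq_zero]
      rw [abs_lt] at h1
      rw [← hs (1 / 2 + q * (x - 1 / 2)) (by linarith) (by linarith)]
      congr 1
      ring
    simp only
    rw [sub_eq_zero.1 h0]
  · intro c
    by_cases hc : c = 0
    · subst hc
      rw [Function.iterate_succ_apply]
      have : fwdDiff (0 : ℝ) (fun x : ℝ => (P (x - 1 / 2)).eval 1) = 0 := by
        funext x; simp [fwdDiff]
      rw [this]
      funext x
      simp [fwdDiff_iter_eq_sum_shift]
    · have key : (fwdDiff c)^[n] (fun x : ℝ => (P (x - 1 / 2)).eval 1) = 0 := by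
        funext x
        obtain ⟨δ, hδ, hδ'⟩ := hdel (|x - 1 / 2| + n * |c|) (by positivity)
        have hb : ∀ k : ℕ, k ≤ n → |x + k * c - 1 / 2| ≤ |x - 1 / 2| + n * |c| := by
          intro k hk
          have e : x + k * c - 1 / 2 = (x - 1 / 2) + k * c := by ring
          have hk' : (k : ℝ) ≤ n := by exact_mod_cast hk
          rw [e]
          refine (abs_add_le _ _).trans ?_
          rw [abs_mul, Nat.abs_cast]
          have := mul_le_mul_of_nonneg_right hk' (abs_nonneg c)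
          linarith
        have h0 : ∑ k ∈ Finset.range (n + 1),
            C (((-1 : ℤ) ^ (n - k) * n.choose k : ℤ) : ℝ) * P (x + k * c - 1 / 2) = 0 := by
          apply CLExt_zero hδ hc
          intro q hqc hq
          have h1 := CLExt_small (hb 0 (Nat.zero_le _)) hq hδ'
          have h2 := CLExt_small (hb n le_rfl) hq hδ'
          rw [abs_lt] at h1 h2
          have h3 := h (1 / 2 + q * (x - 1 / 2)) (q * c) (by push_cast at h1; linarith) hqc
            (by linarith)
          rw [fwdDiff_iter_eq_sum_shift] at h3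
          rw [eval_finsetSum, ← h3]
          apply Finset.sum_congr rfl
          intro k hk
          have hk' : k ≤ n := Nat.lt_succ_iff.1 (Finset.mem_range.1 hk)
          rw [eval_mul, eval_C, hP _ q (CLExt_small (hb k hk') hq hδ'), zsmul_eq_mul,
            nsmul_eq_mul]
          congr 2
          ring
        have h4 := congrArg (Polynomial.eval 1) h0
        rw [eval_finsetSum, eval_zero] at h4
        rw [fwdDiff_iter_eq_sum_shift, Pi.zero_apply, ← h4]
        apply Finset.sum_congr rfl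
        intro k _
        rw [eval_mul, eval_C, zsmul_eq_mul, nsmul_eq_mul]
      rw [Function.iterate_succ_apply', key]
      funext x
      simp [fwdDiff]

end Pool.Agent.P.MP_6d4b14_an.CL
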