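import Pool.Agent.P.MP_6d4b14_an.CLCl

/-! Extension of the odd part. -/

set_option linter.unusedSectionVars false
set_option linter.unusedVariables false

namespace Pool.Agent.P.MP_6d4b14_an.CL

open scoped Classical
open TR Function Polynomial

theorem ev_neg {G : ℝ → ℝ} (hs : ∀ x, G (1 - x) = G x) (z : ℝ) : ev G (-z) = ev G z := by
  have e1 : 2 * -z + 1 = 1 - 2 * z := by ring
  have e2 : 2 * -z = 1 - (2 * z + 1) := by ring
  have e3 : -z + 1 / 2 = 1 - (z + 1 / 2) := by ring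
  unfold ev
  rw [e1, e3, hs, hs, e2, hs]
  ring

theorem cl_ev {G : ℝ → ℝ} (h : Cl G) : Cl (ev G) := by
  have h1 : Cl fun z => 1 / 2 * (G (1 / 2) / 2 * G (2 * z + 1) + G (1 / 2) / 2 * G (2 * z + 0) -
      G (1 * z + 1 / 2)) :=
    Clw.mul (Cl.sub (Cl.add (Clw.mul (h.aff 2 1) _) (Clw.mul (h.aff 2 0) _)) (h.aff 1 (1 / 2))) _
  have e : ev G = fun z => 1 / 2 * (G (1 / 2) / 2 * G (2 * z + 1) +
      G (1 / 2) / 2 * G (2 * z + 0) - G (1 * z + 1 / 2)) := by
    funext z
    simp only [ev, add_zero, one_mul]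
    ring
  rw [e]
  exact h1

theorem per_ev {G : ℝ → ℝ} {p : ℝ} (h : p ∈ Per G) : p ∈ Per (ev G) := by
  intro z
  have h' : ∀ x, G (x + p) = G x := h
  have e1 : 2 * (z + p) + 1 = 2 * z + 1 + p + p := by ring
  have e2 : 2 * (z + p) = 2 * z + p + p := by ring
  have e3 : z + p + 1 / 2 = z + 1 / 2 + p := by ring
  unfold ev
  rw [e1, e3, h', h', h', e2, h', h']

theorem clG1_sum (f : ℤ → ℝ) : ∃ s : ℤ → ℝ, s 0 = 0 ∧ ∀ n, s n - s (n - 1) = f n := by
  refine ⟨fun n => ∑ i ∈ Finset.range n.toNat, f (i + 1) -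
    ∑ i ∈ Finset.range (-n).toNat, f (-i), by simp, fun n => ?_⟩
  rcases le_or_gt n 0 with hn | hn
  · have e1 : n.toNat = 0 := by omega
    have e2 : (n - 1).toNat = 0 := by omega
    have e3 : (-(n - 1)).toNat = (-n).toNat + 1 := by omega
    have e4 : -(((-n).toNat : ℕ) : ℤ) = n := by omega
    simp only [e1, e2, e3, Finset.sum_range_succ, Finset.sum_range_zero, e4]
    ring
  · have e1 : (-n).toNat = 0 := by omega
    have e2 : (-(n - 1)).toNat = 0 := by omega
    have e3 : n.toNat = (n - 1).toNat + 1 := by omega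
    have e4 : (((n - 1).toNat : ℕ) : ℤ) + 1 = n := by omega
    simp only [e1, e2, Finset.sum_range_zero]
    rw [e3, Finset.sum_range_succ, e4]
    ring

theorem clG1_ext (R o0 : ℝ → ℝ) : ∃ o : ℝ → ℝ, (∀ z, o z - o (z - 1 / 2) = R z) ∧
    ∀ z, 0 ≤ z → z < 1 / 2 → o z = o0 z := by
  choose s h0 h1 using fun r : ℝ => clG1_sum fun n : ℤ => R (r + n / 2)
  refine ⟨fun z => o0 (z - ⌊2 * z⌋ / 2) + s (z - ⌊2 * z⌋ / 2) ⌊2 * z⌋, fun z => ?_,
    fun z hz hz' => ?_⟩
  · have e1 : ⌊2 * (z - 1 / 2)⌋ = ⌊2 * z⌋ - 1 := by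
      rw [← Int.floor_sub_one]
      congr 1
      ring
    have e2 : z - 1 / 2 - ((⌊2 * z⌋ - 1 : ℤ) : ℝ) / 2 = z - ⌊2 * z⌋ / 2 := by
      push_cast
      ring
    have e3 := h1 (z - ⌊2 * z⌋ / 2) ⌊2 * z⌋
    rw [sub_add_cancel] at e3
    simp only [e1, e2]
    linarith
  · have e1 : ⌊2 * z⌋ = 0 := by
      rw [Int.floor_eq_zero_iff]
      constructor <;> linarith
    simp [e1, h0]

theorem clG1_sg {G o : ℝ → ℝ} (hs : ∀ x, G (1 - x) = G x) (ho : ∀ z, o (-z) = -o z)
    (rc : ∀ z, o z - o (z - 1 / 2) = G (1 / 2) / 2 * G (2 * z) - ev G z - ev G (z - 1 / 2))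
    (x : ℝ) : ev G x + o x + (ev G (1 - x) + o (1 - x)) = G x := by
  have h1 := rc x
  have h2 := rc (x - 1 / 2)
  have e1 : x - 1 / 2 - 1 / 2 = -(1 - x) := by ring
  rw [e1, ho, ev_neg hs] at h2
  have h3 : ev G (x - 1 / 2) = (G (1 / 2) / 2 * G (2 * x) +
      G (1 / 2) / 2 * G (2 * (x - 1 / 2)) - G x) / 2 := by
    have e2 : 2 * (x - 1 / 2) + 1 = 2 * x := by ring
    rw [ev, e2, sub_add_cancel]
  linarith

theorem exists_pre {g G : ℝ → ℝ} (hg : HE g) (hs : ∀ x, G (1 - x) = G x) (hc : Cl G)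
    (hG : ∀ x, 0 < x → x < 1 → G x = sg g x) : ∃ o, Pre G o := by
  obtain ⟨o, rc, h0⟩ := clG1_ext
    (fun z => G (1 / 2) / 2 * G (2 * z) - ev G z - ev G (z - 1 / 2))
    (fun z => if z = 0 then 0 else g z - ev G z)
  have h1 : ∀ z, 0 < z → z < 1 / 2 → o z = g z - ev G z := fun z a b => by
    rw [h0 z a.le b, if_neg a.ne']
  have h2 : o 0 = 0 := by rw [h0 0 le_rfl (by norm_num), if_pos rfl]
  have rc' : ∀ z, o (1 / 2 - z) - o (-z) = o z - o (z - 1 / 2) := fun z => by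
    have a := rc (1 / 2 - z)
    have e1 : 1 / 2 - z - 1 / 2 = -z := by ring
    have e2 : 2 * (1 / 2 - z) = 1 - 2 * z := by ring
    have e3 : 1 / 2 - z = -(z - 1 / 2) := by ring
    have e4 : ev G (1 / 2 - z) = ev G (z - 1 / 2) := by rw [e3, ev_neg hs]
    rw [e1, e2, hs, e4, ev_neg hs] at a
    rw [a, rc z]
    ring
  have hp : Function.Periodic (fun z => o z + o (-z)) (1 / 2) := fun z => by
    have a := rc' (z + 1 / 2)
    have e1 : 1 / 2 - (z + 1 / 2) = -z := by ring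
    rw [e1, add_sub_cancel_right] at a
    simp only
    linarith
  have ho : ∀ z, o (-z) = -o z := fun z => by
    obtain ⟨y, ⟨y0, y1⟩, e⟩ := hp.exists_mem_Ico₀ (by norm_num) z
    have : o y + o (-y) = 0 := by
      rcases y0.eq_or_lt with rfl | y0
      · rw [neg_zero, h2, add_zero]
      · have a := rc' y
        have b := hg (1 / 2) (2 * y) (by norm_num) (by norm_num) (by linarith) (by linarith)
        have e1 : 1 / 2 * (2 * y) = y := by ring
        have e2 : 1 / 2 * (1 - 2 * y) = 1 / 2 - y := by ring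
        have e3 : (1 : ℝ) - 1 / 2 = 1 / 2 := by ring
        have e4 : 1 / 2 - y = -(y - 1 / 2) := by ring
        have e5 : ev G (1 / 2 - y) = ev G (y - 1 / 2) := by rw [e4, ev_neg hs]
        rw [e3, e1, e2, ← hG (1 / 2) (by norm_num) (by norm_num),
          ← hG (2 * y) (by linarith) (by linarith)] at b
        rw [rc y, h1 (1 / 2 - y) (by linarith) (by linarith), e5] at a
        rw [h1 y y0 y1]
        linarith
    linarith
  have h3 : ∀ z, 0 < z → z < 1 → ev G z + o z = g z := fun z a b => by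
    have c := clG1_sg hs ho rc z
    rw [hG z a b, sg] at c
    rcases lt_trichotomy z (1 / 2) with h | rfl | h
    · rw [h1 z a h]
      ring
    · have e3 : (1 : ℝ) - 1 / 2 = 1 / 2 := by ring
      rw [e3] at c
      linarith
    · rw [h1 (1 - z) (by linarith) (by linarith)] at c
      linarith
  refine ⟨o, hs, hc, ho, rc, fun x y x0 x1 y0 y1 => ?_⟩
  have x2 : 0 < 1 - x := by linarith
  have y2 : 0 < 1 - y := by linarith
  simp only [Df, S4]
  rw [h3 _ (mul_pos x0 y0) (by nlinarith), h3 _ (mul_pos x0 y2) (by nlinarith),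
    h3 _ (mul_pos x2 y0) (by nlinarith), h3 _ (mul_pos x2 y2) (by nlinarith),
    hg x y x0.le x1.le y0.le y1.le, hG x x0 x1, hG y y0 y1, sub_self]

theorem Pre.sg {G o : ℝ → ℝ} (h : Pre G o) (x : ℝ) :
    ev G x + o x + (ev G (1 - x) + o (1 - x)) = G x := clG1_sg h.sym h.odd h.rc x

theorem Df_comm (G o : ℝ → ℝ) (x y : ℝ) : Df G o x y = Df G o y x := by
  simp only [Df, S4]
  rw [mul_comm y x, mul_comm y (1 - x), mul_comm (1 - y) x, mul_comm (1 - y) (1 - x)]
  ring

theorem Pre.Df_sym {G o : ℝ → ℝ} (h : Pre G o) (x y : ℝ) : Df G o (1 - x) y = Df G o x y := by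
  simp only [Df, S4, sub_sub_cancel, h.sym]
  ring

theorem Pre.cl_R {G o : ℝ → ℝ} (h : Pre G o) : Cl fun z => o z - o (z - 1 / 2) := by
  have h1 : Cl fun z => G (1 / 2) / 2 * G (2 * z + 0) - ev G z - ev G (1 * z + -(1 / 2)) :=
    Cl.sub (Cl.sub (Clw.mul (h.cl.aff 2 0) _) (cl_ev h.cl)) ((cl_ev h.cl).aff 1 _)
  have e : (fun z => o z - o (z - 1 / 2)) =
      fun z => G (1 / 2) / 2 * G (2 * z + 0) - ev G z - ev G (1 * z + -(1 / 2)) := by
    funext z
    rw [h.rc, add_zero, one_mul, ← sub_eq_add_neg]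
  rw [e]
  exact h1

theorem Pre.cl_D {G o : ℝ → ℝ} (h : Pre G o) (y : ℝ) :
    Cl fun x => Df G o x y -
      (o (x * y) - o (x * y - y) + (o (x * (1 - y)) - o (x * (1 - y) - (1 - y)))) := by
  have he := cl_ev h.cl
  have h1 : Cl fun x => ev G (y * x + 0) + ev G ((1 - y) * x + 0) + ev G (-y * x + y) +
      ev G (-(1 - y) * x + (1 - y)) - G y * G x :=
    Cl.sub (Cl.add (Cl.add (Cl.add (he.aff y 0) (he.aff (1 - y) 0)) (he.aff (-y) y))
      (he.aff (-(1 - y)) (1 - y))) (Clw.mul h.cl _)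
  have e : (fun x => Df G o x y -
      (o (x * y) - o (x * y - y) + (o (x * (1 - y)) - o (x * (1 - y) - (1 - y))))) =
      fun x => ev G (y * x + 0) + ev G ((1 - y) * x + 0) + ev G (-y * x + y) +
      ev G (-(1 - y) * x + (1 - y)) - G y * G x := by
    funext x
    have e1 : x * y - y = -((1 - x) * y) := by ring
    have e2 : x * (1 - y) - (1 - y) = -((1 - x) * (1 - y)) := by ring
    have e3 : y * x + 0 = x * y := by ring
    have e4 : (1 - y) * x + 0 = x * (1 - y) := by ring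
    have e5 : -y * x + y = (1 - x) * y := by ring
    have e6 : -(1 - y) * x + (1 - y) = (1 - x) * (1 - y) := by ring
    rw [e1, e2, e3, e4, e5, e6, h.odd, h.odd]
    simp only [Df, S4]
    ring
  rw [e]
  exact h1

theorem clG1_w {G o : ℝ → ℝ} (h : Pre G o) (ho : Clw (1 / 6) o) {y : ℝ} (y0 : y ≠ 0)
    (y1 : 1 - y ≠ 0) : Clw (0 + (1 / 6 / |y| + 1 / 6 / |1 - y|)) fun x => Df G o x y := by
  have h1 := Clw.add (h.cl_D y) (Clw.add ((ho.diff 0 (-y)).aff y0 0)
    ((ho.diff 0 (-(1 - y))).aff y1 0))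
  have e : (fun x => Df G o x y) = fun x => Df G o x y -
      (o (x * y) - o (x * y - y) + (o (x * (1 - y)) - o (x * (1 - y) - (1 - y)))) +
      (o (y * x + 0 + 0) - o (y * x + 0 + -y) +
        (o ((1 - y) * x + 0 + 0) - o ((1 - y) * x + 0 + -(1 - y)))) := by
    funext x
    simp only [add_zero, mul_comm y x, mul_comm (1 - y) x, ← sub_eq_add_neg]
    ring
  rw [e]
  exact h1

theorem glob_of_pre {G o : ℝ → ℝ} (h : Pre G o) (ho : Clw (1 / 6) o) : Glob G := by
  have s1 : ∀ y, 1 / 4 < y → y < 3 / 4 → ∀ x, Df G o x y = 0 := fun y a b x => by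
    have y0 : 0 < y := by linarith
    have y1 : 0 < 1 - y := by linarith
    refine congrFun ((clG1_w h ho y0.ne' y1.ne').zero_of (p := 0) (q := 1) ?_
      fun x x0 x1 => h.loc x y x0 x1 y0 (by linarith)) x
    rw [abs_of_pos y0, abs_of_pos y1, zero_add, sub_zero, div_add_div _ _ y0.ne' y1.ne',
      div_lt_one (mul_pos y0 y1)]
    nlinarith
  have s2 : ∀ y, 2 < y → ∀ x, Df G o x y = 0 := fun y a x => by
    have y0 : 0 < y := by linarith
    have y1 : 1 - y < 0 := by linarith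
    refine congrFun ((clG1_w h ho y0.ne' y1.ne).zero_of (p := 1 / 4) (q := 3 / 4) ?_
      fun x x0 x1 => by rw [Df_comm]; exact s1 x x0 x1 y) x
    have b1 : 1 / 6 / |y| ≤ 1 / 6 := div_le_self (by norm_num) (by rw [abs_of_pos y0]; linarith)
    have b2 : 1 / 6 / |1 - y| ≤ 1 / 6 :=
      div_le_self (by norm_num) (by rw [abs_of_neg y1]; linarith)
    linarith
  have e0 : ∀ x, Df G o x 0 = 2 * ev G 0 + G x - G 0 * G x := fun x => by
    have a := h.sg x
    have b := h.odd 0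
    rw [neg_zero] at b
    simp only [Df, S4, mul_zero, sub_zero, mul_one]
    linarith
  have s0 : ∀ x, Df G o x 0 = 0 := fun x => by
    have c : Cl fun x => 2 * ev G 0 + G x - G 0 * G x :=
      Cl.sub (Cl.add (cl_const _) h.cl) (Clw.mul h.cl _)
    rw [e0]
    exact congrFun (Clw.zero_of c (p := 2) (q := 3) (by norm_num) fun x x0 x1 => by
      rw [← e0, Df_comm]; exact s2 x x0 0) x
  have s3 : ∀ x y, Df G o x y = 0 := fun x y => by
    by_cases y0 : y = 0
    · rw [y0, s0]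
    by_cases y1 : 1 - y = 0
    · have : y = 1 - 0 := by linarith
      rw [this, Df_comm, h.Df_sym, Df_comm, s0]
    exact congrFun ((clG1_w h ho y0 y1).zero_of (p := 2)
      (q := 3 + (1 / 6 / |y| + 1 / 6 / |1 - y|)) (by linarith)
      fun x x0 x1 => by rw [Df_comm]; exact s2 x x0 y) x
  refine ⟨h.sym, fun y => ?_, o, fun x y => ?_⟩
  · have a := s0 y
    rw [e0] at a
    linarith
  · have a := s3 x y
    have e1 : x * (y - 1) = -(x * (1 - y)) := by ring
    have e2 : (x - 1) * y = -((1 - x) * y) := by ring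
    have e3 : (x - 1) * (y - 1) = (1 - x) * (1 - y) := by ring
    rw [e1, e2, e3, h.odd, h.odd, ev_neg h.sym, ev_neg h.sym]
    simp only [Df, S4] at a
    linarith

end Pool.Agent.P.MP_6d4b14_an.CL
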