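import Pool.Agent.P.MP_6d4b14_an.CLG1

/-! The defect at `y = 1 / 3`. -/

set_option linter.unusedSectionVars false
set_option linter.unusedVariables false

namespace Pool.Agent.P.MP_6d4b14_an.CL

open scoped Classical
open TR Function Polynomial

variable {G o : ℝ → ℝ}

theorem CLG2_congr {φ ψ : ℝ → ℝ} (h : Cl φ) (e : ∀ x, ψ x = φ x) : Cl ψ := by
  have : ψ = φ := funext e
  rw [this]; exact h

theorem CLG2_rcongr {φ ψ : ℝ → ℝ} {z : ℝ} (h : Reg φ z) (e : ∀ x, ψ x = φ x) : Reg ψ z := by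
  have : ψ = φ := funext e
  rw [this]; exact h

theorem Pre.cl_th (h : Pre G o) : Cl fun z => th o (z + 1 / 2) - th o z := by
  refine CLG2_congr ((h.cl_R.aff 1 (2 / 3)).sub (h.cl_R.aff 1 (1 / 2))) fun z => ?_
  have e1 : z + 1 / 2 + 1 / 6 = 1 * z + 2 / 3 := by ring
  have e2 : 1 * z + 2 / 3 - 1 / 2 = z + 1 / 6 := by ring
  have e3 : 1 * z + 1 / 2 - 1 / 2 = z := by ring
  have e4 : 1 * z + 1 / 2 = z + 1 / 2 := by ring
  simp only [th]
  rw [e1, e2, e3, e4]
  ring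

theorem Pre.cl_L (h : Pre G o) : Cl fun t => LL G o t - (th o (-2 * t) - th o t) := by
  refine CLG2_congr ((((h.cl_D (1 / 3)).aff 3 0).add (h.cl_R.aff 1 (1 / 6))).add
    (h.cl_R.aff (-2) (2 / 3))) fun t => ?_
  have e0 : 3 * t + 0 = 3 * t := by ring
  have e1 : 3 * t * (1 / 3) = t := by ring
  have e2 : 3 * t * (1 - 1 / 3) = -(-2 * t) := by ring
  have e3 : -(-2 * t) - (1 - 1 / 3) = -(-2 * t + 2 / 3) := by ring
  have e4 : 1 * t + 1 / 6 - 1 / 2 = t - 1 / 3 := by ring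
  have e5 : 1 * t + 1 / 6 = t + 1 / 6 := by ring
  have e6 : -2 * t + 2 / 3 - 1 / 2 = -2 * t + 1 / 6 := by ring
  simp only [th, LL]
  rw [e0, e1, e2, e3, e4, e5, e6, h.odd, h.odd]
  ring

theorem Pre.cl_J (h : Pre G o) :
    Cl fun t => LL G o t + LL G o (t + 1 / 6) + LL G o (t + 1 / 3) := by
  refine CLG2_congr (((((h.cl_L.add (h.cl_L.aff 1 (1 / 6))).add (h.cl_L.aff 1 (1 / 3))).add
    (h.cl_R.aff (-2) (1 / 6))).sub (h.cl_th.aff (-2) (-2 / 3))).sub (h.cl_R.aff 1 (1 / 2)))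
    fun t => ?_
  have e1 : 1 * t + 1 / 6 = t + 1 / 6 := by ring
  have e2 : 1 * t + 1 / 3 = t + 1 / 3 := by ring
  have e3 : 1 * t + 1 / 2 = t + 1 / 2 := by ring
  have e4 : t + 1 / 6 + 1 / 6 = t + 1 / 3 := by ring
  have e5 : t + 1 / 3 + 1 / 6 = t + 1 / 2 := by ring
  have e6 : t + 1 / 2 - 1 / 2 = t := by ring
  have e7 : -2 * (t + 1 / 6) = -2 * t - 1 / 3 := by ring
  have e8 : -2 * (t + 1 / 3) = -2 * t + -2 / 3 := by ring
  have e9 : -2 * t - 1 / 3 + 1 / 6 = -2 * t - 1 / 6 := by ring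
  have e10 : -2 * t + 1 / 6 - 1 / 2 = -2 * t - 1 / 3 := by ring
  have e11 : -2 * t + -2 / 3 + 1 / 2 = -2 * t - 1 / 6 := by ring
  have e12 : -2 * t - 1 / 6 + 1 / 6 = -2 * t := by ring
  simp only [th]
  rw [e1, e2, e3, e4, e5, e6, e7, e8, e9, e10, e11, e12]
  ring

theorem Pre.L_loc (h : Pre G o) {t : ℝ} (h0 : 0 < t) (h1 : t < 1 / 3) : LL G o t = 0 :=
  h.loc _ _ (by linarith) (by linarith) (by norm_num) (by norm_num)

theorem CLG2_K (h : Pre G o) : Cl fun t => LL G o (t + 1 / 2) - LL G o t := by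
  refine CLG2_congr ((h.cl_J.aff 1 (1 / 6)).sub h.cl_J) fun t => ?_
  have e1 : 1 * t + 1 / 6 = t + 1 / 6 := by ring
  have e4 : t + 1 / 6 + 1 / 6 = t + 1 / 3 := by ring
  have e5 : t + 1 / 6 + 1 / 3 = t + 1 / 2 := by ring
  rw [e1, e4, e5]
  ring

theorem Pre.reg_L_iff (h : Pre G o) (z : ℝ) : Reg (LL G o) (z + 1 / 2) ↔ Reg (LL G o) z := by
  constructor
  · intro H
    have H1 : Reg (LL G o) (1 * z + 1 / 2) := by rwa [one_mul]
    refine CLG2_rcongr (H1.aff.sub (Reg.of_cl (CLG2_K h) z)) fun t => ?_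
    rw [one_mul]; ring
  · intro H
    have H1 : Reg (fun t => LL G o (1 * t + 1 / 2)) z := by
      refine CLG2_rcongr (H.add (Reg.of_cl (CLG2_K h) z)) fun t => ?_
      rw [one_mul]; ring
    have H2 := Reg.of_aff one_ne_zero H1
    rwa [one_mul] at H2

theorem CLG2_reg_int (h : Pre G o) (z : ℝ) (n : ℤ) :
    Reg (LL G o) (z + n / 2) ↔ Reg (LL G o) z := by
  induction n using Int.induction_on with
  | zero => simp
  | succ n ih =>
    have e : z + (((n : ℤ) + 1 : ℤ) : ℝ) / 2 = z + ((n : ℤ) : ℝ) / 2 + 1 / 2 := by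
      push_cast; ring
    rw [e, h.reg_L_iff, ih]
  | pred n ih =>
    have e : z + ((-(n : ℤ) : ℤ) : ℝ) / 2 = z + ((-(n : ℤ) - 1 : ℤ) : ℝ) / 2 + 1 / 2 := by
      push_cast; ring
    rw [← ih, e, h.reg_L_iff]

theorem CLG2_high (h : Pre G o) {t : ℝ} (h0 : 1 / 3 < t) (h1 : t < 1 / 2) :
    LL G o t = LL G o (1 * t + -1 / 3) + LL G o (1 * t + -1 / 3 + 1 / 6) +
      LL G o (1 * t + -1 / 3 + 1 / 3) := by
  have e : 1 * t + -1 / 3 + 1 / 3 = t := by ring
  rw [e, h.L_loc (t := 1 * t + -1 / 3) (by linarith) (by linarith),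
    h.L_loc (t := 1 * t + -1 / 3 + 1 / 6) (by linarith) (by linarith)]
  ring

theorem Pre.reg_L (h : Pre G o) {z : ℝ} (hz : ∀ n : ℤ, 6 * z ≠ n) : Reg (LL G o) z := by
  obtain ⟨n, hn⟩ : ∃ n : ℤ, n = ⌊2 * z⌋ := ⟨_, rfl⟩
  have h1 : (n : ℝ) ≤ 2 * z := hn ▸ Int.floor_le _
  have h2 : 2 * z < n + 1 := hn ▸ Int.lt_floor_add_one _
  have e : z = (z - n / 2) + n / 2 := by ring
  rw [e, CLG2_reg_int h]
  have r0 : 0 < z - n / 2 := by
    rcases lt_or_eq_of_le h1 with h3 | h3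
    · linarith
    · exact absurd (by push_cast; linarith) (hz (3 * n))
  have r1 : z - n / 2 < 1 / 2 := by linarith
  have r2 : z - n / 2 ≠ 1 / 3 := fun h3 => hz (3 * n + 2) (by push_cast; linarith)
  rcases lt_or_gt_of_ne r2 with r3 | r3
  · refine ⟨fun _ => 0, cl_const 0, ?_⟩
    filter_upwards [Ioo_mem_nhds r0 r3] with t ht
    exact h.L_loc ht.1 ht.2
  · refine ⟨_, h.cl_J.aff 1 (-1 / 3), ?_⟩
    filter_upwards [Ioo_mem_nhds r3 r1] with t ht
    exact CLG2_high h ht.1 ht.2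

theorem CLG2_S (h : Pre G o) : Cl fun t => LS G o t - (th o (16 * t) - th o t) := by
  refine CLG2_congr (((h.cl_L.add (h.cl_L.aff (-2) 0)).add (h.cl_L.aff 4 0)).add
    (h.cl_L.aff (-8) 0)) fun t => ?_
  have e1 : -2 * (-2 * t) = 4 * t := by ring
  have e2 : -2 * (4 * t) = -8 * t := by ring
  have e3 : -2 * (-8 * t) = 16 * t := by ring
  simp only [add_zero, LS]
  rw [e1, e2, e3]
  ring

theorem Pre.cl_E (h : Pre G o) : Cl fun t => EE o t + (LS G o (t + 1 / 32) - LS G o t) := by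
  refine CLG2_congr ((((CLG2_S h).aff 1 (1 / 32)).sub (CLG2_S h)).add (h.cl_th.aff 16 0))
    fun t => ?_
  have e1 : 1 * t + 1 / 32 = t + 1 / 32 := by ring
  have e2 : 16 * (t + 1 / 32) = 16 * t + 1 / 2 := by ring
  simp only [add_zero, EE]
  rw [e1, e2]
  ring

theorem CLG2_regm (h : Pre G o) {α z : ℝ} (hz : ∀ n : ℤ, 6 * (α * z) ≠ n) :
    Reg (fun t => LL G o (α * t)) z := by
  have H : Reg (LL G o) (α * z + 0) := by rw [add_zero]; exact h.reg_L hz
  refine CLG2_rcongr H.aff fun t => ?_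
  rw [add_zero]

theorem CLG2_regS (h : Pre G o) {z : ℝ} (hz : ∀ n : ℤ, 48 * z ≠ n) : Reg (LS G o) z := by
  have H1 : Reg (LL G o) z := h.reg_L fun n hn => hz (8 * n) (by push_cast; linarith)
  have H2 := CLG2_regm h (α := -2) (z := z) fun n hn => hz (-4 * n) (by push_cast; linarith)
  have H3 := CLG2_regm h (α := 4) (z := z) fun n hn => hz (2 * n) (by push_cast; linarith)
  have H4 := CLG2_regm h (α := -8) (z := z) fun n hn => hz (-n) (by push_cast; linarith)
  exact CLG2_rcongr (((H1.add H2).add H3).add H4) fun t => rfl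

theorem CLG2_regS' (h : Pre G o) {z : ℝ} (hz : ∀ n : ℤ, 48 * (z + 1 / 32) ≠ n) :
    Reg (fun t => LS G o (t + 1 / 32)) z := by
  have H : Reg (LS G o) (1 * z + 1 / 32) := by rw [one_mul]; exact CLG2_regS h hz
  refine CLG2_rcongr H.aff fun t => ?_
  rw [one_mul]

theorem Pre.reg_E (h : Pre G o) {z : ℝ} (hz : ∀ n : ℤ, 96 * z ≠ n) : Reg (EE o) z := by
  have H1 := CLG2_regS h (z := z) fun n hn => hz (2 * n) (by push_cast; linarith)
  have H2 := CLG2_regS' h (z := z) fun n hn => hz (2 * n - 3) (by push_cast; linarith)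
  refine CLG2_rcongr ((Reg.of_cl h.cl_E z).sub (H2.sub H1)) fun t => ?_
  ring

theorem Pre.L_zero (h : Pre G o) (hE : Reg (EE o) (1 / 16)) : LL G o = 0 := by
  have H0 := CLG2_regS' h (z := 1 / 16) fun n hn => by
    have : (2 * n : ℤ) = 9 := by
      have : (2 * n : ℝ) = 9 := by linarith
      exact_mod_cast this
    omega
  have H1 : Reg (LL G o) (1 / 16) := h.reg_L fun n hn => by
    have : (8 * n : ℤ) = 3 := by
      have : (8 * n : ℝ) = 3 := by linarith
      exact_mod_cast this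
    omega
  have H2 := CLG2_regm h (α := -2) (z := 1 / 16) fun n hn => by
    have : (4 * n : ℤ) = -3 := by
      have : (4 * n : ℝ) = -3 := by linarith
      exact_mod_cast this
    omega
  have H3 := CLG2_regm h (α := 4) (z := 1 / 16) fun n hn => by
    have : (2 * n : ℤ) = 3 := by
      have : (2 * n : ℝ) = 3 := by linarith
      exact_mod_cast this
    omega
  have H4 : Reg (fun t => LL G o (-8 * t + 0)) (1 / 16) := by
    refine CLG2_rcongr (((((hE.add H0).sub (Reg.of_cl h.cl_E _)).sub H1).sub H2).sub H3)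
      fun t => ?_
    simp only [add_zero, LS]
    ring
  have H5 := Reg.of_aff (by norm_num) H4
  have H6 : Reg (LL G o) 0 := by
    have e : (0 : ℝ) = -8 * (1 / 16) + 0 + 1 / 2 := by norm_num
    rw [e, h.reg_L_iff]
    exact H5
  have H7 := H6.zero_nhds (η := 1 / 3) (by norm_num) fun x h0 h1 => h.L_loc h0 (by linarith)
  obtain ⟨η, hη, H8⟩ := Metric.eventually_nhds_iff.1 H7
  have hsym : ∀ t, LL G o (1 / 3 - t) = LL G o t := fun t => by
    have e : 3 * (1 / 3 - t) = 1 - 3 * t := by ring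
    simp only [LL]
    rw [e, h.Df_sym]
  have hJ : (fun t => LL G o t + LL G o (t + 1 / 6) + LL G o (t + 1 / 3)) = 0 := by
    refine Clw.zero_of h.cl_J (p := 0) (q := min η (1 / 6)) (by simp [hη]) fun x h0 h1 => ?_
    have h2 : x < η := h1.trans_le (min_le_left _ _)
    have h3 : x < 1 / 6 := h1.trans_le (min_le_right _ _)
    have e : x + 1 / 3 = 1 / 3 - -x := by ring
    have h4 : LL G o (-x) = 0 := H8 (by
      rw [Real.dist_eq, sub_zero, abs_neg, abs_of_pos h0]; exact h2)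
    rw [e, hsym, h4, h.L_loc h0 (by linarith),
      h.L_loc (t := x + 1 / 6) (by linarith) (by linarith)]
    ring
  have hJ' : ∀ t, LL G o t + LL G o (t + 1 / 6) + LL G o (t + 1 / 3) = 0 := fun t =>
    congrFun hJ t
  have hper : Periodic (LL G o) (1 / 2) := fun t => by
    have a1 := hJ' t
    have a2 := hJ' (t + 1 / 6)
    have e4 : t + 1 / 6 + 1 / 6 = t + 1 / 3 := by ring
    have e5 : t + 1 / 6 + 1 / 3 = t + 1 / 2 := by ring
    rw [e4, e5] at a2
    linarith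
  have h00 : LL G o 0 = 0 := H8 (by simpa using hη)
  funext z
  obtain ⟨y, hy, e⟩ := hper.exists_mem_Ico₀ (by norm_num) z
  rw [e]
  show LL G o y = 0
  rcases eq_or_lt_of_le hy.1 with h0 | h0
  · rw [← h0]; exact h00
  rcases lt_trichotomy y (1 / 3) with h1 | h1 | h1
  · exact h.L_loc h0 h1
  · have := hsym 0
    rw [sub_zero] at this
    rw [h1, this]; exact h00
  · rw [CLG2_high h h1 hy.2]; exact hJ' _

theorem Pre.clw_o (h : Pre G o) (hL : LL G o = 0) : Clw (1 / 6) o := by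
  have H1 : Cl fun t => th o (-2 * t) - th o t := by
    refine CLG2_congr h.cl_L.neg fun t => ?_
    rw [hL]; simp
  have H2 : Cl fun t => th o (4 * t) - th o t := by
    refine CLG2_congr ((H1.aff (-2) 0).add H1) fun t => ?_
    have e1 : -2 * (-2 * t) = 4 * t := by ring
    simp only [add_zero]
    rw [e1]; ring
  have H3 : ∀ k : ℕ, Cl fun t => th o (4 ^ k * t) - th o t := by
    intro k
    induction k with
    | zero => exact CLG2_congr (cl_const 0) fun t => by simp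
    | succ k ih =>
      refine CLG2_congr ((H2.aff (4 ^ k) 0).add ih) fun t => ?_
      have e1 : 4 * (4 ^ k * t) = 4 ^ (k + 1) * t := by ring
      simp only [add_zero]
      rw [e1]; ring
  have H4 : ∀ k : ℕ, Clw (1 / 6 + 1 / (2 * 4 ^ k)) o := by
    intro k
    have hp : (0 : ℝ) < 1 / (2 * 4 ^ k) := by positivity
    have A : Cl (fwdDiff (1 / (2 * 4 ^ k) : ℝ) (th o)) := by
      refine CLG2_congr (((h.cl_th.aff (4 ^ k) 0).sub ((H3 k).aff 1 (1 / (2 * 4 ^ k)))).add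
        (H3 k)) fun t => ?_
      have e1 : (4 : ℝ) ^ k * (t + 1 / (2 * 4 ^ k)) = 4 ^ k * t + 1 / 2 := by
        field_simp
      simp only [add_zero, one_mul, fwdDiff]
      rw [e1]; ring
    have B := Clw.of_fwd hp.ne' A
    have C : Clw (|(1 / (2 * 4 ^ k) : ℝ)| + 0) (fwdDiff (1 / 6 : ℝ) o) := B
    have D := Clw.of_fwd (by norm_num) C
    rw [abs_of_pos hp, add_zero, abs_of_pos (by norm_num)] at D
    exact D
  intro δ hδ
  obtain ⟨k, hk⟩ := pow_unbounded_of_one_lt (1 / δ) (by norm_num : (1 : ℝ) < 4)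
  obtain ⟨l, h1, h2, h3⟩ := H4 k (δ / 2) (by linarith)
  refine ⟨l, h1, ?_, h3⟩
  have hp : (0 : ℝ) < 4 ^ k := by positivity
  have : 1 / (2 * 4 ^ k) < δ / 2 := by
    rw [div_lt_iff₀ hδ] at hk
    rw [div_lt_iff₀ (by positivity)]
    nlinarith
  linarith

end Pool.Agent.P.MP_6d4b14_an.CL
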