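import Pool.Agent.P.MP_6d4b14_an.CLG2

/-! No jump at `1 / 16`; the global equation. -/

set_option linter.unusedSectionVars false
set_option linter.unusedVariables false

namespace Pool.Agent.P.MP_6d4b14_an.CL

open scoped Classical
open TR Function Polynomial

/-- second difference with the steps `a` and `b` -/
def CLJump_W (φ : ℝ → ℝ) (a b : ℝ) (z : ℝ) : ℝ := φ (z + a + b) - φ (z + a) - (φ (z + b) - φ z)

theorem CLJump_cl {φ : ℝ → ℝ} (h : Cl φ) (a b : ℝ) : Cl (CLJump_W φ a b) := by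
  have h1 := (h.aff 1 (a + b)).sub (h.aff 1 a)
  have h2 := (h.aff 1 b).sub h
  have h3 := h1.sub h2
  have e : CLJump_W φ a b =
      fun x => φ (1 * x + (a + b)) - φ (1 * x + a) - (φ (1 * x + b) - φ x) := by
    funext x
    simp only [CLJump_W, one_mul, add_assoc]
  rw [e]
  exact h3

theorem CLJump_shift {φ : ℝ → ℝ} {z a : ℝ} (h : Reg φ (z + a)) : Reg (fun x => φ (x + a)) z := by
  have h1 : Reg φ (1 * z + a) := by rwa [one_mul]
  have h2 := Reg.aff h1
  simpa only [one_mul] using h2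

theorem CLJump_reg {φ : ℝ → ℝ} {z a b : ℝ} (h1 : Reg φ (z + (a + b))) (h2 : Reg φ (z + a))
    (h3 : Reg φ (z + b)) (h4 : Reg φ z) : Reg (CLJump_W φ a b) z := by
  have h := ((CLJump_shift h1).sub (CLJump_shift h2)).sub ((CLJump_shift h3).sub h4)
  have e : CLJump_W φ a b =
      fun x => φ (x + (a + b)) - φ (x + a) - (φ (x + b) - φ x) := by
    funext x
    simp only [CLJump_W, add_assoc]
  rw [e]
  exact h

theorem CLJump_reg_of {φ : ℝ → ℝ} {z a b : ℝ} (h1 : Reg φ (z + (a + b))) (h2 : Reg φ (z + a))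
    (h3 : Reg φ (z + b)) (h4 : Reg (CLJump_W φ a b) z) : Reg φ z := by
  have h := (h4.sub ((CLJump_shift h1).sub (CLJump_shift h2))).add (CLJump_shift h3)
  have e : φ = fun x => CLJump_W φ a b x - (φ (x + (a + b)) - φ (x + a)) + φ (x + b) := by
    funext x
    simp only [CLJump_W, add_assoc]
    ring
  rw [e]
  exact h

theorem CLJump_zero {φ : ℝ → ℝ} {p q a b : ℝ} (ha : 0 ≤ a) (hb : 0 ≤ b)
    (h : ∀ x, p < x → x < q → φ x = 0) (x : ℝ) (h1 : p < x) (h2 : x < q - a - b) :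
    CLJump_W φ a b x = 0 := by
  rw [CLJump_W, h (x + a + b) (by linarith) (by linarith), h (x + a) (by linarith) (by linarith),
    h (x + b) (by linarith) (by linarith), h x h1 (by linarith)]
  ring

theorem CLJump_comm (φ : ℝ → ℝ) (a b c d x : ℝ) :
    CLJump_W (CLJump_W φ a b) c d x = CLJump_W (CLJump_W φ c d) a b x := by
  simp only [CLJump_W]
  ring_nf

theorem CLJump_aff (φ : ℝ → ℝ) {y c h k a b : ℝ} (hh : h * y = a) (hk : k * y = b) :
    CLJump_W (fun x => φ (x * y + c)) h k = fun x => CLJump_W φ a b (x * y + c) := by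
  funext x
  have e1 : (x + h + k) * y + c = x * y + c + a + b := by rw [← hh, ← hk]; ring
  have e2 : (x + h) * y + c = x * y + c + a := by rw [← hh]; ring
  have e3 : (x + k) * y + c = x * y + c + b := by rw [← hk]; ring
  simp only [CLJump_W, e1, e2, e3]

theorem CLJump_EE (o : ℝ → ℝ) : CLJump_W o (1 / 32) (1 / 6) = EE o := by
  funext x
  simp only [CLJump_W, EE, th]

theorem CLJump_two (o : ℝ → ℝ) {y h1 h2 h3 h4 a b : ℝ} (c : ℝ) (e1 : h1 * y = 1 / 6)
    (e2 : h2 * y = 1 / 32) (e3 : h3 * y = a) (e4 : h4 * y = b) (x : ℝ) :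
    CLJump_W (CLJump_W (fun x => o (x * y + c)) h2 h1) h3 h4 x =
      CLJump_W (EE o) a b (y * x + c) := by
  rw [CLJump_aff o e2 e1, CLJump_EE, CLJump_aff (EE o) e3 e4, mul_comm y x]

theorem CLJump_irr {G o : ℝ → ℝ} (h : Pre G o) (r q : ℚ) (hq : q ≠ 0) {z : ℝ}
    (hz : z = r + q * √2) : Reg (EE o) z := by
  apply h.reg_E
  intro n hn
  have hi : Irrational ((r : ℝ) + q * √2) := (irrational_sqrt_two.ratCast_mul hq).ratCast_add r
  apply hi
  refine ⟨n / 96, ?_⟩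
  rw [← hz]
  push_cast
  linarith

theorem CLJump_main {G o : ℝ → ℝ} (h : Pre G o) {s y y' x0 h1 h2 h3 h4 : ℝ} (hs : s = √2)
    (hy : y = 9 - 6 * s) (hy' : y' = 6 * s - 8) (hy0 : 0 < y) (hy1 : y < 1)
    (a0 : x0 * y = 1 / 16) (b0 : x0 * y' = s / 24)
    (a1 : h1 * y = 1 / 6) (b1 : h1 * y' = s / 9) (a2 : h2 * y = 1 / 32) (b2 : h2 * y' = s / 48)
    (a3 : h3 * y = s / 8) (b3 : h3 * y' = 1 / 6) (a4 : h4 * y = 3 * s / 128)
    (b4 : h4 * y' = 1 / 32) (p0 : 0 < x0) (p1 : 0 ≤ h1) (p2 : 0 ≤ h2) (p3 : 0 ≤ h3) (p4 : 0 ≤ h4)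
    (hlt : x0 < 1 - h2 - h1 - h3 - h4) : Reg (EE o) (1 / 16) := by
  have hyy : 1 - y = y' := by rw [hy, hy']; ring
  have hcl := CLJump_cl (CLJump_cl (h.cl_D y) h2 h1) h3 h4
  rw [hyy] at hcl
  have hz : ∀ x, 0 < x → x < 1 - h2 - h1 - h3 - h4 →
      CLJump_W (CLJump_W (fun x => Df G o x y) h2 h1) h3 h4 x = 0 :=
    CLJump_zero p3 p4 (CLJump_zero p2 p1 fun x hx hx' => h.loc x y hx hx' hy0 hy1)
  have r2 : Reg (fun x => CLJump_W (EE o) (s / 8) (3 * s / 128) (y * x + -y)) x0 := by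
    apply Reg.aff
    have e : y * x0 + -y = 1 / 16 - 9 + 6 * √2 := by rw [mul_comm, a0, hy, hs]; ring
    rw [e, hs]
    exact CLJump_reg (CLJump_irr h (1 / 16 - 9) (6 + 1 / 8 + 3 / 128) (by norm_num) (by push_cast; ring))
      (CLJump_irr h (1 / 16 - 9) (6 + 1 / 8) (by norm_num) (by push_cast; ring))
      (CLJump_irr h (1 / 16 - 9) (6 + 3 / 128) (by norm_num) (by push_cast; ring))
      (CLJump_irr h (1 / 16 - 9) 6 (by norm_num) (by push_cast; ring))
  have r3 : Reg (fun x => CLJump_W (EE o) (s / 48) (s / 9) (y' * x + 0)) x0 := by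
    apply Reg.aff
    have e : y' * x0 + 0 = √2 / 24 := by rw [mul_comm, b0, hs]; ring
    rw [e, hs]
    exact CLJump_reg (CLJump_irr h 0 (1 / 24 + 1 / 48 + 1 / 9) (by norm_num) (by push_cast; ring))
      (CLJump_irr h 0 (1 / 24 + 1 / 48) (by norm_num) (by push_cast; ring))
      (CLJump_irr h 0 (1 / 24 + 1 / 9) (by norm_num) (by push_cast; ring))
      (CLJump_irr h 0 (1 / 24) (by norm_num) (by push_cast; ring))
  have r4 : Reg (fun x => CLJump_W (EE o) (s / 48) (s / 9) (y' * x + -y')) x0 := by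
    apply Reg.aff
    have e : y' * x0 + -y' = 8 + √2 / 24 - 6 * √2 := by rw [mul_comm, b0, hy', hs]; ring
    rw [e, hs]
    exact CLJump_reg
      (CLJump_irr h 8 (1 / 24 - 6 + 1 / 48 + 1 / 9) (by norm_num) (by push_cast; ring))
      (CLJump_irr h 8 (1 / 24 - 6 + 1 / 48) (by norm_num) (by push_cast; ring))
      (CLJump_irr h 8 (1 / 24 - 6 + 1 / 9) (by norm_num) (by push_cast; ring))
      (CLJump_irr h 8 (1 / 24 - 6) (by norm_num) (by push_cast; ring))
  have r1 : Reg (fun x => CLJump_W (EE o) (s / 8) (3 * s / 128) (y * x + 0)) x0 := by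
    have hr := (r2.sub (r3.sub r4)).sub (Reg.of_cl hcl x0)
    refine hr.congr ?_
    filter_upwards [Ioo_mem_nhds p0 hlt] with x hx
    have t0 := hz x hx.1 hx.2
    have t1 := CLJump_two o 0 a1 a2 a3 a4 x
    have t2 := CLJump_two o (-y) a1 a2 a3 a4 x
    have t3 := CLJump_two o 0 b3 b4 b2 b1 x
    have t4 := CLJump_two o (-y') b3 b4 b2 b1 x
    rw [CLJump_comm] at t3 t4
    rw [← t1, ← t2, ← t3, ← t4]
    simp only [CLJump_W, add_zero, ← sub_eq_add_neg, add_right_comm _ h4 h3] at t0 ⊢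
    linarith
  have r0 := Reg.of_aff hy0.ne' r1
  have e : y * x0 + 0 = 1 / 16 := by rw [mul_comm, a0]; ring
  rw [e, hs] at r0
  exact CLJump_reg_of (CLJump_irr h (1 / 16) (1 / 8 + 3 / 128) (by norm_num) (by push_cast; ring))
    (CLJump_irr h (1 / 16) (1 / 8) (by norm_num) (by push_cast; ring))
    (CLJump_irr h (1 / 16) (3 / 128) (by norm_num) (by push_cast; ring)) r0

theorem Pre.reg_E16 {G o : ℝ → ℝ} (h : Pre G o) : Reg (EE o) (1 / 16) := by
  have hs2 : √2 * √2 = (2 : ℝ) := Real.mul_self_sqrt (by norm_num)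
  have hlo : (1.41421 : ℝ) < √2 := Real.lt_sqrt_of_sq_lt (by norm_num)
  have hhi : √2 < (1.41422 : ℝ) := (Real.sqrt_lt' (by norm_num)).2 (by norm_num)
  generalize hs : √2 = s at hs2 hlo hhi
  -- the inverses are `(3 + 2 s) / 3` and `(4 + 3 s) / 4`
  refine CLJump_main h (s := s) (y := 9 - 6 * s) (y' := 6 * s - 8) (x0 := (3 + 2 * s) / 48)
    (h1 := (3 + 2 * s) / 18) (h2 := (3 + 2 * s) / 96) (h3 := (4 + 3 * s) / 24)
    (h4 := (4 + 3 * s) / 128) hs.symm rfl rfl (by linarith) (by linarith)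
    ?_ ?_ ?_ ?_ ?_ ?_ ?_ ?_ ?_ ?_ (by linarith) (by linarith) (by linarith) (by linarith)
    (by linarith) (by linarith)
  all_goals nlinarith [hs2]

theorem exists_glob {g G : ℝ → ℝ} (hg : HE g) (hs : ∀ x, G (1 - x) = G x) (hc : Cl G)
    (hG : ∀ x, 0 < x → x < 1 → G x = sg g x) : Glob G := by
  obtain ⟨o, h⟩ := exists_pre hg hs hc hG
  exact glob_of_pre h (h.clw_o (h.L_zero h.reg_E16))

end Pool.Agent.P.MP_6d4b14_an.CL
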