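import Pool.Agent.P.MP_6d4b14_an.CLDefs

/-! Dilations along a rational line. -/

set_option linter.unusedSectionVars false
set_option linter.unusedVariables false

namespace Pool.Agent.P.MP_6d4b14_an.CL

open scoped Classical
open TR Function Polynomial

variable {A : Type} [CommRing A] [Algebra ℝ A] {T : ℝ → A}

theorem Dil.one (h : Dil T) : T 1 = 1 := by
  have := h.rat 1 one_ne_zero
  simpa using this

theorem Dil.mul_inv (h : Dil T) {x : ℝ} (hx : x ≠ 0) : T x * T x⁻¹ = 1 := by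
  rw [← h.mul x x⁻¹ hx (inv_ne_zero hx), mul_inv_cancel₀ hx, h.one]

theorem Dil.neg (h : Dil T) {x : ℝ} (hx : x ≠ 0) : T (-x) = T x := by
  have h1 := h.rat (-1) (by norm_num)
  have h2 := h.mul (-1) x (by norm_num) hx
  have e : ((-1 : ℚ) : ℝ) = -1 := by norm_num
  rw [e] at h1
  rw [h1, one_mul, neg_one_mul] at h2
  exact h2

theorem CLLine_ne {x : ℝ} (hx : Irrational x) (α : ℚ) : x + α ≠ 0 :=
  (hx.add_ratCast α).ne_zero

theorem CLLine_mul {a b c : A} {l1 l2 l3 : ℝ} (h : Rl a b c l1 l2 l3) (k : A)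
    (ψ : A →ₗ[ℝ] ℝ) :
    l1 • (ψ (k * c) • (k * (a * b)) + ψ (k * (a * b)) • (k * c)) +
      l2 • (ψ (k * a) • (k * (b * c)) + ψ (k * (b * c)) • (k * a)) +
      l3 • (ψ (k * b) • (k * (c * a)) + ψ (k * (c * a)) • (k * b)) = 0 := by
  have h1 := h (ψ ∘ₗ LinearMap.mulLeft ℝ k)
  simp only [LinearMap.comp_apply, LinearMap.mulLeft_apply] at h1
  have h2 := congrArg (fun z => k * z) h1
  simp only [mul_add, mul_smul_comm, mul_zero] at h2
  exact h2

theorem Dil.inv (h : Dil T) : Dil fun x => T x⁻¹ := by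
  refine ⟨fun x y hx hy => ?_, fun q hq => ?_, ?_, fun x α β γ hx ψ => ?_⟩
  · rw [_root_.mul_inv, h.mul _ _ (inv_ne_zero hx) (inv_ne_zero hy)]
  · have := h.rat q⁻¹ (inv_ne_zero hq)
    simpa using this
  · obtain ⟨ψ, hψ⟩ := h.aug
    exact ⟨ψ, fun x hx => hψ _ (inv_ne_zero hx)⟩
  · have ha := h.mul_inv (CLLine_ne hx α)
    have hb := h.mul_inv (CLLine_ne hx β)
    have hc := h.mul_inv (CLLine_ne hx γ)
    have h1 := CLLine_mul (h.rel x α β γ hx) (T (x + α)⁻¹ * T (x + β)⁻¹ * T (x + γ)⁻¹) ψ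
    set a := T (x + α)
    set b := T (x + β)
    set c := T (x + γ)
    set a' := T (x + α)⁻¹
    set b' := T (x + β)⁻¹
    set c' := T (x + γ)⁻¹
    have e1 : a' * b' * c' * c = a' * b' := by linear_combination (a' * b') * hc
    have e2 : a' * b' * c' * a = b' * c' := by linear_combination (b' * c') * ha
    have e3 : a' * b' * c' * b = c' * a' := by linear_combination (a' * c') * hb
    have e4 : a' * b' * c' * (a * b) = c' := by
      linear_combination (b * b' * c') * ha + c' * hb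
    have e5 : a' * b' * c' * (b * c) = a' := by
      linear_combination (c * c' * a') * hb + a' * hc
    have e6 : a' * b' * c' * (c * a) = b' := by
      linear_combination (a * a' * b') * hc + b' * ha
    rw [e1, e2, e3, e4, e5, e6] at h1
    rw [add_comm (ψ c' • (a' * b')), add_comm (ψ a' • (b' * c')), add_comm (ψ b' • (c' * a'))]
    exact h1

theorem Rl.key {a b c : A} {l1 l2 l3 : ℝ} (h : Rl a b c l1 l2 l3) (hl : l1 + l2 + l3 = 0)
    (hH : l1 • (a * b + c) + l2 • (b * c + a) + l3 • (c * a + b) = 0) (ψ : A →ₗ[ℝ] ℝ) :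
    l2 • (ψ (a - c) • ((b - 1) * c) + ψ ((b - 1) * c) • (a - c)) +
      l3 • (ψ (b - c) • ((a - 1) * c) + ψ ((a - 1) * c) • (b - c)) = 0 := by
  have h1 := h ψ
  have h2 := congrArg ψ hH
  simp only [map_add, map_smul, map_zero, smul_eq_mul] at h2
  have h3 := congrArg (algebraMap ℝ A) h2
  have e : l1 = -l2 - l3 := by linarith
  subst e
  have e1 : (b - 1) * c = b * c - c := by ring
  have e2 : (a - 1) * c = c * a - c := by ring
  rw [e1, e2]
  simp only [Algebra.smul_def, map_sub, map_add, map_mul, map_neg, map_zero] at h1 hH h3 ⊢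
  linear_combination h1 - algebraMap ℝ A (ψ c) * hH - c * h3

theorem sym_ne {x y : A} (h : ∀ ψ : A →ₗ[ℝ] ℝ, ψ x • y + ψ y • x = 0) : x = 0 ∨ y = 0 := by
  by_cases hx : x = 0
  · exact Or.inl hx
  right
  obtain ⟨ψ, hψ⟩ : ∃ ψ : Module.Dual ℝ A, ψ x ≠ 0 := by
    by_contra hc
    push Not at hc
    exact hx ((Module.forall_dual_apply_eq_zero_iff ℝ x).1 hc)
  have h1 := h ψ
  have h2 := congrArg ψ h1
  simp only [map_add, map_smul, map_zero, smul_eq_mul] at h2
  have h3 : ψ y = 0 := by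
    have : ψ x * ψ y = 0 := by linarith
    exact (mul_eq_zero.1 this).resolve_left hψ
  rw [h3, zero_smul, add_zero] at h1
  exact (smul_eq_zero.1 h1).resolve_left hψ

theorem CLLine_hH (h : Dil T) {u v w : ℝ} (hu : u ≠ 0) (hv : v ≠ 0) (hw : w ≠ 0) {l1 l2 l3 : ℝ}
    (hr : Rl (T u) (T v) (T w) l1 l2 l3) :
    l1 • (T u * T v + T w) + l2 • (T v * T w + T u) + l3 • (T w * T u + T v) = 0 := by
  obtain ⟨ψ, hψ⟩ := h.aug
  have h1 := hr ψ
  have e1 : ψ (T u * T v) = 1 := by rw [← h.mul _ _ hu hv]; exact hψ _ (mul_ne_zero hu hv)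
  have e2 : ψ (T v * T w) = 1 := by rw [← h.mul _ _ hv hw]; exact hψ _ (mul_ne_zero hv hw)
  have e3 : ψ (T w * T u) = 1 := by rw [← h.mul _ _ hw hu]; exact hψ _ (mul_ne_zero hw hu)
  rw [e1, e2, e3, hψ _ hu, hψ _ hv, hψ _ hw] at h1
  simpa only [one_smul] using h1

theorem CLLine_key (h : Dil T) {x : ℝ} (hx : Irrational x) (α β γ : ℚ) (ψ : A →ₗ[ℝ] ℝ) :
    ((γ : ℝ) - β) • (ψ (T (x + α) - T (x + γ)) • ((T (x + β) - 1) * T (x + γ)) +
        ψ ((T (x + β) - 1) * T (x + γ)) • (T (x + α) - T (x + γ))) +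
      ((α : ℝ) - γ) • (ψ (T (x + β) - T (x + γ)) • ((T (x + α) - 1) * T (x + γ)) +
        ψ ((T (x + α) - 1) * T (x + γ)) • (T (x + β) - T (x + γ))) = 0 :=
  (h.rel x α β γ hx).key (by ring)
    (CLLine_hH h (CLLine_ne hx α) (CLLine_ne hx β) (CLLine_ne hx γ) (h.rel x α β γ hx)) ψ

theorem Dil.one_zero (h : Dil T) {x : ℝ} (hx : Irrational x) {α β γ : ℚ} (hγ : T (x + γ) = 1)
    (hαβ : α ≠ β) : T (x + α) = 1 ∨ T (x + β) = 1 := by
  have hne : (α : ℝ) - β ≠ 0 := sub_ne_zero.2 (by exact_mod_cast hαβ)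
  have : T (x + α) - 1 = 0 ∨ T (x + β) - 1 = 0 := by
    apply sym_ne
    intro ψ
    have h1 := CLLine_key h hx α β γ ψ
    rw [hγ, mul_one, mul_one] at h1
    have h2 : ((α : ℝ) - β) • (ψ (T (x + α) - 1) • (T (x + β) - 1) +
        ψ (T (x + β) - 1) • (T (x + α) - 1)) = 0 := by
      rw [← h1]
      module
    exact (smul_eq_zero.1 h2).resolve_left hne
  rcases this with h1 | h1
  · exact Or.inl (sub_eq_zero.1 h1)
  · exact Or.inr (sub_eq_zero.1 h1)

theorem CLLine_sm_ne {x : ℝ} (hx : Irrational x) (q : ℚ) : 1 + (q : ℝ) * x ≠ 0 := by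
  by_cases hq : q = 0
  · subst hq
    simp
  · have := (hx.ratCast_mul hq).ratCast_add 1
    have e : ((1 : ℚ) : ℝ) = 1 := by norm_num
    rw [e] at this
    exact this.ne_zero

theorem CLLine_case (h : Dil T) {x : ℝ} (hx : Irrational x) {γ : ℚ} (hγ : T (x + γ) = 1) :
    T x = 1 ∨ Sm T x := by
  by_cases h0 : T x = 1
  · exact Or.inl h0
  right
  intro q
  refine ⟨CLLine_sm_ne hx q, ?_⟩
  by_cases hq : q = 0
  · subst hq
    simpa using h.one
  · have hq' : (q : ℝ) ≠ 0 := by exact_mod_cast hq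
    have h1 := h.one_zero hx hγ (α := 0) (β := q⁻¹) (inv_ne_zero hq).symm
    have h2 : T (x + (q⁻¹ : ℚ)) = 1 := by
      rcases h1 with h1 | h1
      · exact absurd (by simpa using h1) h0
      · exact h1
    have e : 1 + (q : ℝ) * x = q * (x + (q⁻¹ : ℚ)) := by
      push_cast
      field_simp
      ring
    rw [e, h.mul _ _ hq' (CLLine_ne hx _), h.rat q hq, h2, one_mul]

theorem Dil.not_inj (h : Dil T) {x : ℝ} (hx : Irrational x) (hi : ¬ Inj T x) :
    T x = 1 ∨ Sm T x ∨ Sm T x⁻¹ := by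
  by_cases h1 : ∃ γ : ℚ, T (x + γ) = 1
  · obtain ⟨γ, hγ⟩ := h1
    rcases CLLine_case h hx hγ with h2 | h2
    · exact Or.inl h2
    · exact Or.inr (Or.inl h2)
  push Not at h1
  have h2 : ∃ α β : ℚ, T (x + α) = T (x + β) ∧ α ≠ β := by
    by_contra hc
    push Not at hc
    exact hi ⟨h1, hc⟩
  obtain ⟨α, β, hT, hαβ⟩ := h2
  have hα := CLLine_ne hx α
  have hβ := CLLine_ne hx β
  have hd : β - α ≠ 0 := sub_ne_zero.2 hαβ.symm
  have hd' : (β : ℝ) - α ≠ 0 := by exact_mod_cast hd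
  have hz : Irrational (x + α)⁻¹ := (hx.add_ratCast α).inv
  have e : (x + α)⁻¹ + ((β - α)⁻¹ : ℚ) = ((β - α)⁻¹ : ℚ) * ((x + β) * (x + α)⁻¹) := by
    push_cast
    field_simp
    ring
  have h3 : T ((x + α)⁻¹ + ((β - α)⁻¹ : ℚ)) = 1 := by
    rw [e, h.mul _ _ (by exact_mod_cast inv_ne_zero hd) (mul_ne_zero hβ (inv_ne_zero hα)),
      h.rat _ (inv_ne_zero hd), h.mul _ _ hβ (inv_ne_zero hα), ← hT, h.mul_inv hα, one_mul]
  rcases CLLine_case h hz h3 with h4 | h4
  · exfalso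
    have := h.mul_inv hα
    rw [h4, mul_one] at this
    exact h1 α this
  · have h5 : ∀ r : ℚ, T (x + r) = T (x + α) := by
      intro r
      obtain ⟨h6, h7⟩ := h4 (r - α)
      have e2 : x + r = (x + α) * (1 + ((r - α : ℚ) : ℝ) * (x + α)⁻¹) := by
        push_cast
        field_simp
        ring
      rw [e2, h.mul _ _ hα h6, h7, mul_one]
    right
    right
    intro q
    refine ⟨CLLine_sm_ne hx.inv q, ?_⟩
    have hx0 := hx.ne_zero
    have e3 : 1 + (q : ℝ) * x⁻¹ = (x + q) * x⁻¹ := by field_simp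
    have h8 := h5 0
    rw [Rat.cast_zero, add_zero] at h8
    rw [e3, h.mul _ _ (CLLine_ne hx q) (inv_ne_zero hx0), h5 q, ← h8, h.mul_inv hx0]

theorem Dil.inj_inv (h : Dil T) {x : ℝ} (hx : Irrational x) (hi : Inj T x) :
    Inj (fun x => T x⁻¹) x := by
  refine ⟨fun α h1 => ?_, fun α β h1 => ?_⟩
  · have := h.mul_inv (CLLine_ne hx α)
    simp only at h1
    rw [h1, mul_one] at this
    exact hi.1 α this
  · have ha := h.mul_inv (CLLine_ne hx α)
    have hb := h.mul_inv (CLLine_ne hx β)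
    simp only at h1
    apply hi.2
    linear_combination (-T (x + α)) * hb + T (x + β) * ha - T (x + α) * T (x + β) * h1

theorem Dil.dep (h : Dil T) {x : ℝ} (hx : Irrational x) {α β γ : ℚ} (hγ : α ≠ γ) (hγ' : β ≠ γ)
    (hi : LinearIndependent ℝ ![T (x + α) - 1, T (x + β) - 1]) :
    ∃ r : ℝ, T (x + γ)⁻¹ - 1 = r • (T (x + α)⁻¹ - 1) := by
  have hα := CLLine_ne hx α
  have hβ := CLLine_ne hx β
  have hc0 := CLLine_ne hx γ
  have hci := inv_ne_zero hc0
  have ha := h.mul_inv hα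
  have hc := h.mul_inv hc0
  have hl2 : (γ : ℝ) - β ≠ 0 := sub_ne_zero.2 (by exact_mod_cast hγ'.symm)
  have hnot : T (x + β) - 1 ∉ Submodule.span ℝ {T (x + α) - 1} := by
    intro hm
    obtain ⟨r, hr⟩ := Submodule.mem_span_singleton.1 hm
    have := (LinearIndependent.pair_iff.1 hi r (-1) (by rw [hr]; simp)).2
    norm_num at this
  obtain ⟨φ0, hφ1, hφ2⟩ := Submodule.exists_le_ker_of_notMem hnot
  have hφ3 : φ0 (T (x + α) - 1) = 0 := hφ2 (Submodule.mem_span_singleton_self _)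
  have hR : Rl (T ((x + α) * (x + γ)⁻¹)) (T ((x + β) * (x + γ)⁻¹)) (T (x + γ)⁻¹)
      ((β : ℝ) - α) ((α : ℝ) - γ) ((γ : ℝ) - β) := by
    intro ψ
    have h1 := CLLine_mul (h.rel x α β γ hx) (T (x + γ)⁻¹ * T (x + γ)⁻¹) ψ
    rw [h.mul _ _ hα hci, h.mul _ _ hβ hci]
    set a := T (x + α)
    set b := T (x + β)
    set c := T (x + γ)
    set c' := T (x + γ)⁻¹
    have e1 : c' * c' * c = c' := by linear_combination c' * hc
    have e2 : c' * c' * (a * b) = a * c' * (b * c') := by ring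
    have e3 : c' * c' * a = c' * (a * c') := by ring
    have e4 : c' * c' * (b * c) = b * c' := by linear_combination (b * c') * hc
    have e5 : c' * c' * b = b * c' * c' := by ring
    have e6 : c' * c' * (c * a) = a * c' := by linear_combination (a * c') * hc
    rw [e1, e2, e3, e4, e5, e6] at h1
    rw [← h1]
    module
  have hH := CLLine_hH h (mul_ne_zero hα hci) (mul_ne_zero hβ hci) hci hR
  have hk := hR.key (by ring) hH (φ0 ∘ₗ LinearMap.mulLeft ℝ (T (x + γ)))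
  rw [h.mul _ _ hα hci, h.mul _ _ hβ hci] at hk
  simp only [LinearMap.comp_apply, LinearMap.mulLeft_apply] at hk
  set a := T (x + α)
  set b := T (x + β)
  set c := T (x + γ)
  set a' := T (x + α)⁻¹
  set c' := T (x + γ)⁻¹
  have e1 : c * (a * c' - c') = a - 1 := by linear_combination (a - 1) * hc
  have e2 : c * (b * c' - c') = b - 1 := by linear_combination (b - 1) * hc
  have e3 : c * ((a * c' - 1) * c') = a * c' - 1 := by linear_combination (a * c' - 1) * hc
  have e4 : c * ((b * c' - 1) * c') = b * c' - 1 := by linear_combination (b * c' - 1) * hc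
  rw [e1, e2, e3, e4, hφ3, zero_smul, zero_add] at hk
  have hk2 := congrArg (fun z => c * z) hk
  simp only [mul_add, mul_smul_comm, mul_zero, e1, e2, e3] at hk2
  have hk3 := congrArg φ0 hk2
  simp only [map_add, map_smul, map_zero, smul_eq_mul, hφ3] at hk3
  have hν : φ0 (a * c' - 1) = 0 := by
    have : ((γ : ℝ) - β) * φ0 (b - 1) * φ0 (a * c' - 1) = 0 := by linarith
    exact (mul_eq_zero.1 this).resolve_left (mul_ne_zero hl2 hφ1)
  rw [hν, zero_smul, add_zero] at hk2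
  set μ := φ0 (b * c' - 1)
  set s := φ0 (b - 1)
  have hk4 := congrArg (fun z => a' * z) hk2
  have e5 : a' * (a - 1) = -(a' - 1) := by linear_combination ha
  have e6 : a' * (a * c' - 1) = (c' - 1) - (a' - 1) := by linear_combination c' * ha
  simp only [mul_add, mul_smul_comm, mul_zero, e5, e6] at hk4
  have hls : ((γ : ℝ) - β) * s ≠ 0 := mul_ne_zero hl2 hφ1
  refine ⟨1 + ((α : ℝ) - γ) * μ / (((γ : ℝ) - β) * s), ?_⟩
  have h9 : (((γ : ℝ) - β) * s) • (c' - 1) =
      (((γ : ℝ) - β) * s + ((α : ℝ) - γ) * μ) • (a' - 1) := by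
    rw [← sub_eq_zero, ← hk4]
    module
  have h10 : c' - 1 = (((γ : ℝ) - β) * s)⁻¹ • ((((γ : ℝ) - β) * s) • (c' - 1)) := by
    rw [smul_smul, inv_mul_cancel₀ hls, one_smul]
  rw [h10, h9, smul_smul]
  congr 1
  field_simp

theorem Dil.den_of_dep (h : Dil T) {x : ℝ} (hx : Irrational x) (hi : Inj T x)
    (hd : ∀ α : ℚ, ∃ r : ℝ, T (x + α) - 1 = r • (T x - 1)) : ∃ δ, Den T x δ := by
  choose t ht using hd
  have he : T x - 1 ≠ 0 := by
    have := hi.1 0
    rw [Rat.cast_zero, add_zero] at this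
    exact sub_ne_zero.2 this
  have ht' : ∀ α : ℚ, T (x + α) = 1 + t α • (T x - 1) := fun α => by rw [← ht α]; ring
  have h10 : t 1 ≠ 0 := by
    intro h0
    have := ht' 1
    rw [h0, zero_smul, add_zero] at this
    exact hi.1 1 this
  have h11 : 1 - t 1 ≠ 0 := by
    intro h0
    have h1 : t 1 = 1 := by linarith
    have h2 := ht' 1
    rw [h1, one_smul] at h2
    have h3 : T (x + (1 : ℚ)) = T (x + (0 : ℚ)) := by
      rw [h2, Rat.cast_zero, add_zero]
      ring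
    exact one_ne_zero (hi.2 1 0 h3)
  have hrel : ∀ γ : ℚ, ((γ : ℝ) - 1) * (1 - t γ) * t 1 - γ * (t 1 - t γ) = 0 := by
    intro γ
    by_contra hne
    have hc := h.mul_inv (CLLine_ne hx γ)
    have hs : T x - 1 = 0 ∨ (T x - 1) * T (x + γ) = 0 := by
      apply sym_ne
      intro ψ
      have h1 := CLLine_key h hx 0 1 γ ψ
      have e0 : T (x + (0 : ℚ)) = T x := by rw [Rat.cast_zero, add_zero]
      have e1 : T x - T (x + γ) = (1 - t γ) • (T x - 1) := by
        rw [ht' γ]; module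
      have e2 : T (x + (1 : ℚ)) - T (x + γ) = (t 1 - t γ) • (T x - 1) := by
        rw [ht' γ, ht' 1]; module
      rw [e0, e1, e2, ht 1, smul_mul_assoc] at h1
      simp only [map_smul, smul_eq_mul, Rat.cast_zero, Rat.cast_one] at h1
      have h2 : (((γ : ℝ) - 1) * (1 - t γ) * t 1 - γ * (t 1 - t γ)) •
          (ψ (T x - 1) • ((T x - 1) * T (x + γ)) + ψ ((T x - 1) * T (x + γ)) • (T x - 1)) = 0 := by
        rw [← h1]
        module
      exact (smul_eq_zero.1 h2).resolve_left hne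
    rcases hs with h1 | h1
    · exact he h1
    · apply he
      linear_combination T (x + γ)⁻¹ * h1 - (T x - 1) * hc
  have hδ : t 1 / (1 - t 1) ≠ 0 := div_ne_zero h10 h11
  refine ⟨t 1 / (1 - t 1), (t 1 / (1 - t 1)) • (T x - 1), smul_ne_zero hδ he, fun α => ?_⟩
  have h1 : t α * (t 1 / (1 - t 1) + α) = t 1 / (1 - t 1) := by
    field_simp
    linear_combination hrel α
  have h2 : t 1 / (1 - t 1) + α ≠ 0 := by
    intro h0
    rw [h0, mul_zero] at h1
    exact hδ h1.symm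
  refine ⟨h2, ?_⟩
  rw [ht' α, smul_smul]
  congr 2
  rw [eq_comm, inv_mul_eq_iff_eq_mul₀ h2, mul_comm, h1]

theorem Dil.den (h : Dil T) {x : ℝ} (hx : Irrational x) (hi : Inj T x) :
    (∃ δ, Den T x δ) ∨ ∃ δ, Den (fun x => T x⁻¹) x δ := by
  by_cases hd : ∀ α : ℚ, ∃ r : ℝ, T (x + α) - 1 = r • (T x - 1)
  · exact Or.inl (h.den_of_dep hx hi hd)
  right
  push Not at hd
  obtain ⟨α, hα⟩ := hd
  have e0 : x + ((0 : ℚ) : ℝ) = x := by rw [Rat.cast_zero, add_zero]
  have he : T x - 1 ≠ 0 := by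
    have := hi.1 0
    rw [e0] at this
    exact sub_ne_zero.2 this
  have hα0 : α ≠ 0 := by
    rintro rfl
    exact hα 1 (by rw [e0, one_smul])
  have hli : LinearIndependent ℝ ![T (x + (0 : ℚ)) - 1, T (x + α) - 1] := by
    rw [e0, LinearIndependent.pair_iff' he]
    exact fun r hr => hα r hr.symm
  have hli' : LinearIndependent ℝ ![T (x + α) - 1, T (x + (0 : ℚ)) - 1] :=
    LinearIndependent.pair_symm_iff.1 hli
  have hi' := h.inj_inv hx hi
  apply h.inv.den_of_dep hx hi'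
  have hgen : ∀ γ : ℚ, γ ≠ 0 → γ ≠ α → ∃ r : ℝ, T (x + γ)⁻¹ - 1 = r • (T x⁻¹ - 1) := by
    intro γ h1 h2
    have := h.dep hx h1.symm h2.symm hli
    rwa [e0] at this
  intro γ
  by_cases h1 : γ = 0
  · subst h1
    exact ⟨1, by rw [e0, one_smul]⟩
  by_cases h2 : γ = α
  · subst h2
    have h3 : 2 * γ ≠ 0 := mul_ne_zero two_ne_zero h1
    have h4 : 2 * γ ≠ γ := fun h0 => h1 (by linarith)
    obtain ⟨r', hr'⟩ := hgen (2 * γ) h3 h4
    obtain ⟨r, hr⟩ := h.dep hx h4.symm h3.symm hli'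
    have hr0 : r ≠ 0 := by
      rintro rfl
      rw [zero_smul] at hr
      exact hi'.1 (2 * γ) (sub_eq_zero.1 hr)
    refine ⟨r⁻¹ * r', ?_⟩
    rw [mul_smul, ← hr', hr, smul_smul, inv_mul_cancel₀ hr0, one_smul]
  · exact hgen γ h1 h2

end Pool.Agent.P.MP_6d4b14_an.CL
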