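import Pool.Agent.P.MP_6d4b14_an.CLDefs

/-! Logarithms of unipotent elements. -/

set_option linter.unusedSectionVars false
set_option linter.unusedVariables false

namespace Pool.Agent.P.MP_6d4b14_an.CL

open scoped Classical
open TR Function Polynomial

variable {A : Type} [CommRing A] [Algebra ℝ A]

theorem poly_zero {p : A[X]} (h : ∀ n : ℕ, p.eval (n : A) = 0) : p = 0 := by
  ext i
  rw [coeff_zero]
  refine (Module.forall_dual_apply_eq_zero_iff ℝ _).1 fun ψ => ?_
  set q : ℝ[X] := ∑ j ∈ Finset.range (p.natDegree + 1), monomial j (ψ (p.coeff j)) with hq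
  have h1 : ∀ n : ℕ, q.eval (n : ℝ) = 0 := fun n => by
    have h2 := congrArg ψ (h n)
    rw [eval_eq_sum_range, map_sum, map_zero] at h2
    rw [hq, eval_finsetSum, ← h2]
    refine Finset.sum_congr rfl fun j _ => ?_
    have e : p.coeff j * (n : A) ^ j = ((n : ℝ) ^ j) • p.coeff j := by
      rw [Algebra.smul_def, map_pow, map_natCast, mul_comm]
    rw [eval_monomial, e, map_smul, smul_eq_mul, mul_comm]
  have h3 : q = 0 := by
    refine eq_zero_of_infinite_isRoot q ?_
    refine (Set.infinite_range_of_injective (Nat.cast_injective (R := ℝ))).mono ?_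
    rintro _ ⟨n, rfl⟩
    exact h1 n
  by_cases hi : i < p.natDegree + 1
  · have h4 := congrArg (fun r : ℝ[X] => r.coeff i) h3
    simp only [hq, finsetSum_coeff, coeff_monomial, coeff_zero] at h4
    rw [Finset.sum_ite_eq' , if_pos (Finset.mem_range.2 hi)] at h4
    exact h4
  · rw [coeff_eq_zero_of_natDegree_lt (by omega), map_zero]

/-- the polynomial that interpolates the powers -/
def CLLog_IsP (u : A) (P : A[X]) : Prop := ∀ n : ℕ, P.eval (n : A) = u ^ n

theorem CLLog_uniq {u : A} {P Q : A[X]} (hP : CLLog_IsP u P) (hQ : CLLog_IsP u Q) : P = Q :=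
  sub_eq_zero.1 (poly_zero fun n => by rw [eval_sub, hP, hQ, sub_self])

theorem CLLog_ex (x : A) (N : ℕ) (hx : x ^ N = 0) :
    CLLog_IsP (x + 1) (∑ k ∈ Finset.range N,
      C (((k.factorial : ℝ))⁻¹ • x ^ k) * descPochhammer A k) := by
  intro n
  rw [eval_finsetSum, add_pow]
  have e : ∀ k, (C (((k.factorial : ℝ))⁻¹ • x ^ k) * descPochhammer A k).eval (n : A) =
      x ^ k * (n.choose k : A) := fun k => by
    rw [eval_mul, eval_C, descPochhammer_eval_eq_descFactorial,
      Nat.descFactorial_eq_factorial_mul_choose, Nat.cast_mul, Algebra.smul_def]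
    have h1 : algebraMap ℝ A ((k.factorial : ℝ))⁻¹ * (k.factorial : A) = 1 := by
      rw [← map_natCast (algebraMap ℝ A), ← map_mul,
        inv_mul_cancel₀ (Nat.cast_ne_zero.2 k.factorial_ne_zero), map_one]
    linear_combination (x ^ k * (n.choose k : A)) * h1
  simp only [e, one_pow, mul_one]
  have h1 : ∑ k ∈ Finset.range N, x ^ k * (n.choose k : A) =
      ∑ k ∈ Finset.range (N + n + 1), x ^ k * (n.choose k : A) := by
    refine Finset.sum_subset (Finset.range_mono (by omega)) fun k _ hk => ?_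
    rw [Finset.mem_range, not_lt] at hk
    rw [pow_eq_zero_of_le hk hx, zero_mul]
  have h2 : ∑ k ∈ Finset.range (n + 1), x ^ k * (n.choose k : A) =
      ∑ k ∈ Finset.range (N + n + 1), x ^ k * (n.choose k : A) := by
    refine Finset.sum_subset (Finset.range_mono (by omega)) fun k _ hk => ?_
    rw [Finset.mem_range, not_lt] at hk
    rw [Nat.choose_eq_zero_of_lt (by omega), Nat.cast_zero, mul_zero]
  rw [h1, h2]

theorem CLLog_ex' {u : A} (hu : IsNilpotent (u - 1)) : ∃ P, CLLog_IsP u P := by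
  obtain ⟨N, hN⟩ := hu
  have h := CLLog_ex _ N hN
  rw [sub_add_cancel] at h
  exact ⟨_, h⟩

theorem CLLog_c0 {u : A} {P : A[X]} (hP : CLLog_IsP u P) : P.coeff 0 = 1 := by
  have h := hP 0
  rwa [Nat.cast_zero, pow_zero, ← coeff_zero_eq_eval_zero] at h

theorem CLLog_der {u : A} {P : A[X]} (hP : CLLog_IsP u P) :
    derivative P = C (P.coeff 1) * P := by
  refine sub_eq_zero.1 (poly_zero fun n => ?_)
  have h1 : taylor (n : A) P = C (u ^ n) * P := by
    refine sub_eq_zero.1 (poly_zero fun m => ?_)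
    rw [eval_sub, taylor_eval, eval_mul, eval_C, ← Nat.cast_add, hP, hP, pow_add]
    ring
  have h2 := congrArg (fun r : A[X] => r.coeff 1) h1
  simp only [taylor_coeff_one, coeff_C_mul] at h2
  rw [eval_sub, h2, eval_mul, eval_C, hP]
  ring

theorem CLLog_coeff {u : A} {P : A[X]} (hP : CLLog_IsP u P) (j : ℕ) :
    P.coeff j = ((j.factorial : ℝ))⁻¹ • P.coeff 1 ^ j := by
  induction j with
  | zero => simp [CLLog_c0 hP]
  | succ j ih =>
    have h1 := congrArg (fun r : A[X] => r.coeff j) (CLLog_der hP)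
    simp only [coeff_derivative, coeff_C_mul] at h1
    have h2 : P.coeff (j + 1) = ((j : ℝ) + 1)⁻¹ • (P.coeff (j + 1) * ((j : A) + 1)) := by
      have e : P.coeff (j + 1) * ((j : A) + 1) = ((j : ℝ) + 1) • P.coeff (j + 1) := by
        rw [Algebra.smul_def, map_add, map_natCast, map_one, mul_comm]
      rw [e, smul_smul, inv_mul_cancel₀ (by positivity), one_smul]
    rw [h2, h1]
    conv_lhs => rw [ih]
    rw [mul_smul_comm, smul_smul, ← pow_succ', Nat.factorial_succ, Nat.cast_mul, mul_inv,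
      Nat.cast_succ]

theorem CLLog_form {u : A} (hu : IsNilpotent (u - 1)) {P : A[X]} (hP : CLLog_IsP u P) :
    ∃ r, P.coeff 1 = (u - 1) * (1 + (u - 1) * r) := by
  obtain ⟨N, hN⟩ := hu
  have hN' : (u - 1) ^ (N + 2) = 0 := pow_eq_zero_of_le (by omega) hN
  have h := CLLog_ex _ _ hN'
  rw [sub_add_cancel] at h
  rw [CLLog_uniq hP h, finsetSum_coeff, Finset.sum_range_succ', Finset.sum_range_succ']
  refine ⟨∑ k ∈ Finset.range N, (((k + 1 + 1).factorial : ℝ))⁻¹ • (u - 1) ^ k *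
    (descPochhammer A (k + 1 + 1)).coeff 1, ?_⟩
  rw [mul_add, ← mul_assoc, Finset.mul_sum]
  simp only [coeff_C_mul, zero_add, descPochhammer_one, descPochhammer_zero, coeff_X_one,
    Nat.factorial_one, Nat.cast_one, inv_one, one_smul, pow_one, mul_one]
  rw [coeff_C_of_ne_zero one_ne_zero, add_zero, add_comm]
  congr 1
  refine Finset.sum_congr rfl fun k _ => ?_
  rw [← mul_assoc, mul_smul_comm]
  congr 2
  ring

theorem exists_lg : ∃ lg : A → A,
    (∀ u v, IsNilpotent (u - 1) → IsNilpotent (v - 1) → lg (u * v) = lg u + lg v) ∧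
    (∀ u, IsNilpotent (u - 1) → ∃ r, lg u = (u - 1) * (1 + (u - 1) * r)) ∧
    ∀ (u : A) (n : ℕ), (u - 1) ^ (n + 1) = 0 →
      u = ∑ j ∈ Finset.range (n + 1), ((j.factorial : ℝ))⁻¹ • lg u ^ j := by
  let lg : A → A := fun u => if h : ∃ P, CLLog_IsP u P then h.choose.coeff 1 else 0
  have key : ∀ {u : A} {P : A[X]}, CLLog_IsP u P → lg u = P.coeff 1 := fun {u P} hP => by
    have h : ∃ P, CLLog_IsP u P := ⟨P, hP⟩
    show (if h : ∃ P, CLLog_IsP u P then h.choose.coeff 1 else 0) = _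
    rw [dif_pos h, CLLog_uniq h.choose_spec hP]
  refine ⟨lg, fun u v hu hv => ?_, fun u hu => ?_, fun u n hn => ?_⟩
  · obtain ⟨P, hP⟩ := CLLog_ex' hu
    obtain ⟨Q, hQ⟩ := CLLog_ex' hv
    have h : CLLog_IsP (u * v) (P * Q) := fun n => by rw [eval_mul, hP, hQ, mul_pow]
    rw [key h, key hP, key hQ, mul_coeff_one, CLLog_c0 hP, CLLog_c0 hQ]
    ring
  · obtain ⟨P, hP⟩ := CLLog_ex' hu
    rw [key hP]
    exact CLLog_form hu hP
  · have hu : IsNilpotent (u - 1) := ⟨_, hn⟩
    obtain ⟨P, hP⟩ := CLLog_ex' hu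
    obtain ⟨r, hr⟩ := CLLog_form hu hP
    have hy : P.coeff 1 ^ (n + 1) = 0 := by rw [hr, mul_pow, hn, zero_mul]
    have hd : P.natDegree < n + 1 := by
      refine Nat.lt_succ_of_le (natDegree_le_iff_coeff_eq_zero.2 fun j hj => ?_)
      rw [CLLog_coeff hP, pow_eq_zero_of_le (by omega) hy, smul_zero]
    have h1 := hP 1
    rw [pow_one, eval_eq_sum_range' hd] at h1
    rw [key hP]
    refine h1.symm.trans (Finset.sum_congr rfl fun j _ => ?_)
    rw [Nat.cast_one, one_pow, mul_one]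
    exact CLLog_coeff hP j

theorem polar (L : ℝ →+ A) (n : ℕ) (z : A) (h : ∀ x, L x ^ n * z = 0) (l : List ℝ)
    (hl : l.length = n) : (l.map L).prod * z = 0 := by
  induction l generalizing n z with
  | nil =>
    subst hl
    simpa using h 0
  | cons k l ih =>
    subst hl
    have h1 : ∀ x, L x ^ l.length * (L k * z) = 0 := fun x => by
      have h2 : (C (L x) + C (L k) * X) ^ (l.length + 1) * C z = 0 := by
        refine poly_zero fun m => ?_
        have h3 := h (x + m • k)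
        rw [map_add, map_nsmul, nsmul_eq_mul, List.length_cons] at h3
        simp only [eval_mul, eval_pow, eval_add, eval_C, eval_X]
        rw [mul_comm (L k)]
        exact h3
      have h4 := congrArg (fun r : A[X] => (derivative r).eval 0) h2
      simp only [derivative_mul, derivative_pow_succ, derivative_add, derivative_C, derivative_X,
        eval_mul, eval_add, eval_pow, eval_C, eval_X, mul_zero, add_zero, zero_mul, zero_add,
        eval_zero, derivative_zero, mul_one] at h4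
      have h5 : ((l.length : ℝ) + 1) • (L x ^ l.length * (L k * z)) = 0 := by
        rw [Algebra.smul_def, map_add, map_natCast, map_one]
        linear_combination h4
      rw [← one_smul ℝ (L x ^ l.length * (L k * z)),
        ← inv_mul_cancel₀ (show ((l.length : ℝ) + 1) ≠ 0 by positivity), ← smul_smul, h5, smul_zero]
    have h6 := ih l.length (L k * z) h1 rfl
    rw [List.map_cons, List.prod_cons]
    linear_combination h6

theorem rep {n : ℕ} {φ : ℝ → ℝ} (h : GP n φ) :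
    ∃ (B : Type) (_ : CommRing B) (_ : Algebra ℝ B) (X : ℝ → B) (L : ℝ →+ B)
      (lam : B →ₗ[ℝ] ℝ), (∀ a b, X (a + b) = X a * X b) ∧ X 0 = 1 ∧ (∀ x, φ x = lam (X x)) ∧
      (∀ l : List ℝ, l.length = n + 1 → (l.map L).prod = 0) ∧
      ∀ x, X x = ∑ j ∈ Finset.range (n + 1), ((j.factorial : ℝ))⁻¹ • L x ^ j := by
  let Φ : Fn ℝ ℝ := φ
  let T : GR ℝ ℝ →ₗ[GR ℝ ℝ] Fn ℝ ℝ := LinearMap.toSpanSingleton (GR ℝ ℝ) (Fn ℝ ℝ) Φ
  let J : Ideal (GR ℝ ℝ) := LinearMap.ker T
  let Y : ℝ → GR ℝ ℝ ⧸ J := fun x => Ideal.Quotient.mk J (Xg ℝ x)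
  have hadd : ∀ a b, Y (a + b) = Y a * Y b := fun a b => by
    show Ideal.Quotient.mk J _ = Ideal.Quotient.mk J _ * Ideal.Quotient.mk J _
    rw [Xg_add, map_mul]
  have hnil : ∀ x, (Y x - 1) ^ (n + 1) = 0 := fun x => by
    have e : (Y x - 1) ^ (n + 1) = Ideal.Quotient.mk J ((Xg ℝ x - 1) ^ (n + 1)) := by
      rw [map_pow, map_sub, map_one]
    rw [e, Ideal.Quotient.eq_zero_iff_mem]
    show (Xg ℝ x - 1) ^ (n + 1) • Φ = 0
    refine Fn.ext fun s => ?_
    rw [pow_smul_apply]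
    exact congrFun (h x) s
  obtain ⟨lg, h1, h2, h3⟩ := exists_lg (A := GR ℝ ℝ ⧸ J)
  let L : ℝ →+ GR ℝ ℝ ⧸ J := AddMonoidHom.mk' (fun x => lg (Y x)) fun a b => by
    show lg (Y (a + b)) = _
    rw [hadd, h1 _ _ ⟨_, hnil a⟩ ⟨_, hnil b⟩]
  let e0 : Fn ℝ ℝ →ₗ[ℝ] ℝ :=
    { toFun := fun ψ => ψ 0, map_add' := fun _ _ => rfl, map_smul' := fun _ _ => rfl }
  let lam : (GR ℝ ℝ ⧸ J) →ₗ[ℝ] ℝ := e0.comp ((Submodule.liftQ J T le_rfl).restrictScalars ℝ)
  refine ⟨GR ℝ ℝ ⧸ J, inferInstance, inferInstance, Y, L, lam, hadd, ?_, fun x => ?_,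
    fun l hl => ?_, fun x => h3 _ n (hnil x)⟩
  · show Ideal.Quotient.mk J _ = 1
    rw [Xg_zero, map_one]
  · show φ x = (Xg ℝ x • Φ) 0
    rw [Xg_smul, zero_add]
  · have h4 := polar L (n + 1) 1 (fun x => ?_) l hl
    · rwa [mul_one] at h4
    · obtain ⟨r, hr⟩ := h2 _ ⟨_, hnil x⟩
      show lg (Y x) ^ (n + 1) * 1 = 0
      rw [hr, mul_pow, hnil, zero_mul, zero_mul]

end Pool.Agent.P.MP_6d4b14_an.CL
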