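import Pool.Agent.P.MP_6d4b14_an.TRMain
import Pool.Agent.P.MP_6d4b14_an.CLExt
import Pool.Agent.P.MP_6d4b14_an.CLJump
import Pool.Agent.P.MP_6d4b14_an.CLA
import Pool.Agent.P.MP_6d4b14_an.CLEx3

/-! The classification. -/

set_option linter.unusedSectionVars false
set_option linter.unusedVariables false

namespace Pool.Agent.P.MP_6d4b14_an.CL

open scoped Classical
open TR Function Polynomial

/-- the list -/
def Lst (G : ℝ → ℝ) : Prop :=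
  (∃ c : ℝ, ∀ x ∈ Set.Icc (0 : ℝ) 1, G x = c) ∨
  (G 0 = 1 ∧ G 1 = 1 ∧ ∃ c : ℝ, ∀ x ∈ Set.Ioo (0 : ℝ) 1, G x = c) ∨
  (∃ M : ℝ → ℝ, (∀ x ∈ Set.Icc (0 : ℝ) 1, ∀ y ∈ Set.Icc (0 : ℝ) 1, M (x * y) = M x * M y) ∧
    ∀ x ∈ Set.Icc (0 : ℝ) 1, G x = M x + M (1 - x)) ∨
  (∃ t : ℝ, ∀ x ∈ Set.Icc (0 : ℝ) 1, G x = 1 - t * (x * (1 - x))) ∨
  (∃ μ : ℝ, ∀ x ∈ Set.Icc (0 : ℝ) 1,
    G x = μ * (x ^ 4 + (1 - x) ^ 4) + (1 - μ) * (x ^ 5 + (1 - x) ^ 5)) ∨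
  ∃ O : ValuationSubring ℝ, (∀ q : ℚ, (q : ℝ) ∈ O) ∧ ∃ ρ : O.ValueGroup → ℝ,
    (∀ x ∈ O, ρ (O.valuation x) = 1) ∧ ∀ x ∈ Set.Icc (0 : ℝ) 1, G x = ρ (O.valuation x)

theorem lst_of_glob {G G' : ℝ → ℝ} (e : ∀ x ∈ Set.Icc (0 : ℝ) 1, G x = G' x)
    (h : MT G' ∨ Q4 G' ∨ Q5 G' ∨ Rad G') : Lst G := by
  rcases h with ⟨M, hM, h⟩ | ⟨t, h⟩ | ⟨μ, h⟩ | ⟨O, hq, ρ, hρ, h⟩
  · exact Or.inr (Or.inr (Or.inl ⟨M, fun x _ y _ => hM x y, fun x hx => (e x hx).trans (h x)⟩))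
  · exact Or.inr (Or.inr (Or.inr (Or.inl ⟨t, fun x hx => (e x hx).trans (h x)⟩)))
  · exact Or.inr (Or.inr (Or.inr (Or.inr (Or.inl ⟨μ, fun x hx => (e x hx).trans (h x)⟩))))
  · exact Or.inr (Or.inr (Or.inr (Or.inr (Or.inr
      ⟨O, hq, ρ, hρ, fun x hx => (e x hx).trans (h x)⟩))))

theorem lst_sg {g : ℝ → ℝ} (hg : HE g) : Lst (sg g) := by
  have hsym : ∀ x, sg g (1 - x) = sg g x := fun x => by
    simp only [sg, sub_sub_cancel]; ring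
  by_cases h0 : sg g 0 = 1
  swap
  · refine Or.inl ⟨2 * g 0 / (sg g 0 - 1), fun y hy => ?_⟩
    have := hg 0 y le_rfl zero_le_one hy.1 hy.2
    simp only [zero_mul, sub_zero, one_mul] at this
    have e : sg g y = g y + g (1 - y) := rfl
    rw [eq_div_iff (sub_ne_zero.2 h0)]
    linear_combination -this - e
  have h1 : sg g 1 = 1 := by rw [← hsym, sub_self, h0]
  rcases tri hg with ⟨M, hM, h⟩ | h | ⟨n, h⟩
  · exact Or.inr (Or.inr (Or.inl ⟨M, hM, h⟩))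
  · obtain ⟨G, e, hs, hc, p, hp0, hp⟩ := ext_per (fun x _ _ => hsym x) h
    have hG := exists_glob hg hs hc fun x hx hx' => e x hx.le hx'.le
    exact lst_of_glob (fun x hx => (e x hx.1 hx.2).symm)
      (cls_per hG ((e 0 le_rfl zero_le_one).trans h0) hp0 hp)
  · obtain ⟨G, e, hs, hn⟩ := ext_poly (fun x _ _ => hsym x) h
    have hG := exists_glob hg hs (cl_of_gp hn) e
    by_cases hG0 : G 0 = 1
    · refine lst_of_glob (G' := G) (fun x hx => ?_) ?_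
      · rcases hx.1.eq_or_lt with rfl | hx0
        · rw [h0, hG0]
        rcases hx.2.eq_or_lt with rfl | hx1
        · rw [h1, ← hs, sub_self, hG0]
        · exact (e x hx0 hx1).symm
      · rcases cls_poly hG hG0 hn with h | h | h
        · exact Or.inl h
        · exact Or.inr (Or.inl h)
        · exact Or.inr (Or.inr (Or.inl h))
    · refine Or.inr (Or.inl ⟨h0, h1, 2 * ev G 0 / (G 0 - 1), fun x hx => ?_⟩)
      rw [← e x hx.1 hx.2, eq_div_iff (sub_ne_zero.2 hG0), mul_comm]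
      exact hG.zero x

theorem Lst.congr {G G' : ℝ → ℝ} (h : Lst G) (e : ∀ x ∈ Set.Icc (0 : ℝ) 1, G' x = G x) :
    Lst G' := by
  rcases h with ⟨c, h⟩ | ⟨h0, h1, c, h⟩ | ⟨M, hM, h⟩ | ⟨t, h⟩ | ⟨μ, h⟩ | ⟨O, hq, ρ, hρ, h⟩
  · exact Or.inl ⟨c, fun x hx => (e x hx).trans (h x hx)⟩
  · exact Or.inr (Or.inl ⟨(e 0 (by simp)).trans h0, (e 1 (by simp)).trans h1, c,
      fun x hx => (e x ⟨hx.1.le, hx.2.le⟩).trans (h x hx)⟩)
  · exact Or.inr (Or.inr (Or.inl ⟨M, hM, fun x hx => (e x hx).trans (h x hx)⟩))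
  · exact Or.inr (Or.inr (Or.inr (Or.inl ⟨t, fun x hx => (e x hx).trans (h x hx)⟩)))
  · exact Or.inr (Or.inr (Or.inr (Or.inr (Or.inl ⟨μ, fun x hx => (e x hx).trans (h x hx)⟩))))
  · exact Or.inr (Or.inr (Or.inr (Or.inr (Or.inr
      ⟨O, hq, ρ, hρ, fun x hx => (e x hx).trans (h x hx)⟩))))

theorem Lst.adm {G : ℝ → ℝ} (h : Lst G) : Adm G := by
  rcases h with ⟨c, h⟩ | ⟨h0, h1, c, h⟩ | ⟨M, hM, h⟩ | ⟨t, h⟩ | ⟨μ, h⟩ | ⟨O, hq, ρ, hρ, h⟩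
  · exact (adm_const c).congr fun x hx hx' => h x ⟨hx, hx'⟩
  · refine (adm_two c).congr fun x hx hx' => ?_
    split_ifs with H
    · exact h x H
    · rcases hx.eq_or_lt with rfl | hx0
      · exact h0
      rcases hx'.eq_or_lt with rfl | hx1
      · exact h1
      · exact absurd ⟨hx0, hx1⟩ H
  · exact (adm_mul fun x y h1 h2 h3 h4 => hM x ⟨h1, h2⟩ y ⟨h3, h4⟩).congr
      fun x hx hx' => h x ⟨hx, hx'⟩
  · exact (adm_q4 t).congr fun x hx hx' => h x ⟨hx, hx'⟩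
  · exact (adm_q5 μ).congr fun x hx hx' => h x ⟨hx, hx'⟩
  · exact (adm_rad (G := fun x => ρ (O.valuation x)) ⟨O, hq, ρ, hρ, fun _ => rfl⟩).congr
      fun x hx hx' => h x ⟨hx, hx'⟩

theorem adm_iff (G : ℝ → ℝ) : Adm G ↔ Lst G :=
  ⟨fun ⟨g, hg, e⟩ => (lst_sg hg).congr fun x hx => (e x hx.1 hx.2).symm, Lst.adm⟩

end Pool.Agent.P.MP_6d4b14_an.CL
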