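import Pool.Agent.P.MP_6d4b14_an.CLQ0

/-! Degree two: a two dimensional representation. -/

set_option linter.unusedSectionVars false
set_option linter.unusedVariables false

namespace Pool.Agent.P.MP_6d4b14_an.CL

open scoped Classical
open TR Function Polynomial

variable {b : ℝ →+ ℝ →+ ℝ}

theorem CLQ1_key (h : K2 b) (p r : ℝ →+ ℝ) (e b12 b22 : ℝ) (hp1 : p 1 = 1) (hr1 : r 1 = 0)
    {w : ℝ} (hw : r w ≠ 0) (hp : ∀ x y, p (x * y) = p x * p y + e * (r x * r y))
    (hr : ∀ x y, r (x * y) = p x * r y + r x * p y)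
    (hb : ∀ x y, b x y = b 1 1 * (p x * p y) + b12 * (p x * r y + r x * p y) +
      b22 * (r x * r y)) (W : ℝ) (hW : r W = r w) :
    p W ^ 2 * (3 * b12 ^ 2 - 2 * b 1 1 * b22 - e * b 1 1 ^ 2 - (3 - b 1 1) * (e * b 1 1 - b22)) +
      r w ^ 2 * (e * b12 ^ 2 - b22 ^ 2 + (3 - b 1 1) * e * (e * b 1 1 - b22)) = 0 := by
  have hW0 : W ≠ 0 := by
    intro h0
    rw [h0, map_zero] at hW
    exact hw hW.symm
  have e1 := hp W W⁻¹
  have e2 := hr W W⁻¹
  rw [mul_inv_cancel₀ hW0] at e1 e2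
  rw [hp1, hW] at e1
  rw [hr1, hW] at e2
  have k := h.eq W 1 w hW0
  rw [mul_one, hb W W, hb W⁻¹ w, hb W⁻¹ 1, hb W (W * w), hb (W * w) 1, hb w W, hp W w, hr W w,
    hp1, hr1, hW] at k
  generalize p W⁻¹ = u at *
  generalize r W⁻¹ = v at *
  generalize p W = S at *
  generalize p w = P at *
  generalize b 1 1 = β at *
  generalize r w = R at *
  have hu : u * (S ^ 2 - e * R ^ 2) = S := by linear_combination (-S) * e1 + e * R * e2
  have hv : v * (S ^ 2 - e * R ^ 2) = -R := by linear_combination R * e1 - S * e2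
  have hR2 : R ^ 2 ≠ 0 := pow_ne_zero 2 hw
  apply mul_left_cancel₀ hR2
  rw [mul_zero]
  linear_combination (S ^ 2 - e * R ^ 2) * k -
    ((β * (S * S) + b12 * (S * R + R * S) + b22 * (R * R)) * (β * P + b12 * R) -
      β * (β * (S * (S * P + e * (R * R))) + b12 * (S * (S * R + R * P) + R * (S * P + e * (R * R))) +
        b22 * (R * (S * R + R * P)))) * hu -
    ((β * (S * S) + b12 * (S * R + R * S) + b22 * (R * R)) * (b12 * P + b22 * R) -
      b12 * (β * (S * (S * P + e * (R * R))) + b12 * (S * (S * R + R * P) + R * (S * P + e * (R * R))) +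
        b22 * (R * (S * R + R * P)))) * hv

theorem K2.normal (h : K2 b) (p r : ℝ →+ ℝ) (e b12 b22 : ℝ) (hp1 : p 1 = 1) (hr1 : r 1 = 0)
    {w : ℝ} (hw : r w ≠ 0) (hp : ∀ x y, p (x * y) = p x * p y + e * (r x * r y))
    (hr : ∀ x y, r (x * y) = p x * r y + r x * p y)
    (hb : ∀ x y, b x y = b 1 1 * (p x * p y) + b12 * (p x * r y + r x * p y) +
      b22 * (r x * r y)) : QM b := by
  rcases lt_or_ge 0 e with he | he
  · exfalso
    have hs : Real.sqrt e * Real.sqrt e = e := Real.mul_self_sqrt he.le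
    have hs0 : Real.sqrt e ≠ 0 := (Real.sqrt_pos.mpr he).ne'
    have key : ∀ s : ℝ, s * s = e → p w + s * r w = w := by
      intro s hs
      have := add_id (p + (AddMonoidHom.mulLeft s).comp r) (by simp [hp1, hr1]) (by
        intro x y
        simp only [AddMonoidHom.add_apply, AddMonoidHom.coe_comp, comp_apply,
          AddMonoidHom.coe_mulLeft]
        rw [hp, hr, ← hs]
        ring) w
      simpa using this
    have k1 := key _ hs
    have k2 := key (-Real.sqrt e) (by rw [neg_mul_neg, hs])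
    have : Real.sqrt e * r w = 0 := by linarith
    rcases mul_eq_zero.mp this with h0 | h0
    · exact hs0 h0
    · exact hw h0
  have k0 := CLQ1_key h p r e b12 b22 hp1 hr1 hw hp hr hb w rfl
  have k1 := CLQ1_key h p r e b12 b22 hp1 hr1 hw hp hr hb (w + 1) (by rw [map_add, hr1, add_zero])
  have k2 := CLQ1_key h p r e b12 b22 hp1 hr1 hw hp hr hb (w + 1 + 1)
    (by rw [map_add, map_add, hr1, add_zero, add_zero])
  rw [map_add, hp1] at k1
  rw [map_add, map_add, hp1] at k2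
  have hA : 3 * b12 ^ 2 - 2 * b 1 1 * b22 - e * b 1 1 ^ 2 - (3 - b 1 1) * (e * b 1 1 - b22) = 0 := by
    linear_combination (1 / 2) * k0 - k1 + (1 / 2) * k2
  have hC : e * b12 ^ 2 - b22 ^ 2 + (3 - b 1 1) * e * (e * b 1 1 - b22) = 0 := by
    rw [hA, mul_zero, zero_add] at k0
    exact (mul_eq_zero.mp k0).resolve_left (pow_ne_zero 2 hw)
  have hx : b12 ^ 2 = e * b 1 1 + (b 1 1 - 1) * b22 := by linear_combination (1 / 3) * hA
  have hy : (b22 - e * b 1 1) * (b22 + e * (4 - b 1 1)) = 0 := by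
    linear_combination -hC + e * hx
  intro x y
  rw [hb (x * y) (x * y), hb x x, hb y y, hp x y, hr x y]
  rcases he.eq_or_lt with he0 | he0
  · have hy0 : b22 = 0 := by
      rw [he0] at hy
      have : b22 * b22 = 0 := by linear_combination hy
      exact mul_self_eq_zero.mp this
    have hx0 : b12 = 0 := by
      rw [he0, hy0] at hx
      have : b12 ^ 2 = 0 := by linear_combination hx
      exact pow_eq_zero_iff (two_ne_zero) |>.mp this
    rw [hy0, hx0, he0]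
    ring
  · rcases mul_eq_zero.mp hy with h1 | h1
    · have hb22 : b22 = e * b 1 1 := by linarith
      have hx2 : b12 ^ 2 = e * b 1 1 ^ 2 := by rw [hx, hb22]; ring
      have hβ : b 1 1 = 0 := by
        by_contra hne
        have h2 : 0 < b 1 1 ^ 2 := by positivity
        have h3 : e * b 1 1 ^ 2 < 0 := mul_neg_of_neg_of_pos he0 h2
        have h4 := sq_nonneg b12
        linarith
      have hx0 : b12 = 0 := by
        rw [hβ] at hx2
        have : b12 ^ 2 = 0 := by linear_combination hx2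
        exact pow_eq_zero_iff (two_ne_zero) |>.mp this
      rw [hb22, hx0, hβ]
      ring
    · have hb22 : b22 = -(e * (4 - b 1 1)) := by linarith
      have hx2 : b12 ^ 2 = e * (b 1 1 - 2) ^ 2 := by rw [hx, hb22]; ring
      have hβ : b 1 1 - 2 = 0 := by
        by_contra hne
        have h2 : 0 < (b 1 1 - 2) ^ 2 := by positivity
        have h3 : e * (b 1 1 - 2) ^ 2 < 0 := mul_neg_of_neg_of_pos he0 h2
        have h4 := sq_nonneg b12
        linarith
      have hx0 : b12 = 0 := by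
        rw [hβ] at hx2
        have : b12 ^ 2 = 0 := by linear_combination hx2
        exact pow_eq_zero_iff (two_ne_zero) |>.mp this
      have hβ2 : b 1 1 = 2 := by linarith
      rw [hb22, hx0, hβ2]
      ring

theorem CLQ1_struct (p1 r : ℝ →+ ℝ) (hp1 : p1 1 = 1) (hr1 : r 1 = 0) {w1 : ℝ} (hw : r w1 ≠ 0)
    (f : ℝ → ℝ) (hf : ∀ w, ∃ x y : ℝ, ∀ c, f (w * c) = x * p1 c + y * r c) :
    ∃ t : ℝ, ∀ w c, f (w * c) = f w * p1 c +
      ((f w1 * p1 w - f w * p1 w1) / r w1 + t * r w) * r c := by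
  choose X Y hXY using hf
  have hX : ∀ w, X w = f w := by
    intro w
    have := hXY w 1
    rw [mul_one, hp1, hr1] at this
    linarith
  refine ⟨Y w1 / r w1, fun w c => ?_⟩
  have h1 := hXY w w1
  have h2 := hXY w1 w
  rw [mul_comm w1 w, h1, hX, hX] at h2
  have hY : Y w = (f w1 * p1 w - f w * p1 w1) / r w1 + Y w1 / r w1 * r w := by
    field_simp
    linear_combination h2
  rw [hXY, hX, ← hY]

theorem exists_normal (α r0 : ℝ →+ ℝ) {e0 e1 : ℝ} (h0 : α e0 ≠ 0) (h0' : r0 e0 = 0)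
    (h1 : r0 e1 ≠ 0) (hα : ∀ w, ∃ x y : ℝ, ∀ c, α (w * c) = x * α c + y * r0 c)
    (hr : ∀ w, ∃ x y : ℝ, ∀ c, r0 (w * c) = x * α c + y * r0 c) :
    ∃ (p r : ℝ →+ ℝ) (e w a11 a12 a21 a22 : ℝ), p 1 = 1 ∧ r 1 = 0 ∧ r w ≠ 0 ∧
      (∀ x y, p (x * y) = p x * p y + e * (r x * r y)) ∧
      (∀ x y, r (x * y) = p x * r y + r x * p y) ∧ (∀ x, α x = a11 * p x + a12 * r x) ∧
      ∀ x, r0 x = a21 * p x + a22 * r x := by
  obtain ⟨β, hβ⟩ : ∃ β, β = α 1 := ⟨_, rfl⟩
  obtain ⟨s, hs⟩ : ∃ s, s = r0 1 := ⟨_, rfl⟩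
  have hD : β ^ 2 + s ^ 2 ≠ 0 := by
    intro hD
    have hb0 : β = 0 := by nlinarith [sq_nonneg β, sq_nonneg s]
    have hs0 : s = 0 := by nlinarith [sq_nonneg β, sq_nonneg s]
    obtain ⟨x, y, hxy⟩ := hα e0
    have := hxy 1
    rw [mul_one, ← hβ, ← hs, hb0, hs0] at this
    exact h0 (by linarith)
  obtain ⟨D, hDd⟩ : ∃ D, D = β ^ 2 + s ^ 2 := ⟨_, rfl⟩
  rw [← hDd] at hD
  obtain ⟨r, hrd⟩ : ∃ r : ℝ →+ ℝ, ∀ x, r x = β * r0 x - s * α x :=
    ⟨(AddMonoidHom.mulLeft β).comp r0 - (AddMonoidHom.mulLeft s).comp α, fun x => by simp⟩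
  obtain ⟨p1, hpd⟩ : ∃ p1 : ℝ →+ ℝ, ∀ x, p1 x = β / D * α x + s / D * r0 x :=
    ⟨(AddMonoidHom.mulLeft (β / D)).comp α + (AddMonoidHom.mulLeft (s / D)).comp r0,
      fun x => by simp⟩
  have hp1 : p1 1 = 1 := by
    rw [hpd, ← hβ, ← hs]
    field_simp
    linear_combination -hDd
  have hr1 : r 1 = 0 := by
    rw [hrd, ← hβ, ← hs]
    ring
  have ha : ∀ x, α x = β * p1 x + (-s / D) * r x := by
    intro x
    rw [hpd, hrd]
    field_simp
    linear_combination α x * hDd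
  have hb : ∀ x, r0 x = s * p1 x + (β / D) * r x := by
    intro x
    rw [hpd, hrd]
    field_simp
    linear_combination r0 x * hDd
  obtain ⟨w1, hw1⟩ : ∃ w1, r w1 ≠ 0 := by
    by_cases hs0 : s = 0
    · refine ⟨e1, ?_⟩
      rw [hrd, hs0, zero_mul, sub_zero]
      refine mul_ne_zero ?_ h1
      intro hb0
      apply hD
      rw [hDd, hb0, hs0]
      ring
    · refine ⟨e0, ?_⟩
      rw [hrd, h0', mul_zero, zero_sub]
      exact neg_ne_zero.mpr (mul_ne_zero hs0 h0)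
  have hcomb : ∀ (u v : ℝ) (w : ℝ), ∃ x y : ℝ, ∀ c,
      u * α (w * c) + v * r0 (w * c) = x * p1 c + y * r c := by
    intro u v w
    obtain ⟨x1, y1, h1⟩ := hα w
    obtain ⟨x2, y2, h2⟩ := hr w
    refine ⟨(u * x1 + v * x2) * β + (u * y1 + v * y2) * s,
      (u * x1 + v * x2) * (-s / D) + (u * y1 + v * y2) * (β / D), fun c => ?_⟩
    rw [h1, h2, ha c, hb c]
    ring
  obtain ⟨t1, ht1⟩ := CLQ1_struct p1 r hp1 hr1 hw1 p1 (by
    intro w
    obtain ⟨x, y, hxy⟩ := hcomb (β / D) (s / D) w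
    exact ⟨x, y, fun c => by rw [hpd, hxy]⟩)
  obtain ⟨t2, ht2⟩ := CLQ1_struct p1 r hp1 hr1 hw1 r (by
    intro w
    obtain ⟨x, y, hxy⟩ := hcomb (-s) β w
    exact ⟨x, y, fun c => by rw [hrd, ← hxy]; ring⟩)
  obtain ⟨τ, hτ⟩ : ∃ τ, τ = t2 - p1 w1 / r w1 := ⟨_, rfl⟩
  have hP : ∀ x y, p1 (x * y) = p1 x * p1 y + t1 * (r x * r y) := by
    intro x y
    rw [ht1]
    field_simp
    ring
  have hR : ∀ x y, r (x * y) = r x * p1 y + p1 x * r y + τ * (r x * r y) := by
    intro x y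
    rw [ht2, hτ]
    field_simp
    ring
  obtain ⟨p, hpp⟩ : ∃ p : ℝ →+ ℝ, ∀ x, p x = p1 x + τ / 2 * r x :=
    ⟨p1 + (AddMonoidHom.mulLeft (τ / 2)).comp r, fun x => by simp⟩
  refine ⟨p, r, t1 + τ ^ 2 / 4, w1, β, -s / D - β * (τ / 2), s, β / D - s * (τ / 2), ?_, hr1, hw1,
    ?_, ?_, ?_, ?_⟩
  · rw [hpp, hp1, hr1]; ring
  · intro x y
    rw [hpp, hpp, hpp, hP, hR]
    ring
  · intro x y
    rw [hpp, hpp, hR]
    ring
  · intro x
    rw [hpp, ha x]
    ring
  · intro x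
    rw [hpp, hb x]
    ring

theorem CLQ1_anti (h : K2 b) (w a c : ℝ) : om b w a c = -om b w c a := by
  unfold om
  rw [h.symm (w * c) a, h.symm c (w * a)]
  ring

theorem CLQ1_add (w w' a c : ℝ) : om b (w + w') a c = om b w a c + om b w' a c := by
  unfold om
  simp only [add_mul, map_add, AddMonoidHom.add_apply]
  ring

theorem K2.rank_one (h : K2 b) {e0 w0 c0 : ℝ} (h0 : b 1 e0 ≠ 0) (h1 : om b w0 e0 c0 ≠ 0)
    (h2 : ∀ w c, om b w e0 c * om b w0 e0 c0 = om b w e0 c0 * om b w0 e0 c) : QM b := by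
  obtain ⟨r0, hr0⟩ : ∃ r0 : ℝ →+ ℝ, ∀ c, r0 c = om b w0 e0 c :=
    ⟨AddMonoidHom.mk' (fun c => om b w0 e0 c) (fun x y => by
      unfold om
      simp only [mul_add, map_add, AddMonoidHom.add_apply]
      ring), fun c => rfl⟩
  obtain ⟨ρ, hρ⟩ : ∃ ρ : ℝ → ℝ, ∀ w, ρ w = om b w e0 c0 / om b w0 e0 c0 := ⟨_, fun w => rfl⟩
  have hrw : ∀ w c, om b w e0 c = ρ w * r0 c := by
    intro w c
    rw [hρ, hr0]
    field_simp
    linear_combination h2 w c
  have hρadd : ∀ w w', ρ (w + w') = ρ w + ρ w' := by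
    intro w w'
    rw [hρ, hρ, hρ, CLQ1_add, add_div]
  have hρ0 : ρ w0 = 1 := by rw [hρ]; exact div_self h1
  have hc0 : r0 c0 ≠ 0 := by rw [hr0]; exact h1
  have he0 : r0 e0 = 0 := by
    have := CLQ1_anti h w0 e0 e0
    rw [hr0]
    linarith
  have hom : ∀ w a c, b 1 e0 * om b w a c = ρ w * (b 1 a * r0 c - b 1 c * r0 a) := by
    intro w a c
    have k := (h.dv w).1 a c e0
    simp only at k
    rw [CLQ1_anti h w c e0, hrw, hrw] at k
    linear_combination k
  have hspan : ∀ (w : ℝ) (f : ℝ → ℝ), ρ w ≠ 0 → Dv (om b w) f →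
      ∃ x y : ℝ, ∀ a, f a = x * b 1 a + y * r0 a := by
    intro w f hw hf
    refine ⟨f e0 / b 1 e0, (f c0 - f e0 * b 1 c0 / b 1 e0) / r0 c0, fun a => ?_⟩
    have k := hf a e0 c0
    rw [CLQ1_anti h w a e0, hrw, hrw] at k
    have k2 := hom w c0 a
    have k3 : ρ w * (b 1 e0 * (f a * r0 c0) + f e0 * (b 1 c0 * r0 a - b 1 a * r0 c0) -
        b 1 e0 * (f c0 * r0 a)) = 0 := by
      linear_combination b 1 e0 * k - f e0 * k2
    have k4 := (mul_eq_zero.mp k3).resolve_left hw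
    field_simp
    linear_combination k4
  have hext : ∀ F : ℝ → ℝ → ℝ, (∀ w w' c, F (w + w') c = F w c + F w' c) →
      (∀ w, ρ w ≠ 0 → ∃ x y : ℝ, ∀ c, F w c = x * b 1 c + y * r0 c) →
      ∀ w, ∃ x y : ℝ, ∀ c, F w c = x * b 1 c + y * r0 c := by
    intro F hF hG w
    by_cases hw : ρ w = 0
    · obtain ⟨x1, y1, k1⟩ := hG (w + w0) (by rw [hρadd, hw, hρ0]; norm_num)
      obtain ⟨x2, y2, k2⟩ := hG w0 (by rw [hρ0]; norm_num)
      refine ⟨x1 - x2, y1 - y2, fun c => ?_⟩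
      have := hF w w0 c
      rw [k1, k2] at this
      linear_combination -this
    · exact hG w hw
  have hA : ∀ w, ∃ x y : ℝ, ∀ c, b 1 (w * c) = x * b 1 c + y * r0 c :=
    hext (fun w c => b 1 (w * c)) (fun w w' c => by simp only [add_mul, map_add])
      (fun w hw => hspan w _ hw (h.dv w).2.2.1)
  have hB : ∀ w, ∃ x y : ℝ, ∀ c, b w c = x * b 1 c + y * r0 c :=
    hext (fun w c => b w c) (fun w w' c => by simp only [map_add, AddMonoidHom.add_apply])
      (fun w hw => hspan w _ hw (h.dv w).2.1)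
  have hR : ∀ w, ∃ x y : ℝ, ∀ c, r0 (w * c) = x * b 1 c + y * r0 c := by
    refine hext (fun w c => r0 (w * c)) (fun w w' c => by simp only [add_mul, map_add]) ?_
    intro w hw
    have hw0 : w ≠ 0 := by
      intro hz
      apply hw
      have := hρadd 0 0
      rw [add_zero] at this
      rw [hz]
      linarith
    have hinv : ∀ a c, om b w⁻¹ (w * a) (w * c) = -om b w a c := by
      intro a c
      unfold om
      rw [inv_mul_cancel_left₀ hw0, inv_mul_cancel_left₀ hw0]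
      ring
    have hk : ∀ a c, ρ w⁻¹ * (b 1 (w * a) * r0 (w * c) - b 1 (w * c) * r0 (w * a)) =
        -(ρ w * (b 1 a * r0 c - b 1 c * r0 a)) := by
      intro a c
      rw [← hom, ← hom, hinv]
      ring
    have hρi : ρ w⁻¹ ≠ 0 := by
      intro hz
      have k := hk e0 c0
      rw [hz, he0, zero_mul, mul_zero, sub_zero] at k
      exact mul_ne_zero hw (mul_ne_zero h0 hc0) (by linarith)
    refine ⟨ρ w * r0 (w⁻¹ * e0) / (ρ w⁻¹ * b 1 e0), -(ρ w * b 1 (w⁻¹ * e0)) / (ρ w⁻¹ * b 1 e0),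
      fun c => ?_⟩
    have k := hk (w⁻¹ * e0) c
    rw [mul_inv_cancel_left₀ hw0, he0] at k
    generalize ρ w⁻¹ = A at *
    generalize w⁻¹ * e0 = z at *
    field_simp
    linear_combination k
  obtain ⟨p, r, e, w1, a11, a12, a21, a22, hp1, hr1, hw1, hp, hr, ha, hb⟩ :=
    exists_normal (b 1) r0 h0 he0 hc0 hA hR
  have hβ : a11 = b 1 1 := by
    have := ha 1
    rw [hp1, hr1] at this
    linarith
  have hB' : ∀ w, ∃ y : ℝ, ∀ c, b w c = b 1 w * p c + y * r c := by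
    intro w
    obtain ⟨x, y, hxy⟩ := hB w
    have k : ∀ c, b w c = (x * a11 + y * a21) * p c + (x * a12 + y * a22) * r c := by
      intro c
      rw [hxy, ha c, hb c]
      ring
    have k1 := k 1
    rw [hp1, hr1, h.symm w 1] at k1
    refine ⟨x * a12 + y * a22, fun c => ?_⟩
    rw [k c, k1]
    ring
  choose Y hY using hB'
  refine h.normal p r e a12 ((Y w1 - a12 * p w1) / r w1) hp1 hr1 hw1 hp hr ?_
  intro x y
  have k1 := hY x w1
  have k2 := hY w1 x
  rw [h.symm w1 x, k1, ha x, ha w1] at k2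
  have hYx : Y x = a12 * p x + (Y w1 - a12 * p w1) / r w1 * r x := by
    field_simp
    linear_combination k2
  rw [hY x y, hYx, ha x, hβ]
  ring

end Pool.Agent.P.MP_6d4b14_an.CL
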