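import Pool.Agent.P.MP_6d4b14_an.CLLog
import Pool.Agent.P.MP_6d4b14_an.CLCl

/-! The top form of a generalised polynomial. -/

set_option linter.unusedSectionVars false
set_option linter.unusedVariables false

namespace Pool.Agent.P.MP_6d4b14_an.CL

open scoped Classical
open TR Function Polynomial

theorem CLRep_poly_eq {p p' : ℝ[X]} (h : ∀ q : ℚ, p.eval (q : ℝ) = p'.eval (q : ℝ)) : p = p' := by
  apply Polynomial.eq_of_infinite_eval_eq
  refine Set.Infinite.mono ?_ (Set.infinite_range_of_injective (Rat.cast_injective (α := ℝ)))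
  rintro _ ⟨q, rfl⟩
  exact h q

theorem dd_eq {T : ℝ → ℝ} {t h : ℝ} {p : ℝ[X]} (H : ∀ q : ℚ, T (q * h + t) = p.eval (q : ℝ)) :
    dd T t h = p.coeff 1 := by
  have H' : ∃ p : ℝ[X], ∀ q : ℚ, T (q * h + t) = p.eval (q : ℝ) := ⟨p, H⟩
  rw [dd, dif_pos H']
  have : H'.choose = p := CLRep_poly_eq fun q => by rw [← H'.choose_spec q, H q]
  rw [this]

theorem Tp.unique {n : ℕ} {φ T T' : ℝ → ℝ} (h : Tp n φ T) (h' : Tp n φ T') : T = T' := by
  funext t
  obtain ⟨p, -, hc, hp⟩ := h t 0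
  obtain ⟨p', -, hc', hp'⟩ := h' t 0
  have : p = p' := CLRep_poly_eq fun q => by rw [← hp q, hp' q]
  rw [← hc, ← hc', this]

theorem Tp.gp {n : ℕ} {φ T : ℝ → ℝ} (h : Tp n φ T) : GP n φ := by
  intro t
  funext c
  obtain ⟨p, hd, -, hp⟩ := h t c
  have h0 : (fwdDiff (1 : ℝ))^[n + 1] p.eval = 0 :=
    Polynomial.fwdDiff_iter_eq_zero_of_degree_lt (Nat.lt_succ_of_le hd)
  have h1 := congrFun h0 0
  rw [fwdDiff_iter_eq_sum_shift, Pi.zero_apply] at h1 ⊢
  rw [← h1]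
  refine Finset.sum_congr rfl fun k _ => ?_
  have e := hp (k : ℚ)
  rw [Rat.cast_natCast] at e
  have e1 : c + k • t = (k : ℝ) * t + c := by rw [nsmul_eq_mul, add_comm]
  have e2 : (0 : ℝ) + k • (1 : ℝ) = (k : ℝ) := by simp
  rw [e1, e2, e]

/-- the data given by the representation theorem -/
structure CLRep_R (n : ℕ) (φ : ℝ → ℝ) {B : Type} [CommRing B] [Algebra ℝ B] (X : ℝ → B)
    (L : ℝ →+ B) (lam : B →ₗ[ℝ] ℝ) : Prop where
  add : ∀ a b, X (a + b) = X a * X b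
  zero : X 0 = 1
  val : ∀ x, φ x = lam (X x)
  nil : ∀ l : List ℝ, l.length = n + 1 → (l.map L).prod = 0
  exp : ∀ x, X x = ∑ j ∈ Finset.range (n + 1), ((j.factorial : ℝ))⁻¹ • L x ^ j

section R

variable {n : ℕ} {φ : ℝ → ℝ} {B : Type} [CommRing B] [Algebra ℝ B] {X : ℝ → B}
  {L : ℝ →+ B} {lam : B →ₗ[ℝ] ℝ}

theorem CLRep_rat (L : ℝ →+ B) (q : ℚ) (t : ℝ) : L (q * t) = (q : ℝ) • L t := by
  have := map_ratCast_smul L ℝ ℝ q t
  rwa [smul_eq_mul] at this

theorem CLRep_R.pow_mul (R : CLRep_R n φ X L lam) (t c : ℝ) : L t ^ n * L c = 0 := by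
  have := R.nil (c :: List.replicate n t) (by simp)
  simpa [mul_comm] using this

theorem CLRep_R.pow_mul2 (R : CLRep_R (n + 1) φ X L lam) (t c d : ℝ) :
    L t ^ n * L c * L d = 0 := by
  have := R.nil (d :: c :: List.replicate n t) (by simp)
  simp only [List.map_cons, List.map_replicate, List.prod_cons, List.prod_replicate] at this
  rw [← this]
  ring

theorem CLRep_R.two (R : CLRep_R n φ X L lam) (h : ℝ) :
    ∃ r, X h = 1 + L h * (1 + L h * r) := by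
  rcases n with _ | n
  · have h0 : L h = 0 := by simpa using R.pow_mul h h
    refine ⟨0, ?_⟩
    rw [R.exp h, h0]
    simp
  · refine ⟨∑ j ∈ Finset.range n, (((j + 1 + 1).factorial : ℝ))⁻¹ • L h ^ j, ?_⟩
    rw [R.exp h, Finset.sum_range_succ', Finset.sum_range_succ']
    simp only [Nat.factorial_zero, Nat.cast_one, inv_one, pow_zero, one_smul, zero_add,
      Nat.factorial_one, pow_one, mul_add, mul_one, Finset.mul_sum, mul_smul_comm]
    have : ∀ j : ℕ, L h * (L h * L h ^ j) = L h ^ (j + 1 + 1) := fun j => by ring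
    simp only [this]
    ring

theorem CLRep_R.one (R : CLRep_R n φ X L lam) (h : ℝ) : ∃ r, X h = 1 + L h * r := by
  obtain ⟨r, hr⟩ := R.two h
  exact ⟨_, hr⟩

theorem CLRep_R.pow_X (R : CLRep_R n φ X L lam) (t c : ℝ) : L t ^ n * X c = L t ^ n := by
  obtain ⟨r, hr⟩ := R.one c
  rw [hr, mul_add, mul_one, ← mul_assoc, R.pow_mul, zero_mul, add_zero]

theorem CLRep_R.dfl (R : CLRep_R n φ X L lam) (l : List ℝ) (x : ℝ) :
    dfl l φ x = lam ((l.map fun h => X h - 1).prod * X x) := by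
  induction l generalizing x with
  | nil => simpa [CL.dfl] using R.val x
  | cons h l ih =>
    have e : CL.dfl (h :: l) φ x = CL.dfl l φ (x + h) - CL.dfl l φ x := rfl
    rw [e, ih, ih, ← map_sub, R.add, List.map_cons, List.prod_cons]
    congr 1
    ring

theorem CLRep_R.prod (R : CLRep_R n φ X L lam) (l : List ℝ) :
    ∃ r, (l.map fun h => X h - 1).prod = (l.map L).prod * r := by
  induction l with
  | nil => exact ⟨1, by simp⟩
  | cons h l ih =>
    obtain ⟨r, hr⟩ := ih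
    obtain ⟨s, hs⟩ := R.one h
    refine ⟨s * r, ?_⟩
    rw [List.map_cons, List.prod_cons, hr, List.map_cons, List.prod_cons, hs]
    ring

theorem CLRep_R.line (R : CLRep_R n φ X L lam) (q : ℚ) (t : ℝ) (z : B) :
    lam (X (q * t) * z) =
      ∑ j ∈ Finset.range (n + 1), ((j.factorial : ℝ))⁻¹ * lam (L t ^ j * z) * (q : ℝ) ^ j := by
  rw [R.exp, Finset.sum_mul, map_sum]
  refine Finset.sum_congr rfl fun j _ => ?_
  rw [CLRep_rat, _root_.smul_pow, smul_mul_assoc, smul_mul_assoc, map_smul, map_smul, smul_eq_mul,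
    smul_eq_mul]
  ring

end R

/-- the polynomial with given coefficients -/
noncomputable def CLRep_P (n : ℕ) (a : ℕ → ℝ) : ℝ[X] :=
  ∑ j ∈ Finset.range (n + 1), monomial j (a j)

theorem CLRep_P_deg (n : ℕ) (a : ℕ → ℝ) : (CLRep_P n a).natDegree ≤ n := by
  refine natDegree_sum_le_of_forall_le _ _ fun j hj => ?_
  exact (natDegree_monomial_le _).trans (Nat.lt_succ_iff.mp (Finset.mem_range.mp hj))

theorem CLRep_P_coeff (n : ℕ) (a : ℕ → ℝ) (k : ℕ) :
    (CLRep_P n a).coeff k = if k < n + 1 then a k else 0 := by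
  simp only [CLRep_P, finsetSum_coeff, coeff_monomial, Finset.sum_ite_eq', Finset.mem_range]

theorem CLRep_P_eval (n : ℕ) (a : ℕ → ℝ) (x : ℝ) :
    (CLRep_P n a).eval x = ∑ j ∈ Finset.range (n + 1), a j * x ^ j := by
  simp only [CLRep_P, eval_finsetSum, eval_monomial]

section R2

variable {n : ℕ} {φ : ℝ → ℝ} {B : Type} [CommRing B] [Algebra ℝ B] {X : ℝ → B}
  {L : ℝ →+ B} {lam : B →ₗ[ℝ] ℝ}

theorem CLRep_R.tp (R : CLRep_R n φ X L lam) :
    Tp n φ fun t => ((n.factorial : ℝ))⁻¹ * lam (L t ^ n) := by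
  intro t c
  refine ⟨CLRep_P n fun j => ((j.factorial : ℝ))⁻¹ * lam (L t ^ j * X c), CLRep_P_deg _ _, ?_,
    fun q => ?_⟩
  · rw [CLRep_P_coeff, if_pos (Nat.lt_succ_self n), R.pow_X]
  · rw [CLRep_P_eval, R.val, R.add, R.line]

theorem CLRep_top (n : ℕ) (L : ℝ →+ B) (lam : B →ₗ[ℝ] ℝ) (q : ℚ) (t c : ℝ) :
    ((n.factorial : ℝ))⁻¹ * lam (L (q * t + c) ^ n) =
      (CLRep_P n fun j => ((n.factorial : ℝ))⁻¹ * (n.choose j : ℝ) *
        lam (L t ^ j * L c ^ (n - j))).eval (q : ℝ) := by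
  rw [CLRep_P_eval, map_add, CLRep_rat, add_pow, map_sum, Finset.mul_sum]
  refine Finset.sum_congr rfl fun j _ => ?_
  have e : ((q : ℝ) • L t) ^ j * L c ^ (n - j) * (n.choose j : B) =
      ((q : ℝ) ^ j * (n.choose j : ℝ)) • (L t ^ j * L c ^ (n - j)) := by
    rw [_root_.smul_pow, mul_smul, Nat.cast_smul_eq_nsmul, nsmul_eq_mul, smul_mul_assoc, smul_mul_assoc]
    congr 1
    ring
  rw [e, map_smul, smul_eq_mul]
  ring

theorem CLRep_dd (n : ℕ) (L : ℝ →+ B) (lam : B →ₗ[ℝ] ℝ) (t h : ℝ) :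
    dd (fun t => ((n.factorial : ℝ))⁻¹ * lam (L t ^ n)) t h =
      ((n.factorial : ℝ))⁻¹ * (n : ℝ) * lam (L h * L t ^ (n - 1)) := by
  rw [dd_eq (fun q => CLRep_top n L lam q h t), CLRep_P_coeff]
  rcases n with _ | n
  · simp
  · rw [if_pos (by omega)]
    simp

end R2

theorem CLRep_ex {n : ℕ} {φ : ℝ → ℝ} (h : GP n φ) :
    ∃ (B : Type) (_ : CommRing B) (_ : Algebra ℝ B) (X : ℝ → B) (L : ℝ →+ B)
      (lam : B →ₗ[ℝ] ℝ), CLRep_R n φ X L lam := by
  obtain ⟨B, i1, i2, X, L, lam, h1, h2, h3, h4, h5⟩ := rep h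
  exact ⟨B, i1, i2, X, L, lam, h1, h2, h3, h4, h5⟩

theorem CLRep_ex' {n : ℕ} {φ T : ℝ → ℝ} (h : Tp n φ T) :
    ∃ (B : Type) (_ : CommRing B) (_ : Algebra ℝ B) (X : ℝ → B) (L : ℝ →+ B)
      (lam : B →ₗ[ℝ] ℝ), CLRep_R n φ X L lam ∧
        T = fun t => ((n.factorial : ℝ))⁻¹ * lam (L t ^ n) := by
  obtain ⟨B, i1, i2, X, L, lam, R⟩ := CLRep_ex h.gp
  exact ⟨B, i1, i2, X, L, lam, R, h.unique R.tp⟩

theorem frechet {n : ℕ} {φ : ℝ → ℝ} (h : GP n φ) (l : List ℝ) (hl : l.length = n + 1) :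
    dfl l φ = 0 := by
  obtain ⟨B, i1, i2, X, L, lam, R⟩ := CLRep_ex h
  funext x
  obtain ⟨r, hr⟩ := R.prod l
  rw [R.dfl, hr, R.nil l hl, zero_mul, zero_mul, map_zero, Pi.zero_apply]

theorem GP.tp {n : ℕ} {φ : ℝ → ℝ} (h : GP n φ) : ∃ T, Tp n φ T := by
  obtain ⟨B, i1, i2, X, L, lam, R⟩ := CLRep_ex h
  exact ⟨_, R.tp⟩

theorem Tp.self {n : ℕ} {φ T : ℝ → ℝ} (h : Tp n φ T) : Tp n T T := by
  obtain ⟨B, i1, i2, X, L, lam, R, rfl⟩ := CLRep_ex' h
  intro t c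
  refine ⟨_, CLRep_P_deg _ _, ?_, fun q => CLRep_top n L lam q t c⟩
  rw [CLRep_P_coeff, if_pos (Nat.lt_succ_self n)]
  simp

theorem Tp.hom {n : ℕ} {φ T : ℝ → ℝ} (h : Tp n φ T) (q : ℚ) (t : ℝ) :
    T (q * t) = (q : ℝ) ^ n * T t := by
  obtain ⟨B, i1, i2, X, L, lam, R, rfl⟩ := CLRep_ex' h
  simp only [CLRep_rat, _root_.smul_pow, map_smul, smul_eq_mul]
  ring

theorem Tp.nab {n : ℕ} {φ T : ℝ → ℝ} (h : Tp (n + 1) φ T) (c : ℝ) :
    Tp n (nab c φ) fun t => dd T t c := by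
  obtain ⟨B, i1, i2, X, L, lam, R, rfl⟩ := CLRep_ex' h
  intro t d
  obtain ⟨r, hr⟩ := R.two (-c)
  obtain ⟨s, hs⟩ := R.one d
  have hz : X d * (1 - X (-c)) = L c * (1 + L d * s) * (1 - L c * r) := by
    rw [hr, hs, map_neg]
    ring
  refine ⟨CLRep_P n fun j => ((j.factorial : ℝ))⁻¹ * lam (L t ^ j * (X d * (1 - X (-c)))),
    CLRep_P_deg _ _, ?_, fun q => ?_⟩
  · have e : L t ^ n * (X d * (1 - X (-c))) = L c * L t ^ n := by
      rw [hz]
      have h1 := R.pow_mul2 t c d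
      have h2 := R.pow_mul2 t c c
      linear_combination (s - L c * s * r) * h1 - r * h2
    rw [CLRep_P_coeff, if_pos (Nat.lt_succ_self n), e]
    show _ = dd _ t c
    rw [CLRep_dd, Nat.add_sub_cancel, Nat.factorial_succ]
    have h1 : (n.factorial : ℝ) ≠ 0 := by positivity
    push_cast
    field_simp
  · have e : CL.nab c φ (q * t + d) = lam (X (q * t) * (X d * (1 - X (-c)))) := by
      rw [CL.nab, R.val, R.val, sub_eq_add_neg (q * t + d) c, R.add _ (-c), R.add, ← map_sub]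
      congr 1
      ring
    have e2 : L t ^ (n + 1) * (X d * (1 - X (-c))) = 0 := by
      rw [hz]
      have h1 := R.pow_mul t c
      linear_combination ((1 + L d * s) * (1 - L c * r)) * h1
    rw [e, R.line, Finset.sum_range_succ, e2, CLRep_P_eval]
    simp

theorem Tp.dd_add {n : ℕ} {φ T : ℝ → ℝ} (h : Tp n φ T) (t a b : ℝ) :
    dd T t (a + b) = dd T t a + dd T t b := by
  obtain ⟨B, i1, i2, X, L, lam, R, rfl⟩ := CLRep_ex' h
  rw [CLRep_dd, CLRep_dd, CLRep_dd, map_add, add_mul, map_add]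
  ring

theorem quad_rep {G T : ℝ → ℝ} (h : Tp 2 G T) (hs : ∀ x, G (1 - x) = G x) (h0 : G 0 = 1) :
    ∃ b : ℝ →+ ℝ →+ ℝ, (∀ x y, b x y = b y x) ∧ (∀ x, G x = 1 - b 1 x + b x x) ∧
      ∀ x, T x = b x x := by
  obtain ⟨B, i1, i2, X, L, lam, R, rfl⟩ := CLRep_ex' h
  have h1 : lam 1 = 1 := by rw [← R.zero, ← R.val, h0]
  have hG : ∀ x, G x = 1 + lam (L x) + lam (L x * L x) / 2 := fun x => by
    rw [R.val, R.exp]
    simp only [Finset.sum_range_succ, Finset.range_zero, Finset.sum_empty, zero_add,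
      Nat.factorial_zero, Nat.factorial_one, Nat.factorial_two, Nat.cast_one, inv_one, pow_zero,
      pow_one, one_smul, map_add, map_smul, smul_eq_mul, h1, pow_two, Nat.cast_ofNat]
    ring
  have hl : ∀ x, lam (L x) = -(lam (L 1 * L x) / 2) := fun x => by
    have a0 := hs 0
    have a1 := hs x
    have e : (L 1 - L x) * (L 1 - L x) = L 1 * L 1 - (2 : ℝ) • (L 1 * L x) + L x * L x := by
      rw [two_smul]
      ring
    rw [sub_zero, hG 1, h0] at a0
    rw [hG (1 - x), hG x, map_sub L, e] at a1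
    simp only [map_add, map_sub, map_smul, smul_eq_mul] at a1
    linarith
  refine ⟨AddMonoidHom.mk' (fun x => AddMonoidHom.mk' (fun y => lam (L x * L y) / 2)
    fun a b => ?_) fun a b => ?_, fun x y => ?_, fun x => ?_, fun x => ?_⟩
  · rw [map_add, mul_add, map_add]
    ring
  · ext y
    simp only [AddMonoidHom.mk'_apply, AddMonoidHom.add_apply]
    rw [map_add, add_mul, map_add]
    ring
  · simp only [AddMonoidHom.mk'_apply]
    rw [mul_comm]
  · simp only [AddMonoidHom.mk'_apply]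
    rw [hG x, hl x]
    ring
  · simp only [AddMonoidHom.mk'_apply, Nat.factorial_two, Nat.cast_ofNat, pow_two]
    ring

end Pool.Agent.P.MP_6d4b14_an.CL
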