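import Pool.Agent.P.MP_6d4b14_an.CLTop

/-! The top row of the equation. -/

set_option linter.unusedSectionVars false
set_option linter.unusedVariables false

namespace Pool.Agent.P.MP_6d4b14_an.CL

open scoped Classical
open TR Function Polynomial

theorem CLRow_two {n : ℕ} {φ T : ℝ → ℝ} (h : Tp n φ T) (t : ℝ) : T (2 * t) = 2 ^ n * T t := by
  have := h.hom 2 t
  simpa using this

theorem CLRow_congr {n : ℕ} {φ ψ T T' : ℝ → ℝ} (h : Tp n φ T) (e : ∀ x, ψ x = φ x)
    (e' : ∀ t, T' t = T t) : Tp n ψ T' := by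
  rw [show ψ = φ from funext e, show T' = T from funext e']
  exact h

theorem CLRow_eq {p q : ℝ[X]} (S : Set ℚ) (hS : S.Infinite)
    (h : ∀ r ∈ S, p.eval (r : ℝ) = q.eval (r : ℝ)) : p = q := by
  refine Polynomial.eq_of_infinite_eval_eq p q ((hS.image Rat.cast_injective.injOn).mono ?_)
  rintro _ ⟨r, hr, rfl⟩
  exact h r hr

theorem tp_ev {N : ℕ} {G T : ℝ → ℝ} (h : Tp N G T) :
    Tp N (ev G) fun t => (2 ^ (N + 1) * (G (1 / 2) / 2) - 1) / 2 * T t := by
  refine CLRow_congr (((((h.aff 2 1).mul (G (1 / 2) / 2)).add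
    ((h.aff 2 0).mul (G (1 / 2) / 2))).sub (h.aff 1 (1 / 2))).mul (1 / 2)) (fun x => ?_) fun t => ?_
  · simp only [ev, add_zero, one_mul]
    ring
  · simp only [CLRow_two h, one_mul]
    ring

theorem row_wt {n : ℕ} {Γ e o T Te : ℝ → ℝ} (h : RE Γ e o) (hΓ : Tp n Γ T) (he : Tp n e Te)
    (t : ℝ) : Wt (n + 1) (psi Γ T Te t) := by
  intro s
  have h1 := ((hΓ.aff (1 / 2) 0).mul (Γ (2 * s) + Γ (2 * s - 1))).sub
    ((hΓ.add (hΓ.aff 1 (-1))).mul (Γ s))
  have h2 := ((((he.aff (s - 1 / 2) 0).sub (he.aff s (-s))).add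
    (he.aff (s - 1 / 2) (-2 * (s - 1 / 2)))).sub (he.aff (s - 1) (-(s - 1)))).mul 2
  have h3 := congrFun (h1.unique (CLRow_congr h2 (fun x => ?_) fun _ => rfl)) t
  · have e1 : T t = 2 ^ n * T (1 / 2 * t) := by
      rw [← CLRow_two hΓ]; congr 1; ring
    have e2 : Te (t * (2 * s)) = 2 ^ n * Te (s * t) := by
      rw [← CLRow_two he]; congr 1; ring
    have e3 : Te (t * (2 * s - 1)) = 2 ^ n * Te ((s - 1 / 2) * t) := by
      rw [← CLRow_two he]; congr 1; ring
    have e4 : Te (t * (2 * s - 1 - 1)) = 2 ^ n * Te ((s - 1) * t) := by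
      rw [← CLRow_two he]; congr 1; ring
    simp only [psi, e2, e3, e4, mul_comm t s, mul_comm t (s - 1), one_mul] at h3 ⊢
    rw [e1] at h3 ⊢
    linear_combination 2 ^ n * h3
  · have h4 := h.dbl one_ne_zero x s
    simp only [Psi, mul_one, div_one, one_mul, inv_one] at h4
    have a1 : 2 * (s - 2⁻¹) = 2 * s - 1 := by ring
    have a2 : s - 2⁻¹ - 2⁻¹ = s - 1 := by ring
    have a3 : x - 1 - 1 = x - 2 := by ring
    have a4 : (1 : ℝ) / 2 * x + 0 = x / 2 := by ring
    have a5 : (s - 1 / 2) * x + 0 = x * (s - 2⁻¹) := by ring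
    have a6 : s * x + -s = (x - 1) * s := by ring
    have a7 : (s - 1 / 2) * x + -2 * (s - 1 / 2) = (x - 2) * (s - 2⁻¹) := by ring
    have a8 : (s - 1) * x + -(s - 1) = (x - 1) * (s - 1) := by ring
    have a9 : 1 * x + -1 = x - 1 := by ring
    rw [a1, a2, a3] at h4
    simp only [a4, a5, a6, a7, a8, a9]
    linear_combination h4

theorem CLRow_lin {P : ℝ[X]} (h : ∀ r : ℚ, P.eval ((r : ℝ) + 1) - 2 * P.eval ((r : ℝ) + 1 / 2) +
    P.eval (r : ℝ) = 0) : ∃ c : ℝ, ∀ r : ℝ, P.eval r = P.eval 0 + c * r := by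
  have per : ∀ Q : ℝ[X], (∀ n : ℕ, Q.eval (((n + 1 : ℕ) : ℝ) / 2) = Q.eval ((n : ℝ) / 2)) →
      ∀ x, Q.eval x = Q.eval 0 := by
    intro Q hQ x
    have h1 : ∀ n : ℕ, Q.eval ((n : ℝ) / 2) = Q.eval 0 := by
      intro n
      induction n with
      | zero => simp
      | succ n ih => rw [hQ, ih]
    have h2 : Q = C (Q.eval 0) := by
      refine CLRow_eq (Set.range fun n : ℕ => (n : ℚ) / 2)
        (Set.infinite_range_of_injective fun a b hab => ?_) ?_
      · have : (a : ℚ) = b := by simpa using hab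
        exact_mod_cast this
      · rintro _ ⟨n, rfl⟩
        rw [eval_C, ← h1 n]
        push_cast
        rfl
    rw [h2, eval_C, eval_C]
  have h1 := per (P.comp (X + C (1 / 2)) - P) fun n => by
    have := h ((n : ℚ) / 2)
    simp only [eval_sub, eval_comp, eval_add, eval_X, eval_C]
    push_cast at this ⊢
    rw [show ((n : ℝ) + 1) / 2 + 1 / 2 = n / 2 + 1 by ring,
      show ((n : ℝ) + 1) / 2 = n / 2 + 1 / 2 by ring]
    linarith
  simp only [eval_sub, eval_comp, eval_add, eval_X, eval_C] at h1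
  refine ⟨2 * (P.eval (0 + 1 / 2) - P.eval 0), fun r => ?_⟩
  have h2 := per (P - C (2 * (P.eval (0 + 1 / 2) - P.eval 0)) * X) (fun n => by
    have := h1 ((n : ℝ) / 2)
    simp only [eval_sub, eval_mul, eval_X, eval_C]
    push_cast
    rw [show ((n : ℝ) + 1) / 2 = n / 2 + 1 / 2 by ring]
    linarith) r
  simp only [eval_sub, eval_mul, eval_X, eval_C] at h2
  linarith

theorem star {N : ℕ} {G e o T : ℝ → ℝ} {κ : ℝ} (h : RE G e o) (hG : Tp N G T)
    (he : Tp N e fun t => κ * T t) (hκ : κ ≠ 0) (hN : 3 ≤ N) (t t' s : ℝ) :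
    T t * dd T t' (t' * s) = T t' * dd T t (t * s) := by
  obtain ⟨H, hH⟩ : ∃ H : ℝ → ℝ, ∀ s, H s = T t * T (t' * s) - T t' * T (t * s) := ⟨_, fun _ => rfl⟩
  have hom : ∀ (q : ℚ) s, H (q * s) = (q : ℝ) ^ N * H s := fun q s => by
    rw [hH, hH, mul_left_comm t', mul_left_comm t, hG.hom, hG.hom]; ring
  have two : ∀ s, H (2 * s) = 2 ^ N * H s := fun s => by simpa using hom 2 s
  have sec : ∀ s, H (s + 1) - 2 * H (s + 1 / 2) + H s = 0 := by
    intro s
    have w1 := row_wt h hG he t (s + 1)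
    have w2 := row_wt h hG he t' (s + 1)
    have e1 := two (s + 1)
    have e2 := two (s + 1 / 2)
    have e3 := two s
    have a1 : 2 * (s + 1) - 1 = 2 * (s + 1 / 2) := by ring
    have a2 : 2 * (s + 1 / 2) - 1 = 2 * s := by ring
    have a3 : s + 1 - 1 = s := by ring
    simp only [psi, a1, a2, a3] at w1 w2
    simp only [hH] at e1 e2 e3 ⊢
    have h2 : (2 : ℝ) * κ * 2 ^ N ≠ 0 := by positivity
    refine mul_left_cancel₀ h2 ?_
    linear_combination T t * w2 - T t' * w1 + 2 * κ * (e1 + 2 * e2 + e3)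
  obtain ⟨p1, -, -, h1⟩ := hG.self t' (t' * s)
  obtain ⟨p2, -, -, h2⟩ := hG.self t (t * s)
  have hP : ∀ r : ℚ, H (s + r) = (C (T t) * p1 - C (T t') * p2).eval (r : ℝ) := fun r => by
    simp only [eval_sub, eval_mul, eval_C, ← h1, ← h2, hH]
    congr 2 <;> congr 1 <;> ring
  obtain ⟨c, hc⟩ := CLRow_lin (P := C (T t) * p1 - C (T t') * p2) fun r => by
    have a1 := hP (r + 1)
    have a2 := hP (r + 1 / 2)
    have a3 := sec (s + r)
    push_cast at a1 a2
    rw [← a1, ← a2, ← hP, ← add_assoc, ← add_assoc]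
    exact a3
  obtain ⟨f1, -, -, h3⟩ := hG.self (t' * s) t'
  obtain ⟨f2, -, -, h4⟩ := hG.self (t * s) t
  obtain ⟨n, rfl⟩ : ∃ n, N = n + 3 := ⟨N - 3, by omega⟩
  have hf : C (T t) * f1 - C (T t') * f2 =
      C ((C (T t) * p1 - C (T t') * p2).eval 0) * X ^ (n + 3) + C c * X ^ (n + 2) := by
    refine CLRow_eq {0}ᶜ (Set.finite_singleton 0).infinite_compl fun r hr => ?_
    have hr0 : (r : ℝ) ≠ 0 := by exact_mod_cast hr
    have a1 := hom r (s + (r⁻¹ : ℚ))
    rw [hP, hc, hH] at a1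
    push_cast at a1
    have a2 : t' * (r * (s + (r : ℝ)⁻¹)) = r * (t' * s) + t' := by field_simp
    have a3 : t * (r * (s + (r : ℝ)⁻¹)) = r * (t * s) + t := by field_simp
    rw [a2, a3, h3, h4] at a1
    simp only [eval_sub, eval_mul, eval_C, eval_add, eval_pow, eval_X] at a1 ⊢
    rw [a1]
    field_simp
    ring
  have h5 := congrArg (fun p : ℝ[X] => p.coeff 1) hf
  simp only [coeff_sub, coeff_add, coeff_C_mul, coeff_X_pow] at h5
  rw [if_neg (by omega), if_neg (by omega)] at h5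
  rw [dd_eq h3, dd_eq h4]
  linarith

theorem mult_of_star {N : ℕ} {T : ℝ → ℝ} (hT : Tp N T T)
    (h : ∀ t t' s, T t * dd T t' (t' * s) = T t' * dd T t (t * s)) (x y : ℝ) :
    T 1 * T (x * y) = T x * T y := by
  obtain ⟨f, -, -, hf⟩ := hT (x * (y - 1)) x
  obtain ⟨g, -, -, hg⟩ := hT (y - 1) 1
  have hfin : {r : ℚ | (r : ℝ) * (y - 1) + 1 = 0}.Finite := by
    refine Set.Subsingleton.finite fun a ha b hb => ?_
    have ha' : (a : ℝ) * (y - 1) + 1 = 0 := ha
    have hb' : (b : ℝ) * (y - 1) + 1 = 0 := hb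
    have h0 : y - 1 ≠ 0 := fun h0 => by simp [h0] at ha'
    have : (a : ℝ) = b := mul_right_cancel₀ h0 (by linarith)
    exact_mod_cast this
  have := wronsk f g _ (hfin.infinite_compl.image Rat.cast_injective.injOn) (by
    rintro _ ⟨r, hr, rfl⟩
    have hr0 : (r : ℝ) * (y - 1) + 1 ≠ 0 := hr
    have a1 := h (r * (x * (y - 1)) + x) (r * (y - 1) + 1) ((y - 1) / (r * (y - 1) + 1))
    have a2 : (r * (y - 1) + 1) * ((y - 1) / (r * (y - 1) + 1)) = y - 1 := by field_simp
    have a3 : (r * (x * (y - 1)) + x) * ((y - 1) / (r * (y - 1) + 1)) = x * (y - 1) := by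
      field_simp
    rw [a2, a3, dd_deriv hf, dd_deriv hg, hf, hg] at a1
    linarith)
  have b1 := hf 1
  have b2 := hf 0
  have b3 := hg 1
  have b4 := hg 0
  simp only [Rat.cast_one, Rat.cast_zero, one_mul, zero_mul, zero_add, sub_add_cancel] at b1 b2 b3 b4
  rw [← b1, ← b2, ← b3, ← b4, show x * (y - 1) + x = x * y by ring] at this
  linarith

theorem og_of_top {N : ℕ} {G T : ℝ → ℝ} (hG : Glob G) (h0 : G 0 = 1) (h : Tp N G T) (hT : T ≠ 0)
    (hκ : 2 ^ (N + 1) * (G (1 / 2) / 2) = 1) : OG G ∧ 1 + G 2 = 2 ^ (N + 1) := by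
  obtain ⟨o, ho⟩ := hG.re
  obtain ⟨t, ht⟩ := Function.ne_iff.1 hT
  have w : ∀ s, G (2 * s) + G (2 * s - 1) = 2 ^ (N + 1) * G s := fun s => by
    have := row_wt ho h (tp_ev h) t s
    simp only [psi, hκ, sub_self, zero_div, zero_mul, add_zero, mul_zero, sub_zero] at this
    exact mul_left_cancel₀ ht (by linarith)
  have he : ev G = 0 := funext fun z => by
    have := w (z + 1 / 2)
    rw [show 2 * (z + 1 / 2) - 1 = 2 * z by ring, show 2 * (z + 1 / 2) = 2 * z + 1 by ring] at this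
    simp only [ev, Pi.zero_apply]
    linear_combination (G (1 / 2) / 4) * this + G (z + 1 / 2) / 2 * hκ
  have h1 : G 1 = 1 := by rw [← hG.sym, sub_self, h0]
  refine ⟨⟨hG.sym, h0, o, he ▸ ho⟩, ?_⟩
  have := w 1
  rw [show (2 : ℝ) * 1 - 1 = 1 by ring, mul_one, h1] at this
  linarith

theorem k2_of {G : ℝ → ℝ} (hG : Glob G) {b : ℝ →+ ℝ →+ ℝ} (hs : ∀ x y, b x y = b y x)
    (hb : ∀ x, G x = 1 - b 1 x + b x x) (h3 : b 1 1 ≠ 3) : K2 b := by
  refine ⟨hs, h3, fun w a c hw => ?_⟩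
  obtain ⟨o, ho⟩ := hG.re
  have half : ∀ x, b (1 / 2) x = b 1 x / 2 := fun x => by
    have : b 1 x = b (1 / 2) x + b (1 / 2) x := by
      rw [← AddMonoidHom.add_apply, ← map_add]; norm_num
    linarith
  have he : ∀ z, ev G z = (3 - b 1 1) / 2 * b z z := fun z => by
    simp only [ev, hb, two_mul, map_add, AddMonoidHom.add_apply, half, hs z (1 / 2), hs z 1,
      hs 1 (1 / 2)]
    ring
  have key : ∀ a s : ℝ, ∀ u v x y : ℝ, u = w * a → v = w * s → x = u * s → y = w⁻¹ →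
      (G u - G (u - w)) * (G s - G (s - y)) - (G a - G (a - y)) * (G v - G (v - w)) =
      -(3 - b 1 1) * (-b (x - u) (x - u) + b (x - a) (x - a) +
        b (x - u - s - v + w + 1) (x - u - s - v + w + 1) -
        b (x - a - s - v + y + 1) (x - a - s - v + y + 1) - b (x - s) (x - s) +
        b (x - v) (x - v) + b (x - u - a - s + y + 1) (x - u - a - s + y + 1) -
        b (x - u - a - v + w + 1) (x - u - a - v + w + 1)) := by
    intro a s u v x y hu hv hx hy
    have h1 := ho.kos hw u s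
    simp only [Psi, he, div_one, one_mul, inv_one] at h1
    have e1 : u / w = a := by rw [hu]; field_simp
    have e2 : (u - 1) / w = a - y := by rw [hu, hy]; field_simp
    have e3 : w * (s - 1) = v - w := by rw [hv]; ring
    have f1 : u * (s - 1) = x - u := by rw [hx]; ring
    have f2 : u * (s - y) = x - a := by rw [hx, hu, hy]; field_simp
    have f3 : (u - 1) * s = x - s := by rw [hx]; ring
    have f4 : (u - w) * s = x - v := by rw [hx, hv]; ring
    have f5 : (u - w - 1) * (s - 1) = x - u - s - v + w + 1 := by rw [hx, hv]; ring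
    have f6 : (u - w - 1) * (s - y) = x - a - s - v + y + 1 := by
      rw [hx, hv, hu, hy]; field_simp; ring
    have f7 : (u - 1) * (s - y - 1) = x - u - a - s + y + 1 := by
      rw [hx, hu, hy]; field_simp; ring
    have f8 : (u - w) * (s - y - 1) = x - u - a - v + w + 1 := by
      rw [hx, hv, hu, hy]; field_simp; ring
    rw [← hy, ← hv, ← hx, e1, e2, e3, sub_right_comm u 1 w, sub_right_comm s 1 y, f1, f2, f3, f4,
      f5, f6, f7, f8] at h1
    linear_combination h1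
  have k1 := key a c _ _ _ _ rfl rfl rfl rfl
  have k2 := key a 0 _ 0 0 _ rfl (by ring) (by ring) rfl
  have k3 := key 0 c 0 _ 0 _ (by ring) rfl (by ring) rfl
  have k4 := key 0 0 0 0 0 _ (by ring) (by ring) (by ring) rfl
  generalize w * a * c = x at k1
  generalize w * a = u at k1 k2 ⊢
  generalize w * c = v at k1 k3 ⊢
  generalize w⁻¹ = y at k1 k2 k3 k4 ⊢
  simp only [hb, map_add, map_sub, map_zero, AddMonoidHom.add_apply, AddMonoidHom.sub_apply,
    AddMonoidHom.zero_apply, hs u x, hs a x, hs c x, hs v x, hs w x, hs y x, hs 1 x, hs a u,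
    hs c u, hs v u, hs w u, hs y u, hs 1 u, hs c a, hs v a, hs w a, hs y a, hs 1 a, hs v c,
    hs w c, hs y c, hs 1 c, hs w v, hs y v, hs 1 v, hs y w, hs 1 w, hs 1 y] at k1 k2 k3 k4 ⊢
  linear_combination (k1 - k2 - k3 + k4) / 4

end Pool.Agent.P.MP_6d4b14_an.CL
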