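import Pool.Agent.P.MP_6d4b14_an.CLG1

/-! Elimination of exponentials; the even part is a polynomial; many periods. -/

set_option linter.unusedSectionVars false
set_option linter.unusedVariables false

namespace Pool.Agent.P.MP_6d4b14_an.CL

open scoped Classical
open TR Function Polynomial

section CLW_elim

variable {R M : Type} [CommRing R] [AddCommGroup M] [Module R M]

/-- a sum of exponentials -/
def CLW_S (X : ℝ → R) (l : List (R × ℝ)) (η : ℝ) : R := (l.map fun q => q.1 * X (q.2 * η)).sum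

theorem CLW_S_nil (X : ℝ → R) (η : ℝ) : CLW_S X [] η = 0 := rfl

theorem CLW_S_cons (X : ℝ → R) (q : R × ℝ) (l : List (R × ℝ)) (η : ℝ) :
    CLW_S X (q :: l) η = q.1 * X (q.2 * η) + CLW_S X l η := by
  simp only [CLW_S, List.map_cons, List.sum_cons]

theorem CLW_shift {X : ℝ → R} (hX : ∀ a b, X (a + b) = X a * X b) (l : List (R × ℝ))
    (d η : ℝ) (c : R) :
    CLW_S X (l.map fun q => (q.1 * (X (q.2 * d) - c), q.2)) η =
      CLW_S X l (η + d) - c * CLW_S X l η := by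
  induction l with
  | nil => simp only [List.map_nil, CLW_S_nil, mul_zero, sub_zero]
  | cons q l ih =>
    rw [List.map_cons, CLW_S_cons, CLW_S_cons, CLW_S_cons, ih, mul_add q.2, hX]
    ring

theorem CLW_E {X : ℝ → R} (hX : ∀ a b, X (a + b) = X a * X b) (z : M) (h : ℝ) (n : ℕ) :
    ∀ l : List (R × ℝ), l.length = n → (∀ q ∈ l, 0 < q.2) → ∀ u : R,
      (∀ η, (u + CLW_S X l η) • z = 0) → (u * (1 - X h) ^ n) • z = 0 := by
  induction n with
  | zero =>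
    intro l hl _ u H
    obtain rfl := List.length_eq_zero_iff.1 hl
    have h1 := H 0
    rwa [CLW_S_nil, add_zero, ← mul_one u, ← pow_zero (1 - X h)] at h1
  | succ n ih =>
    intro l hl hp u H
    obtain ⟨q, l, rfl⟩ := List.exists_cons_of_length_eq_add_one hl
    have hq : q.2 ≠ 0 := (hp q List.mem_cons_self).ne'
    have h1 := ih (l.map fun r => (r.1 * (X (r.2 * (h / q.2)) - X h), r.2))
      (by simpa using hl) (fun r hr => by
        obtain ⟨r', hr', rfl⟩ := List.mem_map.1 hr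
        exact hp r' (List.mem_cons_of_mem _ hr')) (u * (1 - X h)) fun η => by
      have e : u * (1 - X h) + CLW_S X (l.map fun r => (r.1 * (X (r.2 * (h / q.2)) - X h), r.2)) η =
          (u + CLW_S X (q :: l) (η + h / q.2)) - X h * (u + CLW_S X (q :: l) η) := by
        have e1 : q.2 * (η + h / q.2) = q.2 * η + h := by field_simp
        rw [CLW_shift hX, CLW_S_cons, CLW_S_cons, e1, hX]
        ring
      rw [e, sub_smul, mul_smul, H, H, smul_zero, sub_zero]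
    rwa [mul_assoc, ← pow_succ'] at h1

theorem CLW_step {X : ℝ → R} (hX : ∀ a b, X (a + b) = X a * X b) {a : ℝ} (ha : 0 < a) (b : ℝ)
    (l : List (R × ℝ)) (hl : ∀ q ∈ l, 0 < q.2) : ∃ l' : List (R × ℝ), (∀ q ∈ l', 0 < q.2) ∧
      ∀ η, (X (a * η + b) - 1) * CLW_S X l η = CLW_S X l' η := by
  induction l with
  | nil => exact ⟨[], hl, fun η => by rw [CLW_S_nil, mul_zero]⟩
  | cons q l ih =>
    obtain ⟨l', h1, h2⟩ := ih fun r hr => hl r (List.mem_cons_of_mem _ hr)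
    have hq := hl q List.mem_cons_self
    refine ⟨(q.1 * X b, a + q.2) :: (-q.1, q.2) :: l', fun r hr => ?_, fun η => ?_⟩
    · rcases List.mem_cons.1 hr with rfl | hr
      · exact add_pos ha hq
      · rcases List.mem_cons.1 hr with rfl | hr
        · exact hq
        · exact h1 r hr
    · rw [CLW_S_cons, CLW_S_cons, CLW_S_cons, ← h2, add_mul a, hX, hX]
      ring

theorem CLW_P {X : ℝ → R} (hX : ∀ a b, X (a + b) = X a * X b) (h0 : X 0 = 1)
    (l : List (ℝ × ℝ)) (hl : ∀ p ∈ l, p.1 ≠ 0) :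
    ∃ (l' : List (R × ℝ)) (u : R) (v : ℝ → R), u * u = 1 ∧ (∀ q ∈ l', 0 < q.2) ∧
      ∀ η, v η * (l.map fun p => X (p.1 * η + p.2) - 1).prod = u + CLW_S X l' η := by
  induction l with
  | nil => exact ⟨[], 1, fun _ => 1, one_mul 1, by simp, fun η => by simp [CLW_S_nil]⟩
  | cons p l ih =>
    obtain ⟨l', u, v, hu, h1, h2⟩ := ih fun r hr => hl r (List.mem_cons_of_mem _ hr)
    have key : ∀ a b : ℝ, 0 < a → ∃ l'' : List (R × ℝ), (∀ q ∈ l'', 0 < q.2) ∧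
        ∀ η, (X (a * η + b) - 1) * (u + CLW_S X l' η) = -u + CLW_S X l'' η := fun a b ha => by
      obtain ⟨l2, h3, h4⟩ := CLW_step hX ha b l' h1
      refine ⟨(u * X b, a) :: l2, fun r hr => ?_, fun η => ?_⟩
      · rcases List.mem_cons.1 hr with rfl | hr
        · exact ha
        · exact h3 r hr
      · rw [CLW_S_cons, ← h4, hX]
        ring
    rcases lt_or_gt_of_ne (hl p List.mem_cons_self) with hp | hp
    · obtain ⟨l2, h3, h4⟩ := key (-p.1) (-p.2) (neg_pos.2 hp)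
      refine ⟨l2, -u, fun η => -X (-p.1 * η + -p.2) * v η, by rw [neg_mul_neg, hu], h3,
        fun η => ?_⟩
      have e : X (-p.1 * η + -p.2) * X (p.1 * η + p.2) = 1 := by
        rw [← hX, ← h0]
        congr 1
        ring
      rw [List.map_cons, List.prod_cons, ← h4, ← h2]
      linear_combination (-v η * (l.map fun p => X (p.1 * η + p.2) - 1).prod) * e
    · obtain ⟨l2, h3, h4⟩ := key p.1 p.2 hp
      refine ⟨l2, -u, v, by rw [neg_mul_neg, hu], h3, fun η => ?_⟩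
      rw [List.map_cons, List.prod_cons, ← h4, ← h2]
      ring

end CLW_elim

/-- the function of the product -/
def CLW_F (e : ℝ → ℝ) : Fn ℝ (ℝ × ℝ) := fun z => e (z.1 * z.2)

theorem CLW_psi (Γ e : ℝ → ℝ) (w t s : ℝ) : Psi Γ e w t s = Γ (t / w) * Γ (w * s) -
    (((1 + Xg ℝ ((-w, 0) : ℝ × ℝ)) * (1 + Xg ℝ ((0, -w⁻¹) : ℝ × ℝ))) • CLW_F e) (t, s) := by
  simp only [mul_smul, add_smul, one_smul, Fn.add_apply, Xg_smul, Psi, CLW_F, Prod.mk_add_mk,
    add_zero, ← sub_eq_add_neg]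
  ring

theorem CLW_dbl {Γ e o : ℝ → ℝ} (h : RE Γ e o) {w σ : ℝ} (hw : w ≠ 0) (h1 : w * σ ∈ Per Γ)
    {A B : GR ℝ (ℝ × ℝ)} (hA : A = Xg ℝ (-w, 0)) (hB : B = Xg ℝ (0, -(2 * w)⁻¹)) :
    ((Xg ℝ ((0, σ) : ℝ × ℝ) - 1) * ((1 + B) * ((1 + A * A) * (1 + B)) -
      (1 + A) * ((1 + A) * (1 + B * B)))) • CLW_F e = 0 := by
  have eA : A * A = Xg ℝ (-(2 * w), 0) := by
    rw [hA, ← Xg_add, Prod.mk_add_mk, add_zero]
    congr 2
    ring
  have eB : B * B = Xg ℝ (0, -w⁻¹) := by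
    rw [hB, ← Xg_add, Prod.mk_add_mk, add_zero]
    congr 2
    field_simp
    ring
  have h2 : 2 * w * σ ∈ Per Γ := by
    rw [mul_assoc, two_mul]
    exact add_mem h1 h1
  have key : ∀ t s : ℝ, (((1 + B) * ((1 + A * A) * (1 + B)) -
      (1 + A) * ((1 + A) * (1 + B * B))) • CLW_F e) (t, s) =
      Γ (t / (2 * w)) * Γ (2 * w * s) + Γ (t / (2 * w)) * Γ (2 * w * (s - (2 * w)⁻¹)) -
        (Γ (t / w) * Γ (w * s) + Γ ((t - w) / w) * Γ (w * s)) := fun t s => by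
    have h3 := h.dbl hw t s
    rw [CLW_psi, CLW_psi, CLW_psi, CLW_psi, ← eA, ← eB, ← hA, ← hB] at h3
    rw [sub_smul, Fn.sub_apply, mul_smul (1 + B), mul_smul (1 + A) ((1 + A) * (1 + B * B)),
      add_smul 1 B, add_smul 1 A, one_smul, one_smul, Fn.add_apply, Fn.add_apply]
    have e1 : ∀ φ : Fn ℝ (ℝ × ℝ), (B • φ) (t, s) = φ (t, s - (2 * w)⁻¹) := fun φ => by
      rw [hB, Xg_smul, Prod.mk_add_mk, add_zero, ← sub_eq_add_neg]
    have e2 : ∀ φ : Fn ℝ (ℝ × ℝ), (A • φ) (t, s) = φ (t - w, s) := fun φ => by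
      rw [hA, Xg_smul, Prod.mk_add_mk, add_zero, ← sub_eq_add_neg]
    rw [e1, e2]
    linarith
  refine Fn.ext fun z => ?_
  obtain ⟨t, s⟩ := z
  have e1 : 2 * w * (s + σ) = 2 * w * s + 2 * w * σ := by ring
  have e2 : 2 * w * (s + σ - (2 * w)⁻¹) = 2 * w * (s - (2 * w)⁻¹) + 2 * w * σ := by ring
  have e3 : w * (s + σ) = w * s + w * σ := by ring
  rw [mul_smul, sub_smul, one_smul, Fn.sub_apply, Xg_smul, Prod.mk_add_mk, add_zero, key, key,
    e1, e2, e3, mem_Per.1 h1, mem_Per.1 h2, mem_Per.1 h2, sub_self, Fn.zero_apply]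

theorem CLW_dfl (l : List ℝ) (Φ : Fn ℝ (ℝ × ℝ)) (t s : ℝ) :
    ((l.map fun h => Xg ℝ ((0, h) : ℝ × ℝ) - 1).prod • Φ) (t, s) =
      dfl l (fun r => Φ (t, r)) s := by
  induction l generalizing s with
  | nil => rw [List.map_nil, List.prod_nil, one_smul]; rfl
  | cons h l ih =>
    rw [List.map_cons, List.prod_cons, mul_smul, sub_smul, one_smul, Fn.sub_apply, Xg_smul,
      Prod.mk_add_mk, add_zero, ih, ih]
    rfl

theorem wilson_mod {R M : Type} [CommRing R] [AddCommGroup M] [Module R M] (X : ℝ → R)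
    (hX : ∀ a b, X (a + b) = X a * X b) (h0 : X 0 = 1) (l : List (ℝ × ℝ))
    (hl : ∀ p ∈ l, p.1 ≠ 0) : ∃ N : ℕ, ∀ z : M,
      (∀ η : ℝ, (l.map fun p => X (p.1 * η + p.2) - 1).prod • z = 0) →
        ∀ h, (X h - 1) ^ N • z = 0 := by
  obtain ⟨l', u, v, hu, h1, h2⟩ := CLW_P hX h0 l hl
  refine ⟨l'.length, fun z H h => ?_⟩
  have h3 := CLW_E hX z h _ l' rfl h1 u fun η => by rw [← h2, mul_smul, H, smul_zero]
  have e : (X h - 1) ^ l'.length = ((-1) ^ l'.length * u) * (u * (1 - X h) ^ l'.length) := by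
    rw [mul_assoc, ← mul_assoc u, hu, one_mul, ← mul_pow, neg_one_mul, neg_sub]
  rw [e, mul_smul, h3, smul_zero]

theorem wilson (l : List (ℝ × ℝ)) (hl : ∀ p ∈ l, p.1 ≠ 0) : ∃ N : ℕ, ∀ φ : ℝ → ℝ,
    (∀ η : ℝ, dfl (l.map fun p => p.1 * η + p.2) φ = 0) → GP N φ := by
  obtain ⟨N, hN⟩ := wilson_mod (M := Fn ℝ ℝ) (Xg ℝ) Xg_add Xg_zero l hl
  refine ⟨N, fun φ H h => funext fun s => ?_⟩
  have h1 := hN φ (fun η => Fn.ext fun s => by
    have h2 := dfl_GR (l.map fun p => p.1 * η + p.2) φ s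
    rw [List.map_map] at h2
    exact h2.trans (congrFun (H η) s)) h
  have h2 : ∀ ψ : Fn ℝ ℝ, (Xg ℝ h - 1) ^ N • ψ = 0 → (Xg ℝ h - 1) ^ (N + 1) • ψ = 0 :=
    fun ψ hψ => by rw [pow_succ', mul_smul, hψ, smul_zero]
  exact (pow_smul_apply (k := ℝ) h (N + 1) φ s).symm.trans (congrFun (h2 φ h1) s)

theorem ev_kill {G : ℝ → ℝ} (hG : Glob G) {p : ℝ} (hp : p ∈ Per G) (η : ℝ) :
    dfl [4 * p * η, 3 * η, 3 * η, 5 * η, 5 * η] (ev G) = 0 := by
  rcases eq_or_ne η 0 with rfl | hη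
  · funext s
    simp only [dfl, List.foldr_cons, fwdDiff, mul_zero, add_zero, sub_self, Pi.zero_apply]
  obtain ⟨o, ho⟩ := hG.re
  have hw : -(4 * η)⁻¹ ≠ 0 := neg_ne_zero.2 (inv_ne_zero (mul_ne_zero four_ne_zero hη))
  obtain ⟨U, hU⟩ : ∃ U : GR ℝ (ℝ × ℝ), U = Xg ℝ (-(-(4 * η)⁻¹), 0) := ⟨_, rfl⟩
  obtain ⟨v, hv⟩ : ∃ v : GR ℝ (ℝ × ℝ), v = Xg ℝ (0, η) := ⟨_, rfl⟩
  have hp1 : -(4 * η)⁻¹ * (4 * p * η) ∈ Per G := by
    have e : -(4 * η)⁻¹ * (4 * p * η) = -p := by field_simp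
    rw [e]
    exact neg_mem hp
  have hp2 : 2 * -(4 * η)⁻¹ * (4 * p * η) ∈ Per G := by
    rw [mul_assoc, two_mul]
    exact add_mem hp1 hp1
  have g1 := CLW_dbl ho hw hp1 hU (B := v * v) (by
    rw [hv, ← Xg_add, Prod.mk_add_mk, add_zero]
    congr 2
    field_simp
    ring)
  have g2 := CLW_dbl ho (mul_ne_zero two_ne_zero hw) hp2 (A := U * U) (B := v) (by
    rw [hU, ← Xg_add, Prod.mk_add_mk, add_zero]
    congr 2
    ring) (by
    rw [hv]
    congr 2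
    field_simp
    ring)
  have v3 : Xg ℝ ((0, 3 * η) : ℝ × ℝ) = v ^ 3 := by
    rw [pow_three, hv, ← Xg_add, ← Xg_add, Prod.mk_add_mk, Prod.mk_add_mk, add_zero, add_zero]
    congr 2
    ring
  have v5 : Xg ℝ ((0, 5 * η) : ℝ × ℝ) = v ^ 5 := by
    have e : v ^ 5 = v ^ 3 * (v * v) := by ring
    rw [e, ← v3, hv, ← Xg_add, ← Xg_add, Prod.mk_add_mk, Prod.mk_add_mk, add_zero, add_zero]
    congr 2
    ring
  have vi : Xg ℝ ((0, -η) : ℝ × ℝ) * v = 1 := by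
    rw [hv, ← Xg_add, Prod.mk_add_mk, add_zero, neg_add_cancel]
    rfl
  obtain ⟨D, hD⟩ : ∃ D : GR ℝ (ℝ × ℝ), D = Xg ℝ ((0, 4 * p * η) : ℝ × ℝ) - 1 := ⟨_, rfl⟩
  obtain ⟨y, hy⟩ : ∃ y : GR ℝ (ℝ × ℝ), y = Xg ℝ ((0, -η) : ℝ × ℝ) := ⟨_, rfl⟩
  obtain ⟨P, hP⟩ : ∃ P : GR ℝ (ℝ × ℝ), P = ([4 * p * η, 3 * η, 3 * η, 5 * η, 5 * η].map
    fun h => Xg ℝ ((0, h) : ℝ × ℝ) - 1).prod := ⟨_, rfl⟩
  have eP : P = D * ((v ^ 3 - 1) * ((v ^ 3 - 1) * ((v ^ 5 - 1) * (v ^ 5 - 1)))) := by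
    rw [hP, hD]
    simp only [List.map_cons, List.map_nil, List.prod_cons, List.prod_nil, mul_one, v3, v5]
  rw [← hD] at g1 g2
  rw [← hy] at vi
  have e2 : v * v * (P + P) =
      (v * (1 - v ^ 3) * (1 - v ^ 5) * v ^ 8 - (U * v ^ 2 + 1) *
        (v * ((U * v ^ 2) ^ 2 + 1) - v ^ 4 - v ^ 6) * (U * v ^ 2 - 1)) *
        (D * ((1 + v) * ((1 + U * U * (U * U)) * (1 + v)) -
          (1 + U * U) * ((1 + U * U) * (1 + v * v)))) +
      (U * v ^ 2 + 1) * (v * ((U * v ^ 2) ^ 2 + 1) - v ^ 4 - v ^ 6) *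
        ((U + v ^ 2) * (v * (U ^ 2 + v ^ 4) - 1 - v ^ 2)) *
        (D * ((1 + v * v) * ((1 + U * U) * (1 + v * v)) -
          (1 + U) * ((1 + U) * (1 + v * v * (v * v))))) := by
    rw [eP]
    ring
  have e3 : P + P = y * y * (v * v * (P + P)) := by
    linear_combination (-(P + P) * (y * v + 1)) * vi
  have h4 : (P + P) • CLW_F (ev G) = 0 := by
    rw [e3, mul_smul, e2, add_smul, mul_smul _ (D * _), mul_smul _ (D * _), g1, g2, smul_zero,
      smul_zero, add_zero, smul_zero]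
  funext s
  have h5 := congrFun h4 (1, s)
  rw [add_smul, Fn.add_apply, hP, CLW_dfl] at h5
  have e4 : (fun r => CLW_F (ev G) (1, r)) = ev G := funext fun r => by
    rw [CLW_F, one_mul]
  rw [e4] at h5
  exact add_self_eq_zero.1 h5

theorem ev_gp {G : ℝ → ℝ} (hG : Glob G) {p : ℝ} (hp0 : p ≠ 0) (hp : p ∈ Per G) :
    ∃ n, GP n (ev G) := by
  obtain ⟨N, hN⟩ := wilson [(4 * p, 0), (3, 0), (3, 0), (5, 0), (5, 0)] (by
    simp [hp0])
  refine ⟨N, hN _ fun η => ?_⟩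
  simpa only [List.map_cons, List.map_nil, add_zero] using ev_kill hG hp η

end Pool.Agent.P.MP_6d4b14_an.CL
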