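import Pool.Agent.P.MP_6d4b14_an.Period

namespace Pool.Agent.P.MP_6d4b14_an

section
variable {p : ℕ} [hp : Fact p.Prime]

lemma norm_le_one_iff (z : ℚ) : padicNorm p z ≤ 1 ↔ ¬ p ∣ z.den := by
  have e : padicNorm p z = padicNorm p z.num / padicNorm p z.den := by
    rw [← padicNorm.div, Rat.num_div_den]
  have hd : 0 < padicNorm p z.den :=
    lt_of_le_of_ne (padicNorm.nonneg _) (padicNorm.nonzero (by exact_mod_cast z.den_nz)).symm
  rw [e, div_le_one hd]
  constructor
  · intro h hdvd
    have h1 : padicNorm p z.den < 1 := (padicNorm.nat_lt_one_iff _).mpr hdvd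
    have h2 : padicNorm p z.num < 1 := lt_of_le_of_lt h h1
    have h3 : (p : ℤ) ∣ z.num := (padicNorm.int_lt_one_iff _).mp h2
    have h4 : p ∣ z.num.natAbs := Int.natCast_dvd.mp h3
    have := Nat.dvd_gcd h4 hdvd
    rw [z.reduced] at this
    exact hp.out.one_lt.ne' (Nat.dvd_one.mp this)
  · intro h
    rw [(padicNorm.nat_eq_one_iff _).mpr h]
    exact padicNorm.of_int _

lemma norm_pow (k : ℕ) : padicNorm p ((p : ℚ) ^ k) = (p : ℚ)⁻¹ ^ k := by
  induction k with
  | zero => simp
  | succ k ih => rw [pow_succ, padicNorm.mul, ih, padicNorm.padicNorm_p_of_prime, pow_succ]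

lemma exists_small {ε : ℚ} (hε : 0 < ε) : ∃ k : ℕ, padicNorm p ((p : ℚ) ^ k) ≤ ε := by
  have h1 : (1 : ℚ) < p := by exact_mod_cast hp.out.one_lt
  obtain ⟨k, hk⟩ := exists_pow_lt_of_lt_one hε (inv_lt_one_of_one_lt₀ h1)
  exact ⟨k, by rw [norm_pow]; exact hk.le⟩

lemma approx_int {z ε : ℚ} (hz : padicNorm p z ≤ 1) (hε : 0 < ε) :
    ∃ n : ℤ, padicNorm p (z - n) ≤ ε := by
  obtain ⟨k, hk⟩ := exists_small (p := p) hε
  have hc : Nat.Coprime z.den (p ^ k) :=
    Nat.Coprime.pow_right k ((Nat.coprime_comm.mp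
      ((Nat.Prime.coprime_iff_not_dvd hp.out).mpr ((norm_le_one_iff z).mp hz))))
  obtain ⟨s, t, e⟩ := Nat.isCoprime_iff_coprime.mpr hc
  have e1 : (s : ℚ) * z.den + t * p ^ k = 1 := by exact_mod_cast e
  refine ⟨s * z.num, ?_⟩
  have e2 : z - (s * z.num : ℤ) = z * t * p ^ k := by
    have : (z.num : ℚ) = z * z.den := (Rat.mul_den_eq_num z).symm
    push_cast
    rw [this]
    linear_combination (-z) * e1
  rw [e2, padicNorm.mul, padicNorm.mul]
  have a := padicNorm.of_int (p := p) t
  have b := padicNorm.nonneg (p := p) (t : ℚ)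
  have c := padicNorm.nonneg (p := p) ((p : ℚ) ^ k)
  have d : padicNorm p z * padicNorm p t ≤ 1 := mul_le_one₀ hz b a
  nlinarith

lemma norm_sub_eq {a b : ℚ} (h : padicNorm p b < padicNorm p a) :
    padicNorm p (a - b) = padicNorm p a := by
  rw [sub_eq_add_neg, padicNorm.add_eq_max_of_ne (by rw [padicNorm.neg]; exact h.ne'),
    padicNorm.neg, max_eq_left h.le]

/-- The purely local analysis. -/
theorem local_const (F : ℚ → ℝ) (h0 : ∀ z h, padicNorm p h ≤ 1 → F (z + h) = F z)
    (hG : ∀ x y, KK F x y (x * y) = 0) (z h : ℚ)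
    (hh : padicNorm p h ^ 2 ≤ max 1 (padicNorm p z)) : F (z + h) = F z := by
  rcases le_or_gt (padicNorm p h) 1 with h1 | h1
  · exact h0 z h h1
  obtain ⟨x, rfl⟩ : ∃ x, h = -x := ⟨-h, by ring⟩
  rw [padicNorm.neg] at h1 hh
  have hx0 : x ≠ 0 := by
    rintro rfl
    norm_num at h1
  have hxz : padicNorm p x ^ 2 ≤ padicNorm p z := by
    rcases le_max_iff.mp hh with h | h
    · nlinarith
    · exact h
  have hzpos : 0 < padicNorm p z := by nlinarith
  have hz0 : z ≠ 0 := by
    rintro rfl
    simp at hzpos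
  have hxpos : 0 < padicNorm p x := by linarith
  have A : ∀ x w : ℚ, x ≠ 0 → ps F x (w - w / x) = ps F x w := by
    intro x w hx
    have := hG x (w / x)
    rw [KK_eq, mul_div_cancel₀ _ hx] at this
    linarith
  have B : ∀ ε w : ℚ, padicNorm p ε ≤ 1 → ps F (x + ε) w = ps F x w := by
    intro ε w hε
    unfold ps
    rw [show w - (x + ε) = w - x + -ε by ring, h0 _ _ (by rwa [padicNorm.neg])]
  have P1 : ∀ w δ : ℚ, padicNorm p w = padicNorm p z →
      padicNorm p δ * padicNorm p x ^ 2 ≤ padicNorm p z →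
      ps F x (w - w / x - δ) = ps F x w := by
    intro w δ hw hδ
    have hδ0 := padicNorm.nonneg (p := p) δ
    have hlt : padicNorm p (-(δ * x)) < padicNorm p w := by
      rw [padicNorm.neg, padicNorm.mul, hw]
      by_contra hc
      push Not at hc
      nlinarith
    have hn : padicNorm p (w + δ * x) = padicNorm p z := by
      rw [← hw, ← norm_sub_eq hlt]; congr 1; ring
    have hne : w + δ * x ≠ 0 := by
      intro e; rw [e] at hn; simp at hn; linarith
    have hw0 : w ≠ 0 := by
      intro e; rw [e] at hw; simp at hw; linarith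
    have hε : padicNorm p (-(δ * x ^ 2) / (w + δ * x)) ≤ 1 := by
      rw [padicNorm.div, hn, padicNorm.neg, padicNorm.mul, sq, padicNorm.mul, div_le_one hzpos,
        ← sq]
      exact hδ
    have e1 : x + -(δ * x ^ 2) / (w + δ * x) = x * w / (w + δ * x) := by
      rw [eq_div_iff hne, add_mul, div_mul_cancel₀ _ hne]; ring
    have a := A (x + -(δ * x ^ 2) / (w + δ * x)) w (by rw [e1]; positivity)
    rw [B _ _ hε, B _ _ hε] at a
    rw [← a, e1]
    congr 1
    field_simp
    ring
  have hw : ∀ k : ℤ, padicNorm p (z - k * z / x) = padicNorm p z := by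
    intro k
    apply norm_sub_eq
    rw [padicNorm.div, padicNorm.mul, div_lt_iff₀ hxpos]
    have := padicNorm.of_int (p := p) k
    nlinarith
  have hk : ∀ k : ℤ, padicNorm p (k * z / x ^ 2) * padicNorm p x ^ 2 ≤ padicNorm p z := by
    intro k
    rw [padicNorm.div, padicNorm.mul, sq, padicNorm.mul, ← sq, div_mul_cancel₀ _ (by positivity)]
    have := padicNorm.of_int (p := p) k
    nlinarith
  have step : ∀ k : ℤ, ps F x (z - ((k + 1 : ℤ) : ℚ) * z / x) = ps F x (z - k * z / x) := by
    intro k
    rw [← P1 _ _ (hw k) (hk k)]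
    congr 1
    push_cast
    field_simp
    ring
  have P2 : ∀ k : ℤ, ps F x (z - k * z / x) = ps F x z := by
    intro k
    induction k using Int.induction_on with
    | zero => simp
    | succ k ih => rw [step, ih]
    | pred k ih =>
      rw [← ih, ← step]
      congr 1; push_cast; ring
  have P3 : ∀ j : ℕ, ps F x (z - j * x) = ps F x z := by
    intro j
    have hj : padicNorm p (j * x ^ 2 / z - 1) ≤ 1 := by
      refine padicNorm.sub.trans (max_le ?_ (by simp))
      rw [padicNorm.div, padicNorm.mul, sq, padicNorm.mul, ← sq, div_le_one hzpos]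
      have := padicNorm.of_nat (p := p) j
      nlinarith [sq_nonneg (padicNorm p x)]
    obtain ⟨k, hk'⟩ := approx_int hj (ε := 1 / padicNorm p x) (by positivity)
    have hδ : padicNorm p (z / x * (j * x ^ 2 / z - 1 - k) + k * z / x ^ 2) * padicNorm p x ^ 2
        ≤ padicNorm p z := by
      have a := hk k
      have b : padicNorm p (z / x * (j * x ^ 2 / z - 1 - k)) * padicNorm p x ^ 2
          ≤ padicNorm p z := by
        rw [padicNorm.mul, padicNorm.div]
        rw [le_div_iff₀ hxpos] at hk'
        have e : padicNorm p z / padicNorm p x * padicNorm p (j * x ^ 2 / z - 1 - k)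
            * padicNorm p x ^ 2
            = padicNorm p z * (padicNorm p (j * x ^ 2 / z - 1 - k) * padicNorm p x) := by
          field_simp
        rw [e]
        nlinarith
      have c := padicNorm.nonarchimedean (p := p) (q := z / x * (j * x ^ 2 / z - 1 - k))
        (r := k * z / x ^ 2)
      have d : 0 ≤ padicNorm p x ^ 2 := by positivity
      rcases le_max_iff.mp c with c | c
      · exact (mul_le_mul_of_nonneg_right c d).trans b
      · exact (mul_le_mul_of_nonneg_right c d).trans a
    rw [← P2 k, ← P1 _ _ (hw k) hδ]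
    congr 1
    field_simp
    ring
  have T : ∀ j : ℕ, F (z - j * x) - F z = j * ps F x z := by
    intro j
    induction j with
    | zero => simp
    | succ j ih =>
      have := P3 j
      unfold ps at this ih ⊢
      push_cast
      rw [show z - (j + 1) * x = z - j * x - x by ring]
      linarith
  have t := T x.den
  have e : z - x.den * x = z + (-x.num : ℤ) := by
    push_cast
    rw [mul_comm, Rat.mul_den_eq_num]; ring
  rw [e, h0 _ _ (padicNorm.of_int _), sub_self] at t
  have hd : (x.den : ℝ) ≠ 0 := by exact_mod_cast x.den_nz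
  have := (mul_eq_zero.mp t.symm).resolve_left hd
  unfold ps at this
  rw [← sub_eq_add_neg]
  linarith

end

end Pool.Agent.P.MP_6d4b14_an
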