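import Pool.Agent.P.MP_6d4b14_an.Boot
import Pool.Agent.P.MP_6d4b14_an.Local

namespace Pool.Agent.P.MP_6d4b14_an

/-- Rationals whose denominator is a power of `p`. -/
def SP (p : ℕ) (w : ℚ) : Prop := ∀ q : ℕ, q.Prime → q ≠ p → padicNorm q w ≤ 1

lemma SP.add {p : ℕ} {a b : ℚ} (ha : SP p a) (hb : SP p b) : SP p (a + b) := fun q hq hne => by
  have := Fact.mk hq
  exact padicNorm.nonarchimedean.trans (max_le (ha q hq hne) (hb q hq hne))

lemma SP.neg {p : ℕ} {a : ℚ} (ha : SP p a) : SP p (-a) := fun q hq hne => by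
  rw [padicNorm.neg]; exact ha q hq hne

/-- The polar part at `p`. -/
noncomputable def part (p : ℕ) (z : ℚ) : ℚ :=
  Classical.epsilon fun w => SP p w ∧ padicNorm p (z - w) ≤ 1

/-- The component at `p`. -/
noncomputable def FF (f : ℚ → ℝ) (p : ℕ) (z : ℚ) : ℝ := f (part p z)

section
variable {p : ℕ} [hp : Fact p.Prime]

lemma approx_SP (z : ℚ) {ε : ℚ} (hε : 0 < ε) : ∃ w, SP p w ∧ padicNorm p (z - w) ≤ ε := by
  have hz := padicNorm.nonneg (p := p) z
  obtain ⟨j, hj⟩ := exists_small (p := p) (ε := 1 / (padicNorm p z + 1)) (by positivity)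
  have hp0 : ((p : ℚ) ^ j) ≠ 0 := pow_ne_zero _ (by exact_mod_cast hp.out.ne_zero)
  have hpos : 0 < padicNorm p ((p : ℚ) ^ j) :=
    lt_of_le_of_ne (padicNorm.nonneg _) (padicNorm.nonzero hp0).symm
  have h1 : padicNorm p (p ^ j * z) ≤ 1 := by
    rw [padicNorm.mul]
    rw [le_div_iff₀ (by positivity)] at hj
    nlinarith
  obtain ⟨n, hn⟩ := approx_int h1 (mul_pos hε hpos)
  refine ⟨n / p ^ j, fun q hq hne => ?_, ?_⟩
  · have := Fact.mk hq
    have : padicNorm q ((p ^ j : ℕ) : ℚ) = 1 := by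
      rw [padicNorm.nat_eq_one_iff]
      intro h
      exact hne ((Nat.prime_dvd_prime_iff_eq hq hp.out).mp (hq.dvd_of_dvd_pow h))
    push_cast at this
    rw [padicNorm.div, this, div_one]
    exact padicNorm.of_int _
  · have e : z - n / p ^ j = (p ^ j * z - n) / p ^ j := by field_simp
    rw [e, padicNorm.div, div_le_iff₀ hpos]
    exact hn

lemma part_spec (z : ℚ) : SP p (part p z) ∧ padicNorm p (z - part p z) ≤ 1 :=
  Classical.epsilon_spec (approx_SP (p := p) z one_pos)

lemma int_of_SP {w : ℚ} (h1 : SP p w) (h2 : padicNorm p w ≤ 1) : ∃ n : ℤ, w = n := by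
  refine ⟨w.num, (Rat.coe_int_num_of_den_eq_one ?_).symm⟩
  by_contra hne
  obtain ⟨q, hq, hd⟩ := Nat.exists_prime_and_dvd hne
  have := Fact.mk hq
  refine (norm_le_one_iff (p := q) w).mp ?_ hd
  by_cases e : q = p
  · rw [e]; exact h2
  · exact h1 q hq e

lemma cop_of_SP {a b : ℚ} (h1 : SP p a) (h2 : padicNorm p b ≤ 1) : Nat.Coprime a.den b.den := by
  refine Nat.coprime_of_dvd fun q hq ha hb => ?_
  have := Fact.mk hq
  by_cases e : q = p
  · rw [e] at hb; exact (norm_le_one_iff (p := p) b).mp h2 hb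
  · exact (norm_le_one_iff (p := q) a).mp (h1 q hq e) ha

lemma approx_unit (x : ℚ) {ε : ℚ} (hε : 0 < ε) :
    ∃ x', 0 < x' ∧ x' < 1 ∧ padicNorm p (x' - x) ≤ ε := by
  obtain ⟨k, hk⟩ := exists_small (p := p) hε
  have h1 : (1 : ℚ) < p := by exact_mod_cast hp.out.one_lt
  set s : ℚ := p ^ k / (p ^ (k + 1) + 1) with hs
  have hs0 : 0 < s := by positivity
  have hs1 : s < 1 := by
    rw [hs, div_lt_one (by positivity), pow_succ]
    have : (0 : ℚ) < p ^ k := by positivity
    nlinarith
  set n := ⌊-x / s⌋ + 1 with hn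
  have a : ((⌊-x / s⌋ : ℤ) : ℚ) ≤ -x / s := Int.floor_le _
  have b : -x / s < ((⌊-x / s⌋ : ℤ) : ℚ) + 1 := Int.lt_floor_add_one _
  rw [le_div_iff₀ hs0] at a
  rw [div_lt_iff₀ hs0] at b
  refine ⟨x + n * s, ?_, ?_, ?_⟩
  · rw [hn]; push_cast; linarith
  · rw [hn]; push_cast; linarith
  · have : padicNorm p ((p ^ (k + 1) + 1 : ℕ) : ℚ) = 1 := by
      rw [padicNorm.nat_eq_one_iff]
      intro h
      have h2 : p ∣ p ^ (k + 1) := dvd_pow_self p (by omega)
      exact hp.out.one_lt.ne' (Nat.dvd_one.mp ((Nat.dvd_add_right h2).mp h))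
    push_cast at this
    rw [add_sub_cancel_left, padicNorm.mul, hs, padicNorm.div, this, div_one]
    have c := padicNorm.of_int (p := p) n
    have d := padicNorm.nonneg (p := p) ((p : ℚ) ^ k)
    nlinarith

namespace HSol
variable {f : ℚ → ℝ} (H : HSol f)
include H

lemma per_int (n : ℤ) (z : ℚ) : f (z + n) = f z := by
  have := H.per_half (2 * n) z
  rw [← this]; congr 1; push_cast; ring

lemma FF_eq {z w : ℚ} (h1 : SP p w) (h2 : padicNorm p (z - w) ≤ 1) : FF f p z = f w := by
  obtain ⟨a, b⟩ := part_spec (p := p) z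
  obtain ⟨n, hn⟩ := int_of_SP (a.add h1.neg) (by
    rw [show part p z + -w = (z - w) - (z - part p z) by ring]
    exact padicNorm.sub.trans (max_le h2 b))
  unfold FF
  rw [← H.per_int n w, ← hn]; congr 1; ring

lemma FF_inv (z h : ℚ) (hh : padicNorm p h ≤ 1) : FF f p (z + h) = FF f p z := by
  obtain ⟨a, b⟩ := part_spec (p := p) z
  refine H.FF_eq a ?_
  rw [show z + h - part p z = (z - part p z) + h by ring]
  exact padicNorm.nonarchimedean.trans (max_le b hh)

lemma FF_odd (z : ℚ) : FF f p (-z) = - FF f p z := by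
  obtain ⟨a, b⟩ := part_spec (p := p) z
  rw [H.FF_eq a.neg (by
    rw [show -z - -part p z = -(z - part p z) by ring, padicNorm.neg]; exact b), H.odd]
  rfl

lemma split {a b : ℚ} (h1 : SP p a) (h2 : padicNorm p b ≤ 1) : f (a + b) = f a + f b := by
  have := H.sep (cop_of_SP h1 h2) (a + b)
  unfold KK at this
  rw [show a + b - a - b = 0 by ring, H.zero, add_sub_cancel_left, add_sub_cancel_right] at this
  linarith

lemma rest_per (u y : ℚ) (hy : SP p y) : f (u - y) - FF f p (u - y) = f u - FF f p u := by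
  obtain ⟨a, b⟩ := part_spec (p := p) u
  have e1 := H.split a b
  have e2 := H.split (a.add hy.neg) b
  rw [add_sub_cancel] at e1
  rw [show part p u + -y + (u - part p u) = u - y by ring] at e2
  rw [H.FF_eq (a.add hy.neg) (by rwa [show u - y - (part p u + -y) = u - part p u by ring]), e2,
    e1]
  unfold FF; ring

lemma FF_eqn (x y : ℚ) : KK (FF f p) x y (x * y) = 0 := by
  have hx := padicNorm.nonneg (p := p) x
  have hy := padicNorm.nonneg (p := p) y
  obtain ⟨y', hy1, hy2⟩ := approx_SP (p := p) y (ε := 1 / (padicNorm p x + 1)) (by positivity)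
  obtain ⟨x', hx0, hx1, hx2⟩ := approx_unit (p := p) x (ε := 1 / (padicNorm p y + 1))
    (by positivity)
  rw [le_div_iff₀ (by positivity)] at hy2 hx2
  have n1 := padicNorm.nonneg (p := p) (y - y')
  have n2 := padicNorm.nonneg (p := p) (x' - x)
  have b1 : padicNorm p (y - y') ≤ 1 := by nlinarith
  have b2 : padicNorm p (x' - x) ≤ 1 := by nlinarith
  have b3 : padicNorm p y' ≤ padicNorm p y + 1 := by
    rw [show y' = y - (y - y') by ring]
    exact padicNorm.sub.trans (max_le (by linarith) (by linarith))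
  have b4 : padicNorm p (x * y - x' * y') ≤ 1 := by
    rw [show x * y - x' * y' = x * (y - y') - (x' - x) * y' by ring]
    refine padicNorm.sub.trans (max_le ?_ ?_) <;> rw [padicNorm.mul] <;> nlinarith
  have k := H.global hx0 hx1 y'
  have r1 := H.rest_per (p := p) (x' * y') y' hy1
  have r2 := H.rest_per (p := p) (x' * y' - x') y' hy1
  have c1 := H.FF_inv (p := p) (x' * y') _ b4
  have c2 := H.FF_inv (p := p) (x' * y' - x') _
    (padicNorm.nonarchimedean.trans (max_le b4 b2))
  have c3 := H.FF_inv (p := p) (x' * y' - y') _ (padicNorm.sub.trans (max_le b4 b1))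
  have c4 := H.FF_inv (p := p) (x' * y' - x' - y') _
    (padicNorm.sub.trans (max_le (padicNorm.nonarchimedean.trans (max_le b4 b2)) b1))
  rw [show x' * y' + (x * y - x' * y') = x * y by ring] at c1
  rw [show x' * y' - x' + (x * y - x' * y' + (x' - x)) = x * y - x by ring] at c2
  rw [show x' * y' - y' + (x * y - x' * y' - (y - y')) = x * y - y by ring] at c3
  rw [show x' * y' - x' - y' + (x * y - x' * y' + (x' - x) - (y - y')) = x * y - x - y by ring]
    at c4
  unfold KK at k ⊢
  linarith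

lemma FF_loc (z h : ℚ) (hh : padicNorm p h ^ 2 ≤ max 1 (padicNorm p z)) :
    FF f p (z + h) = FF f p z :=
  local_const _ H.FF_inv H.FF_eqn z h hh

end HSol
end

namespace HSol
variable {f : ℚ → ℝ} (H : HSol f)
include H

lemma decomp (S : Finset ℕ) (hS : ∀ p ∈ S, p.Prime) (z : ℚ)
    (hz : ∀ q : ℕ, q.Prime → q ∉ S → padicNorm q z ≤ 1) : f z = ∑ p ∈ S, FF f p z := by
  induction S using Finset.induction_on generalizing z with
  | empty =>
    have := Fact.mk Nat.prime_two
    obtain ⟨n, hn⟩ := int_of_SP (p := 2) (w := z) (fun q hq _ => hz q hq (by simp))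
      (hz 2 Nat.prime_two (by simp))
    have := H.per_int n 0
    rw [zero_add, H.zero, ← hn] at this
    simpa using this
  | insert p S hpS ih =>
    have := Fact.mk (hS p (by simp))
    obtain ⟨a, b⟩ := part_spec (p := p) z
    have e1 := H.split a b
    rw [add_sub_cancel] at e1
    rw [Finset.sum_insert hpS, e1, ih (fun q hq => hS q (by simp [hq])) (z - part p z)]
    · congr 1
      refine Finset.sum_congr rfl fun q hq => ?_
      have := Fact.mk (hS q (by simp [hq]))
      rw [sub_eq_add_neg]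
      exact H.FF_inv _ _ (a.neg q (hS q (by simp [hq])) (fun e => hpS (e ▸ hq)))
    · intro q hq hqS
      by_cases e : q = p
      · rw [e]; exact b
      · have := Fact.mk hq
        exact padicNorm.sub.trans (max_le (hz q hq (by simp [e, hqS])) (a q hq e))

theorem classify : ∃ F : ℕ → ℚ → ℝ,
    (∀ p : ℕ, p.Prime → (∀ z, F p (-z) = - F p z) ∧
      ∀ z h, padicNorm p h ^ 2 ≤ max 1 (padicNorm p z) → F p (z + h) = F p z) ∧
    ∀ z, f z = ∑ p ∈ z.den.primeFactors, F p z := by
  refine ⟨FF f, fun p hp => ?_, fun z => ?_⟩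
  · have := Fact.mk hp
    exact ⟨H.FF_odd, H.FF_loc⟩
  · refine H.decomp _ (fun p hp => Nat.prime_of_mem_primeFactors hp) z fun q hq hq' => ?_
    have := Fact.mk hq
    rw [norm_le_one_iff]
    intro h
    exact hq' (Nat.mem_primeFactors.mpr ⟨hq, h, z.den_nz⟩)

end HSol

end Pool.Agent.P.MP_6d4b14_an
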