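import Mathlib

namespace Pool.Agent.P.MP_6d4b14_an

open unitInterval

/-- The sum form equation (E) for a function on the unit interval; `σ x` is `1 - x`. -/
def SolvesE (g : I → ℝ) : Prop :=
  ∀ x y : I, g (x * y) + g (x * σ y) + g (σ x * y) + g (σ x * σ y)
    = (g x + g (σ x)) * (g y + g (σ y))

end Pool.Agent.P.MP_6d4b14_an
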