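import Pool.Agent.P.MP_6d4b14_an.Glue

namespace Pool.Agent.P.MP_6d4b14_an

open unitInterval

section
variable {K : Type*} [Field K] {Γ : Type*} [LinearOrderedCommGroupWithZero Γ]

/-- Functions that are additive on the valuation ring and locally constant outside it. -/
lemma EAt_of_additive (v : Valuation K Γ) (C : K →+ ℝ) (hC1 : C 1 = 0 ∨ C 1 = 1)
    (hC : ∀ h, v h < 1 → C h = 0) (f : K → ℝ) (hodd : ∀ z, f (-z) = - f z)
    (hin : ∀ z, v z ≤ 1 → f z = C z)
    (hout : ∀ z h, 1 < v z → v h ^ 2 ≤ v z → f (z + h) = f z) (x y : K) : EAt f x y := by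
  have small : ∀ x : K, v x ≤ 1 → v (1 - x) ≤ 1 := fun x hx =>
    (v.map_sub 1 x).trans (max_le (by simp) hx)
  have mul : ∀ x y : K, v x ≤ 1 → v y ≤ 1 → v (x * y) ≤ 1 := fun x y hx hy => by
    rw [map_mul]; exact mul_le_one' hx hy
  refine glue v f hodd ?_ ?_ hout x y
  · intro x y hx hy
    unfold EAt
    rw [hin _ (mul _ _ hx hy), hin _ (mul _ _ hx (small _ hy)), hin _ (mul _ _ (small _ hx) hy),
      hin _ (mul _ _ (small _ hx) (small _ hy)), hin _ hx, hin _ hy, hin _ (small _ hx),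
      hin _ (small _ hy), ← map_add, ← map_add, ← map_add, ← map_add, ← map_add]
    have e1 : x * y + x * (1 - y) + (1 - x) * y + (1 - x) * (1 - y) = 1 := by ring
    have e2 : x + (1 - x) = 1 := by ring
    have e3 : y + (1 - y) = 1 := by ring
    rw [e1, e2, e3]
    rcases hC1 with h | h <;> rw [h] <;> ring
  · intro z h hz hh
    rw [hin _ hz, hin _ ((v.map_add z h).trans (max_le hz hh.le)), map_add, hC h hh, add_zero]

lemma G_of_additive (v : Valuation K Γ) (C : K →+ ℝ) (f : K → ℝ) (hodd : ∀ z, f (-z) = - f z)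
    (hin : ∀ z, v z ≤ 1 → f z = C z)
    (hout : ∀ z h, 1 < v z → v h ^ 2 ≤ v z → f (z + h) = f z) (x : K) :
    f x + f (1 - x) = if v x ≤ 1 then C 1 else 0 := by
  split_ifs with hx
  · rw [hin _ hx, hin _ ((v.map_sub 1 x).trans (max_le (by simp) hx)), ← map_add]
    congr 1; ring
  · exact G_zero_of_big v f hodd hout (not_le.mp hx)

end

/-- Adding a solution with vanishing `G` to any solution gives a solution. -/
lemma SolvesE.add {g : I → ℝ} (hg : SolvesE g) (f : ℝ → ℝ) (hf : ∀ x y, EAt f x y)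
    (h0 : ∀ x, f x + f (1 - x) = 0) : SolvesE (fun x : I => g x + f x) := by
  intro x y
  have h1 := hg x y
  have h2 := hf x y
  unfold EAt at h2
  have h3 := h0 x
  have h4 := h0 y
  rw [h3] at h2
  simp only [Set.Icc.coe_mul, coe_symm_eq]
  linear_combination h1 + h2 - (g y + g (σ y) + f y + f (1 - y)) * h3 - (g x + g (σ x)) * h4

theorem family {Γ : Type} [LinearOrderedCommGroupWithZero Γ] (v : Valuation ℝ Γ)
    (C : ℝ →+ ℝ) (hC1 : C 1 = 0) (hC : ∀ h, v h < 1 → C h = 0)
    (f : ℝ → ℝ) (hodd : ∀ z, f (-z) = - f z) (hin : ∀ z, v z ≤ 1 → f z = C z)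
    (hout : ∀ z h, 1 < v z → v h ^ 2 ≤ v z → f (z + h) = f z)
    (g : I → ℝ) (hg : SolvesE g) : SolvesE (fun x : I => g x + f x) := by
  refine hg.add f (EAt_of_additive v C (Or.inl hC1) hC f hodd hin hout) fun x => ?_
  rw [G_of_additive v C f hodd hin hout, hC1, ite_self]

end Pool.Agent.P.MP_6d4b14_an
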