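import Pool.Agent.P.MP_6d4b14_an.Family

namespace Pool.Agent.P.MP_6d4b14_an

open unitInterval

/-- Functions of two indices whose rows lie in a finitely generated subspace. -/
def finRank : Subalgebra ℝ (ℕ → ℕ → ℝ) where
  carrier := {φ | ∃ W : Submodule ℝ (ℕ → ℝ), W.FG ∧ ∀ i, φ i ∈ W}
  mul_mem' := by
    rintro a b ⟨W, hW, ha⟩ ⟨V, hV, hb⟩
    exact ⟨W * V, hW.mul hV, fun i => Submodule.mul_mem_mul (ha i) (hb i)⟩
  add_mem' := by
    rintro a b ⟨W, hW, ha⟩ ⟨V, hV, hb⟩
    exact ⟨W ⊔ V, hW.sup hV, fun i => Submodule.add_mem_sup (ha i) (hb i)⟩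
  algebraMap_mem' := by
    intro r
    refine ⟨Submodule.span ℝ {1}, Submodule.fg_span_singleton _, fun i => ?_⟩
    rw [Submodule.mem_span_singleton]
    exact ⟨r, by ext j; simp⟩

lemma sep_mem_finRank (u w : ℕ → ℝ) : (fun i j => u i * w j) ∈ finRank := by
  refine ⟨Submodule.span ℝ {w}, Submodule.fg_span_singleton _, fun i => ?_⟩
  rw [Submodule.mem_span_singleton]
  exact ⟨u i, by ext j; simp⟩

lemma delta_not_mem_finRank : (fun i j : ℕ => if j = i then (1 : ℝ) else 0) ∉ finRank := by
  rintro ⟨W, ⟨S, hS⟩, h⟩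
  have hli : LinearIndependent ℝ (fun i : ℕ => (Pi.single i (1 : ℝ) : ℕ → ℝ)) :=
    Pi.linearIndependent_single_one ℕ ℝ
  have : Finite ℕ := by
    refine hli.finite_of_le_span_finite _ (S : Set (ℕ → ℝ)) ?_
    rintro _ ⟨i, rfl⟩
    rw [hS]
    have := h i
    have e : (Pi.single i (1 : ℝ) : ℕ → ℝ) = fun j => if j = i then (1 : ℝ) else 0 := by
      ext j
      simp [Pi.single_apply]
    change (Pi.single i (1 : ℝ) : ℕ → ℝ) ∈ W
    rw [e]
    exact this
  exact not_finite ℕ

noncomputable def r34 : I := ⟨3 / 4, by norm_num, by norm_num⟩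
noncomputable def s13 : I := ⟨1 / 3, by norm_num, by norm_num⟩

/-- The test points `(3/4)^i (1/3)^(j+1)`. -/
noncomputable def pt (i j : ℕ) : I := r34 ^ i * s13 ^ (j + 1)

lemma pt_coe (i j : ℕ) : (pt i j : ℝ) = (3 / 4) ^ i * (1 / 3) ^ (j + 1) := by
  simp [pt, r34, s13, Set.Icc.coe_mul, Set.Icc.coe_pow]

lemma add_rat (A : I → ℝ) (hA : ∀ x y z : I, (z : ℝ) = x + y → A z = A x + A y)
    (n : ℕ) (hn : 0 < n) (k : ℕ) (x : I) (hx : (x : ℝ) = k / n) : A x = (k / n : ℝ) * A 1 := by
  have hn' : (0 : ℝ) < n := by exact_mod_cast hn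
  let e : I := ⟨1 / n, by positivity, by
    rw [div_le_one hn']; exact_mod_cast hn⟩
  have key : ∀ k : ℕ, ∀ x : I, (x : ℝ) = k / n → A x = k * A e := by
    intro k
    induction k with
    | zero =>
      intro x hx
      have hx0 : x = 0 := Subtype.ext (by simpa using hx)
      have := hA 0 0 0 (by simp)
      rw [hx0]; simp; linarith
    | succ k ih =>
      intro x hx
      have hk : (k : ℝ) / n ≤ 1 := by
        have := x.2.2
        rw [hx] at this
        refine le_trans ?_ this
        gcongr; simp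
      have := hA ⟨k / n, by positivity, hk⟩ e x (by rw [hx]; simp only [e]; push_cast; ring)
      rw [this, ih _ rfl]; push_cast; ring
  have h1 := key n 1 (by simp [hn'.ne'])
  rw [key k x hx, h1]
  field_simp

lemma mem_finRank_of_mem_adjoin (g : I → ℝ)
    (hg : g ∈ Algebra.adjoin ℝ {h : I → ℝ |
      (∀ x y z : I, (z : ℝ) = x + y → h z = h x + h y) ∨ (∀ x y : I, h (x * y) = h x * h y) ∨
      (∀ x y : I, x ≠ 0 → y ≠ 0 → h (x * y) = h x + h y)}) :
    (fun i j => g (pt i j)) ∈ finRank := by
  induction hg using Algebra.adjoin_induction with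
  | mem h hh =>
    rcases hh with hh | hh | hh
    · have : (fun i j => h (pt i j)) = fun i j => ((3 / 4 : ℝ) ^ i * h 1) * (1 / 3) ^ (j + 1) := by
        ext i j
        rw [add_rat h hh (4 ^ i * 3 ^ (j + 1)) (by positivity) (3 ^ i) (pt i j)
          (by rw [pt_coe]; push_cast; rw [div_pow, div_pow, one_pow]; field_simp)]
        push_cast
        rw [div_pow, div_pow, one_pow]; field_simp
      rw [this]
      exact sep_mem_finRank _ _
    · have : (fun i j => h (pt i j)) = fun i j => h (r34 ^ i) * h (s13 ^ (j + 1)) := by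
        ext i j; exact hh _ _
      rw [this]
      exact sep_mem_finRank _ _
    · have : (fun i j => h (pt i j))
          = (fun i j => h (r34 ^ i) * 1) + (fun i j => 1 * h (s13 ^ (j + 1))) := by
        ext i j
        have h1 : r34 ^ i ≠ 0 := by
          intro h0
          have := congrArg Subtype.val h0
          simp [r34, Set.Icc.coe_pow] at this
        have h2 : s13 ^ (j + 1) ≠ 0 := by
          intro h0
          have := congrArg Subtype.val h0
          simp [s13, Set.Icc.coe_pow] at this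
        simp only [Pi.add_apply, mul_one, one_mul]
        exact hh _ _ h1 h2
      rw [this]
      exact finRank.add_mem (sep_mem_finRank _ _) (sep_mem_finRank _ _)
  | algebraMap r => exact finRank.algebraMap_mem r
  | add x y _ _ hx hy => exact finRank.add_mem hx hy
  | mul x y _ _ hx hy => exact finRank.mul_mem hx hy

end Pool.Agent.P.MP_6d4b14_an
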