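import Pool.Agent.P.MP_6d4b14_an.GSKill

set_option linter.unusedSectionVars false
set_option linter.unusedVariables false

namespace Pool.Agent.P.MP_6d4b14_an.GS

open scoped Classical

variable {O : ValuationSubring ℝ} {Γ : Set ℝ} {s e e' : ℝ}

theorem GSP1b_iter (h0 : s ≠ 0) (h4 : e / (4 * s) ∈ O) {c σ : ℝ} (hσ : σ ∈ O)
    (hc : ∀ z, (z - s) / (4 * s) ∈ O → ∃ v ∈ O, c * z = z + σ * e + v * (4 * e)) (i : ℕ) {z : ℝ}
    (hz : (z - s) / (4 * s) ∈ O) : ∃ v ∈ O, c ^ i * z = z + i * (σ * e) + v * (4 * e) := by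
  induction i with
  | zero => exact ⟨0, zero_mem _, by simp⟩
  | succ i ih =>
    obtain ⟨v, hv, ev⟩ := ih
    obtain ⟨w, hw, ew⟩ := hc (c ^ i * z) (by
      rw [ev]
      convert add_mem hz (mul_mem h4 (add_mem (mul_mem (natCast_mem O i) hσ)
        (mul_mem (ofNat_mem O 4) hv))) using 1
      field_simp
      ring)
    refine ⟨v + w, add_mem hv hw, ?_⟩
    rw [pow_succ', mul_assoc, ew, ev]
    push_cast
    ring

theorem GSP1b_e (he : e * e' = 1 / 4) (hO : 2 * e ∈ O) (h0 : s ≠ 0) (hs : e' / (2 ^ 7 * s) ∈ O) :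
    e / (2 ^ 7 * s) ∈ O := by
  convert mul_mem (pow_mem hO 2) hs using 1
  field_simp
  linear_combination -4 * e * he

theorem P1C (h2 : (2 : ℝ)⁻¹ ∉ O) (he : e * e' = 1 / 4) (hO : 2 * e ∈ O) (hΓ : GamOK Γ s e e')
    (h0 : s ≠ 0) (hs : e' / (2 ^ 7 * s) ∈ O) : Dt s e e' - Ct s e e' ∈ KK O Γ := by
  have two : (2 : ℝ) ∈ O := ofNat_mem _ 2
  have e0 : e ≠ 0 := fun k => by rw [k] at he; norm_num at he
  have e0' : e' ≠ 0 := fun k => by rw [k] at he; norm_num at he
  have hs' := GSP1b_e he hO h0 hs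
  have h4 : e / (4 * s) ∈ O := by
    convert mul_mem (pow_mem two 5) hs' using 1; field_simp; ring
  have h4' : e' / (4 * s) ∈ O := by
    convert mul_mem (pow_mem two 5) hs using 1; field_simp; ring
  obtain ⟨a, b, c⟩ := unit2 h2 (t := (s + e) / s) (mul_mem two h4) (by field_simp; ring)
  have hse : s + e ≠ 0 := fun k => a (by rw [k, zero_div])
  refine KK_of_NN (hΓ.rat s (by simp) (s + e) (by simp)).1 a fun k H => ?_
  rw [ev_NN]
  have i1 := GSP1b_iter h0 h4 (c := (s + e) / s) (one_mem O) fun z hz =>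
    ⟨_, hz, by field_simp; ring⟩
  have i2 := GSP1b_iter h0 h4 (c := ((s + e) / s)⁻¹) (neg_mem (one_mem O)) fun z hz =>
    ⟨_, mul_mem c (sub_mem h4 hz), by field_simp; ring⟩
  generalize (s + e) / s = γ at a b c i1 i2
  simp only [Dt, Ct, map_sub, map_add, ev_pt]
  have ee : e = (2 * e) ^ 2 * e' := by linear_combination -4 * e * he
  by_cases ky : PY O k e'
  · have ky' : PY O k e := by rw [ee]; exact ky.mul (pow_mem hO 2)
    refine Finset.sum_eq_zero fun i _ => ?_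
    have hi : γ⁻¹ ^ i ∈ O := pow_mem c i
    have q1 : ∀ x y, k x ((y + e') / γ ^ i) = k x (y / γ ^ i) := fun x y =>
      ky.eq hi (by field_simp; simp [a]) x
    have q2 : ∀ x y, k x ((y + e) / γ ^ i) = k x (y / γ ^ i) := fun x y =>
      ky'.eq hi (by field_simp; simp [a]) x
    simp only [q1, q2]
    ring
  by_cases kx : PX O k e'
  · have kx' : PX O k e := by rw [ee]; exact kx.mul (pow_mem hO 2)
    refine Finset.sum_eq_zero fun i _ => ?_
    have hi : γ ^ i ∈ O := pow_mem b i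
    have q1 : ∀ x y, k (γ ^ i * (x + e')) y = k (γ ^ i * x) y := fun x y =>
      kx.eq hi (by ring) y
    have q2 : ∀ x y, k (γ ^ i * (x + e)) y = k (γ ^ i * x) y := fun x y =>
      kx'.eq hi (by ring) y
    simp only [q1, q2]
    ring
  have e4 : (4 * e)⁻¹ = e' := inv_eq_of_mul_eq_one_right (by linarith)
  have px : PX O k (4 * e) :=
    (H.per _ (mul_ne_zero four_ne_zero e0)).resolve_right (by rwa [e4])
  have py : PY O k (4 * e) := by
    have := (H.per _ e0').resolve_left kx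
    rwa [← e4, inv_inv] at this
  obtain ⟨S, hS⟩ : ∃ S : ℝ → ℝ → ℚ,
      ∀ x y, S x y = ∑ i ∈ Finset.range (2 ^ 10), k (x + i * e) (y - i * e) := ⟨_, fun _ _ => rfl⟩
  have s1 : ∀ x y, (x - s) / (4 * s) ∈ O → (y - s) / (4 * s) ∈ O →
      ∑ i ∈ Finset.range (2 ^ 10), k (γ ^ i * x) (y / γ ^ i) = S x y := fun x y hx hy => by
    rw [hS]
    refine Finset.sum_congr rfl fun i _ => ?_
    obtain ⟨v, hv, ev⟩ := i1 i hx
    obtain ⟨w, hw, ew⟩ := i2 i hy
    rw [px.eq (x := x + i * e) hv (by rw [ev]; ring),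
      py.eq (y := y - i * e) hw (by rw [div_eq_inv_mul, ← inv_pow, ew]; ring)]
  have s2 : ∀ x y x' y', x' = x + e → y' = y - e → S x' y' = S x y := fun x y x' y' hx hy => by
    rw [← sub_eq_zero, hS, hS, ← Finset.sum_sub_distrib]
    have q : ∀ i : ℕ, k (x' + i * e) (y' - i * e) =
        k (x + (i + 1 : ℕ) * e) (y - (i + 1 : ℕ) * e) := fun i => by
      rw [hx, hy]
      push_cast
      congr 1 <;> ring
    simp only [q]
    rw [Finset.sum_range_sub fun i : ℕ => k (x + i * e) (y - i * e), sub_eq_zero,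
      px.eq (x := x) (pow_mem two 8) (by push_cast; ring),
      py.eq (y := y) (neg_mem (pow_mem two 8)) (by push_cast; ring)]
    simp
  have s3 : ∀ g g', g' = g + e → S g' g' = S g g := fun g g' hg => by
    rcases H.per _ (mul_ne_zero two_ne_zero e0) with q | q
    · rw [s2 (g - e) g' g g (by ring) (by rw [hg]; ring), hS, hS]
      exact Finset.sum_congr rfl fun i _ => q.eq (one_mem O) (by rw [hg]; ring) _
    · rw [← s2 g g g' (g - e) hg rfl, hS, hS]
      exact Finset.sum_congr rfl fun i _ => q.eq (pow_mem hO 2) (by rw [hg]; field_simp; ring) _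
  have m0 : (s - s) / (4 * s) ∈ O := by simp
  have m1 : (s + e - s) / (4 * s) ∈ O := by simpa using h4
  have m2 : (s + e' - s) / (4 * s) ∈ O := by simpa using h4'
  have m3 : (s + e + e' - s) / (4 * s) ∈ O := by
    convert add_mem h4 h4' using 1; ring
  simp only [Finset.sum_sub_distrib, Finset.sum_add_distrib]
  rw [s1 _ _ m0 m0, s1 _ _ m3 m3, s1 _ _ m1 m1, s1 _ _ m2 m2, s1 _ _ m0 m3, s1 _ _ m3 m0,
    s1 _ _ m2 m1, s1 _ _ m1 m2, s3 s (s + e) rfl, s3 (s + e') (s + e + e') (by ring),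
    s2 s (s + e + e') (s + e) (s + e') rfl (by ring),
    s2 (s + e') (s + e) (s + e + e') s (by ring) (by ring)]
  ring

theorem GSP1b_pt (h2 : (2 : ℝ)⁻¹ ∉ O) {g g' ν c : ℝ} (h0 : g ≠ 0) (h0' : g' ≠ 0) (hc : c ∈ O)
    (hg : mu / g ∈ O) (hg' : mu / g' ∈ O) (hν : ν = g * g' + c * mu) (hΓ : g * g' / ν ∈ Γ) :
    pt g (ν / g) - pt g g' ∈ KK O Γ := by
  have two : (2 : ℝ) ∈ O := ofNat_mem _ 2
  obtain ⟨a, b, d⟩ := unit2 h2 (t := ν / (g * g'))
    (mul_mem (mul_mem (pow_mem two 7) hc) (mul_mem hg hg'))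
    (by rw [hν]; unfold mu; field_simp; ring)
  have k := L3 (Γ := Γ) (x := g) (y := g') (by rwa [inv_div]) a b d
    (by convert mul_mem (pow_mem hc 2) (mul_mem hg hg') using 1; rw [hν]; field_simp; ring)
    (by convert mul_mem (pow_mem two 2) hc using 1; rw [hν]; unfold mu; field_simp; ring)
  have e1 : ν / (g * g') * g' = ν / g := by field_simp
  rwa [e1] at k

theorem P1I (h2 : (2 : ℝ)⁻¹ ∉ O) (he : e * e' = 1 / 4) (hO : 2 * e ∈ O) (hΓ : GamOK Γ s e e')
    (h0 : s ≠ 0) (hs : e' / (2 ^ 7 * s) ∈ O) :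
    DZ O s e e' = 0 ∧
      Dt s e e' - Kt s e e' (s * (s + e + e') + mu) + Kt s e e' mu ∈ KK O Γ := by
  have two : (2 : ℝ) ∈ O := ofNat_mem _ 2
  have hs' := GSP1b_e he hO h0 hs
  have hmu : mu / s ∈ O := by
    convert mul_mem hO hs using 1
    unfold mu
    field_simp
    linear_combination -256 * he
  have key : ∀ g t, g = s + t → t / (2 ^ 7 * s) ∈ O →
      g ≠ 0 ∧ mu / g ∈ O ∧ e / (2 ^ 7 * g) ∈ O ∧ 4 * g ∉ O := fun g t hg ht => by
    obtain ⟨a, b, c⟩ := unit2 h2 (t := g / s) (mul_mem (pow_mem two 6) ht)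
      (by rw [hg]; field_simp)
    have g0 : g ≠ 0 := fun k => a (by rw [k, zero_div])
    have q : mu / g ∈ O := by convert mul_mem hmu c using 1; field_simp
    refine ⟨g0, q, by convert mul_mem hs' c using 1; field_simp, fun k => h2 ?_⟩
    convert mul_mem (pow_mem two 5) (mul_mem q k) using 1
    unfold mu
    field_simp
    ring
  obtain ⟨-, b0, c0, d0⟩ := key s 0 (by ring) (by simp)
  obtain ⟨a1, b1, c1, d1⟩ := key (s + e) e rfl hs'
  obtain ⟨a2, b2, c2, d2⟩ := key (s + e') e' rfl hs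
  obtain ⟨a3, b3, c3, d3⟩ := key (s + e + e') (e + e') (by ring)
    (by rw [add_div]; exact add_mem hs' hs)
  refine ⟨by simp [DZ, zt, d0, d1, d2, d3], ?_⟩
  have r1 := (hΓ.rat s (by simp) (s + e) (by simp)).1
  have r2 := (hΓ.rat (s + e') (by simp) (s + e + e') (by simp)).1
  have e1 : s + e + e' = s + e' + e := by ring
  rw [e1] at r2
  have pr : ∀ g, g ≠ 0 → (g + e) / g ∈ Γ → e / (2 ^ 7 * g) ∈ O →
      pt (g + e) (mu / (g + e)) - pt g (mu / g) ∈ KK O Γ := fun g g0 r c =>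
    L2pair h2 g0 r (by convert mul_mem (pow_mem two 6) c using 1; field_simp)
      (by convert mul_mem (pow_mem two 9) c using 1; unfold mu; field_simp; ring)
  have k1 := pr s h0 r1 c0
  have k2 := pr _ a2 r2 c2
  rw [← e1] at k2
  have n63 : (-63 : ℝ) ∈ O := neg_mem (ofNat_mem _ 63)
  have hν : s * (s + e + e') + mu = (s + e) * (s + e') + -63 * mu := by
    unfold mu; linear_combination -he
  have p0 := GSP1b_pt h2 h0 a3 (one_mem O) b0 b3 (by ring) hΓ.m1
  have p3 := GSP1b_pt (ν := s * (s + e + e') + mu) h2 a3 h0 (one_mem O) b3 b0 (by ring)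
    (by rw [mul_comm (s + e + e') s]; exact hΓ.m1)
  have p1 := GSP1b_pt h2 a1 a2 n63 b1 b2 hν hΓ.m2
  have p2 := GSP1b_pt (ν := s * (s + e + e') + mu) h2 a2 a1 n63 b2 b1 (by rw [hν]; ring)
    (by rw [mul_comm (s + e') (s + e)]; exact hΓ.m2)
  convert add_mem (add_mem (P1C h2 he hO hΓ h0 hs)
    (sub_mem (sub_mem (add_mem p1 p2) p0) p3)) (sub_mem k2 k1) using 1
  simp only [Kt, Ct]
  abel

end Pool.Agent.P.MP_6d4b14_an.GS
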