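import Pool.Agent.P.MP_6d4b14_an.GSP1a
import Pool.Agent.P.MP_6d4b14_an.GSP1b

set_option linter.unusedSectionVars false
set_option linter.unusedVariables false

namespace Pool.Agent.P.MP_6d4b14_an.GS

open scoped Classical

theorem AdmJ.mixn {h : ℝ → ℝ → ℚ} (H : AdmJ h) (n : ℤ) {c d : ℝ} (e : c * d = n * mu)
    (x y : ℝ) : h (x + c) (y + d) - h (x + c) y - h x (y + d) + h x y = 0 := by
  by_cases hc : c = 0
  · simp [hc]
  have p : Function.Periodic (fun y => h (x + c) y - h x y) (mu / c) := fun y => by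
    have := H.mix c (mu / c) x y (by field_simp)
    simp only
    linarith
  have k := p.int_mul n y
  have e2 : n * (mu / c) = d := by field_simp; linarith
  rw [e2] at k
  linarith

theorem GSBeta_move {g y y' : ℝ} (n : ℤ) (e : g * y' = g * y + n * mu) :
    pt g y' - pt g y ∈ JM := by
  intro h H
  have := H.mixn n (c := g) (d := y' - y) (by linarith) 0 y
  simp only [zero_add, add_sub_cancel, H.zx] at this
  rw [map_sub, ev_pt, ev_pt]
  linarith

theorem pt_JM {x y : ℝ} (n : ℤ) (h : x * y = n * mu) : pt x y ∈ JM := by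
  intro k H
  have := GSBeta_move (g := x) (y := 0) (y' := y) n (by linarith) k H
  rwa [map_sub, ev_pt k x 0, H.zy, sub_zero] at this

theorem DC_JM {s e e' : ℝ} (he : e * e' = 1 / 4) : Dt s e e' - Ct s e e' ∈ JM := by
  intro h H
  have q1 : e * e' = (64 : ℤ) * mu := by rw [he]; unfold mu; norm_num
  have q2 : e' * e = (64 : ℤ) * mu := by rw [mul_comm, q1]
  have a := H.mixn 64 q1 s s
  have b := H.mixn 64 q1 (s + e') (s + e)
  have c := H.mixn 64 q2 (s + e) s
  have d := H.mixn 64 q2 s (s + e')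
  rw [add_right_comm s e' e] at b d
  simp only [Dt, Ct, map_sub, map_add, ev_pt]
  linarith

theorem GSBeta_div {g g' ν : ℝ} (n : ℤ) (e : ν = g * g' + n * mu) :
    pt g g' - pt g (ν / g) ∈ JM := by
  by_cases hg : g = 0
  · exact sub_mem (pt_JM 0 (by simp [hg])) (pt_JM 0 (by simp [hg]))
  · exact GSBeta_move (-n) (by rw [e]; push_cast; field_simp; ring)

theorem CK_JM {s e e' : ℝ} (he : e * e' = 1 / 4) :
    Ct s e e' - Kt s e e' (s * (s + e + e') + mu) ∈ JM := by
  have hν : s * (s + e + e') + mu = (s + e) * (s + e') + (-63 : ℤ) * mu := by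
    unfold mu; push_cast; linear_combination -he
  have p0 := GSBeta_div (g := s) (g' := s + e + e') (ν := s * (s + e + e') + mu) 1 (by simp)
  have p3 := GSBeta_div (g := s + e + e') (g' := s) (ν := s * (s + e + e') + mu) 1
    (by simp [mul_comm])
  have p1 := GSBeta_div (-63) hν
  have p2 := GSBeta_div (g := s + e') (g' := s + e) (-63) (hν.trans (by ring))
  convert sub_mem (sub_mem (add_mem p0 p3) p1) p2 using 1
  simp only [Ct, Kt]
  abel

theorem GSBeta_K (s e e' : ℝ) : Kt s e e' mu ∈ JM := by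
  have p : ∀ g : ℝ, pt g (mu / g) ∈ JM := fun g => by
    by_cases hg : g = 0
    · exact pt_JM 0 (by simp [hg])
    · exact pt_JM 1 (by field_simp; simp)
  exact sub_mem (sub_mem (add_mem (p _) (p _)) (p _)) (p _)

theorem exists_rat2 {S : Set ℝ} (h : S.Finite) : ∃ Γ : Set ℝ, Γ.Finite ∧ Rat2 Γ S :=
  ⟨Set.image2 (fun g g' => g' / g) S S ∪ Set.image2 (fun g g' => (g / g') ^ 2) S S,
    (h.image2 _ h).union (h.image2 _ h), fun g hg g' hg' =>
      ⟨Or.inl ⟨g, hg, g', hg', rfl⟩, Or.inr ⟨g, hg, g', hg', rfl⟩⟩⟩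

theorem GSBeta_gam (s e e' : ℝ) : ∃ Γ : Set ℝ, Γ.Finite ∧ GamOK Γ s e e' := by
  obtain ⟨Γ, h1, h2⟩ := exists_rat2 (S := {s, s + e, s + e', s + e + e'}) (Set.toFinite _)
  exact ⟨Γ ∪ {mu / (s * (s + e + e') + mu), s * (s + e + e') / (s * (s + e + e') + mu),
    (s + e) * (s + e') / (s * (s + e + e') + mu)}, h1.union (Set.toFinite _),
    fun g hg g' hg' => ⟨Or.inl (h2 g hg g' hg').1, Or.inl (h2 g hg g' hg').2⟩,
    Or.inr (by simp), Or.inr (by simp), Or.inr (by simp)⟩

theorem GamOK.symm {Γ : Set ℝ} {s e e' : ℝ} (h : GamOK Γ s e e') : GamOK Γ s e' e := by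
  obtain ⟨a, b, c, d⟩ := h
  rw [add_right_comm s e e'] at a b c d
  rw [Set.insert_comm (s + e)] at a
  rw [mul_comm (s + e)] at d
  exact ⟨a, b, c, d⟩

theorem GSBeta_nd {O : ValuationSubring ℝ} {Γ : Set ℝ} {s e e' : ℝ} (h2 : (2 : ℝ)⁻¹ ∉ O)
    (he : e * e' = 1 / 4) (hO : 2 * e ∈ O) (hΓ : GamOK Γ s e e') :
    Dt s e e' - Kt s e e' (s * (s + e + e') + mu) + Kt s e e' mu - DZ O s e e' ∈ KK O Γ := by
  by_cases hs : 2 ^ 7 * s / e' ∈ O
  · convert sub_mem (P1D h2 he hO hΓ hs) (P1K h2 he hO hΓ hs) using 1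
    abel
  · obtain ⟨a, b⟩ := inv_mem_of_not hs
    rw [inv_div] at b
    obtain ⟨c, d⟩ := P1I h2 he hO hΓ (fun k => a (by rw [k]; simp)) b
    rwa [c, sub_zero]

theorem GSBeta_dg {O : ValuationSubring ℝ} {Γ : Set ℝ} {s e e' : ℝ} (h2 : (2 : ℝ)⁻¹ ∉ O)
    (he : e * e' = 1 / 4) (hO : 2 * e ∈ O) (hΓ : GamOK Γ s e e')
    (h : s * (s + e + e') = 0 ∨ (s + e) * (s + e') = 0) : Dt s e e' - DZ O s e e' ∈ KK O Γ := by
  refine P1D h2 he hO hΓ ?_
  have e0 : e' ≠ 0 := fun k => by rw [k] at he; norm_num at he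
  have q : e / e' ∈ O := by
    convert pow_mem hO 2 using 1
    field_simp
    linear_combination -4 * e * he
  rw [mul_div_assoc]
  refine mul_mem (pow_mem (ofNat_mem _ 2) 7) ?_
  rcases h with h | h <;> rcases mul_eq_zero.1 h with h | h
  · simp [h]
  · have : s = -e - e' := by linarith
    convert sub_mem (neg_mem q) (one_mem O) using 1
    rw [this]; field_simp
  · have : s = -e := by linarith
    convert neg_mem q using 1
    rw [this]; field_simp
  · have : s = -e' := by linarith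
    convert neg_mem (one_mem O) using 1
    rw [this]; field_simp

theorem lift_sd (F : ℝ → ℝ) {s e e' : ℝ} (he : e * e' = 1 / 4) :
    ∃ β ∈ JM, ev (LF F) β = Finsupp.linearCombination ℚ (fun g : ℝ => F (g ^ 2)) (sd e e' s) ∧
      ∃ Γ : Set ℝ, Γ.Finite ∧ ∀ O : ValuationSubring ℝ, (2 : ℝ)⁻¹ ∉ O →
        β - Finsupp.linearCombination ℚ (zt O) (sd e e' s) ∈ KK O Γ := by
  obtain ⟨Γ, hf, hΓ⟩ := GSBeta_gam s e e'
  have z1 : ∀ O, Finsupp.linearCombination ℚ (zt O) (sd e e' s) = DZ O s e e' := fun O => by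
    simp only [sd, DZ, map_add, map_sub, Finsupp.linearCombination_single, one_smul]
    abel
  have z2 : Finsupp.linearCombination ℚ (fun g : ℝ => F (g ^ 2)) (sd e e' s) =
      ev (LF F) (Dt s e e') := by
    simp only [sd, Dt, map_add, map_sub, Finsupp.linearCombination_single, one_smul, ev_pt, LF, sq]
    ring
  have he' : e' * e = 1 / 4 := by rw [mul_comm, he]
  have wl : ∀ O : ValuationSubring ℝ, 2 * e ∈ O ∨ 2 * e' ∈ O := fun O => by
    refine (O.mem_or_inv_mem (2 * e)).imp_right fun k => ?_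
    rwa [inv_eq_of_mul_eq_one_right (b := 2 * e') (by linarith)] at k
  have e1 : s + e' + e = s + e + e' := by ring
  have sD : Dt s e' e = Dt s e e' := by simp only [Dt, e1]; abel
  have sZ : ∀ O, DZ O s e' e = DZ O s e e' := fun O => by simp only [DZ, e1]; abel
  have sK : ∀ ν, Kt s e' e ν = Kt s e e' ν := fun ν => by simp only [Kt, e1]; abel
  simp only [z1, z2]
  by_cases hd : s * (s + e + e') = 0 ∨ (s + e) * (s + e') = 0
  · refine ⟨Dt s e e', ?_, rfl, Γ, hf, fun O h2 => ?_⟩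
    · have hC : Ct s e e' ∈ JM := by
        have k : ∃ n m : ℤ, s * (s + e + e') = n * mu ∧ (s + e) * (s + e') = m * mu := by
          rcases hd with h | h
          · exact ⟨0, 64, by simp [h], by unfold mu; push_cast; linear_combination h + he⟩
          · exact ⟨-64, 0, by unfold mu; push_cast; linear_combination h - he, by simp [h]⟩
        obtain ⟨n, m, k1, k2⟩ := k
        exact sub_mem (sub_mem (add_mem (pt_JM n k1) (pt_JM n (by rw [mul_comm, k1])))
          (pt_JM m (by rw [mul_comm, k2]))) (pt_JM m k2)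
      have := add_mem (DC_JM (s := s) he) hC
      rwa [sub_add_cancel] at this
    · rcases wl O with k | k
      · exact GSBeta_dg h2 he k hΓ hd
      · have := GSBeta_dg h2 he' k hΓ.symm (by rwa [e1, mul_comm (s + e')])
        rwa [sD, sZ] at this
  · rw [not_or] at hd
    have a0 := left_ne_zero_of_mul hd.1
    have a3 := right_ne_zero_of_mul hd.1
    have a1 := left_ne_zero_of_mul hd.2
    have a2 := right_ne_zero_of_mul hd.2
    have z3 : ∀ ν, ev (LF F) (Kt s e e' ν) = 0 := fun ν => by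
      simp only [Kt, map_add, map_sub, ev_pt, LF, mul_div_cancel₀ _ a0, mul_div_cancel₀ _ a1,
        mul_div_cancel₀ _ a2, mul_div_cancel₀ _ a3]
      ring
    refine ⟨Dt s e e' - Kt s e e' (s * (s + e + e') + mu) + Kt s e e' mu, ?_, ?_, Γ, hf,
      fun O h2 => ?_⟩
    · have := add_mem (add_mem (DC_JM (s := s) he) (CK_JM (s := s) he)) (GSBeta_K s e e')
      rwa [sub_add_sub_cancel] at this
    · rw [map_add, map_sub, z3, z3, sub_zero, add_zero]
    · rcases wl O with k | k
      · exact GSBeta_nd h2 he k hΓ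
      · have := GSBeta_nd h2 he' k hΓ.symm
        rwa [sD, sZ, sK, sK, e1] at this

end Pool.Agent.P.MP_6d4b14_an.GS
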