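import Pool.Agent.P.MP_6d4b14_an.GSStmt

/-! Working definitions for the homogeneous system. -/

namespace Pool.Agent.P.MP_6d4b14_an.GS

/-- The diagonal of a multi-additive function, cut off outside one coset of `M`. -/
def Mono (P : ℝ → ℝ) : Prop :=
  ∃ (O : ValuationSubring ℝ) (M : AddSubgroup ℝ) (a : ℝ) (n : ℕ)
    (A : MultilinearMap ℚ (fun _ : Fin n => ℝ) ℝ),
    (∀ x ∈ O, x ∈ M) ∧ (∀ v i j, i ≠ j → v i * v j = 1 → A v = 0) ∧
    (∀ v i, (v i)⁻¹ ∉ M → A v = 0) ∧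
    P = Set.indicator {t | t - a ∈ M} fun t => A fun _ => t

/-- The elementary solutions of the homogeneous system. -/
def Elem (e : ℝ → ℝ) : Prop :=
  ∃ u : ℝ → ℝ, (∀ z, e z = u z - u (1 - z)) ∧
    ((∃ P, Mono P ∧ ∀ z, u z = P (2 * √z) + P (-(2 * √z))) ∨
      ∃ (O : ValuationSubring ℝ) (a : ℝ), a ∉ O ∧
        u = Set.indicator {z | (z - a) ^ 2 / a ∈ O} fun _ => 1)

/-- On every finite subset of the unit interval `f` is a finite real combination of elementary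
functions. -/
def Hom (f : ℝ → ℝ) : Prop :=
  ∀ S : Finset ℝ, (∀ z ∈ S, z ∈ Set.Icc (0 : ℝ) 1) →
    ∃ e ∈ Submodule.span ℝ {e | Elem e}, ∀ z ∈ S, f z = e z

open scoped Classical

/-- the homogeneous system on the unit interval -/
def HH (f : ℝ → ℝ) : Prop :=
  (∀ x ∈ Set.Icc (0 : ℝ) 1, f x + f (1 - x) = 0) ∧
    ∀ x ∈ Set.Icc (0 : ℝ) 1, ∀ y ∈ Set.Icc (0 : ℝ) 1,
      f (x * y) + f (x * (1 - y)) + f ((1 - x) * y) + f ((1 - x) * (1 - y)) = 0

/-- the global equation -/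
def GE (F : ℝ → ℝ) : Prop :=
  ∀ x y, F (x * y) - F ((x - 1) * y) - F (x * (y - 1)) + F ((x - 1) * (y - 1)) = 0

/-- second differences with reciprocal steps vanish -/
def D2 (Φ : ℝ → ℝ) : Prop :=
  ∀ c t : ℝ, c ≠ 0 → Φ (t + c + c⁻¹) - Φ (t + c) - Φ (t + c⁻¹) + Φ t = 0

/-- a formal second difference -/
noncomputable def sd {G : Type} [AddCommGroup G] (u v s : G) : G →₀ ℚ :=
  Finsupp.single (s + u + v) 1 - Finsupp.single (s + u) 1 - Finsupp.single (s + v) 1 +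
    Finsupp.single s 1

/-- the ideal of relations in the symmetric algebra -/
noncomputable def jj (M : AddSubgroup ℝ) : Ideal (SymmetricAlgebra ℚ ℝ) :=
  Ideal.span {x | (∃ c : ℝ, c ≠ 0 ∧ c ∈ M ∧ c⁻¹ ∈ M ∧
    x = SymmetricAlgebra.ι ℚ ℝ c * SymmetricAlgebra.ι ℚ ℝ c⁻¹) ∨
    ∃ c : ℝ, c ∉ M ∧ x = SymmetricAlgebra.ι ℚ ℝ c⁻¹}

/-- formal sums of points of the plane -/
abbrev W : Type := (ℝ × ℝ) →₀ ℚ

noncomputable def ev {V : Type} [AddCommGroup V] [Module ℚ V] (h : ℝ → ℝ → V) : W →ₗ[ℚ] V :=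
  Finsupp.linearCombination ℚ fun p => h p.1 p.2

noncomputable def pt (x y : ℝ) : W := Finsupp.single (x, y) 1

@[simp] theorem ev_pt {V : Type} [AddCommGroup V] [Module ℚ V] (h : ℝ → ℝ → V) (x y : ℝ) :
    ev h (pt x y) = h x y := by
  simp [ev, pt]

noncomputable def tau (γ : ℝ) : W →ₗ[ℚ] W := ev fun x y => pt (γ * x) (y / γ)

noncomputable def NN (γ : ℝ) : W →ₗ[ℚ] W := ∑ i ∈ Finset.range (2 ^ 10), tau (γ ^ i)

theorem W_ext {V : Type} [AddCommGroup V] [Module ℚ V] {f g : W →ₗ[ℚ] V}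
    (h : ∀ x y, f (pt x y) = g (pt x y)) : f = g := by
  refine Finsupp.lhom_ext fun p q => ?_
  have e : Finsupp.single p q = q • pt p.1 p.2 := by simp [pt]
  rw [e, map_smul, map_smul, h]

theorem ev_tau {V : Type} [AddCommGroup V] [Module ℚ V] (h : ℝ → ℝ → V) (γ : ℝ) (b : W) :
    ev h (tau γ b) = ev (fun x y => h (γ * x) (y / γ)) b := by
  have e : ev h ∘ₗ tau γ = ev fun x y => h (γ * x) (y / γ) := W_ext fun x y => by simp [tau]
  exact LinearMap.congr_fun e b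

theorem ev_NN {V : Type} [AddCommGroup V] [Module ℚ V] (h : ℝ → ℝ → V) (γ : ℝ) (b : W) :
    ev h (NN γ b) =
      ∑ i ∈ Finset.range (2 ^ 10), ev (fun x y => h (γ ^ i * x) (y / γ ^ i)) b := by
  rw [NN, LinearMap.sum_apply, map_sum]
  exact Finset.sum_congr rfl fun i _ => ev_tau h _ b

/-- periodic in the first variable under `a O` -/
def PX (O : ValuationSubring ℝ) (h : ℝ → ℝ → ℚ) (a : ℝ) : Prop :=
  ∀ u ∈ O, ∀ x y, h (x + u * a) y = h x y

/-- periodic in the second variable under `a O` -/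
def PY (O : ValuationSubring ℝ) (h : ℝ → ℝ → ℚ) (a : ℝ) : Prop :=
  ∀ u ∈ O, ∀ x y, h x (y + u * a) = h x y

structure Adm (O : ValuationSubring ℝ) (h : ℝ → ℝ → ℚ) : Prop where
  zx : ∀ y, h 0 y = 0
  zy : ∀ x, h x 0 = 0
  per : ∀ a, a ≠ 0 → PX O h a ∨ PY O h a⁻¹

def JJ (O : ValuationSubring ℝ) : Submodule ℚ W where
  carrier := {b | ∀ h, Adm O h → ev h b = 0}
  zero_mem' := fun h _ => map_zero _
  add_mem' := fun {a b} ha hb h H => by rw [map_add, ha h H, hb h H, add_zero]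
  smul_mem' := fun c b hb h H => by rw [map_smul, hb h H, smul_zero]

theorem mem_JJ {O : ValuationSubring ℝ} {b : W} : b ∈ JJ O ↔ ∀ h, Adm O h → ev h b = 0 := Iff.rfl

noncomputable def mu : ℝ := 1 / 256

structure AdmJ (h : ℝ → ℝ → ℚ) : Prop where
  zx : ∀ y, h 0 y = 0
  zy : ∀ x, h x 0 = 0
  mix : ∀ c d x y, c * d = mu → h (x + c) (y + d) - h (x + c) y - h x (y + d) + h x y = 0

def JM : Submodule ℚ W where
  carrier := {b | ∀ h, AdmJ h → ev h b = 0}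
  zero_mem' := fun h _ => map_zero _
  add_mem' := fun {a b} ha hb h H => by rw [map_add, ha h H, hb h H, add_zero]
  smul_mem' := fun c b hb h H => by rw [map_smul, hb h H, smul_zero]

theorem mem_JM {b : W} : b ∈ JM ↔ ∀ h, AdmJ h → ev h b = 0 := Iff.rfl

noncomputable def KK (O : ValuationSubring ℝ) (Γ : Set ℝ) : Submodule ℚ W :=
  Submodule.span ℚ {b | b ∈ JJ O ∨ ∃ γ ∈ Γ, γ ≠ 0 ∧ NN γ b ∈ JJ O}

theorem KK_of_JJ {O : ValuationSubring ℝ} {Γ : Set ℝ} {b : W} (h : b ∈ JJ O) : b ∈ KK O Γ :=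
  Submodule.subset_span (Or.inl h)

theorem KK_of_NN {O : ValuationSubring ℝ} {Γ : Set ℝ} {b : W} {γ : ℝ} (hγ : γ ∈ Γ) (h0 : γ ≠ 0)
    (h : NN γ b ∈ JJ O) : b ∈ KK O Γ :=
  Submodule.subset_span (Or.inr ⟨γ, hγ, h0, h⟩)

theorem KK_mono {O : ValuationSubring ℝ} {Γ Γ' : Set ℝ} (h : Γ ⊆ Γ') : KK O Γ ≤ KK O Γ' :=
  Submodule.span_mono fun _ hb => hb.imp id fun ⟨γ, h1, h2⟩ => ⟨γ, h h1, h2⟩

/-- the functional attached to a global solution -/
def LF (F : ℝ → ℝ) (x y : ℝ) : ℝ := F (x * y) - F 0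

noncomputable def zt (O : ValuationSubring ℝ) (g : ℝ) : W := if 4 * g ∈ O then pt g g else 0

noncomputable def Dt (s e e' : ℝ) : W :=
  pt s s + pt (s + e + e') (s + e + e') - pt (s + e) (s + e) - pt (s + e') (s + e')

noncomputable def DZ (O : ValuationSubring ℝ) (s e e' : ℝ) : W :=
  zt O s + zt O (s + e + e') - zt O (s + e) - zt O (s + e')

noncomputable def Ct (s e e' : ℝ) : W :=
  pt s (s + e + e') + pt (s + e + e') s - pt (s + e') (s + e) - pt (s + e) (s + e')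

noncomputable def Kt (s e e' ν : ℝ) : W :=
  pt s (ν / s) + pt (s + e + e') (ν / (s + e + e')) - pt (s + e) (ν / (s + e)) -
    pt (s + e') (ν / (s + e'))

/-- all ratios of points of `S` are available -/
def Rat2 (Γ S : Set ℝ) : Prop := ∀ g ∈ S, ∀ g' ∈ S, g' / g ∈ Γ ∧ (g / g') ^ 2 ∈ Γ

structure GamOK (Γ : Set ℝ) (s e e' : ℝ) : Prop where
  rat : Rat2 Γ {s, s + e, s + e', s + e + e'}
  m0 : mu / (s * (s + e + e') + mu) ∈ Γ
  m1 : s * (s + e + e') / (s * (s + e + e') + mu) ∈ Γ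
  m2 : (s + e) * (s + e') / (s * (s + e + e') + mu) ∈ Γ

/-- the signed number of points whose square lies in a ball vanishes -/
def Ball0 (O : ValuationSubring ℝ) (m : ℝ →₀ ℚ) : Prop :=
  ∀ a, a ∉ O → Finsupp.linearCombination ℚ
    (fun g : ℝ => if (g ^ 2 - a) ^ 2 / a ∈ O then (1 : ℚ) else 0) m = 0

end Pool.Agent.P.MP_6d4b14_an.GS
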