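import Pool.Agent.P.MP_6d4b14_an.GSDefs

set_option linter.unusedSectionVars false
set_option linter.unusedVariables false

namespace Pool.Agent.P.MP_6d4b14_an.GS

open scoped Classical

theorem GSDual_tensor {ι : Type} [Fintype ι] (n f : ι → ℝ)
    (h : ∀ ν : ℝ →ₗ[ℚ] ℚ, ∑ z, ν (n z) • f z = 0) : ∑ z, f z * n z = 0 := by
  let b := Module.Basis.ofVectorSpace ℚ ℝ
  let T := Finset.univ.biUnion fun z => (b.repr (n z)).support
  have e : ∀ z, n z = ∑ j ∈ T, b.coord j (n z) • b j := fun z => by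
    conv_lhs => rw [← b.linearCombination_repr (n z), Finsupp.linearCombination_apply]
    rw [Finsupp.sum_of_support_subset _
      (Finset.subset_biUnion_of_mem (fun z => (b.repr (n z)).support) (Finset.mem_univ z))
      (fun i a => a • b i) fun j _ => zero_smul _ _]
    rfl
  calc ∑ z, f z * n z = ∑ z, ∑ j ∈ T, (b.coord j (n z) • f z) * b j := by
        refine Finset.sum_congr rfl fun z _ => ?_
        conv_lhs => rw [e z, Finset.mul_sum]
        exact Finset.sum_congr rfl fun j _ => by rw [mul_smul_comm, smul_mul_assoc]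
    _ = 0 := by
        rw [Finset.sum_comm]
        exact Finset.sum_eq_zero fun j _ => by rw [← Finset.sum_mul, h, zero_mul]

theorem GSDual_mono {P : ℝ → ℝ} (h : Mono P) (l : ℝ →ₗ[ℚ] ℝ) : Mono fun t => l (P t) := by
  obtain ⟨O, M, a, n, A, h1, h2, h3, rfl⟩ := h
  refine ⟨O, M, a, n, l.compMultilinearMap A, h1, fun v i j k e => ?_, fun v i k => ?_, ?_⟩
  · rw [LinearMap.compMultilinearMap_apply, h2 v i j k e, map_zero]
  · rw [LinearMap.compMultilinearMap_apply, h3 v i k, map_zero]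
  · funext t
    by_cases k : t ∈ {t | t - a ∈ M}
    · rw [Set.indicator_of_mem k, Set.indicator_of_mem k, LinearMap.compMultilinearMap_apply]
    · rw [Set.indicator_of_notMem k, Set.indicator_of_notMem k, map_zero]

theorem GSDual_comp {e : ℝ → ℝ} (h : Elem e) (l : ℝ →ₗ[ℚ] ℝ) :
    (fun z => l (e z)) ∈ Submodule.span ℝ {e | Elem e} := by
  have h' := h
  obtain ⟨u, hu, ⟨P, hP, k⟩ | ⟨O, a, ha, k⟩⟩ := h'
  · refine Submodule.subset_span ⟨fun z => l (u z), fun z => ?_,
      Or.inl ⟨_, GSDual_mono hP l, fun z => ?_⟩⟩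
    · show l (e z) = l (u z) - l (u (1 - z))
      rw [hu, map_sub]
    · show l (u z) = _
      rw [k, map_add]
  · have p : ∀ z, l (u z) = l 1 * u z := fun z => by
      rw [k]
      by_cases m : z ∈ {z | (z - a) ^ 2 / a ∈ O}
      · rw [Set.indicator_of_mem m, mul_one]
      · rw [Set.indicator_of_notMem m, map_zero, mul_zero]
    have q : (fun z => l (e z)) = l 1 • e := by
      funext z
      rw [Pi.smul_apply, hu, map_sub, p, p, smul_eq_mul, mul_sub]
    rw [q]
    exact Submodule.smul_mem _ _ (Submodule.subset_span h)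

theorem hom_of_dual {f : ℝ → ℝ}
    (h : ∀ m : ℝ →₀ ℚ, (∀ z ∈ m.support, z ∈ Set.Icc (0 : ℝ) 1) →
      (∀ e, Elem e → Finsupp.linearCombination ℚ e m = 0) →
      Finsupp.linearCombination ℚ f m = 0) : Hom f := by
  intro S hS
  let r : (ℝ → ℝ) →ₗ[ℝ] (S → ℝ) := LinearMap.funLeft ℝ ℝ (fun z : S => (z : ℝ))
  suffices k : r f ∈ (Submodule.span ℝ {e | Elem e}).map r by
    obtain ⟨e, he, k⟩ := k
    exact ⟨e, he, fun z hz => (congrFun k ⟨z, hz⟩).symm⟩
  by_contra k
  obtain ⟨φ, p1, p2⟩ := Submodule.exists_dual_map_eq_bot_of_notMem k inferInstance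
  let n : S → ℝ := fun z => φ fun j => if z = j then 1 else 0
  have q : ∀ g : ℝ → ℝ, φ (r g) = ∑ z : S, g z * n z := fun g => by
    rw [LinearMap.pi_apply_eq_sum_univ]
    rfl
  have q0 : ∀ e ∈ Submodule.span ℝ {e | Elem e}, ∑ z : S, e z * n z = 0 := fun e he => by
    rw [← q, ← Submodule.mem_bot ℝ, ← p2]
    exact Submodule.mem_map_of_mem (Submodule.mem_map_of_mem he)
  refine p1 ((q f).trans (GSDual_tensor n (fun z => f z) fun ν => ?_))
  have c : ∀ g : ℝ → ℝ, Finsupp.linearCombination ℚ g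
      (∑ z : S, Finsupp.single (z : ℝ) (ν (n z))) = ∑ z : S, ν (n z) • g z := fun g => by
    rw [map_sum]
    exact Finset.sum_congr rfl fun z _ => Finsupp.linearCombination_single _ _ _
  rw [← c]
  refine h _ (fun z hz => ?_) fun e he => ?_
  · obtain ⟨w, _, hw⟩ := Finset.mem_biUnion.1 (Finsupp.support_finsetSum hz)
    rw [Finset.mem_singleton.1 (Finsupp.support_single_subset hw)]
    exact hS _ w.2
  · rw [c, ← Module.forall_dual_apply_eq_zero_iff ℚ]
    intro l
    have t := congrArg ν (q0 _ (GSDual_comp he (Algebra.linearMap ℚ ℝ ∘ₗ l)))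
    rw [map_sum, map_zero] at t
    rw [map_sum, ← t]
    refine Finset.sum_congr rfl fun z _ => ?_
    rw [LinearMap.comp_apply, Algebra.linearMap_apply, ← Algebra.smul_def, map_smul, map_smul,
      smul_eq_mul, smul_eq_mul, mul_comm]

end Pool.Agent.P.MP_6d4b14_an.GS
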