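import Pool.Agent.P.MP_6d4b14_an.GSDefs
import Pool.Agent.P.MP_6d4b14_an.CLJump

set_option linter.unusedSectionVars false
set_option linter.unusedVariables false

namespace Pool.Agent.P.MP_6d4b14_an.GS

open scoped Classical

open CL in
theorem GSExt_all {G o : ℝ → ℝ} (h : Pre G o) (ho : Clw (1 / 6) o) (x y : ℝ) :
    Df G o x y = 0 := by
  have s1 : ∀ y, 1 / 4 < y → y < 3 / 4 → ∀ x, Df G o x y = 0 := fun y a b x => by
    have y0 : 0 < y := by linarith
    have y1 : 0 < 1 - y := by linarith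
    refine congrFun ((clG1_w h ho y0.ne' y1.ne').zero_of (p := 0) (q := 1) ?_
      fun x x0 x1 => h.loc x y x0 x1 y0 (by linarith)) x
    rw [abs_of_pos y0, abs_of_pos y1, zero_add, sub_zero, div_add_div _ _ y0.ne' y1.ne',
      div_lt_one (mul_pos y0 y1)]
    nlinarith
  have s2 : ∀ y, 2 < y → ∀ x, Df G o x y = 0 := fun y a x => by
    have y0 : 0 < y := by linarith
    have y1 : 1 - y < 0 := by linarith
    refine congrFun ((clG1_w h ho y0.ne' y1.ne).zero_of (p := 1 / 4) (q := 3 / 4) ?_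
      fun x x0 x1 => by rw [Df_comm]; exact s1 x x0 x1 y) x
    have b1 : 1 / 6 / |y| ≤ 1 / 6 := div_le_self (by norm_num) (by rw [abs_of_pos y0]; linarith)
    have b2 : 1 / 6 / |1 - y| ≤ 1 / 6 :=
      div_le_self (by norm_num) (by rw [abs_of_neg y1]; linarith)
    linarith
  have e0 : ∀ x, Df G o x 0 = 2 * CL.ev G 0 + G x - G 0 * G x := fun x => by
    have a := h.sg x
    have b := h.odd 0
    rw [neg_zero] at b
    simp only [Df, S4, mul_zero, sub_zero, mul_one]
    linarith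
  have s0 : ∀ x, Df G o x 0 = 0 := fun x => by
    have c : Cl fun x => 2 * CL.ev G 0 + G x - G 0 * G x :=
      Cl.sub (Cl.add (cl_const _) h.cl) (Clw.mul h.cl _)
    rw [e0]
    exact congrFun (Clw.zero_of c (p := 2) (q := 3) (by norm_num) fun x x0 x1 => by
      rw [← e0, Df_comm]; exact s2 x x0 0) x
  by_cases y0 : y = 0
  · rw [y0, s0]
  by_cases y1 : 1 - y = 0
  · have : y = 1 - 0 := by linarith
    rw [this, Df_comm, h.Df_sym, Df_comm, s0]
  exact congrFun ((clG1_w h ho y0 y1).zero_of (p := 2)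
    (q := 3 + (1 / 6 / |y| + 1 / 6 / |1 - y|)) (by linarith)
    fun x x0 x1 => by rw [Df_comm]; exact s2 x x0 y) x

theorem GSExt_ev (z : ℝ) : CL.ev (fun _ => 0) z = 0 := by
  simp [CL.ev]

theorem ext_glob {f : ℝ → ℝ} (h : HH f) :
    ∃ F : ℝ → ℝ, GE F ∧ ∀ x ∈ Set.Icc (0 : ℝ) 1, F x = f x := by
  obtain ⟨h1, h2⟩ := h
  have z0 : (0 : ℝ) ∈ Set.Icc (0 : ℝ) 1 := ⟨le_rfl, zero_le_one⟩
  have f0 : f 0 = 0 := by
    have a := h1 0 z0
    have b := h2 0 z0 0 z0
    simp only [mul_zero, sub_zero, mul_one] at a b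
    linarith
  have f1 : f 1 = 0 := by
    have a := h1 0 z0
    rw [sub_zero] at a
    linarith
  have fh : ∀ z, 0 ≤ z → z ≤ 1 / 2 → f (1 / 2 - z) = -f z := fun z a b => by
    have c := h2 (1 / 2) ⟨by norm_num, by norm_num⟩ (2 * z) ⟨by linarith, by linarith⟩
    have e1 : 1 / 2 * (2 * z) = z := by ring
    have e2 : 1 / 2 * (1 - 2 * z) = 1 / 2 - z := by ring
    have e3 : (1 : ℝ) - 1 / 2 = 1 / 2 := by ring
    rw [e3, e1, e2] at c
    linarith
  have fp : ∀ z, 0 ≤ z → z ≤ 1 / 2 → f (z + 1 / 2) = f z := fun z a b => by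
    have c := h1 (z + 1 / 2) ⟨by linarith, by linarith⟩
    have e : 1 - (z + 1 / 2) = 1 / 2 - z := by ring
    rw [e, fh z a b] at c
    linarith
  have fr : ∀ z, 0 ≤ z → z < 1 → f (Int.fract z) = f z := fun z a b => by
    rw [Int.fract_eq_self.2 ⟨a, b⟩]
  have odd : ∀ z : ℝ, f (Int.fract (-z)) = -f (Int.fract z) := fun z => by
    by_cases hz : Int.fract z = 0
    · rw [Int.fract_neg_eq_zero.2 hz, hz, f0, neg_zero]
    · rw [Int.fract_neg hz]
      have := h1 (Int.fract z) ⟨Int.fract_nonneg z, (Int.fract_lt_one z).le⟩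
      linarith
  have rc : ∀ z : ℝ, f (Int.fract (z - 1 / 2)) = f (Int.fract z) := fun z => by
    have a := Int.fract_nonneg z
    have b := Int.fract_lt_one z
    have c : z = ⌊z⌋ + Int.fract z := (Int.floor_add_fract z).symm
    rcases lt_or_ge (Int.fract z) (1 / 2) with d | d
    · have e : Int.fract (z - 1 / 2) = Int.fract z + 1 / 2 := by
        rw [Int.fract_eq_iff]
        refine ⟨by linarith, by linarith, ⌊z⌋ - 1, ?_⟩
        push_cast
        linarith
      rw [e, fp _ a d.le]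
    · have e : Int.fract (z - 1 / 2) = Int.fract z - 1 / 2 := by
        rw [Int.fract_eq_iff]
        refine ⟨by linarith, by linarith, ⌊z⌋, ?_⟩
        linarith
      have k := fp (Int.fract z - 1 / 2) (by linarith) (by linarith)
      rw [sub_add_cancel] at k
      rw [e, k]
  have hp : CL.Pre (fun _ => 0) fun z => f (Int.fract z) := by
    refine ⟨fun _ => rfl, CL.cl_const 0, odd, fun z => ?_, fun x y x0 x1 y0 y1 => ?_⟩
    · rw [rc, GSExt_ev, GSExt_ev]
      ring
    · have x2 : 0 < 1 - x := by linarith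
      have y2 : 0 < 1 - y := by linarith
      simp only [CL.Df, CL.S4, GSExt_ev, zero_add, mul_zero, sub_zero]
      rw [fr _ (mul_pos x0 y0).le (by nlinarith), fr _ (mul_pos x0 y2).le (by nlinarith),
        fr _ (mul_pos x2 y0).le (by nlinarith), fr _ (mul_pos x2 y2).le (by nlinarith)]
      exact h2 x ⟨x0.le, x1.le⟩ y ⟨y0.le, y1.le⟩
  refine ⟨fun z => f (Int.fract z), fun x y => ?_, fun x hx => ?_⟩
  · have a := GSExt_all hp (hp.clw_o (hp.L_zero hp.reg_E16)) x y
    have e1 : x * (y - 1) = -(x * (1 - y)) := by ring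
    have e2 : (x - 1) * y = -((1 - x) * y) := by ring
    have e3 : (x - 1) * (y - 1) = (1 - x) * (1 - y) := by ring
    simp only [CL.Df, CL.S4, GSExt_ev, zero_add, mul_zero, sub_zero] at a
    simp only
    rw [e1, e2, e3, odd, odd]
    linarith
  · rcases hx.2.eq_or_lt with e | e
    · simp only [e, Int.fract_one, f0, f1]
    · exact fr x hx.1 e

end Pool.Agent.P.MP_6d4b14_an.GS
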