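import Mathlib

/-! Hahn coefficient maps for a valuation of `ℝ` that is trivial on `ℚ`. -/

set_option linter.unusedSectionVars false
set_option linter.unusedVariables false

namespace Pool.Agent.P.MP_6d4b14_an.GS

open scoped Classical

variable {Γ : Type} [LinearOrderedCommGroupWithZero Γ] (v : Valuation ℝ Γ)

/-- `c` is a Hahn expansion of `x` -/
structure GSHahn_G (x : ℝ) (c : Γ → ℝ) : Prop where
  bd : ∀ α, v (c α) ≤ α
  z : ∀ α, v x < α → c α = 0
  ld : x ≠ 0 → v (x - c (v x)) < v x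
  wf : {α | c α ≠ 0}.WellFoundedOn (· > ·)

variable {v}

theorem GSHahn_pos {x : ℝ} (hx : x ≠ 0) : 0 < v x :=
  zero_lt_iff.2 ((_root_.map_ne_zero v).2 hx)

theorem GSHahn_G.lt {x : ℝ} {c : Γ → ℝ} (h : GSHahn_G v x c) {γ : Γ} (h0 : 0 < γ)
    (hx : v x ≤ γ) : v (x - c γ) < γ := by
  rcases hx.lt_or_eq with k | k
  · rw [h.z γ k, sub_zero]
    exact k
  · have hx0 : x ≠ 0 := fun e => by
      rw [e, map_zero] at k
      exact h0.ne k
    rw [← k]
    exact h.ld hx0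

theorem GSHahn_G.smul (hq : ∀ q : ℚ, q ≠ 0 → v (q : ℝ) = 1) {x : ℝ} {c : Γ → ℝ}
    (h : GSHahn_G v x c) {q : ℚ} (q0 : q ≠ 0) : GSHahn_G v (q • x) (q • c) := by
  have e : ∀ y : ℝ, v (q • y) = v y := fun y => by
    rw [Rat.smul_def, map_mul, hq q q0, one_mul]
  refine ⟨fun α => ?_, fun α k => ?_, fun k => ?_, h.wf.subset fun α k => ?_⟩
  · rw [Pi.smul_apply, e]
    exact h.bd α
  · rw [e] at k
    rw [Pi.smul_apply, h.z α k, smul_zero]
  · rw [Pi.smul_apply, ← smul_sub, e, e]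
    exact h.ld fun e0 => k (by rw [e0, smul_zero])
  · intro e0
    exact k (by rw [Pi.smul_apply, e0, smul_zero])

theorem GSHahn_min (f : ℝ →ₗ.[ℚ] (Γ → ℝ)) (hf : ∀ x : f.domain, GSHahn_G v x (f x)) {y : ℝ}
    (y0 : y ≠ 0) (hm : ∀ w : f.domain, v y ≤ v (w + y)) (w : f.domain) :
    GSHahn_G v (w + y) (f w + Pi.single (v y) y) := by
  have hw : v (w : ℝ) ≤ v (w + y) := by
    have e : (w : ℝ) = (w + y) - y := by ring
    conv_lhs => rw [e]
    exact v.map_sub_le le_rfl (hm w)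
  refine ⟨fun α => ?_, fun α k => ?_, fun k => ?_, ?_⟩
  · rw [Pi.add_apply]
    refine v.map_add_le ((hf w).bd α) ?_
    by_cases e : α = v y
    · subst e
      rw [Pi.single_eq_same]
    · rw [Pi.single_eq_of_ne e, map_zero]
      exact zero_le
  · rw [Pi.add_apply, (hf w).z α (hw.trans_lt k),
      Pi.single_eq_of_ne ((hm w).trans_lt k).ne', add_zero]
  · have g0 : 0 < v (w + y) := GSHahn_pos k
    have a := (hf w).lt g0 hw
    have b : v (y - (Pi.single (v y) y : Γ → ℝ) (v (w + y))) < v (w + y) := by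
      rcases (hm w).lt_or_eq with e | e
      · rw [Pi.single_eq_of_ne e.ne', sub_zero]
        exact e
      · rw [← e, Pi.single_eq_same, sub_self, map_zero]
        exact GSHahn_pos y0
    have e : (w : ℝ) + y - (f w + Pi.single (v y) y : Γ → ℝ) (v (w + y)) =
        (w - f w (v (w + y))) + (y - (Pi.single (v y) y : Γ → ℝ) (v (w + y))) := by
      rw [Pi.add_apply]
      ring
    rw [e]
    exact v.map_add_lt a b
  · refine ((hf w).wf.union (Set.finite_singleton (v y)).wellFoundedOn).subset fun α k => ?_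
    by_contra hn
    simp only [Set.mem_union, Set.mem_ofPred_eq, Set.mem_singleton_iff, not_or, not_not] at hn
    exact k (by rw [Pi.add_apply, hn.1, Pi.single_eq_of_ne hn.2, add_zero])

theorem GSHahn_lim (f : ℝ →ₗ.[ℚ] (Γ → ℝ)) (hf : ∀ x : f.domain, GSHahn_G v x (f x)) {y : ℝ}
    (hm : ∀ w : f.domain, ∃ w' : f.domain, v (w' + y) < v (w + y)) :
    ∃ c : Γ → ℝ, ∀ w : f.domain, GSHahn_G v (w + y) (f w + c) := by
  let c : Γ → ℝ := fun α => if h : ∃ w : f.domain, v (w + y) < α then -f h.choose α else 0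
  have K : ∀ α (w : f.domain), v (w + y) < α → c α = -f w α := by
    intro α w k
    have h : ∃ w : f.domain, v (w + y) < α := ⟨w, k⟩
    have h1 : v ((w - h.choose : f.domain) : ℝ) < α := by
      have e : ((w - h.choose : f.domain) : ℝ) = (w + y) - (h.choose + y) := by
        push_cast
        ring
      rw [e]
      exact v.map_sub_lt k h.choose_spec
    have h2 := (hf _).z α h1
    rw [f.map_sub, Pi.sub_apply] at h2
    simp only [c, dif_pos h]
    linarith
  have cw : {α | c α ≠ 0}.WellFoundedOn (· > ·) := by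
    rw [Set.wellFoundedOn_iff_no_descending_seq]
    intro a ha
    have h : ∃ w : f.domain, v (w + y) < a 0 := by
      by_contra hn
      exact ha 0 (by simp only [c, dif_neg hn])
    obtain ⟨w, k⟩ := h
    refine Set.wellFoundedOn_iff_no_descending_seq.1 (hf w).wf a fun n => ?_
    have hn : a 0 ≤ a n := by
      rcases Nat.eq_zero_or_pos n with e | e
      · rw [e]
      · exact le_of_lt (a.map_rel_iff.2 e)
    intro e
    exact ha n (by rw [K _ w (k.trans_le hn), e, neg_zero])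
  refine ⟨c, fun w => ⟨fun α => ?_, fun α k => ?_, fun k => ?_, ?_⟩⟩
  · rw [Pi.add_apply]
    refine v.map_add_le ((hf w).bd α) ?_
    simp only [c]
    split_ifs with h
    · rw [v.map_neg]
      exact (hf _).bd α
    · rw [map_zero]
      exact zero_le
  · rw [Pi.add_apply, K α w k, add_neg_cancel]
  · obtain ⟨w', k'⟩ := hm w
    have g0 : 0 < v (w + y) := GSHahn_pos k
    have h1 : v ((w - w' : f.domain) : ℝ) ≤ v (w + y) := by
      have e : ((w - w' : f.domain) : ℝ) = (w + y) - (w' + y) := by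
        push_cast
        ring
      rw [e]
      exact v.map_sub_le le_rfl k'.le
    have a := (hf _).lt g0 h1
    have e : (w : ℝ) + y - (f w + c) (v (w + y)) =
        (((w - w' : f.domain) : ℝ) - f (w - w') (v (w + y))) + (w' + y) := by
      rw [Pi.add_apply, K _ w' k', f.map_sub, Pi.sub_apply]
      push_cast
      ring
    rw [e]
    exact v.map_add_lt a k'
  · refine ((hf w).wf.union cw).subset fun α k => ?_
    by_contra hn
    simp only [Set.mem_union, Set.mem_ofPred_eq, not_or, not_not] at hn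
    exact k (by rw [Pi.add_apply, hn.1, hn.2, add_zero])

theorem GSHahn_step (hq : ∀ q : ℚ, q ≠ 0 → v (q : ℝ) = 1) (f : ℝ →ₗ.[ℚ] (Γ → ℝ))
    (hf : ∀ x : f.domain, GSHahn_G v x (f x)) (hd : f.domain ≠ ⊤) :
    ∃ g : ℝ →ₗ.[ℚ] (Γ → ℝ), f < g ∧ ∀ x : g.domain, GSHahn_G v x (g x) := by
  obtain ⟨y₀, hy₀⟩ : ∃ y, y ∉ f.domain := by
    by_contra hn
    push Not at hn
    exact hd (eq_top_iff.2 fun y _ => hn y)
  obtain ⟨y, hy, c, hc⟩ : ∃ y, y ∉ f.domain ∧ ∃ c : Γ → ℝ,
      ∀ w : f.domain, GSHahn_G v (w + y) (f w + c) := by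
    by_cases hm : ∀ w : f.domain, ∃ w' : f.domain, v (w' + y₀) < v (w + y₀)
    · exact ⟨y₀, hy₀, GSHahn_lim f hf hm⟩
    · push Not at hm
      obtain ⟨w₀, hw₀⟩ := hm
      have hy : (w₀ : ℝ) + y₀ ∉ f.domain := fun k =>
        hy₀ (by simpa using f.domain.sub_mem k w₀.2)
      refine ⟨w₀ + y₀, hy, _, GSHahn_min f hf (fun e => hy (e ▸ f.domain.zero_mem)) fun w => ?_⟩
      have := hw₀ (w + w₀)
      push_cast at this
      rwa [add_assoc] at this
  refine ⟨f.supSpanSingleton y c hy, ?_, ?_⟩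
  · refine lt_of_le_of_ne (f.left_le_sup _ _) fun e => hy ?_
    rw [e, LinearPMap.domain_supSpanSingleton]
    exact Submodule.mem_sup_right (Submodule.mem_span_singleton_self y)
  · rintro ⟨x, hx⟩
    obtain ⟨w, hw, z, hz, rfl⟩ := Submodule.mem_sup.1 hx
    obtain ⟨q, rfl⟩ := Submodule.mem_span_singleton.1 hz
    have e := LinearPMap.supSpanSingleton_apply_mk f y c hy w hw q
    rw [e]
    simp only [RingHom.id_apply]
    by_cases q0 : q = 0
    · subst q0
      simpa using hf ⟨w, hw⟩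
    · have k := (hc (q⁻¹ • ⟨w, hw⟩)).smul hq q0
      rw [f.map_smul, smul_add, smul_add, smul_inv_smul₀ q0] at k
      simp only [SetLike.val_smul, smul_inv_smul₀ q0] at k
      exact k

theorem GSHahn_exists (hq : ∀ q : ℚ, q ≠ 0 → v (q : ℝ) = 1) :
    ∃ p : Γ → ℝ →+ ℝ, ∀ x, GSHahn_G v x fun α => p α x := by
  set S := {f : ℝ →ₗ.[ℚ] (Γ → ℝ) | ∀ x : f.domain, GSHahn_G v x (f x)}
  have hSc : ∀ c, c ⊆ S → IsChain (· ≤ ·) c → ∀ y ∈ c, ∃ ub ∈ S, ∀ z ∈ c, z ≤ ub := by
    intro c hcs cc y hy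
    have cne : c.Nonempty := ⟨y, hy⟩
    have hcd : DirectedOn (· ≤ ·) c := cc.directedOn
    refine ⟨LinearPMap.sSup c hcd, ?_, fun _ => LinearPMap.le_sSup hcd⟩
    rintro ⟨x, hx⟩
    have hdir : DirectedOn (· ≤ ·) (LinearPMap.domain '' c) :=
      directedOn_image.2 (hcd.mono LinearPMap.domain_mono.monotone)
    rcases (Submodule.mem_sSup_of_directed (cne.image _) hdir).1 hx with ⟨_, ⟨f, hfc, rfl⟩, hfx⟩
    have h : f ≤ LinearPMap.sSup c hcd := LinearPMap.le_sSup _ hfc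
    have e : f ⟨x, hfx⟩ = LinearPMap.sSup c hcd ⟨x, hx⟩ := h.2 rfl
    rw [← e]
    exact hcs hfc ⟨x, hfx⟩
  have h0 : (⊥ : ℝ →ₗ.[ℚ] (Γ → ℝ)) ∈ S := by
    rintro ⟨x, hx⟩
    have x0 : x = 0 := hx
    subst x0
    have e : (⊥ : ℝ →ₗ.[ℚ] (Γ → ℝ)) ⟨0, hx⟩ = 0 := (⊥ : ℝ →ₗ.[ℚ] (Γ → ℝ)).map_zero
    rw [e]
    exact ⟨fun α => by simp, fun α _ => rfl, fun k => (k rfl).elim, by simp⟩
  obtain ⟨f, -, hf, hm⟩ := zorn_le_nonempty₀ S hSc ⊥ h0
  have hd : f.domain = ⊤ := by
    by_contra hd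
    obtain ⟨g, h1, h2⟩ := GSHahn_step hq f hf hd
    exact h1.not_ge (hm h2 h1.le)
  have m : ∀ x : ℝ, x ∈ f.domain := fun x => hd ▸ Submodule.mem_top
  refine ⟨fun α => AddMonoidHom.mk' (fun x => f ⟨x, m x⟩ α) fun a b => ?_, fun x => hf ⟨x, m x⟩⟩
  rw [← Pi.add_apply, ← f.map_add]
  rfl

end Pool.Agent.P.MP_6d4b14_an.GS
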