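import Pool.Agent.P.MP_6d4b14_an.GSDefs

set_option linter.unusedSectionVars false
set_option linter.unusedVariables false

namespace Pool.Agent.P.MP_6d4b14_an.GS

open scoped Classical

variable {O : ValuationSubring ℝ} {Γ : Set ℝ}

theorem Adm.tau {h : ℝ → ℝ → ℚ} (H : Adm O h) {γ : ℝ} (hγ : γ ≠ 0) :
    Adm O fun x y => h (γ * x) (y / γ) := by
  refine ⟨fun y => by simp [H.zx], fun x => by simp [H.zy], fun a ha => ?_⟩
  rcases H.per (γ * a) (mul_ne_zero hγ ha) with k | k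
  · refine Or.inl fun u hu x y => ?_
    have e : γ * (x + u * a) = γ * x + u * (γ * a) := by ring
    simp only [e, k u hu]
  · refine Or.inr fun u hu x y => ?_
    have e : (y + u * a⁻¹) / γ = y / γ + u * (γ * a)⁻¹ := by field_simp
    simp only [e, k u hu]

theorem T1 {θ : ℝ} (h : (θ - 1) / 2 ∈ O) (k : ℕ) :
    ∃ u ∈ O, θ ^ 2 ^ k - 1 = 2 ^ k * (θ - 1) * u := by
  induction k with
  | zero => exact ⟨1, one_mem _, by simp⟩
  | succ k ih =>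
    obtain ⟨u, hu, e⟩ := ih
    refine ⟨u * (1 + 2 ^ k * ((θ - 1) / 2) * u), ?_, ?_⟩
    · exact mul_mem hu (add_mem (one_mem _) (mul_mem (mul_mem (pow_mem (ofNat_mem _ 2) _) h) hu))
    · have e2 : θ ^ 2 ^ k = 1 + 2 ^ k * (θ - 1) * u := by linarith
      rw [pow_succ 2 k, pow_mul, e2]
      ring

theorem GSKill_T2 {θ : ℝ} (h : θ ∈ O) (k : ℕ) :
    ∃ u ∈ O, ∃ v ∈ O, θ ^ 2 ^ k - 1 = 2 ^ k * (θ - 1) * u + (θ - 1) ^ 2 * v := by
  have hd : θ - 1 ∈ O := sub_mem h (one_mem _)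
  have h2 : (2 : ℝ) ∈ O := ofNat_mem _ 2
  induction k with
  | zero => exact ⟨1, one_mem _, 0, zero_mem _, by simp⟩
  | succ k ih =>
    obtain ⟨u, hu, v, hv, e⟩ := ih
    refine ⟨u, hu, 2 * v + (2 ^ k * u + (θ - 1) * v) ^ 2, ?_, ?_⟩
    · exact add_mem (mul_mem h2 hv)
        (pow_mem (add_mem (mul_mem (pow_mem h2 _) hu) (mul_mem hd hv)) _)
    · have e2 : θ ^ 2 ^ k = 1 + (2 ^ k * (θ - 1) * u + (θ - 1) ^ 2 * v) := by linarith
      rw [pow_succ 2 k, pow_mul, e2]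
      ring

theorem T2 {θ z : ℝ} (h : θ ∈ O) (k : ℕ) (h1 : (θ - 1) ^ 2 * z ∈ O)
    (h2 : 2 ^ k * (θ - 1) * z ∈ O) : (θ ^ 2 ^ k - 1) * z ∈ O := by
  obtain ⟨u, hu, v, hv, e⟩ := GSKill_T2 h k
  have e2 : (θ ^ 2 ^ k - 1) * z = 2 ^ k * (θ - 1) * z * u + (θ - 1) ^ 2 * z * v := by
    rw [e]; ring
  rw [e2]
  exact add_mem (mul_mem h2 hu) (mul_mem h1 hv)

theorem PX.mul {h : ℝ → ℝ → ℚ} {a u : ℝ} (k : PX O h a) (hu : u ∈ O) : PX O h (u * a) :=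
  fun v hv x y => by rw [← mul_assoc]; exact k _ (mul_mem hv hu) x y

theorem PY.mul {h : ℝ → ℝ → ℚ} {a u : ℝ} (k : PY O h a) (hu : u ∈ O) : PY O h (u * a) :=
  fun v hv x y => by rw [← mul_assoc]; exact k _ (mul_mem hv hu) x y

theorem PX.eq {h : ℝ → ℝ → ℚ} {a u x x' : ℝ} (k : PX O h a) (hu : u ∈ O) (e : x' = x + u * a)
    (y : ℝ) : h x' y = h x y := by rw [e, k u hu]

theorem PY.eq {h : ℝ → ℝ → ℚ} {a u y y' : ℝ} (k : PY O h a) (hu : u ∈ O) (e : y' = y + u * a)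
    (x : ℝ) : h x y' = h x y := by rw [e, k u hu]

theorem Adm.of_ne {h : ℝ → ℝ → ℚ} (H : Adm O h) {x y : ℝ} (hne : h x y ≠ 0) :
    x ≠ 0 ∧ y ≠ 0 ∧ PY O h x⁻¹ ∧ PX O h y⁻¹ := by
  have hx : x ≠ 0 := fun e => hne (by rw [e, H.zx])
  have hy : y ≠ 0 := fun e => hne (by rw [e, H.zy])
  refine ⟨hx, hy, ?_, ?_⟩
  · refine (H.per x hx).resolve_left fun k => hne ?_
    rw [k.eq (x := 0) (one_mem _) (by ring), H.zx]
  · refine (H.per y⁻¹ (inv_ne_zero hy)).resolve_right fun k => hne ?_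
    rw [inv_inv] at k
    rw [k.eq (y := 0) (one_mem _) (by ring), H.zy]

theorem GSKill_L1 {h : ℝ → ℝ → ℚ} (H : Adm O h) {x y x' y' : ℝ} (h1 : (x' - x) * y ∈ O)
    (h2 : (y' - y) * x ∈ O) (hne : h x y ≠ 0) : h x' y' = h x y := by
  obtain ⟨hx, hy, ky, kx⟩ := H.of_ne hne
  rw [kx.eq (x := x) h1 (by field_simp; ring), ky.eq (y := y) h2 (by field_simp; ring)]

theorem Adm.L1 {h : ℝ → ℝ → ℚ} (H : Adm O h) {x y x' y' : ℝ} (h1 : (x' - x) * y ∈ O)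
    (h2 : (y' - y) * x ∈ O) (h3 : (x' - x) * y' ∈ O) (h4 : (y' - y) * x' ∈ O) :
    h x' y' = h x y := by
  by_cases a : h x y = 0
  · by_cases b : h x' y' = 0
    · rw [a, b]
    · refine (GSKill_L1 H ?_ ?_ b).symm
      · rw [← neg_sub, neg_mul]; exact neg_mem h3
      · rw [← neg_sub, neg_mul]; exact neg_mem h4
  · exact GSKill_L1 H h1 h2 a

theorem L0 {x y : ℝ} (h : x * y ∈ O) : pt x y ∈ JJ O := by
  intro k H
  rw [ev_pt, H.L1 (x := 0) (y := 0) (by simp) (by simp) (by simpa using h)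
    (by simpa [mul_comm] using h), H.zx]

theorem L2 {γ x y : ℝ} (hΓ : γ ∈ Γ) (h0 : γ ≠ 0) (h1 : γ ∈ O) (h2 : γ⁻¹ ∈ O)
    (h : (γ ^ 2 ^ 10 - 1) * (x * y) ∈ O) : pt (γ * x) (y / γ) - pt x y ∈ KK O Γ := by
  refine KK_of_NN hΓ h0 fun k H => ?_
  rw [ev_NN]
  have e : ∀ i : ℕ, ev (fun x y => k (γ ^ i * x) (y / γ ^ i)) (pt (γ * x) (y / γ) - pt x y) =
      k (γ ^ (i + 1) * x) (y / γ ^ (i + 1)) - k (γ ^ i * x) (y / γ ^ i) := fun i => by
    rw [map_sub, ev_pt, ev_pt, pow_succ, mul_assoc, div_div, mul_comm γ (γ ^ i)]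
  simp only [e]
  rw [Finset.sum_range_sub fun i => k (γ ^ i * x) (y / γ ^ i), pow_zero, one_mul, div_one,
    sub_eq_zero]
  have hi : (γ ^ 2 ^ 10)⁻¹ ∈ O := by rw [← inv_pow]; exact pow_mem h2 _
  have hn : γ ^ 2 ^ 10 ≠ 0 := pow_ne_zero _ h0
  generalize γ ^ 2 ^ 10 = c at h hi hn
  refine H.L1 ?_ ?_ ?_ ?_
  · convert h using 1; ring
  · convert neg_mem (mul_mem h hi) using 1; field_simp; ring
  · convert mul_mem h hi using 1; field_simp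
  · convert neg_mem h using 1; field_simp; ring

theorem GSKill_geom {θ : ℝ} (h : θ ∈ O) (i : ℕ) : ∃ u ∈ O, θ ^ i - 1 = u * (θ - 1) :=
  ⟨∑ j ∈ Finset.range i, θ ^ j, sum_mem fun j _ => pow_mem h j, (geom_sum_mul θ i).symm⟩

theorem L3 {θ x y : ℝ} (hΓ : θ⁻¹ ∈ Γ) (h0 : θ ≠ 0) (h1 : θ ∈ O) (h2 : θ⁻¹ ∈ O)
    (h3 : (θ - 1) ^ 2 * (x * y) ∈ O) (h4 : 2 ^ 10 * (θ - 1) * (x * y) ∈ O) :
    pt x (θ * y) - pt x y ∈ KK O Γ := by
  have h5 := T2 h1 10 h3 h4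
  refine KK_of_NN hΓ (inv_ne_zero h0) fun k H => ?_
  rw [ev_NN]
  have e : ∀ i : ℕ, ev (fun x y => k (θ⁻¹ ^ i * x) (y / θ⁻¹ ^ i)) (pt x (θ * y) - pt x y) =
      k (θ⁻¹ ^ i * x) (θ ^ (i + 1) * y) - k (θ⁻¹ ^ i * x) (θ ^ i * y) := fun i => by
    rw [map_sub, ev_pt, ev_pt, inv_pow, div_inv_eq_mul, div_inv_eq_mul]
    congr 2 <;> ring
  simp only [e]
  by_cases kx : PX O k ((θ - 1) * x)
  · have e2 : ∀ (i : ℕ) (z : ℝ), k (θ⁻¹ ^ i * x) z = k x z := fun i z => by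
      obtain ⟨u, hu, eu⟩ := GSKill_geom h2 i
      refine kx.eq (neg_mem (mul_mem hu h2)) ?_ z
      rw [sub_eq_iff_eq_add] at eu
      rw [eu]
      field_simp
      ring
    simp only [e2]
    rw [Finset.sum_range_sub fun i => k x (θ ^ i * y), pow_zero, one_mul, sub_eq_zero]
    generalize θ ^ 2 ^ 10 = c at h5
    refine H.L1 (by simp) ?_ (by simp) ?_ <;> (convert h5 using 1; ring)
  · have hne : (θ - 1) * x ≠ 0 := fun e0 => kx fun u _ a b => by rw [e0, mul_zero, add_zero]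
    have ky := ((H.per _ hne).resolve_left kx).mul h3
    refine Finset.sum_eq_zero fun i _ => sub_eq_zero.2 (ky.eq (pow_mem h1 i) ?_ _)
    have a1 : θ - 1 ≠ 0 := left_ne_zero_of_mul hne
    have a2 : x ≠ 0 := right_ne_zero_of_mul hne
    field_simp
    ring

theorem L4 {g g' : ℝ} (hΓ : g' / g ∈ Γ) (hΓ' : (g / g') ^ 2 ∈ Γ) (h0 : g ≠ 0) (h0' : g' ≠ 0)
    (h1 : g' / g ∈ O) (h2 : g / g' ∈ O) (h3 : (g' ^ 2 - g ^ 2) ^ 2 / g ^ 2 ∈ O)
    (h4 : 2 ^ 9 * (g' ^ 2 - g ^ 2) ∈ O) : pt g' g' - pt g g ∈ KK O Γ := by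
  have hθ : (g' / g) ^ 2 ∈ O := pow_mem h1 2
  have k3 : ((g' / g) ^ 2 - 1) ^ 2 * (g * g) ∈ O := by convert h3 using 1; field_simp
  have k4 : 2 ^ 9 * ((g' / g) ^ 2 - 1) * (g * g) ∈ O := by convert h4 using 1; field_simp
  have a := L3 (Γ := Γ) (θ := (g' / g) ^ 2) (x := g) (y := g) (by rwa [← inv_pow, inv_div])
    (pow_ne_zero _ (div_ne_zero h0' h0)) hθ (by rw [← inv_pow, inv_div]; exact pow_mem h2 2) k3
    (by convert mul_mem (ofNat_mem O 2) k4 using 1; ring)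
  have b := L2 (Γ := Γ) (γ := g' / g) (x := g) (y := (g' / g) ^ 2 * g) hΓ (div_ne_zero h0' h0) h1
    (by rwa [inv_div]) (by
      have := mul_mem (T2 hθ 9 k3 k4) hθ
      rw [← pow_mul] at this
      convert this using 1
      generalize (g' / g) ^ 2 = c
      norm_num
      ring)
  have e1 : g' / g * g = g' := by field_simp
  have e2 : (g' / g) ^ 2 * g / (g' / g) = g' := by field_simp
  rw [e1, e2] at b
  have := add_mem b a
  rwa [sub_add_sub_cancel] at this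

theorem unit2 (h2 : (2 : ℝ)⁻¹ ∉ O) {u t : ℝ} (hu : u ∈ O) (e : t = 1 + 2 * u) :
    t ≠ 0 ∧ t ∈ O ∧ t⁻¹ ∈ O := by
  have a : O.valuation 2 < 1 := by
    by_contra k
    apply h2
    rw [← O.valuation_le_one_iff, map_inv₀]
    exact inv_le_one_of_one_le₀ (not_lt.1 k)
  have b : O.valuation (2 * u) < 1 := by
    rw [map_mul]
    exact mul_lt_one_of_nonneg_of_lt_one_left zero_le a ((O.valuation_le_one_iff u).2 hu)
  have c : O.valuation t = 1 := by rw [e]; exact Valuation.map_one_add_of_lt _ b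
  refine ⟨fun e0 => ?_, (O.valuation_le_one_iff t).1 c.le, ?_⟩
  · rw [e0, map_zero] at c
    exact zero_ne_one c
  · rw [← O.valuation_le_one_iff, map_inv₀, c, inv_one]

theorem inv_mem_of_not {a : ℝ} (h : a ∉ O) : a ≠ 0 ∧ a⁻¹ ∈ O :=
  ⟨fun e => h (e ▸ zero_mem _), (O.mem_or_inv_mem a).resolve_left h⟩

/-- moving along a pair of points with the same product -/
theorem L2pair (h2 : (2 : ℝ)⁻¹ ∉ O) {g e ν : ℝ} (h0 : g ≠ 0) (hΓ : (g + e) / g ∈ Γ)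
    (h1 : e / (2 * g) ∈ O) (h : 2 ^ 10 * (e / g) * ν ∈ O) :
    pt (g + e) (ν / (g + e)) - pt g (ν / g) ∈ KK O Γ := by
  obtain ⟨a, b, c⟩ := unit2 h2 (t := (g + e) / g) h1 (by field_simp)
  have hge : g + e ≠ 0 := fun e0 => a (by rw [e0, zero_div])
  obtain ⟨u, hu, eu⟩ := T1 (O := O) (θ := (g + e) / g) (by convert h1 using 1; field_simp; ring) 10
  have k := L2 (x := g) (y := ν / g) hΓ a b c (by
    rw [eu]
    convert mul_mem h hu using 1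
    field_simp
    ring)
  have e1 : (g + e) / g * g = g + e := by field_simp
  have e2 : ν / g / ((g + e) / g) = ν / (g + e) := by field_simp
  rwa [e1, e2] at k

end Pool.Agent.P.MP_6d4b14_an.GS
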