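import Pool.Agent.P.MP_6d4b14_an.GSLog

set_option linter.unusedSectionVars false
set_option linter.unusedVariables false

namespace Pool.Agent.P.MP_6d4b14_an.GS

open scoped Classical

/-- the relations whose letters lie in `E` -/
noncomputable def GSKr_jj (M : AddSubgroup ℝ) (E : Set ℝ) : Ideal (SymmetricAlgebra ℚ ℝ) :=
  Ideal.span {x | (∃ c : ℝ, c ≠ 0 ∧ c ∈ E ∧ c⁻¹ ∈ E ∧
    x = SymmetricAlgebra.ι ℚ ℝ c * SymmetricAlgebra.ι ℚ ℝ c⁻¹) ∨
    ∃ c : ℝ, c ∉ M ∧ c⁻¹ ∈ E ∧ x = SymmetricAlgebra.ι ℚ ℝ c⁻¹}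

theorem GSKr_mono (M : AddSubgroup ℝ) {E E' : Set ℝ} (h : E ⊆ E') :
    GSKr_jj M E ≤ GSKr_jj M E' := by
  refine Ideal.span_mono ?_
  rintro x (⟨c, h0, h1, h2, h3⟩ | ⟨c, h0, h1, h2⟩)
  · exact Or.inl ⟨c, h0, h h1, h h2, h3⟩
  · exact Or.inr ⟨c, h0, h h1, h2⟩

theorem GSKr_fin (M : AddSubgroup ℝ) (h2 : ∀ c : ℝ, c ∉ M → c⁻¹ ∈ M)
    {x : SymmetricAlgebra ℚ ℝ} (hx : x ∈ jj M) :
    ∃ E : Set ℝ, E.Finite ∧ (∀ a ∈ E, a ∈ M) ∧ x ∈ GSKr_jj M E := by
  unfold jj at hx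
  induction hx using Submodule.span_induction with
  | mem x hx =>
    rcases hx with ⟨c, h0, h1, h3, h4⟩ | ⟨c, h0, h1⟩
    · refine ⟨{c, c⁻¹}, Set.toFinite _, ?_, Ideal.subset_span (Or.inl ⟨c, h0, ?_, ?_, h4⟩)⟩
      · rintro a (rfl | rfl)
        · exact h1
        · exact h3
      · simp
      · simp
    · refine ⟨{c⁻¹}, Set.toFinite _, ?_, Ideal.subset_span (Or.inr ⟨c, h0, rfl, h1⟩)⟩
      rintro a rfl
      exact h2 c h0
  | zero => exact ⟨∅, Set.finite_empty, by simp, Ideal.zero_mem _⟩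
  | add x y _ _ hx hy =>
    obtain ⟨E, e1, e2, e3⟩ := hx
    obtain ⟨E', f1, f2, f3⟩ := hy
    refine ⟨E ∪ E', e1.union f1, ?_, Ideal.add_mem _ (GSKr_mono M Set.subset_union_left e3)
      (GSKr_mono M Set.subset_union_right f3)⟩
    rintro a (ha | ha)
    · exact e2 a ha
    · exact f2 a ha
  | smul a x _ hx =>
    obtain ⟨E, e1, e2, e3⟩ := hx
    exact ⟨E, e1, e2, Ideal.mul_mem_left _ _ e3⟩

theorem GSKr_fin_all (M : AddSubgroup ℝ) (h2 : ∀ c : ℝ, c ∉ M → c⁻¹ ∈ M)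
    (a : ℕ → SymmetricAlgebra ℚ ℝ) (ha : ∀ k, a k ∈ jj M) (N : ℕ) :
    ∃ E : Set ℝ, E.Finite ∧ (∀ a ∈ E, a ∈ M) ∧ ∀ k < N, a k ∈ GSKr_jj M E := by
  induction N with
  | zero => exact ⟨∅, Set.finite_empty, by simp, by simp⟩
  | succ N ih =>
    obtain ⟨E, e1, e2, e3⟩ := ih
    obtain ⟨E', f1, f2, f3⟩ := GSKr_fin M h2 (ha N)
    refine ⟨E ∪ E', e1.union f1, ?_, fun k hk => ?_⟩
    · rintro a (ha | ha)
      · exact e2 a ha
      · exact f2 a ha
    · rcases Nat.lt_succ_iff_lt_or_eq.1 hk with hk | rfl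
      · exact GSKr_mono M Set.subset_union_left (e3 k hk)
      · exact GSKr_mono M Set.subset_union_right f3

/-- the nilpotent step -/
theorem GSKr_nil {T ι : Type} [CommRing T] [Algebra ℚ T] (M A : AddSubgroup ℝ) (E : Set ℝ)
    (hE : ∀ a ∈ E, a ∈ A) (X : A → T) (h0 : X 0 = 1) (hX : ∀ u v, X (u + v) = X u * X v)
    (N : ℕ) (hN : ∀ u, (X u - 1) ^ N = 0)
    (h1 : ∀ u v : A, (u : ℝ) ≠ 0 → (v : ℝ) = (u : ℝ)⁻¹ → (X u - 1) * (X v - 1) = 0)
    (h2 : ∀ (c : ℝ) (v : A), c ∉ M → (v : ℝ) = c⁻¹ → X v = 1)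
    (S : Finset ι) (n : ι → ℚ) (m : ι → A)
    (h : ∀ k : ℕ, ∑ i ∈ S, n i • SymmetricAlgebra.ι ℚ ℝ (m i : ℝ) ^ k ∈ GSKr_jj M E) :
    ∑ i ∈ S, n i • X (m i) = 0 := by
  obtain ⟨L, hL⟩ := exists_log_hom A X h0 hX fun u => ⟨N, hN u⟩
  have hker : ∀ x ∈ GSKr_jj M E, SymmetricAlgebra.lift L x = 0 := by
    intro x hx
    have : GSKr_jj M E ≤ RingHom.ker (SymmetricAlgebra.lift L) := by
      refine Ideal.span_le.2 ?_
      rintro x (⟨c, c0, c1, c2, rfl⟩ | ⟨c, c0, c1, rfl⟩)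
      · obtain ⟨w, hw⟩ := (hL ⟨c, hE c c1⟩).2.2
        obtain ⟨w', hw'⟩ := (hL ⟨c⁻¹, hE _ c2⟩).2.2
        have e := h1 ⟨c, hE c c1⟩ ⟨c⁻¹, hE _ c2⟩ c0 rfl
        simp only [SetLike.mem_coe, RingHom.mem_ker, map_mul, SymmetricAlgebra.lift_ι_apply]
        simp only at hw hw'
        rw [hw, hw']
        linear_combination (w * w') * e
      · obtain ⟨w', hw'⟩ := (hL ⟨c⁻¹, hE _ c1⟩).2.2
        have e := h2 c ⟨c⁻¹, hE _ c1⟩ c0 rfl
        simp only [SetLike.mem_coe, RingHom.mem_ker, SymmetricAlgebra.lift_ι_apply]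
        simp only at hw'
        rw [hw', e]
        ring
    exact this hx
  have hk : ∀ k : ℕ, ∑ i ∈ S, n i • L (m i : ℝ) ^ k = 0 := by
    intro k
    have := hker _ (h k)
    simpa only [map_sum, map_smul, map_pow, SymmetricAlgebra.lift_ι_apply] using this
  have hx : ∀ u : A, X u = ∑ k ∈ Finset.range N, (k.factorial : ℚ)⁻¹ • L (u : ℝ) ^ k := by
    intro u
    obtain ⟨_, e, w, hw⟩ := hL u
    rw [← e]
    refine IsNilpotent.exp_eq_sum ?_
    rw [hw, mul_pow, hN, zero_mul]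
  calc ∑ i ∈ S, n i • X (m i)
      = ∑ i ∈ S, ∑ k ∈ Finset.range N, (k.factorial : ℚ)⁻¹ • n i • L (m i : ℝ) ^ k := by
        refine Finset.sum_congr rfl fun i _ => ?_
        rw [hx, Finset.smul_sum]
        exact Finset.sum_congr rfl fun k _ => smul_comm _ _ _
    _ = ∑ k ∈ Finset.range N, (k.factorial : ℚ)⁻¹ • ∑ i ∈ S, n i • L (m i : ℝ) ^ k := by
        rw [Finset.sum_comm]
        exact Finset.sum_congr rfl fun k _ => (Finset.smul_sum).symm
    _ = 0 := by simp [hk]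

theorem syn_kr {Q ι : Type} [CommRing Q] [Algebra ℚ Q] [IsLocalRing Q] (X : ℝ → Q) (h0 : X 0 = 1)
    (hX : ∀ u v, X (u + v) = X u * X v) (M : AddSubgroup ℝ)
    (hM : ∀ a ∈ M, ¬ IsUnit (X a - 1)) (h1 : ∀ c : ℝ, c ≠ 0 → (X c - 1) * (X c⁻¹ - 1) = 0)
    (h2 : ∀ c : ℝ, c ∉ M → c⁻¹ ∈ M ∧ X c⁻¹ = 1) (S : Finset ι) (n : ι → ℚ) (m : ι → ℝ)
    (hm : ∀ i ∈ S, m i ∈ M)
    (h : ∀ k : ℕ, ∑ i ∈ S, n i • SymmetricAlgebra.ι ℚ ℝ (m i) ^ k ∈ jj M) :
    ∑ i ∈ S, n i • X (m i) = 0 := by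
  obtain ⟨E₀, e1, e2, e3⟩ := GSKr_fin_all M (fun c hc => (h2 c hc).1) _ h S.card
  set E : Set ℝ := E₀ ∪ m '' (S : Set ι) with hEdef
  have Efin : E.Finite := e1.union (S.finite_toSet.image m)
  have EM : ∀ a ∈ E, a ∈ M := by
    rintro a (ha | ⟨i, hi, rfl⟩)
    · exact e2 a ha
    · exact hm i hi
  have hall : ∀ k : ℕ, ∑ i ∈ S, n i • SymmetricAlgebra.ι ℚ ℝ (m i) ^ k ∈ GSKr_jj M E := by
    intro k
    have := pow_sum_mem (GSKr_jj M E) S (fun i => algebraMap ℚ (SymmetricAlgebra ℚ ℝ) (n i))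
      (fun i => SymmetricAlgebra.ι ℚ ℝ (m i)) (fun k hk => by
        have := GSKr_mono M (Set.subset_union_left (t := m '' (S : Set ι))) (e3 k hk)
        simpa only [Algebra.smul_def] using this) k
    simpa only [Algebra.smul_def] using this
  set A : AddSubgroup ℝ := AddSubgroup.closure E with hA
  have EA : ∀ a ∈ E, a ∈ A := fun a ha => AddSubgroup.subset_closure ha
  have AM : A ≤ M := (AddSubgroup.closure_le _).2 EM
  set G : Set Q := X '' E ∪ (fun a => X (-a)) '' E with hG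
  have Gfin : G.Finite := (Efin.image _).union (Efin.image _)
  set R : Subalgebra ℚ Q := Algebra.adjoin ℚ G with hR
  have : IsNoetherianRing R := isNoetherianRing_of_fg (Subalgebra.fg_def.2 ⟨G, Gfin, rfl⟩)
  have XR : ∀ a ∈ A, X a ∈ R ∧ X (-a) ∈ R := by
    intro a ha
    induction ha using AddSubgroup.closure_induction with
    | mem x hx =>
      exact ⟨Algebra.subset_adjoin (Or.inl ⟨x, hx, rfl⟩),
        Algebra.subset_adjoin (Or.inr ⟨x, hx, rfl⟩)⟩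
    | zero => simp [h0]
    | add x y _ _ hx hy =>
      refine ⟨?_, ?_⟩
      · rw [hX]; exact R.mul_mem hx.1 hy.1
      · rw [neg_add, hX]; exact R.mul_mem hx.2 hy.2
    | neg x _ hx => exact ⟨hx.2, by rw [neg_neg]; exact hx.1⟩
  let X1 : A → R := fun u => ⟨X u, (XR u u.2).1⟩
  let I : Ideal R := Ideal.span (Set.range fun u => X1 u - 1)
  let m1 : ι → A := fun i => if hi : i ∈ S then ⟨m i, EA _ (Or.inr ⟨i, hi, rfl⟩)⟩ else 0
  have hm1 : ∀ i ∈ S, (m1 i : ℝ) = m i := fun i hi => by simp only [m1, dif_pos hi]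
  let σ : R := ∑ i ∈ S, n i • X1 (m1 i)
  have hσ : ∀ N : ℕ, σ ∈ I ^ N := by
    intro N
    have key := GSKr_nil (T := R ⧸ I ^ N) M A E EA
      (fun u => Ideal.Quotient.mkₐ ℚ (I ^ N) (X1 u)) ?_ ?_ N ?_ ?_ ?_ S n m1 ?_
    · rw [← Ideal.Quotient.eq_zero_iff_mem]
      have : Ideal.Quotient.mkₐ ℚ (I ^ N) σ = 0 := by
        simpa only [σ, map_sum, map_smul] using key
      exact this
    · have : X1 0 = 1 := Subtype.ext h0
      simp only [this, map_one]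
    · intro u v
      have : X1 (u + v) = X1 u * X1 v := Subtype.ext (hX u v)
      simp only [this, map_mul]
    · intro u
      have hu : X1 u - 1 ∈ I := Ideal.subset_span (Set.mem_range_self u)
      have : (X1 u - 1) ^ N ∈ I ^ N := Ideal.pow_mem_pow hu N
      have := Ideal.Quotient.eq_zero_iff_mem.2 this
      have e : Ideal.Quotient.mkₐ ℚ (I ^ N) ((X1 u - 1) ^ N) = 0 := this
      simpa only [map_pow, map_sub, map_one] using e
    · intro u v hu hv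
      have : (X1 u - 1) * (X1 v - 1) = 0 := by
        apply Subtype.ext
        have := h1 u hu
        rw [← hv] at this
        exact this
      have e := congrArg (Ideal.Quotient.mkₐ ℚ (I ^ N)) this
      simpa only [map_mul, map_sub, map_one, map_zero] using e
    · intro c v hc hv
      have : X1 v = 1 := by
        apply Subtype.ext
        have := (h2 c hc).2
        rw [← hv] at this
        exact this
      simp only [this, map_one]
    · intro k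
      have e : ∑ i ∈ S, n i • SymmetricAlgebra.ι ℚ ℝ (m1 i : ℝ) ^ k =
          ∑ i ∈ S, n i • SymmetricAlgebra.ι ℚ ℝ (m i) ^ k :=
        Finset.sum_congr rfl fun i hi => by rw [hm1 i hi]
      rw [e]
      exact hall k
  have hinf : σ ∈ (⨅ i : ℕ, I ^ i • ⊤ : Submodule R R) := by
    rw [Submodule.mem_iInf]
    intro N
    rw [Ideal.smul_eq_mul, Ideal.mul_top]
    exact hσ N
  obtain ⟨r, hr⟩ := (Ideal.mem_iInf_smul_pow_eq_bot_iff I σ).1 hinf
  have hI : I ≤ (IsLocalRing.maximalIdeal Q).comap R.val.toRingHom := by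
    refine Ideal.span_le.2 ?_
    rintro _ ⟨u, rfl⟩
    exact (IsLocalRing.mem_maximalIdeal _).2 (hM u (AM u.2))
  have hr1 : ((r : R) : Q) ∈ IsLocalRing.maximalIdeal Q := hI r.2
  have hu : IsUnit (1 - ((r : R) : Q)) :=
    IsLocalRing.isUnit_one_sub_self_of_mem_nonunits _ ((IsLocalRing.mem_maximalIdeal _).1 hr1)
  have hr2 : ((r : R) : Q) * (σ : Q) = σ := congrArg Subtype.val hr
  have hz : (σ : Q) = 0 := by
    apply hu.mul_right_eq_zero.1
    linear_combination -hr2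
  have e : (σ : Q) = ∑ i ∈ S, n i • X (m i) := by
    have : (σ : Q) = R.val σ := rfl
    rw [this]
    simp only [σ, map_sum, map_smul]
    refine Finset.sum_congr rfl fun i hi => ?_
    rw [← hm1 i hi]
    rfl
  rw [← e, hz]

end Pool.Agent.P.MP_6d4b14_an.GS
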