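import Pool.Agent.P.MP_6d4b14_an.GSDefs

set_option linter.unusedSectionVars false
set_option linter.unusedVariables false

namespace Pool.Agent.P.MP_6d4b14_an.GS

open scoped Classical

noncomputable def GSLoc_e {G : Type} [AddCommGroup G] (g : G) : AddMonoidAlgebra ℚ G :=
  AddMonoidAlgebra.single g 1

theorem GSLoc_e_zero {G : Type} [AddCommGroup G] : GSLoc_e (0 : G) = 1 := rfl

theorem GSLoc_e_add {G : Type} [AddCommGroup G] (u v : G) :
    GSLoc_e (u + v) = GSLoc_e u * GSLoc_e v := by
  simp only [GSLoc_e, AddMonoidAlgebra.single_mul_single, mul_one]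

theorem GSLoc_coeff_e {G : Type} [AddCommGroup G] (g : G) :
    AddMonoidAlgebra.coeffLinearEquiv ℚ (GSLoc_e g) = Finsupp.single g (1 : ℚ) := rfl

theorem GSLoc_coeff {G : Type} [AddCommGroup G] (b : G →₀ ℚ) :
    AddMonoidAlgebra.coeffLinearEquiv ℚ (Finsupp.linearCombination ℚ GSLoc_e b) = b := by
  induction b using Finsupp.induction_linear with
  | zero => rw [map_zero, map_zero]
  | add a b ha hb => rw [map_add, map_add, ha, hb]
  | single g c =>
    rw [Finsupp.linearCombination_single, map_smul, GSLoc_coeff_e, Finsupp.smul_single, smul_eq_mul,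
      mul_one]

theorem GSLoc_span {G : Type} [AddCommGroup G] (P : Set (G × G)) {x : AddMonoidAlgebra ℚ G}
    (hx : x ∈ Ideal.span {x | ∃ p ∈ P, x = (GSLoc_e p.1 - 1) * (GSLoc_e p.2 - 1)}) (s : G) :
    AddMonoidAlgebra.coeffLinearEquiv ℚ (GSLoc_e s * x) ∈
      Submodule.span ℚ {w | ∃ p ∈ P, ∃ s, w = sd p.1 p.2 s} := by
  induction hx using Submodule.span_induction generalizing s with
  | mem x hx =>
    obtain ⟨p, hp, rfl⟩ := hx
    refine Submodule.subset_span ⟨p, hp, s, ?_⟩
    have e : GSLoc_e s * ((GSLoc_e p.1 - 1) * (GSLoc_e p.2 - 1)) =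
        GSLoc_e (s + p.1 + p.2) - GSLoc_e (s + p.1) - GSLoc_e (s + p.2) + GSLoc_e s := by
      simp only [GSLoc_e_add]
      ring
    rw [e, map_add, map_sub, map_sub, GSLoc_coeff_e, GSLoc_coeff_e, GSLoc_coeff_e, GSLoc_coeff_e]
    rfl
  | zero =>
    rw [mul_zero, map_zero]
    exact Submodule.zero_mem _
  | add x y _ _ hx hy =>
    rw [mul_add, map_add]
    exact Submodule.add_mem _ (hx s) (hy s)
  | smul a x _ hx =>
    rw [smul_eq_mul]
    induction a using AddMonoidAlgebra.induction_linear with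
    | zero =>
      rw [zero_mul, mul_zero, map_zero]
      exact Submodule.zero_mem _
    | add a b ha hb =>
      rw [add_mul, mul_add, map_add]
      exact Submodule.add_mem _ ha hb
    | single g c =>
      have e0 : AddMonoidAlgebra.single g c = c • GSLoc_e g := by
        simp only [GSLoc_e, AddMonoidAlgebra.smul_single, smul_eq_mul, mul_one]
      have e : GSLoc_e s * (AddMonoidAlgebra.single g c * x) = c • (GSLoc_e (s + g) * x) := by
        rw [e0, GSLoc_e_add, smul_mul_assoc, mul_smul_comm, mul_assoc]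
      rw [e, map_smul]
      exact Submodule.smul_mem _ _ (hx _)

theorem loc {G : Type} [AddCommGroup G] (P : Set (G × G)) (b : G →₀ ℚ)
    (h : ∀ (Q : Type) [CommRing Q] [Algebra ℚ Q] [IsLocalRing Q] (X : G → Q), X 0 = 1 →
      (∀ u v, X (u + v) = X u * X v) → (∀ p ∈ P, (X p.1 - 1) * (X p.2 - 1) = 0) →
      Finsupp.linearCombination ℚ X b = 0) :
    b ∈ Submodule.span ℚ {w | ∃ p ∈ P, ∃ s, w = sd p.1 p.2 s} := by
  set J : Ideal (AddMonoidAlgebra ℚ G) :=
    Ideal.span {x | ∃ p ∈ P, x = (GSLoc_e p.1 - 1) * (GSLoc_e p.2 - 1)} with hJ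
  have h1 : Finsupp.linearCombination ℚ GSLoc_e b ∈ J := by
    rw [← Ideal.Quotient.eq_zero_iff_mem]
    refine eq_zero_of_localization _ fun m hm => ?_
    let f : AddMonoidAlgebra ℚ G →+* Localization.AtPrime m :=
      (algebraMap (AddMonoidAlgebra ℚ G ⧸ J) (Localization.AtPrime m)).comp (Ideal.Quotient.mk J)
    have h2 := h (Localization.AtPrime m) (fun g => f (GSLoc_e g))
      (by rw [GSLoc_e_zero, map_one]) (fun u v => by rw [GSLoc_e_add, map_mul]) (fun p hp => by
        have h3 : Ideal.Quotient.mk J ((GSLoc_e p.1 - 1) * (GSLoc_e p.2 - 1)) = 0 :=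
          Ideal.Quotient.eq_zero_iff_mem.2 (Ideal.subset_span ⟨p, hp, rfl⟩)
        have h4 : f ((GSLoc_e p.1 - 1) * (GSLoc_e p.2 - 1)) = 0 := by
          show algebraMap (AddMonoidAlgebra ℚ G ⧸ J) (Localization.AtPrime m)
            (Ideal.Quotient.mk J _) = 0
          rw [h3, map_zero]
        rw [map_mul, map_sub, map_sub, map_one] at h4
        exact h4)
    have h5 := Finsupp.apply_linearCombination ℚ
      (RingHom.toRatAlgHom (R := AddMonoidAlgebra ℚ G) (S := Localization.AtPrime m) f).toLinearMap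
      GSLoc_e b
    exact h5.trans h2
  have h6 := GSLoc_span P h1 0
  rwa [GSLoc_e_zero, one_mul, GSLoc_coeff] at h6

end Pool.Agent.P.MP_6d4b14_an.GS
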