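import Pool.Agent.P.MP_6d4b14_an.GSDefs

set_option linter.unusedSectionVars false
set_option linter.unusedVariables false

namespace Pool.Agent.P.MP_6d4b14_an.GS

open scoped Classical

theorem GSLog_exp {S : Type} [CommRing S] [Algebra ℚ S] {l : S} (hl : IsNilpotent l) :
    ∃ t, IsNilpotent.exp l = 1 + l + l ^ 2 * t := by
  obtain ⟨k, hk⟩ := hl
  have h2 : l ^ (k + 1 + 1) = 0 := by rw [pow_succ, pow_succ, hk, zero_mul, zero_mul]
  refine ⟨∑ i ∈ Finset.range k, ((i + 1 + 1).factorial : ℚ)⁻¹ • l ^ i, ?_⟩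
  rw [IsNilpotent.exp_eq_sum h2, Finset.sum_range_succ', Finset.sum_range_succ', Finset.mul_sum]
  have e : ∀ i ∈ Finset.range k, ((i + 1 + 1).factorial : ℚ)⁻¹ • l ^ (i + 1 + 1) =
      l ^ 2 * (((i + 1 + 1).factorial : ℚ)⁻¹ • l ^ i) := by
    intro i _
    rw [mul_smul_comm]
    congr 1
    ring
  rw [Finset.sum_congr rfl e]
  simp only [zero_add, Nat.factorial_one, Nat.factorial_zero, Nat.cast_one, inv_one, one_smul,
    pow_one, pow_zero]
  ring

theorem GSLog_unit {S : Type} [CommRing S] [Algebra ℚ S] {l : S} (hl : IsNilpotent l) :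
    ∃ w, l = (IsNilpotent.exp l - 1) * w := by
  obtain ⟨t, ht⟩ := GSLog_exp hl
  have hu : IsUnit (1 + l * t) :=
    IsNilpotent.isUnit_one_add ((Commute.all l t).isNilpotent_mul_right hl)
  obtain ⟨w, hw⟩ := hu.exists_right_inv
  refine ⟨w, ?_⟩
  rw [ht]
  linear_combination (-l) * hw

theorem GSLog_inj {S : Type} [CommRing S] [Algebra ℚ S] {l l' : S} (hl : IsNilpotent l)
    (hl' : IsNilpotent l') (h : IsNilpotent.exp l = IsNilpotent.exp l') : l = l' := by
  have hn : IsNilpotent (l + -l') := (Commute.all _ _).isNilpotent_add hl hl'.neg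
  obtain ⟨w, hw⟩ := GSLog_unit hn
  rw [IsNilpotent.exp_add_of_commute (Commute.all _ _) hl hl'.neg, h,
    IsNilpotent.exp_mul_exp_neg_self hl', sub_self, zero_mul] at hw
  linear_combination hw

theorem GSLog_surj {S : Type} [CommRing S] [Algebra ℚ S] {n : S} (hn : IsNilpotent n) :
    ∃ l, IsNilpotent l ∧ IsNilpotent.exp l = 1 + n := by
  have key : ∀ j : ℕ, ∃ l r, IsNilpotent l ∧ IsNilpotent.exp l = 1 + n + n ^ (j + 1) * r := by
    intro j
    induction j with
    | zero =>
      refine ⟨0, -1, IsNilpotent.zero, ?_⟩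
      rw [IsNilpotent.exp_zero]
      ring
    | succ j ih =>
      obtain ⟨l, r, hl, e⟩ := ih
      have hd : IsNilpotent (n * (n ^ j * (-r * IsNilpotent.exp (-l)))) :=
        (Commute.all _ _).isNilpotent_mul_right hn
      obtain ⟨t, ht⟩ := GSLog_exp hd
      refine ⟨l + n * (n ^ j * (-r * IsNilpotent.exp (-l))),
        n ^ j * (-r * IsNilpotent.exp (-l)) ^ 2 * t * IsNilpotent.exp l,
        (Commute.all _ _).isNilpotent_add hl hd, ?_⟩
      have e1 := IsNilpotent.exp_mul_exp_neg_self hl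
      rw [IsNilpotent.exp_add_of_commute (Commute.all _ _) hl hd, ht]
      linear_combination e - n ^ (j + 1) * r * e1
  obtain ⟨k, hk⟩ := hn
  obtain ⟨l, r, hl, e⟩ := key k
  refine ⟨l, hl, ?_⟩
  rw [e, pow_succ, hk, zero_mul, zero_mul, add_zero]

theorem exists_log_hom {S : Type} [CommRing S] [Algebra ℚ S] (A : AddSubgroup ℝ) (X : A → S)
    (h0 : X 0 = 1) (hX : ∀ u v, X (u + v) = X u * X v) (hn : ∀ u, IsNilpotent (X u - 1)) :
    ∃ L : ℝ →ₗ[ℚ] S, ∀ u : A, IsNilpotent (L u) ∧ IsNilpotent.exp (L u) = X u ∧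
      ∃ w, L u = (X u - 1) * w := by
  have h1 : ∀ u, ∃ l, IsNilpotent l ∧ IsNilpotent.exp l = X u := by
    intro u
    obtain ⟨l, hl, e⟩ := GSLog_surj (hn u)
    exact ⟨l, hl, by rw [e]; ring⟩
  choose l hl he using h1
  have hadd : ∀ u v, l (u + v) = l u + l v := by
    intro u v
    refine GSLog_inj (hl _) ((Commute.all _ _).isNilpotent_add (hl u) (hl v)) ?_
    rw [IsNilpotent.exp_add_of_commute (Commute.all _ _) (hl u) (hl v), he, he, he, hX]
  let _ : DivisibleBy S ℤ :=
    { div := fun a n => (n : ℚ)⁻¹ • a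
      div_zero := fun a => by rw [Int.cast_zero, inv_zero, zero_smul]
      div_cancel := fun {n} a h => by
        have h' : (n : ℚ) ≠ 0 := Int.cast_ne_zero.2 h
        rw [← Int.cast_smul_eq_zsmul ℚ, smul_smul, mul_inv_cancel₀ h', one_smul] }
  obtain ⟨g, hg⟩ := (Module.Baer.of_divisible S).extension_property_addMonoidHom A.subtype
    A.subtype_injective (AddMonoidHom.mk' l hadd)
  refine ⟨g.toRatLinearMap, fun u => ?_⟩
  have e : g.toRatLinearMap (u : ℝ) = l u := DFunLike.congr_fun hg u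
  rw [e]
  refine ⟨hl u, he u, ?_⟩
  rw [← he u]
  exact GSLog_unit (hl u)

theorem pow_sum_mem {R ι : Type} [CommRing R] (I : Ideal R) (S : Finset ι) (n m : ι → R)
    (h : ∀ k < S.card, ∑ i ∈ S, n i * m i ^ k ∈ I) (k : ℕ) : ∑ i ∈ S, n i * m i ^ k ∈ I := by
  induction S using Finset.induction_on generalizing n k with
  | empty =>
    rw [Finset.sum_empty]
    exact I.zero_mem
  | insert a S ha ih =>
    rw [Finset.card_insert_of_notMem ha] at h
    have e : ∀ j : ℕ, ∑ i ∈ S, n i * (m i - m a) * m i ^ j =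
        ∑ i ∈ insert a S, n i * m i ^ (j + 1) - m a * ∑ i ∈ insert a S, n i * m i ^ j := by
      intro j
      rw [Finset.mul_sum, ← Finset.sum_sub_distrib, Finset.sum_insert ha]
      have e1 : n a * m a ^ (j + 1) - m a * (n a * m a ^ j) = 0 := by ring
      rw [e1, zero_add]
      exact Finset.sum_congr rfl fun i _ => by ring
    have h1 := ih (fun i => n i * (m i - m a)) (fun j hj => by
      rw [e]
      exact I.sub_mem (h _ (by omega)) (I.mul_mem_left _ (h _ (by omega))))
    induction k with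
    | zero => exact h 0 (by omega)
    | succ k ihk =>
      have h2 := I.add_mem (h1 k) (I.mul_mem_left (m a) ihk)
      rwa [e, sub_add_cancel] at h2

end Pool.Agent.P.MP_6d4b14_an.GS
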