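import Pool.Agent.P.MP_6d4b14_an.GSVal

set_option linter.unusedSectionVars false
set_option linter.unusedVariables false

namespace Pool.Agent.P.MP_6d4b14_an.GS

open scoped Classical

theorem GSVQ_nat (O : ValuationSubring ℝ) (n : ℕ) : (n : ℝ) ∈ O := natCast_mem O n

theorem GSVQ_unit {O : ValuationSubring ℝ} (h2 : (2 : ℝ)⁻¹ ∉ O) {u : ℝ} (hu : u ∈ O) :
    1 - 256 * u ≠ 0 ∧ (1 - 256 * u)⁻¹ ∈ O := by
  have two : O.valuation 2 < 1 := by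
    rw [← ValuationSubring.mem_nonunits_iff, ValuationSubring.mem_nonunits_iff_or]
    exact Or.inr h2
  have k : (128 : ℝ) * u ∈ O := O.mul_mem _ _ (by simp) hu
  have v : O.valuation (256 * u) < 1 := by
    have e : (256 : ℝ) * u = 128 * u * 2 := by ring
    rw [e, map_mul]
    exact lt_of_le_of_lt (mul_le_of_le_one_left' ((O.valuation_le_one_iff _).2 k)) two
  have w : O.valuation (1 - 256 * u) = 1 := O.valuation.map_one_sub_of_lt v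
  refine ⟨fun e => ?_, ?_⟩
  · rw [e, map_zero] at w
    exact zero_ne_one w
  · rw [← O.valuation_le_one_iff, map_inv₀, w, inv_one]

theorem GSVQ_cov {O : ValuationSubring ℝ} (h2 : (2 : ℝ)⁻¹ ∉ O) {H L : AddSubgroup ℝ} {c d : ℝ}
    (hc : ∀ t, c * t ∈ O → t ∈ H) (h : ∀ b : ℝ, b ∉ H → b⁻¹ ∈ L) (hd : d ∉ H)
    (hcd : c * d = mu) {u : ℝ} (hu : u ∈ O) : 2 ^ 16 * c * u ∈ L := by
  obtain ⟨n0, n1⟩ := GSVQ_unit h2 hu
  have d0 : d ≠ 0 := fun e => hd (e ▸ H.zero_mem)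
  have ec : c = (256 * d)⁻¹ := by
    rw [mu] at hcd
    field_simp
    linarith
  have t1 : 256 * d * u * (1 - 256 * u)⁻¹ ∈ H := hc _ (by
    have e : c * (256 * d * u * (1 - 256 * u)⁻¹) = u * (1 - 256 * u)⁻¹ := by
      rw [ec]
      field_simp
    rw [e]
    exact O.mul_mem _ _ hu n1)
  have t2 : d + 256 * d * u * (1 - 256 * u)⁻¹ ∉ H := fun k => hd (by simpa using H.sub_mem k t1)
  have t3 := L.sub_mem (h _ hd) (h _ t2)
  have e1 : d + 256 * d * u * (1 - 256 * u)⁻¹ = d * (1 - 256 * u)⁻¹ := by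
    field_simp
    ring
  have e2 : d⁻¹ - (d * (1 - 256 * u)⁻¹)⁻¹ = 2 ^ 16 * c * u := by
    rw [ec]
    field_simp
    ring
  rwa [e1, e2] at t3

theorem GSVQ_half {H L : AddSubgroup ℝ} (s : ∀ a ∈ H, 2 * a ∈ L → a ∈ L) {a : ℝ} (ha : a ∈ H)
    (n : ℕ) (h : 2 ^ n * a ∈ L) : a ∈ L := by
  induction n with
  | zero => simpa using h
  | succ n ih =>
    refine ih (s _ ?_ ?_)
    · have k := H.nsmul_mem ha (2 ^ n)
      simpa using k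
    · rwa [pow_succ', mul_assoc] at h

theorem GSVQ_out {O : ValuationSubring ℝ} {H L L' : AddSubgroup ℝ} {c d a u u' : ℝ}
    (s : ∀ a ∈ H, 2 * a ∈ L → a ∈ L) (hcd : c * d = mu)
    (k1 : ∀ w ∈ O, 2 ^ 16 * c * w ∈ L) (k2 : ∀ w ∈ O, 2 ^ 16 * d * w ∈ L') (a0 : a ≠ 0)
    (hu : u ∈ O) (hu' : u' ∈ O) (n1 : u * a ∉ L) (n2 : u' * a⁻¹ ∉ L') : u * a ∉ H := by
  have c0 : c ≠ 0 := by
    rintro rfl
    norm_num [mu] at hcd
  have ed : d = (256 * c)⁻¹ := by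
    rw [mu] at hcd
    field_simp
    linarith
  intro m
  rcases O.mem_or_inv_mem (256 * a / c) with p | p
  · refine n1 (GSVQ_half s m 24 ?_)
    have e : 2 ^ 24 * (u * a) = 2 ^ 16 * c * (u * (256 * a / c)) := by
      field_simp
      ring
    rw [e]
    exact k1 _ (O.mul_mem _ _ hu p)
  · refine n2 ?_
    have e : u' * a⁻¹ = 2 ^ 16 * d * (u' * (256 * a / c)⁻¹) := by
      rw [ed]
      field_simp
      ring
    rw [e]
    exact k2 _ (O.mul_mem _ _ hu' p)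

theorem lemVQ (H₁ H₂ L₁ L₂ : AddSubgroup ℝ) (l1 : L₁ ≤ H₁) (l2 : L₂ ≤ H₂)
    (h1 : ∀ a : ℝ, a ∉ H₁ → a⁻¹ ∈ L₂) (h2 : ∀ b : ℝ, b ∉ H₂ → b⁻¹ ∈ L₁)
    (s1 : ∀ a ∈ H₁, 2 * a ∈ L₁ → a ∈ L₁) (s2 : ∀ a ∈ H₂, 2 * a ∈ L₂ → a ∈ L₂)
    {c d : ℝ} (hc : c ∉ H₁) (hd : d ∉ H₂) (hcd : c * d = mu) :
    ∃ O : ValuationSubring ℝ, (2 : ℝ)⁻¹ ∉ O ∧
      ∀ a : ℝ, a ≠ 0 → (∀ u ∈ O, u * a ∈ L₁) ∨ ∀ u ∈ O, u * a⁻¹ ∈ L₂ := by
  obtain ⟨O, hO⟩ := lemV H₁ H₂ fun a ha => l2 (h1 a ha)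
  have t : (2 : ℝ)⁻¹ ∉ O := fun k => hO c d hc hd (by
    have e : c * d = (2 : ℝ)⁻¹ ^ 8 := by
      rw [hcd, mu]
      norm_num
    rw [e]
    exact pow_mem k 8)
  have hdc : d * c = mu := by rwa [mul_comm]
  have k1 : ∀ w ∈ O, 2 ^ 16 * c * w ∈ L₁ := fun w hw =>
    GSVQ_cov t (fun x hx => by
      by_contra n
      exact hO c x hc n hx) h2 hd hcd hw
  have k2 : ∀ w ∈ O, 2 ^ 16 * d * w ∈ L₂ := fun w hw =>
    GSVQ_cov t (fun x hx => by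
      by_contra n
      exact hO x d n hd (by rwa [mul_comm])) h1 hc hdc hw
  refine ⟨O, t, fun a a0 => ?_⟩
  by_contra n
  push Not at n
  obtain ⟨⟨u, hu, n1⟩, u', hu', n2⟩ := n
  have p1 := GSVQ_out s1 hcd k1 k2 a0 hu hu' n1 n2
  have p2 := GSVQ_out s2 hdc k2 k1 (inv_ne_zero a0) hu' hu n2 (by rwa [inv_inv])
  refine hO _ _ p1 p2 ?_
  have e : u * a * (u' * a⁻¹) = u * u' := by field_simp
  rw [e]
  exact O.mul_mem _ _ hu hu'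

end Pool.Agent.P.MP_6d4b14_an.GS
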