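import Pool.Agent.P.MP_6d4b14_an.GSKill
import Pool.Agent.P.MP_6d4b14_an.GSVQ
import Pool.Agent.P.MP_6d4b14_an.GSLoc

set_option linter.unusedSectionVars false
set_option linter.unusedVariables false

namespace Pool.Agent.P.MP_6d4b14_an.GS

open scoped Classical

section chars

variable {Q : Type} [CommRing Q] [Algebra ℚ Q] [IsLocalRing Q] {Y : ℝ → Q}

def GSM_L (h0 : Y 0 = 1) (hY : ∀ u v, Y (u + v) = Y u * Y v) : AddSubgroup ℝ where
  carrier := {a | Y a = 1}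
  zero_mem' := h0
  add_mem' := fun {a b} ha hb => by
    change Y (a + b) = 1
    rw [hY, show Y a = 1 from ha, show Y b = 1 from hb, mul_one]
  neg_mem' := fun {a} ha => by
    have := hY a (-a)
    rw [add_neg_cancel, h0, show Y a = 1 from ha, one_mul] at this
    exact this.symm

def GSM_H (h0 : Y 0 = 1) (hY : ∀ u v, Y (u + v) = Y u * Y v) : AddSubgroup ℝ where
  carrier := {a | Y a - 1 ∈ IsLocalRing.maximalIdeal Q}
  zero_mem' := by
    change Y 0 - 1 ∈ IsLocalRing.maximalIdeal Q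
    rw [h0, sub_self]
    exact zero_mem _
  add_mem' := fun {a b} ha hb => by
    change Y (a + b) - 1 ∈ IsLocalRing.maximalIdeal Q
    have e : Y (a + b) - 1 = Y a * (Y b - 1) + (Y a - 1) := by rw [hY]; ring
    rw [e]
    exact add_mem (Ideal.mul_mem_left _ _ hb) ha
  neg_mem' := fun {a} ha => by
    change Y (-a) - 1 ∈ IsLocalRing.maximalIdeal Q
    have := hY a (-a)
    rw [add_neg_cancel, h0] at this
    have e : Y (-a) - 1 = -Y (-a) * (Y a - 1) := by linear_combination -this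
    rw [e]
    exact Ideal.mul_mem_left _ _ ha

theorem GSM_unit (h0 : Y 0 = 1) (hY : ∀ u v, Y (u + v) = Y u * Y v) {a : ℝ}
    (ha : a ∉ GSM_H h0 hY) : IsUnit (Y a - 1) := by
  by_contra k
  exact ha ((IsLocalRing.mem_maximalIdeal _).2 k)

theorem GSM_half (h0 : Y 0 = 1) (hY : ∀ u v, Y (u + v) = Y u * Y v) {a : ℝ}
    (ha : a ∈ GSM_H h0 hY) {q : Q} (h : q * (Y (2 * a) - 1) = 0) : q * (Y a - 1) = 0 := by
  have h2 : IsUnit (Y a + 1 + -(Y a - 1)) := by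
    have e : Y a + 1 + -(Y a - 1) = algebraMap ℚ Q 2 := by rw [map_ofNat]; ring
    rw [e]
    exact (IsUnit.mk0 (2 : ℚ) two_ne_zero).map _
  have h3 : IsUnit (Y a + 1) :=
    (IsLocalRing.isUnit_or_isUnit_of_isUnit_add h2).resolve_right fun k =>
      (IsLocalRing.mem_maximalIdeal _).1 ha ((IsUnit.neg_iff _).1 k)
  rw [← h3.mul_left_eq_zero, ← h, two_mul, hY]
  ring

theorem GSM_pow (h0 : Y 0 = 1) (hY : ∀ u v, Y (u + v) = Y u * Y v) {a : ℝ}
    (ha : a ∈ GSM_H h0 hY) {q : Q} (k : ℕ) (h : q * (Y (2 ^ k * a) - 1) = 0) :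
    q * (Y a - 1) = 0 := by
  induction k with
  | zero => simpa using h
  | succ k ih =>
    refine ih (GSM_half h0 hY ?_ (by rwa [← mul_assoc, ← pow_succ']))
    have := (GSM_H h0 hY).nsmul_mem ha (2 ^ k)
    simpa using this

theorem GSM_loc {X : ℝ → Q} (x0 : X 0 = 1) (hX : ∀ u v, X (u + v) = X u * X v) (h0 : Y 0 = 1)
    (hY : ∀ u v, Y (u + v) = Y u * Y v) (hr : ∀ c, c ≠ 0 → (X c - 1) * (Y c⁻¹ - 1) = 0) {b : W}
    (hb : b ∈ JM) (h : ∀ O : ValuationSubring ℝ, (2 : ℝ)⁻¹ ∉ O → b ∈ JJ O) :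
    ev (fun x y => (X x - 1) * (Y y - 1)) b = 0 := by
  rw [← Module.forall_dual_apply_eq_zero_iff ℚ]
  intro φ
  have e : φ ∘ₗ ev (fun x y => (X x - 1) * (Y y - 1)) =
      ev fun x y => φ ((X x - 1) * (Y y - 1)) := W_ext fun x y => by simp
  change (φ ∘ₗ ev (fun x y => (X x - 1) * (Y y - 1))) b = 0
  rw [e]
  by_cases hm : ∀ c d, c * d = mu → (X c - 1) * (Y d - 1) = 0
  · refine hb _ ⟨fun y => by simp [x0], fun x => by simp [h0], fun c d x y hcd => ?_⟩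
    rw [← map_sub, ← map_sub, ← map_add, ← map_zero φ, hX, hY]
    congr 1
    linear_combination X x * Y y * hm c d hcd
  push Not at hm
  obtain ⟨c, d, hcd, hne⟩ := hm
  have c0 : c ≠ 0 := fun k => hne (by rw [k, x0, sub_self, zero_mul])
  have d0 : d ≠ 0 := fun k => hne (by rw [k, h0, sub_self, mul_zero])
  have e1 : c⁻¹ = 2 ^ 8 * d := inv_eq_of_mul_eq_one_right (by
    unfold mu at hcd; linear_combination 256 * hcd)
  have e2 : (2 ^ 8 * c)⁻¹ = d := inv_eq_of_mul_eq_one_right (by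
    unfold mu at hcd; linear_combination 256 * hcd)
  have hd : d ∉ GSM_H h0 hY := fun k => hne (GSM_pow h0 hY k 8 (e1 ▸ hr c c0))
  have hc : c ∉ GSM_H x0 hX := fun k => hne (by
    have := hr (2 ^ 8 * c) (mul_ne_zero (by norm_num) c0)
    rw [e2, mul_comm] at this
    rw [mul_comm]
    exact GSM_pow x0 hX k 8 this)
  have le : ∀ {Z : ℝ → Q} (z0 : Z 0 = 1) (hZ : ∀ u v, Z (u + v) = Z u * Z v),
      GSM_L z0 hZ ≤ GSM_H z0 hZ := fun {Z} z0 hZ a ha => by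
    change Z a - 1 ∈ IsLocalRing.maximalIdeal Q
    rw [show Z a = (1 : Q) from ha, sub_self]
    exact zero_mem _
  have sat : ∀ {Z : ℝ → Q} (z0 : Z 0 = 1) (hZ : ∀ u v, Z (u + v) = Z u * Z v),
      ∀ a ∈ GSM_H z0 hZ, 2 * a ∈ GSM_L z0 hZ → a ∈ GSM_L z0 hZ := fun z0 hZ a ha h2 => by
    have := GSM_half z0 hZ ha (q := 1) (by rw [show _ = (1 : Q) from h2, sub_self, mul_zero])
    rwa [one_mul, sub_eq_zero] at this
  obtain ⟨O, h2, hO⟩ := lemVQ (GSM_H x0 hX) (GSM_H h0 hY) (GSM_L x0 hX) (GSM_L h0 hY)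
    (le x0 hX) (le h0 hY)
    (fun a ha => by
      have := hr a fun k => ha (k ▸ zero_mem _)
      rwa [(GSM_unit x0 hX ha).mul_right_eq_zero, sub_eq_zero] at this)
    (fun a ha => by
      have := hr a⁻¹ (inv_ne_zero fun k => ha (k ▸ zero_mem _))
      rwa [inv_inv, (GSM_unit h0 hY ha).mul_left_eq_zero, sub_eq_zero] at this)
    (sat x0 hX) (sat h0 hY) hc hd hcd
  refine h O h2 _ ⟨fun y => by simp [x0], fun x => by simp [h0], fun a ha => ?_⟩
  refine (hO a ha).imp (fun k u hu x y => ?_) fun k u hu x y => ?_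
  · simp only [hX, show X (u * a) = 1 from k u hu, mul_one]
  · simp only [hY, show Y (u * a⁻¹) = 1 from k u hu, mul_one]

end chars

theorem GSM_key {F : ℝ → ℝ} (hF : GE F) {b : W} (hb : b ∈ JM)
    (h : ∀ O : ValuationSubring ℝ, (2 : ℝ)⁻¹ ∉ O → b ∈ JJ O) : ev (LF F) b = 0 := by
  have k := loc {p : (ℝ × ℝ) × ℝ × ℝ | ∃ c : ℝ, c ≠ 0 ∧ p = ((c, 0), (0, c⁻¹))}
    (ev (fun x y => sd ((x, 0) : ℝ × ℝ) (0, y) 0) b) fun Q _ _ _ X x0 hX hr => by
      have e : Finsupp.linearCombination ℚ X ∘ₗ ev (fun x y => sd ((x, 0) : ℝ × ℝ) (0, y) 0) =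
          ev fun x y => (X (x, 0) - 1) * (X (0, y) - 1) := W_ext fun x y => by
        simp only [LinearMap.comp_apply, ev_pt, sd, map_add, map_sub,
          Finsupp.linearCombination_single, one_smul, hX, x0]
        ring
      refine (LinearMap.congr_fun e b).trans (GSM_loc (X := fun x => X (x, 0))
        (Y := fun y => X (0, y)) x0 (fun u v => ?_) x0 (fun u v => ?_)
        (fun c hc => hr _ ⟨c, hc, rfl⟩) hb h)
      · simp only [← hX, Prod.mk_add_mk, add_zero]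
      · simp only [← hX, Prod.mk_add_mk, add_zero]
  have e : ev (fun x y => F (x * y)) ∘ₗ ev (fun x y => sd ((x, 0) : ℝ × ℝ) (0, y) 0) =
      ev (LF F) := W_ext fun x y => by
    simp [ev, pt, sd, LF]
  rw [← e, LinearMap.comp_apply, ← LinearMap.mem_ker]
  refine Submodule.span_le.2 ?_ k
  rintro _ ⟨_, ⟨c, hc, rfl⟩, s, rfl⟩
  have := hF (s.1 / c + 1) (c * s.2 + 1)
  have e1 : (s.1 / c + 1) * (c * s.2 + 1) = (s.1 + c) * (s.2 + c⁻¹) := by field_simp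
  have e2 : (s.1 / c + 1 - 1) * (c * s.2 + 1) = s.1 * (s.2 + c⁻¹) := by field_simp; ring
  have e3 : (s.1 / c + 1) * (c * s.2 + 1 - 1) = (s.1 + c) * s.2 := by field_simp; ring
  have e4 : (s.1 / c + 1 - 1) * (c * s.2 + 1 - 1) = s.1 * s.2 := by field_simp; ring
  rw [e1, e2, e3, e4] at this
  simp only [SetLike.mem_coe, LinearMap.mem_ker, ev, sd, map_add, map_sub,
    Finsupp.linearCombination_single, one_smul, Prod.fst_add, Prod.snd_add, add_zero]
  linarith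

theorem GSM_NN {M : Submodule ℚ W} (h : ∀ γ, γ ≠ 0 → ∀ b ∈ M, tau γ b ∈ M) {γ : ℝ} (h0 : γ ≠ 0)
    {b : W} (hb : b ∈ M) : NN γ b ∈ M := by
  rw [NN, LinearMap.sum_apply]
  exact sum_mem fun i _ => h _ (pow_ne_zero _ h0) b hb

theorem GSM_tauJJ (O : ValuationSubring ℝ) : ∀ γ, γ ≠ 0 → ∀ b ∈ JJ O, tau γ b ∈ JJ O :=
  fun γ h0 b hb h H => by rw [ev_tau]; exact hb _ (H.tau h0)

theorem GSM_tauJM : ∀ γ, γ ≠ 0 → ∀ b ∈ JM, tau γ b ∈ JM := fun γ h0 b hb h H => by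
  rw [ev_tau]
  refine hb _ ⟨fun y => by simp [H.zx], fun x => by simp [H.zy], fun c d x y hcd => ?_⟩
  simp only [mul_add, add_div]
  exact H.mix _ _ _ _ (by rw [← hcd]; field_simp)

theorem GSM_comm (γ δ : ℝ) (b : W) : NN γ (NN δ b) = NN δ (NN γ b) := by
  have t : ∀ α β : ℝ, ∀ b, tau α (tau β b) = tau β (tau α b) := fun α β b => by
    have e : tau α ∘ₗ tau β = tau β ∘ₗ tau α := W_ext fun x y => by
      simp only [LinearMap.comp_apply, tau, ev_pt]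
      rw [mul_left_comm, div_right_comm]
    exact LinearMap.congr_fun e b
  simp only [NN, LinearMap.sum_apply, map_sum]
  rw [Finset.sum_comm]
  exact Finset.sum_congr rfl fun i _ => Finset.sum_congr rfl fun j _ => t _ _ _

noncomputable def GSM_P : List ℝ → W →ₗ[ℚ] W
  | [] => LinearMap.id
  | γ :: l => NN γ ∘ₗ GSM_P l

theorem GSM_cons (γ : ℝ) (l : List ℝ) (b : W) : GSM_P (γ :: l) b = NN γ (GSM_P l b) := by
  rw [GSM_P, LinearMap.comp_apply]

theorem GSM_nil (b : W) : GSM_P [] b = b := by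
  rw [GSM_P, LinearMap.id_apply]

theorem GSM_Pmem {M : Submodule ℚ W} (h : ∀ γ, γ ≠ 0 → ∀ b ∈ M, tau γ b ∈ M) {l : List ℝ}
    (hl : ∀ γ ∈ l, γ ≠ 0) {b : W} (hb : b ∈ M) : GSM_P l b ∈ M := by
  induction l with
  | nil => rwa [GSM_nil]
  | cons γ l ih =>
    rw [GSM_cons]
    exact GSM_NN h (hl γ (by simp)) (ih fun δ hδ => hl δ (by simp [hδ]))

theorem GSM_Pcomm (l : List ℝ) (γ : ℝ) (b : W) : GSM_P l (NN γ b) = NN γ (GSM_P l b) := by
  induction l with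
  | nil => rw [GSM_nil, GSM_nil]
  | cons δ l ih => rw [GSM_cons, GSM_cons, ih, GSM_comm γ δ]

theorem GSM_PNN {O : ValuationSubring ℝ} {l : List ℝ} (hl : ∀ γ ∈ l, γ ≠ 0) {γ : ℝ} (hγ : γ ∈ l)
    {b : W} (hb : NN γ b ∈ JJ O) : GSM_P l b ∈ JJ O := by
  induction l with
  | nil => simp at hγ
  | cons δ l ih =>
    have hl' : ∀ γ ∈ l, γ ≠ 0 := fun δ hδ => hl δ (by simp [hδ])
    rw [GSM_cons]
    rcases List.mem_cons.1 hγ with rfl | k
    · rw [← GSM_Pcomm]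
      exact GSM_Pmem (GSM_tauJJ O) hl' hb
    · exact GSM_NN (GSM_tauJJ O) (hl δ (by simp)) (ih hl' k)

theorem GSM_PL (F : ℝ → ℝ) {l : List ℝ} (hl : ∀ γ ∈ l, γ ≠ 0) {b : W}
    (h : ev (LF F) (GSM_P l b) = 0) : ev (LF F) b = 0 := by
  induction l with
  | nil => rwa [GSM_nil] at h
  | cons δ l ih =>
    refine ih (fun γ hγ => hl γ (by simp [hγ])) ?_
    rw [GSM_cons, ev_NN] at h
    have e : ∀ i : ℕ, (fun x y => LF F (δ ^ i * x) (y / δ ^ i)) = LF F := fun i => by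
      funext x y
      have := pow_ne_zero i (hl δ (by simp))
      have e1 : δ ^ i * x * (y / δ ^ i) = x * y := by field_simp
      simp only [LF, e1]
    simp only [e, Finset.sum_const, Finset.card_range, smul_eq_zero] at h
    exact h.resolve_left (by norm_num)

theorem lemM {F : ℝ → ℝ} (hF : GE F) {b : W} (hb : b ∈ JM) {Γ : Set ℝ} (hΓ : Γ.Finite)
    (h : ∀ O : ValuationSubring ℝ, (2 : ℝ)⁻¹ ∉ O → b ∈ KK O Γ) : ev (LF F) b = 0 := by
  let l := (hΓ.toFinset.erase 0).toList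
  have hl : ∀ γ, γ ∈ l ↔ γ ≠ 0 ∧ γ ∈ Γ := fun γ => by simp [l]
  have hl0 : ∀ γ ∈ l, γ ≠ 0 := fun γ k => ((hl γ).1 k).1
  refine GSM_PL F hl0 (GSM_key hF (GSM_Pmem GSM_tauJM hl0 hb) fun O h2 => ?_)
  rw [← Submodule.mem_comap]
  refine Submodule.span_le.2 ?_ (h O h2)
  rintro a (k | ⟨γ, k1, k2, k3⟩)
  · exact GSM_Pmem (GSM_tauJJ O) hl0 k
  · exact GSM_PNN hl0 ((hl γ).2 ⟨k2, k1⟩) k3

end Pool.Agent.P.MP_6d4b14_an.GS
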