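import Pool.Agent.P.MP_6d4b14_an.GSHahn

/-! The biadditive forms attached to Hahn coefficient maps. -/

set_option linter.unusedSectionVars false
set_option linter.unusedVariables false

namespace Pool.Agent.P.MP_6d4b14_an.GS

open scoped Classical

variable {Γ : Type} [LinearOrderedCommGroupWithZero Γ] {v : Valuation ℝ Γ}
  {p : Γ → ℝ →+ ℝ} {s : ℝ →+ ℝ}

theorem GSSix_fin {T : Set Γ} (h1 : T.WellFoundedOn (· > ·)) (h2 : T.WellFoundedOn (· < ·)) :
    T.Finite := by
  by_contra hn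
  have hi : T.Infinite := hn
  let a := hi.natEmbedding T
  obtain ⟨g, hg | hg⟩ :=
    exists_increasing_or_nonincreasing_subseq (· < ·) fun n => ((a n : T) : Γ)
  · refine Set.wellFoundedOn_iff_no_descending_seq.1 h1
      (RelEmbedding.ofMonotone (fun n => ((a (g n) : T) : Γ)) fun m n k => hg n m k) fun n => ?_
    exact (a (g n)).2
  · refine Set.wellFoundedOn_iff_no_descending_seq.1 h2
      (RelEmbedding.ofMonotone (fun n => ((a (g n) : T) : Γ)) fun m n k => ?_) fun n => (a (g n)).2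
    refine lt_of_le_of_ne (not_lt.1 (hg n m k)) fun e => ?_
    exact (ne_of_gt k) (g.injective (a.injective (Subtype.ext e)))

theorem GSSix_ne (hp : ∀ x, GSHahn_G v x fun α => p α x) {α : Γ} {x : ℝ} (h : p α x ≠ 0) :
    α ≠ 0 ∧ α ≤ v x := by
  refine ⟨fun e => h ?_, not_lt.1 fun k => h ((hp x).z α k)⟩
  have := (hp x).bd α
  rw [e, le_zero_iff, _root_.map_eq_zero] at this
  rw [e]
  exact this

/-- one term of the sum -/
noncomputable def GSSix_t (v : Valuation ℝ Γ) (p : Γ → ℝ →+ ℝ) (s : ℝ →+ ℝ) (ρ : Γ → ℝ)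
    (z a b : ℝ) (α : Γ) : ℝ :=
  (ρ α * ρ (v z / α) - ρ (v z)) * s (p α a * p (v z / α) b / z)

theorem GSSix_supp' (hp : ∀ x, GSHahn_G v x fun α => p α x) (γ : Γ) (a b : ℝ) :
    {α | p α a ≠ 0 ∧ p (γ / α) b ≠ 0}.Finite := by
  refine GSSix_fin ((hp a).wf.subset fun α k => k.1) ?_
  rw [Set.wellFoundedOn_iff_no_descending_seq]
  intro f hf
  refine Set.wellFoundedOn_iff_no_descending_seq.1 (hp b).wf
    (RelEmbedding.ofMonotone (fun n => γ / f n) fun m n k => ?_) fun n => (hf n).2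
  have h1 : f m < f n := f.map_rel_iff.2 k
  have z0 : γ ≠ 0 := fun e => (GSSix_ne hp (hf m).2).1 (by rw [e, zero_div])
  exact div_lt_div_of_pos_left (zero_lt_iff.2 z0) (zero_lt_iff.2 (GSSix_ne hp (hf m).1).1) h1

theorem GSSix_supp (hp : ∀ x, GSHahn_G v x fun α => p α x) (ρ : Γ → ℝ) (z a b : ℝ) :
    (Function.support (GSSix_t v p s ρ z a b)).Finite := by
  refine (GSSix_supp' hp (v z) a b).subset fun α k => ?_
  refine ⟨fun e => k ?_, fun e => k ?_⟩ <;> simp [GSSix_t, e]

/-- the biadditive form -/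
noncomputable def GSSix_B (hp : ∀ x, GSHahn_G v x fun α => p α x) (s : ℝ →+ ℝ) (ρ : Γ → ℝ)
    (z : ℝ) : ℝ →+ ℝ →+ ℝ :=
  AddMonoidHom.mk' (fun a => AddMonoidHom.mk' (fun b => ∑ᶠ α, GSSix_t v p s ρ z a b α)
    fun b b' => by
      rw [← finsum_add_distrib (GSSix_supp hp ρ z a b) (GSSix_supp hp ρ z a b')]
      refine finsum_congr fun α => ?_
      simp only [GSSix_t, map_add, mul_add, add_div])
    fun a a' => by
      ext b
      simp only [AddMonoidHom.mk'_apply, AddMonoidHom.add_apply]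
      rw [← finsum_add_distrib (GSSix_supp hp ρ z a b) (GSSix_supp hp ρ z a' b)]
      refine finsum_congr fun α => ?_
      simp only [GSSix_t, map_add, add_mul, mul_add, add_div]

theorem GSSix_B_apply (hp : ∀ x, GSHahn_G v x fun α => p α x) (ρ : Γ → ℝ) (z a b : ℝ) :
    GSSix_B hp s ρ z a b = ∑ᶠ α, GSSix_t v p s ρ z a b α := rfl

theorem GSSix_odd (hp : ∀ x, GSHahn_G v x fun α => p α x) (ρ : Γ → ℝ) (z : ℝ) :
    GSSix_B hp s ρ (-z) = -GSSix_B hp s ρ z := by
  ext a b
  simp only [AddMonoidHom.neg_apply, GSSix_B_apply]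
  rw [← finsum_neg_distrib]
  refine finsum_congr fun α => ?_
  simp only [GSSix_t, Valuation.map_neg, div_neg, map_neg, mul_neg]

theorem GSSix_s (hs : ∀ x, v x < 1 → s x = 0) {a b z : ℝ} (h : v (a - b) < v z) :
    s (a / z) = s (b / z) := by
  have z0 : 0 < v z := lt_of_le_of_lt zero_le h
  rw [← sub_eq_zero, ← map_sub, ← sub_div]
  exact hs _ (by rw [map_div₀, div_lt_one₀ z0]; exact h)

theorem GSSix_prod (hp : ∀ x, GSHahn_G v x fun α => p α x) (γ α : Γ) (a b : ℝ) :
    v (p α a * p (γ / α) b) ≤ γ := by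
  rw [map_mul]
  refine (mul_le_mul' ((hp a).bd α) ((hp b).bd (γ / α))).trans ?_
  by_cases e : α = 0
  · rw [e, zero_mul]
    exact zero_le
  · rw [mul_div_cancel₀ _ e]

theorem GSSix_cls (hp : ∀ x, GSHahn_G v x fun α => p α x) (hs : ∀ x, v x < 1 → s x = 0)
    (ρ : Γ → ℝ) (z w : ℝ) (h : v (z - w) < v z) : GSSix_B hp s ρ w = GSSix_B hp s ρ z := by
  have z0 : 0 < v z := lt_of_le_of_lt zero_le h
  have e : v w = v z := v.map_eq_of_sub_lt (by rw [Valuation.map_sub_swap]; exact h)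
  have hz : z ≠ 0 := fun k => by
    rw [k, map_zero] at z0
    exact lt_irrefl _ z0
  have hw : w ≠ 0 := fun k => by
    rw [← e, k, map_zero] at z0
    exact lt_irrefl _ z0
  ext a b
  simp only [GSSix_B_apply]
  refine finsum_congr fun α => ?_
  simp only [GSSix_t, e]
  congr 1
  have k := GSSix_prod hp (v z) α a b
  generalize p α a * p (v z / α) b = t at k
  have e2 : t / w = t * (z / w) / z := by field_simp
  rw [e2]
  refine GSSix_s hs ?_
  have e3 : t * (z / w) - t = t / w * (z - w) := by field_simp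
  rw [e3, map_mul]
  refine lt_of_le_of_lt (mul_le_of_le_one_left' ?_) h
  rw [map_div₀, e, div_le_one₀ z0]
  exact k

theorem GSSix_val (hp : ∀ x, GSHahn_G v x fun α => p α x) (hs : ∀ x, v x < 1 → s x = 0)
    (ρ : Γ → ℝ) (z a b : ℝ) (h : v (a * b) ≤ v z) :
    GSSix_B hp s ρ z a b = (ρ (v a) * ρ (v b) - ρ (v (a * b))) * s (a * b / z) := by
  rw [GSSix_B_apply]
  have key : ∀ α, GSSix_t v p s ρ z a b α ≠ 0 → α = v a ∧ v z = v (a * b) := by
    intro α k
    have k1 : p α a ≠ 0 := fun e => k (by simp [GSSix_t, e])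
    have k2 : p (v z / α) b ≠ 0 := fun e => k (by simp [GSSix_t, e])
    obtain ⟨a0, a1⟩ := GSSix_ne hp k1
    obtain ⟨b0, b1⟩ := GSSix_ne hp k2
    have e : v z = α * (v z / α) := (mul_div_cancel₀ _ a0).symm
    have l : v z ≤ v (a * b) := by
      rw [map_mul, e]
      exact mul_le_mul' a1 b1
    refine ⟨le_antisymm a1 (not_lt.1 fun c => ?_), le_antisymm l h⟩
    have : v z < v (a * b) := by
      rw [map_mul, e]
      exact mul_lt_mul_of_lt_of_le_of_nonneg_of_pos c b1 zero_le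
        (lt_of_lt_of_le (zero_lt_iff.2 b0) b1)
    exact this.not_ge h
  rcases h.lt_or_eq with c | c
  · have e : s (a * b / z) = 0 := by
      rw [GSSix_s hs (b := 0) (by rwa [sub_zero]), zero_div, map_zero]
    rw [e, mul_zero]
    refine finsum_eq_zero_of_forall_eq_zero fun α => ?_
    by_contra k
    exact c.ne' (key α k).2
  · rw [finsum_eq_single _ (v a) fun α k => by_contra fun k' => k (key α k').1]
    by_cases z0 : z = 0
    · simp [GSSix_t, z0]
    have v0 : 0 < v z := GSHahn_pos z0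
    have ab : a * b ≠ 0 := fun e => by
      rw [← c, e, map_zero] at v0
      exact lt_irrefl _ v0
    have a0 : a ≠ 0 := left_ne_zero_of_mul ab
    have b0 : b ≠ 0 := right_ne_zero_of_mul ab
    have va : 0 < v a := GSHahn_pos a0
    have vb : 0 < v b := GSHahn_pos b0
    have e : v z / v a = v b := by
      rw [← c, map_mul, mul_div_cancel_left₀ _ va.ne']
    simp only [GSSix_t, e]
    rw [c]
    congr 1
    refine GSSix_s hs ?_
    have e2 : p (v a) a * p (v b) b - a * b =
        -((a - p (v a) a) * p (v b) b + a * (b - p (v b) b)) := by ring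
    rw [e2, Valuation.map_neg, ← c, map_mul v a b]
    refine v.map_add_lt ?_ ?_
    · rw [map_mul]
      exact mul_lt_mul_of_lt_of_le_of_nonneg_of_pos ((hp a).ld a0) ((hp b).bd _) zero_le vb
    · rw [map_mul]
      exact mul_lt_mul_of_pos_left ((hp b).ld b0) va

end Pool.Agent.P.MP_6d4b14_an.GS
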