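import Pool.Agent.P.MP_6d4b14_an.GSDefs
import Pool.Agent.P.MP_6d4b14_an.CLMain
import Pool.Agent.P.MP_6d4b14_an.GSSix

set_option linter.unusedSectionVars false
set_option linter.unusedVariables false

namespace Pool.Agent.P.MP_6d4b14_an.GS

open scoped Classical

theorem GSPart_he_congr {g g' : ℝ → ℝ} (h : TR.HE g') (e : ∀ x ∈ Set.Icc (0 : ℝ) 1, g x = g' x) :
    TR.HE g := by
  intro x y x0 x1 y0 y1
  have x2 : 0 ≤ 1 - x := by linarith
  have y2 : 0 ≤ 1 - y := by linarith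
  have m : ∀ a b : ℝ, 0 ≤ a → a ≤ 1 → 0 ≤ b → b ≤ 1 → a * b ∈ Set.Icc (0 : ℝ) 1 :=
    fun a b a0 a1 b0 b1 => ⟨mul_nonneg a0 b0, mul_le_one₀ a1 b0 b1⟩
  have b := h x y x0 x1 y0 y1
  simp only [TR.sg] at b ⊢
  rw [e _ (m x y x0 x1 y0 y1), e _ (m x (1 - y) x0 x1 y2 (by linarith)),
    e _ (m (1 - x) y x2 (by linarith) y0 y1),
    e _ (m (1 - x) (1 - y) x2 (by linarith) y2 (by linarith)), e x ⟨x0, x1⟩, e y ⟨y0, y1⟩,
    e (1 - x) ⟨x2, by linarith⟩, e (1 - y) ⟨y2, by linarith⟩]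
  exact b

/-- the data of the sixth family -/
structure GSPart_D (O : ValuationSubring ℝ) (ρ : O.ValueGroup → ℝ) (s : ℝ →+ ℝ)
    (B : ℝ → ℝ →+ ℝ →+ ℝ) : Prop where
  rho : ∀ x ∈ O, ρ (O.valuation x) = 1
  one : s 1 = 1
  sm : ∀ x, O.valuation x < 1 → s x = 0
  odd : ∀ z, B (-z) = -B z
  cls : ∀ z w, O.valuation (z - w) < O.valuation z → B w = B z
  val : ∀ z a b, O.valuation (a * b) ≤ O.valuation z → B z a b =
    (ρ (O.valuation a) * ρ (O.valuation b) - ρ (O.valuation (a * b))) * s (a * b / z)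

noncomputable def GSPart_o (O : ValuationSubring ℝ) (ρ : O.ValueGroup → ℝ) (s : ℝ →+ ℝ)
    (B : ℝ → ℝ →+ ℝ →+ ℝ) (x : ℝ) : ℝ := ρ (O.valuation x) * s x + B x x x / 2

section six

variable {O : ValuationSubring ℝ} {ρ : O.ValueGroup → ℝ} {s : ℝ →+ ℝ} {B : ℝ → ℝ →+ ℝ →+ ℝ}

theorem GSPart_odd (h : GSPart_D O ρ s B) (z : ℝ) :
    GSPart_o O ρ s B (-z) = -GSPart_o O ρ s B z := by
  simp only [GSPart_o, Valuation.map_neg, h.odd, map_neg, AddMonoidHom.neg_apply]
  ring

theorem GSPart_o1 (h : GSPart_D O ρ s B) (z c : ℝ) (hc : c ∈ O) :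
    GSPart_o O ρ s B z - GSPart_o O ρ s B (z - c) = ρ (O.valuation z) * s c := by
  have hin : ∀ w ∈ O, B w w w = 0 := by
    intro w hw
    rw [h.val w w w (by
      rw [map_mul]
      exact mul_le_of_le_one_right' (CL.CLEx3_le O hw)), h.rho w hw,
      h.rho _ (O.mul_mem _ _ hw hw)]
    ring
  have hρ1 : ρ 1 = 1 := by
    have := h.rho 1 O.one_mem
    rwa [map_one] at this
  by_cases hz : z ∈ O
  · have hzc : z - c ∈ O := O.toSubring.sub_mem hz hc
    rw [GSPart_o, GSPart_o, hin z hz, hin _ hzc, h.rho z hz, h.rho _ hzc, map_sub]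
    ring
  · have hlt : O.valuation c < O.valuation z :=
      lt_of_le_of_lt (CL.CLEx3_le O hc) (CL.CLEx3_gt O hz)
    have hd : O.valuation (z - c - z) < O.valuation z := by
      have e : z - c - z = -c := by ring
      rw [e, Valuation.map_neg]
      exact hlt
    have hv : O.valuation (z - c) = O.valuation z := CL.CLEx3_eq O hd
    have h0 : 0 < O.valuation z := lt_trans zero_lt_one (CL.CLEx3_gt O hz)
    have hB : B (z - c) = B z := h.cls z (z - c) (by rw [sub_sub_cancel]; exact hlt)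
    have hle : O.valuation (z * c) ≤ O.valuation z := by
      rw [map_mul]
      exact mul_le_of_le_one_right' (CL.CLEx3_le O hc)
    have b0 : (ρ (O.valuation z) * ρ (O.valuation c) - ρ (O.valuation (z * c))) *
        s (z * c / z) = 0 := by
      rcases (CL.CLEx3_le O hc).eq_or_lt with k | k
      · simp only [map_mul, k, hρ1, mul_one, sub_self, zero_mul]
      · rw [h.sm _ (CL.CLEx3_div O (by
          rw [map_mul]
          exact mul_lt_of_lt_one_right h0 k)), mul_zero]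
    have b1 : B z z c = 0 := by rw [h.val z z c hle, b0]
    have b3 : B z c z = 0 := by
      rw [h.val z c z (by rw [mul_comm]; exact hle), mul_comm c z, mul_comm (ρ (O.valuation c)), b0]
    have b2 : B z c c = 0 := by
      have hcc : O.valuation (c * c) < O.valuation z :=
        lt_of_le_of_lt (CL.CLEx3_le O (O.mul_mem _ _ hc hc)) (CL.CLEx3_gt O hz)
      rw [h.val z c c hcc.le, h.sm _ (CL.CLEx3_div O hcc), mul_zero]
    simp only [GSPart_o, hv, hB, map_sub, AddMonoidHom.sub_apply, b1, b2, b3]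
    ring

theorem GSPart_o2 (h : GSPart_D O ρ s B) {x y : ℝ} (hx : x ∉ O) (hy : y ∉ O) :
    GSPart_o O ρ s B (x * y) - GSPart_o O ρ s B (x * y - x) - GSPart_o O ρ s B (x * y - y) +
        GSPart_o O ρ s B (x * y - x - y) =
      ρ (O.valuation x) * ρ (O.valuation y) - ρ (O.valuation (x * y)) := by
  have hxl : O.valuation x < O.valuation (x * y) := CL.CLEx3_lt_mul O hx hy
  have hyl : O.valuation y < O.valuation (x * y) := by
    rw [mul_comm]
    exact CL.CLEx3_lt_mul O hy hx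
  have hp0 : x * y ≠ 0 := by
    intro k
    rw [k, map_zero] at hxl
    exact not_lt_zero hxl
  have d2 : O.valuation (x * y - (x * y - x)) < O.valuation (x * y) := by
    rw [sub_sub_cancel]
    exact hxl
  have d3 : O.valuation (x * y - (x * y - y)) < O.valuation (x * y) := by
    rw [sub_sub_cancel]
    exact hyl
  have d4 : O.valuation (x * y - (x * y - x - y)) < O.valuation (x * y) := by
    have e : x * y - (x * y - x - y) = x + y := by ring
    rw [e]
    exact Valuation.map_add_lt _ hxl hyl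
  have v2 := CL.CLEx3_eq O (a := x * y - x) (by rw [Valuation.map_sub_swap]; exact d2)
  have v3 := CL.CLEx3_eq O (a := x * y - y) (by rw [Valuation.map_sub_swap]; exact d3)
  have v4 := CL.CLEx3_eq O (a := x * y - x - y) (by rw [Valuation.map_sub_swap]; exact d4)
  have b1 : B (x * y) x y =
      ρ (O.valuation x) * ρ (O.valuation y) - ρ (O.valuation (x * y)) := by
    rw [h.val _ x y le_rfl, div_self hp0, h.one, mul_one]
  have b2 : B (x * y) y x =
      ρ (O.valuation x) * ρ (O.valuation y) - ρ (O.valuation (x * y)) := by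
    rw [h.val _ y x (by rw [mul_comm]), mul_comm y x, div_self hp0, h.one, mul_one, mul_comm]
  rw [GSPart_o, GSPart_o, GSPart_o, GSPart_o, v2, v3, v4, h.cls _ _ d2, h.cls _ _ d3, h.cls _ _ d4]
  generalize x * y = z at *
  simp only [map_sub, AddMonoidHom.sub_apply]
  linear_combination b1 / 2 + b2 / 2

theorem GSPart_sg (h : GSPart_D O ρ s B) (t : ℝ) :
    GSPart_o O ρ s B t + GSPart_o O ρ s B (1 - t) = ρ (O.valuation t) := by
  have a := GSPart_o1 h t 1 O.one_mem
  have e : 1 - t = -(t - 1) := by ring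
  rw [e, GSPart_odd h, ← sub_eq_add_neg, a, h.one, mul_one]

theorem GSPart_six (h : GSPart_D O ρ s B) : TR.HE (GSPart_o O ρ s B) := by
  have g1 := GSPart_o1 h
  have godd := GSPart_odd h
  have h1 := h.one
  have hs := h.sm
  have hsg := GSPart_sg h
  have g2 := fun (x y : ℝ) (hx : x ∉ O) (hy : y ∉ O) => GSPart_o2 h hx hy
  generalize GSPart_o O ρ s B = g at g1 godd hsg g2
  have hin : ∀ x y, x ∈ O →
      g (x * y) + g (x * (1 - y)) + g ((1 - x) * y) + g ((1 - x) * (1 - y)) =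
        ρ (O.valuation x) * ρ (O.valuation y) := by
    intro x y hx
    have hx1 : x - 1 ∈ O := O.toSubring.sub_mem hx O.one_mem
    have a1 := g1 (x * y) x hx
    have a2 := g1 ((x - 1) * y) (x - 1) hx1
    have e1 : x * (1 - y) = -(x * y - x) := by ring
    have e2 : (1 - x) * y = -((x - 1) * y) := by ring
    have e3 : (1 - x) * (1 - y) = (x - 1) * y - (x - 1) := by ring
    rw [e1, e2, e3, godd, godd, h.rho x hx, one_mul]
    rw [map_mul] at a1 a2
    have hsx : s (x - 1) = s x - 1 := by rw [map_sub, h1]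
    rcases (CL.CLEx3_le O hx).eq_or_lt with hu | hu
    · rcases (CL.CLEx3_le O hx1).eq_or_lt with hu1 | hu1
      · rw [hu, one_mul] at a1
        rw [hu1, one_mul, hsx] at a2
        linear_combination a1 - a2
      · have z1 := hs _ hu1
        have z2 : s x = 1 := by linarith
        rw [hu, one_mul, z2] at a1
        rw [z1] at a2
        linear_combination a1 - a2
    · have z1 := hs _ hu
      have hu1 : O.valuation (x - 1) = 1 := by
        have e : x - 1 = -(1 - x) := by ring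
        rw [e, Valuation.map_neg]
        exact Valuation.map_one_sub_of_lt _ hu
      rw [z1] at a1
      rw [hu1, one_mul, hsx, z1] at a2
      linear_combination a1 - a2
  intro x y _ _ _ _
  rw [TR.sg, TR.sg, hsg, hsg]
  by_cases hx : x ∈ O
  · exact hin x y hx
  by_cases hy : y ∈ O
  · have a := hin y x hy
    rw [mul_comm y x, mul_comm y (1 - x), mul_comm (1 - y) x, mul_comm (1 - y) (1 - x)] at a
    linear_combination a
  have hxl : O.valuation x < O.valuation (x * y) := CL.CLEx3_lt_mul O hx hy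
  have hyl : O.valuation y < O.valuation (x * y) := by
    rw [mul_comm]
    exact CL.CLEx3_lt_mul O hy hx
  have c1 := g2 x y hx hy
  have c3 := g1 (x * y - x - y + 1) 1 O.one_mem
  have hv : O.valuation (x * y - x - y + 1) = O.valuation (x * y) := by
    apply CL.CLEx3_eq
    have e : x * y - x - y + 1 - x * y = 1 - x - y := by ring
    rw [e]
    refine Valuation.map_sub_lt _ (Valuation.map_sub_lt _ ?_ hxl) hyl
    rw [map_one]
    exact lt_trans (CL.CLEx3_gt O hx) hxl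
  have e1 : x * (1 - y) = -(x * y - x) := by ring
  have e2 : (1 - x) * y = -(x * y - y) := by ring
  have e3 : (1 - x) * (1 - y) = x * y - x - y + 1 := by ring
  have f5 : x * y - x - y + 1 - 1 = x * y - x - y := by ring
  rw [hv, h1, f5] at c3
  rw [e1, e2, e3, godd, godd]
  linear_combination c1 + c3

end six

theorem GSPart_two {g : ℝ → ℝ} {c : ℝ} (h0 : g 0 = 0) (h1 : g 1 = 1)
    (h : ∀ x ∈ Set.Ioo (0 : ℝ) 1, g x = (1 - c ^ 2) * x + (c ^ 2 + c) / 2) : TR.HE g := by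
  intro x y x0 x1 y0 y1
  simp only [TR.sg]
  rcases x0.eq_or_lt with rfl | x0
  · simp only [zero_mul, sub_zero, one_mul, h0, h1]
    ring
  rcases x1.eq_or_lt with rfl | x1
  · simp only [zero_mul, sub_self, one_mul, h0, h1]
    ring
  rcases y0.eq_or_lt with rfl | y0
  · simp only [mul_zero, sub_zero, mul_one, h0, h1]
    ring
  rcases y1.eq_or_lt with rfl | y1
  · simp only [mul_zero, sub_self, mul_one, h0, h1]
    ring
  have x2 : 0 < 1 - x := by linarith
  have y2 : 0 < 1 - y := by linarith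
  have m : ∀ a b : ℝ, 0 < a → a < 1 → 0 < b → b < 1 → a * b ∈ Set.Ioo (0 : ℝ) 1 :=
    fun a b a0 a1 b0 b1 => ⟨mul_pos a0 b0, mul_lt_one_of_nonneg_of_lt_one_left a0.le a1 b1.le⟩
  rw [h _ (m x y x0 x1 y0 y1), h _ (m x (1 - y) x0 x1 y2 (by linarith)),
    h _ (m (1 - x) y x2 (by linarith) y0 y1),
    h _ (m (1 - x) (1 - y) x2 (by linarith) y2 (by linarith)), h x ⟨x0, x1⟩, h y ⟨y0, y1⟩,
    h (1 - x) ⟨x2, by linarith⟩, h (1 - y) ⟨y2, by linarith⟩]
  ring

theorem GSPart_hahn {O : ValuationSubring ℝ} {p : O.ValueGroup → ℝ →+ ℝ} :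
    Hahn O p ↔ ∀ x, GSHahn_G O.valuation x fun α => p α x :=
  ⟨fun h x => ⟨(h x).1, (h x).2.1, (h x).2.2.1, (h x).2.2.2⟩,
    fun h x => ⟨(h x).bd, (h x).z, (h x).ld, (h x).wf⟩⟩

theorem GSPart_data {O : ValuationSubring ℝ} {ρ : O.ValueGroup → ℝ} {s : ℝ →+ ℝ}
    {p : O.ValueGroup → ℝ →+ ℝ} (k1 : ∀ x ∈ O, ρ (O.valuation x) = 1) (k2 : s 1 = 1)
    (k3 : ∀ x, O.valuation x < 1 → s x = 0) (hp : ∀ x, GSHahn_G O.valuation x fun α => p α x) :
    GSPart_D O ρ s (GSSix_B hp s ρ) :=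
  ⟨k1, k2, k3, GSSix_odd hp ρ, GSSix_cls hp k3 ρ, GSSix_val hp k3 ρ⟩

theorem Part.he {g : ℝ → ℝ} (h : Part g) : TR.HE g := by
  rcases h with ⟨c, h⟩ | ⟨c, h0, h1, h⟩ | h | ⟨c, h⟩ | ⟨c, h⟩ | ⟨O, ρ, s, p, k1, k2, k3, k4, h⟩
  · refine GSPart_he_congr (fun x y _ _ _ _ => ?_) h
    simp only [TR.sg]
    ring
  · exact GSPart_two h0 h1 h
  · intro x y a b c d
    rw [h x ⟨a, b⟩ y ⟨c, d⟩, h x ⟨a, b⟩ (1 - y) ⟨by linarith, by linarith⟩,
      h (1 - x) ⟨by linarith, by linarith⟩ y ⟨c, d⟩,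
      h (1 - x) ⟨by linarith, by linarith⟩ (1 - y) ⟨by linarith, by linarith⟩]
    simp only [TR.sg]
    ring
  · refine GSPart_he_congr (fun x y _ _ _ _ => ?_) h
    simp only [TR.sg]
    ring
  · refine GSPart_he_congr (fun x y _ _ _ _ => ?_) h
    simp only [TR.sg]
    ring
  · exact GSPart_he_congr (GSPart_six (GSPart_data k1 k2 k3 (GSPart_hahn.1 k4))) h

theorem GSPart_exists (O : ValuationSubring ℝ) (hq : ∀ q : ℚ, (q : ℝ) ∈ O) : ∃ p, Hahn O p := by
  obtain ⟨p, hp⟩ := GSHahn_exists (v := O.valuation) fun q q0 => by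
    have a := (O.valuation_le_one_iff _).2 (hq q)
    have b := (O.valuation_le_one_iff _).2 (hq q⁻¹)
    have c : O.valuation (q : ℝ) ≠ 0 := (_root_.map_ne_zero _).2 (Rat.cast_ne_zero.2 q0)
    rw [Rat.cast_inv, map_inv₀, inv_le_one₀ (zero_lt_iff.2 c)] at b
    exact le_antisymm a b
  exact ⟨p, GSPart_hahn.2 hp⟩

theorem exists_part {G : ℝ → ℝ} (h : CL.Lst G) :
    ∃ g, Part g ∧ ∀ x ∈ Set.Icc (0 : ℝ) 1, g x + g (1 - x) = G x := by
  rcases h with ⟨c, h⟩ | ⟨h0, h1, c, h⟩ | ⟨M, hM, h⟩ | ⟨t, h⟩ | ⟨μ, h⟩ | ⟨O, hq, ρ, hρ, h⟩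
  · refine ⟨_, Or.inl ⟨c, fun x _ => rfl⟩, fun x hx => ?_⟩
    rw [h x hx]
    ring
  · refine ⟨fun x => if x = 0 then 0 else if x = 1 then 1 else
      (1 - (c - 1) ^ 2) * x + ((c - 1) ^ 2 + (c - 1)) / 2,
      Or.inr (Or.inl ⟨c - 1, by simp, by simp, fun x hx => ?_⟩), fun x hx => ?_⟩
    · simp only [if_neg hx.1.ne', if_neg hx.2.ne]
    · rcases hx.1.eq_or_lt with rfl | x0
      · simp [h0]
      rcases hx.2.eq_or_lt with rfl | x1
      · simp [h1]
      have a : 1 - x ≠ 0 := by linarith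
      have b : 1 - x ≠ 1 := by linarith
      simp only [if_neg x0.ne', if_neg x1.ne, if_neg a, if_neg b]
      rw [h x ⟨x0, x1⟩]
      ring
  · exact ⟨M, Or.inr (Or.inr (Or.inl hM)), fun x hx => (h x hx).symm⟩
  · refine ⟨_, Or.inr (Or.inr (Or.inr (Or.inl ⟨t, fun x _ => rfl⟩))), fun x hx => ?_⟩
    rw [h x hx]
    ring
  · refine ⟨_, Or.inr (Or.inr (Or.inr (Or.inr (Or.inl ⟨μ, fun x _ => rfl⟩)))), fun x hx => ?_⟩
    rw [h x hx]
    ring
  · obtain ⟨s, h1, hs⟩ := CL.exists_s O hq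
    obtain ⟨p, hp⟩ := GSPart_exists O hq
    have k := GSPart_data (s := s.toAddMonoidHom) hρ h1 hs (GSPart_hahn.1 hp)
    refine ⟨GSPart_o O ρ s.toAddMonoidHom (GSSix_B (GSPart_hahn.1 hp) s.toAddMonoidHom ρ), Or.inr (Or.inr (Or.inr (Or.inr (Or.inr
      ⟨O, ρ, s.toAddMonoidHom, p, hρ, h1, hs, hp, fun x _ => rfl⟩)))), fun x hx => ?_⟩
    rw [h x hx, GSPart_sg k]

end Pool.Agent.P.MP_6d4b14_an.GS
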