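import Pool.Agent.P.MP_6d4b14_an.GSDefs

set_option linter.unusedSectionVars false
set_option linter.unusedVariables false

namespace Pool.Agent.P.MP_6d4b14_an.GS

open scoped Classical

theorem GSSufE_d2 {Φ : ℝ → ℝ} (h : D2 Φ) (a b t : ℝ) (hab : a * b = 1) :
    Φ (t + a + b) - Φ (t + a) - Φ (t + b) + Φ t = 0 := by
  have ha : a ≠ 0 := by
    rintro rfl
    simp at hab
  have hb : b = a⁻¹ := (inv_eq_of_mul_eq_one_right hab).symm
  rw [hb]
  exact h a t ha

theorem GSSufE_G {Φ : ℝ → ℝ} (h : D2 Φ) (x A B : ℝ) (hab : (2 * A) * (2 * B) = 1) :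
    Φ (x + (A + B)) + Φ (x - (A + B)) = Φ (x + (A - B)) + Φ (x - (A - B)) := by
  have h1 := GSSufE_d2 h (2 * A) (2 * B) (x - (A + B)) hab
  rw [show x - (A + B) + 2 * A + 2 * B = x + (A + B) by ring,
    show x - (A + B) + 2 * A = x + (A - B) by ring,
    show x - (A + B) + 2 * B = x - (A - B) by ring] at h1
  linarith

theorem GSSufE_step {Φ : ℝ → ℝ} (h : D2 Φ) (he : ∀ t, Φ (-t) = Φ t) (p q : ℝ)
    (hpq : p ^ 2 - q ^ 2 = 1) : Φ (2 * p) = Φ (2 * q) := by
  have hab : (p + q) * (p - q) = 1 := by linear_combination hpq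
  have h1 := GSSufE_d2 h (p + q) (p - q) 0 hab
  have h2 := GSSufE_d2 h (p + q) (p - q) (-(p - q)) hab
  rw [show (0 : ℝ) + (p + q) + (p - q) = 2 * p by ring, zero_add, zero_add] at h1
  rw [show -(p - q) + (p + q) + (p - q) = p + q by ring, show -(p - q) + (p + q) = 2 * q by ring,
    show -(p - q) + (p - q) = 0 by ring, he] at h2
  linarith

theorem GSSufE_four {Φ : ℝ → ℝ} (h : D2 Φ) (he : ∀ t, Φ (-t) = Φ t) (p q r s : ℝ)
    (hpq : p ^ 2 - q ^ 2 = 1) (hrs : r ^ 2 - s ^ 2 = 1) :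
    Φ (2 * (p * r)) - Φ (2 * (q * r)) - Φ (2 * (p * s)) + Φ (2 * (q * s)) = 0 := by
  have hA : (2 * ((p + q) * (r + s) / 2)) * (2 * ((p - q) * (r - s) / 2)) = 1 := by
    linear_combination (r ^ 2 - s ^ 2) * hpq + hrs
  have hB : (2 * ((p + q) * (r - s) / 2)) * (2 * ((p - q) * (r + s) / 2)) = 1 := by
    linear_combination (r ^ 2 - s ^ 2) * hpq + hrs
  have h1 := GSSufE_G h (p * r + q * s) _ _ hB
  have h2 := GSSufE_G h (q * r - p * s) _ _ hA
  rw [show p * r + q * s + ((p + q) * (r - s) / 2 + (p - q) * (r + s) / 2) = 2 * (p * r) by ring,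
    show p * r + q * s - ((p + q) * (r - s) / 2 + (p - q) * (r + s) / 2) = 2 * (q * s) by ring,
    show p * r + q * s + ((p + q) * (r - s) / 2 - (p - q) * (r + s) / 2) =
      p * r + q * s + (q * r - p * s) by ring,
    show p * r + q * s - ((p + q) * (r - s) / 2 - (p - q) * (r + s) / 2) =
      p * r + q * s - (q * r - p * s) by ring] at h1
  rw [show q * r - p * s + ((p + q) * (r + s) / 2 + (p - q) * (r - s) / 2) =
      p * r + q * s + (q * r - p * s) by ring,
    show q * r - p * s - ((p + q) * (r + s) / 2 + (p - q) * (r - s) / 2) =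
      -(p * r + q * s - (q * r - p * s)) by ring,
    show q * r - p * s + ((p + q) * (r + s) / 2 - (p - q) * (r - s) / 2) = 2 * (q * r) by ring,
    show q * r - p * s - ((p + q) * (r + s) / 2 - (p - q) * (r - s) / 2) = -(2 * (p * s)) by ring,
    he, he] at h2
  linarith

theorem GSSufE_scale {ψ : ℝ → ℝ} (hp : Function.Periodic ψ 1) (g x : ℝ)
    (h : ∀ z, x ≤ z → ψ z = ψ (g * z)) (z : ℝ) : ψ z = ψ (g * z) := by
  have hint : ∀ (v : ℝ) (m : ℤ), ψ (v + m) = ψ v := fun v m => by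
    have := (hp.int_mul m) v
    rwa [mul_one] at this
  have hg : Function.Periodic ψ g := by
    intro v
    have key : ∀ m : ℤ, g ≠ 0 → x ≤ (v + m) / g → ψ (v + g) = ψ v := by
      intro m hg0 hm
      have e1 := h _ hm
      have e2 := h ((v + m) / g + 1) (by linarith)
      rw [hp] at e2
      rw [mul_div_cancel₀ _ hg0, hint] at e1
      rw [mul_add, mul_div_cancel₀ _ hg0, mul_one, show v + m + g = v + g + m by ring,
        hint] at e2
      rw [← e2, e1]
    rcases lt_trichotomy g 0 with hg | hg | hg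
    · refine key ⌊x * g - v⌋ hg.ne ?_
      rw [le_div_iff_of_neg hg]
      have := Int.floor_le (x * g - v)
      linarith
    · rw [hg, add_zero]
    · refine key ⌈x * g - v⌉ hg.ne' ?_
      rw [le_div_iff₀ hg]
      have := Int.le_ceil (x * g - v)
      linarith
  have hz : x ≤ z + (⌈x - z⌉ : ℤ) := by
    have := Int.le_ceil (x - z)
    linarith
  have e1 := h _ hz
  rw [hint, mul_add, mul_comm g ((⌈x - z⌉ : ℤ) : ℝ), (hg.int_mul _) (g * z)] at e1
  exact e1

theorem GSSufE_ext {F : ℝ → ℝ} (hp : Function.Periodic F 1) {x : ℝ} (hx : 0 < x)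
    (h : ∀ y, 1 ≤ y →
      F (x * y) - F ((x - 1) * y) - F (x * (y - 1)) + F ((x - 1) * (y - 1)) = 0) (y : ℝ) :
    F (x * y) - F ((x - 1) * y) - F (x * (y - 1)) + F ((x - 1) * (y - 1)) = 0 := by
  have hψ : Function.Periodic (fun z => F z - F (z - x)) 1 := by
    intro z
    show F (z + 1) - F (z + 1 - x) = F z - F (z - x)
    rw [hp, show z + 1 - x = z - x + 1 by ring, hp]
  have conv1 : ∀ y, F (x * y) - F ((x - 1) * y) - F (x * (y - 1)) + F ((x - 1) * (y - 1)) =
      (F (x * y) - F (x * y - x)) -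
        (F ((x - 1) / x * (x * y)) - F ((x - 1) / x * (x * y) - x)) := by
    intro y
    have e : (x - 1) / x * (x * y) = (x - 1) * y := by field_simp
    rw [e, show x * (y - 1) = x * y - x by ring,
      show (x - 1) * (y - 1) = (x - 1) * y - x + 1 by ring, hp]
    ring
  have key := GSSufE_scale hψ ((x - 1) / x) x (fun z hz => by
    have h1 := h (z / x) (by rw [le_div_iff₀ hx]; linarith)
    rw [conv1, mul_div_cancel₀ _ hx.ne'] at h1
    show F z - F (z - x) = F ((x - 1) / x * z) - F ((x - 1) / x * z - x)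
    linarith) (x * y)
  rw [conv1]
  have key' : F (x * y) - F (x * y - x) =
      F ((x - 1) / x * (x * y)) - F ((x - 1) / x * (x * y) - x) := key
  linarith

theorem exists_GE_of_D2 {Φ : ℝ → ℝ} (h : D2 Φ) (he : ∀ t, Φ (-t) = Φ t) :
    ∃ F : ℝ → ℝ, GE F ∧ ∀ z, 0 ≤ z → F z = Φ (2 * √z) := by
  have hu : ∀ z : ℝ, 0 ≤ z → Φ (2 * √(z + 1)) = Φ (2 * √z) := fun z hz =>
    GSSufE_step h he _ _ (by rw [Real.sq_sqrt (by linarith), Real.sq_sqrt hz]; ring)
  have hun : ∀ (n : ℕ) (z : ℝ), 0 ≤ z → Φ (2 * √(z + n)) = Φ (2 * √z) := by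
    intro n z hz
    induction n with
    | zero => simp
    | succ n ih =>
      have hn : (0 : ℝ) ≤ n := Nat.cast_nonneg n
      rw [Nat.cast_succ, ← add_assoc, hu _ (by linarith), ih]
  have hF : ∀ z : ℝ, 0 ≤ z → Φ (2 * √(Int.fract z)) = Φ (2 * √z) := by
    intro z hz
    obtain ⟨n, hn⟩ := Int.eq_ofNat_of_zero_le (Int.floor_nonneg.2 hz)
    have e : Int.fract z + (n : ℝ) = z := by
      have := Int.fract_add_floor z
      rw [hn] at this
      simpa using this
    rw [← hun n _ (Int.fract_nonneg z), e]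
  have hp : Function.Periodic (fun z : ℝ => Φ (2 * √(Int.fract z))) 1 := by
    intro z
    show Φ (2 * √(Int.fract (z + 1))) = Φ (2 * √(Int.fract z))
    rw [Int.fract_add_one]
  refine ⟨fun z => Φ (2 * √(Int.fract z)), ?_, hF⟩
  generalize hFF : (fun z : ℝ => Φ (2 * √(Int.fract z))) = F at hp
  have hF' : ∀ z : ℝ, 0 ≤ z → F z = Φ (2 * √z) := by
    intro z hz
    rw [← hFF]
    exact hF z hz
  have s1 : ∀ x, 1 ≤ x → ∀ y, 1 ≤ y →
      F (x * y) - F ((x - 1) * y) - F (x * (y - 1)) + F ((x - 1) * (y - 1)) = 0 := by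
    intro x hx y hy
    have hx0 : 0 ≤ x := by linarith
    have hy0 : 0 ≤ y := by linarith
    have hx1 : 0 ≤ x - 1 := by linarith
    have hy1 : 0 ≤ y - 1 := by linarith
    rw [hF' _ (mul_nonneg hx0 hy0), hF' _ (mul_nonneg hx1 hy0), hF' _ (mul_nonneg hx0 hy1),
      hF' _ (mul_nonneg hx1 hy1), Real.sqrt_mul hx0, Real.sqrt_mul hx1, Real.sqrt_mul hx0,
      Real.sqrt_mul hx1]
    refine GSSufE_four h he _ _ _ _ ?_ ?_
    · rw [Real.sq_sqrt hx0, Real.sq_sqrt hx1]; ring
    · rw [Real.sq_sqrt hy0, Real.sq_sqrt hy1]; ring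
  have s2 : ∀ x, 0 < x → ∀ y,
      F (x * y) - F ((x - 1) * y) - F (x * (y - 1)) + F ((x - 1) * (y - 1)) = 0 := by
    intro x hx y
    refine GSSufE_ext hp hx (fun y hy => ?_) y
    have h1 := GSSufE_ext hp (show (0 : ℝ) < y by linarith) (s1 y hy) x
    rw [mul_comm y x, mul_comm (y - 1) x, mul_comm y (x - 1), mul_comm (y - 1) (x - 1)] at h1
    linarith
  intro x y
  rcases lt_or_ge 0 x with hx | hx
  · exact s2 x hx y
  · have h1 := s2 (1 - x) (by linarith) (1 - y)
    rw [show (1 - x) * (1 - y) = (x - 1) * (y - 1) by ring,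
      show (1 - x - 1) * (1 - y) = x * (y - 1) by ring,
      show (1 - x) * (1 - y - 1) = (x - 1) * y by ring,
      show (1 - x - 1) * (1 - y - 1) = x * y by ring] at h1
    linarith

end Pool.Agent.P.MP_6d4b14_an.GS
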