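import Pool.Agent.P.MP_6d4b14_an.GSSufA
import Pool.Agent.P.MP_6d4b14_an.GSSufE

set_option linter.unusedSectionVars false
set_option linter.unusedVariables false

namespace Pool.Agent.P.MP_6d4b14_an.GS

open scoped Classical

theorem GE.hh {F : ℝ → ℝ} (h : GE F) : HH fun z => F z - F (1 - z) := by
  have hp : ∀ x, F (1 - x) = F (-x) := by
    intro x
    have e := h x 0
    have e1 : x * (0 - 1) = -x := by ring
    have e2 : (x - 1) * (0 - 1) = 1 - x := by ring
    rw [mul_zero, mul_zero, e1, e2] at e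
    linarith
  refine ⟨fun x _ => ?_, fun x _ y _ => ?_⟩
  · show F x - F (1 - x) + (F (1 - x) - F (1 - (1 - x))) = 0
    rw [sub_sub_cancel]
    ring
  · show F (x * y) - F (1 - x * y) + (F (x * (1 - y)) - F (1 - x * (1 - y))) +
      (F ((1 - x) * y) - F (1 - (1 - x) * y)) +
      (F ((1 - x) * (1 - y)) - F (1 - (1 - x) * (1 - y))) = 0
    have a := h x y
    have b := h x (1 - y)
    have e1 : (x - 1) * y = -((1 - x) * y) := by ring
    have e2 : x * (y - 1) = -(x * (1 - y)) := by ring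
    have e3 : (x - 1) * (y - 1) = (1 - x) * (1 - y) := by ring
    have e4 : (x - 1) * (1 - y) = -((1 - x) * (1 - y)) := by ring
    have e5 : x * (1 - y - 1) = -(x * y) := by ring
    have e6 : (x - 1) * (1 - y - 1) = (1 - x) * y := by ring
    rw [e1, e2, e3] at a
    rw [e4, e5, e6] at b
    rw [hp, hp, hp, hp]
    linarith

theorem GSSufB_mem (O : ValuationSubring ℝ) {a : ℝ} (ha : a ≠ 0) (x : ℝ) :
    x ^ 2 / a ∈ O ↔ O.valuation x ^ 2 ≤ O.valuation a := by
  have h0 : 0 < O.valuation a := zero_lt_iff.2 ((Valuation.ne_zero_iff _).2 ha)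
  rw [← O.valuation_le_one_iff, map_div₀, map_pow, div_le_one₀ h0]

theorem GSSufB_add (O : ValuationSubring ℝ) {x y : ℝ} {c : O.ValueGroup}
    (hx : O.valuation x ^ 2 ≤ c) (hy : O.valuation y ^ 2 ≤ c) : O.valuation (x + y) ^ 2 ≤ c := by
  rcases le_max_iff.1 (O.valuation.map_add x y) with e | e
  · exact (pow_le_pow_left₀ zero_le e 2).trans hx
  · exact (pow_le_pow_left₀ zero_le e 2).trans hy

theorem GSSufB_eq (O : ValuationSubring ℝ) {a z : ℝ} (h1 : 1 < O.valuation a)
    (hz : O.valuation (z - a) ^ 2 ≤ O.valuation a) : O.valuation z = O.valuation a := by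
  have h0 : 0 < O.valuation a := zero_lt_one.trans h1
  have h2 : O.valuation (z - a) < O.valuation a := by
    by_contra hc
    have h3 := (pow_le_pow_left₀ zero_le (not_lt.1 hc) 2).trans hz
    have h4 : O.valuation a * 1 < O.valuation a * O.valuation a := mul_lt_mul_of_pos_left h1 h0
    rw [mul_one, ← pow_two] at h4
    exact absurd h3 (not_le.2 h4)
  have e : z = (z - a) + a := by ring
  rw [e]
  exact O.valuation.map_add_eq_of_lt_right h2

theorem GSSufB_shift (O : ValuationSubring ℝ) {a : ℝ} (ha : a ∉ O) {z h : ℝ}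
    (hh : h ∈ O ∨ (z ≠ 0 ∧ h ^ 2 / z ∈ O)) :
    Set.indicator {z | (z - a) ^ 2 / a ∈ O} (fun _ => (1 : ℝ)) (z + h) =
      Set.indicator {z | (z - a) ^ 2 / a ∈ O} (fun _ => (1 : ℝ)) z := by
  have ha0 : a ≠ 0 := fun e => ha (e ▸ O.zero_mem)
  have h1 : 1 < O.valuation a := not_le.1 fun e => ha ((O.valuation_le_one_iff a).1 e)
  have hO : h ∈ O → O.valuation h ^ 2 ≤ O.valuation a := fun e =>
    (pow_le_one₀ zero_le ((O.valuation_le_one_iff h).2 e)).trans h1.le
  have key : (z + h - a) ^ 2 / a ∈ O ↔ (z - a) ^ 2 / a ∈ O := by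
    rw [GSSufB_mem O ha0, GSSufB_mem O ha0]
    constructor
    · intro hz
      have h2 : O.valuation h ^ 2 ≤ O.valuation a := by
        rcases hh with e | ⟨z0, e⟩
        · exact hO e
        · rw [GSSufB_mem O z0] at e
          have h3 := GSSufB_eq O h1 hz
          by_cases h4 : O.valuation z ≤ O.valuation a
          · exact e.trans h4
          · exfalso
            have h5 : O.valuation (z + h) < O.valuation z := by
              rw [h3]
              exact not_le.1 h4
            have h6 : O.valuation h = O.valuation z := by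
              have e1 : h = (z + h) + -z := by ring
              rw [e1, O.valuation.map_add_eq_of_lt_right (by rwa [Valuation.map_neg]),
                Valuation.map_neg]
            have h7 : 1 < O.valuation z := h1.trans (not_le.1 h4)
            have h8 : O.valuation z * 1 < O.valuation z * O.valuation z :=
              mul_lt_mul_of_pos_left h7 (zero_lt_one.trans h7)
            rw [mul_one, ← pow_two] at h8
            rw [h6] at e
            exact absurd e (not_le.2 h8)
      have e2 : z - a = (z + h - a) + -h := by ring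
      rw [e2]
      exact GSSufB_add O hz (by rwa [Valuation.map_neg])
    · intro hz
      have h2 : O.valuation h ^ 2 ≤ O.valuation a := by
        rcases hh with e | ⟨z0, e⟩
        · exact hO e
        · rw [GSSufB_mem O z0, GSSufB_eq O h1 hz] at e
          exact e
      have e2 : z + h - a = (z - a) + h := by ring
      rw [e2]
      exact GSSufB_add O hz h2
  by_cases hz : (z - a) ^ 2 / a ∈ O
  · rw [Set.indicator_of_mem (show z + h ∈ {z | (z - a) ^ 2 / a ∈ O} from key.2 hz),
      Set.indicator_of_mem (show z ∈ {z | (z - a) ^ 2 / a ∈ O} from hz)]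
  · rw [Set.indicator_of_notMem
        (show z + h ∉ {z | (z - a) ^ 2 / a ∈ O} from fun e => hz (key.1 e)),
      Set.indicator_of_notMem (show z ∉ {z | (z - a) ^ 2 / a ∈ O} from hz)]

theorem GSSufB_half (O : ValuationSubring ℝ) {F : ℝ → ℝ}
    (hF : ∀ z h : ℝ, (h ∈ O ∨ (z ≠ 0 ∧ h ^ 2 / z ∈ O)) → F (z + h) = F z) {x y : ℝ}
    (h : x ∈ O ∨ (x ∉ O ∧ y ∉ O ∧ x / y ∈ O)) :
    F (x * (y - 1)) = F (x * y) ∧ F ((x - 1) * (y - 1)) = F ((x - 1) * y) := by
  have e1 : x * (y - 1) = x * y + -x := by ring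
  have e2 : (x - 1) * (y - 1) = (x - 1) * y + -(x - 1) := by ring
  rw [e1, e2]
  rcases h with h | ⟨hx, hy, h⟩
  · exact ⟨hF _ _ (Or.inl (neg_mem h)), hF _ _ (Or.inl (neg_mem (sub_mem h O.one_mem)))⟩
  · have x0 : x ≠ 0 := fun e => hx (e ▸ O.zero_mem)
    have y0 : y ≠ 0 := fun e => hy (e ▸ O.zero_mem)
    have x1 : x - 1 ≠ 0 := fun e => hx ((sub_eq_zero.1 e) ▸ O.one_mem)
    have yi : y⁻¹ ∈ O := (O.mem_or_inv_mem y).resolve_left hy
    refine ⟨hF _ _ (Or.inr ⟨mul_ne_zero x0 y0, ?_⟩), hF _ _ (Or.inr ⟨mul_ne_zero x1 y0, ?_⟩)⟩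
    · have e : (-x) ^ 2 / (x * y) = x / y := by field_simp
      rwa [e]
    · have e : (-(x - 1)) ^ 2 / ((x - 1) * y) = x / y - y⁻¹ := by field_simp
      rw [e]
      exact sub_mem h yi

theorem GE_ball (O : ValuationSubring ℝ) {a : ℝ} (ha : a ∉ O) :
    GE (Set.indicator {z | (z - a) ^ 2 / a ∈ O} fun _ => 1) := by
  intro x y
  have hF := fun z h : ℝ => GSSufB_shift O ha (z := z) (h := h)
  have hc : (x ∈ O ∨ (x ∉ O ∧ y ∉ O ∧ x / y ∈ O)) ∨ (y ∈ O ∨ (y ∉ O ∧ x ∉ O ∧ y / x ∈ O)) := by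
    by_cases hx : x ∈ O
    · exact Or.inl (Or.inl hx)
    by_cases hy : y ∈ O
    · exact Or.inr (Or.inl hy)
    rcases O.mem_or_inv_mem (x / y) with e | e
    · exact Or.inl (Or.inr ⟨hx, hy, e⟩)
    · rw [inv_div] at e
      exact Or.inr (Or.inr ⟨hy, hx, e⟩)
  rcases hc with h | h
  · obtain ⟨h1, h2⟩ := GSSufB_half O hF h
    rw [h1, h2]
    ring
  · obtain ⟨h1, h2⟩ := GSSufB_half O hF h
    rw [mul_comm y (x - 1), mul_comm y x] at h1
    rw [mul_comm (y - 1) (x - 1), mul_comm (y - 1) x] at h2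
    rw [h1, h2]
    ring

theorem GSSufB_mul {a b : ℝ} (ha : a ∈ Set.Icc (0 : ℝ) 1) (hb : b ∈ Set.Icc (0 : ℝ) 1) :
    a * b ∈ Set.Icc (0 : ℝ) 1 :=
  ⟨mul_nonneg ha.1 hb.1, mul_le_one₀ ha.2 hb.1 hb.2⟩

theorem GSSufB_one {a : ℝ} (ha : a ∈ Set.Icc (0 : ℝ) 1) : 1 - a ∈ Set.Icc (0 : ℝ) 1 :=
  ⟨by linarith [ha.2], by linarith [ha.1]⟩

theorem GSSufB_congr {f g : ℝ → ℝ} (h : HH f) (e : ∀ x ∈ Set.Icc (0 : ℝ) 1, g x = f x) : HH g := by
  refine ⟨fun x hx => ?_, fun x hx y hy => ?_⟩
  · rw [e x hx, e _ (GSSufB_one hx)]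
    exact h.1 x hx
  · rw [e _ (GSSufB_mul hx hy), e _ (GSSufB_mul hx (GSSufB_one hy)),
      e _ (GSSufB_mul (GSSufB_one hx) hy), e _ (GSSufB_mul (GSSufB_one hx) (GSSufB_one hy))]
    exact h.2 x hx y hy

theorem Elem.hh {e : ℝ → ℝ} (h : Elem e) : HH e := by
  obtain ⟨u, hu, ⟨P, hP, hPu⟩ | ⟨O, a, ha, rfl⟩⟩ := h
  · have hd := hP.d2
    have hΦ : D2 fun t => P t + P (-t) := by
      intro c t hc
      have a := hd c t hc
      have b := hd (-c) (-t) (neg_ne_zero.2 hc)
      have e1 : -t + -c + (-c)⁻¹ = -(t + c + c⁻¹) := by rw [inv_neg]; ring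
      have e2 : -t + -c = -(t + c) := by ring
      have e3 : -t + (-c)⁻¹ = -(t + c⁻¹) := by rw [inv_neg]; ring
      rw [e1, e2, e3] at b
      show P (t + c + c⁻¹) + P (-(t + c + c⁻¹)) - (P (t + c) + P (-(t + c))) -
        (P (t + c⁻¹) + P (-(t + c⁻¹))) + (P t + P (-t)) = 0
      linarith
    obtain ⟨F, hF, hFu⟩ := exists_GE_of_D2 hΦ (fun t => by
      show P (-t) + P (- -t) = P t + P (-t)
      rw [neg_neg, add_comm])
    refine GSSufB_congr hF.hh fun x hx => ?_
    show e x = F x - F (1 - x)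
    rw [hu, hPu, hPu, hFu x hx.1, hFu _ (GSSufB_one hx).1]
  · exact GSSufB_congr (GE_ball O ha).hh fun x _ => hu x

theorem GSSufB_span {e : ℝ → ℝ} (h : e ∈ Submodule.span ℝ {e | Elem e}) : HH e := by
  induction h using Submodule.span_induction with
  | mem e he => exact Elem.hh he
  | zero => exact ⟨fun x _ => by simp, fun x _ y _ => by simp⟩
  | add f g _ _ hf hg =>
    refine ⟨fun x hx => ?_, fun x hx y hy => ?_⟩
    · have a := hf.1 x hx
      have b := hg.1 x hx
      simp only [Pi.add_apply]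
      linarith
    · have a := hf.2 x hx y hy
      have b := hg.2 x hx y hy
      simp only [Pi.add_apply]
      linarith
  | smul c f _ hf =>
    refine ⟨fun x hx => ?_, fun x hx y hy => ?_⟩
    · have a := hf.1 x hx
      simp only [Pi.smul_apply, smul_eq_mul]
      linear_combination c * a
    · have a := hf.2 x hx y hy
      simp only [Pi.smul_apply, smul_eq_mul]
      linear_combination c * a

theorem Hom.hh {f : ℝ → ℝ} (h : Hom f) : HH f := by
  refine ⟨fun x hx => ?_, fun x hx y hy => ?_⟩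
  · obtain ⟨e, he, hS⟩ := h {x, 1 - x} (by
      intro z hz
      simp only [Finset.mem_insert, Finset.mem_singleton] at hz
      rcases hz with rfl | rfl
      · exact hx
      · exact GSSufB_one hx)
    rw [hS x (by simp), hS (1 - x) (by simp)]
    exact (GSSufB_span he).1 x hx
  · obtain ⟨e, he, hS⟩ := h {x * y, x * (1 - y), (1 - x) * y, (1 - x) * (1 - y)} (by
      intro z hz
      simp only [Finset.mem_insert, Finset.mem_singleton] at hz
      rcases hz with rfl | rfl | rfl | rfl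
      · exact GSSufB_mul hx hy
      · exact GSSufB_mul hx (GSSufB_one hy)
      · exact GSSufB_mul (GSSufB_one hx) hy
      · exact GSSufB_mul (GSSufB_one hx) (GSSufB_one hy))
    rw [hS (x * y) (by simp only [Finset.mem_insert, true_or]),
      hS (x * (1 - y)) (by simp only [Finset.mem_insert, true_or, or_true]),
      hS ((1 - x) * y) (by simp only [Finset.mem_insert, true_or, or_true]),
      hS ((1 - x) * (1 - y)) (by simp only [Finset.mem_insert, Finset.mem_singleton, or_true])]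
    exact (GSSufB_span he).2 x hx y hy

end Pool.Agent.P.MP_6d4b14_an.GS
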