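import Pool.Agent.P.MP_6d4b14_an.GSNec
import Pool.Agent.P.MP_6d4b14_an.GSSufB
import Pool.Agent.P.MP_6d4b14_an.GSPart

set_option linter.unusedSectionVars false
set_option linter.unusedVariables false

namespace Pool.Agent.P.MP_6d4b14_an.GS

open scoped Classical

theorem main (g : ℝ → ℝ) :
    TR.HE g ↔ ∃ g₀ f : ℝ → ℝ, Part g₀ ∧ Hom f ∧ ∀ x ∈ Set.Icc (0 : ℝ) 1, g x = g₀ x + f x := by
  constructor
  · intro hg
    obtain ⟨g₀, hp, hs⟩ := exists_part (CL.lst_sg hg)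
    refine ⟨g₀, fun x => g x - g₀ x, hp, HH.hom ⟨fun x hx => ?_, fun x hx y hy => ?_⟩,
      fun x _ => by ring⟩
    · have := hs x hx
      simp only [TR.sg] at this
      linarith
    · have a := hg x y hx.1 hx.2 hy.1 hy.2
      have b := hp.he x y hx.1 hx.2 hy.1 hy.2
      have c := hs x hx
      have d := hs y hy
      rw [← c, ← d] at a
      simp only [TR.sg] at b
      linarith
  · rintro ⟨g₀, f, hp, hf, e⟩ x y x0 x1 y0 y1
    obtain ⟨h1, h2⟩ := hf.hh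
    have x2 : 0 ≤ 1 - x := by linarith
    have y2 : 0 ≤ 1 - y := by linarith
    have m : ∀ a b : ℝ, 0 ≤ a → a ≤ 1 → 0 ≤ b → b ≤ 1 → a * b ∈ Set.Icc (0 : ℝ) 1 :=
      fun a b a0 a1 b0 b1 => ⟨mul_nonneg a0 b0, mul_le_one₀ a1 b0 b1⟩
    have b := hp.he x y x0 x1 y0 y1
    have c := h1 x ⟨x0, x1⟩
    have d := h1 y ⟨y0, y1⟩
    have k := h2 x ⟨x0, x1⟩ y ⟨y0, y1⟩
    simp only [TR.sg] at b ⊢
    rw [e _ (m x y x0 x1 y0 y1), e _ (m x (1 - y) x0 x1 y2 (by linarith)),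
      e _ (m (1 - x) y x2 (by linarith) y0 y1),
      e _ (m (1 - x) (1 - y) x2 (by linarith) y2 (by linarith)), e x ⟨x0, x1⟩, e y ⟨y0, y1⟩,
      e (1 - x) ⟨x2, by linarith⟩, e (1 - y) ⟨y2, by linarith⟩]
    have e1 : g₀ x + f x + (g₀ (1 - x) + f (1 - x)) = g₀ x + g₀ (1 - x) := by linarith
    have e2 : g₀ y + f y + (g₀ (1 - y) + f (1 - y)) = g₀ y + g₀ (1 - y) := by linarith
    rw [e1, e2]
    linarith

end Pool.Agent.P.MP_6d4b14_an.GS
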