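import Pool.Agent.P.MP_6d4b14_an.GSKill

set_option linter.unusedSectionVars false
set_option linter.unusedVariables false

namespace Pool.Agent.P.MP_6d4b14_an.GS

open scoped Classical

variable {O : ValuationSubring ℝ} {Γ : Set ℝ}

/-- a point of a ball has the size of the centre -/
theorem GSP2_val {a z : ℝ} (ha : a ∉ O) (h : (z - a) ^ 2 / a ∈ O) :
    O.valuation z = O.valuation a ∧ O.valuation (z - a) ^ 2 ≤ O.valuation a := by
  have h1 : 1 < O.valuation a := by rwa [← O.valuation_le_one_iff, not_le] at ha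
  have h0 : 0 < O.valuation a := lt_trans zero_lt_one h1
  rw [← O.valuation_le_one_iff, map_div₀, div_le_one₀ h0, map_pow] at h
  refine ⟨Valuation.map_eq_of_sub_lt _ ?_, h⟩
  by_contra k
  have k2 := le_trans (pow_le_pow_left₀ zero_le (not_lt.1 k) 2) h
  rw [sq] at k2
  exact absurd (lt_mul_of_one_lt_right h0 h1) (not_lt.2 k2)

theorem GSP2_of {a z : ℝ} (ha : a ∉ O) (h : O.valuation (z - a) ^ 2 ≤ O.valuation a) :
    (z - a) ^ 2 / a ∈ O := by
  have h1 : 1 < O.valuation a := by rwa [← O.valuation_le_one_iff, not_le] at ha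
  rwa [← O.valuation_le_one_iff, map_div₀, div_le_one₀ (lt_trans zero_lt_one h1), map_pow]

theorem GSP2_not {a z : ℝ} (ha : a ∉ O) (h : (z - a) ^ 2 / a ∈ O) : z ∉ O := by
  rwa [← O.valuation_le_one_iff, (GSP2_val ha h).1, O.valuation_le_one_iff]

theorem GSP2_sub {a x y : ℝ} (hx : O.valuation x ^ 2 ≤ O.valuation a)
    (hy : O.valuation y ^ 2 ≤ O.valuation a) : O.valuation (x - y) ^ 2 ≤ O.valuation a := by
  rcases le_max_iff.1 (O.valuation.map_sub x y) with k | k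
  · exact le_trans (pow_le_pow_left₀ zero_le k 2) hx
  · exact le_trans (pow_le_pow_left₀ zero_le k 2) hy

/-- every point of a ball is a centre -/
theorem GSP2_iff {a b z : ℝ} (ha : a ∉ O) (h : (b - a) ^ 2 / a ∈ O) :
    (z - b) ^ 2 / b ∈ O ↔ (z - a) ^ 2 / a ∈ O := by
  have hb := GSP2_not ha h
  obtain ⟨e, k⟩ := GSP2_val ha h
  constructor
  · intro q
    have q2 := (GSP2_val hb q).2
    rw [e] at q2
    refine GSP2_of ha ?_
    have := GSP2_sub q2 (y := a - b) (by rwa [Valuation.map_sub_swap])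
    rwa [sub_sub_sub_cancel_right] at this
  · intro q
    refine GSP2_of hb ?_
    have := GSP2_sub (GSP2_val ha q).2 k
    rwa [sub_sub_sub_cancel_right, ← e] at this

theorem GSP2_sq {x : ℝ} (h : x ^ 2 ∈ O) : x ∈ O := by
  by_contra k
  obtain ⟨a, b⟩ := inv_mem_of_not k
  exact k (by convert mul_mem h b using 1; field_simp)

theorem GSP2_pair {g r : ℝ} (h1 : g / r ∈ Γ) (h2 : (r / g) ^ 2 ∈ Γ) (hr : r ^ 2 ∉ O)
    (h : (g ^ 2 - r ^ 2) ^ 2 / r ^ 2 ∈ O) : zt O g - zt O r ∈ KK O Γ := by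
  have hg := GSP2_not hr h
  have e := (GSP2_val hr h).1
  have r0 : r ≠ 0 := fun k => hr (by rw [k]; simp)
  have g0 : g ≠ 0 := fun k => hg (by rw [k]; simp)
  have v0 : O.valuation (r ^ 2) ≠ 0 := (_root_.map_ne_zero _).2 (pow_ne_zero _ r0)
  have a : g / r ∈ O := GSP2_sq (by
    rw [div_pow, ← O.valuation_le_one_iff, map_div₀, e, div_self v0])
  have b : r / g ∈ O := GSP2_sq (by
    rw [div_pow, ← O.valuation_le_one_iff, map_div₀, e, div_self v0])
  by_cases hz : 4 * r ∈ O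
  · have hz' : 4 * g ∈ O := by convert mul_mem hz a using 1; field_simp
    simp only [zt, if_pos hz, if_pos hz']
    refine L4 h1 h2 r0 g0 a b h ?_
    have c : 4 * (g ^ 2 - r ^ 2) ∈ O := GSP2_sq (by
      convert mul_mem h (pow_mem hz 2) using 1; field_simp)
    convert mul_mem (pow_mem (ofNat_mem O 2) 7) c using 1
    ring
  · have hz' : 4 * g ∉ O := fun k => hz (by convert mul_mem k b using 1; field_simp)
    simp [zt, hz, hz']

theorem P2 {O : ValuationSubring ℝ} {Γ : Set ℝ} (h2 : (2 : ℝ)⁻¹ ∉ O) (m : ℝ →₀ ℚ)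
    (hΓ : Rat2 Γ ↑m.support) (hb : Ball0 O m) :
    Finsupp.linearCombination ℚ (zt O) m ∈ KK O Γ := by
  let S := m.support.filter fun g => g ^ 2 ∉ O
  let rep : ℝ → ℝ := fun g =>
    Classical.epsilon fun r => r ∈ S ∧ (r ^ 2 - g ^ 2) ^ 2 / g ^ 2 ∈ O
  have r1 : ∀ g ∈ S, rep g ∈ S ∧ (rep g ^ 2 - g ^ 2) ^ 2 / g ^ 2 ∈ O := fun g hg =>
    Classical.epsilon_spec (p := fun r => r ∈ S ∧ (r ^ 2 - g ^ 2) ^ 2 / g ^ 2 ∈ O)
      ⟨g, hg, by simp⟩
  have r2 : ∀ g g', g ^ 2 ∉ O → (g' ^ 2 - g ^ 2) ^ 2 / g ^ 2 ∈ O → rep g' = rep g :=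
    fun g g' hg h => by simp only [rep, GSP2_iff hg h]
  have r3 : ∀ g ∈ S, (g ^ 2 - rep g ^ 2) ^ 2 / rep g ^ 2 ∈ O := fun g hg =>
    (GSP2_iff (Finset.mem_filter.1 hg).2 (r1 g hg).2).2 (by simp)
  rw [Finsupp.linearCombination_apply, Finsupp.sum,
    ← Finset.sum_filter_add_sum_filter_not m.support fun g => g ^ 2 ∉ O]
  refine add_mem ?_ (sum_mem fun g hg => Submodule.smul_mem _ _ ?_)
  swap
  · have := not_not.1 (Finset.mem_filter.1 hg).2
    unfold zt
    split_ifs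
    · exact KK_of_JJ (L0 (by rwa [← sq]))
    · exact zero_mem _
  have e : ∑ g ∈ S, m g • zt O g =
      ∑ g ∈ S, m g • (zt O g - zt O (rep g)) + ∑ g ∈ S, m g • zt O (rep g) := by
    rw [← Finset.sum_add_distrib]
    exact Finset.sum_congr rfl fun g _ => by rw [smul_sub, sub_add_cancel]
  change ∑ g ∈ S, m g • zt O g ∈ _
  rw [e]
  refine add_mem (sum_mem fun g hg => Submodule.smul_mem _ _ ?_) ?_
  · have a := Finset.mem_filter.1 (r1 g hg).1
    have b := hΓ _ (Finset.mem_coe.2 a.1) g (Finset.mem_coe.2 (Finset.mem_filter.1 hg).1)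
    exact GSP2_pair b.1 b.2 a.2 (r3 g hg)
  rw [← Finset.sum_fiberwise_of_maps_to (t := S.image rep) (g := rep)
    fun g hg => Finset.mem_image_of_mem _ hg]
  refine sum_mem fun r hr => ?_
  obtain ⟨g₁, hg₁, rfl⟩ := Finset.mem_image.1 hr
  have hn : g₁ ^ 2 ∉ O := (Finset.mem_filter.1 hg₁).2
  have k := hb _ hn
  rw [Finsupp.linearCombination_apply, Finsupp.sum] at k
  simp only [smul_eq_mul, mul_ite, mul_one, mul_zero] at k
  rw [← Finset.sum_filter] at k
  have e2 : S.filter (fun g => rep g = rep g₁) =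
      m.support.filter fun g => (g ^ 2 - g₁ ^ 2) ^ 2 / g₁ ^ 2 ∈ O := by
    ext g
    simp only [Finset.mem_filter]
    constructor
    · rintro ⟨a, b⟩
      refine ⟨(Finset.mem_filter.1 a).1, (GSP2_iff hn (r1 g₁ hg₁).2).1 ?_⟩
      rw [← b]
      exact r3 g a
    · rintro ⟨a, b⟩
      exact ⟨Finset.mem_filter.2 ⟨a, GSP2_not hn b⟩, r2 g₁ g hn b⟩
  rw [Finset.sum_congr rfl fun g hg => by rw [(Finset.mem_filter.1 hg).2], ← Finset.sum_smul, e2, k,
    zero_smul]
  exact zero_mem _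

end Pool.Agent.P.MP_6d4b14_an.GS
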