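import Pool.Agent.P.MP_6d4b14_an.GSDefs

set_option linter.unusedSectionVars false
set_option linter.unusedVariables false

namespace Pool.Agent.P.MP_6d4b14_an.GS

open scoped Classical

theorem GSVal_hua {H₁ H₂ : AddSubgroup ℝ} (h : ∀ a : ℝ, a ∉ H₁ → a⁻¹ ∈ H₂)
    (h' : ∀ b : ℝ, b ∉ H₂ → b⁻¹ ∈ H₁) {x y : ℝ} (hx : x⁻¹ ∉ H₂) (hy : y⁻¹ ∉ H₁) :
    x ^ 2 * y ∈ H₁ := by
  have x1 : x ∈ H₁ := by simpa using h' _ hx
  have x0 : x ≠ 0 := by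
    rintro rfl
    exact hx (by simp)
  have y0 : y ≠ 0 := by
    rintro rfl
    exact hy (by simp)
  have a1 : y⁻¹ - x ∉ H₁ := fun k => hy (by simpa using H₁.add_mem k x1)
  have a0 : y⁻¹ - x ≠ 0 := fun k => a1 (k ▸ H₁.zero_mem)
  have b1 : x⁻¹ + (y⁻¹ - x)⁻¹ ∉ H₂ := fun k => hx (by simpa using H₂.sub_mem k (h _ a1))
  have c := H₁.sub_mem x1 (h' _ b1)
  have e : (x⁻¹ + (y⁻¹ - x)⁻¹)⁻¹ = x - x ^ 2 * y := by
    have a2 : 1 - x * y ≠ 0 := fun k => a0 (by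
      have : y⁻¹ - x = (1 - x * y) / y := by field_simp
      rw [this, k, zero_div])
    have e1 : y⁻¹ - x = (1 - x * y) / y := by field_simp
    have e2 : x⁻¹ + ((1 - x * y) / y)⁻¹ = (x * (1 - x * y))⁻¹ := by
      field_simp
      ring
    rw [e1, e2, inv_inv]
    ring
  rw [e] at c
  simpa using c

theorem GSVal_sq {H₁ H₂ : AddSubgroup ℝ} (h : ∀ a : ℝ, a ∉ H₁ → a⁻¹ ∈ H₂)
    (h' : ∀ b : ℝ, b ∉ H₂ → b⁻¹ ∈ H₁) (g : H₂ ≤ AddSubgroup.closure {y : ℝ | y⁻¹ ∉ H₁})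
    {x : ℝ} (hx : x⁻¹ ∉ H₂) {z : ℝ} (hz : z ∈ H₂) : x ^ 2 * z ∈ H₁ := by
  have k := g hz
  clear hz
  induction k using AddSubgroup.closure_induction with
  | mem y hy => exact GSVal_hua h h' hx hy
  | zero => simp
  | add a b _ _ ha hb => rw [mul_add]; exact H₁.add_mem ha hb
  | neg a _ ha => rw [mul_neg]; exact H₁.neg_mem ha

theorem GSVal_fin {H₁ H₂ : AddSubgroup ℝ} (h : ∀ a : ℝ, a ∉ H₁ → a⁻¹ ∈ H₂)
    (s1 : ∀ x : ℝ, x⁻¹ ∉ H₂ → ∀ z ∈ H₂, x ^ 2 * z ∈ H₁)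
    (s2 : ∀ y : ℝ, y⁻¹ ∉ H₁ → ∀ z ∈ H₁, y ^ 2 * z ∈ H₂) {a : ℝ} (ha : a ∉ H₁) (T : Finset ℝ)
    (hT : ∀ y ∈ T, y⁻¹ ∉ H₁) : ∃ z, z ∉ H₁ ∧ ∀ y ∈ T, y ^ 2 * z ∈ H₂ := by
  induction T using Finset.induction_on with
  | empty => exact ⟨a, ha, by simp⟩
  | insert w T _ ih =>
    obtain ⟨z, z1, z2⟩ := ih fun y hy => hT y (Finset.mem_insert_of_mem hy)
    have hw := hT w (Finset.mem_insert_self _ _)
    have w0 : w ≠ 0 := by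
      rintro rfl
      exact hw (by simp)
    by_cases k : w ^ 2 * z ∈ H₂
    · refine ⟨z, z1, fun y hy => ?_⟩
      rcases Finset.mem_insert.1 hy with rfl | hy
      · exact k
      · exact z2 y hy
    · refine ⟨w⁻¹, hw, fun y hy => ?_⟩
      rcases Finset.mem_insert.1 hy with rfl | hy
      · have e : y ^ 2 * y⁻¹ = y⁻¹⁻¹ := by field_simp
        rw [e]
        exact h _ hw
      · by_contra n
        have hy' := hT y (Finset.mem_insert_of_mem hy)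
        have y0 : y ≠ 0 := by
          rintro rfl
          exact hy' (by simp)
        have p := s2 y hy' _ (s1 (y ^ 2 * w⁻¹)⁻¹ (by rwa [inv_inv]) _ (z2 y hy))
        have e : y ^ 2 * ((y ^ 2 * w⁻¹)⁻¹ ^ 2 * (y ^ 2 * z)) = w ^ 2 * z := by field_simp
        exact k (e ▸ p)

theorem GSVal_core {H₁ H₂ : AddSubgroup ℝ} (h : ∀ a : ℝ, a ∉ H₁ → a⁻¹ ∈ H₂)
    (s1 : ∀ x : ℝ, x⁻¹ ∉ H₂ → ∀ z ∈ H₂, x ^ 2 * z ∈ H₁)
    (s2 : ∀ y : ℝ, y⁻¹ ∉ H₁ → ∀ z ∈ H₁, y ^ 2 * z ∈ H₂) :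
    ∃ O : ValuationSubring ℝ, ∀ a b : ℝ, a ∉ H₁ → b ∉ H₂ → a * b ∉ O := by
  by_cases h0 : ∀ a : ℝ, a ∈ H₁
  · exact ⟨⊤, fun a b ha _ => absurd (h0 a) ha⟩
  push Not at h0
  obtain ⟨a₀, ha₀⟩ := h0
  let R : Subring ℝ :=
    { carrier := {r | ∀ z ∈ H₁, r * z ∈ H₁}
      mul_mem' := fun {a b} ha hb z hz => by rw [mul_assoc]; exact ha _ (hb z hz)
      one_mem' := fun z hz => by rwa [one_mul]
      add_mem' := fun {a b} ha hb z hz => by rw [add_mul]; exact H₁.add_mem (ha z hz) (hb z hz)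
      zero_mem' := fun z hz => by rw [zero_mul]; exact H₁.zero_mem
      neg_mem' := fun {a} ha z hz => by rw [neg_mul]; exact H₁.neg_mem (ha z hz) }
  let I : Ideal R :=
    { carrier := {r | ∃ T : Finset ℝ, (∀ y ∈ T, y⁻¹ ∉ H₁) ∧
        ∀ z, (∀ y ∈ T, y ^ 2 * z ∈ H₂) → (r : ℝ) * z ∈ H₁}
      add_mem' := by
        rintro a b ⟨T, t1, t2⟩ ⟨U, u1, u2⟩
        refine ⟨T ∪ U, fun y hy => (Finset.mem_union.1 hy).elim (t1 y) (u1 y), fun z hz => ?_⟩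
        rw [Subring.coe_add, add_mul]
        exact H₁.add_mem (t2 z fun y hy => hz y (Finset.mem_union_left _ hy))
          (u2 z fun y hy => hz y (Finset.mem_union_right _ hy))
      zero_mem' := ⟨∅, by simp, fun z _ => by simp⟩
      smul_mem' := by
        rintro c a ⟨T, t1, t2⟩
        refine ⟨T, t1, fun z hz => ?_⟩
        rw [smul_eq_mul, Subring.coe_mul, mul_assoc]
        exact c.2 _ (t2 z hz) }
  have hI : I ≠ ⊤ := by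
    intro k
    have k1 : (1 : R) ∈ I := k ▸ Submodule.mem_top
    obtain ⟨T, t1, t2⟩ := k1
    obtain ⟨z, z1, z2⟩ := GSVal_fin h s1 s2 ha₀ T t1
    exact z1 (by simpa using t2 z z2)
  obtain ⟨O, -, hO⟩ := Ideal.image_subset_nonunits_valuationSubring I hI
  refine ⟨O, fun a b ha hb k => ?_⟩
  have a0 : a ≠ 0 := fun e => ha (e ▸ H₁.zero_mem)
  have b0 : b ≠ 0 := fun e => hb (e ▸ H₂.zero_mem)
  have ha' : a⁻¹⁻¹ ∉ H₁ := by rwa [inv_inv]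
  have hb' : b⁻¹⁻¹ ∉ H₂ := by rwa [inv_inv]
  have r1 : b⁻¹ ^ 2 * a⁻¹ ^ 2 ∈ R := fun z hz => by
    rw [mul_assoc]
    exact s1 _ hb' _ (s2 _ ha' z hz)
  have r2 : (⟨_, r1⟩ : R) ∈ I := ⟨{a⁻¹}, by simpa using ha, fun z hz => by
    show b⁻¹ ^ 2 * a⁻¹ ^ 2 * z ∈ H₁
    rw [mul_assoc]
    exact s1 _ hb' _ (hz _ (Finset.mem_singleton_self _))⟩
  have r3 : b⁻¹ ^ 2 * a⁻¹ ^ 2 ∈ O.nonunits := hO ⟨_, r2, rfl⟩
  rw [ValuationSubring.mem_nonunits_iff] at r3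
  have r4 : O.valuation ((a * b) * (a * b)) ≤ 1 := (O.valuation_le_one_iff _).2 (O.mul_mem _ _ k k)
  have r5 : O.valuation ((a * b) * (a * b) * (b⁻¹ ^ 2 * a⁻¹ ^ 2)) < 1 := by
    rw [map_mul]
    exact lt_of_le_of_lt (mul_le_of_le_one_left' r4) r3
  have e : (a * b) * (a * b) * (b⁻¹ ^ 2 * a⁻¹ ^ 2) = 1 := by field_simp
  rw [e, map_one] at r5
  exact lt_irrefl _ r5

theorem lemV (H₁ H₂ : AddSubgroup ℝ) (h : ∀ a : ℝ, a ∉ H₁ → a⁻¹ ∈ H₂) :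
    ∃ O : ValuationSubring ℝ, ∀ a b : ℝ, a ∉ H₁ → b ∉ H₂ → a * b ∉ O := by
  let K₁ : AddSubgroup ℝ := AddSubgroup.closure {x : ℝ | x⁻¹ ∉ H₂}
  let K₂ : AddSubgroup ℝ := AddSubgroup.closure {y : ℝ | y⁻¹ ∉ K₁}
  have l1 : K₁ ≤ H₁ := (AddSubgroup.closure_le _).2 fun x hx => by
    by_contra n
    exact hx (h x n)
  have l2 : K₂ ≤ H₂ := (AddSubgroup.closure_le _).2 fun y hy => by
    by_contra n
    exact hy (AddSubgroup.subset_closure (show y⁻¹⁻¹ ∉ H₂ by rwa [inv_inv]))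
  have k : ∀ a : ℝ, a ∉ K₁ → a⁻¹ ∈ K₂ := fun a ha =>
    AddSubgroup.subset_closure (show a⁻¹⁻¹ ∉ K₁ by rwa [inv_inv])
  have k' : ∀ b : ℝ, b ∉ K₂ → b⁻¹ ∈ K₁ := fun b hb => by
    by_contra n
    exact hb (AddSubgroup.subset_closure n)
  have g1 : K₁ ≤ AddSubgroup.closure {x : ℝ | x⁻¹ ∉ K₂} :=
    AddSubgroup.closure_mono fun x hx n => hx (l2 n)
  obtain ⟨O, hO⟩ := GSVal_core k (fun x hx z hz => GSVal_sq k k' le_rfl hx hz)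
    (fun y hy z hz => GSVal_sq k' k g1 hy hz)
  exact ⟨O, fun a b ha hb => hO a b (fun n => ha (l1 n)) fun n => hb (l2 n)⟩

theorem lemV_cor (M : AddSubgroup ℝ) (h : ∀ a : ℝ, a ∉ M → a⁻¹ ∈ M) :
    ∃ O : ValuationSubring ℝ, ∀ x ∈ O, x ∈ M := by
  obtain ⟨O, hO⟩ := lemV M M h
  refine ⟨O, fun x hx => ?_⟩
  by_contra n
  exact hO x x n n (O.mul_mem _ _ hx hx)

end Pool.Agent.P.MP_6d4b14_an.GS
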