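import Pool.Agent.P.MP_6d4b14_an.GSKr
import Pool.Agent.P.MP_6d4b14_an.GSVal
import Pool.Agent.P.MP_6d4b14_an.GSLoc

set_option linter.unusedSectionVars false
set_option linter.unusedVariables false

namespace Pool.Agent.P.MP_6d4b14_an.GS

open scoped Classical

theorem GSSyn_one (M : AddSubgroup ℝ) {c : ℝ} (h : c⁻¹ ∉ M) : SymmetricAlgebra.ι ℚ ℝ c ∈ jj M :=
  Ideal.subset_span (Or.inr ⟨c⁻¹, h, by rw [inv_inv]⟩)

theorem GSSyn_two (M : AddSubgroup ℝ) {c d : ℝ} (h : c * d = 1) :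
    SymmetricAlgebra.ι ℚ ℝ c * SymmetricAlgebra.ι ℚ ℝ d ∈ jj M := by
  have hd : d = c⁻¹ := eq_inv_of_mul_eq_one_right h
  have hc : c ≠ 0 := left_ne_zero_of_mul_eq_one h
  subst hd
  by_cases h1 : c ∈ M
  · by_cases h2 : c⁻¹ ∈ M
    · exact Ideal.subset_span (Or.inl ⟨c, hc, h1, h2, rfl⟩)
    · exact Ideal.mul_mem_right _ _ (GSSyn_one M h2)
  · exact Ideal.mul_mem_left _ _ (GSSyn_one M (by rwa [inv_inv]))

theorem GSSyn_raw {ι : Type} (O : ValuationSubring ℝ) (M : AddSubgroup ℝ) (hO : ∀ x ∈ O, x ∈ M)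
    (S : Finset ι) (n : ι → ℚ) (p : ι → ℝ) (h : ∀ P, Mono P → ∑ i ∈ S, n i • P (p i) = 0)
    (a : ℝ) (k : ℕ) :
    ∑ i ∈ S with p i - a ∈ M, n i • SymmetricAlgebra.ι ℚ ℝ (p i) ^ k ∈ jj M := by
  by_contra hx
  obtain ⟨f, hf, hf'⟩ := Submodule.exists_dual_map_eq_bot_of_notMem
    (p := (jj M).restrictScalars ℚ) hx inferInstance
  have hf0 : ∀ x ∈ jj M, f x = 0 := fun x hx => by
    have : f x ∈ ((jj M).restrictScalars ℚ).map f := Submodule.mem_map_of_mem hx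
    rwa [hf', Submodule.mem_bot] at this
  let A : MultilinearMap ℚ (fun _ : Fin k => ℝ) ℝ :=
    (Algebra.linearMap ℚ ℝ ∘ₗ f).compMultilinearMap
      ((MultilinearMap.mkPiAlgebra ℚ (Fin k) (SymmetricAlgebra ℚ ℝ)).compLinearMap
        fun _ => SymmetricAlgebra.ι ℚ ℝ)
  have hA : ∀ v, A v = algebraMap ℚ ℝ (f (∏ i, SymmetricAlgebra.ι ℚ ℝ (v i))) := fun v => rfl
  have hP := h (Set.indicator {t | t - a ∈ M} fun t => A fun _ => t)
    ⟨O, M, a, k, A, hO, fun v i j hij hv => ?_, fun v i hv => ?_, rfl⟩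
  · apply hf
    apply (algebraMap ℚ ℝ).injective
    rw [map_zero, ← hP, map_sum, map_sum, Finset.sum_filter]
    refine Finset.sum_congr rfl fun i _ => ?_
    by_cases hi : p i - a ∈ M
    · rw [if_pos hi, Set.indicator_of_mem (show p i ∈ {t | t - a ∈ M} from hi), hA, map_smul,
        smul_eq_mul, map_mul, Algebra.smul_def]
      simp
    · rw [if_neg hi, Set.indicator_of_notMem (show p i ∉ {t | t - a ∈ M} from hi), smul_zero]
  · rw [hA, hf0, map_zero]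
    refine Ideal.mem_of_dvd _ ?_ (GSSyn_two M hv)
    rw [← Finset.prod_pair (f := fun i => SymmetricAlgebra.ι ℚ ℝ (v i)) hij]
    exact Finset.prod_dvd_prod_of_subset _ _ _ (Finset.subset_univ _)
  · rw [hA, hf0, map_zero]
    exact Ideal.mem_of_dvd _ (Finset.dvd_prod_of_mem _ (Finset.mem_univ i)) (GSSyn_one M hv)

/-- all power sums over cosets lie in the ideal of relations -/
def Raw {ι : Type} (S : Finset ι) (n : ι → ℚ) (p : ι → ℝ) : Prop :=
  ∀ (O : ValuationSubring ℝ) (M : AddSubgroup ℝ), (∀ x ∈ O, x ∈ M) → ∀ (a : ℝ) (k : ℕ),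
    ∑ i ∈ S with p i - a ∈ M, n i • SymmetricAlgebra.ι ℚ ℝ (p i) ^ k ∈ jj M

theorem syn_sym {ι : Type} (O : ValuationSubring ℝ) (M : AddSubgroup ℝ) (hO : ∀ x ∈ O, x ∈ M)
    (S : Finset ι) (n : ι → ℚ) (p : ι → ℝ) (h : Raw S n p) (a : ℝ) (k : ℕ) :
    ∑ i ∈ S with p i - a ∈ M, n i • SymmetricAlgebra.ι ℚ ℝ (p i - a) ^ k ∈ jj M := by
  have e : ∑ i ∈ S with p i - a ∈ M, n i • SymmetricAlgebra.ι ℚ ℝ (p i - a) ^ k =
      ∑ j ∈ Finset.range (k + 1),
        (∑ i ∈ S with p i - a ∈ M, n i • SymmetricAlgebra.ι ℚ ℝ (p i) ^ j) *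
          ((-SymmetricAlgebra.ι ℚ ℝ a) ^ (k - j) * (k.choose j : SymmetricAlgebra ℚ ℝ)) := by
    simp only [Finset.sum_mul]
    rw [Finset.sum_comm]
    refine Finset.sum_congr rfl fun i _ => ?_
    rw [map_sub, sub_eq_add_neg, add_pow, Finset.smul_sum]
    refine Finset.sum_congr rfl fun j _ => ?_
    rw [smul_mul_assoc, mul_assoc]
  rw [e]
  exact Ideal.sum_mem _ fun j _ => Ideal.mul_mem_right _ _ (h O M hO a j)

theorem GSSyn_loc {Q ι : Type} [CommRing Q] [Algebra ℚ Q] [IsLocalRing Q] (X : ℝ → Q)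
    (h0 : X 0 = 1) (hX : ∀ u v, X (u + v) = X u * X v)
    (h1 : ∀ c : ℝ, c ≠ 0 → (X c - 1) * (X c⁻¹ - 1) = 0) (S : Finset ι) (n : ι → ℚ) (p : ι → ℝ)
    (h : Raw S n p) : ∑ i ∈ S, n i • X (p i) = 0 := by
  let M : AddSubgroup ℝ :=
    { carrier := {a | X a - 1 ∈ IsLocalRing.maximalIdeal Q}
      zero_mem' := by
        show X 0 - 1 ∈ IsLocalRing.maximalIdeal Q
        rw [h0, sub_self]
        exact Ideal.zero_mem _
      add_mem' := fun {a b} ha hb => by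
        show X (a + b) - 1 ∈ IsLocalRing.maximalIdeal Q
        have e : X (a + b) - 1 = X a * (X b - 1) + (X a - 1) := by rw [hX]; ring
        rw [e]
        exact Ideal.add_mem _ (Ideal.mul_mem_left _ _ hb) ha
      neg_mem' := fun {a} ha => by
        show X (-a) - 1 ∈ IsLocalRing.maximalIdeal Q
        have e1 : X (-a) * X a = 1 := by rw [← hX, neg_add_cancel, h0]
        have e : X (-a) - 1 = -X (-a) * (X a - 1) := by linear_combination e1
        rw [e]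
        exact Ideal.mul_mem_left _ _ ha }
  have hM : ∀ a, a ∈ M ↔ ¬ IsUnit (X a - 1) := fun a => IsLocalRing.mem_maximalIdeal _
  have h2 : ∀ c : ℝ, c ∉ M → c⁻¹ ∈ M ∧ X c⁻¹ = 1 := by
    intro c hc
    have hu : IsUnit (X c - 1) := not_not.1 fun hn => hc ((hM c).2 hn)
    have hc0 : c ≠ 0 := fun e => hc (e ▸ M.zero_mem)
    have e : X c⁻¹ - 1 = 0 := hu.mul_right_eq_zero.1 (h1 c hc0)
    refine ⟨?_, sub_eq_zero.1 e⟩
    show X c⁻¹ - 1 ∈ IsLocalRing.maximalIdeal Q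
    rw [e]
    exact Ideal.zero_mem _
  obtain ⟨O, hO⟩ := lemV_cor M fun a ha => (h2 a ha).1
  rw [← Finset.sum_fiberwise_of_maps_to (g := fun i => (p i : ℝ ⧸ M))
    (t := S.image fun i => (p i : ℝ ⧸ M)) fun i hi => Finset.mem_image_of_mem _ hi]
  refine Finset.sum_eq_zero fun y hy => ?_
  obtain ⟨j, _, rfl⟩ := Finset.mem_image.1 hy
  have key := syn_kr X h0 hX M (fun a ha => (hM a).1 ha) h1 h2 (S.filter fun i => p i - p j ∈ M) n
    (fun i => p i - p j) (fun i hi => (Finset.mem_filter.1 hi).2)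
    fun k => syn_sym O M hO S n p h (p j) k
  have e : (S.filter fun i => (p i : ℝ ⧸ M) = (p j : ℝ ⧸ M)) = S.filter fun i => p i - p j ∈ M :=
    Finset.filter_congr fun i _ => QuotientAddGroup.eq_iff_sub_mem
  rw [e]
  calc ∑ i ∈ S with p i - p j ∈ M, n i • X (p i)
      = X (p j) * ∑ i ∈ S with p i - p j ∈ M, n i • X (p i - p j) := by
        rw [Finset.mul_sum]
        refine Finset.sum_congr rfl fun i _ => ?_
        rw [mul_smul_comm, ← hX, add_sub_cancel]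
    _ = 0 := by rw [key, mul_zero]

theorem syn_raw (m : ℝ →₀ ℚ) (h : Raw m.support m fun g => 2 * g) :
    m ∈ Submodule.span ℚ {w | ∃ e e' s : ℝ, e * e' = 1 / 4 ∧ w = sd e e' s} := by
  have key := loc {p : ℝ × ℝ | p.1 * p.2 = 1 / 4} m ?_
  · refine Submodule.span_mono ?_ key
    rintro w ⟨p, hp, s, rfl⟩
    exact ⟨p.1, p.2, s, hp, rfl⟩
  · intro Q _ _ _ X h0 hX h1
    have := GSSyn_loc (fun t => X (t / 2)) (by simpa using h0)
      (fun u v => by simp only [add_div, hX])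
      (fun c hc => h1 (c / 2, c⁻¹ / 2) (by
        show c / 2 * (c⁻¹ / 2) = 1 / 4
        field_simp
        norm_num))
      m.support m (fun g => 2 * g) h
    rw [Finsupp.linearCombination_apply, Finsupp.sum, ← this]
    refine Finset.sum_congr rfl fun g _ => ?_
    rw [mul_div_cancel_left₀ g two_ne_zero]

theorem syn (m : ℝ →₀ ℚ)
    (h : ∀ P, Mono P → Finsupp.linearCombination ℚ (fun g => P (2 * g)) m = 0) :
    m ∈ Submodule.span ℚ {w | ∃ e e' s : ℝ, e * e' = 1 / 4 ∧ w = sd e e' s} :=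
  syn_raw m fun O M hO a k => GSSyn_raw O M hO _ _ _ (fun P hP => by
    have := h P hP
    rwa [Finsupp.linearCombination_apply, Finsupp.sum] at this) a k

end Pool.Agent.P.MP_6d4b14_an.GS
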