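import Pool.Agent.P.MP_6d4b14_an.GSBeta
import Pool.Agent.P.MP_6d4b14_an.GSP2
import Pool.Agent.P.MP_6d4b14_an.GSM
import Pool.Agent.P.MP_6d4b14_an.GSSyn
import Pool.Agent.P.MP_6d4b14_an.GSDual
import Pool.Agent.P.MP_6d4b14_an.GSExt

set_option linter.unusedSectionVars false
set_option linter.unusedVariables false

namespace Pool.Agent.P.MP_6d4b14_an.GS

open scoped Classical

theorem GSNec_lift (F : ℝ → ℝ) {m : ℝ →₀ ℚ}
    (hm : m ∈ Submodule.span ℚ {w | ∃ e e' s : ℝ, e * e' = 1 / 4 ∧ w = sd e e' s}) :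
    ∃ β ∈ JM, ev (LF F) β = Finsupp.linearCombination ℚ (fun g : ℝ => F (g ^ 2)) m ∧
      ∃ Γ : Set ℝ, Γ.Finite ∧ ∀ O : ValuationSubring ℝ, (2 : ℝ)⁻¹ ∉ O →
        β - Finsupp.linearCombination ℚ (zt O) m ∈ KK O Γ := by
  induction hm using Submodule.span_induction with
  | mem x hx =>
    obtain ⟨e, e', s, he, rfl⟩ := hx
    exact lift_sd F he
  | zero => exact ⟨0, zero_mem _, by simp, ∅, Set.finite_empty, fun O _ => by simp⟩
  | add x y _ _ hx hy =>
    obtain ⟨a, a1, a2, Γ, a3, a4⟩ := hx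
    obtain ⟨b, b1, b2, Δ, b3, b4⟩ := hy
    refine ⟨a + b, add_mem a1 b1, by rw [map_add, map_add, a2, b2], Γ ∪ Δ, a3.union b3,
      fun O h => ?_⟩
    rw [map_add, add_sub_add_comm]
    exact add_mem (KK_mono Set.subset_union_left (a4 O h))
      (KK_mono Set.subset_union_right (b4 O h))
  | smul c x _ hx =>
    obtain ⟨a, a1, a2, Γ, a3, a4⟩ := hx
    refine ⟨c • a, Submodule.smul_mem _ _ a1, by rw [map_smul, map_smul, a2], Γ, a3,
      fun O h => ?_⟩
    rw [map_smul, ← smul_sub]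
    exact Submodule.smul_mem _ _ (a4 O h)

theorem nec {F : ℝ → ℝ} (hF : GE F) {m : ℝ →₀ ℚ}
    (hm : m ∈ Submodule.span ℚ {w | ∃ e e' s : ℝ, e * e' = 1 / 4 ∧ w = sd e e' s})
    (hb : ∀ O : ValuationSubring ℝ, (2 : ℝ)⁻¹ ∉ O → Ball0 O m) :
    Finsupp.linearCombination ℚ (fun g : ℝ => F (g ^ 2)) m = 0 := by
  obtain ⟨β, h1, h2, Γ, h3, h4⟩ := GSNec_lift F hm
  obtain ⟨Δ, k1, k2⟩ := exists_rat2 m.support.finite_toSet
  rw [← h2]
  refine lemM hF h1 (h3.union k1) fun O h => ?_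
  have := add_mem (KK_mono Set.subset_union_left (h4 O h))
    (KK_mono (Set.subset_union_right (s := Γ)) (P2 h m k2 (hb O h)))
  rwa [sub_add_cancel] at this

/-- the even lift to square roots -/
noncomputable def GSNec_r : (ℝ →₀ ℚ) →ₗ[ℚ] ℝ →₀ ℚ :=
  Finsupp.linearCombination ℚ fun z : ℝ => Finsupp.single (√z) 1 + Finsupp.single (-√z) 1 -
    (Finsupp.single (√(1 - z)) 1 + Finsupp.single (-√(1 - z)) 1)

theorem GSNec_ev {V : Type} [AddCommGroup V] [Module ℚ V] (φ : ℝ → V) (m : ℝ →₀ ℚ) :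
    Finsupp.linearCombination ℚ φ (GSNec_r m) = Finsupp.linearCombination ℚ
      (fun z => φ (√z) + φ (-√z) - (φ (√(1 - z)) + φ (-√(1 - z)))) m := by
  rw [GSNec_r, Finsupp.apply_linearCombination]
  congr 2
  funext z
  simp

theorem GSNec_congr {V : Type} [AddCommGroup V] [Module ℚ V] {φ ψ : ℝ → V} {m : ℝ →₀ ℚ}
    (h : ∀ z ∈ m.support, φ z = ψ z) :
    Finsupp.linearCombination ℚ φ m = Finsupp.linearCombination ℚ ψ m := by
  rw [Finsupp.linearCombination_apply, Finsupp.linearCombination_apply]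
  exact Finsupp.sum_congr fun z hz => by rw [h z hz]

theorem GSNec_mul (c : ℝ) (φ : ℝ → ℝ) (m : ℝ →₀ ℚ) :
    Finsupp.linearCombination ℚ (fun z => c * φ z) m = c * Finsupp.linearCombination ℚ φ m := by
  simp only [Finsupp.linearCombination_apply, Finsupp.sum, Finset.mul_sum, mul_smul_comm]

theorem HH.hom {f : ℝ → ℝ} (h : HH f) : Hom f := by
  obtain ⟨F, hF, e⟩ := ext_glob h
  refine hom_of_dual fun m hm hk => ?_
  have sq1 : ∀ z ∈ m.support, √z ^ 2 = z := fun z hz => Real.sq_sqrt (hm z hz).1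
  have sq2 : ∀ z ∈ m.support, √(1 - z) ^ 2 = 1 - z := fun z hz =>
    Real.sq_sqrt (sub_nonneg.2 (hm z hz).2)
  have k := nec hF (m := GSNec_r m) (syn _ fun P hP => ?_) fun O _ a ha => ?_
  · rw [GSNec_ev, GSNec_congr (ψ := fun z => 4 * f z), GSNec_mul] at k
    · exact (mul_eq_zero.1 k).resolve_left four_ne_zero
    · intro z hz
      have a := hm z hz
      have b := h.1 z a
      simp only [neg_sq, sq1 z hz, sq2 z hz, e z a,
        e (1 - z) ⟨sub_nonneg.2 a.2, by linarith [a.1]⟩]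
      linarith
  · rw [GSNec_ev]
    simp only [mul_neg]
    exact hk _ ⟨fun z => P (2 * √z) + P (-(2 * √z)), fun z => rfl, Or.inl ⟨P, hP, fun z => rfl⟩⟩
  · have k := hk _ ⟨_, fun z => rfl, Or.inr ⟨O, a, ha, rfl⟩⟩
    have k2 := GSNec_mul 2 (fun z => Set.indicator {z | (z - a) ^ 2 / a ∈ O} (fun _ => (1 : ℝ)) z -
      Set.indicator {z | (z - a) ^ 2 / a ∈ O} (fun _ => (1 : ℝ)) (1 - z)) m
    rw [k, mul_zero] at k2
    apply (algebraMap ℚ ℝ).injective
    rw [map_zero, ← k2, GSNec_ev, ← Algebra.linearMap_apply, Finsupp.apply_linearCombination]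
    refine GSNec_congr fun z hz => ?_
    simp only [Function.comp, neg_sq, sq1 z hz, sq2 z hz, Set.indicator, Set.mem_ofPred_eq]
    split_ifs <;> norm_num

end Pool.Agent.P.MP_6d4b14_an.GS
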