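import Pool.Agent.P.MP_6d4b14_an.GSKill

set_option linter.unusedSectionVars false
set_option linter.unusedVariables false

namespace Pool.Agent.P.MP_6d4b14_an.GS

open scoped Classical

variable {O : ValuationSubring ℝ} {Γ : Set ℝ} {s e e' : ℝ}

theorem GSP1a_pair (h2 : (2 : ℝ)⁻¹ ∉ O) (hO : 2 * e ∈ O) {g : ℝ} (hg : 2 ^ 9 * (e * g) ∈ O)
    (h1 : (g + e) / g ∈ Γ) (h3 : (g / (g + e)) ^ 2 ∈ Γ) :
    pt (g + e) (g + e) - zt O (g + e) - (pt g g - zt O g) ∈ KK O Γ := by
  have two : (2 : ℝ) ∈ O := ofNat_mem _ 2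
  have h4 : 4 * e ∈ O := by convert mul_mem two hO using 1; ring
  by_cases hz : 4 * g ∈ O
  · have hz' : 4 * (g + e) ∈ O := by rw [mul_add]; exact add_mem hz h4
    simp [zt, hz, hz']
  · have hz' : 4 * (g + e) ∉ O := fun k => hz (by convert sub_mem k h4 using 1; ring)
    simp only [zt, if_neg hz, if_neg hz', sub_zero]
    obtain ⟨a0, a1⟩ := inv_mem_of_not hz
    have g0 : g ≠ 0 := right_ne_zero_of_mul a0
    obtain ⟨a, b, c⟩ := unit2 h2 (t := (g + e) / g) (mul_mem hO a1) (by field_simp; ring)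
    have hge : g + e ≠ 0 := fun e0 => a (by rw [e0, zero_div])
    refine L4 h1 h3 g0 hge b (by rwa [inv_div] at c) ?_ ?_
    · convert pow_mem (add_mem hO (mul_mem (pow_mem hO 2) a1)) 2 using 1
      field_simp
      ring
    · convert add_mem (mul_mem two hg) (mul_mem (pow_mem two 7) (pow_mem hO 2)) using 1
      ring

theorem GSP1a_es (he : e * e' = 1 / 4) (hs : 2 ^ 7 * s / e' ∈ O) : 2 ^ 9 * (e * s) ∈ O := by
  have e0 : e' ≠ 0 := fun k => by rw [k] at he; norm_num at he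
  convert hs using 1
  field_simp
  linear_combination 4 * s * he

theorem P1D (h2 : (2 : ℝ)⁻¹ ∉ O) (he : e * e' = 1 / 4) (hO : 2 * e ∈ O) (hΓ : GamOK Γ s e e')
    (hs : 2 ^ 7 * s / e' ∈ O) : Dt s e e' - DZ O s e e' ∈ KK O Γ := by
  have two : (2 : ℝ) ∈ O := ofNat_mem _ 2
  have a := GSP1a_es he hs
  have r1 := hΓ.rat s (by simp) (s + e) (by simp)
  have r2 := hΓ.rat (s + e') (by simp) (s + e + e') (by simp)
  have e1 : s + e + e' = s + e' + e := by ring
  have k1 := GSP1a_pair h2 hO a r1.1 r1.2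
  have k2 := GSP1a_pair (Γ := Γ) h2 hO (g := s + e')
    (by convert add_mem a (pow_mem two 7) using 1; linear_combination 512 * he)
    (e1 ▸ r2.1) (e1 ▸ r2.2)
  rw [← e1] at k2
  convert sub_mem k2 k1 using 1
  simp only [Dt, DZ]
  abel

theorem GSP1a_pt (h2 : (2 : ℝ)⁻¹ ∉ O) {w : ℝ} (hw : 16 * w ∈ O) (hΓ : mu / (w + mu) ∈ Γ)
    (g : ℝ) : pt g ((w + mu) / g) - pt g (mu / g) ∈ KK O Γ := by
  have two : (2 : ℝ) ∈ O := ofNat_mem _ 2
  by_cases g0 : g = 0
  · simp [g0]
  obtain ⟨a, b, c⟩ := unit2 h2 (t := (w + mu) / mu) (mul_mem (pow_mem two 3) hw)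
    (by unfold mu; ring)
  have k := L3 (Γ := Γ) (x := g) (y := mu / g) (by rwa [inv_div]) a b c
    (by convert pow_mem hw 2 using 1; unfold mu; field_simp; ring)
    (by convert mul_mem (pow_mem two 6) hw using 1; unfold mu; field_simp; ring)
  have e1 : (w + mu) / mu * (mu / g) = (w + mu) / g := by unfold mu; field_simp
  rwa [e1] at k

theorem P1K (h2 : (2 : ℝ)⁻¹ ∉ O) (he : e * e' = 1 / 4) (hO : 2 * e ∈ O) (hΓ : GamOK Γ s e e')
    (hs : 2 ^ 7 * s / e' ∈ O) :
    Kt s e e' (s * (s + e + e') + mu) - Kt s e e' mu ∈ KK O Γ := by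
  have two : (2 : ℝ) ∈ O := ofNat_mem _ 2
  have a := GSP1a_es he hs
  have e0 : e ≠ 0 := fun k => by rw [k] at he; norm_num at he
  have hee : 4 * (e * e') ∈ O := by rw [he]; norm_num
  have pw : 16 * (s * (s + e + e')) ∈ O →
      Kt s e e' (s * (s + e + e') + mu) - Kt s e e' mu ∈ KK O Γ := fun hw => by
    have k := GSP1a_pt h2 hw hΓ.m0
    convert sub_mem (sub_mem (add_mem (k s) (k (s + e + e'))) (k (s + e))) (k (s + e')) using 1
    simp only [Kt]
    abel
  by_cases c1 : 2 * s / e ∈ O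
  · refine pw ?_
    convert add_mem (add_mem (mul_mem (pow_mem c1 2) (pow_mem hO 2))
      (mul_mem two (mul_mem c1 (pow_mem hO 2)))) (mul_mem two (mul_mem c1 hee)) using 1
    field_simp
    ring
  by_cases c2 : 2 * (s + e') / e ∈ O
  · refine pw ?_
    convert mul_mem (add_mem c2 two) (sub_mem (mul_mem c2 (pow_mem hO 2)) (mul_mem two hee))
      using 1
    field_simp
    ring
  obtain ⟨a1, b1⟩ := inv_mem_of_not c1
  obtain ⟨a2, b2⟩ := inv_mem_of_not c2
  rw [inv_div] at b1 b2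
  have s0 : s ≠ 0 := fun k => a1 (by rw [k]; simp)
  have s1 : s + e' ≠ 0 := fun k => a2 (by rw [k]; simp)
  have r1 := (hΓ.rat s (by simp) (s + e) (by simp)).1
  have r2 := (hΓ.rat (s + e') (by simp) (s + e + e') (by simp)).1
  have e1 : s + e + e' = s + e' + e := by ring
  rw [e1] at r2
  have m1 : 2 ^ 10 * (e / s) * mu ∈ O := by
    convert mul_mem (pow_mem two 3) b1 using 1; unfold mu; field_simp; ring
  have m2 : 2 ^ 10 * (e / (s + e')) * mu ∈ O := by
    convert mul_mem (pow_mem two 3) b2 using 1; unfold mu; field_simp; ring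
  have k1 := L2pair h2 s0 r1 b1 m1
  have k2 := L2pair h2 s1 r2 b2 m2
  have k3 := L2pair (ν := s * (s + e + e') + mu) h2 s0 r1 b1 (by
    convert add_mem (add_mem (add_mem (mul_mem two a) (mul_mem (pow_mem two 8) (pow_mem hO 2)))
      (mul_mem (pow_mem two 8) hee)) m1 using 1
    field_simp
    ring)
  have k4 := L2pair (ν := s * (s + e + e') + mu) h2 s1 r2 b2 (by
    convert add_mem (mul_mem (mul_mem two a) (add_mem (one_mem _) (mul_mem two b2))) m2 using 1
    field_simp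
    ring)
  rw [← e1] at k2 k4
  convert add_mem (sub_mem (sub_mem k4 k3) k2) k1 using 1
  simp only [Kt]
  abel

end Pool.Agent.P.MP_6d4b14_an.GS
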