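import Mathlib

/-! The objects in the general solution of the sum form equation. -/

namespace Pool.Agent.P.MP_6d4b14_an.GS

/-- In the polynomial ring over `ℚ` with one variable `X c` for each real `c`: the ideal generated
by all `X (a + b) - X a - X b`, all `X c * X c⁻¹`, and all `X c⁻¹` with `c ∉ M`. -/
noncomputable def rel (M : AddSubgroup ℝ) : Ideal (MvPolynomial ℝ ℚ) :=
  Ideal.span ({x | ∃ a b : ℝ, x = MvPolynomial.X (a + b) - MvPolynomial.X a - MvPolynomial.X b} ∪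
    {x | ∃ c : ℝ, x = MvPolynomial.X c * MvPolynomial.X c⁻¹} ∪
    {x | ∃ c : ℝ, c ∉ M ∧ x = MvPolynomial.X c⁻¹})

/-- The power `X t ^ n` on the coset `b + M`, and zero outside it. -/
noncomputable def mon (M : AddSubgroup ℝ) (b : ℝ) (n : ℕ) : ℝ → MvPolynomial ℝ ℚ :=
  Set.indicator {t | t - b ∈ M} fun t => MvPolynomial.X t ^ n

/-- The valuation balls about `0` that contain `1`: submodules over some valuation subring. -/
def Big : Set (AddSubgroup ℝ) :=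
  {M | ∃ O : ValuationSubring ℝ, 1 ∈ M ∧ ∀ u ∈ O, ∀ x ∈ M, u * x ∈ M}

/-- The first universal solution of the homogeneous system. -/
noncomputable def Psi (z : ℝ) (i : Big × ℝ × ℕ) : MvPolynomial ℝ ℚ ⧸ rel i.1 :=
  Ideal.Quotient.mk (rel i.1)
    (mon i.1 i.2.1 i.2.2 (2 * √z) + mon i.1 i.2.1 i.2.2 (-(2 * √z)) -
      (mon i.1 i.2.1 i.2.2 (2 * √(1 - z)) + mon i.1 i.2.1 i.2.2 (-(2 * √(1 - z)))))

/-- Pairs of a valuation subring of residue characteristic two and a real number outside it. -/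
def Ctr : Set (ValuationSubring ℝ × ℝ) := {p | 2⁻¹ ∉ p.1 ∧ p.2 ∉ p.1}

/-- The second universal solution of the homogeneous system. -/
noncomputable def Theta (z : ℝ) (p : Ctr) : ℚ :=
  Set.indicator {w | (w - p.1.2) ^ 2 / p.1.2 ∈ p.1.1} (fun _ => 1) z -
    Set.indicator {w | (w - p.1.2) ^ 2 / p.1.2 ∈ p.1.1} (fun _ => 1) (1 - z)

/-- On the unit interval `f` is a sum of additive functions of the two universal solutions. -/
def Uni (f : ℝ → ℝ) : Prop :=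
  ∃ (a₁ : ((i : Big × ℝ × ℕ) → MvPolynomial ℝ ℚ ⧸ rel i.1) →+ ℝ) (a₂ : (Ctr → ℚ) →+ ℝ),
    ∀ x ∈ Set.Icc (0 : ℝ) 1, f x = a₁ (Psi x) + a₂ (Theta x)

/-- `p α x` is the term of value `α` in a Hahn expansion of `x`. -/
def Hahn (O : ValuationSubring ℝ) (p : O.ValueGroup → ℝ →+ ℝ) : Prop :=
  ∀ x, (∀ α, O.valuation (p α x) ≤ α) ∧ (∀ α, O.valuation x < α → p α x = 0) ∧
    (x ≠ 0 → O.valuation (x - p (O.valuation x) x) < O.valuation x) ∧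
    {α | p α x ≠ 0}.WellFoundedOn (· > ·)

/-- The six families of particular solutions. -/
def Part (g : ℝ → ℝ) : Prop :=
  (∃ c : ℝ, ∀ x ∈ Set.Icc (0 : ℝ) 1, g x = (2 * c - c ^ 2) * x + (c ^ 2 - c) / 2) ∨
  (∃ c : ℝ, g 0 = 0 ∧ g 1 = 1 ∧
    ∀ x ∈ Set.Ioo (0 : ℝ) 1, g x = (1 - c ^ 2) * x + (c ^ 2 + c) / 2) ∨
  (∀ x ∈ Set.Icc (0 : ℝ) 1, ∀ y ∈ Set.Icc (0 : ℝ) 1, g (x * y) = g x * g y) ∨
  (∃ c : ℝ, ∀ x ∈ Set.Icc (0 : ℝ) 1,
    g x = (c - 2) * (c - 3) / 6 * x + (3 * c - c ^ 2) / 2 * x ^ 2 + (c ^ 2 - 2 * c) / 3 * x ^ 3) ∨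
  (∃ c : ℝ, ∀ x ∈ Set.Icc (0 : ℝ) 1,
    g x = c * (5 - 3 * c) / 2 * x ^ 4 + (c - 1) * (3 * c - 5) / 5 * x ^ 5 +
      c * (c - 1) / 30 * (2 * x - 15 * x ^ 2 + 40 * x ^ 3)) ∨
  ∃ (O : ValuationSubring ℝ) (ρ : O.ValueGroup → ℝ) (s : ℝ →+ ℝ) (p : O.ValueGroup → ℝ →+ ℝ),
    (∀ x ∈ O, ρ (O.valuation x) = 1) ∧ s 1 = 1 ∧ (∀ x, O.valuation x < 1 → s x = 0) ∧ Hahn O p ∧
    ∀ x ∈ Set.Icc (0 : ℝ) 1, g x = ρ (O.valuation x) * s x +
      (∑ᶠ α, (ρ α * ρ (O.valuation x / α) - ρ (O.valuation x)) *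
        s (p α x * p (O.valuation x / α) x / x)) / 2

end Pool.Agent.P.MP_6d4b14_an.GS
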