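import Pool.Agent.P.MP_6d4b14_an.GSDefs

set_option linter.unusedSectionVars false
set_option linter.unusedVariables false

namespace Pool.Agent.P.MP_6d4b14_an.GS

open scoped Classical

theorem GSSufA_one {n : ℕ} (A : MultilinearMap ℚ (fun _ : Fin n => ℝ) ℝ) (d : ℝ)
    (hd : ∀ (v : Fin n → ℝ) i, v i = d → A v = 0) (v : Fin n → ℝ) :
    A (v + fun _ => d) = A v := by
  rw [A.map_add_univ, Finset.sum_eq_single Finset.univ]
  · rw [Finset.piecewise_univ]
  · intro s _ hs
    obtain ⟨i, hi⟩ : ∃ i, i ∉ s := by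
      by_contra hc
      push Not at hc
      exact hs (Finset.eq_univ_of_forall hc)
    exact hd _ i (Finset.piecewise_eq_of_notMem _ _ _ hi)
  · intro h
    exact absurd (Finset.mem_univ _) h

theorem GSSufA_part {n : ℕ} (A : MultilinearMap ℚ (fun _ : Fin n => ℝ) ℝ) (c d : ℝ)
    (hcd : ∀ (v : Fin n → ℝ) i j, i ≠ j → v i = c → v j = d → A v = 0) (t : ℝ)
    (s : Finset (Fin n)) (hs : s ≠ Finset.univ) :
    A (s.piecewise (fun _ => t + c) fun _ => d) = A (s.piecewise (fun _ => t) fun _ => d) := by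
  obtain ⟨j, hj⟩ : ∃ i, i ∉ s := by
    by_contra hc
    push Not at hc
    exact hs (Finset.eq_univ_of_forall hc)
  have e : (s.piecewise (fun _ => t + c) fun _ => d) =
      s.piecewise ((fun _ => c) + s.piecewise (fun _ => t) fun _ => d)
        (s.piecewise (fun _ => t) fun _ => d) := by
    funext i
    by_cases hi : i ∈ s
    · simp [Finset.piecewise_eq_of_mem _ _ _ hi, add_comm]
    · simp [Finset.piecewise_eq_of_notMem _ _ _ hi]
  rw [e, A.map_piecewise_add, Finset.sum_eq_single ∅]
  · rw [Finset.piecewise_empty]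
  · intro u hu hne
    obtain ⟨i, hi⟩ := Finset.nonempty_iff_ne_empty.2 hne
    have his : i ∈ s := Finset.mem_powerset.1 hu hi
    have hju : j ∉ u := fun h => hj (Finset.mem_powerset.1 hu h)
    refine hcd _ i j (fun h => hj (h ▸ his)) (Finset.piecewise_eq_of_mem _ _ _ hi) ?_
    rw [Finset.piecewise_eq_of_notMem _ _ _ hju, Finset.piecewise_eq_of_notMem _ _ _ hj]
  · intro h
    exact absurd (Finset.empty_mem_powerset _) h

theorem GSSufA_two {n : ℕ} (A : MultilinearMap ℚ (fun _ : Fin n => ℝ) ℝ) (c d : ℝ)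
    (hcd : ∀ (v : Fin n → ℝ) i j, i ≠ j → v i = c → v j = d → A v = 0) (t : ℝ) :
    (A fun _ => t + c + d) - (A fun _ => t + c) - (A fun _ => t + d) + (A fun _ => t) = 0 := by
  have ex : ∀ u : ℝ, (A fun _ => u + d) - (A fun _ => u) =
      ∑ s ∈ (Finset.univ : Finset (Finset (Fin n))).erase Finset.univ,
        A (s.piecewise (fun _ => u) fun _ => d) := by
    intro u
    have e : (fun _ : Fin n => u + d) = (fun _ => u) + fun _ => d := rfl
    rw [e, A.map_add_univ, ← Finset.add_sum_erase _ _ (Finset.mem_univ Finset.univ),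
      Finset.piecewise_univ]
    ring
  have h1 := ex (t + c)
  have h2 := ex t
  rw [Finset.sum_congr rfl fun s hs =>
    GSSufA_part A c d hcd t s (Finset.ne_of_mem_erase hs)] at h1
  linarith

theorem Mono.d2 {P : ℝ → ℝ} (h : Mono P) : D2 P := by
  obtain ⟨O, M, a, n, A, hO, h1, h2, rfl⟩ := h
  have hper : ∀ d : ℝ, d⁻¹ ∉ M → ∀ t, Set.indicator {t | t - a ∈ M} (fun t => A fun _ => t) (t + d) =
      Set.indicator {t | t - a ∈ M} (fun t => A fun _ => t) t := by
    intro d hd t
    have hdM : d ∈ M := by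
      rcases O.mem_or_inv_mem d with h | h
      · exact hO _ h
      · exact absurd (hO _ h) hd
    have hiff : t + d - a ∈ M ↔ t - a ∈ M := by
      rw [show t + d - a = t - a + d by ring]
      exact M.add_mem_cancel_right hdM
    by_cases ht : t - a ∈ M
    · rw [Set.indicator_of_mem (show t + d ∈ {t | t - a ∈ M} from hiff.2 ht),
        Set.indicator_of_mem (show t ∈ {t | t - a ∈ M} from ht)]
      exact GSSufA_one A d (fun v i hi => h2 v i (by rw [hi]; exact hd)) fun _ => t
    · rw [Set.indicator_of_notMem (show t + d ∉ {t | t - a ∈ M} from fun h => ht (hiff.1 h)),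
        Set.indicator_of_notMem (show t ∉ {t | t - a ∈ M} from ht)]
  intro c t hc
  by_cases hcM : c ∈ M
  · by_cases hcM' : c⁻¹ ∈ M
    · have hiff : ∀ u d : ℝ, d ∈ M → (u + d - a ∈ M ↔ u - a ∈ M) := by
        intro u d hd
        rw [show u + d - a = u - a + d by ring]
        exact M.add_mem_cancel_right hd
      by_cases ht : t - a ∈ M
      · have m1 : t + c ∈ {t | t - a ∈ M} := (hiff t c hcM).2 ht
        have m2 : t + c⁻¹ ∈ {t | t - a ∈ M} := (hiff t _ hcM').2 ht
        have m3 : t + c + c⁻¹ ∈ {t | t - a ∈ M} := (hiff _ _ hcM').2 m1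
        rw [Set.indicator_of_mem m1, Set.indicator_of_mem m2, Set.indicator_of_mem m3,
          Set.indicator_of_mem (show t ∈ {t | t - a ∈ M} from ht)]
        refine GSSufA_two A c c⁻¹ (fun v i j hij hi hj => h1 v i j hij ?_) t
        rw [hi, hj, mul_inv_cancel₀ hc]
      · have m1 : t + c ∉ {t | t - a ∈ M} := fun h => ht ((hiff t c hcM).1 h)
        have m2 : t + c⁻¹ ∉ {t | t - a ∈ M} := fun h => ht ((hiff t _ hcM').1 h)
        have m3 : t + c + c⁻¹ ∉ {t | t - a ∈ M} := fun h => m1 ((hiff _ _ hcM').1 h)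
        rw [Set.indicator_of_notMem m1, Set.indicator_of_notMem m2, Set.indicator_of_notMem m3,
          Set.indicator_of_notMem (show t ∉ {t | t - a ∈ M} from ht)]
        ring
    · rw [show t + c + c⁻¹ = t + c⁻¹ + c by ring, hper c hcM', hper c hcM']
      ring
  · have hc' : (c⁻¹)⁻¹ ∉ M := by rwa [inv_inv]
    rw [hper _ hc', hper _ hc']
    ring

end Pool.Agent.P.MP_6d4b14_an.GS
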