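import Pool.Agent.P.MP_6d4b14_an.GSMain

set_option linter.unusedSectionVars false
set_option linter.unusedVariables false

namespace Pool.Agent.P.MP_6d4b14_an.GS

open scoped Classical

theorem GSUni_elem (i : Big × ℝ × ℕ) (φ : (MvPolynomial ℝ ℚ ⧸ rel i.1) →ₗ[ℚ] ℚ) :
    Elem fun z => algebraMap ℚ ℝ (φ (Psi z i)) := by
  obtain ⟨⟨M, O, hO1, hO2⟩, b, n⟩ := i
  have hO : ∀ x ∈ O, x ∈ M := fun x hx => by simpa using hO2 x hx 1 hO1
  let L : ℝ →+ MvPolynomial ℝ ℚ ⧸ rel M :=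
    AddMonoidHom.mk' (fun c => Ideal.Quotient.mk (rel M) (MvPolynomial.X c)) fun a c => by
      rw [← map_add, Ideal.Quotient.eq, ← sub_sub]
      exact Ideal.subset_span (Or.inl (Or.inl ⟨a, c, rfl⟩))
  let A : MultilinearMap ℚ (fun _ : Fin n => ℝ) ℝ :=
    (Algebra.linearMap ℚ ℝ ∘ₗ φ).compMultilinearMap
      ((MultilinearMap.mkPiAlgebra ℚ (Fin n) (MvPolynomial ℝ ℚ ⧸ rel M)).compLinearMap
        fun _ => L.toRatLinearMap)
  have hA : ∀ v, A v = algebraMap ℚ ℝ (φ (Ideal.Quotient.mk (rel M)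
      (∏ i, MvPolynomial.X (v i)))) := fun v => by
    rw [map_prod]
    rfl
  have hP : ∀ t, (Set.indicator {t | t - b ∈ M} fun t => A fun _ => t) t =
      algebraMap ℚ ℝ (φ (Ideal.Quotient.mk (rel M) (mon M b n t))) := fun t => by
    by_cases h : t ∈ {t | t - b ∈ M}
    · rw [mon, Set.indicator_of_mem h, Set.indicator_of_mem h, hA, Finset.prod_const,
        Finset.card_univ, Fintype.card_fin]
    · rw [mon, Set.indicator_of_notMem h, Set.indicator_of_notMem h, map_zero, map_zero, map_zero]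
  refine ⟨_, fun z => ?_, Or.inl ⟨_, ⟨O, M, b, n, A, hO, fun v i j hij hv => ?_,
    fun v i hv => ?_, rfl⟩, fun z => rfl⟩⟩
  · simp only [hP, Psi, map_add, map_sub]
  · rw [hA, Ideal.Quotient.eq_zero_iff_mem.2, map_zero, map_zero]
    refine Ideal.mem_of_dvd _ ?_ (Ideal.subset_span (Or.inl (Or.inr ⟨v i, rfl⟩)))
    rw [← eq_inv_of_mul_eq_one_right hv,
      ← Finset.prod_pair (f := fun i => (MvPolynomial.X (v i) : MvPolynomial ℝ ℚ)) hij]
    exact Finset.prod_dvd_prod_of_subset _ _ _ (Finset.subset_univ _)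
  · rw [hA, Ideal.Quotient.eq_zero_iff_mem.2, map_zero, map_zero]
    exact Ideal.mem_of_dvd _ (Finset.dvd_prod_of_mem _ (Finset.mem_univ i))
      (Ideal.subset_span (Or.inr ⟨_, hv, by rw [inv_inv]⟩))

theorem GSUni_ball (p : Ctr) :
    Elem fun z => algebraMap ℚ ℝ (Theta z p) := by
  refine ⟨_, fun z => ?_, Or.inr ⟨p.1.1, p.1.2, p.2.2, rfl⟩⟩
  simp only [Theta, Set.indicator]
  split_ifs <;> simp

theorem GSUni_suf (a₁ : ((i : Big × ℝ × ℕ) → MvPolynomial ℝ ℚ ⧸ rel i.1) →+ ℝ)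
    (a₂ : (Ctr → ℚ) →+ ℝ) :
    HH fun z => a₁ (Psi z) + a₂ (Theta z) := by
  refine ⟨fun x hx => ?_, fun x hx y hy => ?_⟩
  · have e1 : Psi x + Psi (1 - x) = 0 := by
      funext i
      simp only [Psi, Pi.add_apply, Pi.zero_apply, sub_sub_cancel, map_sub]
      abel
    have e2 : Theta x + Theta (1 - x) = 0 := by
      funext p
      simp only [Theta, Pi.add_apply, Pi.zero_apply, sub_sub_cancel]
      abel
    have k1 := congrArg a₁ e1
    have k2 := congrArg a₂ e2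
    rw [map_add, map_zero] at k1 k2
    linarith
  · have e1 : Psi (x * y) + Psi (x * (1 - y)) + Psi ((1 - x) * y) +
        Psi ((1 - x) * (1 - y)) = 0 := by
      funext i
      simp only [Pi.add_apply, Pi.zero_apply]
      rw [← Module.forall_dual_apply_eq_zero_iff ℚ]
      intro φ
      apply (algebraMap ℚ ℝ).injective
      simp only [map_add, map_zero]
      exact (GSUni_elem i φ).hh.2 x hx y hy
    have e2 : Theta (x * y) + Theta (x * (1 - y)) + Theta ((1 - x) * y) +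
        Theta ((1 - x) * (1 - y)) = 0 := by
      funext p
      apply (algebraMap ℚ ℝ).injective
      simp only [Pi.add_apply, Pi.zero_apply, map_add, map_zero]
      exact (GSUni_ball p).hh.2 x hx y hy
    have k1 := congrArg a₁ e1
    have k2 := congrArg a₂ e2
    simp only [map_add, map_zero] at k1 k2
    linarith

theorem GSUni_cut (M : AddSubgroup ℝ) {O₀ : ValuationSubring ℝ} (h0 : ∀ x ∈ O₀, x ∈ M) :
    ∃ N ∈ Big, N ≤ M ∧ ∀ c, c ∉ N → SymmetricAlgebra.ι ℚ ℝ c⁻¹ ∈ jj M := by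
  obtain ⟨O, hO⟩ := lemV M
    (M ⊓ (jj M).toAddSubgroup.comap (SymmetricAlgebra.ι ℚ ℝ).toAddMonoidHom) fun a ha =>
      ⟨h0 _ ((O₀.mem_or_inv_mem a).resolve_left fun k => ha (h0 a k)),
        GSSyn_one M (by rwa [inv_inv])⟩
  let N : AddSubgroup ℝ :=
    { carrier := {x | ∀ u ∈ O, u * x ∈ M}
      zero_mem' := fun u _ => by simp
      add_mem' := fun {a b} ha hb u hu => by
        rw [mul_add]
        exact M.add_mem (ha u hu) (hb u hu)
      neg_mem' := fun {a} ha u hu => by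
        rw [mul_neg]
        exact M.neg_mem (ha u hu) }
  refine ⟨N, ⟨O, fun u hu => ?_, fun u hu x hx w hw => ?_⟩, fun x hx => ?_, fun c hc => ?_⟩
  · by_contra k
    rw [mul_one] at k
    exact hO u u k (fun k' => k k'.1) (O.mul_mem _ _ hu hu)
  · rw [← mul_assoc]
    exact hx _ (O.mul_mem _ _ hw hu)
  · simpa using hx 1 O.one_mem
  · have c0 : c ≠ 0 := fun e => hc (e ▸ N.zero_mem)
    have hc' : ¬∀ u ∈ O, u * c ∈ M := hc
    push Not at hc'
    obtain ⟨u, hu, k⟩ := hc'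
    by_contra k'
    refine hO (u * c) c⁻¹ k (fun e => k' e.2) ?_
    rwa [mul_inv_cancel_right₀ c0]

theorem GSUni_fib {V : Type} [AddCommGroup V] (J : AddSubgroup V) {M N : AddSubgroup ℝ}
    (hN : N ≤ M) (S : Finset ℝ) (φ : ℝ → V)
    (h : ∀ b, ∑ g ∈ S.filter fun g => 2 * g - b ∈ N, φ g ∈ J) (b : ℝ) :
    ∑ g ∈ S.filter fun g => 2 * g - b ∈ M, φ g ∈ J := by
  rw [← Finset.sum_fiberwise_of_maps_to
    (g := fun g => (QuotientAddGroup.mk (2 * g) : ℝ ⧸ N))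
    (t := (S.filter fun g => 2 * g - b ∈ M).image fun g => (QuotientAddGroup.mk (2 * g) : ℝ ⧸ N))
    fun g hg => Finset.mem_image_of_mem _ hg]
  refine J.sum_mem fun q hq => ?_
  obtain ⟨g₀, h0, rfl⟩ := Finset.mem_image.1 hq
  convert h (2 * g₀) using 2
  ext g
  simp only [Finset.mem_filter, QuotientAddGroup.eq_iff_sub_mem] at h0 ⊢
  refine ⟨fun k => ⟨k.1.1, k.2⟩, fun k => ⟨⟨k.1, ?_⟩, k.2⟩⟩
  have := M.add_mem (hN k.2) h0.2
  rwa [sub_add_sub_cancel] at this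

theorem GSUni_ker {f : ℝ → ℝ} (h : HH f) (m : ℝ →₀ ℚ)
    (hm : ∀ z ∈ m.support, z ∈ Set.Icc (0 : ℝ) 1)
    (h1 : Finsupp.linearCombination ℚ Psi m = 0) (h2 : Finsupp.linearCombination ℚ Theta m = 0) :
    Finsupp.linearCombination ℚ f m = 0 := by
  obtain ⟨F, hF, e⟩ := ext_glob h
  have sq1 : ∀ z ∈ m.support, √z ^ 2 = z := fun z hz => Real.sq_sqrt (hm z hz).1
  have sq2 : ∀ z ∈ m.support, √(1 - z) ^ 2 = 1 - z := fun z hz =>
    Real.sq_sqrt (sub_nonneg.2 (hm z hz).2)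
  have k := nec hF (m := GSNec_r m) (syn_raw _ fun O M hO b n => ?_) fun O hO a ha => ?_
  · rw [GSNec_ev, GSNec_congr (ψ := fun z => 4 * f z), GSNec_mul] at k
    · exact (mul_eq_zero.1 k).resolve_left four_ne_zero
    · intro z hz
      have a := hm z hz
      have b := h.1 z a
      simp only [neg_sq, sq1 z hz, sq2 z hz, e z a,
        e (1 - z) ⟨sub_nonneg.2 a.2, by linarith [a.1]⟩]
      linarith
  · obtain ⟨N, hN, hle, hc⟩ := GSUni_cut M hO
    refine GSUni_fib (jj M).toAddSubgroup hle _ _ (fun b => ?_) b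
    have k := congrFun h1 ⟨⟨N, hN⟩, b, n⟩
    have k2 : Finsupp.linearCombination ℚ (fun g => mon N b n (2 * g)) (GSNec_r m) ∈ rel N := by
      rw [GSNec_ev, ← Ideal.Quotient.eq_zero_iff_mem, ← Ideal.Quotient.mkₐ_eq_mk ℚ]
      simpa only [Finsupp.linearCombination_apply, Finsupp.sum, Finset.sum_apply, Pi.smul_apply,
        Psi, mul_neg, Pi.zero_apply, map_sum, map_smul, Ideal.Quotient.mkₐ_eq_mk] using k
    let ψ : MvPolynomial ℝ ℚ →ₐ[ℚ] SymmetricAlgebra ℚ ℝ :=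
      MvPolynomial.aeval fun c => SymmetricAlgebra.ι ℚ ℝ c
    have hψ : ∀ c, ψ (MvPolynomial.X c) = SymmetricAlgebra.ι ℚ ℝ c := fun c =>
      MvPolynomial.aeval_X _ c
    have le : rel N ≤ (jj M).comap ψ := by
      refine Ideal.span_le.2 ?_
      rintro _ ((⟨a, c, rfl⟩ | ⟨c, rfl⟩) | ⟨c, hc', rfl⟩) <;>
        simp only [SetLike.mem_coe, Ideal.mem_comap, map_sub, map_mul, hψ]
      · simp
      · by_cases h0 : c = 0
        · simp [h0]
        · exact GSSyn_two M (mul_inv_cancel₀ h0)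
      · exact hc c hc'
    have k3 := Ideal.mem_comap.1 (le k2)
    rw [Finsupp.linearCombination_apply, Finsupp.sum, map_sum] at k3
    rw [Finset.sum_filter]
    change _ ∈ jj M
    convert k3 using 2 with g
    by_cases hg : 2 * g - b ∈ N
    · rw [if_pos hg, mon, Set.indicator_of_mem (show 2 * g ∈ {t | t - b ∈ N} from hg), map_smul,
        map_pow, hψ]
    · rw [if_neg hg, mon, Set.indicator_of_notMem (show 2 * g ∉ {t | t - b ∈ N} from hg),
        smul_zero, map_zero]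
  · have k := congrFun h2 ⟨(O, a), hO, ha⟩
    rw [GSNec_ev, GSNec_congr (ψ := fun z => (2 : ℚ) • Theta z ⟨(O, a), hO, ha⟩)]
    · simp only [Finsupp.linearCombination_apply, Finsupp.sum, Finset.sum_apply, Pi.smul_apply,
        Pi.zero_apply] at k
      simp only [Finsupp.linearCombination_apply, Finsupp.sum, smul_comm _ (2 : ℚ),
        ← Finset.smul_sum, k, smul_zero]
    · intro z hz
      simp only [Theta, neg_sq, sq1 z hz, sq2 z hz, Set.indicator, Set.mem_ofPred_eq]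
      split_ifs <;> norm_num

theorem GSUni_fac {U V : Type} [AddCommGroup U] [Module ℚ U] [AddCommGroup V] [Module ℚ V]
    (L1 : U →ₗ[ℚ] V) (L2 : U →ₗ[ℚ] ℝ) (hk : LinearMap.ker L1 ≤ LinearMap.ker L2) :
    ∃ a : V →ₗ[ℚ] ℝ, ∀ m, a (L1 m) = L2 m := by
  obtain ⟨a, ha⟩ := LinearMap.exists_extend
    (((LinearMap.ker L1).liftQ L2 hk).comp L1.quotKerEquivRange.symm.toLinearMap)
  refine ⟨a, fun m => ?_⟩
  have h3 := LinearMap.congr_fun ha ⟨L1 m, LinearMap.mem_range_self L1 m⟩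
  rw [LinearMap.comp_apply, LinearMap.comp_apply, LinearEquiv.coe_coe,
    LinearMap.quotKerEquivRange_symm_apply_image] at h3
  exact h3

theorem GSUni_nec {f : ℝ → ℝ} (h : HH f) : Uni f := by
  let V : Submodule ℚ (ℝ →₀ ℚ) := Finsupp.supported ℚ ℚ (Set.Icc (0 : ℝ) 1)
  obtain ⟨a, h2⟩ := GSUni_fac
    (((Finsupp.linearCombination ℚ Psi).prod (Finsupp.linearCombination ℚ Theta)) ∘ₗ V.subtype)
    (Finsupp.linearCombination ℚ f ∘ₗ V.subtype) fun m hm =>
    GSUni_ker h m.1 (fun z hz => (Finsupp.mem_supported ℚ m.1).1 m.2 (Finset.mem_coe.2 hz))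
      (congrArg Prod.fst (LinearMap.mem_ker.1 hm)) (congrArg Prod.snd (LinearMap.mem_ker.1 hm))
  refine ⟨(a ∘ₗ LinearMap.inl ℚ _ _).toAddMonoidHom, (a ∘ₗ LinearMap.inr ℚ _ _).toAddMonoidHom,
    fun z hz => ?_⟩
  have k := h2 ⟨Finsupp.single z 1, Finsupp.single_mem_supported ℚ 1 hz⟩
  simp only [LinearMap.comp_apply, Submodule.subtype_apply, LinearMap.prod_apply,
    Finsupp.linearCombination_single, one_smul, Function.prod] at k
  rw [← k]
  simp only [LinearMap.toAddMonoidHom_coe, LinearMap.comp_apply, ← map_add, LinearMap.inl_apply,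
    LinearMap.inr_apply, Prod.mk_add_mk, add_zero, zero_add]

theorem main_uni (g : ℝ → ℝ) :
    TR.HE g ↔ ∃ g₀ f : ℝ → ℝ, Part g₀ ∧ Uni f ∧ ∀ x ∈ Set.Icc (0 : ℝ) 1, g x = g₀ x + f x := by
  rw [main]
  constructor
  · rintro ⟨g₀, f, hp, hf, e⟩
    exact ⟨g₀, f, hp, GSUni_nec hf.hh, e⟩
  · rintro ⟨g₀, f, hp, ⟨a₁, a₂, k⟩, e⟩
    exact ⟨g₀, f, hp, (GSSufB_congr (GSUni_suf a₁ a₂) k).hom, e⟩

theorem GSUni_example (O : ValuationSubring ℝ) (a : ℝ →+ ℝ) (ha : ∀ x ∈ O, a x = 0) (n : ℕ) :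
    Uni fun x => a √x ^ (2 * n) - a √(1 - x) ^ (2 * n) := by
  let ψ : MvPolynomial ℝ ℚ →ₐ[ℚ] ℝ := MvPolynomial.aeval fun c => a c
  have hψ : ∀ c, ψ (MvPolynomial.X c) = a c := fun c => MvPolynomial.aeval_X _ c
  have le : ∀ x ∈ rel ⊤, ψ x = 0 := by
    have : rel ⊤ ≤ RingHom.ker ψ := by
      refine Ideal.span_le.2 ?_
      rintro _ ((⟨b, c, rfl⟩ | ⟨c, rfl⟩) | ⟨c, hc, rfl⟩) <;>
        simp only [SetLike.mem_coe, RingHom.mem_ker, map_sub, map_mul, hψ]
      · simp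
      · rcases O.mem_or_inv_mem c with k | k <;> simp [ha _ k]
      · exact (hc trivial).elim
    exact fun x hx => this hx
  let i : Big × ℝ × ℕ := ⟨⟨⊤, O, trivial, fun _ _ _ _ => trivial⟩, 0, 2 * n⟩
  let φ : (MvPolynomial ℝ ℚ ⧸ rel ⊤) →+ ℝ := (Ideal.Quotient.lift (rel ⊤) ψ.toRingHom le).toAddMonoidHom
  refine ⟨(AddMonoidHom.mulLeft (2 * 2 ^ (2 * n))⁻¹).comp (φ.comp (Pi.evalAddMonoidHom _ i)), 0,
    fun x _ => ?_⟩
  have e : ∀ t, ψ (mon ⊤ 0 (2 * n) t) = a t ^ (2 * n) := fun t => by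
    rw [mon, Set.indicator_of_mem (by trivial), map_pow, hψ]
  have e2 : ∀ t : ℝ, a (2 * t) = 2 * a t := fun t => by rw [two_mul, two_mul, map_add]
  have k : φ (Psi x i) = ψ (mon ⊤ 0 (2 * n) (2 * √x) + mon ⊤ 0 (2 * n) (-(2 * √x)) -
      (mon ⊤ 0 (2 * n) (2 * √(1 - x)) + mon ⊤ 0 (2 * n) (-(2 * √(1 - x))))) := rfl
  simp only [AddMonoidHom.comp_apply, Pi.evalAddMonoidHom_apply, AddMonoidHom.coe_mulLeft,
    AddMonoidHom.zero_apply, add_zero, k, map_sub, map_add, e, map_neg, e2,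
    (even_two_mul n).neg_pow, mul_pow]
  field_simp
  ring

end Pool.Agent.P.MP_6d4b14_an.GS
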