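import Pool.Agent.P.MP_6d4b14_an.Defs

namespace Pool.Agent.P.MP_6d4b14_an

open unitInterval

/-- The equation at one pair of points of a field. -/
def EAt {K : Type*} [Field K] (g : K → ℝ) (x y : K) : Prop :=
  g (x * y) + g (x * (1 - y)) + g ((1 - x) * y) + g ((1 - x) * (1 - y))
    = (g x + g (1 - x)) * (g y + g (1 - y))

lemma EAt.symm {K : Type*} [Field K] {g : K → ℝ} {x y : K} (h : EAt g x y) : EAt g y x := by
  unfold EAt at *
  rw [mul_comm y x, mul_comm y (1 - x), mul_comm (1 - y) x, mul_comm (1 - y) (1 - x)]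
  linear_combination h

section
variable {K : Type*} [Field K] {Γ : Type*} [LinearOrderedCommGroupWithZero Γ]
  (v : Valuation K Γ) (g : K → ℝ)

lemma G_zero_of_big (hodd : ∀ z, g (-z) = - g z)
    (hc : ∀ z h, 1 < v z → v h ^ 2 ≤ v z → g (z + h) = g z) {y : K} (hy : 1 < v y) :
    g y + g (1 - y) = 0 := by
  have h1 : g (-y + 1) = g (-y) := hc (-y) 1 (by simpa using hy) (by simpa using hy.le)
  have : (1 - y) = -y + 1 := by ring
  rw [this, h1, hodd]; ring

/-- One column of the equation: `g (x y) + g (x (1 - y)) = 0` for integral `x` and big `y`. -/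
lemma col_zero (hodd : ∀ z, g (-z) = - g z)
    (hb : ∀ z h, v z ≤ 1 → v h < 1 → g (z + h) = g z)
    (hc : ∀ z h, 1 < v z → v h ^ 2 ≤ v z → g (z + h) = g z) {x y : K}
    (hx : v x ≤ 1) (hy : 1 < v y) : g (x * y) + g (x * (1 - y)) = 0 := by
  have e : x * (1 - y) = -(x * y) + x := by ring
  rw [e]
  rcases le_or_gt (v (x * y)) 1 with h | h
  · have hx1 : v x < 1 := by
      by_contra hcon
      have hx' : v x = 1 := le_antisymm hx (not_lt.mp hcon)
      rw [map_mul, hx', one_mul] at h
      exact absurd hy (not_lt.mpr h)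
    rw [hb _ _ (by simpa using h) hx1, hodd]; ring
  · have : v x ^ 2 ≤ v (-(x * y)) := by
      rw [Valuation.map_neg]
      exact (pow_le_one₀ zero_le hx).trans h.le
    rw [hc _ _ (by simpa using h) this, hodd]; ring

lemma big_one_sub {y : K} (hy : 1 < v y) : v (1 - y) = v y := by
  have : (1 - y) = -y + 1 := by ring
  rw [this, v.map_add_eq_of_lt_left (by simpa using hy), Valuation.map_neg]

lemma col_zero_big (hodd : ∀ z, g (-z) = - g z)
    (hc : ∀ z h, 1 < v z → v h ^ 2 ≤ v z → g (z + h) = g z) {x y : K}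
    (hx : 1 < v x) (hxy : v x ≤ v y) : g (x * y) + g (x * (1 - y)) = 0 := by
  have e : x * (1 - y) = -(x * y) + x := by ring
  have hy : 1 < v y := lt_of_lt_of_le hx hxy
  have h1 : 1 < v (-(x * y)) := by
    rw [Valuation.map_neg, map_mul]
    exact lt_of_lt_of_le hy (le_mul_of_one_le_left' hx.le)
  have h2 : v x ^ 2 ≤ v (-(x * y)) := by
    rw [Valuation.map_neg, map_mul, sq]
    exact mul_le_mul_right hxy _
  rw [e, hc _ _ h1 h2, hodd]; ring

theorem glue (hodd : ∀ z, g (-z) = - g z)
    (ha : ∀ x y, v x ≤ 1 → v y ≤ 1 → EAt g x y)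
    (hb : ∀ z h, v z ≤ 1 → v h < 1 → g (z + h) = g z)
    (hc : ∀ z h, 1 < v z → v h ^ 2 ≤ v z → g (z + h) = g z) (x y : K) : EAt g x y := by
  have small : ∀ x : K, v x ≤ 1 → v (1 - x) ≤ 1 := fun x hx =>
    (v.map_sub 1 x).trans (max_le (by simp) hx)
  have mixed : ∀ x y : K, v x ≤ 1 → 1 < v y → EAt g x y := by
    intro x y hx hy
    unfold EAt
    have h1 := col_zero v g hodd hb hc hx hy
    have h2 := col_zero v g hodd hb hc (small x hx) hy
    rw [G_zero_of_big v g hodd hc hy]
    linear_combination h1 + h2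
  have big : ∀ x y : K, 1 < v x → v x ≤ v y → EAt g x y := by
    intro x y hx hxy
    unfold EAt
    have h1 := col_zero_big v g hodd hc hx hxy
    have h2 := col_zero_big v g hodd hc (x := 1 - x) (y := y)
      (by rwa [big_one_sub v hx]) (by rwa [big_one_sub v hx])
    rw [G_zero_of_big v g hodd hc hx]
    linear_combination h1 + h2
  rcases le_or_gt (v x) 1 with hx | hx <;> rcases le_or_gt (v y) 1 with hy | hy
  · exact ha x y hx hy
  · exact mixed x y hx hy
  · exact (mixed y x hy hx).symm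
  · rcases le_total (v x) (v y) with h | h
    · exact big x y hx h
    · exact (big y x hy h).symm

end

lemma solvesE_of_EAt (g : ℝ → ℝ) (h : ∀ x y, EAt g x y) : SolvesE (fun x : I => g x) := by
  intro x y
  have := h x y
  unfold EAt at this
  simpa [coe_symm_eq] using this

end Pool.Agent.P.MP_6d4b14_an
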