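import Pool.Agent.P.MP_6d4b14_an.Family

namespace Pool.Agent.P.MP_6d4b14_an

open unitInterval Polynomial

/-- A valuation ring of the reals containing the rationals in which `t` has a pole. -/
lemma exists_val_transc (t : ℝ) (ht : Transcendental ℚ t) :
    ∃ O : ValuationSubring ℝ, (∀ q : ℚ, (q : ℝ) ∈ O) ∧ t ∉ O := by
  have ht0 : t ≠ 0 := by
    rintro rfl
    exact ht isAlgebraic_zero
  have hs : Transcendental ℚ t⁻¹ := fun h => ht (by simpa using h.inv)
  let A : Subring ℝ := (Algebra.adjoin ℚ {t⁻¹}).toSubring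
  have hsA : t⁻¹ ∈ A := Algebra.subset_adjoin rfl
  have hI : Ideal.span {(⟨t⁻¹, hsA⟩ : A)} ≠ ⊤ := by
    rw [Ne, Ideal.span_singleton_eq_top]
    intro hu
    obtain ⟨⟨b, hb⟩, e⟩ := isUnit_iff_exists_inv.mp hu
    have e' : t⁻¹ * b = 1 := congrArg Subtype.val e
    have hb' : b ∈ Algebra.adjoin ℚ {t⁻¹} := hb
    rw [Algebra.adjoin_singleton_eq_range_aeval] at hb'
    obtain ⟨p, hp⟩ := hb'
    apply hs
    refine ⟨X * p - 1, ?_, ?_⟩
    · intro h0
      have := congrArg (Polynomial.eval 0) h0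
      simp at this
    · have hp' : aeval t⁻¹ p = b := hp
      simp [hp', e']
  obtain ⟨B, hAB, hB⟩ := Ideal.image_subset_nonunits_valuationSubring _ hI
  refine ⟨B, fun q => hAB ?_, ?_⟩
  · exact (Algebra.adjoin ℚ {t⁻¹}).algebraMap_mem q
  · have : t⁻¹ ∈ B.nonunits := hB ⟨⟨t⁻¹, hsA⟩, Ideal.mem_span_singleton_self _, rfl⟩
    rcases B.inv_mem_nonunits_iff.mp this with h | h
    · exact absurd h ht0
    · exact h

lemma mem_of_algebraic (O : ValuationSubring ℝ) (hO : ∀ q : ℚ, (q : ℝ) ∈ O) (x : ℝ)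
    (hx : IsAlgebraic ℚ x) : x ∈ O := by
  have hint : IsIntegral ℚ x := hx.isIntegral
  let φ : ℚ →+* O := (Rat.castHom ℝ).codRestrict O.toSubring (fun q => hO q)
  obtain ⟨p, hp, hpx⟩ := hint
  have : IsIntegral O x := by
    refine ⟨p.map φ, hp.map φ, ?_⟩
    rw [Polynomial.eval₂_map]
    exact hpx
  obtain ⟨y, hy⟩ := IsIntegrallyClosed.isIntegral_iff.mp this
  rw [← hy]; exact y.2

/-- An additive function with value one at one, vanishing on the maximal ideal. -/
lemma exists_additive (O : ValuationSubring ℝ) (hO : ∀ q : ℚ, (q : ℝ) ∈ O) :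
    ∃ C : ℝ →+ ℝ, C 1 = 1 ∧ ∀ h, O.valuation h < 1 → C h = 0 := by
  let W : Submodule ℚ ℝ :=
    { carrier := {h | O.valuation h < 1}
      add_mem' := fun ha hb => O.valuation.map_add_lt ha hb
      zero_mem' := by simp
      smul_mem' := by
        intro q x hx
        have hq : O.valuation (q : ℝ) ≤ 1 := (O.valuation_le_one_iff _).mpr (hO q)
        change O.valuation (q • x) < 1
        rw [Rat.smul_def, map_mul]
        exact lt_of_le_of_lt (mul_le_of_le_one_left' hq) hx }
  have h1 : (1 : ℝ) ∉ W := by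
    change ¬ O.valuation 1 < 1
    simp
  obtain ⟨f, hf1, hf⟩ := W.exists_dual_map_eq_bot_of_notMem h1 inferInstance
  refine ⟨((Rat.castHom ℝ).toAddMonoidHom.comp ((f 1)⁻¹ • f).toAddMonoidHom), ?_, ?_⟩
  · simp [hf1]
  · intro h hh
    have : f h = 0 := by
      have : f h ∈ W.map f := Submodule.mem_map_of_mem hh
      rw [hf] at this
      simpa using this
    simp [this]

theorem indicator_of_subring (O : ValuationSubring ℝ) (hO : ∀ q : ℚ, (q : ℝ) ∈ O) :
    ∃ g : I → ℝ, SolvesE g ∧ (∀ x : I, (x : ℝ) ∈ O → g x + g (σ x) = 1) ∧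
      (∀ x : I, (x : ℝ) ∉ O → g x + g (σ x) = 0) := by
  classical
  obtain ⟨C, hC1, hC⟩ := exists_additive O hO
  set v := O.valuation
  let f : ℝ → ℝ := fun z => if v z ≤ 1 then C z else 0
  have hodd : ∀ z, f (-z) = - f z := by
    intro z
    simp only [f, Valuation.map_neg]
    split_ifs <;> simp
  have hin : ∀ z, v z ≤ 1 → f z = C z := fun z hz => if_pos hz
  have hout : ∀ z h, 1 < v z → v h ^ 2 ≤ v z → f (z + h) = f z := by
    intro z h hz hh
    have hlt : v h < v z := by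
      by_contra hcon
      have h1 : v z ≤ v h := not_lt.mp hcon
      have h2 : v z ^ 2 ≤ v z := (pow_le_pow_left₀ zero_le h1 2).trans hh
      have h0 : 0 < v z := lt_trans zero_lt_one hz
      rw [sq] at h2
      exact absurd h2 (not_le.mpr (lt_mul_of_one_lt_left h0 hz))
    have e : v (z + h) = v z := v.map_add_eq_of_lt_left hlt
    simp only [f, e, if_neg (not_le.mpr hz)]
  refine ⟨fun x => f x, solvesE_of_EAt f (EAt_of_additive v C (Or.inr hC1) hC f hodd hin hout),
    fun x hx => ?_, fun x hx => ?_⟩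
  · have := G_of_additive v C f hodd hin hout x
    rw [if_pos ((O.valuation_le_one_iff _).mpr hx), hC1] at this
    simpa [coe_symm_eq] using this
  · have := G_of_additive v C f hodd hin hout x
    rw [if_neg (fun h => hx ((O.valuation_le_one_iff _).mp h))] at this
    simpa [coe_symm_eq] using this

theorem indicator (t : I) (ht : Transcendental ℚ (t : ℝ)) :
    ∃ g : I → ℝ, SolvesE g ∧ (∀ x : I, g x + g (σ x) = 0 ∨ g x + g (σ x) = 1) ∧
      (∀ x : I, IsAlgebraic ℚ (x : ℝ) → g x + g (σ x) = 1) ∧ g t + g (σ t) = 0 := by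
  obtain ⟨O, hO, htO⟩ := exists_val_transc t ht
  obtain ⟨g, hg, h1, h0⟩ := indicator_of_subring O hO
  refine ⟨g, hg, fun x => ?_, fun x hx => h1 x (mem_of_algebraic O hO x hx), h0 t htO⟩
  by_cases hx : (x : ℝ) ∈ O
  · exact Or.inr (h1 x hx)
  · exact Or.inl (h0 x hx)

end Pool.Agent.P.MP_6d4b14_an
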