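import Pool.Agent.P.MP_6d4b14_an.FinRank

namespace Pool.Agent.P.MP_6d4b14_an

open unitInterval MeasureTheory

lemma exists_val3 : ∃ O : ValuationSubring ℝ, O.valuation 3 < 1 := by
  let A : Subring ℝ := ⊥
  have h3 : (3 : ℝ) ∈ A := by
    simp
  have hI : Ideal.span {(⟨3, h3⟩ : A)} ≠ ⊤ := by
    rw [Ne, Ideal.span_singleton_eq_top]
    intro hu
    obtain ⟨⟨b, hb⟩, e⟩ := isUnit_iff_exists_inv.mp hu
    obtain ⟨n, hn⟩ := Subring.mem_bot.mp hb
    have e' : (3 : ℝ) * b = 1 := congrArg Subtype.val e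
    rw [← hn] at e'
    have : (3 : ℤ) * n = 1 := by exact_mod_cast e'
    omega
  obtain ⟨B, -, hB⟩ := Ideal.image_subset_nonunits_valuationSubring _ hI
  refine ⟨B, B.mem_nonunits_iff.mp (hB ⟨⟨3, h3⟩, Ideal.mem_span_singleton_self _, rfl⟩)⟩

section
variable {Γ : Type*} [LinearOrderedCommGroupWithZero Γ] (v : Valuation ℝ Γ)

open Classical in
/-- The leading digit function at valuation level one. -/
noncomputable def lead (z : ℝ) : ℝ :=
  if v (3 * z - 1) < 1 then 1 else if v (3 * z + 1) < 1 then -1 else 0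

variable (h3 : v 3 < 1)
include h3

lemma not_both (z : ℝ) (h1 : v (3 * z - 1) < 1) (h2 : v (3 * z + 1) < 1) : False := by
  have e : (1 : ℝ) = 3 + ((3 * z - 1) - (3 * z + 1)) := by ring
  have : v (1 : ℝ) < 1 := by
    rw [e]
    exact v.map_add_lt h3 (v.map_sub_lt h1 h2)
  simp at this

lemma lead_odd (z : ℝ) : lead v (-z) = - lead v z := by
  unfold lead
  have e1 : v (3 * -z - 1) = v (3 * z + 1) := by
    rw [← v.map_neg]; congr 1; ring
  have e2 : v (3 * -z + 1) = v (3 * z - 1) := by
    rw [← v.map_neg]; congr 1; ring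
  rw [e1, e2]
  split_ifs with a b b
  · exact (not_both v h3 z b a).elim
  · simp
  · simp
  · simp

lemma lead_of_ne (z : ℝ) (hz : v (3 * z) ≠ 1) : lead v z = 0 := by
  unfold lead
  have a : ¬ v (3 * z - 1) < 1 := by
    intro h
    apply hz
    have e : 3 * z = 1 + (3 * z - 1) := by ring
    rw [e, v.map_one_add_of_lt h]
  have b : ¬ v (3 * z + 1) < 1 := by
    intro h
    apply hz
    have e : 3 * z = -(1 - (3 * z + 1)) := by ring
    rw [e, v.map_neg, v.map_one_sub_of_lt h]
  rw [if_neg a, if_neg b]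

lemma lead_in (z : ℝ) (hz : v z ≤ 1) : lead v z = 0 := by
  refine lead_of_ne v h3 z (ne_of_lt ?_)
  rw [map_mul]
  exact lt_of_le_of_lt (mul_le_of_le_one_right' hz) h3

omit h3 in
lemma lead_add (z h : ℝ) (hh : v (3 * h) < 1) : lead v (z + h) = lead v z := by
  unfold lead
  have a : v (3 * (z + h) - 1) < 1 ↔ v (3 * z - 1) < 1 := by
    constructor
    · intro k
      have e : 3 * z - 1 = (3 * (z + h) - 1) - 3 * h := by ring
      rw [e]; exact v.map_sub_lt k hh
    · intro k
      have e : 3 * (z + h) - 1 = (3 * z - 1) + 3 * h := by ring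
      rw [e]; exact v.map_add_lt k hh
  have b : v (3 * (z + h) + 1) < 1 ↔ v (3 * z + 1) < 1 := by
    constructor
    · intro k
      have e : 3 * z + 1 = (3 * (z + h) + 1) - 3 * h := by ring
      rw [e]; exact v.map_sub_lt k hh
    · intro k
      have e : 3 * (z + h) + 1 = (3 * z + 1) + 3 * h := by ring
      rw [e]; exact v.map_add_lt k hh
  simp only [a, b]

lemma lead_out (z h : ℝ) (hz : 1 < v z) (hh : v h ^ 2 ≤ v z) : lead v (z + h) = lead v z := by
  have hlt : v h < v z := by
    by_contra hcon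
    have h1 : v z ≤ v h := not_lt.mp hcon
    have h2 : v z ^ 2 ≤ v z := (pow_le_pow_left₀ zero_le h1 2).trans hh
    have h0 : 0 < v z := lt_trans zero_lt_one hz
    rw [sq] at h2
    have : v z ≤ 1 := by
      by_contra hc
      exact absurd h2 (not_le.mpr (lt_mul_of_one_lt_left h0 hz))
    exact absurd hz (not_lt.mpr this)
  have h30 : 0 < v (3 : ℝ) := by
    rw [zero_lt_iff]; simp
  by_cases h1 : v (3 * z) = 1
  · refine lead_add v z h ?_
    rw [← h1, map_mul, map_mul]
    exact mul_lt_mul_of_pos_left hlt h30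
  · rw [lead_of_ne v h3 z h1, lead_of_ne v h3]
    rw [map_mul, v.map_add_eq_of_lt_left hlt, ← map_mul]
    exact h1

lemma val_four : v (4 : ℝ) = 1 := by
  have e : (4 : ℝ) = 1 + 3 := by norm_num
  rw [e, v.map_one_add_of_lt h3]

lemma val_four_pow_sub (i : ℕ) : v ((4 : ℝ) ^ i - 1) < 1 := by
  induction i with
  | zero => simp
  | succ i ih =>
    have e : (4 : ℝ) ^ (i + 1) - 1 = 4 * (4 ^ i - 1) + 3 := by ring
    rw [e]
    refine v.map_add_lt ?_ h3
    rw [map_mul, val_four v h3, one_mul]; exact ih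

lemma lead_pt (i j : ℕ) : lead v (pt i j) = if j = i then 1 else 0 := by
  have h30 : 0 < v (3 : ℝ) := by
    rw [zero_lt_iff]; simp
  split_ifs with h
  · subst h
    unfold lead
    rw [if_pos]
    have e : 3 * (pt j j : ℝ) - 1 = -((4 ^ j - 1) / 4 ^ j) := by
      rw [pt_coe, div_pow, div_pow, one_pow]; field_simp; ring
    rw [e, v.map_neg, map_div₀, map_pow, val_four v h3, one_pow, div_one]
    exact val_four_pow_sub v h3 j
  · refine lead_of_ne v h3 _ ?_
    have e : 3 * (pt i j : ℝ) = 3 ^ i / (4 ^ i * 3 ^ j) := by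
      rw [pt_coe, div_pow, div_pow, one_pow]; field_simp; ring
    rw [e, map_div₀, map_mul, map_pow, map_pow, map_pow, val_four v h3, one_pow, one_mul]
    intro hc
    rw [div_eq_one_iff_eq (pow_ne_zero _ h30.ne')] at hc
    exact h ((pow_right_injective₀ h30 h3.ne hc).symm)

lemma not_nullMeasurable :
    ¬ NullMeasurableSet {x : ℝ | x ∈ Set.Icc (0 : ℝ) 1 ∧ v (3 * x - 1) < 1} volume := by
  intro hE
  set E := {x : ℝ | x ∈ Set.Icc (0 : ℝ) 1 ∧ v (3 * x - 1) < 1} with hEdef
  have hint : ∀ n : ℤ, v (n : ℝ) ≤ 1 := fun n => by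
    have : (n : ℝ) ∈ v.integer := intCast_mem _ n
    exact this
  have small : ∀ h : ℝ, v h ≤ 1 → v (3 * h) < 1 := fun h hh => by
    rw [map_mul]
    exact lt_of_le_of_lt (mul_le_of_le_one_right' hh) h3
  rcases eq_or_ne (volume E) 0 with h0 | h0
  · have hO : volume {x : ℝ | v x ≤ 1} = 0 := by
      have hsub : {x : ℝ | v x ≤ 1} ⊆ ⋃ n : ℤ, (fun x => x + (1 / 3 - (n : ℝ))) ⁻¹' E := by
        intro x hx
        refine Set.mem_iUnion.mpr ⟨⌊x + 1 / 3⌋, ?_, ?_⟩
        · have h1 := Int.floor_le (x + 1 / 3)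
          have h2 := Int.lt_floor_add_one (x + 1 / 3)
          constructor <;> linarith
        · have e : 3 * (x + (1 / 3 - ((⌊x + 1 / 3⌋ : ℤ) : ℝ))) - 1
              = 3 * (x - ((⌊x + 1 / 3⌋ : ℤ) : ℝ)) := by ring
          rw [e]
          exact small _ ((v.map_sub _ _).trans (max_le hx (hint _)))
      refine measure_mono_null hsub (measure_iUnion_null fun n => ?_)
      rw [measure_preimage_add_right]; exact h0
    have hO' : volume ((fun x : ℝ => x⁻¹) '' ({x : ℝ | v x ≤ 1} \ {0})) = 0 := by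
      refine addHaar_image_eq_zero_of_differentiableOn_of_addHaar_eq_zero volume ?_
        (measure_mono_null Set.sdiff_subset hO)
      exact differentiableOn_inv.mono fun x hx => hx.2
    have huniv : (Set.univ : Set ℝ) ⊆
        {x : ℝ | v x ≤ 1} ∪ (fun x : ℝ => x⁻¹) '' ({x : ℝ | v x ≤ 1} \ {0}) := by
      intro x _
      rcases le_or_gt (v x) 1 with h | h
      · exact Or.inl h
      · have hx : x ≠ 0 := by
          rintro rfl
          simp at h
        refine Or.inr ⟨x⁻¹, ⟨?_, by simpa using hx⟩, by simp⟩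
        simp only [Set.mem_ofPred_eq, map_inv₀]
        exact inv_le_one_of_one_le₀ h.le
    have := measure_mono_null huniv (measure_union_null hO hO')
    simp at this
  · obtain ⟨t, hts, htm, hte⟩ := hE.exists_measurable_subset_ae_eq
    have htpos : 0 < volume t := by
      rw [measure_congr hte]; exact pos_iff_ne_zero.mpr h0
    have hn := Measure.sub_mem_nhds_zero_of_addHaar_pos volume t htm htpos
    have hlim : Filter.Tendsto (fun n : ℕ => (1 / 3 : ℝ) * (1 / 4) ^ n) Filter.atTop (nhds 0) := by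
      have := (tendsto_pow_atTop_nhds_zero_of_lt_one (r := (1 / 4 : ℝ)) (by norm_num)
        (by norm_num)).const_mul (1 / 3 : ℝ)
      simpa using this
    obtain ⟨n, a, ha, b, hb, hab⟩ := (hlim.eventually hn).exists
    have h1 := v.map_sub_lt (hts ha).2 (hts hb).2
    have e : 3 * a - 1 - (3 * b - 1) = (4 ^ n)⁻¹ := by
      have hab' : a - b = 1 / 3 * (1 / 4) ^ n := hab
      rw [one_div 4, inv_pow] at hab'
      linear_combination 3 * hab'
    rw [e, map_inv₀, map_pow, val_four v h3] at h1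
    simp at h1

end

theorem nonclassical : ∃ g : I → ℝ, SolvesE g ∧ (∀ x, g x = 0 ∨ g x = 1 ∨ g x = 2) ∧
    ¬ AEMeasurable g ∧
    g ∉ Algebra.adjoin ℝ {h : I → ℝ |
      (∀ x y z : I, (z : ℝ) = x + y → h z = h x + h y) ∨ (∀ x y : I, h (x * y) = h x * h y) ∨
      (∀ x y : I, x ≠ 0 → y ≠ 0 → h (x * y) = h x + h y)} := by
  obtain ⟨O, h3⟩ := exists_val3
  set v := O.valuation
  refine ⟨fun x => 1 + lead v x, ?_, ?_, ?_, ?_⟩
  · refine family v 0 rfl (fun _ _ => rfl) (lead v) (lead_odd v h3) (lead_in v h3)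
      (lead_out v h3) (fun _ => 1) ?_
    intro x y
    norm_num
  · intro x
    simp only [lead]
    split_ifs <;> norm_num
  · intro hm
    apply not_nullMeasurable v h3
    have h1 : NullMeasurableSet ((fun x : I => 1 + lead v x) ⁻¹' {2}) volume :=
      hm.nullMeasurable (measurableSet_singleton 2)
    have h2 := Measure.NullMeasurableSet.subtype_coe (μ := volume) nullMeasurableSet_Icc h1
    convert h2 using 1
    ext x
    simp only [Set.mem_ofPred_eq, Set.mem_image, Set.mem_preimage, Set.mem_singleton_iff]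
    constructor
    · rintro ⟨hx, hv⟩
      refine ⟨⟨x, hx⟩, ?_, rfl⟩
      simp only [lead, if_pos hv]; norm_num
    · rintro ⟨y, hy, rfl⟩
      refine ⟨y.2, ?_⟩
      simp only [lead] at hy
      split_ifs at hy with a b
      · exact a
      · norm_num at hy
      · norm_num at hy
  · intro hg
    have h1 := mem_finRank_of_mem_adjoin _ hg
    apply delta_not_mem_finRank
    have h2 := finRank.sub_mem h1 finRank.one_mem
    convert h2 using 1
    ext i j
    simp [lead_pt v h3]

end Pool.Agent.P.MP_6d4b14_an
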