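import Mathlib

namespace Pool.Agent.P.MP_6d4b14_an

/-- The mixed second difference. -/
def KK (f : ℚ → ℝ) (x y z : ℚ) : ℝ := f z - f (z - x) - f (z - y) + f (z - x - y)

/-- Odd, half-periodic solutions of the linear equation on the unit square. -/
structure HSol (f : ℚ → ℝ) : Prop where
  odd : ∀ z, f (-z) = - f z
  half : ∀ z, f (z + 1 / 2) = f z
  eq : ∀ x y, 0 ≤ x → x ≤ 1 → 0 ≤ y → y ≤ 1 → KK f x y (x * y) = 0

/-- The group of `t` for which the mixed difference in directions `x`, `t` vanishes. -/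
def ZZ (f : ℚ → ℝ) (x : ℚ) : AddSubgroup ℚ where
  carrier := {t | ∀ z, KK f x t z = 0}
  zero_mem' := by intro z; simp [KK]
  add_mem' := by
    intro a b ha hb z
    have h1 := ha z
    have h2 := hb (z - a)
    unfold KK at *
    have e1 : z - (a + b) = z - a - b := by ring
    have e2 : z - x - (a + b) = z - a - x - b := by ring
    have e3 : z - x - a = z - a - x := by ring
    rw [e1, e2]; rw [e3] at h1
    linarith
  neg_mem' := by
    intro a ha z
    have h1 := ha (z + a)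
    unfold KK at *
    have e1 : z - -a = z + a := by ring
    have e2 : z - x - -a = z + a - x := by ring
    have e3 : z + a - a = z := by ring
    have e4 : z + a - x - a = z - x := by ring
    rw [e1, e2]; rw [e3, e4] at h1
    linarith

lemma KK_comm (f : ℚ → ℝ) (x y z : ℚ) : KK f x y z = KK f y x z := by
  unfold KK
  rw [sub_right_comm z x y]; ring

lemma ZZ_symm {f : ℚ → ℝ} {x t : ℚ} (h : t ∈ ZZ f x) : x ∈ ZZ f t := fun z => by
  rw [KK_comm]; exact h z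

/-- The first difference. -/
def ps (f : ℚ → ℝ) (x z : ℚ) : ℝ := f (z - x) - f z

lemma KK_eq (f : ℚ → ℝ) (x y z : ℚ) : KK f x y z = ps f x (z - y) - ps f x z := by
  unfold KK ps
  rw [sub_right_comm z x y]; ring

lemma ps_per {f : ℚ → ℝ} {x t : ℚ} (h : t ∈ ZZ f x) (z : ℚ) : ps f x (z + t) = ps f x z := by
  have := h (z + t)
  rw [KK_eq, add_sub_cancel_right] at this
  linarith

lemma mem_of_ps {f : ℚ → ℝ} {x t : ℚ} (h : ∀ z, ps f x (z + t) = ps f x z) : t ∈ ZZ f x := by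
  intro z
  have := h (z - t)
  rw [sub_add_cancel] at this
  rw [KK_eq, this, sub_self]

namespace HSol
variable {f : ℚ → ℝ} (H : HSol f)
include H

lemma half_mem (x : ℚ) : (1 / 2 : ℚ) ∈ ZZ f x := by
  refine mem_of_ps fun z => ?_
  unfold ps
  have e : z + 1 / 2 - x = z - x + 1 / 2 := by ring
  rw [e, H.half, H.half]

lemma half_int_mem (x : ℚ) (n : ℤ) : ((n : ℚ) / 2) ∈ ZZ f x := by
  have := (ZZ f x).zsmul_mem (H.half_mem x) n
  convert this using 1
  simp; ring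

lemma int_mem (x : ℚ) (n : ℤ) : (n : ℚ) ∈ ZZ f x := by
  have := H.half_int_mem x (2 * n)
  convert this using 1
  push_cast; ring

lemma per_half (n : ℤ) (z : ℚ) : f (z + n / 2) = f z := by
  have h : Function.Periodic f (1 / 2) := H.half
  have := h.int_mul n z
  convert this using 2; ring

lemma zero : f 0 = 0 := by
  have := H.odd 0
  simp at this
  linarith

/-- Transfer along integer combinations. -/
lemma transfer {x x' t : ℚ} (h : t ∈ ZZ f x) (a n : ℤ) (e : x' = a * x + n / 2) :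
    t ∈ ZZ f x' := by
  apply ZZ_symm
  rw [e]
  refine (ZZ f t).add_mem ?_ (H.half_int_mem t n)
  have := (ZZ f t).zsmul_mem (ZZ_symm h) a
  simpa using this

lemma loc {x y : ℚ} (hx0 : 0 ≤ x) (hx1 : x ≤ 1) (hy0 : 0 ≤ y) (hy1 : y ≤ 1) :
    ps f x ((x - 1) * y) = ps f x (x * y) := by
  have := H.eq x y hx0 hx1 hy0 hy1
  rw [KK_eq] at this
  have e : (x - 1) * y = x * y - y := by ring
  rw [e]; linarith

lemma scale_small {x τ t : ℚ} (hx0 : 0 < x) (hx1 : x < 1) (hτ : τ ∈ ZZ f x) (hτ0 : 0 < τ)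
    (hc : τ ≤ (1 - x) * (1 - τ / x)) (ht : t ∈ ZZ f x) (ht0 : 0 ≤ t) (htτ : t ≤ τ) :
    t * (1 - x) / x ∈ ZZ f x := by
  have h1x : 0 < 1 - x := by linarith
  rw [← neg_mem_iff]
  refine mem_of_ps fun w => ?_
  set k := ⌈w / τ⌉ with hk
  have hk1 : w / τ ≤ k := Int.le_ceil _
  have hk2 : (k : ℚ) < w / τ + 1 := Int.ceil_lt_add_one _
  have hkτ : (k : ℚ) * τ ∈ ZZ f x := by
    have := (ZZ f x).zsmul_mem hτ k
    simpa using this
  set y := (k * τ - w) / (1 - x) with hy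
  have hw1 : w ≤ k * τ := by rwa [div_le_iff₀ hτ0] at hk1
  have hw2 : k * τ - w < τ := by
    have : (k : ℚ) - 1 < w / τ := by linarith
    rw [lt_div_iff₀ hτ0] at this
    linarith
  have hy0 : 0 ≤ y := div_nonneg (by linarith) h1x.le
  have htx : t / x ≤ τ / x := by gcongr
  have hy1 : y + t / x ≤ 1 := by
    have : y ≤ 1 - τ / x := by
      rw [hy, div_le_iff₀ h1x]; linarith
    linarith
  have htx0 : 0 ≤ t / x := div_nonneg ht0 hx0.le
  have a1 := H.loc hx0.le hx1.le hy0 (by linarith)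
  have a2 := H.loc hx0.le hx1.le (add_nonneg hy0 htx0) hy1
  have e1 : x * (y + t / x) = x * y + t := by field_simp
  rw [e1, ps_per ht] at a2
  have e2 : w = (x - 1) * y + k * τ := by rw [hy]; field_simp; ring
  have e3 : w + -(t * (1 - x) / x) = (x - 1) * (y + t / x) + k * τ := by
    rw [e2]; field_simp; ring
  rw [e3, ps_per hkτ, a2]
  conv_rhs => rw [e2, ps_per hkτ, a1]

lemma scale {x τ t : ℚ} (hx0 : 0 < x) (hx1 : x < 1) (hτ : τ ∈ ZZ f x) (hτ0 : 0 < τ)
    (hc : τ ≤ (1 - x) * (1 - τ / x)) (ht : t ∈ ZZ f x) : t * (1 - x) / x ∈ ZZ f x := by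
  set k := ⌊t / τ⌋ with hk
  have hk1 : (k : ℚ) ≤ t / τ := Int.floor_le _
  have hk2 : t / τ < k + 1 := Int.lt_floor_add_one _
  rw [le_div_iff₀ hτ0] at hk1
  rw [div_lt_iff₀ hτ0] at hk2
  have hkτ : (k : ℚ) * τ ∈ ZZ f x := by
    have := (ZZ f x).zsmul_mem hτ k
    simpa using this
  have a1 := H.scale_small hx0 hx1 hτ hτ0 hc ((ZZ f x).sub_mem ht hkτ) (by linarith)
    (by linarith)
  have a2 := (ZZ f x).zsmul_mem (H.scale_small hx0 hx1 hτ hτ0 hc hτ hτ0.le le_rfl) k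
  have := (ZZ f x).add_mem a1 a2
  convert this using 1
  simp; ring

lemma scale_inv {x τ t : ℚ} (hx0 : 0 < x) (hx1 : x < 1) (hτ : τ ∈ ZZ f x) (hτ0 : 0 < τ)
    (hc : τ ≤ x * (1 - τ / (1 - x))) (ht : t ∈ ZZ f x) : t * x / (1 - x) ∈ ZZ f x := by
  have tr : ∀ s, s ∈ ZZ f x → s ∈ ZZ f (1 - x) := fun s hs =>
    H.transfer hs (-1) 2 (by push_cast; ring)
  have := H.scale (x := 1 - x) (by linarith) (by linarith) (tr _ hτ) hτ0
    (by rwa [sub_sub_cancel]) (tr _ ht)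
  rw [sub_sub_cancel] at this
  exact H.transfer this (-1) 2 (by push_cast; ring)

/-- A rational number is good if its group contains a positive element at most one sixth. -/
def Good (f : ℚ → ℝ) (x : ℚ) : Prop := ∃ τ ∈ ZZ f x, 0 < τ ∧ τ ≤ 1 / 6

lemma dense {x : ℚ} (hx : Good f x) (ε : ℚ) (hε : 0 < ε) : ∃ τ ∈ ZZ f x, 0 < τ ∧ τ ≤ ε := by
  obtain ⟨τ, hτ, hτ0, hτ6⟩ := hx
  set n := ⌊2 * x - 1 / 2⌋ with hn
  have hn1 : (n : ℚ) ≤ 2 * x - 1 / 2 := Int.floor_le _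
  have hn2 : 2 * x - 1 / 2 < n + 1 := Int.lt_floor_add_one _
  set x0 := x - n / 2 with hx0
  have hl : 1 / 4 ≤ x0 := by linarith
  have hu : x0 ≤ 3 / 4 := by linarith
  have t1 : ∀ s, s ∈ ZZ f x → s ∈ ZZ f x0 := fun s hs =>
    H.transfer hs 1 (-n) (by push_cast; ring)
  have t2 : ∀ s, s ∈ ZZ f x0 → s ∈ ZZ f x := fun s hs =>
    H.transfer hs 1 n (by push_cast; ring)
  have key : ∀ ρ : ℚ, 0 < ρ → ρ < 1 → (∀ s ∈ ZZ f x0, s * ρ ∈ ZZ f x0) →
      ∃ τ ∈ ZZ f x, 0 < τ ∧ τ ≤ ε := by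
    intro ρ h0 h1 h
    obtain ⟨m, hm⟩ := exists_pow_lt_of_lt_one hε h1
    have hmem : ∀ m : ℕ, τ * ρ ^ m ∈ ZZ f x0 := by
      intro m
      induction m with
      | zero => simpa using t1 _ hτ
      | succ m ih => rw [pow_succ, ← mul_assoc]; exact h _ ih
    refine ⟨τ * ρ ^ m, t2 _ (hmem m), by positivity, ?_⟩
    have : 0 < ρ ^ m := by positivity
    nlinarith
  have hx00 : 0 < x0 := by linarith
  have hx01 : 0 < 1 - x0 := by linarith
  rcases lt_trichotomy x0 (1 / 2) with h | h | h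
  · refine key (x0 / (1 - x0)) (by positivity) (by rw [div_lt_one hx01]; linarith) ?_
    intro s hs
    rw [← mul_div_assoc]
    refine H.scale_inv hx00 (by linarith) (t1 _ hτ) hτ0 ?_ hs
    have : τ / (1 - x0) ≤ 1 / 3 := by rw [div_le_iff₀ hx01]; linarith
    nlinarith
  · refine ⟨ε, t2 _ (ZZ_symm ?_), hε, le_rfl⟩
    rw [h]; exact H.half_mem ε
  · refine key ((1 - x0) / x0) (by positivity) (by rw [div_lt_one hx00]; linarith) ?_
    intro s hs
    rw [← mul_div_assoc]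
    refine H.scale hx00 (by linarith) (t1 _ hτ) hτ0 ?_ hs
    have : τ / x0 ≤ 1 / 3 := by rw [div_le_iff₀ hx00]; linarith
    nlinarith

lemma glob {x : ℚ} (hx0 : 0 < x) (hx1 : x < 1) (hx : Good f x) :
    (∀ t ∈ ZZ f x, t * (1 - x) / x ∈ ZZ f x) ∧ ∀ y, KK f x y (x * y) = 0 := by
  have h1x : 0 < 1 - x := by linarith
  obtain ⟨τ, hτ, hτ0, hτε⟩ := H.dense hx (x * (1 - x) / 2) (by positivity)
  have hc : τ ≤ (1 - x) * (1 - τ / x) := by
    have : τ / x ≤ 1 / 2 := by rw [div_le_iff₀ hx0]; nlinarith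
    nlinarith
  have hs : ∀ t ∈ ZZ f x, t * (1 - x) / x ∈ ZZ f x := fun t ht => H.scale hx0 hx1 hτ hτ0 hc ht
  refine ⟨hs, fun y => ?_⟩
  set k := ⌊x * y / τ⌋ with hk
  have hk1 : (k : ℚ) ≤ x * y / τ := Int.floor_le _
  have hk2 : x * y / τ < k + 1 := Int.lt_floor_add_one _
  rw [le_div_iff₀ hτ0] at hk1
  rw [div_lt_iff₀ hτ0] at hk2
  have hkτ : (k : ℚ) * τ ∈ ZZ f x := by
    have := (ZZ f x).zsmul_mem hτ k
    simpa using this
  have a := H.loc (y := (x * y - k * τ) / x) hx0.le hx1.le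
    (div_nonneg (by linarith) hx0.le) (by rw [div_le_one hx0]; nlinarith)
  have e1 : x * y = x * ((x * y - k * τ) / x) + k * τ := by field_simp; ring
  have e2 : (x - 1) * ((x * y - k * τ) / x) = x * y - y + k * τ * (1 - x) / x := by
    field_simp; ring
  rw [e2, ps_per (hs _ hkτ)] at a
  rw [KK_eq, a]
  conv_lhs => arg 2; rw [e1, ps_per hkτ]
  ring

lemma inv_mem {x : ℚ} (hx0 : 0 < x) (hx1 : x < 1) (hx : Good f x) : 1 / (2 * x) ∈ ZZ f x := by
  have := (ZZ f x).add_mem ((H.glob hx0 hx1 hx).1 _ (H.half_mem x)) (H.half_mem x)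
  convert this using 1
  field_simp; ring

end HSol

end Pool.Agent.P.MP_6d4b14_an
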