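import Pool.Agent.P.MP_6d4b14_an.Decomp
import Pool.Agent.P.MP_6d4b14_an.Family

namespace Pool.Agent.P.MP_6d4b14_an

open unitInterval

/-- The fractional part of a rational number as a point of the unit interval. -/
noncomputable def fr (z : ℚ) : I :=
  ⟨Int.fract (z : ℝ), Int.fract_nonneg _, (Int.fract_lt_one _).le⟩

section
variable {d : I → ℝ}
  (hd : ∀ x y : I, d (x * y) + d (x * σ y) + d (σ x * y) + d (σ x * σ y) = 0)
  (h0 : ∀ x : I, d x + d (σ x) = 0)
include hd h0

lemma d_zero : d 0 = 0 ∧ d 1 = 0 := by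
  have a := hd 0 0
  have b := h0 0
  simp at a b
  constructor <;> linarith

lemma d_fr (z : ℚ) (x : I) (n : ℤ) (e : (z : ℝ) = x + n) : d (fr z) = d x := by
  rcases eq_or_lt_of_le x.2.2 with h | h
  · have e1 : x = 1 := Subtype.ext h
    have e2 : fr z = 0 := by
      apply Subtype.ext
      show Int.fract (z : ℝ) = 0
      rw [e, h, Int.fract_add_intCast]; simp
    rw [e1, e2, (d_zero hd h0).1, (d_zero hd h0).2]
  · congr 1
    apply Subtype.ext
    show Int.fract (z : ℝ) = x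
    rw [e, Int.fract_add_intCast, Int.fract_eq_self.mpr ⟨x.2.1, h⟩]

lemma d_half (a b : I) (e : (b : ℝ) = a + 1 / 2) : d b = d a := by
  have ha := a.2.1
  have hb := b.2.2
  have k := hd ⟨2 * a, by constructor <;> linarith⟩ ⟨1 / 2, by constructor <;> norm_num⟩
  have e1 : (⟨2 * a, by constructor <;> linarith⟩ * ⟨1 / 2, by constructor <;> norm_num⟩ : I)
      = a := by
    apply Subtype.ext; simp; ring
  have e2 : (⟨2 * a, by constructor <;> linarith⟩ * σ ⟨1 / 2, by constructor <;> norm_num⟩ : I)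
      = a := by
    apply Subtype.ext; simp [coe_symm_eq]; ring
  have e3 : (σ ⟨2 * a, by constructor <;> linarith⟩ * ⟨1 / 2, by constructor <;> norm_num⟩ : I)
      = σ b := by
    apply Subtype.ext; simp [coe_symm_eq, e]; ring
  have e4 : (σ ⟨2 * a, by constructor <;> linarith⟩ * σ ⟨1 / 2, by constructor <;> norm_num⟩ : I)
      = σ b := by
    apply Subtype.ext; simp [coe_symm_eq, e]; ring
  rw [e1, e2, e3, e4] at k
  have := h0 b
  linarith

lemma hsol_of : HSol (fun z => d (fr z)) := by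
  have hfr : ∀ z : ℚ, (z : ℝ) = fr z + (⌊(z : ℝ)⌋ : ℤ) := fun z => (Int.fract_add_floor _).symm
  have odd : ∀ z : ℚ, d (fr (-z)) = - d (fr z) := by
    intro z
    rw [d_fr hd h0 (-z) (σ (fr z)) (-⌊(z : ℝ)⌋ - 1) (by
      rw [coe_symm_eq]; push_cast; linarith [hfr z])]
    linarith [h0 (fr z)]
  refine ⟨odd, fun z => ?_, fun x y hx0 hx1 hy0 hy1 => ?_⟩
  · have a := (fr z).2.1
    have b := (fr z).2.2
    rcases le_total ((fr z : ℝ)) (1 / 2) with h | h
    · rw [d_fr hd h0 (z + 1 / 2) ⟨fr z + 1 / 2, by constructor <;> linarith⟩ ⌊(z : ℝ)⌋ (by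
        push_cast; linarith [hfr z])]
      exact d_half hd h0 _ _ rfl
    · rw [d_fr hd h0 (z + 1 / 2) ⟨fr z - 1 / 2, by constructor <;> linarith⟩ (⌊(z : ℝ)⌋ + 1) (by
        push_cast; linarith [hfr z])]
      exact (d_half hd h0 _ _ (by simp)).symm
  · let X : I := ⟨x, by exact_mod_cast hx0, by exact_mod_cast hx1⟩
    let Y : I := ⟨y, by exact_mod_cast hy0, by exact_mod_cast hy1⟩
    have k := hd X Y
    unfold KK
    have e2 : d (fr (x * y - x)) = - d (X * σ Y) := by
      rw [← neg_sub, odd, d_fr hd h0 _ (X * σ Y) 0 (by simp [X, Y, coe_symm_eq]; ring)]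
    have e3 : d (fr (x * y - y)) = - d (σ X * Y) := by
      rw [← neg_sub, odd, d_fr hd h0 _ (σ X * Y) 0 (by simp [X, Y, coe_symm_eq]; ring)]
    simp only
    rw [e2, e3, d_fr hd h0 (x * y) (X * Y) 0 (by simp [X, Y]),
      d_fr hd h0 (x * y - x - y) (σ X * σ Y) (-1) (by simp [X, Y, coe_symm_eq]; ring)]
    linarith

end

lemma exists_valp (p : ℕ) (hp : p.Prime) : ∃ O : ValuationSubring ℝ, O.valuation p < 1 := by
  let A : Subring ℝ := ⊥
  have h3 : (p : ℝ) ∈ A := by
    simp
  have hI : Ideal.span {(⟨p, h3⟩ : A)} ≠ ⊤ := by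
    rw [Ne, Ideal.span_singleton_eq_top]
    intro hu
    obtain ⟨⟨b, hb⟩, e⟩ := isUnit_iff_exists_inv.mp hu
    obtain ⟨n, hn⟩ := Subring.mem_bot.mp hb
    have e' : (p : ℝ) * b = 1 := congrArg Subtype.val e
    rw [← hn] at e'
    have : (p : ℤ) * n = 1 := by exact_mod_cast e'
    have h2 : (p : ℤ) ∣ 1 := ⟨n, this.symm⟩
    exact hp.one_lt.ne' (Nat.dvd_one.mp (by exact_mod_cast h2))
  obtain ⟨B, -, hB⟩ := Ideal.image_subset_nonunits_valuationSubring _ hI
  refine ⟨B, B.mem_nonunits_iff.mp (hB ⟨⟨p, h3⟩, Ideal.mem_span_singleton_self _, rfl⟩)⟩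

section
variable {Γ : Type*} [LinearOrderedCommGroupWithZero Γ] (v : Valuation ℝ Γ) {p : ℕ}
  [hp : Fact p.Prime] (hv : v p < 1)
include hv

lemma val_int_eq_one {n : ℤ} (hn : ¬ (p : ℤ) ∣ n) : v n = 1 := by
  have hle : ∀ m : ℤ, v m ≤ 1 := fun m => by
    have : (m : ℝ) ∈ v.integer := intCast_mem _ m
    exact this
  have hc : IsCoprime (p : ℤ) n :=
    (Int.prime_iff_natAbs_prime.mpr (by simpa using hp.out)).irreducible.coprime_iff_not_dvd.mpr hn
  obtain ⟨s, t, e⟩ := hc
  have e1 : (1 : ℝ) = s * p + t * n := by exact_mod_cast e.symm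
  by_contra hne
  have hlt : v n < 1 := lt_of_le_of_ne (hle n) hne
  have : v (1 : ℝ) < 1 := by
    rw [e1]
    refine v.map_add_lt ?_ ?_ <;> rw [map_mul]
    · exact lt_of_le_of_lt (mul_le_of_le_one_left' (hle s)) hv
    · exact lt_of_le_of_lt (mul_le_of_le_one_left' (hle t)) hlt
  simp at this

lemma norm_le_of_val {a : ℚ} (h : v a ≤ 1) : padicNorm p a ≤ 1 := by
  rw [norm_le_one_iff]
  intro hd
  have hn : ¬ (p : ℤ) ∣ a.num := by
    intro h3
    have := Nat.dvd_gcd (Int.natCast_dvd.mp h3) hd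
    rw [a.reduced] at this
    exact hp.out.one_lt.ne' (Nat.dvd_one.mp this)
  have h1 := val_int_eq_one v hv hn
  obtain ⟨c, hc⟩ := hd
  have e : (a.num : ℝ) = a * c * p := by
    have : (a.num : ℚ) = a * c * p := by
      rw [← Rat.mul_den_eq_num, hc]; push_cast; ring
    exact_mod_cast this
  have hcle : v c ≤ 1 := by
    have : (c : ℝ) ∈ v.integer := natCast_mem _ c
    exact this
  rw [e, map_mul, map_mul] at h1
  exact absurd h1 (ne_of_lt (lt_of_le_of_lt (mul_le_of_le_one_left' (mul_le_one' h hcle)) hv))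

lemma norm_rel {a b : ℚ} (h : v ((b : ℝ) - a) ^ 2 ≤ max 1 (v a)) :
    padicNorm p (b - a) ^ 2 ≤ max 1 (padicNorm p a) := by
  have n0 := padicNorm.nonneg (p := p) (b - a)
  rcases le_max_iff.mp h with h | h
  · have : v ((b - a : ℚ) : ℝ) ≤ 1 := by
      push_cast
      exact (pow_le_one_iff (by norm_num)).mp h
    have := norm_le_of_val v hv this
    exact le_max_of_le_left (by nlinarith)
  · by_cases ha : a = 0
    · subst ha
      simp at h
      have : (b : ℝ) = 0 := by simpa using h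
      have : b = 0 := by exact_mod_cast this
      simp [this]
    · have ha' : (a : ℝ) ≠ 0 := by exact_mod_cast ha
      have hva : v a ≠ 0 := by simpa using ha'
      have : v (((b - a) ^ 2 / a : ℚ) : ℝ) ≤ 1 := by
        push_cast
        rw [map_div₀, map_pow]
        exact div_le_one_of_le₀ h zero_le
      have := norm_le_of_val v hv this
      rw [padicNorm.div, div_le_one (lt_of_le_of_ne (padicNorm.nonneg _)
        (padicNorm.nonzero ha).symm), sq, padicNorm.mul, ← sq] at this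
      exact le_max_of_le_right this

omit hp hv in
lemma max_eq_of_rel {z w : ℝ} (h : v (w - z) ^ 2 ≤ max 1 (v z)) : max 1 (v w) = max 1 (v z) := by
  rcases le_or_gt (v (w - z)) 1 with h1 | h1
  · have a : v w ≤ max (v (w - z)) (v z) := by
      have := v.map_add (w - z) z
      rwa [sub_add_cancel] at this
    have b : v z ≤ max (v w) (v (w - z)) := by
      have := v.map_sub w (w - z)
      rwa [sub_sub_cancel] at this
    apply le_antisymm
    · exact max_le (le_max_left _ _) (a.trans (max_le_max h1 le_rfl))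
    · exact max_le (le_max_left _ _) (b.trans (by rw [max_comm]; exact max_le_max h1 le_rfl))
  · have a : v (w - z) < v (w - z) ^ 2 := by
      rw [sq]; exact lt_mul_of_one_lt_right (lt_trans zero_lt_one h1) h1
    have b : v (w - z) < v z := by
      rcases le_max_iff.mp h with h | h
      · exact absurd (lt_trans h1 a) (not_lt.mpr h)
      · exact lt_of_lt_of_le a h
    have : v w = v z := by
      have := v.map_add_eq_of_lt_left b
      rwa [add_sub_cancel] at this
    rw [this]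

omit hp hv in
lemma rel_trans {z a b : ℝ} (h1 : v (a - z) ^ 2 ≤ max 1 (v z)) (h2 : v (b - z) ^ 2 ≤ max 1 (v z)) :
    v (b - a) ^ 2 ≤ max 1 (v a) := by
  rw [max_eq_of_rel v h1]
  have : v (b - a) ≤ max (v (b - z)) (v (a - z)) := by
    have := v.map_sub (b - z) (a - z)
    rwa [sub_sub_sub_cancel_right] at this
  rcases le_max_iff.mp this with h | h
  · exact (pow_le_pow_left₀ zero_le h 2).trans h2
  · exact (pow_le_pow_left₀ zero_le h 2).trans h1

lemma exists_ext (F : ℚ → ℝ) (hodd : ∀ z, F (-z) = - F z)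
    (hF : ∀ z h, padicNorm p h ^ 2 ≤ max 1 (padicNorm p z) → F (z + h) = F z) :
    ∃ E : ℝ → ℝ, (∀ q : ℚ, E q = F q) ∧ (∀ x y, EAt E x y) ∧ ∀ x, E x + E (1 - x) = 0 := by
  classical
  let E : ℝ → ℝ := fun z =>
    if h : ∃ q : ℚ, v ((q : ℝ) - z) ^ 2 ≤ max 1 (v z) then F h.choose else 0
  have E1 : ∀ (z : ℝ) (q : ℚ), v ((q : ℝ) - z) ^ 2 ≤ max 1 (v z) → E z = F q := by
    intro z q hq
    have h : ∃ q : ℚ, v ((q : ℝ) - z) ^ 2 ≤ max 1 (v z) := ⟨q, hq⟩
    simp only [E, dif_pos h]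
    have := hF q _ (norm_rel v hv (rel_trans v hq h.choose_spec))
    rwa [add_sub_cancel] at this
  have E0 : ∀ z : ℝ, (¬ ∃ q : ℚ, v ((q : ℝ) - z) ^ 2 ≤ max 1 (v z)) → E z = 0 := by
    intro z h
    simp only [E, dif_neg h]
  have neg : ∀ (z : ℝ) (q : ℚ), v ((q : ℝ) - z) ^ 2 ≤ max 1 (v z) →
      v (((-q : ℚ) : ℝ) - -z) ^ 2 ≤ max 1 (v (-z)) := by
    intro z q hq
    rw [v.map_neg, ← v.map_neg]
    convert hq using 3
    push_cast; ring
  have Eodd : ∀ z, E (-z) = - E z := by
    intro z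
    by_cases h : ∃ q : ℚ, v ((q : ℝ) - z) ^ 2 ≤ max 1 (v z)
    · obtain ⟨q, hq⟩ := h
      rw [E1 _ _ hq, E1 _ _ (neg z q hq), hodd]
    · rw [E0 _ h, E0, neg_zero]
      rintro ⟨q, hq⟩
      have := neg _ q hq
      rw [neg_neg] at this
      exact h ⟨_, this⟩
  have Ein : ∀ z, v z ≤ 1 → E z = (0 : ℝ →+ ℝ) z := by
    intro z hz
    rw [E1 z 0 (le_max_of_le_left (by simpa using pow_le_one₀ zero_le hz))]
    have := hodd 0
    simp at this ⊢
    linarith
  have Eout : ∀ z h, 1 < v z → v h ^ 2 ≤ v z → E (z + h) = E z := by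
    intro z h _ hh
    have r : v (z + h - z) ^ 2 ≤ max 1 (v z) := by
      rw [add_sub_cancel_left]; exact le_max_of_le_right hh
    by_cases k : ∃ q : ℚ, v ((q : ℝ) - z) ^ 2 ≤ max 1 (v z)
    · obtain ⟨q, hq⟩ := k
      rw [E1 _ _ hq, E1 _ _ (rel_trans v r hq)]
    · rw [E0 _ k, E0]
      rintro ⟨q, hq⟩
      refine k ⟨q, rel_trans v ?_ hq⟩
      exact rel_trans v r (by simp)
  refine ⟨E, fun q => E1 _ _ (by simp), EAt_of_additive v 0 (Or.inl rfl) (fun _ _ => rfl) E Eodd
    Ein Eout, fun x => ?_⟩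
  rw [G_of_additive v 0 E Eodd Ein Eout]
  simp

end

theorem rational (g : I → ℝ) (hg : SolvesE g) (g0 : ℚ → ℝ) :
    (∃ g' : I → ℝ, SolvesE g' ∧ (∀ x, g' x + g' (σ x) = g x + g (σ x)) ∧
      ∀ (q : ℚ) (hq : (q : ℝ) ∈ I), g' ⟨q, hq⟩ = g0 q) ↔
    ∃ F : ℕ → ℚ → ℝ,
      (∀ p : ℕ, p.Prime → (∀ z, F p (-z) = - F p z) ∧
        ∀ z h, padicNorm p h ^ 2 ≤ max 1 (padicNorm p z) → F p (z + h) = F p z) ∧
      ∀ (q : ℚ) (hq : (q : ℝ) ∈ I), g0 q = g ⟨q, hq⟩ + ∑ p ∈ q.den.primeFactors, F p q := by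
  constructor
  · rintro ⟨g', hg', hG, hq0⟩
    have hd : ∀ x y : I, (g' - g) (x * y) + (g' - g) (x * σ y) + (g' - g) (σ x * y)
        + (g' - g) (σ x * σ y) = 0 := by
      intro x y
      have a := hg x y
      have b := hg' x y
      rw [hG, hG] at b
      simp only [Pi.sub_apply]
      linarith
    have h0 : ∀ x : I, (g' - g) x + (g' - g) (σ x) = 0 := by
      intro x
      have := hG x
      simp only [Pi.sub_apply]
      linarith
    obtain ⟨F, hF, hs⟩ := (hsol_of hd h0).classify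
    refine ⟨F, hF, fun q hq => ?_⟩
    have := hs q
    rw [d_fr hd h0 q ⟨q, hq⟩ 0 (by simp), Pi.sub_apply, hq0] at this
    linarith
  · rintro ⟨F, hF, hs⟩
    have ex : ∀ p : ℕ, ∃ E : ℝ → ℝ, (p.Prime → ∀ q : ℚ, E q = F p q) ∧ (¬ p.Prime → E = 0) ∧
        (∀ x y, EAt E x y) ∧ ∀ x, E x + E (1 - x) = 0 := by
      intro p
      by_cases hp : p.Prime
      · obtain ⟨O, hO⟩ := exists_valp p hp
        have := Fact.mk hp
        obtain ⟨E, a, b, c⟩ := exists_ext O.valuation hO (F p) (hF p hp).1 (hF p hp).2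
        exact ⟨E, fun _ => a, fun h => absurd hp h, b, c⟩
      · exact ⟨0, fun h => absurd h hp, fun _ => rfl, fun x y => by simp [EAt], by simp⟩
    choose E hE1 hE0 hE2 hE3 using ex
    obtain ⟨L, hL⟩ := LinearMap.exists_extend
      (p := LinearMap.range (Finsupp.lcoeFun : (ℕ →₀ ℝ) →ₗ[ℝ] ℕ → ℝ))
      ((Finsupp.lsum ℝ (fun _ : ℕ => (LinearMap.id : ℝ →ₗ[ℝ] ℝ))).comp
        (LinearEquiv.ofInjective (Finsupp.lcoeFun : (ℕ →₀ ℝ) →ₗ[ℝ] ℕ → ℝ)
          (fun a b h => DFunLike.coe_injective h)).symm.toLinearMap)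
    have hL' : ∀ a : ℕ →₀ ℝ, L a = a.sum fun _ r => r := by
      intro a
      have := LinearMap.congr_fun hL ⟨a, a, rfl⟩
      simp only [LinearMap.comp_apply, Submodule.subtype_apply, LinearEquiv.coe_coe] at this
      rw [this]
      have e : (LinearEquiv.ofInjective (Finsupp.lcoeFun : (ℕ →₀ ℝ) →ₗ[ℝ] ℕ → ℝ)
          (fun a b h => DFunLike.coe_injective h)).symm ⟨a, a, rfl⟩ = a := by
        rw [LinearEquiv.symm_apply_eq]; rfl
      rw [e, Finsupp.lsum_apply]; rfl
    let f : ℝ → ℝ := fun z => L fun p => E p z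
    have f0 : ∀ x, f x + f (1 - x) = 0 := by
      intro x
      simp only [f]
      rw [← map_add, ← map_zero L]
      congr 1
      funext p
      exact hE3 p x
    have f1 : ∀ x y, EAt f x y := by
      intro x y
      unfold EAt
      rw [f0, zero_mul]
      simp only [f]
      rw [← map_add, ← map_add, ← map_add, ← map_zero L]
      congr 1
      funext p
      have := hE2 p x y
      unfold EAt at this
      rw [hE3, zero_mul] at this
      exact this
    refine ⟨fun x => g x + f x, hg.add f f1 f0, fun x => ?_, fun q hq => ?_⟩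
    · have := f0 x
      simp only [coe_symm_eq]
      linarith
    · rw [hs q hq]
      simp only [f]
      congr 1
      have hsupp : ∀ p, E p q ≠ 0 → p ∈ q.den.primeFactors := by
        intro p hne
        by_contra hc
        apply hne
        by_cases hp : p.Prime
        · have := Fact.mk hp
          have hn : padicNorm p q ≤ 1 := (norm_le_one_iff q).mpr fun h =>
            hc (Nat.mem_primeFactors.mpr ⟨hp, h, q.den_nz⟩)
          have a := (hF p hp).2 0 q (le_max_of_le_left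
            (pow_le_one₀ (padicNorm.nonneg _) hn))
          have b := (hF p hp).1 0
          rw [hE1 p hp]
          simp at a b
          linarith
        · rw [hE0 p hp]; rfl
      have := hL' (Finsupp.onFinset _ _ hsupp)
      rw [Finsupp.onFinset_sum _ (fun _ => rfl)] at this
      refine this.trans (Finset.sum_congr rfl fun p hp => ?_)
      exact hE1 p (Nat.prime_of_mem_primeFactors hp) q

end Pool.Agent.P.MP_6d4b14_an
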