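import Pool.Agent.P.MP_6d4b14_an.GSUni

/-! Regular solutions: a control of the general solution against the classical list. -/

namespace Pool.Agent.P.MP_6d4b14_an.GS

theorem Reg_per {F : ℝ → ℝ} (h : GE F) (n : ℤ) (z : ℝ) : F (z + n) = F z := by
  have p : Function.Periodic F 1 := fun x => by
    have := h (x + 1) 1
    simp only [mul_one, sub_self, mul_zero, add_sub_cancel_right] at this
    linarith
  simpa using p.int_mul n z

theorem Reg_add {F : ℝ → ℝ} (h : GE F) (hc : Continuous F) (x y z : ℝ) :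
    F z - F (z - y) - F (z - x) + F (z - x - y) = 0 := by
  have hd : Dense {y : ℝ | F z - F (z - y) - F (z - x) + F (z - x - y) = 0} := by
    refine Metric.dense_iff.2 fun y ε hε => ?_
    obtain ⟨N, hN⟩ := exists_nat_gt (1 / ε - x)
    have h1 : 1 / ε < x + N := by linarith
    have h0 : 0 < x + N := (one_div_pos.2 hε).trans h1
    have h2 : 1 < ε * (x + N) := by rwa [div_lt_iff₀' hε] at h1
    obtain ⟨m, a, b⟩ : ∃ m : ℤ, (m : ℝ) ≤ (x + N) * y - z ∧ (x + N) * y - z < m + 1 :=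
      ⟨_, Int.floor_le _, Int.lt_floor_add_one _⟩
    obtain ⟨w, hw⟩ : ∃ w, (x + N) * w = z + m := ⟨(z + m) / (x + N), by field_simp⟩
    refine ⟨w, ?_, ?_⟩
    · rw [Metric.mem_ball, Real.dist_eq, abs_lt]
      constructor <;> nlinarith
    · have k := h (x + N) w
      have e1 : (x + N - 1) * w = z - w + m := by linarith
      have e2 : (x + N) * (w - 1) = z - x + ((m - N : ℤ) : ℝ) := by push_cast; linarith
      have e3 : (x + N - 1) * (w - 1) = z - x - w + ((m - N + 1 : ℤ) : ℝ) := by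
        push_cast; linarith
      rw [hw, e1, e2, e3, Reg_per h, Reg_per h, Reg_per h, Reg_per h] at k
      exact k
  have hcl : IsClosed {y : ℝ | F z - F (z - y) - F (z - x) + F (z - x - y) = 0} :=
    isClosed_eq (by fun_prop) continuous_const
  have := hd.closure_eq
  rw [hcl.closure_eq] at this
  exact Set.eq_univ_iff_forall.1 this y

theorem Reg_zero {F f : ℝ → ℝ} (h : GE F) (e : ∀ x ∈ Set.Icc (0 : ℝ) 1, F x = f x) (hf : HH f)
    (hc : ∀ x, 0 < x → x < 1 → ContinuousAt f x) (x : ℝ) : F x = 0 := by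
  have odd : ∀ z, F (-z) = -F z := fun z => by
    have a := Int.fract_nonneg z
    have b := (Int.fract_lt_one z).le
    have c := hf.1 _ ⟨a, b⟩
    have e1 : z = Int.fract z + (⌊z⌋ : ℤ) := (Int.fract_add_floor z).symm
    have e2 : -z = 1 - Int.fract z + ((-⌊z⌋ - 1 : ℤ) : ℝ) := by push_cast; linarith
    rw [e2, Reg_per h, e _ ⟨by linarith, by linarith⟩]
    rw [e1, Reg_per h, e _ ⟨a, b⟩, ← e1]
    linarith
  have half : Function.Periodic F (1 / 2) := fun z => by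
    have k := h (1 / 2) (2 * z + 1)
    have e1 : 1 / 2 * (2 * z + 1) = z + 1 / 2 := by ring
    have e2 : (1 / 2 - 1) * (2 * z + 1) = -(z + 1 / 2) := by ring
    have e3 : 1 / 2 * (2 * z + 1 - 1) = z := by ring
    have e4 : (1 / 2 - 1) * (2 * z + 1 - 1) = -z := by ring
    rw [e1, e2, e3, e4, odd, odd] at k
    linarith
  have cont : Continuous F := continuous_iff_continuousAt.2 fun z => by
    obtain ⟨m, a, b⟩ : ∃ m : ℤ, (m : ℝ) ≤ 2 * z - 1 / 2 ∧ 2 * z - 1 / 2 < m + 1 :=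
      ⟨_, Int.floor_le _, Int.lt_floor_add_one _⟩
    have c : ContinuousAt (fun w => f (w - m * (1 / 2))) z :=
      ContinuousAt.comp (f := fun w : ℝ => w - m * (1 / 2)) (hc _ (by linarith) (by linarith))
        (by fun_prop)
    refine c.congr ?_
    filter_upwards [Ioo_mem_nhds (show m * (1 / 2) < z by linarith)
      (show z < m * (1 / 2) + 1 by linarith)] with w hw
    rw [← e _ ⟨by linarith [hw.1], by linarith [hw.2]⟩, half.sub_int_mul_eq]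
  have f0 : F 0 = 0 := by
    have := odd 0
    rw [neg_zero] at this
    linarith
  let A : ℝ →+ ℝ := AddMonoidHom.mk' F fun a b => by
    have := Reg_add h cont a b (a + b)
    simp only [add_sub_cancel_right, add_sub_cancel_left, sub_self, f0] at this
    linarith
  have k : F (x • (1 : ℝ)) = x • F 1 := map_real_smul A cont x 1
  have f1 : F 1 = 0 := by simpa [f0] using Reg_per h 1 0
  simpa [f1] using k

theorem Reg_hh {f : ℝ → ℝ} (hf : HH f) (hc : ∀ x, 0 < x → x < 1 → ContinuousAt f x) :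
    ∀ x ∈ Set.Icc (0 : ℝ) 1, f x = 0 := fun x hx => by
  obtain ⟨F, h, e⟩ := ext_glob hf
  rw [← e x hx, Reg_zero h e hf hc]

theorem Reg_eq {g g₁ : ℝ → ℝ} (h : TR.HE g) (h₁ : TR.HE g₁)
    (hs : ∀ x ∈ Set.Icc (0 : ℝ) 1, g₁ x + g₁ (1 - x) = TR.sg g x)
    (hc : ∀ x, 0 < x → x < 1 → ContinuousAt g x) (hc₁ : ∀ x, 0 < x → x < 1 → ContinuousAt g₁ x) :
    ∀ x ∈ Set.Icc (0 : ℝ) 1, g x = g₁ x := fun x hx => by
  refine sub_eq_zero.1 (Reg_hh (f := fun x => g x - g₁ x) ⟨fun x hx => ?_, fun x hx y hy => ?_⟩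
    (fun x a b => (hc x a b).sub (hc₁ x a b)) x hx)
  · have := hs x hx
    simp only [TR.sg] at this
    linarith
  · have a := h x y hx.1 hx.2 hy.1 hy.2
    have b := h₁ x y hx.1 hx.2 hy.1 hy.2
    rw [← hs x hx, ← hs y hy] at a
    simp only [TR.sg] at b
    linarith

/-- A multiplicative function with a continuous sum that is not `1` is continuous. -/
theorem Reg_mul {M G : ℝ → ℝ}
    (hM : ∀ x ∈ Set.Icc (0 : ℝ) 1, ∀ y ∈ Set.Icc (0 : ℝ) 1, M (x * y) = M x * M y)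
    (h : ∀ x ∈ Set.Icc (0 : ℝ) 1, G x = M x + M (1 - x))
    (hc : ∀ x, 0 < x → x < 1 → ContinuousAt G x) {t : ℝ} (t0 : 0 < t) (t1 : t < 1)
    (ht : G t ≠ 1) (u : ℝ) (u0 : 0 < u) (u1 : u < 1) : ContinuousAt M u := by
  obtain ⟨y, hy⟩ : ∃ y, y = t * u := ⟨_, rfl⟩
  have y0 : 0 < y := by rw [hy]; positivity
  have yu : y < u := by rw [hy]; nlinarith
  have y1 : 0 < 1 - y := by linarith
  have key : ∀ w, y < w → w < 1 →
      M w * (G (y / w) - 1) = G y - G (1 - w) + M (1 - y) * (G ((1 - w) / (1 - y)) - 1) := by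
    intro w a b
    have w0 : 0 < w := by linarith
    have m1 : y / w ∈ Set.Icc (0 : ℝ) 1 := ⟨by positivity, (div_le_one w0).2 a.le⟩
    have m2 : (1 - w) / (1 - y) ∈ Set.Icc (0 : ℝ) 1 :=
      ⟨div_nonneg (by linarith) y1.le, (div_le_one y1).2 (by linarith)⟩
    have mw : w ∈ Set.Icc (0 : ℝ) 1 := ⟨w0.le, b.le⟩
    have my : y ∈ Set.Icc (0 : ℝ) 1 := ⟨y0.le, by linarith⟩
    have k1 := hM w mw _ m1
    have k2 := hM w mw _ (GSSufB_one m1)
    have k3 := hM _ (GSSufB_one my) _ m2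
    have k4 := hM _ (GSSufB_one my) _ (GSSufB_one m2)
    have e1 : w * (y / w) = y := by field_simp
    have e2 : w * (1 - y / w) = w - y := by field_simp
    have e3 : (1 - y) * ((1 - w) / (1 - y)) = 1 - w := by field_simp
    have e4 : (1 - y) * (1 - (1 - w) / (1 - y)) = w - y := by field_simp; ring
    rw [e1] at k1
    rw [e2] at k2
    rw [e3] at k3
    rw [e4] at k4
    rw [h _ m1, h _ m2, h _ my, h _ (GSSufB_one mw), sub_sub_cancel]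
    linarith
  have eu : y / u = t := by rw [hy]; field_simp
  have c1 : ContinuousAt (fun w => G (y / w) - 1) u :=
    (ContinuousAt.comp (f := fun w : ℝ => y / w) (by rw [eu]; exact hc t t0 t1)
      (continuousAt_const.div continuousAt_id u0.ne')).sub continuousAt_const
  have c2 : ContinuousAt (fun w => G (1 - w)) u :=
    ContinuousAt.comp (f := fun w : ℝ => 1 - w) (hc _ (by linarith) (by linarith)) (by fun_prop)
  have c3 : ContinuousAt (fun w => G ((1 - w) / (1 - y))) u :=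
    ContinuousAt.comp (f := fun w : ℝ => (1 - w) / (1 - y))
      (hc _ (div_pos (by linarith) y1) ((div_lt_one y1).2 (by linarith))) (by fun_prop)
  have n1 : G (y / u) - 1 ≠ 0 := by rw [eu]; exact sub_ne_zero.2 ht
  refine (((continuousAt_const.sub c2).add (continuousAt_const.mul (c3.sub continuousAt_const))).div
    c1 n1).congr (f := fun w =>
      (G y - G (1 - w) + M (1 - y) * (G ((1 - w) / (1 - y)) - 1)) / (G (y / w) - 1)) ?_
  filter_upwards [Ioo_mem_nhds yu u1, c1.eventually_ne n1] with w hw hn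
  rw [← key w hw.1 hw.2, mul_div_cancel_right₀ _ hn]

theorem Reg_main {g : ℝ → ℝ} (hg : TR.HE g) (hc : ∀ x, 0 < x → x < 1 → ContinuousAt g x) :
    (∃ c : ℝ, ∀ x ∈ Set.Icc (0 : ℝ) 1, g x = (2 * c - c ^ 2) * x + (c ^ 2 - c) / 2) ∨
    (∃ c : ℝ, g 0 = 0 ∧ g 1 = 1 ∧
      ∀ x ∈ Set.Ioo (0 : ℝ) 1, g x = (1 - c ^ 2) * x + (c ^ 2 + c) / 2) ∨
    (∀ x ∈ Set.Icc (0 : ℝ) 1, ∀ y ∈ Set.Icc (0 : ℝ) 1, g (x * y) = g x * g y) ∨
    (∃ c : ℝ, ∀ x ∈ Set.Icc (0 : ℝ) 1,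
      g x = (c - 2) * (c - 3) / 6 * x + (3 * c - c ^ 2) / 2 * x ^ 2 +
        (c ^ 2 - 2 * c) / 3 * x ^ 3) ∨
    ∃ c : ℝ, ∀ x ∈ Set.Icc (0 : ℝ) 1,
      g x = c * (5 - 3 * c) / 2 * x ^ 4 + (c - 1) * (3 * c - 5) / 5 * x ^ 5 +
        c * (c - 1) / 30 * (2 * x - 15 * x ^ 2 + 40 * x ^ 3) := by
  have cG : ∀ x, 0 < x → x < 1 → ContinuousAt (TR.sg g) x := fun x a b =>
    (hc x a b).add (ContinuousAt.comp (f := fun w : ℝ => 1 - w)
      (hc _ (by linarith) (by linarith)) (by fun_prop))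
  have one : ∀ c : ℝ, (∀ x ∈ Set.Icc (0 : ℝ) 1, TR.sg g x = c) →
      ∃ c : ℝ, ∀ x ∈ Set.Icc (0 : ℝ) 1, g x = (2 * c - c ^ 2) * x + (c ^ 2 - c) / 2 := fun c h =>
    ⟨c, Reg_eq hg (Part.he (Or.inl ⟨c, fun x _ => rfl⟩)) (fun x hx => by rw [h x hx]; ring) hc
      fun x _ _ => by fun_prop⟩
  rcases CL.lst_sg hg with ⟨c, h⟩ | ⟨h0, h1, c, h⟩ | ⟨M, hM, h⟩ | ⟨t, h⟩ | ⟨μ, h⟩ |
    ⟨O, hq, ρ, hρ, h⟩
  · exact Or.inl (one c h)
  · classical
    let g₁ : ℝ → ℝ := fun x => if x = 0 then 0 else if x = 1 then 1 else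
      (1 - (c - 1) ^ 2) * x + ((c - 1) ^ 2 + (c - 1)) / 2
    have a0 : g₁ 0 = 0 := by simp [g₁]
    have a1 : g₁ 1 = 1 := by simp [g₁]
    have a2 : ∀ x ∈ Set.Ioo (0 : ℝ) 1,
        g₁ x = (1 - (c - 1) ^ 2) * x + ((c - 1) ^ 2 + (c - 1)) / 2 := fun x hx => by
      simp only [g₁, if_neg hx.1.ne', if_neg hx.2.ne]
    have k := Reg_eq hg (GSPart_two a0 a1 a2) (fun x hx => ?_) hc fun x x0 x1 => ?_
    · exact Or.inr (Or.inl ⟨c - 1, (k 0 ⟨le_rfl, zero_le_one⟩).trans a0,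
        (k 1 ⟨zero_le_one, le_rfl⟩).trans a1, fun x hx => (k x ⟨hx.1.le, hx.2.le⟩).trans (a2 x hx)⟩)
    · rcases hx.1.eq_or_lt with rfl | x0
      · rw [sub_zero, a0, a1, h0, zero_add]
      rcases hx.2.eq_or_lt with rfl | x1
      · rw [sub_self, a0, a1, h1, add_zero]
      rw [a2 x ⟨x0, x1⟩, a2 _ ⟨by linarith, by linarith⟩, h x ⟨x0, x1⟩]
      ring
    · refine ContinuousAt.congr (f := fun x =>
        (1 - (c - 1) ^ 2) * x + ((c - 1) ^ 2 + (c - 1)) / 2) (by fun_prop) ?_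
      filter_upwards [Ioo_mem_nhds x0 x1] with w hw
      exact (a2 w hw).symm
  · by_cases ht : ∃ t, 0 < t ∧ t < 1 ∧ TR.sg g t ≠ 1
    · obtain ⟨t, t0, t1, ht⟩ := ht
      have k := Reg_eq hg (Part.he (Or.inr (Or.inr (Or.inl hM)))) (fun x hx => (h x hx).symm) hc
        (Reg_mul hM h cG t0 t1 ht)
      refine Or.inr (Or.inr (Or.inl fun x hx y hy => ?_))
      rw [k _ (GSSufB_mul hx hy), k x hx, k y hy, hM x hx y hy]
    · push Not at ht
      have m0 : (0 : ℝ) ∈ Set.Icc (0 : ℝ) 1 := ⟨le_rfl, zero_le_one⟩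
      have m1 : (1 : ℝ) ∈ Set.Icc (0 : ℝ) 1 := ⟨zero_le_one, le_rfl⟩
      have mh : (1 / 2 : ℝ) ∈ Set.Icc (0 : ℝ) 1 := ⟨by norm_num, by norm_num⟩
      have b := h _ mh
      have b0 := hM 0 m0 _ mh
      have b1 := hM 1 m1 _ mh
      rw [ht _ (by norm_num) (by norm_num), show (1 : ℝ) - 1 / 2 = 1 / 2 by norm_num] at b
      have b2 : M (1 / 2) = 1 / 2 := by linarith
      rw [zero_mul, b2] at b0
      rw [one_mul, b2] at b1
      refine Or.inl (one 1 fun x hx => ?_)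
      rcases hx.1.eq_or_lt with rfl | x0
      · rw [h 0 m0, sub_zero]; linarith
      rcases hx.2.eq_or_lt with rfl | x1
      · rw [h 1 m1, sub_self]; linarith
      exact ht x x0 x1
  · exact Or.inr (Or.inr (Or.inr (Or.inl ⟨t, Reg_eq hg
      (Part.he (Or.inr (Or.inr (Or.inr (Or.inl ⟨t, fun x _ => rfl⟩)))))
      (fun x hx => by rw [h x hx]; ring) hc fun x _ _ => by fun_prop⟩)))
  · exact Or.inr (Or.inr (Or.inr (Or.inr ⟨μ, Reg_eq hg
      (Part.he (Or.inr (Or.inr (Or.inr (Or.inr (Or.inl ⟨μ, fun x _ => rfl⟩))))))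
      (fun x hx => by rw [h x hx]; ring) hc fun x _ _ => by fun_prop⟩)))
  · have hr : ∀ q : ℚ, (q : ℝ) ∈ Set.Icc (0 : ℝ) 1 → TR.sg g q = 1 := fun q hx => by
      rw [h _ hx, hρ _ (hq q)]
    refine Or.inl (one 1 fun x hx => ?_)
    rcases hx.1.eq_or_lt with rfl | x0
    · simpa using hr 0 (by simp)
    rcases hx.2.eq_or_lt with rfl | x1
    · simpa using hr 1 (by simp)
    by_contra hn
    obtain ⟨a, b, hab, hs⟩ := mem_nhds_iff_exists_Ioo_subset.1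
      (Filter.inter_mem ((cG x x0 x1).eventually_ne hn) (Ioo_mem_nhds x0 x1))
    obtain ⟨q, q1, q2⟩ := exists_rat_btwn (hab.1.trans hab.2)
    have := hs ⟨q1, q2⟩
    exact this.1 (hr q ⟨this.2.1.le, this.2.2.le⟩)

/-- A continuous multiplicative function that does not vanish is a power. -/
theorem Reg_pow {g : ℝ → ℝ}
    (hM : ∀ x ∈ Set.Icc (0 : ℝ) 1, ∀ y ∈ Set.Icc (0 : ℝ) 1, g (x * y) = g x * g y)
    (hc : ∀ x, 0 < x → x < 1 → ContinuousAt g x) (hp : ∀ x, 0 < x → x < 1 → 0 < g x) :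
    ∃ α : ℝ, ∀ x, 0 < x → x < 1 → g x = x ^ α := by
  let L : ℝ → ℝ := fun s => Real.log (g (Real.exp (-s)))
  have m : ∀ s : ℝ, 0 < s → Real.exp (-s) < 1 := fun s h => Real.exp_lt_one_iff.2 (by linarith)
  have ad : ∀ s t, 0 < s → 0 < t → L (s + t) = L s + L t := fun s t a b => by
    simp only [L]
    rw [neg_add, Real.exp_add, hM _ ⟨(Real.exp_pos _).le, (m s a).le⟩ _
      ⟨(Real.exp_pos _).le, (m t b).le⟩, Real.log_mul (hp _ (Real.exp_pos _) (m s a)).ne'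
      (hp _ (Real.exp_pos _) (m t b)).ne']
  have cL : ∀ s, 0 < s → ContinuousAt L s := fun s a =>
    (ContinuousAt.comp (f := fun s : ℝ => Real.exp (-s)) (hc _ (Real.exp_pos _) (m s a))
      (by fun_prop)).log (hp _ (Real.exp_pos _) (m s a)).ne'
  have p1 : ∀ s : ℝ, 0 < |s| + 1 := fun s => by positivity
  have p2 : ∀ s : ℝ, 0 < |s| + 1 + s := fun s => by linarith [neg_abs_le s]
  have ind : ∀ s u, 0 < u → 0 < u + s → L (|s| + 1 + s) - L (|s| + 1) = L (u + s) - L u :=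
    fun s u a b => by
      have k1 := ad _ _ (p2 s) a
      have k2 := ad _ _ b (p1 s)
      rw [show u + s + (|s| + 1) = |s| + 1 + s + u by ring] at k2
      linarith
  let A : ℝ →+ ℝ := AddMonoidHom.mk' (fun s => L (|s| + 1 + s) - L (|s| + 1)) fun s t => by
    have a := neg_abs_le s
    have b := neg_abs_le t
    have c := abs_nonneg s
    have d := abs_nonneg t
    rw [ind (s + t) (|s| + |t| + 1) (by linarith) (by linarith),
      ind s (|s| + |t| + 1) (by linarith) (by linarith),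
      ind t (|s| + |t| + 1 + s) (by linarith) (by linarith), ← add_assoc]
    ring
  have cA : Continuous A := continuous_iff_continuousAt.2 fun s =>
    (ContinuousAt.comp (f := fun s : ℝ => |s| + 1 + s) (cL _ (p2 s)) (by fun_prop)).sub
      (ContinuousAt.comp (f := fun s : ℝ => |s| + 1) (cL _ (p1 s)) (by fun_prop))
  refine ⟨-A 1, fun x x0 x1 => ?_⟩
  have s0 : 0 < -Real.log x := neg_pos.2 (Real.log_neg x0 x1)
  have k : A (-Real.log x • (1 : ℝ)) = -Real.log x • A 1 := map_real_smul A cA _ 1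
  have k2 : A (-Real.log x) = L (-Real.log x) := by
    change L _ - L _ = _
    rw [ind _ _ s0 (by linarith), ad _ _ s0 s0]
    ring
  rw [smul_eq_mul, mul_one, k2, smul_eq_mul] at k
  simp only [L, neg_neg, Real.exp_log x0] at k
  rw [Real.rpow_def_of_pos x0, ← Real.exp_log (hp x x0 x1), k]
  congr 1
  ring

/-- The continuous multiplicative functions. -/
theorem Reg_mult {g : ℝ → ℝ}
    (hM : ∀ x ∈ Set.Icc (0 : ℝ) 1, ∀ y ∈ Set.Icc (0 : ℝ) 1, g (x * y) = g x * g y)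
    (hc : ∀ x, 0 < x → x < 1 → ContinuousAt g x) :
    (∃ c : ℝ, ∀ x ∈ Set.Icc (0 : ℝ) 1, g x = (2 * c - c ^ 2) * x + (c ^ 2 - c) / 2) ∨
    (∃ c : ℝ, g 0 = 0 ∧ g 1 = 1 ∧
      ∀ x ∈ Set.Ioo (0 : ℝ) 1, g x = (1 - c ^ 2) * x + (c ^ 2 + c) / 2) ∨
    ∃ c : ℝ, g 0 = 0 ∧ g 1 = 1 ∧ ∀ x ∈ Set.Ioo (0 : ℝ) 1, g x = x ^ c := by
  have m0 : (0 : ℝ) ∈ Set.Icc (0 : ℝ) 1 := ⟨le_rfl, zero_le_one⟩
  have m1 : (1 : ℝ) ∈ Set.Icc (0 : ℝ) 1 := ⟨zero_le_one, le_rfl⟩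
  by_cases h0 : g 0 = 0
  swap
  · refine Or.inl ⟨2, fun x hx => ?_⟩
    have k := hM 0 m0 x hx
    rw [zero_mul] at k
    have : g x = 1 := mul_left_cancel₀ h0 (by rw [← k, mul_one])
    rw [this]
    ring
  by_cases h1 : g 1 = 0
  · refine Or.inl ⟨0, fun x hx => ?_⟩
    have k := hM 1 m1 x hx
    rw [one_mul, h1, zero_mul] at k
    rw [k]
    ring
  have g1 : g 1 = 1 := by
    have k := hM 1 m1 1 m1
    rw [one_mul] at k
    exact mul_left_cancel₀ h1 (by rw [← k, mul_one])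
  by_cases hz : ∃ t, 0 < t ∧ t < 1 ∧ g t = 0
  · obtain ⟨t, t0, t1, ht⟩ := hz
    refine Or.inr (Or.inl ⟨-1, h0, g1, fun x hx => ?_⟩)
    have pw : ∀ n : ℕ, g (x ^ n) = g x ^ n := fun n => by
      induction n with
      | zero => rw [pow_zero, pow_zero, g1]
      | succ n ih =>
        rw [pow_succ, pow_succ, hM _ ⟨pow_nonneg hx.1.le n, pow_le_one₀ hx.1.le hx.2.le⟩ x
          ⟨hx.1.le, hx.2.le⟩, ih]
    obtain ⟨n, hn⟩ := exists_pow_lt_of_lt_one t0 hx.2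
    have k := hM t ⟨t0.le, t1.le⟩ (x ^ n / t)
      ⟨div_nonneg (pow_nonneg hx.1.le n) t0.le, (div_le_one t0).2 hn.le⟩
    rw [mul_div_cancel₀ _ t0.ne', ht, zero_mul, pw] at k
    rw [eq_zero_of_pow_eq_zero k]
    ring
  · push Not at hz
    obtain ⟨c, h⟩ := Reg_pow hM hc fun x x0 x1 => by
      have a : 0 < √x := Real.sqrt_pos.2 x0
      have b : √x < 1 := by rwa [Real.sqrt_lt' one_pos, one_pow]
      have k := hM _ ⟨a.le, b.le⟩ _ ⟨a.le, b.le⟩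
      rw [Real.mul_self_sqrt x0.le] at k
      rw [k]
      exact mul_self_pos.2 (hz _ a b)
    exact Or.inr (Or.inr ⟨c, h0, g1, fun x hx => h x hx.1 hx.2⟩)

theorem Reg_pow_mul {g : ℝ → ℝ} {c : ℝ} (h0 : g 0 = 0) (h1 : g 1 = 1)
    (h : ∀ x ∈ Set.Ioo (0 : ℝ) 1, g x = x ^ c) :
    ∀ x ∈ Set.Icc (0 : ℝ) 1, ∀ y ∈ Set.Icc (0 : ℝ) 1, g (x * y) = g x * g y := by
  intro x hx y hy
  rcases hx.1.eq_or_lt with rfl | x0
  · rw [zero_mul, h0, zero_mul]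
  rcases hx.2.eq_or_lt with rfl | x1
  · rw [one_mul, h1, one_mul]
  rcases hy.1.eq_or_lt with rfl | y0
  · rw [mul_zero, h0, mul_zero]
  rcases hy.2.eq_or_lt with rfl | y1
  · rw [mul_one, h1, mul_one]
  rw [h _ ⟨mul_pos x0 y0, mul_lt_one_of_nonneg_of_lt_one_left x0.le x1 y1.le⟩, h x ⟨x0, x1⟩,
    h y ⟨y0, y1⟩, Real.mul_rpow x0.le y0.le]

open MeasureTheory

theorem Reg_bad {a s : ℕ → ℝ} {η c p q : ℝ} (hc : 0 < c)
    (hs : ∀ n, 0 ≤ s n ∧ s n ≤ s (n + 1) ∧ s n ≤ η) {φ : ℝ → ℝ}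
    (hφ : ∀ y ∈ Set.Icc p q, ∀ y' ∈ Set.Icc p q, c * |y - y'| ≤ |φ y - φ y'|) :
    volume {y ∈ Set.Icc p q | ∃ n, a n < φ y ∧ φ y < a n + (s (n + 1) - s n)} ≤
      ENNReal.ofReal (η / c) := by
  have e : {y ∈ Set.Icc p q | ∃ n, a n < φ y ∧ φ y < a n + (s (n + 1) - s n)} =
      ⋃ n, {y ∈ Set.Icc p q | a n < φ y ∧ φ y < a n + (s (n + 1) - s n)} := by
    ext y
    simp only [Set.mem_ofPred_eq, Set.mem_iUnion, exists_and_left]
  rw [e]
  refine (measure_iUnion_le _).trans ((ENNReal.tsum_le_tsum (g := fun n =>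
    ENNReal.ofReal ((s (n + 1) - s n) / c)) fun n => ?_).trans ?_)
  · refine (Real.volume_le_diam _).trans (Metric.ediam_le fun y hy y' hy' => ?_)
    rw [edist_dist, Real.dist_eq]
    refine ENNReal.ofReal_le_ofReal ?_
    rw [le_div_iff₀' hc]
    refine (hφ y hy.1 y' hy'.1).trans (abs_le.2 ⟨?_, ?_⟩) <;>
      linarith [hy.2.1, hy.2.2, hy'.2.1, hy'.2.2]
  · refine ENNReal.tsum_le_of_sum_range_le fun N => ?_
    rw [← ENNReal.ofReal_sum_of_nonneg fun n _ => div_nonneg (sub_nonneg.2 (hs n).2.1) hc.le,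
      ← Finset.sum_div, Finset.sum_range_sub]
    exact ENNReal.ofReal_le_ofReal (div_le_div_of_nonneg_right
      (by linarith [(hs 0).1, (hs N).2.2]) hc.le)

theorem Reg_good {a s : ℕ → ℝ} {η c p q : ℝ} (hc : 0 < c)
    (hs : ∀ n, 0 ≤ s n ∧ s n ≤ s (n + 1) ∧ s n ≤ η) (hη : 7 * (η / c) < q - p)
    (φ : Fin 7 → ℝ → ℝ)
    (hφ : ∀ i, ∀ y ∈ Set.Icc p q, ∀ y' ∈ Set.Icc p q, c * |y - y'| ≤ |φ i y - φ i y'|) :
    ∃ y ∈ Set.Icc p q, ∀ i n, ¬(a n < φ i y ∧ φ i y < a n + (s (n + 1) - s n)) := by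
  by_contra hn
  have h0 : 0 ≤ η / c := div_nonneg ((hs 0).1.trans (hs 0).2.2) hc.le
  have sub : Set.Icc p q ⊆
      ⋃ i, {y ∈ Set.Icc p q | ∃ n, a n < φ i y ∧ φ i y < a n + (s (n + 1) - s n)} := by
    intro y hy
    by_contra k
    exact hn ⟨y, hy, fun i n h => k (Set.mem_iUnion.2 ⟨i, hy, n, h⟩)⟩
  have k := (measure_mono sub).trans ((measure_iUnion_fintype_le volume _).trans
    (Finset.sum_le_sum fun i _ => Reg_bad (a := a) hc hs (hφ i)))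
  rw [Real.volume_Icc, ← ENNReal.ofReal_sum_of_nonneg fun _ _ => h0,
    ENNReal.ofReal_le_ofReal_iff (Finset.sum_nonneg fun _ _ => h0)] at k
  simp only [Finset.sum_const, Finset.card_univ, Fintype.card_fin, nsmul_eq_mul,
    Nat.cast_ofNat] at k
  linarith

theorem Reg_quot {C : Set (ℝ × ℝ)} (hC : IsCompact C) {π H : ℝ × ℝ → ℝ} (hπ : Continuous π)
    (hH : ContinuousOn H C) {g : ℝ → ℝ} (e : ∀ z ∈ C, g (π z) = H z) :
    ContinuousOn g (π '' C) := by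
  refine continuousOn_iff_isClosed.2 fun Z hZ => ⟨π '' (C ∩ H ⁻¹' Z), ((hC.of_isClosed_subset
    (hH.preimage_isClosed_of_isClosed hC.isClosed hZ) Set.inter_subset_left).image hπ).isClosed, ?_⟩
  ext t
  constructor
  · rintro ⟨h, z, hz, rfl⟩
    exact ⟨⟨z, ⟨hz, by rwa [Set.mem_preimage, ← e z hz]⟩, rfl⟩, z, hz, rfl⟩
  · rintro ⟨⟨z, hz, rfl⟩, h⟩
    exact ⟨by rw [Set.mem_preimage, e z hz.1]; exact hz.2, h⟩

/-- A solution with the Lusin property is continuous on the open interval. -/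
theorem Reg_lusin {g : ℝ → ℝ} (hg : TR.HE g)
    (hL : ∀ η : ℝ, 0 < η → ∃ a s : ℕ → ℝ, (∀ n, 0 ≤ s n ∧ s n ≤ s (n + 1) ∧ s n ≤ η) ∧
      ContinuousOn g {x ∈ Set.Icc (0 : ℝ) 1 | ∀ n, ¬(a n < x ∧ x < a n + (s (n + 1) - s n))})
    (u : ℝ) (u0 : 0 < u) (u1 : u < 1) : ContinuousAt g u := by
  obtain ⟨c, c0, c1, c2⟩ : ∃ c : ℝ, 0 < c ∧ c ≤ u / 2 ∧ c ≤ (1 - u) ^ 2 / 8 :=
    ⟨min _ _, lt_min (by linarith) (by have : 0 < 1 - u := by linarith
                                       positivity), min_le_left _ _, min_le_right _ _⟩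
  obtain ⟨a, s, hs, hK⟩ := hL (c * ((1 - u) / 56)) (mul_pos c0 (by linarith))
  obtain ⟨K, eK⟩ : ∃ K, K = {x ∈ Set.Icc (0 : ℝ) 1 |
    ∀ n, ¬(a n < x ∧ x < a n + (s (n + 1) - s n))} := ⟨_, rfl⟩
  rw [← eK] at hK
  have sK : K ⊆ Set.Icc 0 1 := fun x hx => (eK ▸ hx :).1
  have cK : IsClosed K := by
    rw [eK]
    refine isClosed_Icc.inter ?_
    have : IsClosed (⋂ n, (Set.Ioo (a n) (a n + (s (n + 1) - s n)))ᶜ) :=
      isClosed_iInter fun n => isOpen_Ioo.isClosed_compl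
    convert this using 1
    ext x
    simp only [Set.mem_iInter, Set.mem_compl_iff, Set.mem_Ioo]
    rfl
  let ψ : Fin 7 → ℝ × ℝ → ℝ := ![fun z => z.1, fun z => 1 - z.1, fun z => z.2, fun z => 1 - z.2,
    fun z => z.1 * (1 - z.2), fun z => (1 - z.1) * z.2, fun z => (1 - z.1) * (1 - z.2)]
  have cψ : ∀ i, Continuous (ψ i) := fun i => by
    fin_cases i <;> simp only [ψ] <;> first | fun_prop | (simp; fun_prop)
  let C : Set (ℝ × ℝ) := ⋂ i, ψ i ⁻¹' K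
  have mC : ∀ z ∈ C, ∀ i, ψ i z ∈ K := fun z hz => Set.mem_iInter.1 hz
  have hC : IsCompact C := (isCompact_Icc.prod isCompact_Icc).of_isClosed_subset
    (isClosed_iInter fun i => cK.preimage (cψ i)) fun z hz => ⟨sK (mC z hz 0), sK (mC z hz 2)⟩
  have cg : ∀ i, ContinuousOn (fun z => g (ψ i z)) C := fun i =>
    hK.comp (cψ i).continuousOn fun z hz => mC z hz i
  have k := Reg_quot hC (π := fun z => z.1 * z.2) (by fun_prop)
    (((((cg 0).add (cg 1)).mul ((cg 2).add (cg 3))).sub (cg 4)).sub (cg 5) |>.sub (cg 6))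
    (g := g) fun z hz => by
      have a1 := sK (mC z hz 0)
      have a2 := sK (mC z hz 2)
      have := hg z.1 z.2 a1.1 a1.2 a2.1 a2.2
      simp only [TR.sg] at this
      change _ = (g z.1 + g (1 - z.1)) * (g z.2 + g (1 - z.2)) - g (z.1 * (1 - z.2)) -
        g ((1 - z.1) * z.2) - g ((1 - z.1) * (1 - z.2))
      linarith
  refine k.continuousAt (Filter.mem_of_superset
    (Ioo_mem_nhds (show u / 2 < u by linarith) (show u < u + c by linarith)) fun t ht => ?_)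
  have t0 : 0 < t := by linarith [ht.1]
  have tc : c ≤ t := by linarith [ht.1]
  have hy : ∀ y ∈ Set.Icc ((1 + u) / 2) ((3 + u) / 4), ∀ y' ∈ Set.Icc ((1 + u) / 2) ((3 + u) / 4),
      0 < y ∧ 0 < y' ∧ y * y' ≤ 1 ∧ t + c ≤ y * y' := fun y h y' h' => by
    have b1 : (1 + u) / 2 * ((1 + u) / 2) ≤ y * y' :=
      mul_le_mul h.1 h'.1 (by linarith) (by linarith [h.1])
    exact ⟨by linarith [h.1], by linarith [h'.1], mul_le_one₀ (by linarith [h.2])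
      (by linarith [h'.1]) (by linarith [h'.2]), by nlinarith [ht.2]⟩
  have ab : ∀ (y y' w r : ℝ), c ≤ |r| → w = r * (y - y') → c * |y - y'| ≤ |w| :=
    fun y y' w r h e => by
      rw [e, abs_mul]
      exact mul_le_mul_of_nonneg_right h (abs_nonneg _)
  obtain ⟨y, my, H⟩ := Reg_good (a := a) (p := (1 + u) / 2) (q := (3 + u) / 4) c0 hs
    (by rw [mul_div_cancel_left₀ _ c0.ne']; linarith) (fun i y => ψ i (t / y, y))
    fun i y h y' h' => by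
      obtain ⟨y0, y0', b1, b2⟩ := hy y h y' h'
      have yy := mul_pos y0 y0'
      have d1 : c ≤ t / (y * y') := tc.trans (by rw [le_div_iff₀ yy]; nlinarith)
      have d2 : c ≤ 1 - t / (y * y') := by
        rw [le_sub_comm, div_le_iff₀ yy]
        nlinarith
      have d3 : c ≤ 1 := by linarith
      fin_cases i
      · exact ab y y' (t / y - t / y') (-(t / (y * y'))) (by rw [abs_neg]; exact le_abs.2 (.inl d1))
          (by field_simp; ring)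
      · exact ab y y' (1 - t / y - (1 - t / y')) (t / (y * y')) (le_abs.2 (.inl d1))
          (by field_simp; ring)
      · exact ab y y' (y - y') 1 (by rwa [abs_one]) (by ring)
      · exact ab y y' (1 - y - (1 - y')) (-1) (by rwa [abs_neg, abs_one]) (by ring)
      · exact ab y y' (t / y * (1 - y) - t / y' * (1 - y')) (-(t / (y * y')))
          (by rw [abs_neg]; exact le_abs.2 (.inl d1)) (by field_simp; ring)
      · exact ab y y' ((1 - t / y) * y - (1 - t / y') * y') 1 (by rwa [abs_one])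
          (by field_simp; ring)
      · exact ab y y' ((1 - t / y) * (1 - y) - (1 - t / y') * (1 - y')) (-(1 - t / (y * y')))
          (by rw [abs_neg]; exact le_abs.2 (.inl d2)) (by field_simp; ring)
  obtain ⟨y0, -, b1, b2⟩ := hy y my y my
  have y1 : y ∈ Set.Icc (0 : ℝ) 1 := ⟨y0.le, by linarith [my.2]⟩
  have x1 : t / y ∈ Set.Icc (0 : ℝ) 1 := ⟨by positivity, (div_le_one y0).2 (by nlinarith [y1.2])⟩
  have o : ∀ {w : ℝ}, w ∈ Set.Icc (0 : ℝ) 1 → 1 - w ∈ Set.Icc (0 : ℝ) 1 := fun h =>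
    ⟨by linarith [h.2], by linarith [h.1]⟩
  have m : ∀ {v w : ℝ}, v ∈ Set.Icc (0 : ℝ) 1 → w ∈ Set.Icc (0 : ℝ) 1 →
      v * w ∈ Set.Icc (0 : ℝ) 1 := fun h h' => ⟨mul_nonneg h.1 h'.1, mul_le_one₀ h.2 h'.1 h'.2⟩
  refine ⟨(t / y, y), Set.mem_iInter.2 fun i => ?_, div_mul_cancel₀ _ y0.ne'⟩
  rw [Set.mem_preimage, eK]
  refine ⟨?_, H i⟩
  fin_cases i
  exacts [x1, o x1, y1, o y1, m x1 (o y1), m (o x1) y1, m (o x1) (o y1)]

theorem Reg_at {g : ℝ → ℝ} {x : ℝ} : ContinuousAt g x ↔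
    ∀ ε : ℝ, 0 < ε → ∃ δ : ℝ, 0 < δ ∧ ∀ y : ℝ, |y - x| < δ → |g y - g x| < ε :=
  Metric.continuousAt_iff

theorem Reg_uni {f : ℝ → ℝ} (hf : Uni f)
    (hc : ∀ x ∈ Set.Ioo (0 : ℝ) 1,
      ∀ ε : ℝ, 0 < ε → ∃ δ : ℝ, 0 < δ ∧ ∀ y : ℝ, |y - x| < δ → |f y - f x| < ε) :
    ∀ x ∈ Set.Icc (0 : ℝ) 1, f x = 0 := by
  obtain ⟨a₁, a₂, k⟩ := hf
  exact Reg_hh (GSSufB_congr (GSUni_suf a₁ a₂) k) fun x a b => Reg_at.2 (hc x ⟨a, b⟩)

theorem Reg_list {g : ℝ → ℝ}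
    (hc : ∀ x ∈ Set.Ioo (0 : ℝ) 1,
      ∀ ε : ℝ, 0 < ε → ∃ δ : ℝ, 0 < δ ∧ ∀ y : ℝ, |y - x| < δ → |g y - g x| < ε) :
    TR.HE g ↔ ∃ c : ℝ,
      (∀ x ∈ Set.Icc (0 : ℝ) 1, g x = (2 * c - c ^ 2) * x + (c ^ 2 - c) / 2) ∨
      (g 0 = 0 ∧ g 1 = 1 ∧ ∀ x ∈ Set.Ioo (0 : ℝ) 1, g x = (1 - c ^ 2) * x + (c ^ 2 + c) / 2) ∨
      (g 0 = 0 ∧ g 1 = 1 ∧ ∀ x ∈ Set.Ioo (0 : ℝ) 1, g x = x ^ c) ∨
      (∀ x ∈ Set.Icc (0 : ℝ) 1, g x = (c - 2) * (c - 3) / 6 * x + (3 * c - c ^ 2) / 2 * x ^ 2 +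
        (c ^ 2 - 2 * c) / 3 * x ^ 3) ∨
      ∀ x ∈ Set.Icc (0 : ℝ) 1,
        g x = c * (5 - 3 * c) / 2 * x ^ 4 + (c - 1) * (3 * c - 5) / 5 * x ^ 5 +
          c * (c - 1) / 30 * (2 * x - 15 * x ^ 2 + 40 * x ^ 3) := by
  have hc' : ∀ x, 0 < x → x < 1 → ContinuousAt g x := fun x a b => Reg_at.2 (hc x ⟨a, b⟩)
  constructor
  · intro hg
    rcases Reg_main hg hc' with ⟨c, h⟩ | ⟨c, h⟩ | h | ⟨c, h⟩ | ⟨c, h⟩
    · exact ⟨c, Or.inl h⟩
    · exact ⟨c, Or.inr (Or.inl h)⟩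
    · rcases Reg_mult h hc' with ⟨c, h⟩ | ⟨c, h⟩ | ⟨c, h⟩
      · exact ⟨c, Or.inl h⟩
      · exact ⟨c, Or.inr (Or.inl h)⟩
      · exact ⟨c, Or.inr (Or.inr (Or.inl h))⟩
    · exact ⟨c, Or.inr (Or.inr (Or.inr (Or.inl h)))⟩
    · exact ⟨c, Or.inr (Or.inr (Or.inr (Or.inr h)))⟩
  · rintro ⟨c, h | h | h | h | h⟩
    · exact Part.he (Or.inl ⟨c, h⟩)
    · exact Part.he (Or.inr (Or.inl ⟨c, h⟩))
    · exact Part.he (Or.inr (Or.inr (Or.inl (Reg_pow_mul h.1 h.2.1 h.2.2))))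
    · exact Part.he (Or.inr (Or.inr (Or.inr (Or.inl ⟨c, h⟩))))
    · exact Part.he (Or.inr (Or.inr (Or.inr (Or.inr (Or.inl ⟨c, h⟩)))))

theorem Reg_meas {g : ℝ → ℝ} (hg : TR.HE g)
    (hL : ∀ η : ℝ, 0 < η → ∃ a b s : ℕ → ℝ, s 0 = 0 ∧
      (∀ n, a n ≤ b n ∧ s (n + 1) = s n + (b n - a n) ∧ s n ≤ η) ∧
      ∀ x ∈ Set.Icc (0 : ℝ) 1, (∀ n, x ∉ Set.Ioo (a n) (b n)) →
        ∀ ε : ℝ, 0 < ε → ∃ δ : ℝ, 0 < δ ∧ ∀ y ∈ Set.Icc (0 : ℝ) 1,
          (∀ n, y ∉ Set.Ioo (a n) (b n)) → |y - x| < δ → |g y - g x| < ε) :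
    ∀ x ∈ Set.Ioo (0 : ℝ) 1,
      ∀ ε : ℝ, 0 < ε → ∃ δ : ℝ, 0 < δ ∧ ∀ y : ℝ, |y - x| < δ → |g y - g x| < ε := by
  refine fun x hx => Reg_at.1 (Reg_lusin hg (fun η hη => ?_) x hx.1 hx.2)
  obtain ⟨a, b, s, s0, hs, h⟩ := hL η hη
  have e : ∀ n, a n + (s (n + 1) - s n) = b n := fun n => by linarith [(hs n).2.1]
  have up : ∀ n, s n ≤ s (n + 1) := fun n => by linarith [(hs n).1, (hs n).2.1]
  refine ⟨a, s, fun n => ⟨s0 ▸ monotone_nat_of_le_succ up n.zero_le, up n, (hs n).2.2⟩, ?_⟩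
  simp only [e]
  refine Metric.continuousOn_iff.2 fun x hx ε hε => ?_
  obtain ⟨δ, δ0, k⟩ := h x hx.1 hx.2 ε hε
  exact ⟨δ, δ0, fun y hy => k y hy.1 hy.2⟩

end Pool.Agent.P.MP_6d4b14_an.GS
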