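import Pool.Agent.P.MP_6d4b14_an.TRInf

/-! Transfer between the reals and the hyperreals. -/

set_option linter.unusedSectionVars false
set_option linter.unusedVariables false

namespace Pool.Agent.P.MP_6d4b14_an.TR

open scoped Classical
open Function

theorem lift_ofSeq (f : ℝ → ℝ) (u : ℕ → ℝ) :
    lift f (Hyperreal.ofSeq u) = Hyperreal.ofSeq fun n => f (u n) := rfl

theorem lift_coe (f : ℝ → ℝ) (r : ℝ) : lift f (r : K) = (f r : ℝ) := rfl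

theorem sg_lift (g : ℝ → ℝ) : sg (lift g) = lift (sg g) := by
  funext x
  obtain ⟨u, rfl⟩ := Hyperreal.ofSeq_surjective x
  rfl

theorem TRLift_eq {u v : ℕ → ℝ} :
    Hyperreal.ofSeq u = Hyperreal.ofSeq v ↔ ∀ᶠ n in Filter.hyperfilter ℕ, u n = v n :=
  Filter.Germ.coe_eq

theorem TRLift_inf {u : ℕ → ℝ} (h : ∀ᶠ m in Filter.hyperfilter ℕ, |u m| ≤ 2 / ((m : ℝ) + 1)) :
    Hyperreal.ofSeq u ∈ Inf := by
  intro r hr
  have h1 : ∀ᶠ m : ℕ in Filter.atTop, 1 / ((m : ℝ) + 1) < r / 2 :=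
    tendsto_one_div_add_atTop_nhds_zero_nat.eventually (gt_mem_nhds (half_pos hr))
  have h2 : ∀ᶠ m in Filter.hyperfilter ℕ, |u m| < r := by
    filter_upwards [h, h1.filter_mono Nat.hyperfilter_le_atTop] with m a b
    have e : 2 / ((m : ℝ) + 1) = 2 * (1 / ((m : ℝ) + 1)) := by ring
    linarith
  rw [abs_lt]
  exact ⟨(Hyperreal.ofSeq_lt_ofSeq (f := fun _ => -r)).2 (h2.mono fun m a => (abs_lt.1 a).1),
    (Hyperreal.ofSeq_lt_ofSeq (g := fun _ => r)).2 (h2.mono fun m a => (abs_lt.1 a).2)⟩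

theorem TRLift_diff (G : ℝ → ℝ) (h : ℕ → ℝ) (n : ℕ) (x : ℕ → ℝ) :
    (fwdDiff (Hyperreal.ofSeq h))^[n] (lift G) (Hyperreal.ofSeq x) =
      Hyperreal.ofSeq fun m => (fwdDiff (h m))^[n] G (x m) := by
  induction n generalizing x with
  | zero => rfl
  | succ n ih =>
    have e : Hyperreal.ofSeq x + Hyperreal.ofSeq h = Hyperreal.ofSeq fun m => x m + h m := rfl
    simp only [iterate_succ_apply', fwdDiff]
    rw [e, ih, ih]
    rfl

theorem TRLift_down (G : ℝ → ℝ) (h : ℝ) (n j : ℕ) (x : ℝ) (H : (fwdDiff h)^[n + j] G x ≠ 0) :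
    ∃ i : ℕ, i ≤ j ∧ (fwdDiff h)^[n] G (x + i * h) ≠ 0 := by
  induction j generalizing x with
  | zero => exact ⟨0, le_rfl, by simpa using H⟩
  | succ j ih =>
    by_cases h1 : (fwdDiff h)^[n + j] G x = 0
    · rw [← add_assoc, iterate_succ_apply', fwdDiff, h1, sub_zero] at H
      obtain ⟨i, hi, h2⟩ := ih _ H
      refine ⟨i + 1, by omega, ?_⟩
      have e : x + ((i + 1 : ℕ) : ℝ) * h = x + h + i * h := by push_cast; ring
      rwa [e]
    · obtain ⟨i, hi, h2⟩ := ih _ h1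
      exact ⟨i, by omega, h2⟩

theorem HE_lift {g : ℝ → ℝ} (h : HE g) : HE (lift g) := by
  intro x y h1 h2 h3 h4
  obtain ⟨u, rfl⟩ := Hyperreal.ofSeq_surjective x
  obtain ⟨v, rfl⟩ := Hyperreal.ofSeq_surjective y
  have a1 := (Hyperreal.ofSeq_le_ofSeq (f := fun _ => 0)).1 h1
  have a2 := (Hyperreal.ofSeq_le_ofSeq (g := fun _ => 1)).1 h2
  have a3 := (Hyperreal.ofSeq_le_ofSeq (f := fun _ => 0)).1 h3
  have a4 := (Hyperreal.ofSeq_le_ofSeq (g := fun _ => 1)).1 h4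
  refine (TRLift_eq (u := fun n => g (u n * v n) + g (u n * (1 - v n)) + g ((1 - u n) * v n) +
    g ((1 - u n) * (1 - v n))) (v := fun n => sg g (u n) * sg g (v n))).2 ?_
  filter_upwards [a1, a2, a3, a4] with n b1 b2 b3 b4
  exact h _ _ b1 b2 b3 b4

theorem SE_lift {φ G : ℝ → ℝ} (h : SE φ G) : SE (lift φ) (lift G) := by
  intro x y h1 h2 h3 h4
  obtain ⟨u, rfl⟩ := Hyperreal.ofSeq_surjective x
  obtain ⟨v, rfl⟩ := Hyperreal.ofSeq_surjective y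
  have a1 := (Hyperreal.ofSeq_lt_ofSeq (f := fun _ => 0)).1 h1
  have a2 := (Hyperreal.ofSeq_le_ofSeq (g := fun _ => 1)).1 h2
  have a3 := (Hyperreal.ofSeq_le_ofSeq (f := fun _ => 0)).1 h3
  have a4 := (Hyperreal.ofSeq_le_ofSeq (g := fun _ => 1)).1 h4
  refine (TRLift_eq (u := fun n => φ (v n * u n) + φ ((1 - v n) * u n))
    (v := fun n => G (v n) * φ (u n))).2 ?_
  filter_upwards [a1, a2, a3, a4] with n b1 b2 b3 b4
  exact h _ _ b1 b2 b3 b4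

theorem per_transfer {G : ℝ → ℝ} {h : K} (h0 : 0 < h) (hh : h ∈ Inf)
    (H : ∀ x : K, 0 ≤ x → x + h ≤ 1 → lift G (x + h) = lift G x) {ε : ℝ} (hε : 0 < ε) :
    ∃ d : ℝ, 0 < d ∧ d < ε ∧ ∀ x : ℝ, 0 ≤ x → x + d ≤ 1 → G (x + d) = G x := by
  by_contra hc
  obtain ⟨u, rfl⟩ := Hyperreal.ofSeq_surjective h
  have a1 := (Hyperreal.ofSeq_lt_ofSeq (f := fun _ => 0)).1 h0
  have a2 := (Hyperreal.ofSeq_lt_ofSeq (g := fun _ => ε)).1 (abs_lt.1 (hh ε hε)).2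
  have h1 : ∀ n, ∃ x : ℝ, 0 < u n → u n < ε → 0 ≤ x ∧ x + u n ≤ 1 ∧ G (x + u n) ≠ G x := by
    intro n
    by_contra h2
    push Not at h2
    obtain ⟨b1, b2, -⟩ := h2 0
    exact hc ⟨u n, b1, b2, fun x c1 c2 => (h2 x).2.2 c1 c2⟩
  choose x hx using h1
  have h2 : ∀ᶠ n in Filter.hyperfilter ℕ, 0 ≤ x n ∧ x n + u n ≤ 1 ∧ G (x n + u n) ≠ G (x n) := by
    filter_upwards [a1, a2] with n b1 b2
    exact hx n b1 b2
  have h3 := (TRLift_eq (u := fun n => G (x n + u n)) (v := fun n => G (x n))).1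
    (H (Hyperreal.ofSeq x)
      ((Hyperreal.ofSeq_le_ofSeq (f := fun _ => 0)).2 (h2.mono fun n b => b.1))
      ((Hyperreal.ofSeq_le_ofSeq (f := fun n => x n + u n) (g := fun _ => 1)).2
        (h2.mono fun n b => b.2.1)))
  obtain ⟨n, b1, b2⟩ := (h2.and h3).exists
  exact b1.2.2 b2

theorem lp_transfer {G : ℝ → ℝ} {c : ℝ} {θ : K} (h0 : 0 < θ)
    (H : ∀ h ∈ Inf, |h| ≤ θ → ∃ n : ℕ, ∀ s ∈ Inf, (fwdDiff h)^[n] (lift G) (c + s) = 0) :
    LP G c := by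
  by_contra hc
  obtain ⟨θ, rfl⟩ := Hyperreal.ofSeq_surjective θ
  have a1 := (Hyperreal.ofSeq_lt_ofSeq (f := fun _ => 0)).1 h0
  have h1 : ∀ m : ℕ, ∃ h x : ℝ, 0 < θ m → |h| ≤ θ m ∧ |h| ≤ 1 / ((m : ℝ) + 1) ^ 2 ∧
      |x - c| < 1 / ((m : ℝ) + 1) ∧ (fwdDiff h)^[m] G x ≠ 0 := by
    intro m
    by_contra h2
    push Not at h2
    refine hc ⟨m, 1 / ((m : ℝ) + 1), min (θ m) (1 / ((m : ℝ) + 1) ^ 2), by positivity,
      lt_min (h2 0 0).1 (by positivity), fun h x b1 b2 => ?_⟩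
    exact (h2 h x).2 (b1.trans (min_le_left _ _)) (b1.trans (min_le_right _ _)) b2
  choose h x hx using h1
  have hm : ∀ m : ℕ, (0 : ℝ) < (m : ℝ) + 1 := fun m => by positivity
  have h2 : Hyperreal.ofSeq h ∈ Inf := by
    refine TRLift_inf (a1.mono fun m b => (hx m b).2.1.trans ?_)
    rw [div_le_div_iff₀ (pow_pos (hm m) 2) (hm m)]
    nlinarith [hm m, Nat.cast_nonneg (α := ℝ) m]
  have h3 : |Hyperreal.ofSeq h| ≤ Hyperreal.ofSeq θ := by
    rw [abs_le]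
    exact ⟨(Hyperreal.ofSeq_le_ofSeq (f := fun m => -θ m)).2
      (a1.mono fun m b => (abs_le.1 (hx m b).1).1),
      Hyperreal.ofSeq_le_ofSeq.2 (a1.mono fun m b => (abs_le.1 (hx m b).1).2)⟩
  obtain ⟨n, hn⟩ := H _ h2 h3
  have h4 : ∀ m : ℕ, ∃ s : ℝ, 0 < θ m → n ≤ m →
      |s| ≤ 2 / ((m : ℝ) + 1) ∧ (fwdDiff (h m))^[n] G (c + s) ≠ 0 := by
    intro m
    by_cases b1 : 0 < θ m
    swap
    · exact ⟨0, fun b => absurd b b1⟩
    by_cases b2 : n ≤ m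
    swap
    · exact ⟨0, fun _ b => absurd b b2⟩
    obtain ⟨-, c1, c2, c3⟩ := hx m b1
    obtain ⟨j, rfl⟩ := Nat.exists_eq_add_of_le b2
    obtain ⟨i, hi, c4⟩ := TRLift_down G _ n j _ c3
    refine ⟨x (n + j) - c + i * h (n + j), fun _ _ => ⟨?_, ?_⟩⟩
    · have d1 : (i : ℝ) ≤ ((n + j : ℕ) : ℝ) + 1 := by exact_mod_cast (by omega : i ≤ n + j + 1)
      have d2 : |(i : ℝ) * h (n + j)| ≤ 1 / (((n + j : ℕ) : ℝ) + 1) := by
        rw [abs_mul, Nat.abs_cast]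
        refine (mul_le_mul d1 c1 (abs_nonneg _) (hm _).le).trans (le_of_eq ?_)
        have := (hm (n + j)).ne'
        field_simp
      have d3 := abs_add_le (x (n + j) - c) (i * h (n + j))
      have e : 2 / (((n + j : ℕ) : ℝ) + 1) = 2 * (1 / (((n + j : ℕ) : ℝ) + 1)) := by ring
      linarith
    · have e : c + (x (n + j) - c + i * h (n + j)) = x (n + j) + i * h (n + j) := by ring
      rwa [e]
  choose s hs using h4
  have h5 : ∀ᶠ m in Filter.hyperfilter ℕ,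
      |s m| ≤ 2 / ((m : ℝ) + 1) ∧ (fwdDiff (h m))^[n] G (c + s m) ≠ 0 := by
    filter_upwards [a1, (Filter.eventually_ge_atTop n).filter_mono Nat.hyperfilter_le_atTop]
      with m b1 b2
    exact hs m b1 b2
  have h6 := hn _ (TRLift_inf (h5.mono fun m b => b.1))
  have e : (c : K) + Hyperreal.ofSeq s = Hyperreal.ofSeq fun m => c + s m := rfl
  rw [e, TRLift_diff] at h6
  obtain ⟨m, b1, b2⟩ := (h5.and ((TRLift_eq (v := fun _ => 0)).1 h6)).exists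
  exact b1.2 b2

end Pool.Agent.P.MP_6d4b14_an.TR
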