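import Pool.Agent.P.MP_6d4b14_an.TRGrid
import Pool.Agent.P.MP_6d4b14_an.TRLift

/-! The multiplicative function. -/

set_option linter.unusedSectionVars false
set_option linter.unusedVariables false

namespace Pool.Agent.P.MP_6d4b14_an.TR

open scoped Classical
open Function

theorem trchar_pi {Ω : Type} [Field Ω] (j : ℝ →+* Ω) {ω0 : Ω} (h : ω0 ≠ 0) :
    ∃ π : Ω →+ ℝ, π ω0 = 1 ∧ ∀ r ω, π (j r * ω) = r * π ω := by
  let _ : Algebra ℝ Ω := j.toAlgebra
  obtain ⟨f, hf⟩ : ∃ f : Module.Dual ℝ Ω, f ω0 ≠ 0 := by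
    by_contra hn
    push Not at hn
    exact h ((Module.forall_dual_apply_eq_zero_iff ℝ ω0).1 hn)
  refine ⟨((f ω0)⁻¹ • f).toAddMonoidHom, ?_, fun r ω => ?_⟩
  · show (f ω0)⁻¹ * f ω0 = 1
    exact inv_mul_cancel₀ hf
  · show (f ω0)⁻¹ * f (r • ω) = r * ((f ω0)⁻¹ * f ω)
    rw [map_smul, smul_eq_mul]
    ring

theorem trchar_inv (r : ℝ) : (r : K)⁻¹ ∈ Bd := by
  rw [← Hyperreal.coe_inv]
  exact coe_mem_Bd _

theorem trchar_zero (f : ℝ → ℝ) : lift f 0 = (f 0 : ℝ) := by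
  rw [← lift_coe, Hyperreal.coe_zero]

theorem trchar_one (f : ℝ → ℝ) : lift f 1 = (f 1 : ℝ) := by
  rw [← lift_coe, Hyperreal.coe_one]

theorem trchar_cluster {g : K → K} {a : ℝ} (ha : 0 < a) (ha' : a < 1)
    (hnt : ¬ Tor (cl (sg g) a)) : ∃ c : ℝ, 0 < c ∧ c < 1 ∧ ¬ Tor (cl g c) := by
  by_contra hn
  push Not at hn
  have h1 := hn a ha ha'
  have h2 := tor_aff (μ := -1) (ν := 1) (c' := (a : K)) (neg_mem one_mem_Bd)
    (by rw [inv_neg, inv_one]; exact neg_mem one_mem_Bd) (by norm_num)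
    (by
      have : (-1 : K) * a + 1 - ((1 - a : ℝ) : K) = 0 := by
        rw [Hyperreal.coe_sub, Hyperreal.coe_one]
        ring
      rw [this]
      exact zero_mem _)
    (hn (1 - a) (by linarith) (by linarith))
  have h3 : cl (sg g) a = cl g a + cl (fun z => g (-1 * z + 1)) a := by
    refine Fn.ext fun s => ?_
    show g (a + s) + g (1 - (a + s)) = g (a + s) + g (-1 * (a + s) + 1)
    congr 2
    ring
  exact hnt (h3 ▸ tor_add h1 h2)

theorem exists_sol {g : ℝ → ℝ} (hg : HE g) (h0 : sg g 0 = 1) {a : ℝ} (ha : 0 < a) (ha' : a < 1)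
    (hnt : ¬ Tor (cl (lift (sg g)) a)) :
    ∃ φ : ℝ → ℝ, φ 1 = 1 ∧ φ 0 = 0 ∧ SE φ (sg g) := by
  have hg' := HE_lift hg
  have h0' : sg (lift g) 0 = 1 := by rw [sg_lift, trchar_zero, h0, Hyperreal.coe_one]
  rw [← sg_lift] at hnt
  obtain ⟨c', hc0, hc1, hc⟩ := trchar_cluster ha ha' hnt
  obtain ⟨l, hl⟩ := exists_fun hc
  obtain ⟨π, hπ1, hπ⟩ := trchar_pi ((CO Inf).comp Hyperreal.coeRingHom.toRingHom) hl
  refine ⟨fun t => π (l (al (lift g) c' t)), ?_, ?_, fun c x h1 h2 h3 h4 => ?_⟩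
  · have : al (lift g) c' ((1 : ℝ) : K) = cl (lift g) c' := by
      refine Fn.ext fun s => ?_
      show lift g (((1 : ℝ) : K) * (c' + s)) = lift g (c' + s)
      rw [Hyperreal.coe_one, one_mul]
    show π (l (al (lift g) c' ((1 : ℝ) : K))) = 1
    rw [this, hπ1]
  · obtain ⟨δ, hδ⟩ := exists_ne (0 : Inf)
    have : Tor (al (lift g) c' ((0 : ℝ) : K)) := by
      refine tor_of_period hδ fun s => ?_
      show lift g (((0 : ℝ) : K) * _) = lift g (((0 : ℝ) : K) * _)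
      rw [Hyperreal.coe_zero, zero_mul, zero_mul]
    show π (l (al (lift g) c' ((0 : ℝ) : K))) = 0
    rw [fun_tor l this, map_zero]
  · have h5 := sep hg' h0' ha ha' (mul_pos h1 hc0) (by nlinarith) hnt (x := (x : K))
      (Hyperreal.coe_nonneg.2 h3) (by rw [← Hyperreal.coe_one]; exact Hyperreal.coe_le_coe.2 h4)
    have h6 := tor_aff (f := fun z => lift g (x * z) + lift g ((1 - x) * z) -
        sg (lift g) x * lift g (1 * z)) (μ := (c : K)) (ν := 0) (c' := (c' : K))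
      (c := ((c * c' : ℝ) : K)) (coe_mem_Bd c) (trchar_inv c) (Hyperreal.coe_ne_zero.2 h1.ne')
      (by rw [Hyperreal.coe_mul, add_zero, sub_self]; exact zero_mem _) h5
    have h7 : cl (fun z => lift g (x * (c * z + 0)) + lift g ((1 - x) * (c * z + 0)) -
        sg (lift g) x * lift g (1 * (c * z + 0))) c' =
        al (lift g) c' ((x * c : ℝ) : K) + al (lift g) c' (((1 - x) * c : ℝ) : K) -
          ((sg g x : ℝ) : K) • al (lift g) c' c := by
      refine Fn.ext fun s => ?_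
      show lift g (x * (c * (c' + s) + 0)) + lift g ((1 - x) * (c * (c' + s) + 0)) -
          sg (lift g) x * lift g (1 * (c * (c' + s) + 0)) =
        lift g (((x * c : ℝ) : K) * (c' + s)) + lift g ((((1 - x) * c : ℝ) : K) * (c' + s)) -
          ((sg g x : ℝ) : K) * lift g (c * (c' + s))
      rw [sg_lift, lift_coe, Hyperreal.coe_mul, Hyperreal.coe_mul, Hyperreal.coe_sub,
        Hyperreal.coe_one, add_zero, one_mul, mul_assoc, mul_assoc]
    have h8 := fun_tor l (h7 ▸ h6)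
    rw [map_sub, map_add, fun_C] at h8
    have h9 := congrArg π h8
    rw [map_sub, map_add, map_zero] at h9
    have h10 := hπ (sg g x) (l (al (lift g) c' c))
    exact (sub_eq_zero.1 h9).trans h10

theorem trchar_near {a : ℝ} (ha : 0 < a) (ha' : a < 1) {w z : K} (hw : 1 - w ∈ Inf)
    (hz : z - a ∈ Inf) : 0 ≤ z ∧ z ≤ 1 ∧ z ≤ w ∧ 1 - z ≤ w := by
  have h1 := near_lt ha' (z := z + (1 - w)) (by
    have := add_mem hz hw
    rwa [show z - a + (1 - w) = z + (1 - w) - a by ring] at this)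
  have h2 := near_pos ha (z := z - (1 - w)) (by
    have := sub_mem hz hw
    rwa [show z - a - (1 - w) = z - (1 - w) - a by ring] at this)
  exact ⟨(near_pos ha hz).le, (near_lt ha' hz).le, by linarith, by linarith⟩

theorem trchar_anti {h G : K → K} (hs : SE h G) {w v : K} (hw : 1 - w ∈ Inf) (h1 : w ≤ 1)
    (hz : h w = 0) (hv : 0 ≤ v) (hv' : v ≤ w) : h v + h (w - v) = 0 := by
  have h0 := W_pos hw
  have h2 := hs w (v / w) h0 h1 (div_nonneg hv h0.le) ((div_le_one h0).2 hv')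
  rwa [hz, mul_zero, sub_mul, div_mul_cancel₀ _ h0.ne', one_mul] at h2

theorem trchar_two {h G : K → K} (hs : SE h G) {a : ℝ} (ha : 0 < a) (ha' : a < 1)
    (hnt : ¬ Tor (cl G a)) {w w' : K} (hw : 1 - w ∈ Inf) (hw' : 1 - w' ∈ Inf) (h1 : w ≤ 1)
    (h1' : w' ≤ 1) (hlt : w < w') (hz : h w = 0) (hz' : h w' = 0) {c : ℝ} (hc : 0 < c)
    (hc' : c ≤ 1) : h c = 0 := by
  by_contra hne
  have hc0 : (0 : K) < c := Hyperreal.coe_pos.2 hc
  have hc1 : (c : K) ≤ 1 := by rw [← Hyperreal.coe_one]; exact Hyperreal.coe_le_coe.2 hc'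
  have hδ : w' - w ∈ Inf := by
    have := sub_mem hw hw'
    rwa [show 1 - w - (1 - w') = w' - w by ring] at this
  have hper : ∀ y, 0 ≤ y → y ≤ w → h (y + (w' - w)) = h y := fun y hy hy' => by
    have e1 := trchar_anti hs hw h1 hz hy hy'
    have e2 := trchar_anti hs hw' h1' hz' (v := y + (w' - w)) (by linarith) (by linarith)
    rw [show w' - (y + (w' - w)) = w - y by ring] at e2
    linear_combination e2 - e1
  have hδ' : (w' - w) / c ∈ Inf := by
    rw [div_eq_mul_inv]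
    exact Inf_mul_Bd hδ (trchar_inv c)
  refine hnt (tor_of_period (δ := pj ((w' - w) / c)) (fun e => ?_) fun s => ?_)
  · have h2 := pj_val hδ'
    rw [e] at h2
    exact (div_pos (sub_pos.2 hlt) hc0).ne h2
  · show G (a + ((s : K) + pj ((w' - w) / c))) = G (a + s)
    rw [pj_val hδ']
    obtain ⟨a1, a2, a3, a4⟩ := trchar_near ha ha' hw (z := a + s)
      (by rw [add_sub_cancel_left]; exact s.2)
    obtain ⟨b1, b2, b3, b4⟩ := trchar_near ha ha' hw (z := a + (s + (w' - w) / c))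
      (by rw [add_sub_cancel_left]; exact add_mem s.2 hδ')
    have e1 := hs c _ hc0 hc1 a1 a2
    have e2 := hs c _ hc0 hc1 b1 b2
    have e3 := hper ((a + s) * c) (mul_nonneg a1 hc0.le)
      ((mul_le_of_le_one_right a1 hc1).trans a3)
    have e4 := hper ((1 - (a + (s + (w' - w) / c))) * c) (mul_nonneg (sub_nonneg.2 b2) hc0.le)
      ((mul_le_of_le_one_right (sub_nonneg.2 b2) hc1).trans b4)
    rw [show ((a : K) + s) * c + (w' - w) = (a + (s + (w' - w) / c)) * c by field_simp; ring] at e3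
    rw [show (1 - ((a : K) + (s + (w' - w) / c))) * c + (w' - w) = (1 - (a + s)) * c by
      field_simp; ring] at e4
    apply mul_right_cancel₀ hne
    linear_combination e1 - e2 + e3 - e4

/-- a solution of the separated equation with two near zeros vanishes -/
theorem two_zeros {h G : K → K} (hs : SE h G) {a : ℝ} (ha : 0 < a) (ha' : a < 1)
    (hnt : ¬ Tor (cl G a)) {w w' : K} (hw : 1 - w ∈ Inf) (hw' : 1 - w' ∈ Inf) (h1 : w ≤ 1)
    (h1' : w' ≤ 1) (hne : w ≠ w') (hz : h w = 0) (hz' : h w' = 0) {c : ℝ} (hc : 0 < c)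
    (hc' : c ≤ 1) : h c = 0 := by
  rcases lt_or_gt_of_ne hne with h2 | h2
  · exact trchar_two hs ha ha' hnt hw hw' h1 h1' h2 hz hz' hc hc'
  · exact trchar_two hs ha ha' hnt hw' hw h1' h1 h2 hz' hz hc hc'

theorem trchar_comb {φ f G : K → K} (hφ : SE φ G) (hf : SE f G) (α β : K) :
    SE (fun z => α * φ z - β * f z) G := fun c x h1 h2 h3 h4 => by
  linear_combination α * hφ c x h1 h2 h3 h4 - β * hf c x h1 h2 h3 h4

theorem trchar_rel {φ G : K → K} (hφ : SE φ G) {a : ℝ} (ha : 0 < a) (ha' : a < 1) {w : K}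
    (hw : 1 - w ∈ Inf) (h1 : w ≤ 1) (l : Fn K Inf →ₗ[GR K Inf] Om K Inf) :
    CO Inf (φ w) * l (cl (fun z => G (z / w)) a) =
      l (cl φ a) + XO K (pj (1 - w)) * l (cl (fun z => φ (1 - z)) a) := by
  rw [← fun_C, ← fun_X, ← map_add]
  refine congrArg l (Fn.ext fun s => ?_)
  rw [Fn.add_apply, Xg_smul]
  show φ w * G ((a + s) / w) = φ (a + s) + φ (1 - (a + ((s : K) + pj (1 - w))))
  have h0 := W_pos hw
  obtain ⟨a1, -, a3, -⟩ := trchar_near ha ha' hw (z := a + s)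
    (by rw [add_sub_cancel_left]; exact s.2)
  have h2 := hφ w ((a + s) / w) h0 h1 (div_nonneg a1 h0.le) ((div_le_one h0).2 a3)
  rw [sub_mul, div_mul_cancel₀ _ h0.ne', one_mul] at h2
  rw [pj_val hw, show 1 - ((a : K) + (s + (1 - w))) = w - (a + s) by ring, h2, mul_comm]

theorem uniq {φ f G : K → K} (hφ : SE φ G) (hf : SE f G) (hφ1 : φ 1 = 1) (hf1 : f 1 = 0) {a : ℝ}
    (ha : 0 < a) (ha' : a < 1) (hnt : ¬ Tor (cl G a)) {c : ℝ} (hc : 0 < c) (hc' : c ≤ 1) :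
    f c = 0 := by
  by_contra hfc
  have hA : ∀ w1 w2 : K, 1 - w1 ∈ Inf → 1 - w2 ∈ Inf → w1 ≤ 1 → w2 ≤ 1 → w1 ≠ w2 →
      φ w1 * f w2 - φ w2 * f w1 = 0 → φ w1 = 0 := fun w1 w2 a1 a2 b1 b2 hne hD => by
    have hs := trchar_comb hφ hf (f w1) (φ w1)
    have z1 : f w1 * φ w1 - φ w1 * f w1 = 0 := by ring
    have z2 : f w1 * φ w2 - φ w1 * f w2 = 0 := by linear_combination -hD
    have e1 : f w1 * φ ((1 : ℝ) : K) - φ w1 * f ((1 : ℝ) : K) = 0 :=
      two_zeros hs ha ha' hnt a1 a2 b1 b2 hne z1 z2 one_pos le_rfl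
    have e2 : f w1 * φ c - φ w1 * f c = 0 :=
      two_zeros hs ha ha' hnt a1 a2 b1 b2 hne z1 z2 hc hc'
    rw [Hyperreal.coe_one, hφ1, hf1, mul_one, mul_zero, sub_zero] at e1
    rw [e1, zero_mul, zero_sub, neg_eq_zero] at e2
    exact (mul_eq_zero.1 e2).resolve_right hfc
  have hD : ∀ w1 w2 : K, 1 - w1 ∈ Inf → 1 - w2 ∈ Inf → w1 ≤ 1 → w2 ≤ 1 → w1 ≠ w2 →
      φ w1 * f w2 - φ w2 * f w1 ≠ 0 := fun w1 w2 a1 a2 b1 b2 hne hD => by
    have e1 := hA w1 w2 a1 a2 b1 b2 hne hD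
    have e2 := hA w2 w1 a2 a1 b2 b1 hne.symm (by linear_combination -hD)
    have e3 := two_zeros hφ ha ha' hnt a1 a2 b1 b2 hne e1 e2 one_pos le_rfl
    rw [Hyperreal.coe_one, hφ1] at e3
    exact one_ne_zero e3
  obtain ⟨l, hl⟩ := exists_fun hnt
  obtain ⟨P0, hP0⟩ : ∃ P, P = l (cl φ a) := ⟨_, rfl⟩
  obtain ⟨P1, hP1⟩ : ∃ P, P = l (cl (fun z => φ (1 - z)) a) := ⟨_, rfl⟩
  obtain ⟨F0, hF0⟩ : ∃ P, P = l (cl f a) := ⟨_, rfl⟩
  obtain ⟨F1, hF1⟩ : ∃ P, P = l (cl (fun z => f (1 - z)) a) := ⟨_, rfl⟩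
  obtain ⟨S, hS⟩ := fin_supp e2 {P0, P1, F0, F1}
  have key : ∀ C : Set K, C.Countable → ∃ w : K, 1 - w ∈ Inf ∧ w ≤ 1 ∧ w ∉ C ∧
      CO Inf (f w) * P0 - CO Inf (φ w) * F0 = 0 ∧
      CO Inf (f w) * P1 - CO Inf (φ w) * F1 = 0 := fun C hC => by
    obtain ⟨w, a1, a2, a3, a4, -⟩ := gen2 S hC
    obtain ⟨ϕ, b1, b2⟩ := exists_phi a4
    have b3 := hS ϕ fun s hs => b2 s (Submodule.subset_span hs)
    have r1 := trchar_rel hφ ha ha' a1 a2.le l
    have r2 := trchar_rel hf ha ha' a1 a2.le l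
    rw [← hP0, ← hP1] at r1
    rw [← hF0, ← hF1] at r2
    refine ⟨w, a1, a2.le, a3, free1 (tw e2 ϕ) (Y := XO K (pj (1 - w)))
      (τ := CO Inf (e2 (Multiplicative.ofAdd 1))) ?_ ?_ ?_ (CO_e_ne e2_ne) (XO_ne_zero _) ?_⟩
    · rw [map_sub, map_mul, map_mul, tw_CO, tw_CO, b3 P0 (by simp), b3 F0 (by simp)]
    · rw [map_sub, map_mul, map_mul, tw_CO, tw_CO, b3 P1 (by simp), b3 F1 (by simp)]
    · rw [tw_XO, b1]
    · linear_combination CO Inf (φ w) * r2 - CO Inf (f w) * r1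
  obtain ⟨w1, a1, a2, -, a4, a5⟩ := key ∅ Set.countable_empty
  obtain ⟨w2, b1, b2, b3, b4, b5⟩ := key {w1} (Set.countable_singleton w1)
  have hne : CO Inf (φ w1) * CO Inf (f w2) - CO Inf (φ w2) * CO Inf (f w1) ≠ 0 := by
    rw [← map_mul, ← map_mul, ← map_sub]
    exact (map_ne_zero _).2 (hD w1 w2 a1 b1 a2 b2 fun e => b3 e.symm)
  have z0 : P0 = 0 := by
    apply mul_left_cancel₀ hne
    linear_combination CO Inf (φ w1) * b4 - CO Inf (φ w2) * a4
  have z1 : P1 = 0 := by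
    apply mul_left_cancel₀ hne
    linear_combination CO Inf (φ w1) * b5 - CO Inf (φ w2) * a5
  have r := trchar_rel hφ ha ha' (w := 1) (by rw [sub_self]; exact zero_mem _) le_rfl l
  rw [← hP0, ← hP1, z0, z1, hφ1, map_one, one_mul, mul_zero, add_zero] at r
  simp only [div_one] at r
  exact hl r

theorem char_case {g : ℝ → ℝ} (hg : HE g) (h0 : sg g 0 = 1) {a : ℝ} (ha : 0 < a) (ha' : a < 1)
    (hnt : ¬ Tor (cl (lift (sg g)) a)) :
    ∃ M : ℝ → ℝ, (∀ x ∈ Set.Icc (0 : ℝ) 1, ∀ y ∈ Set.Icc (0 : ℝ) 1, M (x * y) = M x * M y) ∧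
      ∀ x ∈ Set.Icc (0 : ℝ) 1, sg g x = M x + M (1 - x) := by
  obtain ⟨φ, h1, h2, h3⟩ := exists_sol hg h0 ha ha' hnt
  refine ⟨φ, fun x hx y hy => ?_, fun x hx => ?_⟩
  · rcases hx.1.eq_or_lt with e | hx0
    · rw [← e, zero_mul, h2, zero_mul]
    rcases hy.1.eq_or_lt with e | hy0
    · rw [← e, mul_zero, h2, mul_zero]
    have h4 : SE (fun t => φ (t * y) - φ y * φ t) (sg g) := fun c z c0 c1 z0 z1 => by
      have e1 := h3 (c * y) z (mul_pos c0 hy0) (mul_le_one₀ c1 hy.1 hy.2) z0 z1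
      have e2 := h3 c z c0 c1 z0 z1
      rw [← mul_assoc, ← mul_assoc] at e1
      linear_combination e1 - φ y * e2
    have h5 := uniq (SE_lift h3) (SE_lift h4) (by rw [trchar_one, h1, Hyperreal.coe_one])
      (by rw [trchar_one]; simp [h1]) ha ha' hnt hx0 hx.2
    rw [lift_coe, Hyperreal.coe_eq_zero] at h5
    linear_combination h5
  · have := h3 1 x one_pos le_rfl hx.1 hx.2
    rw [mul_one, mul_one, h1, mul_one] at this
    exact this.symm

end Pool.Agent.P.MP_6d4b14_an.TR
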