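import Mathlib

/-! Group rings acting on functions, twists of their fraction fields, clusters of hyperreals. -/

set_option linter.unusedSectionVars false
set_option linter.unusedVariables false

namespace Pool.Agent.P.MP_6d4b14_an.TR

open scoped Classical

section gen

variable (k Δ : Type) [Field k] [AddCommGroup Δ]

/-- the group ring -/
abbrev GR := AddMonoidAlgebra k Δ

/-- functions on the group, a module over the group ring -/
def Fn := Δ → k

instance : AddCommGroup (Fn k Δ) := inferInstanceAs (AddCommGroup (Δ → k))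

instance : Module k (Fn k Δ) := inferInstanceAs (Module k (Δ → k))

/-- translation -/
def shiftHom : Multiplicative Δ →* Module.End k (Fn k Δ) where
  toFun δ :=
    { toFun := fun φ s => φ (s + δ.toAdd)
      map_add' := fun _ _ => rfl
      map_smul' := fun _ _ => rfl }
  map_one' := by
    refine LinearMap.ext fun φ => funext fun s => ?_
    show φ (s + 0) = φ s
    rw [add_zero]
  map_mul' a b := by
    refine LinearMap.ext fun φ => funext fun s => ?_
    show φ (s + (a.toAdd + b.toAdd)) = φ (s + a.toAdd + b.toAdd)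
    rw [add_assoc]

noncomputable def actHom : GR k Δ →ₐ[k] Module.End k (Fn k Δ) :=
  AddMonoidAlgebra.lift k _ Δ (shiftHom k Δ)

noncomputable instance : Module (GR k Δ) (Fn k Δ) := Module.compHom _ (actHom k Δ).toRingHom

theorem smul_def (P : GR k Δ) (φ : Fn k Δ) : P • φ = actHom k Δ P φ := rfl

instance : IsScalarTower k (GR k Δ) (Fn k Δ) :=
  ⟨fun c P φ => by rw [smul_def, smul_def, map_smul]; rfl⟩

variable {k Δ}

theorem Fn.ext {φ ψ : Fn k Δ} (h : ∀ s, φ s = ψ s) : φ = ψ := funext h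

theorem Fn.add_apply (φ ψ : Fn k Δ) (s : Δ) : (φ + ψ) s = φ s + ψ s := rfl

theorem Fn.sub_apply (φ ψ : Fn k Δ) (s : Δ) : (φ - ψ) s = φ s - ψ s := rfl

theorem Fn.zero_apply (s : Δ) : (0 : Fn k Δ) s = 0 := rfl

theorem Fn.smul_apply (c : k) (φ : Fn k Δ) (s : Δ) : (c • φ) s = c * φ s := rfl

variable (k)

/-- the group element `δ` in the group ring -/
noncomputable def Xg (δ : Δ) : GR k Δ := AddMonoidAlgebra.single δ 1

variable {k}

theorem single_smul (δ : Δ) (c : k) (φ : Fn k Δ) (s : Δ) :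
    ((AddMonoidAlgebra.single δ c : GR k Δ) • φ) s = c * φ (s + δ) := by
  rw [smul_def, actHom, AddMonoidAlgebra.lift_single]
  rfl

theorem Xg_smul (δ : Δ) (φ : Fn k Δ) (s : Δ) : (Xg k δ • φ) s = φ (s + δ) := by
  rw [Xg, single_smul, one_mul]

theorem Xg_add (a b : Δ) : Xg k (a + b) = Xg k a * Xg k b := by
  simp [Xg, AddMonoidAlgebra.single_mul_single]

theorem Xg_zero : Xg k (0 : Δ) = 1 := rfl

/-- torsion elements -/
def Tor (φ : Fn k Δ) : Prop := ∃ P : GR k Δ, P ≠ 0 ∧ P • φ = 0

/-- the product of a function of the first and a function of the second variable -/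
def tens (φ ψ : Fn k Δ) : Fn k (Δ × Δ) := fun z => φ z.1 * ψ z.2

variable [Module ℚ Δ]

instance : IsDomain (GR k Δ) := NoZeroDivisors.to_isDomain _

variable (k Δ)

/-- the fraction field of the group ring -/
abbrev Om := FractionRing (GR k Δ)

variable {Δ}

noncomputable def XO (δ : Δ) : Om k Δ := algebraMap (GR k Δ) (Om k Δ) (Xg k δ)

variable {k} (Δ)

/-- constants -/
noncomputable def CO : k →+* Om k Δ :=
  (algebraMap (GR k Δ) (Om k Δ)).comp (algebraMap k (GR k Δ))

variable {Δ}

/-- the twist of the group ring by the character `e ∘ ϕ` -/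
noncomputable def twR (e : Multiplicative ℚ →* k) (ϕ : Δ →ₗ[ℚ] ℚ) : GR k Δ →ₐ[k] GR k Δ :=
  AddMonoidAlgebra.lift k _ Δ
    { toFun := fun δ => AddMonoidAlgebra.single δ.toAdd (e (Multiplicative.ofAdd (ϕ δ.toAdd)))
      map_one' := by simp [AddMonoidAlgebra.one_def]
      map_mul' := fun a b => by
        simp [AddMonoidAlgebra.single_mul_single, ofAdd_add] }

theorem twR_single (e : Multiplicative ℚ →* k) (ϕ : Δ →ₗ[ℚ] ℚ) (δ : Δ) (c : k) :
    twR e ϕ (AddMonoidAlgebra.single δ c) =
      AddMonoidAlgebra.single δ (c * e (Multiplicative.ofAdd (ϕ δ))) := by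
  simp [twR, AddMonoidAlgebra.lift_single]

theorem twR_inj (e : Multiplicative ℚ →* k) (ϕ : Δ →ₗ[ℚ] ℚ) : Function.Injective (twR e ϕ) := by
  have h : ∀ P, twR e (-ϕ) (twR e ϕ P) = P := by
    intro P
    induction P using AddMonoidAlgebra.induction_linear with
    | zero => simp
    | add a b ha hb => rw [map_add, map_add, ha, hb]
    | single δ c =>
      rw [twR_single, twR_single, mul_assoc, ← map_mul, ← ofAdd_add]
      simp
  exact Function.LeftInverse.injective h

/-- the twist of the fraction field -/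
noncomputable def tw (e : Multiplicative ℚ →* k) (ϕ : Δ →ₗ[ℚ] ℚ) : Om k Δ →+* Om k Δ :=
  IsFractionRing.map (j := (twR e ϕ).toRingHom) (twR_inj e ϕ)

variable {Γ : Type} [AddCommGroup Γ] [Module ℚ Γ]

variable (k) in
/-- the map of group rings induced by a linear map -/
noncomputable def embR (j : Γ →ₗ[ℚ] Δ) : GR k Γ →+* GR k Δ :=
  AddMonoidAlgebra.mapDomainRingHom k j.toAddMonoidHom

theorem embR_single (j : Γ →ₗ[ℚ] Δ) (γ : Γ) (c : k) :
    embR k j (AddMonoidAlgebra.single γ c) = AddMonoidAlgebra.single (j γ) c := by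
  simp [embR]

theorem embR_inj {j : Γ →ₗ[ℚ] Δ} (hj : Function.Injective j) : Function.Injective (embR k j) :=
  AddMonoidAlgebra.mapDomain_injective hj

variable (k) in
/-- the embedding of fraction fields induced by an injective linear map -/
noncomputable def emb (j : Γ →ₗ[ℚ] Δ) (hj : Function.Injective j) : Om k Γ →+* Om k Δ :=
  IsFractionRing.map (j := embR k j) (embR_inj hj)

end gen

/-! ### hyperreals -/

abbrev K := Hyperreal

/-- infinitesimals -/
def Inf : Submodule ℚ K where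
  carrier := {x | ∀ r : ℝ, 0 < r → |x| < (r : K)}
  zero_mem' := fun r hr => by simpa using hr
  add_mem' := fun {a b} ha hb r hr => by
    have h1 := ha (r / 2) (by linarith)
    have h2 := hb (r / 2) (by linarith)
    have h3 : ((r / 2 : ℝ) : K) + ((r / 2 : ℝ) : K) = (r : K) := by
      rw [← Hyperreal.coe_add]; congr 1; ring
    exact (abs_add_le a b).trans_lt (h3 ▸ add_lt_add h1 h2)
  smul_mem' := fun q a ha r hr => by
    have h0 : (0 : ℝ) < |(q : ℝ)| + 1 := by positivity
    have h1 := ha (r / (|(q : ℝ)| + 1)) (div_pos hr h0)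
    have hq : (q : K) = ((q : ℝ) : K) := (map_ratCast Hyperreal.coeRingHom q).symm
    have h2 : |(q : K)| < ((|(q : ℝ)| + 1 : ℝ) : K) := by
      rw [hq, ← Hyperreal.coe_abs, Hyperreal.coe_lt_coe]; linarith
    have h3 : ((|(q : ℝ)| + 1 : ℝ) : K) * ((r / (|(q : ℝ)| + 1) : ℝ) : K) = (r : K) := by
      rw [← Hyperreal.coe_mul]; congr 1; field_simp
    show |q • a| < (r : K)
    rw [Rat.smul_def, abs_mul, ← h3]
    exact mul_lt_mul'' h2 h1 (abs_nonneg _) (abs_nonneg _)

/-- finite hyperreals -/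
def Bd : Submodule ℚ K where
  carrier := {x | ∃ r : ℝ, |x| < (r : K)}
  zero_mem' := ⟨1, by simp⟩
  add_mem' := fun {a b} ⟨r, hr⟩ ⟨s, hs⟩ => ⟨r + s, by
    rw [Hyperreal.coe_add]; exact (abs_add_le a b).trans_lt (add_lt_add hr hs)⟩
  smul_mem' := fun q a ⟨r, hr⟩ => ⟨(|(q : ℝ)| + 1) * r, by
    have hq : (q : K) = ((q : ℝ) : K) := (map_ratCast Hyperreal.coeRingHom q).symm
    have h2 : |(q : K)| < ((|(q : ℝ)| + 1 : ℝ) : K) := by
      rw [hq, ← Hyperreal.coe_abs, Hyperreal.coe_lt_coe]; linarith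
    rw [Rat.smul_def, abs_mul, Hyperreal.coe_mul]
    exact mul_lt_mul'' h2 hr (abs_nonneg _) (abs_nonneg _)⟩

/-- an infinitesimal as an element of the subgroup (0 for other numbers) -/
noncomputable def pj (z : K) : Inf := if h : z ∈ Inf then ⟨z, h⟩ else 0

theorem pj_val {z : K} (h : z ∈ Inf) : (pj z : K) = z := by simp [pj, h]

/-- the character `q ↦ 2 ^ q` -/
noncomputable def e2 : Multiplicative ℚ →* K where
  toFun q := (((2 : ℝ) ^ ((q.toAdd : ℚ) : ℝ) : ℝ) : K)
  map_one' := by simp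
  map_mul' a b := by
    rw [← Hyperreal.coe_mul, ← Real.rpow_add two_pos]
    simp

theorem e2_ne : e2 (Multiplicative.ofAdd 1) ≠ 1 := by
  show (((2 : ℝ) ^ (((1 : ℚ)) : ℝ) : ℝ) : K) ≠ 1
  rw [Hyperreal.coe_ne_one]
  norm_num

/-- the sum `G t = g t + g (1 - t)` -/
def sg {F : Type} [Field F] (g : F → F) (t : F) : F := g t + g (1 - t)

/-- the equation (E) -/
def HE {F : Type} [Field F] [LE F] (g : F → F) : Prop :=
  ∀ x y : F, 0 ≤ x → x ≤ 1 → 0 ≤ y → y ≤ 1 →
    g (x * y) + g (x * (1 - y)) + g ((1 - x) * y) + g ((1 - x) * (1 - y)) = sg g x * sg g y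

/-- the restriction of a function to the cluster of `c` -/
noncomputable def cl (f : K → K) (c : K) : Fn K Inf := fun s => f (c + s)

noncomputable def al (g : K → K) (c t : K) : Fn K Inf := fun s => g (t * (c + s))

noncomputable def be (g : K → K) (c t : K) : Fn K Inf := fun s => g (t * (1 - c - s))

noncomputable def ga (g : K → K) (c w : K) : Fn K Inf := fun s => sg g (w * (c + s))

noncomputable def de (g : K → K) (a w : K) : Fn K Inf := fun r => sg g ((a + r) / w)

theorem mem_Inf {x : K} : x ∈ Inf ↔ ∀ r : ℝ, 0 < r → |x| < (r : K) := Iff.rfl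

theorem mem_Bd {x : K} : x ∈ Bd ↔ ∃ r : ℝ, |x| < (r : K) := Iff.rfl

theorem Bd_mul_Inf {a b : K} (ha : a ∈ Bd) (hb : b ∈ Inf) : a * b ∈ Inf := by
  obtain ⟨s, hs⟩ := ha
  intro r hr
  have hs0 : 0 < s := Hyperreal.coe_pos.1 ((abs_nonneg a).trans_lt hs)
  have h3 : (s : K) * ((r / s : ℝ) : K) = (r : K) := by
    rw [← Hyperreal.coe_mul]; congr 1; field_simp
  rw [abs_mul, ← h3]
  exact mul_lt_mul'' hs (hb _ (div_pos hr hs0)) (abs_nonneg _) (abs_nonneg _)

/-- a finite number as an element of the subgroup (0 for other numbers) -/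
noncomputable def pb (z : K) : Bd := if h : z ∈ Bd then ⟨z, h⟩ else 0

theorem pb_val {z : K} (h : z ∈ Bd) : (pb z : K) = z := by simp [pb, h]

/-- multiplication by a finite number on the infinitesimals -/
noncomputable def dilL (μ : Bd) : Inf →ₗ[ℚ] Inf where
  toFun γ := ⟨μ * γ, Bd_mul_Inf μ.2 γ.2⟩
  map_add' a b := Subtype.ext (mul_add _ _ _)
  map_smul' q a := Subtype.ext (mul_smul_comm q (μ : K) (a : K))

theorem dilL_val (μ : Bd) (γ : Inf) : (dilL μ γ : K) = μ * γ := rfl

/-- the dilated operator -/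
noncomputable def dl (μ : K) : GR K Inf →+* GR K Inf := embR K (dilL (pb μ))

/-- the shift that belongs to the height `1 / w` -/
noncomputable def Yg (w : K) : GR K Inf := Xg K (pj (1 - w⁻¹))

noncomputable def YO (w : K) : Om K Inf := XO K (pj (1 - w⁻¹))

/-- one row of the elimination matrix -/
def row {R : Type} [CommRing R] (y0 y1 y2 : R) : Fin 4 → R :=
  ![y1 - y2, y2 - y0, y0 * (y1 - y2), y1 * (y2 - y0)]

/-- the character of the infinitesimals given by a ring homomorphism -/
noncomputable def ch {κ : Type} [Field κ] (χ : GR K Inf →+* κ) (z : K) : κ := χ (Xg K (pj z))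

/-- finite numbers whose infinitesimal multiples lie in the kernel of the character -/
def InI {κ : Type} [Field κ] (χ : GR K Inf →+* κ) (δ : K) : Prop :=
  δ ∈ Bd ∧ ∀ ζ ∈ Inf, ch χ (δ * ζ) = 1

/-- the separated equation -/
def SE {F : Type} [Field F] [LE F] [LT F] (φ G : F → F) : Prop :=
  ∀ c x : F, 0 < c → c ≤ 1 → 0 ≤ x → x ≤ 1 → φ (x * c) + φ ((1 - x) * c) = G x * φ c

/-- `G` is a generalised polynomial near `c` -/
def LP (G : ℝ → ℝ) (c : ℝ) : Prop :=
  ∃ (n : ℕ) (δ τ : ℝ), 0 < δ ∧ 0 < τ ∧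
    ∀ h x : ℝ, |h| ≤ τ → |x - c| < δ → (fwdDiff h)^[n] G x = 0

/-- the extension of a real function to the hyperreals -/
noncomputable def lift (f : ℝ → ℝ) (x : K) : K :=
  Filter.Germ.map f (x : Filter.Germ (Filter.hyperfilter ℕ : Filter ℕ) ℝ)

end Pool.Agent.P.MP_6d4b14_an.TR
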