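import Pool.Agent.P.MP_6d4b14_an.TRExp

/-! A nonvanishing determinant. -/

set_option linter.unusedSectionVars false
set_option linter.unusedVariables false

namespace Pool.Agent.P.MP_6d4b14_an.TR

open scoped Classical
open Function

variable {κ : Type} [Field κ]

theorem TRDet_row {R S : Type} [CommRing R] [CommRing S] (f : R →+* S) (a b c : R) (j : Fin 4) :
    f (row a b c j) = row (f a) (f b) (f c) j := by
  fin_cases j <;> simp [row]

theorem TRDet_single {k Δ : Type} [Field k] [AddCommGroup Δ] (δ : Δ) (c : k) :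
    (AddMonoidAlgebra.single δ c : GR k Δ) = algebraMap k (GR k Δ) c * Xg k δ := by
  simp [Xg, AddMonoidAlgebra.single_mul_single]

theorem TRDet_pj (γ : Inf) : pj (γ : K) = γ := Subtype.ext (pj_val γ.2)

theorem TRDet_dl (χ : GR K Inf →+* κ) {μ : K} (hμ : μ ∈ Bd) (P : GR K Inf) :
    χ (dl μ P) = ∑ γ ∈ P.coeff.support,
      χ (algebraMap K (GR K Inf) (P.coeff γ)) * ch χ (μ * γ) := by
  conv_lhs => rw [← AddMonoidAlgebra.sum_coeff_single P]
  rw [Finsupp.sum, map_sum, map_sum]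
  refine Finset.sum_congr rfl fun γ _ => ?_
  rw [dl_single hμ, TRDet_single, map_mul]
  rfl

theorem TRDet_two (χ : GR K Inf →+* κ) {P : GR K Inf} (hP : P ≠ 0) (hχ : χ P = 0) :
    ∃ γ ∈ P.coeff.support, ∃ γ' ∈ P.coeff.support, γ ≠ γ' := by
  by_contra hn
  push Not at hn
  obtain ⟨γ, hγ⟩ : P.coeff.support.Nonempty := by
    rw [Finsupp.support_nonempty_iff]
    exact fun h => hP (AddMonoidAlgebra.coeff_eq_zero.1 h)
  have hs : P.coeff.support = {γ} :=
    Finset.eq_singleton_iff_unique_mem.2 ⟨hγ, fun x hx => hn x hx γ hγ⟩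
  have e : χ P = χ (algebraMap K (GR K Inf) (P.coeff γ)) * ch χ γ := by
    conv_lhs => rw [← AddMonoidAlgebra.sum_coeff_single P]
    rw [Finsupp.sum, hs, Finset.sum_singleton, TRDet_single, map_mul, ch, TRDet_pj]
  rw [hχ] at e
  rcases mul_eq_zero.1 e.symm with h | h
  · exact (Finsupp.mem_support_iff.1 hγ)
      ((map_eq_zero (χ.comp (algebraMap K (GR K Inf)))).1 h)
  · exact ch_ne_zero χ _ h

/-- the three nodes -/
noncomputable def TRDet_b (η : K) : Fin 3 → K := ![1, 1 + η, 1 + 2 * η]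

theorem TRDet_W {η : K} (hη : η ∈ Inf) (r : ℝ) (i : Fin 3) :
    1 - (TRDet_b η i + η * r) ∈ Inf := by
  have h1 : η * r ∈ Inf := Inf_mul_Bd hη (coe_mem_Bd r)
  fin_cases i
  · have : 1 - (TRDet_b η 0 + η * r) = -(η * r) := by simp [TRDet_b]
    exact this ▸ neg_mem h1
  · have : 1 - (TRDet_b η 1 + η * r) = -(η + η * r) := by simp [TRDet_b]; ring
    exact this ▸ neg_mem (add_mem hη h1)
  · have : 1 - (TRDet_b η 2 + η * r) = -(η + η + η * r) := by simp [TRDet_b]; ring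
    exact this ▸ neg_mem (add_mem (add_mem hη hη) h1)

theorem TRDet_invBd {w : K} (hw : 1 - w ∈ Inf) : w⁻¹ ∈ Bd := W_Bd (W_inv hw)

/-- rows with a nonzero determinant in the ring of exponential polynomials -/
theorem TRDet_rows (χ : GR K Inf →+* κ) {A : Type} [AddCommGroup A] [Module ℚ A]
    (π : Bd →ₗ[ℚ] A) (hsurj : Surjective π) (hker : ∀ z : Bd, π z = 0 ↔ InI χ z) {η : K}
    (hη : η ∈ Inf) (hη0 : 0 < η) (hη5 : ¬ InI χ (η ^ 5)) (T : ℝ → Fin 3 → GR κ A)
    (hT : ∀ r i, T r i = AddMonoidAlgebra.single (π (pb (TRDet_b η i + η * r)⁻¹))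
      (ch χ (1 - (TRDet_b η i + η * r)⁻¹))) :
    ∃ m : Fin 4 → ℝ, (∀ a, 0 < m a) ∧
      (Matrix.of fun a => row (T (m a) 0) (T (m a) 1) (T (m a) 2)).det ≠ 0 := by
  obtain ⟨I, hI⟩ := exists_I χ
  let ι : K →+* κ := χ.comp (algebraMap K (GR K Inf))
  let e : Multiplicative ℚ →* κ := (ι : K →* κ).comp e2
  have he : e (Multiplicative.ofAdd 1) ≠ 1 := fun h =>
    e2_ne (ι.injective (h.trans (map_one ι).symm))
  have hImul : ∀ a ∈ Bd, ∀ b ∈ I, a * b ∈ I := fun a ha b hb =>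
    (hI _).2 (InI_mul ha ((hI _).1 hb))
  have hb : ∀ i, 1 - TRDet_b η i ∈ Inf := fun i => by simpa using TRDet_W hη 0 i
  have h5 : ∀ q : ℚ, q ≠ 0 → (q : K) * η ^ 5 ∉ I := fun q hq h => by
    have := I.smul_mem q⁻¹ h
    rw [Rat.smul_def, ← mul_assoc, ← Rat.cast_mul, inv_mul_cancel₀ hq, Rat.cast_one,
      one_mul] at this
    exact hη5 ((hI _).1 this)
  have hne : ∀ i, η ^ 3 * ∏ j ∈ Finset.univ.erase i, (TRDet_b η j - TRDet_b η i) ∉ I := by
    intro i
    fin_cases i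
    · have : η ^ 3 * ∏ j ∈ Finset.univ.erase (0 : Fin 3), (TRDet_b η j - TRDet_b η 0) =
          ((2 : ℚ) : K) * η ^ 5 := by
        rw [show Finset.univ.erase (0 : Fin 3) = {1, 2} from by decide,
          Finset.prod_pair (by decide)]
        simp [TRDet_b]; ring
      exact this ▸ h5 2 (by norm_num)
    · have : η ^ 3 * ∏ j ∈ Finset.univ.erase (1 : Fin 3), (TRDet_b η j - TRDet_b η 1) =
          ((-1 : ℚ) : K) * η ^ 5 := by
        rw [show Finset.univ.erase (1 : Fin 3) = {0, 2} from by decide,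
          Finset.prod_pair (by decide)]
        simp [TRDet_b]; ring
      exact this ▸ h5 (-1) (by norm_num)
    · have : η ^ 3 * ∏ j ∈ Finset.univ.erase (2 : Fin 3), (TRDet_b η j - TRDet_b η 2) =
          ((2 : ℚ) : K) * η ^ 5 := by
        rw [show Finset.univ.erase (2 : Fin 3) = {0, 1} from by decide,
          Finset.prod_pair (by decide)]
        simp [TRDet_b]; ring
      exact this ▸ h5 2 (by norm_num)
  let φ : GR κ A →+* Om κ A := algebraMap _ _
  obtain ⟨m, hm⟩ := exists_det (ι := {r : ℝ // 0 < r})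
    (fun r => row (φ (T r 0)) (φ (T r 1)) (φ (T r 2))) (fun v hv => by
      obtain ⟨S, hS⟩ := fin_supp e (Finset.univ.image v)
      obtain ⟨r, hr, -, ϕ, h1, h2, h3⟩ := gen3 I hImul (TRDet_b η) hb hη hη0 hne
        (S.image fun a => ((surjInv hsurj a : Bd) : K)) Set.countable_empty
      have hf : ∀ i, ∃ f : A →ₗ[ℚ] ℚ, ∀ z : Bd, f (π z) = ϕ i z := fun i =>
        fac_of_ker π (ϕ i ∘ₗ Bd.subtype) fun z hz => h2 i _ ((hI _).2 ((hker z).1 hz))
      choose f hf using hf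
      have hfix : ∀ i j, tw e (f i) (v j) = v j := fun i j =>
        hS (f i) (fun s hs => by
          rw [← surjInv_eq hsurj s, hf]
          exact h1 i _ (Finset.mem_image_of_mem _ hs)) _
          (Finset.mem_image_of_mem _ (Finset.mem_univ j))
      have hY : ∀ j, φ (T r j) = CO A (ch χ (1 - (TRDet_b η j + η * r)⁻¹)) *
          XO κ (π (pb (TRDet_b η j + η * r)⁻¹)) := fun j => by
        rw [hT, TRDet_single, map_mul]
        rfl
      have hval : ∀ i j, f i (π (pb (TRDet_b η j + η * r)⁻¹)) = if i = j then 1 else 0 :=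
        fun i j => by rw [hf, pb_val (TRDet_invBd (TRDet_W hη r j)), h3]
      have key := hex (fun i => tw e (f i)) (A := ![v 0, v 1, 0]) (B := ![v 2, v 3, 0])
        (Y := fun j => φ (T r j)) (τ := CO A (e (Multiplicative.ofAdd 1)))
        (fun i j => by fin_cases j <;> simp [hfix])
        (fun i j => by fin_cases j <;> simp [hfix])
        (fun i => by
          simp only [hY, map_mul, tw_CO, tw_XO, hval, if_true]
          ring)
        (fun i j hij => by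
          simp only [hY, map_mul, tw_CO]
          rw [tw_XO_zero e (by rw [hval, if_neg hij])])
        (CO_e_ne he)
        (fun i => by
          simp only [hY]
          exact mul_ne_zero ((map_ne_zero _).2 (ch_ne_zero χ _)) (XO_ne_zero _))
        (by
          have := hv ⟨r, hr⟩
          simp only [Fin.sum_univ_four, row] at this
          simp at this ⊢
          linear_combination this)
      simp at key
      obtain ⟨k1, k2, k3, k4⟩ := key
      funext j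
      fin_cases j <;> simp_all)
  refine ⟨fun a => m a, fun a => (m a).2, fun h0 => hm ?_⟩
  have := congrArg φ h0
  rw [map_zero, RingHom.map_det] at this
  rw [← this]
  congr 1
  ext a j
  simp [TRDet_row]

theorem per_det (χ : GR K Inf →+* κ) {P : GR K Inf} (hP : P ≠ 0) (hχ : χ P = 0)
    (hD : ∀ γ ∈ P.coeff.support, ∀ γ' ∈ P.coeff.support, γ ≠ γ' → ¬ InI χ ((γ : K) - γ')) :
    ∃ (h h' : K) (w : Fin 4 → K), 0 < h ∧ h ∈ Inf ∧ 0 < h' ∧ h' ∈ Inf ∧
      (∀ m, 1 ≤ w m ∧ 1 - w m ∈ Inf ∧ χ (dl (w m)⁻¹ P) ≠ 0 ∧ χ (dl (w m + h)⁻¹ P) ≠ 0 ∧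
        χ (dl (w m + h')⁻¹ P) ≠ 0) ∧
      χ (Matrix.of fun m => row (Yg (w m)) (Yg (w m + h)) (Yg (w m + h'))).det ≠ 0 := by
  obtain ⟨A, _, _, π, ev, hsurj, hker, hev, hne⟩ := exp_model χ
  obtain ⟨γ0, hγ0, γ1, hγ1, h01⟩ := TRDet_two χ hP hχ
  have hδ : (γ0 : K) - γ1 ∈ Inf := sub_mem γ0.2 γ1.2
  obtain ⟨η, hη, hη0, hr⟩ := exists_root hδ (sub_ne_zero.2 fun h => h01 (Subtype.ext h))
  have hη5 : ¬ InI χ (η ^ 5) := fun h => hD γ0 hγ0 γ1 hγ1 h01 (by
    have := InI_mul hr h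
    rwa [div_mul_cancel₀ _ (pow_ne_zero 5 hη0.ne')] at this)
  obtain ⟨m, hm, hdet⟩ := TRDet_rows χ π hsurj hker hη hη0 hη5 _ (fun r i => rfl)
  set ρ : Fin 4 → Fin 3 → K := fun a i => TRDet_b η i + η * m a with hρ
  have hW : ∀ a i, 1 - ρ a i ∈ Inf := fun a i => TRDet_W hη (m a) i
  have hB : ∀ a i, (ρ a i)⁻¹ ∈ Bd := fun a i => TRDet_invBd (hW a i)
  have hI : ∀ a i (γ : Inf), (ρ a i)⁻¹ * γ ∈ Inf := fun a i γ => Bd_mul_Inf (hB a i) γ.2
  let E : Fin 4 → Fin 3 → GR κ A := fun a i => ∑ γ ∈ P.coeff.support,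
    AddMonoidAlgebra.single (π (pb (-((ρ a i)⁻¹ * γ))))
      (χ (algebraMap K (GR K Inf) (P.coeff γ)) * ch χ ((ρ a i)⁻¹ * γ))
  have hE : ∀ a i, E a i ≠ 0 := by
    intro a i h0
    have h1 := congrArg (fun f : GR κ A => f.coeff (π (pb (-((ρ a i)⁻¹ * γ0))))) h0
    simp only [E, AddMonoidAlgebra.coeff_sum, Finsupp.finsetSum_apply,
      AddMonoidAlgebra.coeff_single, AddMonoidAlgebra.coeff_zero, Finsupp.zero_apply] at h1
    rw [Finset.sum_eq_single γ0, Finsupp.single_eq_same] at h1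
    · rcases mul_eq_zero.1 h1 with h | h
      · exact (Finsupp.mem_support_iff.1 hγ0)
          ((map_eq_zero (χ.comp (algebraMap K (GR K Inf)))).1 h)
      · exact ch_ne_zero χ _ h
    · intro γ hγ hn
      refine Finsupp.single_eq_of_ne fun h => hD γ hγ γ0 hγ0 hn ?_
      have h2 := (hker _).1 ((map_sub π _ _).trans (sub_eq_zero.2 h))
      have h3 := InI_mul (W_Bd (hW a i)) h2
      rw [Submodule.coe_sub, pb_val (neg_mem (Inf_le_Bd (hI a i γ0))),
        pb_val (neg_mem (Inf_le_Bd (hI a i γ)))] at h3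
      have h4 : ρ a i ≠ 0 := (W_pos (hW a i)).ne'
      have h5 : ρ a i * (-((ρ a i)⁻¹ * γ0) - -((ρ a i)⁻¹ * γ)) = (γ : K) - γ0 := by
        field_simp
        ring
      rwa [h5] at h3
    · exact fun h => absurd hγ0 h
  obtain ⟨ζ, hζ0, hζ⟩ := hne _ (mul_ne_zero hdet
    (Finset.prod_ne_zero_iff.2 fun a (_ : a ∈ Finset.univ) =>
      Finset.prod_ne_zero_iff.2 fun i (_ : i ∈ Finset.univ) => hE a i))
  rw [map_mul, map_prod] at hζ
  have hζ1 := left_ne_zero_of_mul hζ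
  have hζ2 : ∀ a i, ev ζ (E a i) ≠ 0 := fun a i => by
    have := Finset.prod_ne_zero_iff.1 (right_ne_zero_of_mul hζ) a (Finset.mem_univ a)
    rw [map_prod] at this
    exact Finset.prod_ne_zero_iff.1 this i (Finset.mem_univ i)
  set θ : K := 1 - ζ with hθ
  have hθW : 1 - θ ∈ Inf := by simp [hθ]
  have hθ0 : 0 < θ := W_pos hθW
  have hθ1 : θ ≤ 1 := by linarith
  have hθi : θ⁻¹ ∈ Bd := TRDet_invBd hθW
  have hw : ∀ a i, 1 - ρ a i * θ⁻¹ ∈ Inf := fun a i => W_mul (hW a i) (W_inv hθW)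
  have e1 : ∀ a, ρ a 0 * θ⁻¹ + η * θ⁻¹ = ρ a 1 * θ⁻¹ := fun a => by simp [hρ, TRDet_b]; ring
  have e2' : ∀ a, ρ a 0 * θ⁻¹ + 2 * η * θ⁻¹ = ρ a 2 * θ⁻¹ := fun a => by
    simp [hρ, TRDet_b]; ring
  have hdl : ∀ a i, χ (dl (ρ a i * θ⁻¹)⁻¹ P) = ev ζ (E a i) := by
    intro a i
    rw [TRDet_dl χ (TRDet_invBd (hw a i)), map_sum]
    refine Finset.sum_congr rfl fun γ _ => ?_
    rw [hev, pb_val (neg_mem (Inf_le_Bd (hI a i γ))), mul_assoc,
      ← ch_add χ (hI a i γ) (Bd_mul_Inf (neg_mem (Inf_le_Bd (hI a i γ))) ζ.2)]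
    congr 2
    rw [mul_inv, inv_inv, hθ]
    ring
  have hY : ∀ a i, χ (Yg (ρ a i * θ⁻¹)) = ev ζ (AddMonoidAlgebra.single (π (pb (ρ a i)⁻¹))
      (ch χ (1 - (ρ a i)⁻¹))) := by
    intro a i
    rw [hev, pb_val (hB a i), ← ch_add χ (W_inv (hW a i)) (Bd_mul_Inf (hB a i) ζ.2)]
    show ch χ (1 - (ρ a i * θ⁻¹)⁻¹) = _
    congr 1
    rw [mul_inv, inv_inv, hθ]
    ring
  have hη2 : 2 * η ∈ Inf := by rw [two_mul]; exact add_mem hη hη
  refine ⟨η * θ⁻¹, 2 * η * θ⁻¹, fun a => ρ a 0 * θ⁻¹, by positivity, Inf_mul_Bd hη hθi,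
    by positivity, Inf_mul_Bd hη2 hθi, fun a => ⟨?_, hw a 0, ?_, ?_, ?_⟩, ?_⟩
  · have h1 : 1 ≤ ρ a 0 := by
      have : (0 : K) < m a := Hyperreal.coe_pos.2 (hm a)
      have : 0 < η * m a := mul_pos hη0 this
      simp only [hρ, TRDet_b, Matrix.cons_val_zero]
      linarith
    exact one_le_mul_of_one_le_of_one_le h1 ((one_le_inv₀ hθ0).2 hθ1)
  · rw [hdl]; exact hζ2 a 0
  · simp only [e1]; rw [hdl]; exact hζ2 a 1
  · simp only [e2']; rw [hdl]; exact hζ2 a 2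
  · rw [RingHom.map_det] at hζ1 ⊢
    intro h0
    apply hζ1
    rw [← h0]
    congr 1
    ext a j
    simp only [RingHom.mapMatrix_apply, Matrix.map_apply, Matrix.of_apply, TRDet_row, e1, e2', hY]
    rfl

end Pool.Agent.P.MP_6d4b14_an.TR
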