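import Pool.Agent.P.MP_6d4b14_an.TRGen

/-! Exponential polynomials. -/

set_option linter.unusedSectionVars false
set_option linter.unusedVariables false

namespace Pool.Agent.P.MP_6d4b14_an.TR

open scoped Classical
open Function

variable {κ : Type} [Field κ]

theorem ch_add (χ : GR K Inf →+* κ) {a b : K} (ha : a ∈ Inf) (hb : b ∈ Inf) :
    ch χ (a + b) = ch χ a * ch χ b := by
  have h : pj (a + b) = pj a + pj b := Subtype.ext (by
    rw [Submodule.coe_add, pj_val ha, pj_val hb, pj_val (add_mem ha hb)])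
  rw [ch, ch, ch, h, Xg_add, map_mul]

theorem ch_zero (χ : GR K Inf →+* κ) : ch χ 0 = 1 := by
  have h : pj 0 = 0 := Subtype.ext (pj_val (zero_mem _))
  rw [ch, h, Xg_zero, map_one]

theorem ch_ne_zero (χ : GR K Inf →+* κ) (a : K) : ch χ a ≠ 0 := by
  have h : χ (Xg K (pj a)) * χ (Xg K (-pj a)) = 1 := by
    rw [← map_mul, ← Xg_add, add_neg_cancel, Xg_zero, map_one]
  exact left_ne_zero_of_mul_eq_one h

theorem InI_mul {χ : GR K Inf →+* κ} {a b : K} (ha : a ∈ Bd) (hb : InI χ b) : InI χ (a * b) :=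
  ⟨Bd_mul ha hb.1, fun ζ hζ => by
    rw [mul_comm a b, mul_assoc]
    exact hb.2 _ (Bd_mul_Inf ha hζ)⟩

theorem exists_I (χ : GR K Inf →+* κ) : ∃ I : Submodule ℚ K, ∀ δ, δ ∈ I ↔ InI χ δ :=
  ⟨{ carrier := {δ | InI χ δ}
     zero_mem' := ⟨zero_mem _, fun ζ _ => by rw [zero_mul, ch_zero]⟩
     add_mem' := fun {a b} ha hb => ⟨add_mem ha.1 hb.1, fun ζ hζ => by
       rw [add_mul, ch_add χ (Bd_mul_Inf ha.1 hζ) (Bd_mul_Inf hb.1 hζ), ha.2 ζ hζ, hb.2 ζ hζ,
         one_mul]⟩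
     smul_mem' := fun q a ha => by
       have h : q • a = (q • (1 : K)) * a := by rw [smul_mul_assoc, one_mul]
       show InI χ (q • a)
       rw [h]
       exact InI_mul (Bd.smul_mem q one_mem_Bd) ha }, fun _ => Iff.rfl⟩

theorem TRExp_all {χ : GR K Inf →+* κ} {z : K} (hz : z ∈ Bd)
    (h : ∀ ζ ∈ Inf, 0 ≤ ζ → ch χ (z * ζ) = 1) : InI χ z := by
  refine ⟨hz, fun ζ hζ => ?_⟩
  rcases le_total 0 ζ with h0 | h0
  · exact h ζ hζ h0
  · have h1 := h (-ζ) (neg_mem hζ) (neg_nonneg.2 h0)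
    have h2 := ch_add χ (Bd_mul_Inf hz hζ) (Bd_mul_Inf hz (neg_mem hζ))
    rw [h1, mul_one, ← mul_add, add_neg_cancel, mul_zero, ch_zero] at h2
    exact h2.symm

/-- the ring of exponential polynomials and its evaluations -/
theorem exp_model (χ : GR K Inf →+* κ) :
    ∃ (A : Type) (_ : AddCommGroup A) (_ : Module ℚ A) (π : Bd →ₗ[ℚ] A)
      (ev : Inf → (GR κ A →+* κ)), Surjective π ∧ (∀ z : Bd, π z = 0 ↔ InI χ z) ∧
      (∀ (ζ : Inf) (z : Bd) (c : κ),
        ev ζ (AddMonoidAlgebra.single (π z) c) = c * ch χ (z * ζ)) ∧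
      ∀ f : GR κ A, f ≠ 0 → ∃ ζ : Inf, (0 : K) ≤ ζ ∧ ev ζ f ≠ 0 := by
  obtain ⟨I, hI⟩ := exists_I χ
  let J : Submodule ℚ Bd := I.comap Bd.subtype
  let π : Bd →ₗ[ℚ] (Bd ⧸ J) := J.mkQ
  have hs : Surjective π := J.mkQ_surjective
  have h0 : ∀ z : Bd, π z = 0 ↔ InI χ z := fun z =>
    (Submodule.Quotient.mk_eq_zero J).trans (hI _)
  have hc : ∀ (z z' : Bd) (ζ : Inf), π z = π z' → ch χ (z * ζ) = ch χ (z' * ζ) := by
    intro z z' ζ h
    have h1 : InI χ ((z - z' : Bd) : K) := (h0 _).1 (by rw [map_sub, h, sub_self])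
    have h2 := ch_add χ (Bd_mul_Inf h1.1 ζ.2) (Bd_mul_Inf z'.2 ζ.2)
    rw [h1.2 _ ζ.2, one_mul, ← add_mul, Submodule.coe_sub, sub_add_cancel] at h2
    exact h2
  let s : (Bd ⧸ J) → Bd := surjInv hs
  have hsπ : ∀ a, π (s a) = a := surjInv_eq hs
  let m : Inf → (Multiplicative (Bd ⧸ J) →* κ) := fun ζ =>
    { toFun := fun a => ch χ (s a.toAdd * ζ)
      map_one' := by
        rw [hc _ 0 ζ (by rw [hsπ, map_zero]; rfl), Submodule.coe_zero, zero_mul, ch_zero]
      map_mul' := fun a b => by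
        rw [hc _ (s a.toAdd + s b.toAdd) ζ (by rw [map_add, hsπ, hsπ, hsπ]; rfl),
          Submodule.coe_add, add_mul,
          ch_add χ (Bd_mul_Inf (s a.toAdd).2 ζ.2) (Bd_mul_Inf (s b.toAdd).2 ζ.2)] }
  refine ⟨Bd ⧸ J, inferInstance, inferInstance, π,
    fun ζ => (AddMonoidAlgebra.lift κ κ (Bd ⧸ J) (m ζ)).toRingHom, hs, h0, fun ζ z c => ?_,
    fun f hf => ?_⟩
  · show AddMonoidAlgebra.lift κ κ (Bd ⧸ J) (m ζ) (AddMonoidAlgebra.single (π z) c) = _
    rw [AddMonoidAlgebra.lift_single, smul_eq_mul]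
    exact congrArg (c * ·) (hc _ _ ζ (hsπ _))
  · by_contra hcon
    push Not at hcon
    let N : AddSubmonoid Inf :=
      { carrier := {ζ | (0 : K) ≤ ζ}
        zero_mem' := le_refl (0 : K)
        add_mem' := fun {a b} ha hb => add_nonneg (α := K) ha hb }
    let n : (Bd ⧸ J) → (Multiplicative N →* κ) := fun a =>
      { toFun := fun ζ => ch χ (s a * (ζ.toAdd : Inf))
        map_one' := by
          show ch χ (s a * (0 : K)) = 1
          rw [mul_zero, ch_zero]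
        map_mul' := fun ζ ξ => by
          show ch χ (s a * (((ζ.toAdd : Inf) : K) + ((ξ.toAdd : Inf) : K))) = _
          rw [mul_add, ch_add χ (Bd_mul_Inf (s a).2 (ζ.toAdd : Inf).2)
            (Bd_mul_Inf (s a).2 (ξ.toAdd : Inf).2)] }
    have hn : Injective n := by
      intro a b h
      rw [← sub_eq_zero, ← hsπ a, ← hsπ b, ← map_sub, h0]
      refine TRExp_all (s a - s b).2 fun ζ hζ hp => ?_
      have h1 : ch χ (s a * ζ) = ch χ (s b * ζ) :=
        DFunLike.congr_fun h (Multiplicative.ofAdd (⟨⟨ζ, hζ⟩, hp⟩ : N))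
      have h2 := ch_add χ (Bd_mul_Inf (s a - s b).2 hζ) (Bd_mul_Inf (s b).2 hζ)
      rw [← add_mul, Submodule.coe_sub, sub_add_cancel, h1] at h2
      exact (mul_eq_right₀ (ch_ne_zero χ _)).1 h2.symm
    have hli := (linearIndependent_monoidHom (Multiplicative N) κ).comp n hn
    rw [linearIndependent_iff] at hli
    refine hf (AddMonoidAlgebra.ext (hli f.coeff (funext fun ζ => ?_)))
    have h1 := hcon (ζ.toAdd : Inf) ζ.toAdd.2
    rw [Finsupp.linearCombination_apply, Finsupp.sum, Finset.sum_apply]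
    exact (AddMonoidAlgebra.lift_apply (m (ζ.toAdd : Inf)) f).symm.trans h1

end Pool.Agent.P.MP_6d4b14_an.TR
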