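import Pool.Agent.P.MP_6d4b14_an.TRTw

/-! The factorisation of the right side. -/

set_option linter.unusedSectionVars false
set_option linter.unusedVariables false

namespace Pool.Agent.P.MP_6d4b14_an.TR

open scoped Classical
open Function

variable {k Δ : Type} [Field k] [AddCommGroup Δ] [Module ℚ Δ]

theorem TRFac_sum_apply {ι : Type} (T : Finset ι) (f : ι → Fn k Δ) (s : Δ) :
    (∑ i ∈ T, f i) s = ∑ i ∈ T, f i s := by
  induction T using Finset.induction_on with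
  | empty => rfl
  | insert a T ha ih => rw [Finset.sum_insert ha, Finset.sum_insert ha, Fn.add_apply, ih]

theorem TRFac_smul (c : k) (ω : Om k Δ) : c • ω = CO Δ c * ω := by
  rw [Algebra.smul_def, IsScalarTower.algebraMap_apply k (GR k Δ) (Om k Δ)]
  rfl

theorem TRFac_single (δ : Δ) (c : k) :
    algebraMap (GR k Δ) (Om k Δ) (AddMonoidAlgebra.single δ c) = CO Δ c * XO k δ := by
  have h : (AddMonoidAlgebra.single δ c : GR k Δ) = algebraMap k (GR k Δ) c * Xg k δ := by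
    rw [← Algebra.smul_def, Xg, AddMonoidAlgebra.smul_single, smul_eq_mul, mul_one]
  rw [h, map_mul]
  rfl

theorem TRFac_split {Ω0 Ω : Type} [Field Ω0] [Field Ω] (E : Ω0 →+* Ω) (σ : Ω →+* Ω)
    (σ0 : Ω0 →+* Ω0) (hσ : ∀ ω, σ (E ω) = E (σ0 ω)) {a τ : Ω0} (ha : σ0 a = τ * a) (hτ : τ ≠ 1)
    (a0 : a ≠ 0) (γ : Ω0) : ∃ p q : Ω0, ∀ A B C : Ω, σ A = A → σ B = B → σ C = C →
      E γ * C = A + E a * B → A = E p * C ∧ B = E q * C := by
  have hne : (1 - τ) * a ≠ 0 := mul_ne_zero (sub_ne_zero.2 hτ.symm) a0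
  obtain ⟨q, hq⟩ : ∃ q, q * ((1 - τ) * a) = γ - σ0 γ := ⟨_, div_mul_cancel₀ _ hne⟩
  refine ⟨γ - a * q, q, fun A B C hA hB hC h => ?_⟩
  have h1 := congrArg σ h
  rw [map_mul, map_add, map_mul, hσ, hσ, hA, hB, hC, ha, map_mul] at h1
  have h2 := congrArg E hq
  rw [map_mul, map_mul, map_sub, map_sub, map_one] at h2
  have h3 : (1 - E τ) * E a ≠ 0 := by
    have := (map_ne_zero E).2 hne
    rwa [map_mul, map_sub, map_one] at this
  have h4 : B = E q * C := by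
    apply mul_left_cancel₀ h3
    linear_combination h1 - h - C * h2
  refine ⟨?_, h4⟩
  rw [map_sub, map_mul]
  linear_combination (-1 : Ω) * h - E a * h4

theorem TRFac_sub {W : Type} {z : W → Δ} (hz : Injective z) {p q : Om k Δ} {w1 : W}
    (h : p + XO k (z w1) * q ≠ 0) : {w | p + XO k (z w) * q = 0}.Subsingleton := by
  intro w hw w' hw'
  have h1 : p + XO k (z w) * q = 0 := hw
  have h2 : p + XO k (z w') * q = 0 := hw'
  have hq : q ≠ 0 := by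
    rintro rfl
    rw [mul_zero] at h h1
    exact h h1
  refine hz (XO_inj (k := k) (mul_right_cancel₀ hq ?_))
  linear_combination h1 - h2

/-- the product of two functionals -/
theorem exists_tens (l l' : Fn k Δ →ₗ[GR k Δ] Om k Δ) :
    ∃ L : Fn k (Δ × Δ) →+ Om k (Δ × Δ), ∀ (Q : GR k (Δ × Δ)) (φ ψ : Fn k Δ),
      L (Q • tens φ ψ) = algebraMap (GR k (Δ × Δ)) (Om k (Δ × Δ)) Q *
        (emb k (LinearMap.inl ℚ Δ Δ) LinearMap.inl_injective (l φ) *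
          emb k (LinearMap.inr ℚ Δ Δ) LinearMap.inr_injective (l' ψ)) := by
  obtain ⟨E1, hE1⟩ : ∃ E1, E1 = emb k (LinearMap.inl ℚ Δ Δ) LinearMap.inl_injective := ⟨_, rfl⟩
  obtain ⟨E2, hE2⟩ : ∃ E2, E2 = emb k (LinearMap.inr ℚ Δ Δ) LinearMap.inr_injective := ⟨_, rfl⟩
  have c1 : ∀ c, E1 (CO Δ c) = CO (Δ × Δ) c := fun c => by rw [hE1, emb_CO]
  have c2 : ∀ c, E2 (CO Δ c) = CO (Δ × Δ) c := fun c => by rw [hE2, emb_CO]
  have x1 : ∀ δ, E1 (XO k δ) = XO k (δ, (0 : Δ)) := fun δ => by rw [hE1, emb_XO]; rfl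
  have x2 : ∀ δ, E2 (XO k δ) = XO k ((0 : Δ), δ) := fun δ => by rw [hE2, emb_XO]; rfl
  rw [← hE1, ← hE2]
  obtain ⟨b, hb⟩ : ∃ b : Fn k Δ →ₗ[k] Fn k Δ →ₗ[k] Om k (Δ × Δ),
      ∀ φ ψ, b φ ψ = E1 (l φ) * E2 (l' ψ) :=
    ⟨LinearMap.mk₂ k (fun φ ψ => E1 (l φ) * E2 (l' ψ))
      (fun a a' ψ => by rw [map_add, map_add, add_mul])
      (fun c a ψ => by rw [fun_C, map_mul, c1, TRFac_smul, mul_assoc])
      (fun a ψ ψ' => by rw [map_add, map_add, mul_add])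
      (fun c a ψ => by rw [fun_C, map_mul, c2, TRFac_smul]; ring), fun _ _ => rfl⟩
  obtain ⟨t, ht⟩ : ∃ t : Fn k Δ →ₗ[k] Fn k Δ →ₗ[k] Fn k (Δ × Δ), ∀ φ ψ, t φ ψ = tens φ ψ :=
    ⟨LinearMap.mk₂ k tens (fun a a' ψ => Fn.ext fun z => add_mul _ _ _)
      (fun c a ψ => Fn.ext fun z => mul_assoc _ _ _)
      (fun a ψ ψ' => Fn.ext fun z => mul_add _ _ _)
      (fun c a ψ => Fn.ext fun z => mul_left_comm _ _ _), fun _ _ => rfl⟩
  obtain ⟨f, hf⟩ := fac_of_ker (TensorProduct.lift t) (TensorProduct.lift b) (by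
    intro v hv
    obtain ⟨S, rfl⟩ := TensorProduct.exists_finset v
    simp only [map_sum, TensorProduct.lift.tmul] at hv ⊢
    refine tens_zero S (fun i => i.1) (fun i => i.2) (fun r s => ?_) b
    have h1 := congrFun hv (r, s)
    rw [TRFac_sum_apply] at h1
    simp only [ht] at h1
    exact h1)
  have hf' : ∀ φ ψ, f (tens φ ψ) = E1 (l φ) * E2 (l' ψ) := fun φ ψ => by
    have := hf (φ ⊗ₜ[k] ψ)
    rwa [TensorProduct.lift.tmul, TensorProduct.lift.tmul, ht, hb] at this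
  refine ⟨f.toAddMonoidHom, fun Q φ ψ => ?_⟩
  change f _ = _
  induction Q using AddMonoidAlgebra.induction_linear with
  | zero => rw [zero_smul, map_zero, map_zero, zero_mul]
  | add a a' ha ha' => rw [add_smul, map_add, map_add, ha, ha', add_mul]
  | single δ c =>
    have e : (AddMonoidAlgebra.single δ c : GR k (Δ × Δ)) • tens φ ψ =
        c • tens (Xg k δ.1 • φ) (Xg k δ.2 • ψ) := by
      refine Fn.ext fun z => ?_
      rw [single_smul, Fn.smul_apply]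
      simp only [tens, Xg_smul]
      rfl
    have e2 : XO k δ = XO k (δ.1, (0 : Δ)) * XO k ((0 : Δ), δ.2) := by
      rw [← XO_add]; simp
    rw [e, map_smul, hf', fun_X, fun_X, map_mul, map_mul, x1, x2, TRFac_smul, TRFac_single, e2]
    ring

theorem exists_coef {W : Type} (x y : W → Δ) (φ ψ : W → Fn k Δ) (F0 F1 F2 F3 : Fn k (Δ × Δ))
    (hF : ∀ w, tens (φ w) (ψ w) =
      F0 + Xg k (x w, (0 : Δ)) • F1 + Xg k ((0 : Δ), y w) • F2 + Xg k (x w, y w) • F3)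
    (l l' : Fn k Δ →ₗ[GR k Δ] Om k Δ) :
    ∃ f0 f1 f2 f3 : Om k (Δ × Δ), ∀ w,
      emb k (LinearMap.inl ℚ Δ Δ) LinearMap.inl_injective (l (φ w)) *
          emb k (LinearMap.inr ℚ Δ Δ) LinearMap.inr_injective (l' (ψ w)) =
        f0 + XO k (x w, (0 : Δ)) * f1 + XO k ((0 : Δ), y w) * f2 +
          XO k (x w, (0 : Δ)) * XO k ((0 : Δ), y w) * f3 := by
  obtain ⟨L, hL⟩ := exists_tens l l'
  obtain ⟨h, hh⟩ : ∃ h : W → Om k (Δ × Δ), ∀ w,
      emb k (LinearMap.inl ℚ Δ Δ) LinearMap.inl_injective (l (φ w)) *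
        emb k (LinearMap.inr ℚ Δ Δ) LinearMap.inr_injective (l' (ψ w)) = h w := ⟨_, fun _ => rfl⟩
  have exy : ∀ w, Xg k (x w, y w) = Xg k (x w, (0 : Δ)) * Xg k ((0 : Δ), y w) := fun w => by
    rw [← Xg_add]; simp
  obtain ⟨f, hf⟩ := fac_of_ker
    (Finsupp.linearCombination (Om k (Δ × Δ)) fun w => (![1, XO k (x w, (0 : Δ)),
      XO k ((0 : Δ), y w), XO k (x w, (0 : Δ)) * XO k ((0 : Δ), y w)] : Fin 4 → Om k (Δ × Δ)))
    (Finsupp.linearCombination (Om k (Δ × Δ)) h) (by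
    intro c hc
    obtain ⟨d, hd⟩ := IsLocalization.exist_integer_multiples (nonZeroDivisors (GR k (Δ × Δ)))
      c.support (fun w => c w)
    choose! Q hQ using hd
    have hd0 : algebraMap (GR k (Δ × Δ)) (Om k (Δ × Δ)) d ≠ 0 :=
      IsFractionRing.to_map_ne_zero_of_mem_nonZeroDivisors d.2
    have key : ∀ v : W → GR k (Δ × Δ),
        ∑ w ∈ c.support, c w * algebraMap (GR k (Δ × Δ)) (Om k (Δ × Δ)) (v w) = 0 →
        ∑ w ∈ c.support, Q w * v w = 0 := by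
      intro v hv
      apply IsFractionRing.injective (GR k (Δ × Δ)) (Om k (Δ × Δ))
      rw [map_sum, map_zero, ← mul_zero (algebraMap (GR k (Δ × Δ)) (Om k (Δ × Δ)) d), ← hv,
        Finset.mul_sum]
      refine Finset.sum_congr rfl fun w hw => ?_
      rw [map_mul, hQ w hw, Algebra.smul_def, mul_assoc]
    rw [Finsupp.linearCombination_apply, Finsupp.sum] at hc ⊢
    have hci := fun i => congrFun hc i
    simp only [Finset.sum_apply, Pi.smul_apply, smul_eq_mul, Pi.zero_apply] at hci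
    have r0 := key (fun _ => 1) (by rw [map_one]; exact hci 0)
    have r1 := key (fun w => Xg k (x w, (0 : Δ))) (hci 1)
    have r2 := key (fun w => Xg k ((0 : Δ), y w)) (hci 2)
    have r3 := key (fun w => Xg k (x w, y w)) (by simp only [exy, map_mul]; exact hci 3)
    have r : ∑ w ∈ c.support, Q w • tens (φ w) (ψ w) = 0 := by
      simp only [hF, smul_add, ← mul_smul, Finset.sum_add_distrib, ← Finset.sum_smul]
      simp only [mul_one] at r0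
      rw [r0, r1, r2, r3]
      simp
    have r' := congrArg L r
    rw [map_sum, map_zero] at r'
    apply mul_left_cancel₀ hd0
    rw [mul_zero, ← r', Finset.mul_sum]
    refine Finset.sum_congr rfl fun w hw => ?_
    rw [hL, hh, hQ w hw, Algebra.smul_def (d : GR k (Δ × Δ)), smul_eq_mul, mul_assoc])
  refine ⟨f (Pi.single 0 1), f (Pi.single 1 1), f (Pi.single 2 1), f (Pi.single 3 1), fun w => ?_⟩
  have h1 := hf (Finsupp.single w 1)
  rw [Finsupp.linearCombination_single, Finsupp.linearCombination_single, one_smul, one_smul] at h1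
  have e : (![1, XO k (x w, (0 : Δ)), XO k ((0 : Δ), y w),
      XO k (x w, (0 : Δ)) * XO k ((0 : Δ), y w)] : Fin 4 → Om k (Δ × Δ)) =
      Pi.single 0 1 + XO k (x w, (0 : Δ)) • Pi.single 1 1 + XO k ((0 : Δ), y w) • Pi.single 2 1 +
        (XO k (x w, (0 : Δ)) * XO k ((0 : Δ), y w)) • Pi.single 3 1 := by
    ext i
    fin_cases i <;> simp
  rw [hh, ← h1, e, map_add, map_add, map_add, map_smul, map_smul, map_smul]
  rfl

theorem fac {W : Type} {e : Multiplicative ℚ →* k} (he : e (Multiplicative.ofAdd 1) ≠ 1)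
    (x y : W → Δ) (hx : Injective x) (hy : Injective y) (φ ψ : W → Fn k Δ)
    (F0 F1 F2 F3 : Fn k (Δ × Δ))
    (hF : ∀ w, tens (φ w) (ψ w) =
      F0 + Xg k (x w, (0 : Δ)) • F1 + Xg k ((0 : Δ), y w) • F2 + Xg k (x w, y w) • F3)
    (hgen : ∀ S : Finset Δ, ∃ w, x w ∉ Submodule.span ℚ (S : Set Δ) ∧
      y w ∉ Submodule.span ℚ (S : Set Δ))
    (l l' : Fn k Δ →ₗ[GR k Δ] Om k Δ) (w1 : W) (h1 : l (φ w1) ≠ 0) (h1' : l' (ψ w1) ≠ 0) :
    ∃ (p q : Om k Δ) (E : Set W), E.Finite ∧ w1 ∉ E ∧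
      ∀ w ∉ E, ∃ ν : k, l' (ψ w) = CO Δ ν * (p + XO k (y w) * q) := by
  obtain ⟨f0, f1, f2, f3, hf⟩ := exists_coef x y φ ψ F0 F1 F2 F3 hF l l'
  obtain ⟨E1, hE1⟩ : ∃ E1, E1 = emb k (LinearMap.inl ℚ Δ Δ) LinearMap.inl_injective := ⟨_, rfl⟩
  obtain ⟨E2, hE2⟩ : ∃ E2, E2 = emb k (LinearMap.inr ℚ Δ Δ) LinearMap.inr_injective := ⟨_, rfl⟩
  have x1 : ∀ δ, XO k (δ, (0 : Δ)) = E1 (XO k δ) := fun δ => by rw [hE1, emb_XO]; rfl
  have x2 : ∀ δ, XO k ((0 : Δ), δ) = E2 (XO k δ) := fun δ => by rw [hE2, emb_XO]; rfl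
  simp only [← hE1, ← hE2, x1, x2] at hf
  obtain ⟨S, hS⟩ := fin_supp e ({f0, f1, f2, f3} : Finset (Om k (Δ × Δ)))
  obtain ⟨w0, hx0, hy0⟩ := hgen (S.image Prod.fst ∪ S.image Prod.snd)
  obtain ⟨ϕ1, a1, b1⟩ := exists_phi hx0
  obtain ⟨ϕ2, a2, b2⟩ := exists_phi hy0
  have s1 := hS (ϕ1 ∘ₗ LinearMap.fst ℚ Δ Δ) fun s hs => b1 s.1 (Submodule.subset_span
    (Finset.mem_coe.2 (Finset.mem_union_left _ (Finset.mem_image_of_mem _ hs))))
  have s2 := hS (ϕ2 ∘ₗ LinearMap.snd ℚ Δ Δ) fun s hs => b2 s.2 (Submodule.subset_span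
    (Finset.mem_coe.2 (Finset.mem_union_right _ (Finset.mem_image_of_mem _ hs))))
  have t11 : ∀ ω, tw e (ϕ1 ∘ₗ LinearMap.fst ℚ Δ Δ) (E1 ω) = E1 (tw e ϕ1 ω) := fun ω => by
    rw [hE1, tw_emb, LinearMap.comp_assoc, LinearMap.fst_comp_inl, LinearMap.comp_id]
  have t12 : ∀ ω, tw e (ϕ1 ∘ₗ LinearMap.fst ℚ Δ Δ) (E2 ω) = E2 ω := fun ω => by
    rw [hE2, tw_emb, LinearMap.comp_assoc, LinearMap.fst_comp_inr, LinearMap.comp_zero, tw_zero]
  have t21 : ∀ ω, tw e (ϕ2 ∘ₗ LinearMap.snd ℚ Δ Δ) (E1 ω) = E1 ω := fun ω => by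
    rw [hE1, tw_emb, LinearMap.comp_assoc, LinearMap.snd_comp_inl, LinearMap.comp_zero, tw_zero]
  have t22 : ∀ ω, tw e (ϕ2 ∘ₗ LinearMap.snd ℚ Δ Δ) (E2 ω) = E2 (tw e ϕ2 ω) := fun ω => by
    rw [hE2, tw_emb, LinearMap.comp_assoc, LinearMap.snd_comp_inr, LinearMap.comp_id]
  obtain ⟨p1, q1, H1⟩ := TRFac_split E1 _ _ t11 (a := XO k (x w0))
    (by rw [tw_XO, a1]) (CO_e_ne he) (XO_ne_zero _) (l (φ w0))
  obtain ⟨p, q, H2⟩ := TRFac_split E2 _ _ t22 (a := XO k (y w0))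
    (by rw [tw_XO, a2]) (CO_e_ne he) (XO_ne_zero _) (l' (ψ w0))
  obtain ⟨u0, u1⟩ := H1 (f0 + E2 (XO k (y w0)) * f2) (f1 + E2 (XO k (y w0)) * f3) (E2 (l' (ψ w0)))
    (by rw [map_add, map_mul, t12, s1 f0 (by simp), s1 f2 (by simp)])
    (by rw [map_add, map_mul, t12, s1 f1 (by simp), s1 f3 (by simp)]) (t12 _)
    (by rw [hf w0]; ring)
  obtain ⟨v0, v2⟩ := H2 f0 f2 (E1 p1) (s2 f0 (by simp)) (s2 f2 (by simp)) (t21 _)
    (by rw [u0]; ring)
  obtain ⟨v1, v3⟩ := H2 f1 f3 (E1 q1) (s2 f1 (by simp)) (s2 f3 (by simp)) (t21 _)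
    (by rw [u1]; ring)
  have all : ∀ w, E1 (l (φ w)) * E2 (l' (ψ w)) =
      E1 (p1 + XO k (x w) * q1) * E2 (p + XO k (y w) * q) := fun w => by
    rw [hf w, map_add, map_add, map_mul, map_mul, v0, v1, v2, v3]; ring
  have n1 : E1 (p1 + XO k (x w1) * q1) * E2 (p + XO k (y w1) * q) ≠ 0 := by
    rw [← all]
    exact mul_ne_zero ((map_ne_zero E1).2 h1) ((map_ne_zero E2).2 h1')
  have n2 : p1 + XO k (x w1) * q1 ≠ 0 := (map_ne_zero E1).1 (left_ne_zero_of_mul n1)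
  have n3 : p + XO k (y w1) * q ≠ 0 := (map_ne_zero E2).1 (right_ne_zero_of_mul n1)
  refine ⟨p, q, {w | p1 + XO k (x w) * q1 = 0} ∪ {w | p + XO k (y w) * q = 0},
    (TRFac_sub hx n2).finite.union (TRFac_sub hy n3).finite, fun h => h.elim n2 n3,
    fun w hw => ?_⟩
  have m2 : p1 + XO k (x w) * q1 ≠ 0 := fun h => hw (Or.inl h)
  have m3 : p + XO k (y w) * q ≠ 0 := fun h => hw (Or.inr h)
  have m4 := (map_ne_zero E2).2 m3
  have m5 : E1 (l (φ w)) ≠ 0 := by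
    have := mul_ne_zero ((map_ne_zero E1).2 m2) m4
    rw [← all] at this
    exact left_ne_zero_of_mul this
  have m6 : E1 ((p1 + XO k (x w) * q1) / l (φ w)) = E2 (l' (ψ w) / (p + XO k (y w) * q)) := by
    rw [map_div₀, map_div₀, div_eq_div_iff m5 m4, ← all, mul_comm]
  rw [hE1, hE2] at m6
  obtain ⟨c, hc⟩ := emb_cap he m6
  exact ⟨c, (div_eq_iff m3).1 hc⟩

end Pool.Agent.P.MP_6d4b14_an.TR
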