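import Pool.Agent.P.MP_6d4b14_an.TRDefs

/-! Functionals on functions modulo torsion. -/

set_option linter.unusedSectionVars false
set_option linter.unusedVariables false

namespace Pool.Agent.P.MP_6d4b14_an.TR

open scoped Classical
open Function

variable {k Δ : Type} [Field k] [AddCommGroup Δ] [Module ℚ Δ]

theorem smul_apply (P : GR k Δ) (φ : Fn k Δ) (s : Δ) :
    (P • φ) s = ∑ δ ∈ P.coeff.support, P.coeff δ * φ (s + δ) := by
  have h : ∀ (T : Finset Δ) (f : Δ → Fn k Δ), (∑ δ ∈ T, f δ) s = ∑ δ ∈ T, f δ s :=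
    fun T f => Finset.sum_apply s T f
  rw [smul_def, actHom, AddMonoidAlgebra.lift_apply, Finsupp.sum, LinearMap.sum_apply, h]
  rfl

theorem Xg_inj {a b : Δ} (h : Xg k a = Xg k b) : a = b := by
  by_contra hne
  have h1 := congrArg (fun P : GR k Δ => P.coeff a) h
  simp [Xg, AddMonoidAlgebra.coeff_single, Ne.symm hne] at h1

theorem XO_add (a b : Δ) : XO k (a + b) = XO k a * XO k b := by
  rw [XO, XO, XO, Xg_add, map_mul]

theorem XO_zero : XO k (0 : Δ) = 1 := by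
  rw [XO, Xg_zero, map_one]

theorem XO_ne_zero (a : Δ) : XO k a ≠ 0 := fun h => by
  have h1 := XO_add (k := k) a (-a)
  rw [add_neg_cancel, XO_zero, h, zero_mul] at h1
  exact one_ne_zero h1

theorem XO_inj {a b : Δ} (h : XO k a = XO k b) : a = b :=
  Xg_inj (IsFractionRing.injective (GR k Δ) (Om k Δ) h)

theorem fun_R (l : Fn k Δ →ₗ[GR k Δ] Om k Δ) (P : GR k Δ) (φ : Fn k Δ) :
    l (P • φ) = algebraMap (GR k Δ) (Om k Δ) P * l φ := by
  rw [map_smul, Algebra.smul_def]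

theorem fun_X (l : Fn k Δ →ₗ[GR k Δ] Om k Δ) (δ : Δ) (φ : Fn k Δ) :
    l (Xg k δ • φ) = XO k δ * l φ := fun_R l _ φ

theorem fun_C (l : Fn k Δ →ₗ[GR k Δ] Om k Δ) (c : k) (φ : Fn k Δ) :
    l (c • φ) = CO Δ c * l φ := by
  rw [← algebraMap_smul (GR k Δ) c φ, fun_R]
  rfl

theorem fun_tor (l : Fn k Δ →ₗ[GR k Δ] Om k Δ) {φ : Fn k Δ} (h : Tor φ) : l φ = 0 := by
  obtain ⟨P, hP, h1⟩ := h
  have h2 := fun_R l P φ
  rw [h1, map_zero] at h2
  exact (mul_eq_zero.1 h2.symm).resolve_left fun h3 =>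
    hP (IsFractionRing.injective (GR k Δ) (Om k Δ) (h3.trans (map_zero _).symm))

theorem exists_fun {φ : Fn k Δ} (h : ¬ Tor φ) :
    ∃ l : Fn k Δ →ₗ[GR k Δ] Om k Δ, l φ ≠ 0 := by
  have h1 : LocalizedModule.mkLinearMap (nonZeroDivisors (GR k Δ)) (Fn k Δ) φ ≠ 0 := fun h2 => by
    obtain ⟨P, hP⟩ := (IsLocalizedModule.eq_zero_iff (nonZeroDivisors (GR k Δ)) _).1 h2
    exact h ⟨P, nonZeroDivisors.coe_ne_zero P, hP⟩
  have h2 := mt (Module.forall_dual_apply_eq_zero_iff (Om k Δ) _).1 h1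
  push Not at h2
  obtain ⟨f, hf⟩ := h2
  exact ⟨(f.restrictScalars (GR k Δ)).comp
    (LocalizedModule.mkLinearMap (nonZeroDivisors (GR k Δ)) (Fn k Δ)), hf⟩

theorem exists_fun2 {φ ψ : Fn k Δ} (h : ¬ Tor φ) (h' : ¬ Tor ψ) :
    ∃ l : Fn k Δ →ₗ[GR k Δ] Om k Δ, l φ ≠ 0 ∧ l ψ ≠ 0 := by
  obtain ⟨l1, h1⟩ := exists_fun h
  obtain ⟨l2, h2⟩ := exists_fun h'
  by_cases h3 : l1 ψ = 0
  · by_cases h4 : l2 φ = 0
    · refine ⟨l1 + l2, ?_, ?_⟩
      · rwa [LinearMap.add_apply, h4, add_zero]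
      · rwa [LinearMap.add_apply, h3, zero_add]
    · exact ⟨l2, h4, h2⟩
  · exact ⟨l1, h1, h3⟩

theorem tor_add {φ ψ : Fn k Δ} (h : Tor φ) (h' : Tor ψ) : Tor (φ + ψ) := by
  obtain ⟨P, hP, h1⟩ := h
  obtain ⟨Q, hQ, h2⟩ := h'
  refine ⟨P * Q, mul_ne_zero hP hQ, ?_⟩
  rw [smul_add, mul_smul P Q ψ, h2, mul_comm, mul_smul, h1, smul_zero, smul_zero, add_zero]

theorem tor_of_period {φ : Fn k Δ} {δ : Δ} (hδ : δ ≠ 0) (h : ∀ s, φ (s + δ) = φ s) : Tor φ := by
  refine ⟨Xg k δ - 1, fun h1 => hδ (Xg_inj (k := k) ?_), Fn.ext fun s => ?_⟩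
  · rw [Xg_zero]
    exact sub_eq_zero.1 h1
  · rw [sub_smul, one_smul, Fn.sub_apply, Xg_smul, h, sub_self, Fn.zero_apply]

/-- a linear map factors through a map with a smaller kernel -/
theorem fac_of_ker {F V W U : Type} [Field F] [AddCommGroup V] [Module F V] [AddCommGroup W]
    [Module F W] [AddCommGroup U] [Module F U] (Φ : V →ₗ[F] W) (Ψ : V →ₗ[F] U)
    (h : ∀ v, Φ v = 0 → Ψ v = 0) : ∃ f : W →ₗ[F] U, ∀ v, f (Φ v) = Ψ v := by
  obtain ⟨f, hf⟩ := LinearMap.exists_extend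
    (((LinearMap.ker Φ).liftQ Ψ fun v hv => h v hv).comp Φ.quotKerEquivRange.symm.toLinearMap)
  refine ⟨f, fun v => ?_⟩
  have h1 := LinearMap.congr_fun hf ⟨Φ v, LinearMap.mem_range_self Φ v⟩
  rw [LinearMap.comp_apply, LinearMap.comp_apply, LinearEquiv.coe_coe,
    LinearMap.quotKerEquivRange_symm_apply_image] at h1
  exact h1

/-- a relation between products of functions of separate variables is a relation of tensors -/
theorem tens_zero {ι U : Type} [AddCommGroup U] [Module k U] (T : Finset ι) (a b : ι → Fn k Δ)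
    (h : ∀ r s, ∑ i ∈ T, a i r * b i s = 0) (B : Fn k Δ →ₗ[k] Fn k Δ →ₗ[k] U) :
    ∑ i ∈ T, B (a i) (b i) = 0 := by
  have hs : ∀ (f : ι → Fn k Δ) (s : Δ), (∑ i ∈ T, f i) s = ∑ i ∈ T, f i s :=
    fun f s => Finset.sum_apply s T f
  let e := Module.Basis.ofVectorSpace k (Fn k Δ)
  have h1 : ∀ r, ∑ i ∈ T, a i r • b i = 0 := fun r => Fn.ext fun s => by
    rw [hs]
    exact h r s
  have h2 : ∀ j, ∑ i ∈ T, e.repr (b i) j • a i = 0 := fun j => Fn.ext fun r => by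
    have h3 := congrArg (fun φ => e.repr φ j) (h1 r)
    simp only [map_sum, map_smul, map_zero, Finsupp.coe_finsetSum, Finset.sum_apply,
      Finsupp.smul_apply, smul_eq_mul, Finsupp.zero_apply] at h3
    rw [hs, Fn.zero_apply, ← h3]
    exact Finset.sum_congr rfl fun i _ => mul_comm _ _
  let S := T.biUnion fun i => (e.repr (b i)).support
  have h4 : ∀ i ∈ T, b i = ∑ j ∈ S, e.repr (b i) j • e j := fun i hi => by
    conv_lhs => rw [← e.linearCombination_repr (b i)]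
    rw [Finsupp.linearCombination_apply]
    exact Finsupp.sum_of_support_subset _
      (Finset.subset_biUnion_of_mem (fun i => (e.repr (b i)).support) hi) _
      fun j _ => zero_smul _ _
  calc ∑ i ∈ T, B (a i) (b i) = ∑ i ∈ T, ∑ j ∈ S, B (e.repr (b i) j • a i) (e j) := by
        refine Finset.sum_congr rfl fun i hi => ?_
        conv_lhs => rw [h4 i hi]
        rw [map_sum]
        exact Finset.sum_congr rfl fun j _ => by
          rw [map_smul, map_smul, LinearMap.smul_apply]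
    _ = ∑ j ∈ S, B (∑ i ∈ T, e.repr (b i) j • a i) (e j) := by
        rw [Finset.sum_comm]
        exact Finset.sum_congr rfl fun j _ => by rw [map_sum, LinearMap.sum_apply]
    _ = 0 := Finset.sum_eq_zero fun j _ => by rw [h2, map_zero, LinearMap.zero_apply]

/-- powers of a difference operator -/
theorem pow_smul_apply (δ : Δ) (n : ℕ) (φ : Fn k Δ) (s : Δ) :
    ((Xg k δ - 1) ^ n • φ) s = (fwdDiff δ)^[n] (fun t => φ t) s := by
  induction n generalizing φ with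
  | zero => rw [pow_zero, one_smul]; rfl
  | succ n ih =>
    rw [pow_succ, mul_smul, ih, Function.iterate_succ_apply]
    refine congrArg (fun F => (fwdDiff δ)^[n] F s) (funext fun t => ?_)
    rw [sub_smul, one_smul, Fn.sub_apply, Xg_smul]
    rfl

end Pool.Agent.P.MP_6d4b14_an.TR
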