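import Pool.Agent.P.MP_6d4b14_an.TRFun

/-! Infinitesimals, dilations and the equation on clusters. -/

set_option linter.unusedSectionVars false
set_option linter.unusedVariables false

namespace Pool.Agent.P.MP_6d4b14_an.TR

open scoped Classical
open Function

theorem Inf_le_Bd {a : K} (h : a ∈ Inf) : a ∈ Bd := ⟨1, h 1 one_pos⟩

theorem Bd_mul {a b : K} (ha : a ∈ Bd) (hb : b ∈ Bd) : a * b ∈ Bd := by
  obtain ⟨r, hr⟩ := ha
  obtain ⟨s, hs⟩ := hb
  refine ⟨r * s, ?_⟩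
  rw [abs_mul, Hyperreal.coe_mul]
  exact mul_lt_mul'' hr hs (abs_nonneg _) (abs_nonneg _)

theorem Inf_mul_Bd {a b : K} (ha : a ∈ Inf) (hb : b ∈ Bd) : a * b ∈ Inf :=
  mul_comm b a ▸ Bd_mul_Inf hb ha

theorem coe_mem_Bd (r : ℝ) : (r : K) ∈ Bd :=
  ⟨|r| + 1, by rw [← Hyperreal.coe_abs, Hyperreal.coe_lt_coe]; linarith⟩

theorem one_mem_Bd : (1 : K) ∈ Bd := coe_mem_Bd 1

theorem Inf_of_abs_le {a b : K} (h : |a| ≤ |b|) (hb : b ∈ Inf) : a ∈ Inf :=
  fun r hr => h.trans_lt (hb r hr)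

theorem Bd_of_abs_le {a b : K} (h : |a| ≤ |b|) (hb : b ∈ Bd) : a ∈ Bd := by
  obtain ⟨r, hr⟩ := hb
  exact ⟨r, h.trans_lt hr⟩

theorem eps_mem : Hyperreal.epsilon ∈ Inf := fun r hr => by
  rw [abs_of_pos Hyperreal.epsilon_pos]
  exact Hyperreal.epsilon_lt_of_pos hr

instance : Nontrivial Inf :=
  ⟨⟨⟨_, eps_mem⟩, 0, fun h => Hyperreal.epsilon_ne_zero (congrArg Subtype.val h)⟩⟩

theorem near_pos {c : ℝ} {z : K} (hc : 0 < c) (h : z - c ∈ Inf) : 0 < z := by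
  have h1 := (abs_lt.1 (h c hc)).1
  linarith

theorem near_lt {c : ℝ} {z : K} (hc : c < 1) (h : z - c ∈ Inf) : z < 1 := by
  have h1 := (abs_lt.1 (h (1 - c) (sub_pos.2 hc))).2
  rw [Hyperreal.coe_sub, Hyperreal.coe_one] at h1
  linarith

theorem near_Bd {c : ℝ} {z : K} (h : z - c ∈ Inf) : z ∈ Bd := by
  have h1 := add_mem (Inf_le_Bd h) (coe_mem_Bd c)
  rwa [sub_add_cancel] at h1

theorem near_inv_Bd {c : ℝ} {z : K} (hc : c ≠ 0) (h : z - c ∈ Inf) : z⁻¹ ∈ Bd := by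
  have h0 : 0 < |c| / 2 := half_pos (abs_pos.2 hc)
  have h1 := h _ h0
  have h2 : ((|c| / 2 : ℝ) : K) + ((|c| / 2 : ℝ) : K) = |(c : K)| := by
    rw [← Hyperreal.coe_add, add_halves, Hyperreal.coe_abs]
  have h3 := abs_sub_abs_le_abs_sub (c : K) z
  rw [abs_sub_comm] at h3
  have h4 : ((|c| / 2 : ℝ) : K) < |z| := by linarith
  refine ⟨(|c| / 2)⁻¹, ?_⟩
  rw [abs_inv, Hyperreal.coe_inv]
  exact inv_strictAnti₀ (Hyperreal.coe_pos.2 h0) h4

theorem trinf_W {w : K} (h : 1 - w ∈ Inf) : w - ((1 : ℝ) : K) ∈ Inf := by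
  have h1 := neg_mem h
  rwa [neg_sub] at h1

theorem W_pos {w : K} (h : 1 - w ∈ Inf) : 0 < w := near_pos one_pos (trinf_W h)

theorem W_Bd {w : K} (h : 1 - w ∈ Inf) : w ∈ Bd := near_Bd (trinf_W h)

theorem W_inv {w : K} (h : 1 - w ∈ Inf) : 1 - w⁻¹ ∈ Inf := by
  have h0 := (W_pos h).ne'
  have h1 : 1 - w⁻¹ = -(w⁻¹ * (1 - w)) := by
    rw [mul_sub, mul_one, inv_mul_cancel₀ h0, neg_sub]
  rw [h1]
  exact neg_mem (Bd_mul_Inf (near_inv_Bd one_ne_zero (trinf_W h)) h)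

theorem W_mul {w w' : K} (h : 1 - w ∈ Inf) (h' : 1 - w' ∈ Inf) : 1 - w * w' ∈ Inf := by
  have h1 : 1 - w * w' = (1 - w) + w * (1 - w') := by ring
  rw [h1]
  exact add_mem h (Bd_mul_Inf (W_Bd h) h')

theorem trinf_root (x : ℝ) : ∃ y : ℝ, y ^ 5 = x := by
  rcases le_total 0 x with h | h
  · exact ⟨_, Real.rpow_inv_natCast_pow h (by norm_num)⟩
  · refine ⟨-((-x) ^ (((5 : ℕ) : ℝ)⁻¹)), ?_⟩
    rw [Odd.neg_pow (n := 5) ⟨2, rfl⟩, Real.rpow_inv_natCast_pow (neg_nonneg.2 h) (by norm_num), neg_neg]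

theorem trinf_hroot (δ : K) : ∃ η : K, η ^ 5 = δ := by
  obtain ⟨u, rfl⟩ := Hyperreal.ofSeq_surjective δ
  choose y hy using trinf_root
  refine ⟨Hyperreal.ofSeq fun n => y (u n), ?_⟩
  have h1 : ∀ a : K, a ^ 5 = a * a * a * a * a := fun a => by ring
  rw [h1]
  show Hyperreal.ofSeq (fun n => y (u n) * y (u n) * y (u n) * y (u n) * y (u n)) = _
  refine congrArg Hyperreal.ofSeq (funext fun n => ?_)
  rw [← hy (u n), hy]
  exact (by ring : _ = y (u n) ^ 5).trans (hy _)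

/-- a much larger infinitesimal -/
theorem exists_root {δ : K} (h : δ ∈ Inf) (h0 : δ ≠ 0) :
    ∃ η ∈ Inf, 0 < η ∧ δ / η ^ 5 ∈ Bd := by
  obtain ⟨η, rfl⟩ := trinf_hroot δ
  have h1 : 0 < |η| := abs_pos.2 fun h2 => h0 (by rw [h2]; norm_num)
  refine ⟨|η|, fun r hr => ?_, h1, Bd_of_abs_le (le_of_eq ?_) one_mem_Bd⟩
  · have h2 := h (r ^ 5) (pow_pos hr 5)
    have h3 : ((r ^ 5 : ℝ) : K) = (r : K) ^ 5 := map_pow Hyperreal.coeRingHom r 5
    rw [abs_pow, h3] at h2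
    rw [abs_abs]
    exact lt_of_pow_lt_pow_left₀ 5 (Hyperreal.coe_pos.2 hr).le h2
  · rw [abs_div, abs_pow, abs_pow, abs_abs, div_self (pow_pos h1 5).ne', abs_one]

theorem trinf_pj_zero : pj (1 - (1 : K)⁻¹) = 0 := by
  refine Subtype.ext ?_
  rw [inv_one, sub_self, pj_val (zero_mem _)]
  rfl

theorem Yg_one : Yg 1 = 1 := by rw [Yg, trinf_pj_zero, Xg_zero]

theorem YO_one : YO 1 = 1 := by rw [YO, trinf_pj_zero, XO_zero]

theorem dl_single {μ : K} (hμ : μ ∈ Bd) (γ : Inf) (c : K) :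
    dl μ (AddMonoidAlgebra.single γ c) = AddMonoidAlgebra.single (pj (μ * γ)) c := by
  have h1 : dilL (pb μ) γ = pj (μ * γ) :=
    Subtype.ext (by rw [dilL_val, pb_val hμ, pj_val (Bd_mul_Inf hμ γ.2)])
  rw [dl, embR_single, h1]

theorem dl_inj {μ : K} (hμ : μ ∈ Bd) (h0 : μ ≠ 0) : Injective (dl μ) := by
  refine embR_inj fun a b h => Subtype.ext (mul_left_cancel₀ h0 ?_)
  have h1 := congrArg Subtype.val h
  rwa [dilL_val, dilL_val, pb_val hμ] at h1

/-- an annihilator after an affine change of the variable -/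
theorem ann_aff {f : K → K} {c c' μ ν : K} (hμ : μ ∈ Bd) (hμ' : μ⁻¹ ∈ Bd) (h0 : μ ≠ 0)
    (hc : μ * c' + ν - c ∈ Inf) {P : GR K Inf} (hP : P • cl f c = 0) :
    dl μ⁻¹ P • cl (fun z => f (μ * z + ν)) c' = 0 := by
  have key : ∀ (Q : GR K Inf) (s : Inf), (dl μ⁻¹ Q • cl (fun z => f (μ * z + ν)) c') s =
      (Q • cl f c) (pj (μ * s + (μ * c' + ν - c))) := by
    intro Q s
    induction Q using AddMonoidAlgebra.induction_linear with
    | zero =>
      have h1 : ∀ φ : Fn K Inf, (0 : GR K Inf) • φ = 0 := fun φ => zero_smul (GR K Inf) φ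
      rw [map_zero, h1, h1, Fn.zero_apply, Fn.zero_apply]
    | add a b ha hb => rw [map_add, add_smul, add_smul, Fn.add_apply, Fn.add_apply, ha, hb]
    | single γ a =>
      rw [dl_single hμ', single_smul, single_smul]
      have h1 : μ * (c' + ((s : K) + μ⁻¹ * γ)) + ν = c + (μ * s + (μ * c' + ν - c) + γ) := by
        field_simp
        ring
      show a * f (μ * (c' + ((s : K) + (pj (μ⁻¹ * γ) : K))) + ν) =
        a * f (c + ((pj (μ * s + (μ * c' + ν - c)) : K) + γ))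
      rw [pj_val (Bd_mul_Inf hμ' γ.2), pj_val (add_mem (Bd_mul_Inf hμ s.2) hc), h1]
  refine Fn.ext fun s => ?_
  rw [key, hP, Fn.zero_apply, Fn.zero_apply]

theorem tor_aff {f : K → K} {c c' μ ν : K} (hμ : μ ∈ Bd) (hμ' : μ⁻¹ ∈ Bd) (h0 : μ ≠ 0)
    (hc : μ * c' + ν - c ∈ Inf) (h : Tor (cl f c)) : Tor (cl (fun z => f (μ * z + ν)) c') := by
  obtain ⟨P, h1, h2⟩ := h
  exact ⟨dl μ⁻¹ P, fun h3 => h1 (dl_inj hμ' (inv_ne_zero h0) (h3.trans (map_zero _).symm)),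
    ann_aff hμ hμ' h0 hc h2⟩

theorem trinf_ga (g : K → K) (c w : K) : ga g c w = cl (fun z => sg g (w * z + 0)) c :=
  Fn.ext fun s => by
    show sg g (w * (c + s)) = sg g (w * (c + s) + 0)
    rw [add_zero]

theorem trinf_near {c : ℝ} {w : K} (hw : 1 - w ∈ Inf) : w * c + 0 - c ∈ Inf := by
  have h1 : w * c + 0 - c = -((1 - w) * c) := by ring
  rw [h1]
  exact neg_mem (Inf_mul_Bd hw (coe_mem_Bd c))

theorem ann_ga {g : K → K} {c : ℝ} {w : K} (hw : 1 - w ∈ Inf) {P : GR K Inf}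
    (hP : P • cl (sg g) c = 0) : dl w⁻¹ P • ga g c w = 0 := by
  rw [trinf_ga]
  exact ann_aff (W_Bd hw) (W_Bd (W_inv hw)) (W_pos hw).ne' (trinf_near hw) hP

theorem tor_ga {g : K → K} {c : ℝ} {w : K} (hw : 1 - w ∈ Inf) (h : Tor (cl (sg g) c)) :
    Tor (ga g c w) := by
  rw [trinf_ga]
  exact tor_aff (W_Bd hw) (W_Bd (W_inv hw)) (W_pos hw).ne' (trinf_near hw) h

theorem ga_one (g : K → K) (c : K) : ga g c 1 = cl (sg g) c :=
  Fn.ext fun s => by
    show sg g (1 * (c + s)) = sg g (c + s)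
    rw [one_mul]

theorem de_one (g : K → K) (a : K) : de g a 1 = cl (sg g) a :=
  Fn.ext fun s => by
    show sg g ((a + s) / 1) = sg g (a + s)
    rw [div_one]

theorem trinf_y {c : ℝ} {w s : K} (hw : 1 - w ∈ Inf) (hs : s ∈ Inf) : w * (c + s) - c ∈ Inf := by
  have h1 : w * (c + s) - c = w * s - (1 - w) * c := by ring
  rw [h1]
  exact sub_mem (Bd_mul_Inf (W_Bd hw) hs) (Inf_mul_Bd hw (coe_mem_Bd c))

/-- the equation with the second variable in a cluster -/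
theorem os {g : K → K} (hg : HE g) {c : ℝ} (hc : 0 < c) (hc' : c < 1) {t u : K} (ht : 0 ≤ t)
    (hu : 0 ≤ u) (hw : 1 - (t + u) ∈ Inf) :
    al g c t + al g c u + Yg (t + u) • (be g c t + be g c u) =
      sg g (t / (t + u)) • ga g c (t + u) := by
  have h0 := W_pos hw
  have h0' := h0.ne'
  refine Fn.ext fun s => ?_
  have hy := trinf_y (c := c) hw s.2
  have h1 := hg (t / (t + u)) ((t + u) * (c + s)) (div_nonneg ht h0.le)
    ((div_le_one h0).2 (by linarith)) (near_pos hc hy).le (near_lt hc' hy).le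
  have e1 : t / (t + u) * ((t + u) * (c + s)) = t * (c + s) := by field_simp
  have e2 : t / (t + u) * (1 - (t + u) * (c + s)) =
      t * (1 - c - ((s : K) + (1 - (t + u)⁻¹))) := by
    field_simp
    ring
  have e3 : (1 - t / (t + u)) * ((t + u) * (c + s)) = u * (c + s) := by
    field_simp
    ring
  have e4 : (1 - t / (t + u)) * (1 - (t + u) * (c + s)) =
      u * (1 - c - ((s : K) + (1 - (t + u)⁻¹))) := by
    field_simp
    ring
  rw [e1, e2, e3, e4] at h1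
  rw [Fn.add_apply, Yg, Xg_smul]
  show g (t * (c + s)) + g (u * (c + s)) +
    (g (t * (1 - c - ((s : K) + (pj (1 - (t + u)⁻¹) : K)))) +
      g (u * (1 - c - ((s : K) + (pj (1 - (t + u)⁻¹) : K))))) =
    sg g (t / (t + u)) * sg g ((t + u) * (c + s))
  rw [pj_val (W_inv hw), ← h1]
  ring

/-- the equation with both variables in clusters -/
theorem ts {g : K → K} (hg : HE g) {a c : ℝ} (ha : 0 < a) (ha' : a < 1) (hc : 0 < c) (hc' : c < 1) :
    ∃ F0 F1 F2 F3 : Fn K (Inf × Inf), ∀ w : K, 1 - w ∈ Inf →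
      tens (de g a w) (ga g c w) = F0 + Xg K (pj (1 - w), (0 : Inf)) • F1 +
        Xg K ((0 : Inf), pj (1 - w⁻¹)) • F2 + Xg K (pj (1 - w), pj (1 - w⁻¹)) • F3 := by
  refine ⟨fun z => g ((a + z.1) * (c + z.2)), fun z => g ((1 - a - z.1) * (c + z.2)),
    fun z => g ((a + z.1) * (1 - c - z.2)), fun z => g ((1 - a - z.1) * (1 - c - z.2)),
    fun w hw => Fn.ext fun z => ?_⟩
  obtain ⟨r, s⟩ := z
  have h0 := (W_pos hw).ne'
  have hy := trinf_y (c := c) hw s.2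
  have hx : ((a : K) + r) / w - a ∈ Inf := by
    rw [div_eq_inv_mul]
    exact trinf_y (W_inv hw) r.2
  have h1 := hg (((a : K) + r) / w) (w * (c + s)) (near_pos ha hx).le (near_lt ha' hx).le
    (near_pos hc hy).le (near_lt hc' hy).le
  have e1 : ((a : K) + r) / w * (w * (c + s)) = (a + r) * (c + s) := by field_simp
  have e2 : ((a : K) + r) / w * (1 - w * (c + s)) =
      (a + ((r : K) + 0)) * (1 - c - ((s : K) + (1 - w⁻¹))) := by
    field_simp
    ring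
  have e3 : (1 - ((a : K) + r) / w) * (w * (c + s)) =
      (1 - a - ((r : K) + (1 - w))) * (c + ((s : K) + 0)) := by
    field_simp
    ring
  have e4 : (1 - ((a : K) + r) / w) * (1 - w * (c + s)) =
      (1 - a - ((r : K) + (1 - w))) * (1 - c - ((s : K) + (1 - w⁻¹))) := by
    field_simp
    ring
  rw [e1, e2, e3, e4] at h1
  rw [Fn.add_apply, Fn.add_apply, Fn.add_apply, Xg_smul, Xg_smul, Xg_smul]
  show sg g ((a + r) / w) * sg g (w * (c + s)) = g ((a + r) * (c + s)) +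
    g ((1 - a - ((r : K) + (pj (1 - w) : K))) * (c + ((s : K) + 0))) +
    g ((a + ((r : K) + 0)) * (1 - c - ((s : K) + (pj (1 - w⁻¹) : K)))) +
    g ((1 - a - ((r : K) + (pj (1 - w) : K))) * (1 - c - ((s : K) + (pj (1 - w⁻¹) : K))))
  rw [pj_val (W_inv hw), pj_val hw, ← h1]
  ring

end Pool.Agent.P.MP_6d4b14_an.TR
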