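import Pool.Agent.P.MP_6d4b14_an.TRTw
import Pool.Agent.P.MP_6d4b14_an.TRInf

/-! Generic choices. -/

set_option linter.unusedSectionVars false
set_option linter.unusedVariables false

namespace Pool.Agent.P.MP_6d4b14_an.TR

open scoped Classical
open Function

theorem span_countable {V : Type} [AddCommGroup V] [Module ℚ V] (S : Finset V) :
    (Submodule.span ℚ (S : Set V) : Set V).Countable := by
  refine (Set.countable_range fun c : S → ℚ => ∑ s, c s • (s : V)).mono fun x hx => ?_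
  have e : (S : Set V) = Set.range fun s : S => (s : V) := by simp
  rw [e, SetLike.mem_coe, Submodule.mem_span_range_iff_exists_fun] at hx
  exact hx

theorem trgen_pos {B : Set ℝ} (hB : B.Countable) : ∃ r : ℝ, 0 < r ∧ r ∉ B := by
  by_contra h
  have h1 : Set.Ioi (0 : ℝ) ⊆ B := fun r hr => by_contra fun h' => h ⟨r, hr, h'⟩
  have h2 := (hB.mono h1).measure_zero MeasureTheory.volume
  simp at h2

theorem trgen_aff (a : K) {η : K} (hη : η ≠ 0) {C : Set K} (hC : C.Countable) :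
    {r : ℝ | a + η * r ∈ C}.Countable :=
  hC.preimage_of_injOn (f := fun r : ℝ => a + η * r) fun x _ y _ h =>
    Hyperreal.coe_eq_coe.mp (mul_left_cancel₀ hη (add_left_cancel h))

theorem trgen_bad (S : Finset Inf) {C : Set K} (hC : C.Countable) :
    ∃ B : Set K, B.Countable ∧ ∀ w, 1 - w ∈ Inf → w ∉ B → w ∉ C ∧
      pj (1 - w) ∉ Submodule.span ℚ (S : Set Inf) ∧
        pj (1 - w⁻¹) ∉ Submodule.span ℚ (S : Set Inf) := by
  have hT := (span_countable S).image Subtype.val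
  refine ⟨C ∪ ((fun w => 1 - w) ⁻¹' _ ∪ (fun w => 1 - w⁻¹) ⁻¹' _),
    hC.union ((hT.preimage_of_injOn sub_right_injective.injOn).union
      (hT.preimage_of_injOn (sub_right_injective.comp inv_injective).injOn)), fun w hw h => ?_⟩
  exact ⟨fun h1 => h (Or.inl h1), fun h1 => h (Or.inr (Or.inl ⟨_, h1, pj_val hw⟩)),
    fun h1 => h (Or.inr (Or.inr ⟨_, h1, pj_val (W_inv hw)⟩))⟩

theorem gen2 (S : Finset Inf) {C : Set K} (hC : C.Countable) :
    ∃ w : K, 1 - w ∈ Inf ∧ w < 1 ∧ w ∉ C ∧ pj (1 - w) ∉ Submodule.span ℚ (S : Set Inf) ∧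
      pj (1 - w⁻¹) ∉ Submodule.span ℚ (S : Set Inf) := by
  obtain ⟨B, hB, H⟩ := trgen_bad S hC
  obtain ⟨r, hr, hrB⟩ := trgen_pos (trgen_aff 1 (neg_ne_zero.mpr Hyperreal.epsilon_ne_zero) hB)
  have hw : 1 - (1 + -Hyperreal.epsilon * r) ∈ Inf := by
    have e : 1 - (1 + -Hyperreal.epsilon * r) = Hyperreal.epsilon * r := by ring
    rw [e]
    exact Inf_mul_Bd eps_mem (coe_mem_Bd r)
  refine ⟨_, hw, ?_, H _ hw hrB⟩
  have := mul_pos Hyperreal.epsilon_pos (Hyperreal.coe_pos.mpr hr)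
  linarith

theorem gen1 (S : Finset Inf) {C : Set K} (hC : C.Countable) {b : K} (hb : 1 - b ∈ Inf) :
    ∃ z ∈ Inf, 0 < z ∧ b + z ∉ C ∧ pj (1 - (b + z)⁻¹) ∉ Submodule.span ℚ (S : Set Inf) := by
  obtain ⟨B, hB, H⟩ := trgen_bad S hC
  obtain ⟨r, hr, hrB⟩ := trgen_pos (trgen_aff b Hyperreal.epsilon_ne_zero hB)
  have hz := Inf_mul_Bd eps_mem (coe_mem_Bd r)
  have hw : 1 - (b + Hyperreal.epsilon * r) ∈ Inf := by
    rw [← sub_sub]
    exact sub_mem hb hz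
  exact ⟨_, hz, mul_pos Hyperreal.epsilon_pos (Hyperreal.coe_pos.mpr hr), (H _ hw hrB).1,
    (H _ hw hrB).2.2⟩

theorem trgen_lag {F : Type} [Field F] (A B C D η x r0 r1 r2 r3 : F) (h01 : r0 - r1 ≠ 0)
    (h02 : r0 - r2 ≠ 0) (h03 : r0 - r3 ≠ 0) (h12 : r1 - r2 ≠ 0) (h13 : r1 - r3 ≠ 0)
    (h23 : r2 - r3 ≠ 0) {p : F → F} (hp : ∀ x, p x = A * x ^ 3 + B * x ^ 2 + C * x + D) :
    η ^ 3 * p x =
      (x - η * r1) * (r0 - r1)⁻¹ * ((x - η * r2) * (r0 - r2)⁻¹) * ((x - η * r3) * (r0 - r3)⁻¹) *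
          p (η * r0) -
        (x - η * r0) * (r0 - r1)⁻¹ * ((x - η * r2) * (r1 - r2)⁻¹) * ((x - η * r3) * (r1 - r3)⁻¹) *
          p (η * r1) +
        (x - η * r0) * (r0 - r2)⁻¹ * ((x - η * r1) * (r1 - r2)⁻¹) * ((x - η * r3) * (r2 - r3)⁻¹) *
          p (η * r2) -
        (x - η * r0) * (r0 - r3)⁻¹ * ((x - η * r1) * (r1 - r3)⁻¹) * ((x - η * r2) * (r2 - r3)⁻¹) *
          p (η * r3) := by
  simp only [hp]
  field_simp
  ring

theorem trgen_cubic (I : Submodule ℚ K) (hI : ∀ a ∈ Bd, ∀ b ∈ I, a * b ∈ I) {η : K} (hη : η ∈ Bd)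
    {p : K → K} {A B C D : K} (hp : ∀ x, p x = A * x ^ 3 + B * x ^ 2 + C * x + D) {r : ℕ → ℝ}
    (hr : Injective r) (h : ∀ j, p (η * r j) ∈ I) {x : K} (hx : x ∈ Bd) : η ^ 3 * p x ∈ I := by
  have hne : ∀ i j, i ≠ j → (r i : K) - r j ≠ 0 := fun i j hij h0 =>
    hij (hr (Hyperreal.coe_eq_coe.mp (sub_eq_zero.mp h0)))
  have hb : ∀ i j l, (x - η * r l) * ((r i : K) - r j)⁻¹ ∈ Bd := fun i j l =>
    Bd_mul (sub_mem hx (Bd_mul hη (coe_mem_Bd _))) (by simpa using coe_mem_Bd (r i - r j)⁻¹)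
  rw [trgen_lag A B C D η x (r 0) (r 1) (r 2) (r 3) (hne _ _ (by decide)) (hne _ _ (by decide))
    (hne _ _ (by decide)) (hne _ _ (by decide)) (hne _ _ (by decide)) (hne _ _ (by decide)) hp]
  refine sub_mem (add_mem (sub_mem ?_ ?_) ?_) ?_ <;>
    exact hI _ (Bd_mul (Bd_mul (hb _ _ _) (hb _ _ _)) (hb _ _ _)) _ (h _)

/-- at most three real parameters are bad for one relation -/
theorem gen3_fin (I : Submodule ℚ K) (hI : ∀ a ∈ Bd, ∀ b ∈ I, a * b ∈ I) (b : Fin 3 → K)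
    (hb : ∀ i, 1 - b i ∈ Inf) {η : K} (hη : η ∈ Inf) (hη0 : 0 < η)
    (hne : ∀ i, η ^ 3 * ∏ j ∈ Finset.univ.erase i, (b j - b i) ∉ I) (q : Fin 3 → ℚ) (hq : q ≠ 0)
    (v : K) : {r : ℝ | ∑ i, q i • (b i + η * r)⁻¹ - v ∈ I}.Finite := by
  by_contra hinf
  have f := Set.Infinite.natEmbedding _ hinf
  have hW : ∀ i (r : ℝ), 1 - (b i + η * r) ∈ Inf := fun i r => by
    rw [← sub_sub]
    exact sub_mem (hb i) (Inf_mul_Bd hη (coe_mem_Bd r))
  have key := fun x => trgen_cubic I hI (Inf_le_Bd hη) (x := x)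
    (p := fun x => q 0 * ((b 1 + x) * (b 2 + x)) + q 1 * ((b 0 + x) * (b 2 + x)) +
      q 2 * ((b 0 + x) * (b 1 + x)) - v * ((b 0 + x) * (b 1 + x) * (b 2 + x)))
    (A := -v) (B := q 0 + q 1 + q 2 - v * (b 0 + b 1 + b 2))
    (C := q 0 * (b 1 + b 2) + q 1 * (b 0 + b 2) + q 2 * (b 0 + b 1) -
      v * (b 0 * b 1 + b 0 * b 2 + b 1 * b 2))
    (D := q 0 * (b 1 * b 2) + q 1 * (b 0 * b 2) + q 2 * (b 0 * b 1) - v * (b 0 * b 1 * b 2))
    (fun x => by ring) (r := fun j => f j) (Subtype.val_injective.comp f.injective) (fun j => by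
      have h1 := hI _ (Bd_mul (Bd_mul (W_Bd (hW 0 (f j))) (W_Bd (hW 1 (f j)))) (W_Bd (hW 2 (f j))))
        _ (f j).2
      have n0 := (W_pos (hW 0 (f j))).ne'
      have n1 := (W_pos (hW 1 (f j))).ne'
      have n2 := (W_pos (hW 2 (f j))).ne'
      refine (congrArg (· ∈ I) ?_).mp h1
      simp only [Fin.sum_univ_three, Rat.smul_def]
      field_simp)
  obtain ⟨i, hi⟩ := Function.ne_iff.mp hq
  refine hne i ((I.smul_mem_iff hi).mp ((congrArg (· ∈ I) ?_).mp (key _ (neg_mem (W_Bd (hb i))))))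
  have e0 : Finset.univ.erase (0 : Fin 3) = {1, 2} := by decide
  have e1 : Finset.univ.erase (1 : Fin 3) = {0, 2} := by decide
  have e2 : Finset.univ.erase (2 : Fin 3) = {0, 1} := by decide
  rw [Rat.smul_def]
  obtain rfl | rfl | rfl : i = 0 ∨ i = 1 ∨ i = 2 := by omega
  · rw [e0, Finset.prod_pair (by decide)]
    ring
  · rw [e1, Finset.prod_pair (by decide)]
    ring
  · rw [e2, Finset.prod_pair (by decide)]
    ring

theorem gen3 (I : Submodule ℚ K) (hI : ∀ a ∈ Bd, ∀ b ∈ I, a * b ∈ I) (b : Fin 3 → K)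
    (hb : ∀ i, 1 - b i ∈ Inf) {η : K} (hη : η ∈ Inf) (hη0 : 0 < η)
    (hne : ∀ i, η ^ 3 * ∏ j ∈ Finset.univ.erase i, (b j - b i) ∉ I) (S : Finset K) {C : Set K}
    (hC : C.Countable) :
    ∃ r : ℝ, 0 < r ∧ (∀ i, b i + η * r ∉ C) ∧ ∃ ϕ : Fin 3 → (K →ₗ[ℚ] ℚ),
      (∀ i, ∀ s ∈ S, ϕ i s = 0) ∧ (∀ i, ∀ s ∈ I, ϕ i s = 0) ∧
        ∀ i j, ϕ i (b j + η * r)⁻¹ = if i = j then 1 else 0 := by
  have h1 : (⋃ q ∈ {q : Fin 3 → ℚ | q ≠ 0}, ⋃ v ∈ (Submodule.span ℚ (S : Set K) : Set K),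
      {r : ℝ | ∑ i, q i • (b i + η * r)⁻¹ - v ∈ I}).Countable :=
    (Set.to_countable _).biUnion fun q hq => (span_countable S).biUnion fun v _ =>
      (gen3_fin I hI b hb hη hη0 hne q hq v).countable
  obtain ⟨r, hr, hrB⟩ := trgen_pos
    (h1.union (Set.countable_iUnion fun i => trgen_aff (b i) hη0.ne' hC))
  refine ⟨r, hr, fun i hi => hrB (Or.inr (Set.mem_iUnion.mpr ⟨i, hi⟩)), ?_⟩
  have h2 : ∀ i, (b i + η * r)⁻¹ ∉ Submodule.span ℚ (S : Set K) ⊔ I ⊔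
      (LinearMap.ker (LinearMap.proj i : (Fin 3 → ℚ) →ₗ[ℚ] ℚ)).map
        (Fintype.linearCombination ℚ fun j => (b j + η * r)⁻¹) := by
    intro i hi
    obtain ⟨y, hy, z, ⟨c, hc, rfl⟩, e⟩ := Submodule.mem_sup.mp hi
    obtain ⟨s, hs, t, ht, rfl⟩ := Submodule.mem_sup.mp hy
    have hci : c i = 0 := hc
    refine hrB (Or.inl (Set.mem_biUnion (x := Pi.single i 1 - c) (fun h0 => ?_)
      (Set.mem_biUnion hs ?_)))
    · simpa [hci] using congrFun h0 i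
    · show ∑ j, (Pi.single i 1 - c : Fin 3 → ℚ) j • (b j + η * r)⁻¹ - s ∈ I
      rw [← Fintype.linearCombination_apply ℚ fun j => (b j + η * r)⁻¹, map_sub,
        Fintype.linearCombination_apply_single, one_smul, ← e, add_sub_cancel_right,
        add_sub_cancel_left]
      exact ht
  choose ϕ h3 h4 using fun i => exists_phi (h2 i)
  refine ⟨ϕ, fun i s hs => h4 i s ?_, fun i s hs => h4 i s ?_, fun i j => ?_⟩
  · exact Submodule.mem_sup_left (Submodule.mem_sup_left (Submodule.subset_span hs))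
  · exact Submodule.mem_sup_left (Submodule.mem_sup_right hs)
  · split_ifs with hij
    · exact hij ▸ h3 i
    · refine h4 i _ (Submodule.mem_sup_right ⟨Pi.single j 1, ?_, ?_⟩)
      · exact Pi.single_eq_of_ne hij 1
      · rw [Fintype.linearCombination_apply_single, one_smul]

end Pool.Agent.P.MP_6d4b14_an.TR
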