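import Pool.Agent.P.MP_6d4b14_an.TRFac
import Pool.Agent.P.MP_6d4b14_an.TRGen

/-! Separation of the equation modulo torsion. -/

set_option linter.unusedSectionVars false
set_option linter.unusedVariables false

namespace Pool.Agent.P.MP_6d4b14_an.TR

open scoped Classical
open Function

theorem grid1 (α β : K → Om K Inf) (p q : Om K Inf) {E : Set K} (hE : E.Countable)
    (H : ∀ t u, 0 ≤ t → 0 ≤ u → 1 - (t + u) ∈ Inf → t + u ∉ E → ∃ Φ : K,
      α t + α u + YO (t + u) * (β t + β u) = CO Inf Φ * (p + YO (t + u) * q))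
    {t u z : K} (ht : 0 ≤ t) (hu : 0 ≤ u) (hw : 1 - (t + u) ∈ Inf) (hz : z ∈ Inf) (hz0 : 0 < z) :
    ∃ μ : K, α (t + z) = α t + CO Inf μ * p ∧ β (t + z) = β t + CO Inf μ * q := by
  set tt : Fin 3 → K := fun i => t + ((i : ℕ) : K) * z with htt
  have hzi : ∀ i : Fin 3, ((i : ℕ) : K) * z ∈ Inf := fun i => by
    rw [← nsmul_eq_mul]
    exact nsmul_mem hz _
  have hb : ∀ i : Fin 3, 1 - (tt i + u) ∈ Inf := fun i => by
    have := sub_mem hw (hzi i)
    rwa [show 1 - (t + u) - ((i : ℕ) : K) * z = 1 - (tt i + u) by simp only [htt]; ring] at this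
  obtain ⟨S, hS⟩ := fin_supp e2 (insert p (insert q
    (Finset.univ.image (fun i => α (tt i)) ∪ Finset.univ.image (fun i => β (tt i)))))
  obtain ⟨r, hr, hrE, ϕ, hϕ, -, hϕ'⟩ := gen3 ⊥ (fun a _ b hb => by
      rw [(Submodule.mem_bot ℚ).1 hb, mul_zero]; exact zero_mem _) (fun i => tt i + u) hb eps_mem
    Hyperreal.epsilon_pos (fun i h => by
      rw [Submodule.mem_bot] at h
      refine mul_ne_zero (pow_ne_zero 3 Hyperreal.epsilon_pos.ne')
        (Finset.prod_ne_zero_iff.2 fun j hj => ?_) h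
      have e : tt j + u - (tt i + u) = (((j : ℕ) : K) - ((i : ℕ) : K)) * z := by
        simp only [htt]; ring
      rw [e]
      refine mul_ne_zero (sub_ne_zero.2 fun e1 => (Finset.mem_erase.1 hj).1 ?_) hz0.ne'
      exact Fin.ext (Nat.cast_injective e1)) (insert 1 (S.image Subtype.val)) hE
  have hεr : Hyperreal.epsilon * (r : K) ∈ Inf := Inf_mul_Bd eps_mem (coe_mem_Bd r)
  have hεr0 : 0 < Hyperreal.epsilon * (r : K) :=
    mul_pos Hyperreal.epsilon_pos (Hyperreal.coe_pos.2 hr)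
  have hw' : ∀ i, 1 - (tt i + (u + Hyperreal.epsilon * r)) ∈ Inf := fun i => by
    have := sub_mem (hb i) hεr
    rwa [sub_sub, add_assoc] at this
  have htt0 : ∀ i, 0 ≤ tt i := fun i => add_nonneg ht (mul_nonneg (Nat.cast_nonneg _) hz0.le)
  choose Φ hΦ using fun i => H (tt i) (u + Hyperreal.epsilon * r) (htt0 i) (by linarith) (hw' i)
    (by rw [← add_assoc]; exact hrE i)
  set ψ : Fin 3 → (Inf →ₗ[ℚ] ℚ) := fun i => -(ϕ i ∘ₗ Inf.subtype) with hψ
  have hψ1 : ∀ i, ∀ s ∈ S, ψ i s = 0 := fun i s hs => by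
    have := hϕ i s (Finset.mem_insert_of_mem (Finset.mem_image_of_mem _ hs))
    simp only [hψ, LinearMap.neg_apply, LinearMap.comp_apply, Submodule.subtype_apply, this,
      neg_zero]
  have hψ2 : ∀ i j, ψ i (pj (1 - (tt j + (u + Hyperreal.epsilon * r))⁻¹)) =
      if i = j then 1 else 0 := fun i j => by
    simp only [hψ, LinearMap.neg_apply, LinearMap.comp_apply, Submodule.subtype_apply]
    rw [pj_val (W_inv (hw' j)), map_sub, hϕ i 1 (Finset.mem_insert_self _ _), ← add_assoc, hϕ' i j,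
      zero_sub, neg_neg]
  have fp : ∀ i, tw e2 (ψ i) p = p := fun i => hS _ (hψ1 i) _ (Finset.mem_insert_self _ _)
  have fq : ∀ i, tw e2 (ψ i) q = q := fun i =>
    hS _ (hψ1 i) _ (Finset.mem_insert_of_mem (Finset.mem_insert_self _ _))
  have fα : ∀ i j, tw e2 (ψ i) (α (tt j)) = α (tt j) := fun i j =>
    hS _ (hψ1 i) _ (Finset.mem_insert_of_mem (Finset.mem_insert_of_mem (Finset.mem_union_left _
      (Finset.mem_image_of_mem _ (Finset.mem_univ j)))))
  have fβ : ∀ i j, tw e2 (ψ i) (β (tt j)) = β (tt j) := fun i j =>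
    hS _ (hψ1 i) _ (Finset.mem_insert_of_mem (Finset.mem_insert_of_mem (Finset.mem_union_right _
      (Finset.mem_image_of_mem _ (Finset.mem_univ j)))))
  obtain ⟨a1, -, b1, -⟩ := hex (fun i => tw e2 (ψ i))
    (A := fun i => α (tt i) - CO Inf (Φ i) * p) (B := fun i => β (tt i) - CO Inf (Φ i) * q)
    (Y := fun i => YO (tt i + (u + Hyperreal.epsilon * r)))
    (τ := CO Inf (e2 (Multiplicative.ofAdd 1)))
    (fun i j => by rw [map_sub, map_mul, tw_CO, fα, fp])
    (fun i j => by rw [map_sub, map_mul, tw_CO, fβ, fq])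
    (fun i => by rw [YO, tw_XO, hψ2, if_pos rfl])
    (fun i j hij => tw_XO_zero _ (by rw [hψ2, if_neg hij])) (CO_e_ne e2_ne)
    (fun i => XO_ne_zero _) (by
      linear_combination
        (YO (tt 1 + (u + Hyperreal.epsilon * r)) - YO (tt 2 + (u + Hyperreal.epsilon * r))) * hΦ 0 +
        (YO (tt 2 + (u + Hyperreal.epsilon * r)) - YO (tt 0 + (u + Hyperreal.epsilon * r))) * hΦ 1 +
        (YO (tt 0 + (u + Hyperreal.epsilon * r)) - YO (tt 1 + (u + Hyperreal.epsilon * r))) * hΦ 2)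
  have t0 : tt 0 = t := by simp [htt]
  have t1 : tt 1 = t + z := by simp [htt]
  simp only [t0, t1] at a1 b1
  refine ⟨Φ 1 - Φ 0, ?_, ?_⟩
  · rw [map_sub]
    linear_combination -a1
  · rw [map_sub]
    linear_combination -b1

theorem grid (α β : K → Om K Inf) (p q : Om K Inf) {E : Set K} (hE : E.Countable)
    (H : ∀ t u, 0 ≤ t → 0 ≤ u → 1 - (t + u) ∈ Inf → t + u ∉ E → ∃ Φ : K,
      α t + α u + YO (t + u) * (β t + β u) = CO Inf Φ * (p + YO (t + u) * q))
    {t u : K} (ht : 0 ≤ t) (hu : 0 ≤ u) (hw : 1 - (t + u) ∈ Inf) :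
    ∃ ρ : K, α t + α u = CO Inf ρ * p ∧ β t + β u = CO Inf ρ * q := by
  obtain ⟨S, hS⟩ := fin_supp e2 ({α t, α u, β t, β u, p, q} : Finset (Om K Inf))
  obtain ⟨z, hz, hz0, hzE, hzS⟩ := gen1 S hE hw
  obtain ⟨μ, m1, m2⟩ := grid1 α β p q hE H ht hu hw hz hz0
  have e : t + z + u = t + u + z := by ring
  obtain ⟨Φ, hΦ⟩ := H (t + z) u (by linarith) hu (by
    have := sub_mem hw hz
    rwa [sub_sub, ← e] at this) (by rwa [e])
  obtain ⟨ϕ, h1, h2⟩ := exists_phi hzS
  have hf := hS ϕ fun s hs => h2 s (Submodule.subset_span hs)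
  rw [e, m1, m2] at hΦ
  obtain ⟨a1, b1⟩ := free1 (tw e2 ϕ) (A := α t + α u - CO Inf (Φ - μ) * p)
    (B := β t + β u - CO Inf (Φ - μ) * q) (Y := YO (t + u + z))
    (τ := CO Inf (e2 (Multiplicative.ofAdd 1)))
    (by rw [map_sub, map_add, map_mul, tw_CO, hf (α t) (by simp), hf (α u) (by simp),
      hf p (by simp)])
    (by rw [map_sub, map_add, map_mul, tw_CO, hf (β t) (by simp), hf (β u) (by simp),
      hf q (by simp)])
    (by rw [YO, tw_XO, h1]) (CO_e_ne e2_ne) (XO_ne_zero _) (by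
      rw [map_sub]
      linear_combination hΦ)
  exact ⟨Φ - μ, sub_eq_zero.1 a1, sub_eq_zero.1 b1⟩

theorem fac_ga {g : K → K} (hg : HE g) {a c : ℝ} (ha : 0 < a) (ha' : a < 1) (hc : 0 < c)
    (hc' : c < 1) (hnt : ¬ Tor (cl (sg g) a)) (l : Fn K Inf →ₗ[GR K Inf] Om K Inf)
    (hl : l (cl (sg g) c) ≠ 0 ∨ Tor (cl (sg g) c)) :
    ∃ (p q : Om K Inf) (E : Set K), E.Countable ∧ p + q ≠ 0 ∧
      ∀ w, 1 - w ∈ Inf → w ∉ E → ∃ ν : K, l (ga g c w) = CO Inf ν * (p + YO w * q) := by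
  rcases hl with hl | hl
  swap
  · exact ⟨1, 0, ∅, Set.countable_empty, by simp, fun w hw _ =>
      ⟨0, by rw [fun_tor l (tor_ga hw hl), map_zero, zero_mul]⟩⟩
  obtain ⟨F0, F1, F2, F3, hF⟩ := ts hg ha ha' hc hc'
  obtain ⟨l0, hl0⟩ := exists_fun hnt
  have h1 : (1 : K) - 1 ∈ Inf := by rw [sub_self]; exact zero_mem _
  obtain ⟨p, q, E, hE, hE1, h⟩ := fac (W := {w : K // 1 - w ∈ Inf}) e2_ne
    (fun w => pj (1 - w.1)) (fun w => pj (1 - w.1⁻¹))
    (fun w w' e => by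
      have := congrArg Subtype.val e
      simp only [pj_val w.2, pj_val w'.2] at this
      exact Subtype.ext (sub_right_injective this))
    (fun w w' e => by
      have := congrArg Subtype.val e
      simp only [pj_val (W_inv w.2), pj_val (W_inv w'.2)] at this
      exact Subtype.ext (inv_injective (sub_right_injective this)))
    (fun w => de g a w.1) (fun w => ga g c w.1) F0 F1 F2 F3 (fun w => hF w.1 w.2)
    (fun S => by
      obtain ⟨w, w1, -, -, w2, w3⟩ := gen2 S Set.countable_empty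
      exact ⟨⟨w, w1⟩, w2, w3⟩) l0 l ⟨1, h1⟩ (by simpa only [de_one] using hl0)
    (by simpa only [ga_one] using hl)
  refine ⟨p, q, Subtype.val '' E, (hE.image _).countable, fun e => ?_, fun w hw hwE =>
    h ⟨w, hw⟩ fun e => hwE ⟨_, e, rfl⟩⟩
  obtain ⟨ν, hν⟩ := h _ hE1
  have e1 : XO K (pj (1 - (1 : K)⁻¹)) = 1 := YO_one
  simp only [ga_one, e1, one_mul, e, mul_zero] at hν
  exact hl hν

theorem sep {g : K → K} (hg : HE g) (h0 : sg g 0 = 1) {a c : ℝ} (ha : 0 < a) (ha' : a < 1)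
    (hc : 0 < c) (hc' : c < 1) (hnt : ¬ Tor (cl (sg g) a)) {x : K} (hx : 0 ≤ x) (hx' : x ≤ 1) :
    Tor (al g c x + al g c (1 - x) - sg g x • al g c 1) := by
  by_contra hT
  obtain ⟨l, l1, l2⟩ : ∃ l : Fn K Inf →ₗ[GR K Inf] Om K Inf,
      l (al g c x + al g c (1 - x) - sg g x • al g c 1) ≠ 0 ∧
        (l (cl (sg g) c) ≠ 0 ∨ Tor (cl (sg g) c)) := by
    by_cases e : Tor (cl (sg g) c)
    · obtain ⟨l, hl⟩ := exists_fun hT
      exact ⟨l, hl, Or.inr e⟩
    · obtain ⟨l, hl, hl'⟩ := exists_fun2 hT e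
      exact ⟨l, hl, Or.inl hl'⟩
  obtain ⟨p, q, E, hE, hpq, h⟩ := fac_ga hg ha ha' hc hc' hnt l l2
  have H0 : ∀ t u : K, 0 ≤ t → 0 ≤ u → 1 - (t + u) ∈ Inf →
      l (al g c t) + l (al g c u) + YO (t + u) * (l (be g c t) + l (be g c u)) =
        CO Inf (sg g (t / (t + u))) * l (ga g c (t + u)) := fun t u ht hu hw => by
    have := congrArg l (os hg hc hc' ht hu hw)
    rwa [map_add, map_add, Yg, fun_X, map_add, fun_C] at this
  have H := fun t u => grid (fun t => l (al g c t)) (fun t => l (be g c t)) p q hE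
    (fun t u ht hu hw hwE => by
      obtain ⟨ν, hν⟩ := h _ hw hwE
      exact ⟨sg g (t / (t + u)) * ν, by rw [H0 t u ht hu hw, hν, map_mul, mul_assoc]⟩)
    (t := t) (u := u)
  have e1 : x + (1 - x) = 1 := by ring
  have h1 : (1 : K) - 1 ∈ Inf := by rw [sub_self]; exact zero_mem _
  obtain ⟨ρ, r1, r2⟩ := H x (1 - x) hx (by linarith) (by rwa [e1])
  obtain ⟨ρ', s1, s2⟩ := H 0 1 le_rfl zero_le_one (by rwa [zero_add])
  have a0 : l (al g c 0) = 0 := by
    obtain ⟨δ, hδ⟩ := exists_ne (0 : Inf)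
    exact fun_tor l (tor_of_period hδ fun s => by simp only [al, zero_mul])
  have o1 := H0 x (1 - x) hx (by linarith) (by rwa [e1])
  have o2 := H0 0 1 le_rfl zero_le_one (by rwa [zero_add])
  rw [e1, YO_one, div_one] at o1
  rw [zero_add, YO_one, zero_div, h0, map_one] at o2
  have e2 : CO Inf ρ = CO Inf (sg g x) * CO Inf ρ' := by
    refine mul_right_cancel₀ hpq ?_
    linear_combination o1 - r1 - r2 - CO Inf (sg g x) * (o2 - s1 - s2)
  refine l1 ?_
  rw [map_sub, map_add, fun_C]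
  linear_combination r1 - CO Inf (sg g x) * (s1 - a0) + p * e2

end Pool.Agent.P.MP_6d4b14_an.TR
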