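import Pool.Agent.P.MP_6d4b14_an.TRDet

/-! Periods. -/

set_option linter.unusedSectionVars false
set_option linter.unusedVariables false

namespace Pool.Agent.P.MP_6d4b14_an.TR

open scoped Classical
open Function

variable {κ : Type} [Field κ]

/-- functions that are killed by an operator outside the kernel of `χ` -/
def trper_N (χ : GR K Inf →+* κ) : Submodule (GR K Inf) (Fn K Inf) where
  carrier := {φ | ∃ Q : GR K Inf, χ Q ≠ 0 ∧ Q • φ = 0}
  zero_mem' := ⟨1, by simp, smul_zero _⟩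
  add_mem' := by
    rintro a b ⟨P, hP, ha⟩ ⟨Q, hQ, hb⟩
    refine ⟨P * Q, by rw [map_mul]; exact mul_ne_zero hP hQ, ?_⟩
    rw [smul_add, mul_smul P Q b, hb, mul_comm, mul_smul, ha, smul_zero, smul_zero, add_zero]
  smul_mem' := by
    rintro r a ⟨P, hP, ha⟩
    exact ⟨P, hP, by rw [← mul_smul, mul_comm, mul_smul, ha, smul_zero]⟩

theorem trper_sat {χ : GR K Inf →+* κ} {Q : GR K Inf} {φ : Fn K Inf} (h : Q • φ ∈ trper_N χ)
    (hQ : χ Q ≠ 0) : φ ∈ trper_N χ := by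
  obtain ⟨P, hP, h⟩ := h
  exact ⟨P * Q, by rw [map_mul]; exact mul_ne_zero hP hQ, by rw [mul_smul, h]⟩

theorem trper_smul {χ : GR K Inf →+* κ} (r : K) {φ : Fn K Inf} (h : φ ∈ trper_N χ) :
    r • φ ∈ trper_N χ := by
  rw [← algebraMap_smul (GR K Inf) r φ]
  exact Submodule.smul_mem _ _ h

theorem trper_det {R V : Type} [CommRing R] [AddCommGroup V] [Module R V] (N : Submodule R V)
    {n : ℕ} (A : Matrix (Fin n) (Fin n) R) (v : Fin n → V) (h : ∀ m, ∑ l, A m l • v l ∈ N)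
    (j : Fin n) : A.det • v j ∈ N := by
  have h1 : A.det • v j = ∑ m, A.adjugate j m • ∑ l, A m l • v l := by
    simp only [Finset.smul_sum, ← mul_smul]
    rw [Finset.sum_comm]
    simp only [← Finset.sum_smul, ← Matrix.mul_apply, Matrix.adjugate_mul]
    rw [Finset.sum_eq_single j]
    · simp
    · intro l _ hl
      simp [Matrix.one_apply_ne' hl]
    · simp
  rw [h1]
  exact Submodule.sum_mem _ fun m _ => Submodule.smul_mem _ _ (h m)

theorem trper_comb {R V : Type} [CommRing R] [AddCommGroup V] [Module R V] (N : Submodule R V)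
    {y0 y1 y2 : R} {a0 a1 a2 b0 b1 b2 a b : V} (h0 : a0 + a + y0 • (b0 + b) ∈ N)
    (h1 : a1 + a + y1 • (b1 + b) ∈ N) (h2 : a2 + a + y2 • (b2 + b) ∈ N) :
    ∑ l, row y0 y1 y2 l • (![a0 - a2, a1 - a2, b0 - b2, b1 - b2] : Fin 4 → V) l ∈ N := by
  have h3 : ∑ l, row y0 y1 y2 l • (![a0 - a2, a1 - a2, b0 - b2, b1 - b2] : Fin 4 → V) l =
      (y1 - y2) • (a0 + a + y0 • (b0 + b)) + (y2 - y0) • (a1 + a + y1 • (b1 + b)) +
        (y0 - y1) • (a2 + a + y2 • (b2 + b)) := by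
    rw [Fin.sum_univ_four]
    show (y1 - y2) • (a0 - a2) + (y2 - y0) • (a1 - a2) + (y0 * (y1 - y2)) • (b0 - b2) +
      (y1 * (y2 - y0)) • (b1 - b2) = _
    module
  rw [h3]
  exact add_mem (add_mem (N.smul_mem _ h0) (N.smul_mem _ h1)) (N.smul_mem _ h2)

theorem per {g : K → K} (hg : HE g) {c : ℝ} (hc : 0 < c) (hc' : c < 1) (χ : GR K Inf →+* κ)
    (hJ : ∀ Q : GR K Inf, Q • cl (sg g) c = 0 → χ Q = 0) {P : GR K Inf} (hP : P ≠ 0)
    (hP0 : P • cl (sg g) c = 0)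
    (hD : ∀ γ ∈ P.coeff.support, ∀ γ' ∈ P.coeff.support, γ ≠ γ' → ¬ InI χ ((γ : K) - γ')) :
    ∃ h : K, 0 < h ∧ h ∈ Inf ∧ ∀ x : K, 0 ≤ x → x + h ≤ 1 → sg g (x + h) = sg g x := by
  obtain ⟨h, h', w, h0, hI, h0', hI', hw, hdet⟩ := per_det χ hP (hJ P hP0) hD
  have hos : ∀ t u w' : K, 0 ≤ t → 0 ≤ u → t + u = w' → 1 - w' ∈ Inf → χ (dl w'⁻¹ P) ≠ 0 →
      al g c t + al g c u + Yg w' • (be g c t + be g c u) ∈ trper_N χ := by
    rintro t u _ ht hu rfl h1 h2
    rw [os hg hc hc' ht hu h1]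
    exact trper_smul _ ⟨_, h2, ann_ga h1 hP0⟩
  have key : ∀ t : K, 0 ≤ t → t ≤ 1 →
      al g c (t + h) - al g c t ∈ trper_N χ ∧ be g c (t + h) - be g c t ∈ trper_N χ := by
    intro t ht ht1
    have hv := fun j => trper_sat (trper_det (trper_N χ)
      (Matrix.of fun m => row (Yg (w m)) (Yg (w m + h)) (Yg (w m + h')))
      ![al g c t - al g c (t + h'), al g c (t + h) - al g c (t + h'),
        be g c t - be g c (t + h'), be g c (t + h) - be g c (t + h')] (fun m => by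
        obtain ⟨k1, k2, k3, k4, k5⟩ := hw m
        have hu : 0 ≤ w m - t := by linarith
        refine trper_comb _ (hos t (w m - t) _ ht hu (by ring) k2 k3)
          (hos (t + h) (w m - t) _ (by linarith) hu (by ring) ?_ k4)
          (hos (t + h') (w m - t) _ (by linarith) hu (by ring) ?_ k5)
        · rw [← sub_sub]
          exact sub_mem k2 hI
        · rw [← sub_sub]
          exact sub_mem k2 hI') j) hdet
    have e0 : al g c t - al g c (t + h') ∈ trper_N χ := hv 0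
    have e1 : al g c (t + h) - al g c (t + h') ∈ trper_N χ := hv 1
    have e2 : be g c t - be g c (t + h') ∈ trper_N χ := hv 2
    have e3 : be g c (t + h) - be g c (t + h') ∈ trper_N χ := hv 3
    exact ⟨by simpa using sub_mem e1 e0, by simpa using sub_mem e3 e2⟩
  have hone : ∀ t u : K, 0 ≤ t → 0 ≤ u → t + u = 1 →
      al g c t + al g c u + (be g c t + be g c u) = sg g t • cl (sg g) c := by
    intro t u ht hu h1
    have h2 := os hg hc hc' ht hu (by rw [h1, sub_self]; exact zero_mem _)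
    rwa [h1, Yg_one, one_smul, div_one, ga_one] at h2
  refine ⟨h, h0, hI, fun x hx hx1 => ?_⟩
  obtain ⟨a1, b1⟩ := key x hx (by linarith)
  obtain ⟨a2, b2⟩ := key (1 - x - h) (by linarith) (by linarith)
  rw [sub_add_cancel] at a2 b2
  have h3 : (sg g (x + h) - sg g x) • cl (sg g) c ∈ trper_N χ := by
    rw [sub_smul, ← hone (x + h) (1 - x - h) (by linarith) (by linarith) (by ring),
      ← hone x (1 - x) hx (by linarith) (by ring)]
    have h4 := add_mem (sub_mem a1 a2) (sub_mem b1 b2)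
    refine (Submodule.mem_toAddSubmonoid _ _).1 (Set.mem_of_eq_of_mem ?_ h4)
    abel
  by_contra h5
  rw [← algebraMap_smul (GR K Inf)] at h3
  obtain ⟨Q, hQ, h6⟩ := trper_sat h3
    (((IsUnit.mk0 _ (sub_ne_zero.2 h5)).map (algebraMap K (GR K Inf))).map χ).ne_zero
  exact hQ (hJ Q h6)

theorem trper_iter (c : K) (δ : Inf) (n : ℕ) : ∀ (G : K → K) (s : Inf),
    (fwdDiff δ)^[n] (fun t : Inf => G (c + t)) s = (fwdDiff (δ : K))^[n] G (c + s) := by
  induction n with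
  | zero => intro G s; rfl
  | succ n ih =>
    intro G s
    have h : fwdDiff δ (fun t : Inf => G (c + t)) = fun t : Inf => fwdDiff (δ : K) G (c + t) := by
      funext t
      simp [fwdDiff, add_assoc]
    rw [Function.iterate_succ_apply, Function.iterate_succ_apply, ← ih, h]

theorem dich {g : K → K} (hg : HE g) {c : ℝ} (hc : 0 < c) (hc' : c < 1)
    (ht : Tor (cl (sg g) c)) :
    (∃ h : K, 0 < h ∧ h ∈ Inf ∧ ∀ x : K, 0 ≤ x → x + h ≤ 1 → sg g (x + h) = sg g x) ∨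
      ∃ θ : K, 0 < θ ∧ ∀ h ∈ Inf, |h| ≤ θ →
        ∃ n : ℕ, ∀ s ∈ Inf, (fwdDiff h)^[n] (sg g) (c + s) = 0 := by
  obtain ⟨P, hP, hP0⟩ := ht
  by_cases hex : ∃ (κ : Type) (_ : Field κ) (χ : GR K Inf →+* κ),
      (∀ Q : GR K Inf, Q • cl (sg g) c = 0 → χ Q = 0) ∧
      ∀ γ ∈ P.coeff.support, ∀ γ' ∈ P.coeff.support, γ ≠ γ' → ¬ InI χ ((γ : K) - γ')
  · obtain ⟨κ, _, χ, hJ, hD⟩ := hex
    exact Or.inl (per hg hc hc' χ hJ hP hP0 hD)
  right
  have hδ : ∏ z ∈ P.coeff.support.offDiag, ((z.1 : K) - z.2) ≠ 0 :=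
    Finset.prod_ne_zero_iff.2 fun z hz h0 =>
      (Finset.mem_offDiag.1 hz).2.2 (Subtype.ext (sub_eq_zero.1 h0))
  refine ⟨|∏ z ∈ P.coeff.support.offDiag, ((z.1 : K) - z.2)| * Hyperreal.epsilon,
    mul_pos (abs_pos.2 hδ) Hyperreal.epsilon_pos, fun h hI hle => ?_⟩
  have hq : h / ∏ z ∈ P.coeff.support.offDiag, ((z.1 : K) - z.2) ∈ Inf := by
    refine Inf_of_abs_le ?_ eps_mem
    rw [abs_div, div_le_iff₀ (abs_pos.2 hδ), abs_of_pos Hyperreal.epsilon_pos, mul_comm]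
    exact hle
  let J : Ideal (GR K Inf) := LinearMap.ker (LinearMap.toSpanSingleton (GR K Inf) _ (cl (sg g) c))
  have hrad : Xg K (pj h) - 1 ∈ J.radical := by
    rw [Ideal.radical_eq_sInf, Submodule.mem_sInf]
    rintro p ⟨hp, hpp⟩
    let χ : GR K Inf →+* FractionRing (GR K Inf ⧸ p) :=
      (algebraMap _ (FractionRing (GR K Inf ⧸ p))).comp (Ideal.Quotient.mk p)
    have hχ : ∀ Q, χ Q = 0 ↔ Q ∈ p := fun Q => by
      rw [← Ideal.Quotient.eq_zero_iff_mem]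
      exact map_eq_zero_iff (algebraMap (GR K Inf ⧸ p) (FractionRing (GR K Inf ⧸ p)))
        (IsFractionRing.injective _ _)
    have h1 : ∃ γ ∈ P.coeff.support, ∃ γ' ∈ P.coeff.support, γ ≠ γ' ∧ InI χ ((γ : K) - γ') := by
      by_contra h2
      exact hex ⟨_, inferInstance, χ, fun Q hQ => (hχ Q).2 (hp hQ),
        fun γ hγ γ' hγ' hne h3 => h2 ⟨γ, hγ, γ', hγ', hne, h3⟩⟩
    obtain ⟨γ, hγ, γ', hγ', hne, h3⟩ := h1
    have hm : (γ, γ') ∈ P.coeff.support.offDiag := Finset.mem_offDiag.2 ⟨hγ, hγ', hne⟩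
    have h4 := h3.2 _ (Inf_mul_Bd hq (b := ∏ z ∈ P.coeff.support.offDiag.erase (γ, γ'),
      ((z.1 : K) - z.2)) (Finset.prod_induction _ (· ∈ Bd) (fun _ _ => Bd_mul) one_mem_Bd
        fun z _ => Inf_le_Bd (sub_mem z.1.2 z.2.2)))
    have h5 := Finset.mul_prod_erase _ (fun z : Inf × Inf => ((z.1 : K) - z.2)) hm
    rw [mul_left_comm, h5, div_mul_cancel₀ _ hδ] at h4
    rw [← hχ, map_sub, map_one]
    exact sub_eq_zero.2 h4
  obtain ⟨n, hn⟩ := hrad
  refine ⟨n, fun s hs => ?_⟩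
  have h6 : (Xg K (pj h) - 1) ^ n • cl (sg g) c = 0 := hn
  have h7 := pow_smul_apply (pj h) n (cl (sg g) c) ⟨s, hs⟩
  rw [h6] at h7
  have h8 := trper_iter c (pj h) n (sg g) ⟨s, hs⟩
  rw [pj_val hI] at h8
  exact h8.symm.trans h7.symm

end Pool.Agent.P.MP_6d4b14_an.TR
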