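import Pool.Agent.P.MP_6d4b14_an.TRDefs

/-! From local to global generalised polynomials. -/

set_option linter.unusedSectionVars false
set_option linter.unusedVariables false

namespace Pool.Agent.P.MP_6d4b14_an.TR

open scoped Classical
open Function

theorem trpoly_comm (a b : ℝ) :
    Function.Commute (fwdDiff a : (ℝ → ℝ) → ℝ → ℝ) (fwdDiff b) := by
  intro F
  funext x
  simp only [fwdDiff]
  rw [add_right_comm x a b]
  ring

theorem trpoly_step (F : ℝ → ℝ) (c k : ℝ) (m N : ℕ) (h0 : ∀ j : ℕ, j < m → F (c + j * k) = 0)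
    (h1 : ∀ i : ℕ, i ≤ N → (fwdDiff k)^[m] F (c + i * k) = 0) :
    ∀ j : ℕ, j ≤ N → F (c + j * k) = 0 := by
  intro j
  induction j using Nat.strong_induction_on with
  | _ j ih =>
    intro hj
    by_cases hm : j < m
    · exact h0 j hm
    · obtain ⟨i, rfl⟩ : ∃ i, j = i + m := ⟨j - m, by omega⟩
      have h2 := h1 i (by omega)
      rw [fwdDiff_iter_eq_sum_shift, Finset.sum_range_succ, Finset.sum_eq_zero] at h2
      · simpa [add_mul, add_assoc] using h2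
      · intro l hl
        have h3 := Finset.mem_range.1 hl
        have h4 := ih (i + l) (by omega) (by omega)
        have h5 : c + i * k + l • k = c + ((i + l : ℕ) : ℝ) * k := by
          rw [nsmul_eq_mul]; push_cast; ring
        rw [h5, h4, smul_zero]

theorem trpoly_closed {G : ℝ → ℝ} {n n' : ℕ} {c c1 δ τ δ1 h y : ℝ} (hδ : 0 < δ) (hτ : 0 < τ)
    (hδ1 : 0 < δ1) (H : ∀ k x : ℝ, |k| ≤ τ → |x - c| < δ → (fwdDiff k)^[n'] G x = 0)
    (hc : |c1 - c| < δ / 4) (H1 : ∀ x : ℝ, |x - c1| < δ1 → (fwdDiff h)^[n] G x = 0)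
    (hh : |h| ≤ δ / (4 * (n + 1))) (hy : |y - c| < δ / 4) : (fwdDiff h)^[n] G y = 0 := by
  have hb : ∀ k x : ℝ, |k| ≤ τ → |x - c| < 3 * δ / 4 →
      (fwdDiff k)^[n'] ((fwdDiff h)^[n] G) x = 0 := by
    intro k x hk hx
    rw [(trpoly_comm k h).iterate_iterate n' n G, fwdDiff_iter_eq_sum_shift]
    refine Finset.sum_eq_zero fun i hi => ?_
    have h1 : (i : ℝ) ≤ n + 1 := by exact_mod_cast (Finset.mem_range.1 hi).le
    have h2 : |(i : ℝ) * h| ≤ δ / 4 := by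
      rw [abs_mul, Nat.abs_cast]
      calc (i : ℝ) * |h| ≤ (n + 1) * (δ / (4 * (n + 1))) := by gcongr
        _ = δ / 4 := by field_simp
    rw [H k _ hk, smul_zero]
    rw [nsmul_eq_mul, add_sub_right_comm]
    have h3 := abs_add_le (x - c) (i * h)
    linarith
  have hm : 0 < min δ1 τ := lt_min hδ1 hτ
  obtain ⟨N, hN⟩ := exists_nat_gt ((n' + 1) * δ / min δ1 τ)
  have hN0 : (0 : ℝ) < N := lt_trans (by positivity) hN
  have hyc : |y - c1| < δ / 2 := by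
    have h1 := abs_sub_le y c c1
    rw [abs_sub_comm c c1] at h1
    linarith
  obtain ⟨k, hk⟩ : ∃ k : ℝ, N * k = y - c1 := ⟨(y - c1) / N, by field_simp⟩
  have hk1 : N * |k| < δ / 2 := by rwa [← hk, abs_mul, Nat.abs_cast] at hyc
  have hk0 := abs_nonneg k
  have hk2 : (n' + 1) * |k| < min δ1 τ := by
    rw [div_lt_iff₀ hm] at hN
    refine lt_of_mul_lt_mul_left ?_ hN0.le
    have h1 : (0 : ℝ) < n' + 1 := by positivity
    nlinarith
  have hn' : (0 : ℝ) ≤ n' := Nat.cast_nonneg _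
  have h3 := trpoly_step ((fwdDiff h)^[n] G) c1 k n' N (fun j hj => H1 _ (by
      have h1 : (j : ℝ) ≤ n' + 1 := by exact_mod_cast (by omega : j ≤ n' + 1)
      rw [add_sub_cancel_left, abs_mul, Nat.abs_cast]
      have h2 := min_le_left δ1 τ
      nlinarith))
    (fun i hi => hb k _ (by have h2 := min_le_right δ1 τ; nlinarith) (by
      have h1 : (i : ℝ) ≤ N := by exact_mod_cast hi
      have h2 := abs_add_le (c1 - c) (i * k)
      rw [abs_mul, Nat.abs_cast] at h2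
      rw [add_sub_right_comm]
      nlinarith)) N le_rfl
  rwa [hk, add_sub_cancel] at h3

theorem diff_mul (F : ℝ → ℝ) (n N : ℕ) (k x : ℝ)
    (h : ∀ j : ℕ, j ≤ n * N → (fwdDiff k)^[n] F (x + j * k) = 0) :
    (fwdDiff ((N + 1 : ℕ) * k))^[n] F x = 0 := by
  induction n generalizing F x with
  | zero => simpa using h 0 (Nat.zero_le _)
  | succ n ih =>
    have h1 : fwdDiff (((N + 1 : ℕ) : ℝ) * k) F =
        ∑ i ∈ Finset.range (N + 1), fun y => fwdDiff k F (y + i * k) := by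
      funext y
      have h2 := Finset.sum_range_sub (fun i : ℕ => F (y + i * k)) (N + 1)
      rw [Finset.sum_apply, fwdDiff]
      simp only [Nat.cast_zero, zero_mul, add_zero] at h2
      rw [← h2]
      refine Finset.sum_congr rfl fun i _ => ?_
      rw [fwdDiff]
      push_cast
      rw [add_mul, one_mul, add_assoc]
    rw [Function.iterate_succ_apply, h1, fwdDiff_iter_finsetSum, Finset.sum_apply]
    refine Finset.sum_eq_zero fun i hi => ?_
    rw [fwdDiff_iter_comp_add]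
    refine ih _ _ fun j hj => ?_
    have h2 := Finset.mem_range.1 hi
    have h3 := h (i + j) (by rw [Nat.succ_mul]; omega)
    rw [Function.iterate_succ_apply] at h3
    rw [← h3]
    push_cast
    rw [add_mul, add_assoc]

theorem lp_uniform {G : ℝ → ℝ} (H : ∀ c, 0 < c → c < 1 → LP G c) :
    ∃ n : ℕ, ∀ c, 0 < c → c < 1 → ∃ δ τ : ℝ, 0 < δ ∧ 0 < τ ∧
      ∀ h x : ℝ, |h| ≤ τ → |x - c| < δ → (fwdDiff h)^[n] G x = 0 := by
  obtain ⟨n, h0⟩ := H (1 / 2) (by norm_num) (by norm_num)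
  refine ⟨n, fun c h1 h2 => ?_⟩
  have hU : IsOpen {c : ℝ | ∃ δ τ : ℝ, 0 < δ ∧ 0 < τ ∧
      ∀ h x : ℝ, |h| ≤ τ → |x - c| < δ → (fwdDiff h)^[n] G x = 0} := by
    rw [Metric.isOpen_iff]
    rintro c ⟨δ, τ, hδ, hτ, hc⟩
    refine ⟨δ / 2, half_pos hδ, fun c' hc' => ⟨δ / 2, τ, half_pos hδ, hτ, fun h x hh hx => ?_⟩⟩
    rw [Metric.mem_ball, Real.dist_eq] at hc'
    have h3 := abs_sub_le x c' c
    exact hc h x hh (by linarith)
  refine (isPreconnected_Ioo (a := (0 : ℝ)) (b := 1)).subset_of_closure_inter_subset hU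
    ⟨1 / 2, ⟨by norm_num, by norm_num⟩, h0⟩ ?_ ⟨h1, h2⟩
  rintro c ⟨hc, hc0, hc1⟩
  obtain ⟨n', δ, τ, hδ, hτ, H'⟩ := H c hc0 hc1
  obtain ⟨c1, ⟨δ1, τ1, hδ1, hτ1, H1⟩, hd⟩ := Metric.mem_closure_iff.1 hc (δ / 4) (by positivity)
  rw [dist_comm, Real.dist_eq] at hd
  exact ⟨δ / 4, min τ1 (δ / (4 * (n + 1))), by positivity, lt_min hτ1 (by positivity),
    fun h y hh hy => trpoly_closed hδ hτ hδ1 H' hd
      (fun x hx => H1 h x (hh.trans (min_le_left _ _)) hx) (hh.trans (min_le_right _ _)) hy⟩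

theorem glob {G : ℝ → ℝ} (H : ∀ c, 0 < c → c < 1 → LP G c) :
    ∃ n : ℕ, ∀ x h : ℝ, 0 < x → 0 < h → x + n * h < 1 → (fwdDiff h)^[n] G x = 0 := by
  obtain ⟨n, hn⟩ := lp_uniform H
  refine ⟨n, fun x h hx hh hxh => ?_⟩
  obtain ⟨τ, hτ, hP⟩ := (isCompact_Icc (a := x) (b := x + n * h)).induction_on
    (p := fun s => ∃ τ : ℝ, 0 < τ ∧ ∀ k : ℝ, |k| ≤ τ → ∀ y ∈ s, (fwdDiff k)^[n] G y = 0)
    ⟨1, one_pos, fun _ _ _ hy => hy.elim⟩
    (fun _ _ hst ⟨τ, hτ, h1⟩ => ⟨τ, hτ, fun k hk y hy => h1 k hk y (hst hy)⟩)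
    (fun _ _ ⟨τ, hτ, h1⟩ ⟨τ', hτ', h2⟩ => ⟨min τ τ', lt_min hτ hτ', fun k hk y hy =>
      hy.elim (h1 k (hk.trans (min_le_left _ _)) y) (h2 k (hk.trans (min_le_right _ _)) y)⟩)
    (fun c hc => by
      obtain ⟨δ, τ, hδ, hτ, h1⟩ := hn c (hx.trans_le hc.1) (hc.2.trans_lt hxh)
      exact ⟨Metric.ball c δ, mem_nhdsWithin_of_mem_nhds (Metric.ball_mem_nhds c hδ), τ, hτ,
        fun k hk y hy => h1 k y hk (by rwa [Metric.mem_ball, Real.dist_eq] at hy)⟩)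
  obtain ⟨N, hN⟩ := exists_nat_gt (h / τ)
  have hN1 : (0 : ℝ) < ((N + 1 : ℕ) : ℝ) := by positivity
  obtain ⟨k, hk⟩ : ∃ k : ℝ, ((N + 1 : ℕ) : ℝ) * k = h := ⟨h / (N + 1 : ℕ), by field_simp⟩
  have hk0 : 0 < k := by
    rw [← hk] at hh
    exact (mul_pos_iff_of_pos_left hN1).1 hh
  rw [div_lt_iff₀ hτ] at hN
  have hkτ : |k| ≤ τ := by
    rw [abs_of_pos hk0]
    refine le_of_mul_le_mul_left ?_ hN1
    rw [hk]
    push_cast
    linarith
  rw [← hk]
  refine diff_mul G n N k x fun j hj => hP k hkτ _ ⟨le_add_of_nonneg_right (by positivity), ?_⟩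
  have h1 : (j : ℝ) ≤ n * ((N + 1 : ℕ) : ℝ) := by
    exact_mod_cast hj.trans (Nat.mul_le_mul_left n (Nat.le_succ N))
  rw [← hk, ← mul_assoc]
  gcongr

end Pool.Agent.P.MP_6d4b14_an.TR
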