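import Pool.Agent.P.MP_6d4b14_an.TRChar
import Pool.Agent.P.MP_6d4b14_an.TRPer
import Pool.Agent.P.MP_6d4b14_an.TRPoly

/-! The trichotomy. -/

set_option linter.unusedSectionVars false
set_option linter.unusedVariables false

namespace Pool.Agent.P.MP_6d4b14_an.TR

open scoped Classical
open Function

theorem tri {g : ℝ → ℝ} (hg : HE g) :
    (∃ M : ℝ → ℝ, (∀ x ∈ Set.Icc (0 : ℝ) 1, ∀ y ∈ Set.Icc (0 : ℝ) 1, M (x * y) = M x * M y) ∧
      ∀ x ∈ Set.Icc (0 : ℝ) 1, sg g x = M x + M (1 - x)) ∨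
    (∀ ε : ℝ, 0 < ε → ∃ d : ℝ, 0 < d ∧ d < ε ∧
      ∀ x : ℝ, 0 ≤ x → x + d ≤ 1 → sg g (x + d) = sg g x) ∨
    ∃ n : ℕ, ∀ x h : ℝ, 0 < x → 0 < h → x + n * h < 1 → (fwdDiff h)^[n] (sg g) x = 0 := by
  by_cases h0 : sg g 0 = 1
  · by_cases h1 : ∃ a : ℝ, 0 < a ∧ a < 1 ∧ ¬ Tor (cl (lift (sg g)) a)
    · obtain ⟨a, ha, ha', hnt⟩ := h1
      exact Or.inl (char_case hg h0 ha ha' hnt)
    · right
      by_cases h2 : ∃ h : K, 0 < h ∧ h ∈ Inf ∧
          ∀ x : K, 0 ≤ x → x + h ≤ 1 → lift (sg g) (x + h) = lift (sg g) x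
      · obtain ⟨h, hh, hI, H⟩ := h2
        exact Or.inl fun ε hε => per_transfer hh hI H hε
      · refine Or.inr (glob fun c hc hc' => ?_)
        have ht : Tor (cl (sg (lift g)) c) := by
          rw [sg_lift]
          by_contra hn
          exact h1 ⟨c, hc, hc', hn⟩
        rcases dich (HE_lift hg) hc hc' ht with h | ⟨θ, hθ, H⟩
        · rw [sg_lift] at h
          exact absurd h h2
        · rw [sg_lift] at H
          exact lp_transfer hθ H
  · right; left
    have key : ∀ y : ℝ, 0 ≤ y → y ≤ 1 → sg g y * (sg g 0 - 1) = 2 * g 0 := by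
      intro y hy hy'
      have := hg 0 y le_rfl zero_le_one hy hy'
      simp only [zero_mul, sub_zero, one_mul] at this
      have e : sg g y = g y + g (1 - y) := rfl
      linear_combination -this - e
    intro ε hε
    refine ⟨ε / 2, by linarith, by linarith, fun x hx hx' => ?_⟩
    have e1 := key (x + ε / 2) (by linarith) hx'
    have e2 := key x hx (by linarith)
    exact mul_right_cancel₀ (sub_ne_zero.2 h0) (e1.trans e2.symm)

end Pool.Agent.P.MP_6d4b14_an.TR
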