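import Pool.Agent.P.MP_6d4b14_an.TRFun

/-! Twists of the fraction field of a group ring. -/

set_option linter.unusedSectionVars false
set_option linter.unusedVariables false

namespace Pool.Agent.P.MP_6d4b14_an.TR

open scoped Classical
open Function

variable {k Δ Γ : Type} [Field k] [AddCommGroup Δ] [Module ℚ Δ] [AddCommGroup Γ] [Module ℚ Γ]

theorem tw_alg (e : Multiplicative ℚ →* k) (ϕ : Δ →ₗ[ℚ] ℚ) (P : GR k Δ) :
    tw e ϕ (algebraMap (GR k Δ) (Om k Δ) P) = algebraMap (GR k Δ) (Om k Δ) (twR e ϕ P) := by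
  rw [tw, IsFractionRing.map, IsLocalization.map_eq]
  rfl

theorem tw_CO (e : Multiplicative ℚ →* k) (ϕ : Δ →ₗ[ℚ] ℚ) (c : k) :
    tw e ϕ (CO Δ c) = CO Δ c := by
  rw [CO, RingHom.comp_apply, tw_alg, AlgHom.commutes]

theorem trtw_single (δ : Δ) (c : k) :
    algebraMap (GR k Δ) (Om k Δ) (AddMonoidAlgebra.single δ c) = CO Δ c * XO k δ := by
  rw [CO, RingHom.comp_apply, XO, ← map_mul, Xg]
  simp [AddMonoidAlgebra.single_mul_single]

theorem trtw_sum (P : GR k Δ) {S : Finset Δ} (h : P.coeff.support ⊆ S) :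
    P = ∑ γ ∈ S, AddMonoidAlgebra.single γ (P.coeff γ) := by
  rw [← Finsupp.sum_of_support_subset P.coeff h AddMonoidAlgebra.single fun _ _ => by simp,
    AddMonoidAlgebra.sum_coeff_single]

theorem tw_XO (e : Multiplicative ℚ →* k) (ϕ : Δ →ₗ[ℚ] ℚ) (δ : Δ) :
    tw e ϕ (XO k δ) = CO Δ (e (Multiplicative.ofAdd (ϕ δ))) * XO k δ := by
  rw [← trtw_single, XO, tw_alg, Xg, twR_single, one_mul]

theorem tw_XO_zero (e : Multiplicative ℚ →* k) {ϕ : Δ →ₗ[ℚ] ℚ} {δ : Δ} (h : ϕ δ = 0) :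
    tw e ϕ (XO k δ) = XO k δ := by
  rw [tw_XO, h, ofAdd_zero, map_one, map_one, one_mul]

theorem trtw_fix (e : Multiplicative ℚ →* k) {ϕ : Δ →ₗ[ℚ] ℚ} {P : GR k Δ}
    (h : ∀ s ∈ P.coeff.support, ϕ s = 0) : twR e ϕ P = P := by
  rw [trtw_sum P subset_rfl, map_sum]
  refine Finset.sum_congr rfl fun s hs => ?_
  rw [twR_single, h s hs, ofAdd_zero, map_one, mul_one]

theorem tw_zero (e : Multiplicative ℚ →* k) (ω : Om k Δ) : tw e (0 : Δ →ₗ[ℚ] ℚ) ω = ω := by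
  obtain ⟨P, Q, -, rfl⟩ := IsFractionRing.div_surjective (GR k Δ) ω
  rw [map_div₀, tw_alg, tw_alg, trtw_fix e fun _ _ => rfl, trtw_fix e fun _ _ => rfl]

theorem CO_e_ne {e : Multiplicative ℚ →* k} (he : e (Multiplicative.ofAdd 1) ≠ 1) :
    CO Δ (e (Multiplicative.ofAdd 1)) ≠ 1 := fun h =>
  he ((CO Δ).injective (h.trans (map_one _).symm))

/-- finitely many elements are fixed by all twists that vanish on a finite set -/
theorem fin_supp (e : Multiplicative ℚ →* k) (T : Finset (Om k Δ)) :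
    ∃ S : Finset Δ, ∀ ϕ : Δ →ₗ[ℚ] ℚ, (∀ s ∈ S, ϕ s = 0) → ∀ ω ∈ T, tw e ϕ ω = ω := by
  choose P Q _ h using fun ω : Om k Δ => IsFractionRing.div_surjective (GR k Δ) ω
  refine ⟨T.biUnion fun ω => (P ω).coeff.support ∪ (Q ω).coeff.support, fun ϕ hϕ ω hω => ?_⟩
  have h1 : twR e ϕ (P ω) = P ω := trtw_fix e fun s hs =>
    hϕ s (Finset.mem_biUnion.2 ⟨ω, hω, Finset.mem_union_left _ hs⟩)
  have h2 : twR e ϕ (Q ω) = Q ω := trtw_fix e fun s hs =>
    hϕ s (Finset.mem_biUnion.2 ⟨ω, hω, Finset.mem_union_right _ hs⟩)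
  calc tw e ϕ ω = tw e ϕ (_ / _) := by rw [h ω]
    _ = ω := by rw [map_div₀, tw_alg, tw_alg, h1, h2, h ω]

theorem exists_phi {N : Submodule ℚ Δ} {δ : Δ} (h : δ ∉ N) :
    ∃ ϕ : Δ →ₗ[ℚ] ℚ, ϕ δ = 1 ∧ ∀ s ∈ N, ϕ s = 0 := by
  obtain ⟨f, h1, h2⟩ := Submodule.exists_dual_map_eq_bot_of_notMem h inferInstance
  refine ⟨(f δ)⁻¹ • f, by simp [h1], fun s hs => ?_⟩
  have h3 : f s = 0 := (Submodule.eq_bot_iff _).1 h2 _ (Submodule.mem_map_of_mem hs)
  simp [h3]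

theorem fixed_const {e : Multiplicative ℚ →* k} (he : e (Multiplicative.ofAdd 1) ≠ 1)
    {ω : Om k Δ} (h : ∀ ϕ : Δ →ₗ[ℚ] ℚ, tw e ϕ ω = ω) : ∃ c : k, ω = CO Δ c := by
  obtain ⟨P, Q, hQ, hω⟩ := IsFractionRing.div_surjective (GR k Δ) ω
  have hQ0 := nonZeroDivisors.ne_zero hQ
  have hP : algebraMap (GR k Δ) (Om k Δ) P = ω * algebraMap (GR k Δ) (Om k Δ) Q := by
    rw [← hω, div_mul_cancel₀]
    exact IsFractionRing.to_map_ne_zero_of_mem_nonZeroDivisors hQ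
  let χ : Δ → (Multiplicative (Δ →ₗ[ℚ] ℚ) →* Om k Δ) := fun γ =>
    { toFun := fun ϕ => CO Δ (e (Multiplicative.ofAdd (ϕ.toAdd γ)))
      map_one' := by simp
      map_mul' := fun a b => by simp [ofAdd_add] }
  have hχ : Injective χ := by
    intro γ γ' hγ
    by_contra hne
    obtain ⟨ϕ, h1, -⟩ := exists_phi (N := ⊥) (δ := γ - γ') (by simpa [sub_eq_zero] using hne)
    have h2 : e (Multiplicative.ofAdd (ϕ γ)) = e (Multiplicative.ofAdd (ϕ γ')) :=
      (CO Δ).injective (DFunLike.congr_fun hγ (Multiplicative.ofAdd ϕ))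
    rw [map_sub, sub_eq_iff_eq_add] at h1
    rw [h1, ofAdd_add, map_mul] at h2
    exact he (mul_left_eq_self₀.1 h2 |>.resolve_right ((Group.isUnit _).map e).ne_zero)
  have hi := linearIndependent_iff'.1 ((linearIndependent_monoidHom _ _).comp χ hχ)
    (P.coeff.support ∪ Q.coeff.support)
    (fun γ => (CO Δ (P.coeff γ) - ω * CO Δ (Q.coeff γ)) * XO k γ) (funext fun ϕ => ?_)
  · obtain ⟨γ, hγ⟩ := Finsupp.support_nonempty_iff.2 (AddMonoidAlgebra.coeff_eq_zero.not.2 hQ0)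
    have h1 := (mul_eq_zero.1 (hi γ (Finset.mem_union_right _ hγ))).resolve_right (XO_ne_zero γ)
    refine ⟨P.coeff γ / Q.coeff γ, ?_⟩
    rw [map_div₀, eq_div_iff ((map_ne_zero _).2 (Finsupp.mem_support_iff.1 hγ))]
    exact (sub_eq_zero.1 h1).symm
  have key : ∀ R : GR k Δ, R.coeff.support ⊆ P.coeff.support ∪ Q.coeff.support →
      tw e ϕ.toAdd (algebraMap (GR k Δ) (Om k Δ) R) =
        ∑ γ ∈ P.coeff.support ∪ Q.coeff.support, CO Δ (R.coeff γ) * (χ γ ϕ * XO k γ) := by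
    intro R hR
    conv_lhs => rw [trtw_sum R hR]
    simp only [map_sum, trtw_single, map_mul, tw_CO, tw_XO]
    rfl
  have h1 := key P Finset.subset_union_left
  rw [hP, map_mul, h, key Q Finset.subset_union_right, Finset.mul_sum, ← sub_eq_zero,
    ← Finset.sum_sub_distrib] at h1
  rw [Finset.sum_apply, Pi.zero_apply, ← neg_eq_zero, ← Finset.sum_neg_distrib, ← h1]
  refine Finset.sum_congr rfl fun γ _ => ?_
  simp only [Pi.smul_apply, comp_apply, smul_eq_mul]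
  ring

theorem emb_alg (j : Γ →ₗ[ℚ] Δ) (hj : Injective j) (P : GR k Γ) :
    emb k j hj (algebraMap (GR k Γ) (Om k Γ) P) = algebraMap (GR k Δ) (Om k Δ) (embR k j P) := by
  rw [emb, IsFractionRing.map, IsLocalization.map_eq]

theorem emb_XO (j : Γ →ₗ[ℚ] Δ) (hj : Injective j) (γ : Γ) :
    emb k j hj (XO k γ) = XO k (j γ) := by
  rw [XO, emb_alg, Xg, embR_single, XO, Xg]

theorem emb_CO (j : Γ →ₗ[ℚ] Δ) (hj : Injective j) (c : k) : emb k j hj (CO Γ c) = CO Δ c := by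
  have h := emb_alg j hj (AddMonoidAlgebra.single 0 c)
  rwa [embR_single, map_zero, trtw_single, trtw_single, XO_zero, XO_zero, mul_one, mul_one] at h

theorem tw_emb (e : Multiplicative ℚ →* k) (ϕ : Δ →ₗ[ℚ] ℚ) (j : Γ →ₗ[ℚ] Δ) (hj : Injective j)
    (ω : Om k Γ) : tw e ϕ (emb k j hj ω) = emb k j hj (tw e (ϕ ∘ₗ j) ω) := by
  have h : ∀ P : GR k Γ, tw e ϕ (emb k j hj (algebraMap (GR k Γ) (Om k Γ) P)) =
      emb k j hj (tw e (ϕ ∘ₗ j) (algebraMap (GR k Γ) (Om k Γ) P)) := by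
    intro P
    rw [trtw_sum P subset_rfl]
    simp only [map_sum, trtw_single, map_mul, tw_CO, tw_XO, emb_CO, emb_XO, LinearMap.comp_apply]
  obtain ⟨P, Q, -, rfl⟩ := IsFractionRing.div_surjective (GR k Γ) ω
  simp only [map_div₀, h]

/-- the two copies of the field meet in the constants -/
theorem emb_cap {e : Multiplicative ℚ →* k} (he : e (Multiplicative.ofAdd 1) ≠ 1) {ω ω' : Om k Γ}
    (h : emb k (LinearMap.inl ℚ Γ Γ) LinearMap.inl_injective ω =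
      emb k (LinearMap.inr ℚ Γ Γ) LinearMap.inr_injective ω') : ∃ c : k, ω' = CO Γ c := by
  refine fixed_const he fun ϕ => ?_
  have h1 := congrArg (tw e (ϕ ∘ₗ LinearMap.snd ℚ Γ Γ)) h
  rw [tw_emb, tw_emb, LinearMap.comp_assoc, LinearMap.comp_assoc, LinearMap.snd_comp_inl,
    LinearMap.snd_comp_inr, LinearMap.comp_zero, LinearMap.comp_id, tw_zero, h] at h1
  exact ((emb k _ _).injective h1).symm

theorem free1 {Ω : Type} [Field Ω] (σ : Ω →+* Ω) {A B Y τ : Ω} (hA : σ A = A) (hB : σ B = B)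
    (hY : σ Y = τ * Y) (hτ : τ ≠ 1) (h0 : Y ≠ 0) (h : A + Y * B = 0) : A = 0 ∧ B = 0 := by
  have h1 := congrArg σ h
  rw [map_add, map_mul, hA, hB, hY, map_zero] at h1
  have h2 : (τ - 1) * (Y * B) = 0 := by linear_combination h1 - h
  have h3 := (mul_eq_zero.1 h2).resolve_left (sub_ne_zero.2 hτ)
  exact ⟨by rwa [h3, add_zero] at h, (mul_eq_zero.1 h3).resolve_left h0⟩

theorem hex {Ω : Type} [Field Ω] (σ : Fin 3 → (Ω →+* Ω)) {A B Y : Fin 3 → Ω} {τ : Ω}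
    (hA : ∀ i j, σ i (A j) = A j) (hB : ∀ i j, σ i (B j) = B j) (hY : ∀ i, σ i (Y i) = τ * Y i)
    (hY' : ∀ i j, i ≠ j → σ i (Y j) = Y j) (hτ : τ ≠ 1) (h0 : ∀ i, Y i ≠ 0)
    (h : (Y 1 - Y 2) * (A 0 + Y 0 * B 0) + (Y 2 - Y 0) * (A 1 + Y 1 * B 1) +
      (Y 0 - Y 1) * (A 2 + Y 2 * B 2) = 0) :
    A 0 = A 1 ∧ A 1 = A 2 ∧ B 0 = B 1 ∧ B 1 = B 2 := by
  have y01 := hY' 0 1 (by decide)
  have y02 := hY' 0 2 (by decide)
  have y12 := hY' 1 2 (by decide)
  obtain ⟨a, b⟩ := free1 (σ 0)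
    (A := (Y 1 - Y 2) * A 0 + Y 2 * (A 1 + Y 1 * B 1) - Y 1 * (A 2 + Y 2 * B 2))
    (B := (Y 1 - Y 2) * B 0 - (A 1 + Y 1 * B 1) + (A 2 + Y 2 * B 2))
    (by simp only [map_sub, map_add, map_mul, hA, hB, y01, y02])
    (by simp only [map_sub, map_add, map_mul, hA, hB, y01, y02]) (hY 0) hτ (h0 0)
    (by linear_combination h)
  obtain ⟨c, d⟩ := free1 (σ 1) (A := A 2 - A 1 + Y 2 * (B 2 - B 0)) (B := B 0 - B 1)
    (by simp only [map_sub, map_add, map_mul, hA, hB, y12]) (by simp only [map_sub, hB])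
    (hY 1) hτ (h0 1) (by linear_combination b)
  obtain ⟨f, g⟩ := free1 (σ 2) (A := A 2 - A 1) (B := B 2 - B 0) (by simp only [map_sub, hA])
    (by simp only [map_sub, hB]) (hY 2) hτ (h0 2) c
  obtain ⟨u, -⟩ := free1 (σ 1) (A := Y 2 * (A 1 - A 0)) (B := A 0 - A 2 + Y 2 * (B 1 - B 2))
    (by simp only [map_sub, map_mul, hA, y12])
    (by simp only [map_sub, map_add, map_mul, hA, hB, y12]) (hY 1) hτ (h0 1)
    (by linear_combination a)
  have v := (mul_eq_zero.1 u).resolve_left (h0 2)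
  exact ⟨by linear_combination -v, by linear_combination -f, by linear_combination d,
    by linear_combination -d - g⟩

/-- vectors without a common orthogonal vector contain a basis -/
theorem exists_det {Ω ι : Type} [Field Ω] {n : ℕ} (r : ι → Fin n → Ω)
    (h : ∀ v : Fin n → Ω, (∀ i, ∑ j, r i j * v j = 0) → v = 0) :
    ∃ m : Fin n → ι, (Matrix.of fun a b => r (m a) b).det ≠ 0 := by
  have hs : Submodule.span Ω (Set.range r) = ⊤ := by
    by_contra hne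
    obtain ⟨f, h1, h2⟩ := Submodule.exists_le_ker_of_lt_top _ (lt_top_iff_ne_top.2 hne)
    have h3 := h (fun j => f fun l => if j = l then 1 else 0) fun i => by
      have h4 : f (r i) = 0 := h2 (Submodule.subset_span ⟨i, rfl⟩)
      rwa [LinearMap.pi_apply_eq_sum_univ] at h4
    refine h1 (LinearMap.ext fun x => ?_)
    rw [LinearMap.pi_apply_eq_sum_univ]
    exact Finset.sum_eq_zero fun j _ => by rw [show f _ = 0 from congrFun h3 j, smul_zero]
  obtain ⟨κ, a, -, h1, h2⟩ := exists_linearIndependent' Ω r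
  let b := Module.Basis.mk h2 (h1.trans hs).ge
  let σ := (Pi.basisFun Ω (Fin n)).indexEquiv b
  refine ⟨fun i => a (σ i), ?_⟩
  rw [← isUnit_iff_ne_zero, ← Matrix.isUnit_iff_isUnit_det,
    ← Matrix.linearIndependent_rows_iff_isUnit]
  exact h2.comp σ σ.injective

end Pool.Agent.P.MP_6d4b14_an.TR
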